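import Pool.Agent.Helper855.AffineTrie

/-!
The Weyl module of highest weight `3 ω_1` in characteristic `23` is reducible.
-/

set_option autoImplicit false

namespace Pool.Agent.Helper855.Affine

open Tr

/-- The combination of words giving the submodule. -/
def cert : Tr :=
  n 0 (n 0 (n 0 z (n 0 z (n 0 (n 0 (n 0 z (n 0 z (n 0 z (n 4 z z)))) (n 0 (n 0 z (n 0 z (n
  (-5) z z))) z)) z))) (n 0 (n 0 z (n 0 (n 0 z (n 0 (n 0 z (n 0 z (n 1 z z))) z)) z)) (n 0 (n
  0 (n 0 (n 0 z (n 0 z (n 0 z (n 4 z z)))) z) (n 0 (n 0 (n 0 z (n 0 z (n 6 z z))) z) z)) (n 0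
  (n 0 z (n 0 (n 0 (n 0 z (n (-10) z z)) z) z)) z)))) (n 0 (n 0 (n 0 (n 0 z (n 0 (n 0 z (n 0 z
  (n 0 z (n 8 z z)))) z)) (n 0 (n 0 z (n 0 (n 0 z (n 0 z (n 1 z z))) z)) (n 0 (n 0 (n 0 z (n 0
  z (n (-10) z z))) z) z))) (n 0 (n 0 (n 0 z (n 0 z (n 0 (n 0 z (n (-11) z z)) z))) (n 0 (n 0
  z (n 0 (n 0 z (n (-9) z z)) z)) (n 0 (n 0 (n 0 z (n (-1) z z)) z) z))) z)) (n 0 (n 0 (n 0 z
  (n 0 (n 0 z (n 0 (n 0 z (n (-4) z z)) z)) (n 0 (n 0 (n 0 z (n (-9) z z)) z) z))) z) z))

lemma cert_hom : hom 4 5 cert = true := by decide +kernel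

lemma cert_chk : chk 9 4 5 cert = true := by decide +kernel

lemma cert_pair : pair cert cert = 23 * (pair cert cert / 23) := by decide +kernel

lemma cert_pair' : (pair cert cert / 23) % 23 ≠ 0 := by decide +kernel

lemma ev_count (c : ℂ) (α : Fin 2 → ℂ) (J : List (Fin 2)) :
    ev c α J = c - J.count 0 * α 0 - J.count 1 * α 1 := by
  induction J with
  | nil => simp [ev]
  | cons i J ih =>
    rw [ev_cons, ih]
    have hi : i = 0 ∨ i = 1 := by omega
    rcases hi with rfl | rfl
    · rw [List.count_cons_self, List.count_cons_of_ne (by decide)]; push_cast; ring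
    · rw [List.count_cons_self, List.count_cons_of_ne (by decide)]; push_cast; ring

lemma length_count (J : List (Fin 2)) : J.length = J.count 0 + J.count 1 := by
  induction J with
  | nil => simp
  | cons i J ih =>
    have hi : i = 0 ∨ i = 1 := by omega
    rcases hi with rfl | rfl
    · rw [List.count_cons_self, List.count_cons_of_ne (by decide), List.length_cons, ih]; omega
    · rw [List.count_cons_self, List.count_cons_of_ne (by decide), List.length_cons, ih]; omega

theorem reducible23 (F : Type*) [Field F] [CharP F 23] : ¬ IsIrreducible F (weight 3 3) := by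
  have hl : lz (weight 3 3) = l3 := by
    funext i
    have hi : i = 0 ∨ i = 1 := by omega
    rcases hi with rfl | rfl <;> simp [lz, l3, weight]
  have hq : Nat.Prime 23 := by norm_num
  refine reducible hq (Tr.ev cert) (int_ev cert) ?_ ?_ (pair cert cert / 23) ?_ ?_ F
  · intro i
    rw [hl, hT, hom_gT cert 4 5 cert_hom]
    refine ⟨l3 i - 4 * cartan i 0 - 5 * cartan i 1, ?_⟩
    push_cast
    rfl
  · intro J
    rw [hl]
    have h1 := pW_gT l3 0 (fun j => if j = 0 then 1 else 0) J (Tr.ev cert)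
    have h2 := pW_gT l3 0 (fun j => if j = 0 then 0 else 1) J (Tr.ev cert)
    rw [hom_gT cert 4 5 cert_hom, map_smul, smul_eq_mul, ev_count] at h1 h2
    simp only [if_true, show ((1 : Fin 2) = 0) = False from by simp, if_false, mul_zero, mul_one,
      sub_zero, zero_sub] at h1 h2
    by_cases h0 : pW l3 J (Tr.ev cert) = 0
    · exact Or.inl h0
    · right
      have c0 : J.count 0 = 4 := by
        have := mul_right_cancel₀ h0 h1
        have h3 : ((J.count 0 : ℕ) : ℂ) = ((4 : ℕ) : ℂ) := by
          push_cast; push_cast at this; linear_combination this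
        exact_mod_cast h3
      have c1 : J.count 1 = 5 := by
        have := mul_right_cancel₀ h0 h2
        have h3 : ((J.count 1 : ℕ) : ℂ) = ((5 : ℕ) : ℂ) := by
          push_cast; push_cast at this; linear_combination this
        exact_mod_cast h3
      refine ⟨by omega, by omega, ?_⟩
      obtain ⟨m, hm⟩ := chk_pW 9 4 5 cert cert_chk J (by rw [length_count]; omega) c0 c1
      exact ⟨m, by rw [hm]; push_cast; rfl⟩
  · rw [hl, B_ev, cert_pair]
    push_cast
    rfl
  · intro h
    exact cert_pair' (Int.emod_eq_zero_of_dvd (by exact_mod_cast h))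

end Pool.Agent.Helper855.Affine
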