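import Pool.Agent.Helper855.AffineLattice

/-!
A criterion for reducibility of a Weyl module in terms of a combination of words.
-/

set_option autoImplicit false
set_option linter.unusedSectionVars false

open scoped TensorProduct

namespace Pool.Agent.Helper855.Affine

/-- Products of the `e_i`; the first one is applied first. -/
noncomputable def eo : List (Fin 2) → UA
  | [] => 1
  | i :: J => eo J * e i

/-- The word of a list of powers. -/
def expand : List (Fin 2 × ℕ) → List (Fin 2)
  | [] => []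
  | p :: w => List.replicate p.2 p.1 ++ expand w

/-- The product of the factorials. -/
def factProd : List (Fin 2 × ℕ) → ℕ
  | [] => 1
  | p :: w => p.2.factorial * factProd w

lemma fw_append (A B : List (Fin 2)) : fw (A ++ B) = fw A * fw B := by
  induction A with
  | nil => rw [fw, one_mul]; rfl
  | cons i A ih => rw [List.cons_append, fw, fw, ih, mul_assoc]

lemma fw_replicate (i : Fin 2) (k : ℕ) : fw (List.replicate k i) = f i ^ k := by
  induction k with
  | zero => rw [pow_zero]; rfl
  | succ k ih => rw [List.replicate_succ, fw, ih, pow_succ']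

lemma eo_append (A B : List (Fin 2)) : eo (A ++ B) = eo B * eo A := by
  induction A with
  | nil => rw [eo, mul_one]; rfl
  | cons i A ih => rw [List.cons_append, eo, eo, ih, mul_assoc]

lemma eo_replicate (i : Fin 2) (k : ℕ) : eo (List.replicate k i) = e i ^ k := by
  induction k with
  | zero => rw [pow_zero]; rfl
  | succ k ih => rw [List.replicate_succ, eo, ih, pow_succ]

lemma fact_fwd (w : List (Fin 2 × ℕ)) : (factProd w : ℂ) • fwd w = fw (expand w) := by
  induction w with
  | nil => rw [factProd]; simp [fwd, expand, fw]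
  | cons p w ih =>
    rw [factProd, fwd, expand, fw_append, fw_replicate, ← ih, ← fact_dpow]
    simp only [smul_mul_assoc, mul_smul_comm, smul_smul]
    push_cast
    rw [mul_comm (factProd w : ℂ)]

lemma fact_ewd (w : List (Fin 2 × ℕ)) : (factProd w : ℂ) • ewd w = eo (expand w) := by
  induction w with
  | nil => rw [factProd]; simp [ewd, expand, eo]
  | cons p w ih =>
    rw [factProd, ewd, expand, eo_append, eo_replicate, ← ih, ← fact_dpow]
    simp only [smul_mul_assoc, mul_smul_comm, smul_smul]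
    push_cast
    rfl

lemma factProd_coprime {q : ℕ} (hq : q.Prime) (w : List (Fin 2 × ℕ))
    (h0 : (expand w).count 0 < q) (h1 : (expand w).count 1 < q) : Nat.Coprime q (factProd w) := by
  induction w with
  | nil => exact Nat.coprime_one_right q
  | cons p w ih =>
    obtain ⟨i, k⟩ := p
    simp only [expand, List.count_append, List.count_replicate] at h0 h1
    rw [factProd]
    refine Nat.Coprime.mul_right ?_ (ih (by omega) (by omega))
    have hk : k < q := by
      fin_cases i
      · simp at h0; omega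
      · simp at h1; omega
    rw [Nat.Prime.coprime_iff_not_dvd hq, hq.dvd_factorial]
    simpa using hk

variable {lam : Fin 2 → ℕ}

lemma eo_Phi (J : List (Fin 2)) : ∀ t : T, epsL lam (eo J • Phi (vlam lam) t) = pW (lz lam) J t := by
  induction J with
  | nil => intro t; rw [eo, one_smul, epsL_Phi]; rfl
  | cons i J ih => intro t; rw [eo, mul_smul, ← (vlamHW lam).Phi_eT, ih]; rfl

lemma ewd_mem (w : List (Fin 2 × ℕ)) : ewd w ∈ UZ := by
  induction w with
  | nil => exact one_mem _
  | cons p w ih => rw [ewd]; exact mul_mem ih (dpow_e_mem _ _)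

lemma fwd_mem (w : List (Fin 2 × ℕ)) : fwd w ∈ UZ := by
  induction w with
  | nil => exact one_mem _
  | cons p w ih => rw [fwd]; exact mul_mem (dpow_f_mem _ _) ih

lemma eo_mem (J : List (Fin 2)) : eo J ∈ UZ := by
  induction J with
  | nil => exact one_mem _
  | cons i J ih => rw [eo]; exact mul_mem ih (e_mem i)

/-- Divisibility argument. -/
lemma div_arg {q : ℕ} (hq : q.Prime) (w : List (Fin 2 × ℕ)) {z p : ℂ} (hz : ∃ m : ℤ, z = m)
    (hp : (factProd w : ℂ) * z = p)
    (hJ : p = 0 ∨ ((expand w).count 0 < q ∧ (expand w).count 1 < q ∧ ∃ m : ℤ, p = q * m)) :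
    z ∈ mult q := by
  have hf : (factProd w : ℂ) ≠ 0 := by
    have : ∀ w : List (Fin 2 × ℕ), factProd w ≠ 0 := by
      intro w
      induction w with
      | nil => simp [factProd]
      | cons p w ih => rw [factProd]; exact mul_ne_zero (Nat.factorial_ne_zero _) ih
    exact_mod_cast this w
  rcases hJ with h0 | ⟨h1, h2, m, hm⟩
  · rw [h0] at hp
    rcases mul_eq_zero.mp hp with h | h
    · exact absurd h hf
    · rw [h]; exact zero_mem _
  · obtain ⟨n, rfl⟩ := hz
    have h3 : (factProd w : ℤ) * n = q * m := by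
      have : ((factProd w : ℤ) : ℂ) * (n : ℂ) = ((q : ℤ) : ℂ) * (m : ℂ) := by
        push_cast; rw [hp, hm]
      exact_mod_cast this
    have h4 := factProd_coprime hq w h1 h2
    have h5 : IsCoprime (q : ℤ) (factProd w : ℤ) := Nat.isCoprime_iff_coprime.mpr h4
    have h6 : (q : ℤ) ∣ (factProd w : ℤ) * n := ⟨m, h3⟩
    obtain ⟨k, hk⟩ := h5.dvd_of_dvd_mul_left h6
    exact mem_mult.mpr ⟨k, by rw [hk]⟩

/-- The element of the enveloping algebra pairing with a combination of words. -/
noncomputable def dag (t : T) : UA := t.sum fun J a => a • eo J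

lemma dag_zero : dag 0 = 0 := by simp [dag]

lemma dag_add (s t : T) : dag (s + t) = dag s + dag t := by
  unfold dag
  rw [Finsupp.sum_add_index'] <;> intros <;> simp [add_smul]

lemma dag_single (J : List (Fin 2)) (a : ℂ) : dag (Finsupp.single J a) = a • eo J := by
  unfold dag
  rw [Finsupp.sum_single_index]; simp

lemma dag_Phi (t s : T) : epsL lam (dag t • Phi (vlam lam) s) = B (lz lam) t s := by
  induction t using Finsupp.induction_linear with
  | zero => rw [dag_zero]; simp
  | add x y hx hy => rw [dag_add, add_smul, map_add, hx, hy, map_add, LinearMap.add_apply]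
  | single J a => rw [dag_single, smul_assoc, map_smul, eo_Phi, B_single, smul_eq_mul]

/-- Words with integer coefficients. -/
def IntT (t : T) : Prop := ∀ J, ∃ m : ℤ, t J = m

lemma dag_mem {t : T} (ht : IntT t) : dag t ∈ UZ := by
  unfold dag
  refine sum_mem fun J _ => ?_
  obtain ⟨m, hm⟩ := ht J
  beta_reduce
  rw [hm, Algebra.smul_def, map_intCast]
  exact mul_mem (intCast_mem UZ m) (eo_mem J)

lemma Phi_mem {t : T} (ht : IntT t) : Phi (vlam lam) t ∈ VZ lam := by
  rw [Phi, Finsupp.linearCombination_apply]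
  refine sum_mem fun J _ => ?_
  obtain ⟨m, hm⟩ := ht J
  beta_reduce
  rw [hm, Int.cast_smul_eq_zsmul]
  exact zsmul_mem (smul_mem_VZ lam (fw_mem J) (v_mem_VZ lam)) m

lemma exists_intmap (g : LC lam → ℂ) (hg : ∀ x y, g (x + y) = g x + g y) (c : ℂ) (hc : c ≠ 0)
    (H : ∀ x ∈ VZ lam, ∃ m : ℤ, g x = c * m) :
    ∃ φ : VZ lam →ₗ[ℤ] ℤ, ∀ x : VZ lam, g x = c * φ x := by
  have H' : ∀ x : VZ lam, ∃ m : ℤ, g x = c * m := fun x => H x x.2
  choose φ hφ using H'
  refine ⟨(AddMonoidHom.mk' φ fun x y => ?_).toIntLinearMap, fun x => hφ x⟩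
  have h1 : c * (φ (x + y) : ℂ) = c * ((φ x : ℂ) + φ y) := by
    rw [← hφ, mul_add, ← hφ, ← hφ]
    exact hg _ _
  exact_mod_cast mul_left_cancel₀ hc h1

/-- Extension of scalars of an integral functional. -/
noncomputable def toF (F : Type*) [Field F] (φ : VZ lam →ₗ[ℤ] ℤ) : Weyl F lam →ₗ[F] F :=
  show (F ⊗[ℤ] Lat lam) →ₗ[F] F from
    (TensorProduct.AlgebraTensorModule.rid ℤ F F).toLinearMap ∘ₗ
      (show Lat lam →ₗ[ℤ] ℤ from φ).baseChange F

/-- Pure tensors `1 ⊗ x`. -/
noncomputable def one_t (F : Type*) [Field F] (x : VZ lam) : Weyl F lam :=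
  show F ⊗[ℤ] Lat lam from (1 : F) ⊗ₜ[ℤ] (show Lat lam from x)

lemma toF_one (F : Type*) [Field F] (φ : VZ lam →ₗ[ℤ] ℤ) (x : VZ lam) :
    toF F φ (one_t F x) = (φ x : F) := by
  change (TensorProduct.AlgebraTensorModule.rid ℤ F F) ((1 : F) ⊗ₜ[ℤ] (φ x)) = _
  rw [TensorProduct.AlgebraTensorModule.rid_tmul]
  simp

lemma actF_one_t (F : Type*) [Field F] (u : UZ) (x : VZ lam) :
    actF F lam u (one_t F x) = one_t F (u • x) := rfl

lemma actF_mul (F : Type*) [Field F] (u u' : UZ) (x : Weyl F lam) :
    actF F lam (u * u') x = actF F lam u (actF F lam u' x) := by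
  have h1 : actZ lam (u * u') = actZ lam u ∘ₗ actZ lam u' := by
    refine LinearMap.ext fun x => ?_
    exact mul_smul u u' x
  have h2 : actF F lam (u * u') = actF F lam u ∘ₗ actF F lam u' := by
    unfold actF
    rw [h1]
    exact LinearMap.baseChange_comp _ _
  rw [h2]; rfl

/-- The criterion: a homogeneous combination `t` of words, with integer coefficients, which is in
the radical of the form modulo `q`, with `(t, t)` not divisible by `q^2`, gives a nonzero proper
submodule of the Weyl module in characteristic `q`. -/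
theorem reducible {q : ℕ} (hq : q.Prime) (t : T) (ht : IntT t)
    (hwt : ∀ i, ∃ μ : ℤ, hT (lz lam) i t = (μ : ℂ) • t)
    (hdiv : ∀ J : List (Fin 2), pW (lz lam) J t = 0 ∨
      (J.count 0 < q ∧ J.count 1 < q ∧ ∃ m : ℤ, pW (lz lam) J t = q * m))
    (n : ℤ) (hn : B (lz lam) t t = q * n) (hqn : ¬ (q : ℤ) ∣ n)
    (F : Type*) [Field F] [CharP F q] : ¬ IsIrreducible F lam := by
  rintro ⟨-, hirr⟩
  set w : LC lam := Phi (vlam lam) t with hw
  have hwVZ : w ∈ VZ lam := Phi_mem ht
  have hqC : (q : ℂ) ≠ 0 := by exact_mod_cast hq.ne_zero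
  -- `w` is in `R q`
  have hwR : w ∈ R lam q := by
    choose μ hμ using hwt
    refine ⟨⟨μ, fun i => ?_⟩, fun W => ?_⟩
    · unfold Wt
      rw [hw, ← (vlamHW lam).Phi_hT, hμ, map_smul]
    · refine div_arg hq W (p := pW (lz lam) (expand W) t) ?_ ?_ (hdiv _)
      · exact eps_VZ lam (smul_mem_VZ lam (ewd_mem W) hwVZ)
      · rw [← smul_eq_mul, ← map_smul, ← smul_assoc, fact_ewd, hw, eo_Phi]
  -- the functional `ψ`
  have hψ : ∀ x ∈ VZ lam, ∃ m : ℤ, epsL lam (dag t • x) = (q : ℂ) * m := by
    have h1 : ∀ x ∈ S lam, epsL lam (dag t • x) ∈ mult q := by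
      intro x hx
      unfold S at hx
      induction hx using AddSubgroup.closure_induction with
      | mem x hx =>
        obtain ⟨W, rfl⟩ := hx
        refine div_arg hq W (p := pW (lz lam) (expand W) t) ?_ ?_ (hdiv _)
        · exact eps_VZ lam (smul_mem_VZ lam (dag_mem ht)
            (smul_mem_VZ lam (fwd_mem W) (v_mem_VZ lam)))
        · change (factProd W : ℂ) * epsL lam (dag t • fwd W • vlam lam) = _
          rw [← smul_eq_mul, ← map_smul, ← smul_comm (dag t), ← smul_assoc (factProd W : ℂ) (fwd W),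
            fact_fwd]
          have h2 : fw (expand W) • vlam lam = Phi (vlam lam) (Finsupp.single (expand W) 1) := by
            rw [Phi_single, one_smul]
          rw [h2, dag_Phi, B_symm, B_single, one_mul]
      | zero => rw [smul_zero, map_zero]; exact zero_mem _
      | add x y _ _ hx hy => rw [smul_add, map_add]; exact add_mem hx hy
      | neg x _ hx => rw [smul_neg, map_neg]; exact neg_mem hx
    intro x hx
    obtain ⟨m, hm⟩ := mem_mult.mp (h1 x (VZ_le_S lam hx))
    exact ⟨m, by rw [hm]; push_cast; rfl⟩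
  obtain ⟨ψ, hψ'⟩ := exists_intmap (fun x => epsL lam (dag t • x))
    (fun x y => by rw [smul_add, map_add]) (q : ℂ) hqC hψ
  obtain ⟨ε, hε'⟩ := exists_intmap (fun x => epsL lam x) (fun x y => map_add _ _ _) 1 one_ne_zero
    (fun x hx => by
      obtain ⟨m, hm⟩ := eps_VZ lam hx
      exact ⟨m, by rw [hm, one_mul]⟩)
  -- the submodule
  let N : Submodule F (Weyl F lam) :=
    { carrier := {x | ∀ u : UZ, toF F ε (actF F lam u x) = 0}
      add_mem' := by intro x y hx hy u; rw [map_add, map_add, hx u, hy u, add_zero]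
      zero_mem' := by intro u; rw [map_zero, map_zero]
      smul_mem' := by intro a x hx u; rw [map_smul, map_smul, hx u, smul_zero] }
  have hstable : IsStable F lam N := by
    intro u x hx u'
    rw [← actF_mul]
    exact hx _
  have hw0 : one_t F ⟨w, hwVZ⟩ ∈ N := by
    intro u
    rw [actF_one_t, toF_one]
    have h1 := eps_UZ lam u.2 hwR
    obtain ⟨m, hm⟩ := mem_mult.mp h1
    have h2 := hε' (u • (⟨w, hwVZ⟩ : VZ lam))
    have h3 : epsL lam ((u • (⟨w, hwVZ⟩ : VZ lam) : VZ lam) : LC lam) = ((q * m : ℤ) : ℂ) := hm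
    have h4 : ε (u • (⟨w, hwVZ⟩ : VZ lam)) = q * m := by
      have : (ε (u • (⟨w, hwVZ⟩ : VZ lam)) : ℂ) = ((q * m : ℤ) : ℂ) := by
        rw [← h3]
        rw [one_mul] at h2
        exact h2.symm
      exact_mod_cast this
    rw [h4]
    push_cast
    rw [CharP.cast_eq_zero, zero_mul]
  have hw1 : one_t F (⟨w, hwVZ⟩ : VZ lam) ≠ 0 := by
    intro h0
    have h1 := congrArg (toF F ψ) h0
    rw [toF_one, map_zero] at h1
    have h2 := hψ' ⟨w, hwVZ⟩
    change epsL lam (dag t • Phi (vlam lam) t) = _ at h2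
    rw [dag_Phi, hn] at h2
    have h3 : (ψ ⟨w, hwVZ⟩ : ℂ) = n := (mul_left_cancel₀ hqC h2).symm
    have h4 : ψ ⟨w, hwVZ⟩ = n := by exact_mod_cast h3
    rw [h4] at h1
    exact hqn ((CharP.intCast_eq_zero_iff F q n).mp h1)
  rcases hirr N hstable with hN | hN
  · rw [hN, Submodule.mem_bot] at hw0
    exact hw1 hw0
  · have h1 : one_t F (⟨vlam lam, v_mem_VZ lam⟩ : VZ lam) ∈ N := by rw [hN]; trivial
    have h2 := h1 1
    rw [actF_one_t, one_smul, toF_one] at h2
    have h3 := hε' ⟨vlam lam, v_mem_VZ lam⟩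
    change epsL lam (vlam lam) = _ at h3
    rw [epsL_vlam, one_mul] at h3
    have h4 : ε ⟨vlam lam, v_mem_VZ lam⟩ = 1 := by exact_mod_cast h3.symm
    rw [h4] at h2
    simp at h2

end Pool.Agent.Helper855.Affine
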