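import Pool.Agent.Helper855.AffineVerma

/-!
The irreducible module, divided powers and integrality.
-/

set_option autoImplicit false
set_option linter.unusedSectionVars false

namespace Pool.Agent.Helper855.Affine

section simple

variable (lam : Fin 2 → ℕ)

lemma lcMk_surj : Function.Surjective (lcMk lam) := (maxSub lam).mkQ_surjective

/-- The functional on the irreducible module. -/
noncomputable def epsL : LC lam →ₗ[ℂ] ℂ :=
  show (Verma lam ⧸ maxSub lam) →ₗ[ℂ] ℂ from
  (((maxSub lam).restrictScalars ℂ).liftQ (eps lam) (fun _ hu => eps_maxSub lam hu)) ∘ₗ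
    (Submodule.Quotient.restrictScalarsEquiv ℂ (maxSub lam)).symm.toLinearMap

lemma epsL_mk (x : Verma lam) : epsL lam (lcMk lam x) = eps lam x := rfl

lemma lcMk_smul (a : ℂ) (x : Verma lam) : lcMk lam (a • x) = a • lcMk lam x := rfl

lemma vlamHW : HW lam (vlam lam) where
  ke i := by
    have h1 := (vacHW lam).ke i
    have h2 := congrArg (lcMk lam) h1
    rw [map_smul, map_zero] at h2
    exact h2
  kh i := by
    have h1 := (vacHW lam).kh i
    have h2 := congrArg (lcMk lam) h1
    rw [map_smul, lcMk_smul] at h2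
    exact h2
  kd := by
    have h1 := (vacHW lam).kd
    have h2 := congrArg (lcMk lam) h1
    rw [map_smul, map_zero] at h2
    exact h2

lemma lcMk_Phi (x : T) : lcMk lam (Phi (vac lam) x) = Phi (vlam lam) x := by
  induction x using Finsupp.induction_linear with
  | zero => simp
  | add x y hx hy => rw [map_add, map_add, map_add, hx, hy]
  | single J a => rw [Phi_single, Phi_single, lcMk_smul, map_smul]; rfl

lemma epsL_Phi (x : T) : epsL lam (Phi (vlam lam) x) = eps0 x := by
  rw [← lcMk_Phi, epsL_mk, eps_Phi]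

lemma PhiL_surj : Function.Surjective (Phi (vlam lam)) := by
  intro x
  obtain ⟨y, rfl⟩ := lcMk_surj lam x
  obtain ⟨t, rfl⟩ := Phi_surj lam y
  exact ⟨t, (lcMk_Phi lam t).symm⟩

lemma epsL_vlam : epsL lam (vlam lam) = 1 := by
  rw [← Phi_nil (vlam lam), epsL_Phi, eps0_nil]

lemma epsL_f (i : Fin 2) (x : LC lam) : epsL lam (f i • x) = 0 := by
  obtain ⟨t, rfl⟩ := PhiL_surj lam x
  rw [← Phi_fT, epsL_Phi, eps0_fT]

end simple

/-! ### Divided powers -/

section dpow

variable {M : Type*} [AddCommGroup M] [Module ℂ M] [Module UA M] [IsScalarTower ℂ UA M]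

lemma dpow_zero (x : UA) : dpow x 0 = 1 := by simp [dpow]

lemma dpow_one (x : UA) : dpow x 1 = x := by simp [dpow]

lemma mul_dpow (x : UA) (k : ℕ) : x * dpow x k = (k + 1 : ℂ) • dpow x (k + 1) := by
  rw [dpow, dpow, mul_smul_comm, ← pow_succ', smul_smul]
  congr 1
  rw [Nat.factorial_succ]
  have h1 : ((k : ℂ) + 1) ≠ 0 := by exact_mod_cast Nat.succ_ne_zero k
  have h2 : ((k.factorial : ℕ) : ℂ) ≠ 0 := by exact_mod_cast Nat.factorial_ne_zero k
  push_cast
  field_simp

lemma fact_dpow (x : UA) (k : ℕ) : (k.factorial : ℂ) • dpow x k = x ^ k := by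
  rw [dpow, smul_smul, mul_inv_cancel₀, one_smul]
  exact_mod_cast Nat.factorial_ne_zero k

/-- Divided powers with integer exponent (zero for negative exponents). -/
noncomputable def dpz (x : UA) (n : ℤ) : UA := if n < 0 then 0 else dpow x n.toNat

lemma dpz_nat (x : UA) (n : ℕ) : dpz x (n : ℤ) = dpow x n := by
  rw [dpz, if_neg (by omega)]; simp

lemma dpz_neg (x : UA) {n : ℤ} (hn : n < 0) : dpz x n = 0 := by rw [dpz, if_pos hn]

lemma mul_dpz (x : UA) (n : ℤ) : x * dpz x n = ((n + 1 : ℤ) : ℂ) • dpz x (n + 1) := by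
  rcases lt_trichotomy n (-1) with h | h | h
  · rw [dpz_neg x (by omega), dpz_neg x (by omega), mul_zero, smul_zero]
  · subst h
    rw [dpz_neg x (by omega)]
    simp
  · obtain ⟨k, rfl⟩ : ∃ k : ℕ, n = k := ⟨n.toNat, by omega⟩
    have : ((k : ℤ) + 1) = ((k + 1 : ℕ) : ℤ) := by push_cast; ring
    rw [this, dpz_nat, dpz_nat, mul_dpow]
    push_cast
    rfl

/-- Weight vectors for `h_i`. -/
def Wt (i : Fin 2) (μ : ℤ) (x : M) : Prop := h i • x = (μ : ℂ) • x

lemma Wt.smul_e {i j : Fin 2} {μ : ℤ} {x : M} (H : Wt i μ x) :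
    Wt i (μ + cartan i j) (e j • x) := by
  unfold Wt at *
  rw [cm_smul, ua_he, H, zsmul_ua, smul_comm, ← add_smul, ← Int.cast_add]

lemma Wt.smul_f {i j : Fin 2} {μ : ℤ} {x : M} (H : Wt i μ x) :
    Wt i (μ - cartan i j) (f j • x) := by
  unfold Wt at *
  rw [cm_smul, ua_hf, H, neg_smul, zsmul_ua, smul_comm, ← sub_eq_add_neg, ← sub_smul,
    ← Int.cast_sub]

lemma Wt.smul {i : Fin 2} {μ : ℤ} {x : M} (H : Wt i μ x) (a : ℂ) : Wt i μ (a • x) := by
  unfold Wt at *
  rw [smul_comm, H, smul_comm]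

lemma Wt.zero (i : Fin 2) (μ : ℤ) : Wt i μ (0 : M) := by
  unfold Wt; simp

lemma Wt.pow_e {i j : Fin 2} {μ : ℤ} {x : M} (H : Wt i μ x) (k : ℕ) :
    Wt i (μ + k * cartan i j) (e j ^ k • x) := by
  induction k with
  | zero => simpa using H
  | succ k ih =>
    rw [pow_succ', mul_smul]
    have := ih.smul_e (j := j)
    convert this using 1
    push_cast; ring

lemma Wt.pow_f {i j : Fin 2} {μ : ℤ} {x : M} (H : Wt i μ x) (k : ℕ) :
    Wt i (μ - k * cartan i j) (f j ^ k • x) := by
  induction k with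
  | zero => simpa using H
  | succ k ih =>
    rw [pow_succ', mul_smul]
    have := ih.smul_f (j := j)
    convert this using 1
    push_cast; ring

lemma Wt.dpow_e {i j : Fin 2} {μ : ℤ} {x : M} (H : Wt i μ x) (k : ℕ) :
    Wt i (μ + k * cartan i j) (dpow (e j) k • x) := by
  rw [dpow, smul_assoc]; exact (H.pow_e k).smul _

lemma Wt.dpow_f {i j : Fin 2} {μ : ℤ} {x : M} (H : Wt i μ x) (k : ℕ) :
    Wt i (μ - k * cartan i j) (dpow (f j) k • x) := by
  rw [dpow, smul_assoc]; exact (H.pow_f k).smul _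

lemma Wt.dpz_e {i j : Fin 2} {μ : ℤ} {x : M} (H : Wt i μ x) (n : ℤ) :
    Wt i (μ + n * cartan i j) (dpz (e j) n • x) := by
  rcases lt_or_ge n 0 with hn | hn
  · rw [dpz_neg _ hn, zero_smul]; exact Wt.zero _ _
  · obtain ⟨k, rfl⟩ := Int.eq_ofNat_of_zero_le hn
    rw [dpz_nat]; exact H.dpow_e k

lemma Wt.dpz_f {i j : Fin 2} {μ : ℤ} {x : M} (H : Wt i μ x) (n : ℤ) :
    Wt i (μ - n * cartan i j) (dpz (f j) n • x) := by
  rcases lt_or_ge n 0 with hn | hn
  · rw [dpz_neg _ hn, zero_smul]; exact Wt.zero _ _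
  · obtain ⟨k, rfl⟩ := Int.eq_ofNat_of_zero_le hn
    rw [dpz_nat]; exact H.dpow_f k

lemma e_dpow_f {i : Fin 2} {μ : ℤ} {x : M} (H : Wt i μ x) (k : ℕ) :
    e i • dpow (f i) (k + 1) • x =
      dpow (f i) (k + 1) • e i • x + ((μ - k : ℤ) : ℂ) • dpow (f i) k • x := by
  have key : ∀ k : ℕ, e i • f i ^ (k + 1) • x =
      f i ^ (k + 1) • e i • x + ((k + 1) * (μ - k) : ℂ) • f i ^ k • x := by
    intro k
    induction k with
    | zero =>
      rw [zero_add, pow_one, cm_smul, ua_ef, if_pos rfl, pow_zero, one_smul]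
      unfold Wt at H
      rw [H]
      push_cast
      congr 1
      ring_nf
    | succ k ih =>
      rw [pow_succ' (f i) (k + 1), mul_smul, cm_smul, ih, ua_ef, if_pos rfl]
      have hw := H.pow_f (j := i) (k + 1)
      unfold Wt at hw
      rw [hw, smul_add, ← mul_smul (f i) (f i ^ (k + 1)), ← pow_succ', smul_comm (f i),
        ← mul_smul (f i) (f i ^ k), ← pow_succ', add_assoc, ← add_smul]
      congr 2
      have : cartan i i = 2 := by simp [cartan]
      rw [this]
      push_cast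
      ring
  rw [dpow, dpow, smul_assoc, smul_assoc, smul_assoc, smul_comm (e i), key k, smul_add]
  congr 1
  rw [smul_smul, smul_smul]
  congr 1
  rw [Nat.factorial_succ]
  have h1 : ((k : ℂ) + 1) ≠ 0 := by exact_mod_cast Nat.succ_ne_zero k
  have h2 : ((k.factorial : ℕ) : ℂ) ≠ 0 := by exact_mod_cast Nat.factorial_ne_zero k
  push_cast
  field_simp

lemma e_dpz_f {i : Fin 2} {μ : ℤ} {x : M} (H : Wt i μ x) (n : ℤ) :
    e i • dpz (f i) n • x =
      dpz (f i) n • e i • x + ((μ - n + 1 : ℤ) : ℂ) • dpz (f i) (n - 1) • x := by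
  rcases lt_trichotomy n 0 with h | h | h
  · rw [dpz_neg _ h, dpz_neg _ (by omega)]; simp
  · subst h
    rw [dpz_neg _ (show (0 : ℤ) - 1 < 0 by omega)]
    have : dpz (f i) 0 = 1 := by
      have := dpz_nat (f i) 0
      rw [dpow_zero] at this
      exact this
    rw [this]; simp
  · obtain ⟨k, rfl⟩ : ∃ k : ℕ, n = ((k + 1 : ℕ) : ℤ) := ⟨n.toNat - 1, by omega⟩
    have e1 : (((k + 1 : ℕ) : ℤ) - 1) = (k : ℤ) := by push_cast; ring
    rw [e1, dpz_nat, dpz_nat, e_dpow_f H k]
    congr 3
    push_cast; ring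

lemma choose_id (N : ℤ) (t : ℕ) :
    ((t : ℤ) + 1) * Ring.choose N (t + 1) = (N - t) * Ring.choose N t := by
  have h1 := Ring.descPochhammer_eq_factorial_smul_choose N (t + 1)
  have h2 := Ring.descPochhammer_eq_factorial_smul_choose N t
  have h3 : (descPochhammer ℤ (t + 1)).smeval N = (descPochhammer ℤ t).smeval N * (N - t) := by
    rw [descPochhammer_succ_right, Polynomial.smeval_mul]
    congr 1
    simp [Polynomial.smeval_sub, Polynomial.smeval_X, Polynomial.smeval_natCast]
  rw [h1, h2, Nat.factorial_succ] at h3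
  simp only [nsmul_eq_mul] at h3
  push_cast at h3
  have h4 : ((t.factorial : ℕ) : ℤ) ≠ 0 := by exact_mod_cast Nat.factorial_ne_zero t
  have h5 : ((t.factorial : ℕ) : ℤ) * (((t : ℤ) + 1) * Ring.choose N (t + 1)) =
      ((t.factorial : ℕ) : ℤ) * ((N - t) * Ring.choose N t) := by
    linear_combination h3
  exact mul_left_cancel₀ h4 h5

/-- The commutation formula for divided powers. -/
lemma dpz_comm {i : Fin 2} {μ : ℤ} {x : M} (H : Wt i μ x) (a : ℕ) (b : ℤ) :
    dpz (e i) a • dpz (f i) b • x = ∑ t ∈ Finset.range (a + 1),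
      ((Ring.choose (μ + a - b) t : ℤ) : ℂ) • dpz (f i) (b - t) • dpz (e i) (a - t) • x := by
  have hii : cartan i i = 2 := by simp [cartan]
  induction a with
  | zero =>
    rw [Finset.sum_range_one]
    simp only [Nat.cast_zero, Ring.choose_zero_right, Int.cast_one, one_smul, sub_zero]
    have : dpz (e i) 0 = 1 := by
      have := dpz_nat (e i) 0
      rw [dpow_zero] at this
      exact this
    rw [this, one_smul, one_smul]
  | succ a ih =>
    have h1 : ((a : ℂ) + 1) ≠ 0 := by exact_mod_cast Nat.succ_ne_zero a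
    have h2 : (((a : ℤ) + 1 : ℤ) : ℂ) • dpz (e i) ((a + 1 : ℕ) : ℤ) • dpz (f i) b • x =
        e i • dpz (e i) a • dpz (f i) b • x := by
      rw [← mul_smul (e i), mul_dpz, smul_assoc]
      push_cast
      rfl
    set N : ℤ := μ + a - b with hN
    set G : ℕ → M := fun t => dpz (f i) (b - t) • dpz (e i) (((a + 1 : ℕ) : ℤ) - t) • x with hG
    have h3 : e i • dpz (e i) a • dpz (f i) b • x = ∑ t ∈ Finset.range (a + 1),
        (((Ring.choose N t * (a + 1 - t) : ℤ) : ℂ) • G t +
          ((Ring.choose N t * (N + a - t + 1) : ℤ) : ℂ) • G (t + 1)) := by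
      rw [ih, Finset.smul_sum]
      refine Finset.sum_congr rfl fun t _ => ?_
      rw [smul_comm (e i), e_dpz_f (H.dpz_e (j := i) ((a : ℤ) - t)), smul_add]
      congr 1
      · rw [← mul_smul (e i), mul_dpz, smul_assoc, smul_comm (dpz (f i) _), smul_smul]
        rw [hG]
        have e1 : ((a : ℤ) - t + 1) = ((a + 1 : ℕ) : ℤ) - t := by push_cast; ring
        simp only [e1]
        push_cast
        ring_nf
      · rw [smul_smul, hG]
        have e1 : b - ((t + 1 : ℕ) : ℤ) = b - t - 1 := by push_cast; ring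
        have e2 : ((a + 1 : ℕ) : ℤ) - ((t + 1 : ℕ) : ℤ) = (a : ℤ) - t := by push_cast; ring
        simp only [e1, e2]
        rw [hii]
        congr 1
        rw [hN]
        push_cast
        ring
    have h4 : (((a : ℤ) + 1 : ℤ) : ℂ) • ∑ t ∈ Finset.range (a + 1 + 1),
        ((Ring.choose (N + 1) t : ℤ) : ℂ) • G t = ∑ t ∈ Finset.range (a + 1),
        (((Ring.choose N t * (a + 1 - t) : ℤ) : ℂ) • G t +
          ((Ring.choose N t * (N + a - t + 1) : ℤ) : ℂ) • G (t + 1)) := by
      rw [Finset.sum_add_distrib]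
      have h5 : ∑ t ∈ Finset.range (a + 1), ((Ring.choose N t * (a + 1 - t) : ℤ) : ℂ) • G t =
          ∑ t ∈ Finset.range (a + 1),
            ((Ring.choose N (t + 1) * (a - t) : ℤ) : ℂ) • G (t + 1) + ((a + 1 : ℤ) : ℂ) • G 0 := by
        have h6 : ∑ t ∈ Finset.range (a + 1 + 1), ((Ring.choose N t * (a + 1 - t) : ℤ) : ℂ) • G t =
            ∑ t ∈ Finset.range (a + 1), ((Ring.choose N t * (a + 1 - t) : ℤ) : ℂ) • G t := by
          rw [Finset.sum_range_succ]
          have : ((Ring.choose N (a + 1) * ((a : ℤ) + 1 - ((a + 1 : ℕ) : ℤ)) : ℤ) : ℂ) = 0 := by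
            push_cast; ring
          rw [this, zero_smul, add_zero]
        rw [← h6, Finset.sum_range_succ']
        congr 1
        · refine Finset.sum_congr rfl fun t _ => ?_
          congr 2
          push_cast; ring
        · congr 2
          simp
      rw [h5, Finset.sum_range_succ', smul_add, Finset.smul_sum]
      have h7 : ((a + 1 : ℤ) : ℂ) • ((Ring.choose (N + 1) 0 : ℤ) : ℂ) • G 0 =
          ((a + 1 : ℤ) : ℂ) • G 0 := by simp
      rw [h7, add_right_comm, ← Finset.sum_add_distrib]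
      congr 1
      refine Finset.sum_congr rfl fun t _ => ?_
      rw [smul_smul, ← add_smul]
      congr 1
      rw [Ring.choose_succ_succ]
      have h8 := choose_id N t
      have h9 : ((a : ℤ) + 1) * (Ring.choose N t + Ring.choose N (t + 1)) =
        Ring.choose N (t + 1) * (a - t) + Ring.choose N t * (N + a - t + 1) := by
        linear_combination h8
      exact_mod_cast h9
    have h10 : (((a : ℤ) + 1 : ℤ) : ℂ) • dpz (e i) ((a + 1 : ℕ) : ℤ) • dpz (f i) b • x =
        (((a : ℤ) + 1 : ℤ) : ℂ) • ∑ t ∈ Finset.range (a + 1 + 1),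
        ((Ring.choose (N + 1) t : ℤ) : ℂ) • G t := by
      rw [h2, h3, h4]
    have h11 : (((a : ℤ) + 1 : ℤ) : ℂ) ≠ 0 := by push_cast; exact h1
    have h12 := smul_right_injective M h11 h10
    have e3 : μ + ((a + 1 : ℕ) : ℤ) - b = N + 1 := by rw [hN]; push_cast; ring
    rw [e3]
    exact h12

lemma dpow_comm_ne {i j : Fin 2} (hij : i ≠ j) (a : ℕ) (b : ℤ) :
    dpow (e i) a * dpz (f j) b = dpz (f j) b * dpow (e i) a := by
  have h1 : Commute (e i) (f j) := by
    have := ua_ef i j
    rw [if_neg hij, cm] at this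
    exact sub_eq_zero.mp this
  rcases lt_or_ge b 0 with hb | hb
  · rw [dpz_neg _ hb]; simp
  · obtain ⟨k, rfl⟩ := Int.eq_ofNat_of_zero_le hb
    rw [dpz_nat]
    unfold dpow
    have h2 := (h1.pow_pow a k).eq
    simp only [smul_mul_assoc, mul_smul_comm]
    rw [h2, smul_comm]

end dpow

end Pool.Agent.Helper855.Affine
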