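import Pool.Agent.Helper855.AffineForm

/-!
The lattice `V_ℤ(λ)` and integrality of the functional.
-/

set_option autoImplicit false
set_option linter.unusedSectionVars false

namespace Pool.Agent.Helper855.Affine

/-- The multiples of `q` in `ℂ`. -/
def mult (q : ℤ) : AddSubgroup ℂ := AddSubgroup.zmultiples (q : ℂ)

lemma mem_mult {q : ℤ} {z : ℂ} : z ∈ mult q ↔ ∃ m : ℤ, z = (q * m : ℤ) := by
  unfold mult
  rw [AddSubgroup.mem_zmultiples_iff]
  constructor
  · rintro ⟨m, rfl⟩; exact ⟨m, by rw [zsmul_eq_mul]; push_cast; ring⟩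
  · rintro ⟨m, rfl⟩; exact ⟨m, by rw [zsmul_eq_mul]; push_cast; ring⟩

lemma mult_int {q : ℤ} {z : ℂ} (hz : z ∈ mult q) (n : ℤ) : (n : ℂ) * z ∈ mult q := by
  have := (mult q).zsmul_mem hz n
  rwa [zsmul_eq_mul] at this

/-- Products of divided powers of the `e_i`; the first one is applied first. -/
noncomputable def ewd : List (Fin 2 × ℕ) → UA
  | [] => 1
  | p :: w => ewd w * dpow (e p.1) p.2

/-- Products of divided powers of the `f_i`. -/
noncomputable def fwd : List (Fin 2 × ℕ) → UA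
  | [] => 1
  | p :: w => dpow (f p.1) p.2 * fwd w

variable (lam : Fin 2 → ℕ)

/-- Weight vectors on which all products of divided powers of the `e_i` have `v_λ`-coefficient
divisible by `q`. -/
def R (q : ℤ) : Set (LC lam) :=
  {x | (∃ μ : Fin 2 → ℤ, ∀ i, Wt i (μ i) x) ∧ ∀ w, epsL lam (ewd w • x) ∈ mult q}

lemma R_smul_e {q : ℤ} {x : LC lam} (hx : x ∈ R lam q) (i : Fin 2) (k : ℕ) :
    dpow (e i) k • x ∈ R lam q := by
  obtain ⟨⟨μ, hμ⟩, h2⟩ := hx
  refine ⟨⟨fun j => μ j + k * cartan j i, fun j => (hμ j).dpow_e k⟩, fun w => ?_⟩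
  have := h2 ((i, k) :: w)
  rwa [ewd, mul_smul] at this

lemma R_zero (q : ℤ) : (0 : LC lam) ∈ R lam q :=
  ⟨⟨0, fun i => Wt.zero _ _⟩, fun w => by rw [smul_zero, map_zero]; exact zero_mem _⟩

lemma R_smul_ez {q : ℤ} {x : LC lam} (hx : x ∈ R lam q) (i : Fin 2) (n : ℤ) :
    dpz (e i) n • x ∈ R lam q := by
  rcases lt_or_ge n 0 with hn | hn
  · rw [dpz_neg _ hn, zero_smul]; exact R_zero lam q
  · obtain ⟨k, rfl⟩ := Int.eq_ofNat_of_zero_le hn
    rw [dpz_nat]; exact R_smul_e lam hx i k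

lemma eps_dpz_f {q : ℤ} {x : LC lam} (hx : epsL lam x ∈ mult q) (i : Fin 2) (n : ℤ) :
    epsL lam (dpz (f i) n • x) ∈ mult q := by
  rcases lt_trichotomy n 0 with hn | hn | hn
  · rw [dpz_neg _ hn, zero_smul, map_zero]; exact zero_mem _
  · subst hn
    have : dpz (f i) 0 = 1 := by
      have := dpz_nat (f i) 0
      rw [dpow_zero] at this
      exact this
    rw [this, one_smul]; exact hx
  · obtain ⟨k, rfl⟩ : ∃ k : ℕ, n = ((k + 1 : ℕ) : ℤ) := ⟨n.toNat - 1, by omega⟩
    rw [dpz_nat, dpow, pow_succ', smul_assoc, mul_smul, map_smul, epsL_f, smul_zero]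
    exact zero_mem _

lemma R_aux {q : ℤ} (w : List (Fin 2 × ℕ)) : ∀ {x : LC lam}, x ∈ R lam q → ∀ (j : Fin 2) (b : ℤ),
    epsL lam (ewd w • dpz (f j) b • x) ∈ mult q := by
  induction w with
  | nil =>
    intro x hx j b
    rw [ewd, one_smul]
    refine eps_dpz_f lam ?_ j b
    have := hx.2 []
    rwa [ewd, one_smul] at this
  | cons p w ih =>
    intro x hx j b
    obtain ⟨i, k⟩ := p
    rw [ewd, mul_smul]
    by_cases hij : i = j
    · subst hij
      obtain ⟨μ, hμ⟩ := hx.1
      have h1 := dpz_comm (hμ i) k b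
      rw [dpz_nat] at h1
      change epsL lam (ewd w • dpow (e i) k • dpz (f i) b • x) ∈ mult q
      rw [h1, Finset.smul_sum, map_sum]
      refine AddSubgroup.sum_mem _ fun t _ => ?_
      rw [smul_comm, map_smul, smul_eq_mul]
      exact mult_int (ih (R_smul_ez lam hx i _) i _) _
    · change epsL lam (ewd w • dpow (e i) k • dpz (f j) b • x) ∈ mult q
      rw [← mul_smul (dpow (e i) k), dpow_comm_ne hij, mul_smul]
      exact ih (R_smul_e lam hx i k) j b

lemma R_smul_f {q : ℤ} {x : LC lam} (hx : x ∈ R lam q) (j : Fin 2) (b : ℕ) :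
    dpow (f j) b • x ∈ R lam q := by
  obtain ⟨μ, hμ⟩ := hx.1
  refine ⟨⟨fun i => μ i - b * cartan i j, fun i => (hμ i).dpow_f b⟩, fun w => ?_⟩
  have := R_aux lam w hx j b
  rwa [dpz_nat] at this

lemma R_UZ {q : ℤ} {u : UA} (hu : u ∈ UZ) : ∀ x ∈ AddSubgroup.closure (R lam q),
    u • x ∈ AddSubgroup.closure (R lam q) := by
  unfold UZ at hu
  induction hu using Subring.closure_induction with
  | mem y hy =>
    intro x hx
    induction hx using AddSubgroup.closure_induction with
    | mem x hx =>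
      obtain ⟨i, k, rfl | rfl⟩ := hy
      · exact AddSubgroup.subset_closure (R_smul_e lam hx i k)
      · exact AddSubgroup.subset_closure (R_smul_f lam hx i k)
    | zero => rw [smul_zero]; exact zero_mem _
    | add x y _ _ hx hy => rw [smul_add]; exact add_mem hx hy
    | neg x _ hx => rw [smul_neg]; exact neg_mem hx
  | zero => intro x _; rw [zero_smul]; exact zero_mem _
  | one => intro x hx; rw [one_smul]; exact hx
  | add a b _ _ ha hb => intro x hx; rw [add_smul]; exact add_mem (ha x hx) (hb x hx)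
  | neg a _ ha => intro x hx; rw [neg_smul]; exact neg_mem (ha x hx)
  | mul a b _ _ ha hb => intro x hx; rw [mul_smul]; exact ha _ (hb x hx)

lemma eps_closure {q : ℤ} {x : LC lam} (hx : x ∈ AddSubgroup.closure (R lam q)) :
    epsL lam x ∈ mult q := by
  induction hx using AddSubgroup.closure_induction with
  | mem x hx => have := hx.2 []; rwa [ewd, one_smul] at this
  | zero => rw [map_zero]; exact zero_mem _
  | add x y _ _ hx hy => rw [map_add]; exact add_mem hx hy
  | neg x _ hx => rw [map_neg]; exact neg_mem hx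

lemma eps_UZ {q : ℤ} {u : UA} (hu : u ∈ UZ) {x : LC lam} (hx : x ∈ R lam q) :
    epsL lam (u • x) ∈ mult q :=
  eps_closure lam (R_UZ lam hu x (AddSubgroup.subset_closure hx))

lemma dpow_e_v (i : Fin 2) (k : ℕ) : dpow (e i) (k + 1) • vlam lam = 0 := by
  rw [dpow, pow_succ, smul_assoc, mul_smul, (vlamHW lam).ke, smul_zero, smul_zero]

lemma v_wt (i : Fin 2) : Wt i (lam i : ℤ) (vlam lam) := by
  unfold Wt
  rw [(vlamHW lam).kh]; push_cast; rfl

lemma v_mem_R : vlam lam ∈ R lam 1 := by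
  refine ⟨⟨fun i => lam i, v_wt lam⟩, fun w => ?_⟩
  have : ewd w • vlam lam = vlam lam ∨ ewd w • vlam lam = 0 := by
    induction w with
    | nil => left; rw [ewd, one_smul]
    | cons p w ih =>
      rw [ewd, mul_smul]
      obtain ⟨i, k⟩ := p
      cases k with
      | zero => rw [dpow_zero, one_smul]; exact ih
      | succ k => right; rw [dpow_e_v, smul_zero]
  rcases this with h | h
  · rw [h, epsL_vlam]; exact mem_mult.mpr ⟨1, by simp⟩
  · rw [h, map_zero]; exact zero_mem _

/-- The subgroup spanned by the products of divided powers of the `f_i` applied to `v_λ`. -/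
noncomputable def S : AddSubgroup (LC lam) := AddSubgroup.closure (Set.range fun w => fwd w • vlam lam)

lemma S_smul_f {x : LC lam} (hx : x ∈ S lam) (j : Fin 2) (b : ℕ) : dpow (f j) b • x ∈ S lam := by
  unfold S at hx
  induction hx using AddSubgroup.closure_induction with
  | mem x hx =>
    obtain ⟨w, rfl⟩ := hx
    change dpow (f j) b • fwd w • vlam lam ∈ S lam
    rw [← mul_smul]
    exact AddSubgroup.subset_closure ⟨(j, b) :: w, rfl⟩
  | zero => rw [smul_zero]; exact zero_mem _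
  | add x y _ _ hx hy => rw [smul_add]; exact add_mem hx hy
  | neg x _ hx => rw [smul_neg]; exact neg_mem hx

lemma S_smul_fz {x : LC lam} (hx : x ∈ S lam) (j : Fin 2) (b : ℤ) : dpz (f j) b • x ∈ S lam := by
  rcases lt_or_ge b 0 with hn | hn
  · rw [dpz_neg _ hn, zero_smul]; exact zero_mem _
  · obtain ⟨k, rfl⟩ := Int.eq_ofNat_of_zero_le hn
    rw [dpz_nat]; exact S_smul_f lam hx j k

lemma fwd_wt (i : Fin 2) (w : List (Fin 2 × ℕ)) : ∃ μ : ℤ, Wt i μ (fwd w • vlam lam) := by
  induction w with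
  | nil => exact ⟨lam i, by rw [fwd, one_smul]; exact v_wt lam i⟩
  | cons p w ih =>
    obtain ⟨μ, hμ⟩ := ih
    exact ⟨μ - p.2 * cartan i p.1, by rw [fwd, mul_smul]; exact hμ.dpow_f p.2⟩

lemma S_aux (w : List (Fin 2 × ℕ)) : ∀ (i : Fin 2) (n : ℤ),
    dpz (e i) n • fwd w • vlam lam ∈ S lam := by
  induction w with
  | nil =>
    intro i n
    rw [fwd, one_smul]
    rcases lt_trichotomy n 0 with hn | hn | hn
    · rw [dpz_neg _ hn, zero_smul]; exact zero_mem _
    · subst hn
      have : dpz (e i) 0 = 1 := by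
        have := dpz_nat (e i) 0
        rw [dpow_zero] at this
        exact this
      rw [this, one_smul]
      exact AddSubgroup.subset_closure ⟨[], one_smul _ _⟩
    · obtain ⟨k, rfl⟩ : ∃ k : ℕ, n = ((k + 1 : ℕ) : ℤ) := ⟨n.toNat - 1, by omega⟩
      rw [dpz_nat, dpow_e_v]; exact zero_mem _
  | cons p w ih =>
    intro i n
    obtain ⟨j, b⟩ := p
    rcases lt_or_ge n 0 with hn | hn
    · rw [dpz_neg _ hn, zero_smul]; exact zero_mem _
    obtain ⟨k, rfl⟩ := Int.eq_ofNat_of_zero_le hn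
    rw [fwd, mul_smul]
    change dpz (e i) (k : ℤ) • dpow (f j) b • fwd w • vlam lam ∈ S lam
    by_cases hij : i = j
    · subst hij
      obtain ⟨μ, hμ⟩ := fwd_wt lam i w
      have h1 := dpz_comm hμ k b
      rw [dpz_nat (f i) b] at h1
      rw [h1]
      refine AddSubgroup.sum_mem _ fun t _ => ?_
      rw [Int.cast_smul_eq_zsmul]
      exact AddSubgroup.zsmul_mem _ (S_smul_fz lam (ih i _) i _) _
    · rw [dpz_nat, ← dpz_nat (f j) b, ← mul_smul (dpow (e i) k), dpow_comm_ne hij, mul_smul]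
      have := ih i k
      rw [dpz_nat] at this
      exact S_smul_fz lam this j b

lemma S_smul_e {x : LC lam} (hx : x ∈ S lam) (i : Fin 2) (k : ℕ) : dpow (e i) k • x ∈ S lam := by
  unfold S at hx
  induction hx using AddSubgroup.closure_induction with
  | mem x hx =>
    obtain ⟨w, rfl⟩ := hx
    have := S_aux lam w i k
    rw [dpz_nat] at this
    exact this
  | zero => rw [smul_zero]; exact zero_mem _
  | add x y _ _ hx hy => rw [smul_add]; exact add_mem hx hy
  | neg x _ hx => rw [smul_neg]; exact neg_mem hx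

lemma S_UZ {u : UA} (hu : u ∈ UZ) : ∀ x ∈ S lam, u • x ∈ S lam := by
  unfold UZ at hu
  induction hu using Subring.closure_induction with
  | mem y hy =>
    intro x hx
    obtain ⟨i, k, rfl | rfl⟩ := hy
    · exact S_smul_e lam hx i k
    · exact S_smul_f lam hx i k
  | zero => intro x _; rw [zero_smul]; exact zero_mem _
  | one => intro x hx; rw [one_smul]; exact hx
  | add a b _ _ ha hb => intro x hx; rw [add_smul]; exact add_mem (ha x hx) (hb x hx)
  | neg a _ ha => intro x hx; rw [neg_smul]; exact neg_mem (ha x hx)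
  | mul a b _ _ ha hb => intro x hx; rw [mul_smul]; exact ha _ (hb x hx)

lemma VZ_le_S {x : LC lam} (hx : x ∈ VZ lam) : x ∈ S lam := by
  unfold VZ at hx
  induction hx using Submodule.span_induction with
  | mem y hy =>
    rw [Set.mem_singleton_iff.mp hy]
    exact AddSubgroup.subset_closure ⟨[], one_smul _ _⟩
  | zero => exact zero_mem _
  | add y z _ _ hy hz => exact add_mem hy hz
  | smul a y _ hy => exact S_UZ lam a.2 y hy

lemma smul_mem_VZ {u : UA} (hu : u ∈ UZ) {x : LC lam} (hx : x ∈ VZ lam) : u • x ∈ VZ lam :=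
  (VZ lam).smul_mem ⟨u, hu⟩ hx

lemma v_mem_VZ : vlam lam ∈ VZ lam := Submodule.subset_span rfl

lemma mem_VZ_iff {x : LC lam} (hx : x ∈ VZ lam) : ∃ u ∈ UZ, x = u • vlam lam := by
  unfold VZ at hx
  obtain ⟨u, rfl⟩ := Submodule.mem_span_singleton.mp hx
  exact ⟨u.1, u.2, rfl⟩

lemma eps_VZ {x : LC lam} (hx : x ∈ VZ lam) : ∃ m : ℤ, epsL lam x = m := by
  obtain ⟨u, hu, rfl⟩ := mem_VZ_iff lam hx
  have := eps_UZ lam hu (v_mem_R lam)
  obtain ⟨m, hm⟩ := mem_mult.mp this
  exact ⟨m, by rw [hm, one_mul]⟩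

lemma dpow_e_mem (i : Fin 2) (k : ℕ) : dpow (e i) k ∈ UZ :=
  Subring.subset_closure ⟨i, k, Or.inl rfl⟩

lemma dpow_f_mem (i : Fin 2) (k : ℕ) : dpow (f i) k ∈ UZ :=
  Subring.subset_closure ⟨i, k, Or.inr rfl⟩

lemma e_mem (i : Fin 2) : e i ∈ UZ := by rw [← dpow_one (e i)]; exact dpow_e_mem i 1

lemma f_mem (i : Fin 2) : f i ∈ UZ := by rw [← dpow_one (f i)]; exact dpow_f_mem i 1

lemma fw_mem (J : List (Fin 2)) : fw J ∈ UZ := by
  induction J with
  | nil => exact one_mem _
  | cons i J ih => rw [fw]; exact mul_mem (f_mem i) ih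

end Pool.Agent.Helper855.Affine
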