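import Pool.Agent.Helper855.AffineCrit

/-!
Computation with words of the affine algebra at the weight `3 ω_1`.
-/

set_option autoImplicit false
set_option linter.unusedSectionVars false

namespace Pool.Agent.Helper855.Affine

/-- Integer combinations of words, as tries. -/
inductive Tr : Type
  | z : Tr
  | n (c : ℤ) (a b : Tr) : Tr

namespace Tr

/-- Addition. -/
def add : Tr → Tr → Tr
  | z, t => t
  | n c a b, z => n c a b
  | n c a b, n c' a' b' => n (c + c') (add a a') (add b b')

/-- Action of `h_0` with starting eigenvalue `μ`. -/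
def h0 : ℤ → Tr → Tr
  | _, z => z
  | μ, n c a b => n (μ * c) (h0 (μ - 2) a) (h0 (μ + 2) b)

/-- Action of `h_1` with starting eigenvalue `μ`. -/
def h1 : ℤ → Tr → Tr
  | _, z => z
  | μ, n c a b => n (μ * c) (h1 (μ + 2) a) (h1 (μ - 2) b)

/-- Action of `e_0` (highest weight value `0` on `h_0`). -/
def e0 : Tr → Tr
  | z => z
  | n _ a b => add (n 0 (e0 a) (e0 b)) (h0 0 a)

/-- Action of `e_1` (highest weight value `3` on `h_1`). -/
def e1 : Tr → Tr
  | z => z
  | n _ a b => add (n 0 (e1 a) (e1 b)) (h1 3 b)

/-- The coefficient of the empty word. -/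
def root : Tr → ℤ
  | z => 0
  | n c _ _ => c

/-- All pairings with words with `a` letters `0` and `b` letters `1` are divisible by `23`, and the
word lengths are at most `k`. -/
def chk : ℕ → ℕ → ℕ → Tr → Bool
  | 0, _, _, t => root t % 23 == 0
  | k + 1, a, b, t => (a == 0 || chk k (a - 1) b (e0 t)) && (b == 0 || chk k a (b - 1) (e1 t))

/-- The form. -/
def pair : Tr → Tr → ℤ
  | z, _ => 0
  | n c a b, s => c * root s + pair a (e0 s) + pair b (e1 s)

/-- All words have `a` letters `0` and `b` letters `1`. -/
def hom : ℕ → ℕ → Tr → Bool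
  | _, _, z => true
  | a, b, n c s t => (c == 0 || (a == 0 && b == 0)) &&
      (match a with
        | 0 => (match s with | z => true | n _ _ _ => false)
        | a' + 1 => hom a' b s) &&
      (match b with
        | 0 => (match t with | z => true | n _ _ _ => false)
        | b' + 1 => hom a b' t)

/-- The combination of words. -/
noncomputable def ev : Tr → T
  | z => 0
  | n c a b => Finsupp.single [] (c : ℂ) + fT 0 (ev a) + fT 1 (ev b)

/-- The weight `3 ω_1`. -/
abbrev l3 : Fin 2 → ℤ := fun i => if i = 0 then 0 else 3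

lemma ev_add (s : Tr) : ∀ t, ev (add s t) = ev s + ev t := by
  induction s with
  | z => intro t; rw [add, ev, zero_add]
  | n c a b iha ihb =>
    intro t
    cases t with
    | z => rw [add, ev, ev, add_zero]
    | n c' a' b' =>
      rw [add, ev, ev, ev, iha, ihb, map_add, map_add]
      push_cast
      rw [Finsupp.single_add]
      abel

lemma ev_h0 (t : Tr) : ∀ μ : ℤ, ev (h0 μ t) = gT (μ : ℂ) (fun j => (cartan 0 j : ℂ)) (ev t) := by
  have key : ∀ (μ a : ℂ) (α : Fin 2 → ℂ) (x : T), gT (μ - a) α x = gT μ α x - a • x := by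
    intro μ a α x
    induction x using Finsupp.induction_linear with
    | zero => simp
    | add x y hx hy => rw [map_add, map_add, hx, hy]; module
    | single J b =>
      rw [gT_single, gT_single, ← sub_smul]
      congr 1
      simp only [Affine.ev]; ring
  induction t with
  | z => intro μ; rw [h0, ev, map_zero]
  | n c a b iha ihb =>
    intro μ
    rw [h0, ev, ev, iha, ihb, map_add, map_add, gT_fT, gT_fT, gT_single]
    have c0 : (cartan 0 0 : ℂ) = 2 := by simp [cartan]
    have c1 : (cartan 0 1 : ℂ) = -2 := by simp [cartan]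
    have m0 : ((μ - 2 : ℤ) : ℂ) = (μ : ℂ) - 2 := by push_cast; ring
    have m1 : ((μ + 2 : ℤ) : ℂ) = (μ : ℂ) - (-2) := by push_cast; ring
    rw [m0, m1, key, key, c0, c1]
    simp only [map_sub, map_smul, Affine.ev, List.map_nil, List.sum_nil, sub_zero,
      Finsupp.smul_single, smul_eq_mul]
    push_cast
    rfl

lemma ev_h1 (t : Tr) : ∀ μ : ℤ, ev (h1 μ t) = gT (μ : ℂ) (fun j => (cartan 1 j : ℂ)) (ev t) := by
  have key : ∀ (μ a : ℂ) (α : Fin 2 → ℂ) (x : T), gT (μ - a) α x = gT μ α x - a • x := by
    intro μ a α x
    induction x using Finsupp.induction_linear with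
    | zero => simp
    | add x y hx hy => rw [map_add, map_add, hx, hy]; module
    | single J b =>
      rw [gT_single, gT_single, ← sub_smul]
      congr 1
      simp only [Affine.ev]; ring
  induction t with
  | z => intro μ; rw [h1, ev, map_zero]
  | n c a b iha ihb =>
    intro μ
    rw [h1, ev, ev, iha, ihb, map_add, map_add, gT_fT, gT_fT, gT_single]
    have c0 : (cartan 1 0 : ℂ) = -2 := by simp [cartan]
    have c1 : (cartan 1 1 : ℂ) = 2 := by simp [cartan]
    have m0 : ((μ - 2 : ℤ) : ℂ) = (μ : ℂ) - 2 := by push_cast; ring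
    have m1 : ((μ + 2 : ℤ) : ℂ) = (μ : ℂ) - (-2) := by push_cast; ring
    rw [m0, m1, key, key, c0, c1]
    simp only [map_sub, map_smul, Affine.ev, List.map_nil, List.sum_nil, sub_zero,
      Finsupp.smul_single, smul_eq_mul]
    push_cast
    rfl

lemma ev_e0 (t : Tr) : ev (e0 t) = eT l3 0 (ev t) := by
  induction t with
  | z => rw [e0, ev, map_zero]
  | n c a b iha ihb =>
    rw [e0, ev_add, ev, ev, map_add, map_add, eT_nil, eT_fT, eT_fT, iha, ihb, ev_h0,
      if_pos rfl, if_neg (by decide)]
    simp only [hT, Int.cast_zero, Finsupp.single_zero, zero_add, add_zero]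
    have : ((l3 0 : ℤ) : ℂ) = 0 := by simp
    rw [this]
    abel

lemma ev_e1 (t : Tr) : ev (e1 t) = eT l3 1 (ev t) := by
  induction t with
  | z => rw [e1, ev, map_zero]
  | n c a b iha ihb =>
    rw [e1, ev_add, ev, ev, map_add, map_add, eT_nil, eT_fT, eT_fT, iha, ihb, ev_h1,
      if_pos rfl, if_neg (by decide)]
    simp only [hT, Int.cast_zero, Finsupp.single_zero, zero_add, add_zero]
    have : ((l3 1 : ℤ) : ℂ) = 3 := by simp
    rw [this]
    push_cast
    abel

lemma eps0_ev (t : Tr) : eps0 (ev t) = (root t : ℂ) := by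
  cases t with
  | z => rw [ev, map_zero, root]; simp
  | n c a b => rw [ev, map_add, map_add, eps0_nil, eps0_fT, eps0_fT, root]; ring

lemma B_ev (t : Tr) : ∀ s, B l3 (ev t) (ev s) = (pair t s : ℂ) := by
  induction t with
  | z => intro s; rw [ev, map_zero, pair]; simp
  | n c a b iha ihb =>
    intro s
    rw [ev, map_add, map_add, LinearMap.add_apply, LinearMap.add_apply, B_single, B_fT, B_fT,
      ← ev_e0, ← ev_e1, iha, ihb, pW_nil, eps0_ev, pair]
    push_cast
    ring

lemma chk_pW (k : ℕ) : ∀ (a b : ℕ) (t : Tr), chk k a b t = true → ∀ J : List (Fin 2),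
    J.length = k → J.count 0 = a → J.count 1 = b → ∃ m : ℤ, pW l3 J (ev t) = 23 * m := by
  induction k with
  | zero =>
    intro a b t h J hJ _ _
    rw [chk, beq_iff_eq] at h
    have : J = [] := List.length_eq_zero_iff.mp hJ
    rw [this, pW_nil, eps0_ev]
    obtain ⟨m, hm⟩ := Int.dvd_of_emod_eq_zero h
    exact ⟨m, by rw [hm]; push_cast; ring⟩
  | succ k ih =>
    intro a b t h J hJ ha hb
    rw [chk, Bool.and_eq_true, Bool.or_eq_true, Bool.or_eq_true, beq_iff_eq, beq_iff_eq] at h
    cases J with
    | nil => simp at hJ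
    | cons i J =>
      rw [pW_cons]
      rw [List.length_cons] at hJ
      have hi : i = 0 ∨ i = 1 := by omega
      rcases hi with rfl | rfl
      · rw [List.count_cons_self] at ha
        rw [List.count_cons_of_ne (by decide)] at hb
        rw [← ev_e0]
        refine ih (a - 1) b _ ?_ J (by omega) (by omega) hb
        rcases h.1 with h' | h'
        · omega
        · exact h'
      · rw [List.count_cons_self] at hb
        rw [List.count_cons_of_ne (by decide)] at ha
        rw [← ev_e1]
        refine ih a (b - 1) _ ?_ J (by omega) ha (by omega)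
        rcases h.2 with h' | h'
        · omega
        · exact h'

lemma hom_gT (t : Tr) : ∀ (a b : ℕ), hom a b t = true → ∀ (c : ℂ) (α : Fin 2 → ℂ),
    gT c α (ev t) = (c - a * α 0 - b * α 1) • ev t := by
  induction t with
  | z => intro a b _ c α; rw [ev]; simp
  | n c' s t ihs iht =>
    intro a b h c α
    rw [ev, map_add, map_add, gT_single, gT_fT, gT_fT, smul_add, smul_add]
    have hs : fT 0 (gT c α (ev s)) - α 0 • fT 0 (ev s) =
        (c - a * α 0 - b * α 1) • fT 0 (ev s) := by
      cases a with
      | zero =>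
        cases s with
        | z => rw [ev]; simp
        | n _ _ _ => simp [hom] at h
      | succ a =>
        have h' : hom a b s = true := by
          simp only [hom, Bool.and_eq_true] at h
          exact h.1.2
        rw [ihs a b h' c α, map_smul, ← sub_smul]
        congr 1
        push_cast; ring
    have ht : fT 1 (gT c α (ev t)) - α 1 • fT 1 (ev t) =
        (c - a * α 0 - b * α 1) • fT 1 (ev t) := by
      cases b with
      | zero =>
        cases t with
        | z => rw [ev]; simp
        | n _ _ _ => simp [hom] at h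
      | succ b =>
        have h' : hom a b t = true := by
          simp only [hom, Bool.and_eq_true] at h
          exact h.2
        rw [iht a b h' c α, map_smul, ← sub_smul]
        congr 1
        push_cast; ring
    rw [hs, ht]
    congr 2
    have h0 : c' = 0 ∨ (a = 0 ∧ b = 0) := by
      unfold hom at h
      rw [Bool.and_eq_true, Bool.and_eq_true, Bool.or_eq_true, Bool.and_eq_true, beq_iff_eq,
        beq_iff_eq, beq_iff_eq] at h
      exact h.1.1
    rcases h0 with h0 | ⟨h0, h0'⟩
    · rw [h0]; simp
    · rw [h0, h0']; simp [Affine.ev]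

lemma int_ev (t : Tr) : IntT (ev t) := by
  induction t with
  | z => intro J; exact ⟨0, by rw [ev]; simp⟩
  | n c a b iha ihb =>
    have key : ∀ (i : Fin 2) (x : T), IntT x → IntT (fT i x) := by
      intro i x hx J
      cases J with
      | nil => exact ⟨0, by have := eps0_fT i x; simpa [eps0] using this⟩
      | cons j J =>
        by_cases hij : i = j
        · subst hij
          obtain ⟨m, hm⟩ := hx J
          refine ⟨m, ?_⟩
          rw [← hm]
          exact Finsupp.mapDomain_apply (List.cons_injective) x J
        · refine ⟨0, ?_⟩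
          rw [Int.cast_zero]
          refine Finsupp.mapDomain_of_notMem_range x (j :: J) ?_
          rintro ⟨K, hK⟩
          exact hij (List.cons.inj hK).1
    intro J
    obtain ⟨m1, h1⟩ := key 0 _ iha J
    obtain ⟨m2, h2⟩ := key 1 _ ihb J
    rw [ev, Finsupp.add_apply, Finsupp.add_apply, h1, h2]
    by_cases hJ : J = []
    · subst hJ; exact ⟨c + m1 + m2, by rw [Finsupp.single_eq_same]; push_cast; ring⟩
    · exact ⟨m1 + m2, by rw [Finsupp.single_eq_of_ne (by exact hJ)]; push_cast; ring⟩

end Tr

end Pool.Agent.Helper855.Affine
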