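import Pool.Agent.Helper855.AffineWords

/-!
The Verma module of the affine algebra and its irreducible quotient, in terms of words.
-/

set_option autoImplicit false
set_option linter.unusedSectionVars false

namespace Pool.Agent.Helper855.Affine

/-- Integral version of a weight. -/
abbrev lz (lam : Fin 2 → ℕ) : Fin 2 → ℤ := fun i => (lam i : ℤ)

section instances

variable (lam : Fin 2 → ℕ)

noncomputable instance : Module ℂ (Verma lam) := inferInstanceAs (Module ℂ (UA ⧸ vermaIdeal lam))

instance : IsScalarTower ℂ UA (Verma lam) :=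
  inferInstanceAs (IsScalarTower ℂ UA (UA ⧸ vermaIdeal lam))

noncomputable instance : Module ℂ (LC lam) := inferInstanceAs (Module ℂ (Verma lam ⧸ maxSub lam))

instance : IsScalarTower ℂ UA (LC lam) :=
  inferInstanceAs (IsScalarTower ℂ UA (Verma lam ⧸ maxSub lam))

end instances

/-! ### Modules with a highest weight vector -/

section general

variable {M : Type*} [AddCommGroup M] [Module ℂ M] [Module UA M] [IsScalarTower ℂ UA M]

/-- Highest weight vectors. -/
structure HW (lam : Fin 2 → ℕ) (v : M) : Prop where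
  ke : ∀ i, e i • v = 0
  kh : ∀ i, h i • v = (lam i : ℂ) • v
  kd : d • v = 0

/-- The word in the lowering operators. -/
noncomputable def fw : List (Fin 2) → UA
  | [] => 1
  | i :: J => f i * fw J

/-- The map from words to the module. -/
noncomputable def Phi (v : M) : T →ₗ[ℂ] M := Finsupp.linearCombination ℂ (fun J => fw J • v)

lemma Phi_single (v : M) (J : List (Fin 2)) (a : ℂ) :
    Phi v (Finsupp.single J a) = a • fw J • v := by
  rw [Phi, Finsupp.linearCombination_single]

lemma Phi_nil (v : M) : Phi v (Finsupp.single [] 1) = v := by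
  rw [Phi_single, fw, one_smul, one_smul]

lemma Phi_fT (v : M) (i : Fin 2) (x : T) : Phi v (fT i x) = f i • Phi v x := by
  induction x using Finsupp.induction_linear with
  | zero => simp
  | add x y hx hy => rw [map_add, map_add, map_add, hx, hy, smul_add]
  | single J a => rw [fT_single, Phi_single, Phi_single, fw, mul_smul, smul_comm]

lemma cm_smul (a b : UA) (x : M) : a • b • x = b • a • x + cm a b • x := by
  rw [cm, sub_smul, mul_smul, mul_smul]; abel

lemma zsmul_ua (n : ℤ) (a : UA) (x : M) : (n • a) • x = (n : ℂ) • a • x := by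
  rw [← Int.cast_smul_eq_zsmul ℂ, smul_assoc]

lemma algebraMap_smul' (a : ℂ) (x : M) : algebraMap ℂ UA a • x = a • x :=
  algebraMap_smul UA a x

variable {lam : Fin 2 → ℕ} {v : M}

lemma HW.Phi_hT (H : HW lam v) (i : Fin 2) (x : T) :
    Phi v (hT (lz lam) i x) = h i • Phi v x := by
  refine T_ind (P := fun x => Phi v (hT (lz lam) i x) = h i • Phi v x) ?_ ?_ ?_ ?_ ?_ x
  · simp
  · intro x y hx hy; rw [map_add, map_add, hx, hy, map_add, smul_add]
  · intro a x hx; rw [map_smul, map_smul, hx, map_smul, smul_comm]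
  · rw [hT, gT_single, map_smul, Phi_nil, H.kh]
    simp [ev]
  · intro j x hx
    rw [hT, gT_fT, map_sub, map_smul, Phi_fT, Phi_fT, cm_smul, ua_hf]
    rw [hT] at hx
    rw [hx, neg_smul, zsmul_ua]
    abel

lemma HW.Phi_dT (H : HW lam v) (x : T) :
    Phi v (gT 0 (fun j => if j = 0 then 1 else 0) x) = d • Phi v x := by
  refine T_ind (P := fun x => Phi v (gT 0 (fun j => if j = 0 then 1 else 0) x) = d • Phi v x)
    ?_ ?_ ?_ ?_ ?_ x
  · simp
  · intro x y hx hy; rw [map_add, map_add, hx, hy, map_add, smul_add]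
  · intro a x hx; rw [map_smul, map_smul, hx, map_smul, smul_comm]
  · rw [gT_single, map_smul, Phi_nil, H.kd]
    simp [ev]
  · intro j x hx
    rw [gT_fT, map_sub, map_smul, Phi_fT, Phi_fT, cm_smul, ua_df, hx, neg_smul]
    by_cases hj : j = 0
    · simp only [hj, if_true, one_smul]; abel
    · simp only [hj, if_false, zero_smul]; abel

lemma HW.Phi_eT (H : HW lam v) (i : Fin 2) (x : T) :
    Phi v (eT (lz lam) i x) = e i • Phi v x := by
  refine T_ind (P := fun x => Phi v (eT (lz lam) i x) = e i • Phi v x) ?_ ?_ ?_ ?_ ?_ x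
  · simp
  · intro x y hx hy; rw [map_add, map_add, hx, hy, map_add, smul_add]
  · intro a x hx; rw [map_smul, map_smul, hx, map_smul, smul_comm]
  · rw [eT_nil, Phi_nil, H.ke, map_zero]
  · intro j x hx
    rw [eT_fT, map_add, Phi_fT, Phi_fT, cm_smul, ua_ef, hx]
    split_ifs
    · rw [H.Phi_hT]
    · rw [map_zero, zero_smul]

/-- The image of the words is a submodule. -/
lemma HW.range_stable (H : HW lam v) (u : UA) : ∀ x ∈ LinearMap.range (Phi v),
    u • x ∈ LinearMap.range (Phi v) := by
  refine UA_ind (P := fun u => ∀ x ∈ LinearMap.range (Phi v), u • x ∈ LinearMap.range (Phi v))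
    ?_ ?_ ?_ ?_ ?_ ?_ ?_ u
  · intro a x hx; rw [algebraMap_smul']; exact Submodule.smul_mem _ _ hx
  · rintro i _ ⟨y, rfl⟩; exact ⟨_, H.Phi_eT i y⟩
  · rintro i _ ⟨y, rfl⟩; exact ⟨_, Phi_fT v i y⟩
  · rintro i _ ⟨y, rfl⟩; exact ⟨_, H.Phi_hT i y⟩
  · rintro _ ⟨y, rfl⟩; exact ⟨_, H.Phi_dT y⟩
  · intro x y hx hy z hz; rw [add_smul]; exact add_mem (hx z hz) (hy z hz)
  · intro x y hx hy z hz; rw [mul_smul]; exact hx _ (hy z hz)

end general

/-! ### The Verma module -/

section verma

variable (lam : Fin 2 → ℕ)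

/-- The highest weight vector of the Verma module. -/
noncomputable def vac : Verma lam := vermaMk lam 1

lemma vermaMk_eq_zero {u : UA} : vermaMk lam u = 0 ↔ u ∈ vermaIdeal lam :=
  Submodule.Quotient.mk_eq_zero _

lemma vermaMk_surj : Function.Surjective (vermaMk lam) := (vermaIdeal lam).mkQ_surjective

lemma smul_vac (u : UA) : u • vac lam = vermaMk lam u := by
  rw [vac, ← map_smul, smul_eq_mul, mul_one]

lemma vacHW : HW lam (vac lam) where
  ke i := by
    rw [smul_vac, vermaMk_eq_zero]
    exact Submodule.subset_span (Or.inl (Or.inl ⟨i, rfl⟩))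
  kh i := by
    have e1 : (lam i : ℂ) • vac lam = algebraMap ℂ UA (lam i) • vac lam :=
      (algebraMap_smul' _ _).symm
    rw [e1, ← sub_eq_zero, ← sub_smul, smul_vac, vermaMk_eq_zero]
    exact Submodule.subset_span (Or.inl (Or.inr ⟨i, rfl⟩))
  kd := by
    rw [smul_vac, vermaMk_eq_zero]
    exact Submodule.subset_span (Or.inr rfl)

/-- The highest weight vector of the word model. -/
noncomputable def wvac : W (lz lam) := mkW (lz lam) (Finsupp.single [] 1)

lemma rho_ideal {u : UA} (hu : u ∈ vermaIdeal lam) : rho (lz lam) u (wvac lam) = 0 := by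
  unfold vermaIdeal at hu
  induction hu using Submodule.span_induction with
  | mem y hy =>
    rcases hy with (⟨i, rfl⟩ | ⟨i, rfl⟩) | hy
    · rw [rho_e, wvac, eQ_mk]
      change mkW _ (eT _ i _) = 0
      rw [eT_nil, map_zero]
    · change rho (lz lam) (h i - algebraMap ℂ UA (lam i)) (wvac lam) = 0
      rw [map_sub, rho_h, LinearMap.sub_apply, AlgHom.commutes, wvac, hQ_mk]
      change mkW _ (hT _ i _) - (lam i : ℂ) • mkW _ _ = 0
      rw [hT, gT_single, map_smul, sub_eq_zero]
      congr 1
      simp [ev]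
    · rw [Set.mem_singleton_iff.mp hy, rho_d, wvac, dQ_mk]
      change mkW _ (gT _ _ _) = 0
      rw [gT_single, map_smul]
      simp [ev]
  | zero => simp
  | add y z _ _ hy hz => rw [map_add, LinearMap.add_apply, hy, hz, add_zero]
  | smul a y _ hy => rw [smul_eq_mul, map_mul, Module.End.mul_apply, hy, map_zero]

/-- The functional on the enveloping algebra. -/
noncomputable def epsU : UA →ₗ[ℂ] ℂ :=
  epsW (lz lam) ∘ₗ (LinearMap.applyₗ (wvac lam)) ∘ₗ (rho (lz lam)).toLinearMap

lemma epsU_apply (u : UA) : epsU lam u = epsW (lz lam) (rho (lz lam) u (wvac lam)) := rfl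

/-- The functional on the Verma module. -/
noncomputable def eps : Verma lam →ₗ[ℂ] ℂ :=
  show (UA ⧸ vermaIdeal lam) →ₗ[ℂ] ℂ from
  (((vermaIdeal lam).restrictScalars ℂ).liftQ (epsU lam) (fun u hu => by
    rw [LinearMap.mem_ker, epsU_apply, rho_ideal lam hu, map_zero])) ∘ₗ
    (Submodule.Quotient.restrictScalarsEquiv ℂ (vermaIdeal lam)).symm.toLinearMap

lemma eps_smul_vac (u : UA) :
    eps lam (u • vac lam) = epsW (lz lam) (rho (lz lam) u (wvac lam)) := by
  rw [smul_vac]
  rfl

lemma rho_fw (J : List (Fin 2)) : rho (lz lam) (fw J) (wvac lam) =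
    mkW (lz lam) (Finsupp.single J 1) := by
  induction J with
  | nil => rw [fw, map_one]; rfl
  | cons i J ih =>
    rw [fw, map_mul, Module.End.mul_apply, ih, rho_f, fQ_mk]
    change mkW _ (fT i _) = _
    rw [fT_single]

lemma eps_Phi (x : T) : eps lam (Phi (vac lam) x) = eps0 x := by
  induction x using Finsupp.induction_linear with
  | zero => simp
  | add x y hx hy => rw [map_add, map_add, map_add, hx, hy]
  | single J a =>
    rw [Phi_single, map_smul, eps_smul_vac, rho_fw, epsW_mk, ← map_smul]
    congr 1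
    simp

lemma Phi_surj : Function.Surjective (Phi (vac lam)) := by
  intro x
  obtain ⟨u, rfl⟩ := vermaMk_surj lam x
  rw [← smul_vac]
  exact (vacHW lam).range_stable u _ ⟨_, Phi_nil _⟩

/-- The grading by the length of words. -/
noncomputable def lenT : T →ₗ[ℂ] T := gT 0 (fun _ => 1)

/-- The element of `U(𝔤)` acting by minus the length. -/
noncomputable def lenU : UA := (2⁻¹ : ℂ) • (h 1 - algebraMap ℂ UA (lam 1)) + (2 : ℂ) • d

lemma lenU_Phi {M : Type*} [AddCommGroup M] [Module ℂ M] [Module UA M] [IsScalarTower ℂ UA M]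
    {v : M} (H : HW lam v) (x : T) : lenU lam • Phi v x = Phi v (lenT x) := by
  rw [lenU, add_smul, smul_assoc, smul_assoc, sub_smul, algebraMap_smul', ← H.Phi_hT, ← H.Phi_dT,
    ← map_smul, ← map_sub, ← map_smul, ← map_smul, ← map_add]
  congr 1
  induction x using Finsupp.induction_linear with
  | zero => simp
  | add x y hx hy =>
    simp only [map_add, smul_add]
    rw [← hx, ← hy]
    module
  | single J a =>
    rw [hT, lenT, gT_single, gT_single, gT_single, ← sub_smul, smul_smul, smul_smul, ← add_smul]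
    congr 1
    induction J with
    | nil => simp [ev]
    | cons i J ih =>
      simp only [ev_cons]
      have hi : (2⁻¹ : ℂ) * (-(cartan 1 i : ℂ)) + 2 * (-(if i = 0 then 1 else 0)) = -1 := by
        fin_cases i <;> (simp [cartan]; try norm_num)
      linear_combination ih + hi

/-- The projector on the words of length zero, for words of length at most `n`. -/
noncomputable def projU : ℕ → UA
  | 0 => 1
  | n + 1 => (1 + ((n + 1 : ℂ)⁻¹) • lenU lam) * projU n

lemma projU_single {M : Type*} [AddCommGroup M] [Module ℂ M] [Module UA M] [IsScalarTower ℂ UA M]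
    {v : M} (H : HW lam v) (J : List (Fin 2)) (n : ℕ) (a : ℂ) :
    ∃ c : ℂ, projU lam n • Phi v (Finsupp.single J a) = c • Phi v (Finsupp.single J a) ∧
      (J = [] → c = 1) ∧ (J ≠ [] → J.length ≤ n → c = 0) := by
  induction n with
  | zero =>
    refine ⟨1, by rw [projU, one_smul, one_smul], fun _ => rfl, fun hJ hn => ?_⟩
    exact absurd (List.length_eq_zero_iff.mp (Nat.le_zero.mp hn)) hJ
  | succ n ih =>
    obtain ⟨c, hc1, hc2, hc3⟩ := ih
    have hl : lenU lam • Phi v (Finsupp.single J a) =
        (-(J.length : ℂ)) • Phi v (Finsupp.single J a) := by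
      rw [lenU_Phi lam H, lenT, gT_single, map_smul]
      congr 1
      simp [ev]
    refine ⟨(1 + (n + 1 : ℂ)⁻¹ * (-(J.length : ℂ))) * c, ?_, ?_, ?_⟩
    · rw [projU, mul_smul, hc1, smul_comm, add_smul, one_smul, smul_assoc, hl]
      module
    · intro hJ; rw [hc2 hJ, hJ]; simp
    · intro hJ hn
      rcases Nat.lt_or_ge n J.length with hlt | hge
      · have : J.length = n + 1 := by omega
        rw [this]
        have hne : (n + 1 : ℂ) ≠ 0 := by exact_mod_cast Nat.succ_ne_zero n
        push_cast
        have : (1 + (n + 1 : ℂ)⁻¹ * (-(n + 1 : ℂ))) = 0 := by field_simp; ring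
        rw [this, zero_mul]
      · rw [hc3 hJ hge, mul_zero]

lemma exists_proj (x : T) : ∃ n0, ∀ n ≥ n0,
    projU lam n • Phi (vac lam) x = eps0 x • vac lam := by
  induction x using Finsupp.induction_linear with
  | zero => exact ⟨0, fun n _ => by simp⟩
  | add x y hx hy =>
    obtain ⟨n1, h1⟩ := hx
    obtain ⟨n2, h2⟩ := hy
    refine ⟨max n1 n2, fun n hn => ?_⟩
    rw [map_add, smul_add, h1 n (le_trans (le_max_left _ _) hn),
      h2 n (le_trans (le_max_right _ _) hn), map_add, add_smul]
  | single J a =>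
    refine ⟨J.length, fun n hn => ?_⟩
    obtain ⟨c, hc1, hc2, hc3⟩ := projU_single lam (vacHW lam) J n a
    rw [hc1]
    cases J with
    | nil =>
      rw [hc2 rfl, one_smul, eps0_nil, Phi_single, fw, one_smul]
    | cons i J =>
      rw [hc3 (by simp) hn, zero_smul, ← fT_single, eps0_fT, zero_smul]

lemma eps_proper {N : Submodule UA (Verma lam)} (hN : N ≠ ⊤) {x : Verma lam} (hx : x ∈ N) :
    eps lam x = 0 := by
  by_contra h0
  apply hN
  obtain ⟨t, rfl⟩ := Phi_surj lam x
  obtain ⟨n, hn⟩ := exists_proj lam t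
  have h1 := N.smul_mem (projU lam n) hx
  rw [hn n le_rfl] at h1
  rw [eps_Phi] at h0
  have h2 : vac lam ∈ N := by
    have := N.smul_mem (algebraMap ℂ UA (eps0 t)⁻¹) h1
    rw [algebraMap_smul', smul_smul, inv_mul_cancel₀ h0, one_smul] at this
    exact this
  rw [eq_top_iff]
  intro y _
  obtain ⟨u, rfl⟩ := vermaMk_surj lam y
  rw [← smul_vac]
  exact N.smul_mem u h2

lemma eps_maxSub {x : Verma lam} (hx : x ∈ maxSub lam) : eps lam x = 0 := by
  unfold maxSub at hx
  rw [sSup_eq_iSup'] at hx
  induction hx using Submodule.iSup_induction' with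
  | mem N y hy => exact eps_proper lam N.2 hy
  | zero => exact map_zero _
  | add y z _ _ hy hz => rw [map_add, hy, hz, add_zero]

end verma

end Pool.Agent.Helper855.Affine
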