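import Pool.Agent.Helper855.AffineDefs

/-!
Words in the lowering operators, the contravariant form on them, and the resulting action of the
affine algebra.
-/

set_option autoImplicit false

namespace Pool.Agent.Helper855.Affine

section commutators

variable {R : Type*} [Ring R]

lemma cm_leib (a b c : R) : cm a (cm b c) = cm (cm a b) c + cm b (cm a c) := by
  simp only [cm]; noncomm_ring

lemma cm_zero (a : R) : cm a 0 = 0 := by simp [cm]

lemma cm_neg (a b : R) : cm a (-b) = - cm a b := by simp only [cm]; noncomm_ring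

lemma cm_add (a b c : R) : cm a (b + c) = cm a b + cm a c := by simp only [cm]; noncomm_ring

lemma cm_zsmul (n : ℤ) (a b : R) : cm a (n • b) = n • cm a b := by
  simp only [cm, mul_smul_comm, smul_mul_assoc, smul_sub]

lemma zsmul_cm (n : ℤ) (a b : R) : cm (n • a) b = n • cm a b := by
  simp only [cm, mul_smul_comm, smul_mul_assoc, smul_sub]

lemma cm_skew (a b : R) : cm a b = - cm b a := by simp only [cm]; noncomm_ring

lemma neg_cm (a b : R) : cm (-a) b = - cm a b := by
  simp only [cm, neg_mul, mul_neg]; abel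

lemma cm_self (a : R) : cm a a = 0 := by simp [cm]

lemma serre_comm (a b c : Fin 2 → R) (h1 : ∀ k j, cm (b k) (a j) = if k = j then c k else 0)
    (h2 : ∀ i j, cm (c i) (a j) = (-cartan i j) • a j) (i j : Fin 2) (hij : i ≠ j) (k : Fin 2) :
    cm (b k) (cm (a i) (cm (a i) (cm (a i) (a j)))) = 0 := by
  have hii : cartan i i = 2 := by simp [cartan]
  have hIJ : cartan i j = -2 := by simp [cartan, hij]
  have hJI : cartan j i = -2 := by simp [cartan, hij.symm]
  by_cases hk : k = i
  · subst hk
    have e0 : cm (b k) (a j) = 0 := by rw [h1, if_neg hij]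
    have ek : cm (b k) (a k) = c k := by rw [h1, if_pos rfl]
    have c0 : cm (c k) (a j) = (2 : ℤ) • a j := by rw [h2, hIJ]; norm_num
    have ck : cm (c k) (a k) = (-2 : ℤ) • a k := by rw [h2, hii]
    have e1 : cm (b k) (cm (a k) (a j)) = (2 : ℤ) • a j := by
      rw [cm_leib, ek, e0, cm_zero, add_zero, c0]
    have c1 : cm (c k) (cm (a k) (a j)) = 0 := by
      rw [cm_leib, ck, c0, zsmul_cm, cm_zsmul]; module
    have e2 : cm (b k) (cm (a k) (cm (a k) (a j))) = (2 : ℤ) • cm (a k) (a j) := by
      rw [cm_leib, ek, e1, c1, zero_add, cm_zsmul]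
    have c2 : cm (c k) (cm (a k) (cm (a k) (a j))) = (-2 : ℤ) • cm (a k) (cm (a k) (a j)) := by
      rw [cm_leib, ck, c1, zsmul_cm, cm_zero, add_zero]
    rw [cm_leib, ek, e2, c2, cm_zsmul]; module
  · have hkj : k = j := by omega
    subst hkj
    have ei : cm (b k) (a i) = 0 := by rw [h1, if_neg hk]
    have ek : cm (b k) (a k) = c k := by rw [h1, if_pos rfl]
    have ci : cm (a i) (c k) = (-2 : ℤ) • a i := by
      rw [cm_skew, h2, hJI]; module
    have pass : ∀ x : R, cm (b k) (cm (a i) x) = cm (a i) (cm (b k) x) := by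
      intro x
      rw [cm_leib (b k) (a i) x, ei]
      simp [cm]
    rw [pass, pass, pass, ek, ci, cm_zsmul, cm_self, smul_zero, cm_zero]

end commutators

section words

/-- Words with complex coefficients. -/
abbrev T : Type := List (Fin 2) →₀ ℂ

/-- Prepend a letter. -/
noncomputable def fT (i : Fin 2) : T →ₗ[ℂ] T := Finsupp.lmapDomain ℂ ℂ (List.cons i)

lemma fT_single (i : Fin 2) (J : List (Fin 2)) (a : ℂ) :
    fT i (Finsupp.single J a) = Finsupp.single (i :: J) a := by
  simp [fT, Finsupp.lmapDomain_apply, Finsupp.mapDomain_single]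

/-- The eigenvalue of a diagonal operator on a word. -/
def ev (c : ℂ) (α : Fin 2 → ℂ) (J : List (Fin 2)) : ℂ := c - (J.map α).sum

/-- A diagonal operator. -/
noncomputable def gT (c : ℂ) (α : Fin 2 → ℂ) : T →ₗ[ℂ] T :=
  Finsupp.linearCombination ℂ (fun J => Finsupp.single J (ev c α J))

lemma gT_single (c : ℂ) (α : Fin 2 → ℂ) (J : List (Fin 2)) (a : ℂ) :
    gT c α (Finsupp.single J a) = ev c α J • Finsupp.single J a := by
  rw [gT, Finsupp.linearCombination_single, Finsupp.smul_single, Finsupp.smul_single]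
  congr 1
  simp only [smul_eq_mul]; ring

lemma ev_cons (c : ℂ) (α : Fin 2 → ℂ) (i : Fin 2) (J : List (Fin 2)) :
    ev c α (i :: J) = ev c α J - α i := by
  simp only [ev, List.map_cons, List.sum_cons]; ring

lemma gT_fT (c : ℂ) (α : Fin 2 → ℂ) (i : Fin 2) (x : T) :
    gT c α (fT i x) = fT i (gT c α x) - α i • fT i x := by
  induction x using Finsupp.induction_linear with
  | zero => simp
  | add x y hx hy => simp only [map_add, hx, hy, smul_add]; abel
  | single J a =>
    rw [fT_single, gT_single, gT_single, map_smul, fT_single, ev_cons, sub_smul]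

variable (lam : Fin 2 → ℤ)

/-- The action of `h_i` on words. -/
noncomputable def hT (i : Fin 2) : T →ₗ[ℂ] T := gT (lam i : ℂ) (fun j => (cartan i j : ℂ))

/-- The action of `e_i` on words. -/
noncomputable def eW (i : Fin 2) : List (Fin 2) → T
  | [] => 0
  | j :: J => fT j (eW i J) + if i = j then hT lam i (Finsupp.single J 1) else 0

/-- The action of `e_i` on words. -/
noncomputable def eT (i : Fin 2) : T →ₗ[ℂ] T := Finsupp.linearCombination ℂ (eW lam i)

lemma eT_single (i : Fin 2) (J : List (Fin 2)) (a : ℂ) :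
    eT lam i (Finsupp.single J a) = a • eW lam i J := by
  rw [eT, Finsupp.linearCombination_single]

lemma eT_nil (i : Fin 2) (a : ℂ) : eT lam i (Finsupp.single [] a) = 0 := by
  rw [eT_single, eW, smul_zero]

lemma eT_fT (i j : Fin 2) (x : T) :
    eT lam i (fT j x) = fT j (eT lam i x) + if i = j then hT lam i x else 0 := by
  induction x using Finsupp.induction_linear with
  | zero => simp
  | add x y hx hy =>
    simp only [map_add, hx, hy]
    split_ifs <;> abel
  | single J a =>
    rw [fT_single, eT_single, eT_single, eW, smul_add, map_smul]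
    congr 1
    split_ifs
    · rw [← map_smul, Finsupp.smul_single, smul_eq_mul, mul_one]
    · rw [smul_zero]

lemma gT_comm (c c' : ℂ) (α α' : Fin 2 → ℂ) (x : T) :
    gT c α (gT c' α' x) = gT c' α' (gT c α x) := by
  induction x using Finsupp.induction_linear with
  | zero => simp
  | add x y hx hy => simp only [map_add, hx, hy]
  | single J a =>
    rw [gT_single, gT_single, map_smul, map_smul, gT_single, gT_single, smul_comm]

/-- Induction on words and linear combinations. -/
lemma T_ind {P : T → Prop} (h0 : P 0) (hadd : ∀ x y, P x → P y → P (x + y))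
    (hsmul : ∀ (a : ℂ) x, P x → P (a • x)) (hnil : P (Finsupp.single [] 1))
    (hcons : ∀ i x, P x → P (fT i x)) (x : T) : P x := by
  have hw : ∀ J : List (Fin 2), P (Finsupp.single J 1) := by
    intro J
    induction J with
    | nil => exact hnil
    | cons i J ih => rw [← fT_single]; exact hcons i _ ih
  induction x using Finsupp.induction_linear with
  | zero => exact h0
  | add x y hx hy => exact hadd x y hx hy
  | single J a =>
    have : (Finsupp.single J a : T) = a • Finsupp.single J 1 := by simp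
    rw [this]; exact hsmul a _ (hw J)

lemma gT_eT (c : ℂ) (α : Fin 2 → ℂ) (i : Fin 2) (x : T) :
    gT c α (eT lam i x) = eT lam i (gT c α x) + α i • eT lam i x := by
  refine T_ind (P := fun x => gT c α (eT lam i x) = eT lam i (gT c α x) + α i • eT lam i x)
    (by simp) ?_ ?_ ?_ ?_ x
  · intro x y hx hy; simp only [map_add, hx, hy, smul_add]; abel
  · intro a x hx; simp only [map_smul, hx, smul_add]; rw [smul_comm]
  · rw [eT_nil, gT_single, map_smul, eT_nil]; simp
  · intro j x hx
    rw [eT_fT, map_add, gT_fT, hx, gT_fT, map_sub, map_smul, eT_fT, eT_fT, map_add, map_smul]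
    by_cases hij : i = j
    · subst hij
      simp only [if_true, hT]
      rw [gT_comm]
      module
    · simp only [hij, if_false, map_zero]
      module

/-- The coefficient of the empty word. -/
noncomputable def eps0 : T →ₗ[ℂ] ℂ := Finsupp.lapply []

lemma eps0_nil (a : ℂ) : eps0 (Finsupp.single [] a) = a := by simp [eps0]

lemma eps0_fT (i : Fin 2) (x : T) : eps0 (fT i x) = 0 := by
  induction x using Finsupp.induction_linear with
  | zero => simp
  | add f g hf hg => rw [map_add, map_add, hf, hg, add_zero]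
  | single w a => rw [fT_single]; simp [eps0]

lemma eps0_gT (c : ℂ) (α : Fin 2 → ℂ) (x : T) : eps0 (gT c α x) = c * eps0 x := by
  induction x using Finsupp.induction_linear with
  | zero => simp
  | add f g hf hg => rw [map_add, map_add, map_add, hf, hg]; ring
  | single w a =>
    rw [gT_single]
    cases w with
    | nil => rw [map_smul, eps0_nil]; simp [ev]
    | cons i w => rw [map_smul, ← fT_single, eps0_fT]; simp

/-- Apply raising operators along a word and take the coefficient of the empty word. -/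
noncomputable def pW : List (Fin 2) → T →ₗ[ℂ] ℂ
  | [] => eps0
  | i :: I => pW I ∘ₗ eT lam i

lemma pW_nil (x : T) : pW lam [] x = eps0 x := rfl

lemma pW_cons (i : Fin 2) (I : List (Fin 2)) (x : T) : pW lam (i :: I) x = pW lam I (eT lam i x) :=
  rfl

lemma pW_gT (c : ℂ) (α : Fin 2 → ℂ) (I : List (Fin 2)) : ∀ (x : T),
    pW lam I (gT c α x) = ev c α I * pW lam I x := by
  induction I with
  | nil => intro x; rw [pW_nil, eps0_gT, pW_nil]; simp [ev]
  | cons i I ih =>
    intro x
    rw [pW_cons, pW_cons, ev_cons]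
    have h1 : eT lam i (gT c α x) = gT c α (eT lam i x) - α i • eT lam i x := by
      rw [gT_eT]; abel
    rw [h1, map_sub, map_smul, ih, smul_eq_mul]
    ring

/-- The contravariant form. -/
noncomputable def B : T →ₗ[ℂ] T →ₗ[ℂ] ℂ := Finsupp.linearCombination ℂ (pW lam)

lemma B_single (I : List (Fin 2)) (a : ℂ) (x : T) : B lam (Finsupp.single I a) x = a * pW lam I x := by
  rw [B, Finsupp.linearCombination_single]; rfl

lemma B_fT (i : Fin 2) (x y : T) : B lam (fT i x) y = B lam x (eT lam i y) := by
  induction x using Finsupp.induction_linear with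
  | zero => simp
  | add f g hf hg => simp only [map_add, LinearMap.add_apply, hf, hg]
  | single w a => rw [fT_single, B_single, B_single]; rfl

lemma B_nil (y : T) (a : ℂ) : B lam (Finsupp.single [] a) y = a * eps0 y := B_single lam [] a y

lemma B_hT (i : Fin 2) (x y : T) : B lam (hT lam i x) y = B lam x (hT lam i y) := by
  induction x using Finsupp.induction_linear with
  | zero => simp
  | add f g hf hg => simp only [map_add, LinearMap.add_apply, hf, hg]
  | single w a =>
    rw [hT, gT_single, map_smul, LinearMap.smul_apply, B_single, B_single, pW_gT, smul_eq_mul]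
    ring

lemma B_fT_right (j : Fin 2) (x : T) : ∀ y : T, B lam x (fT j y) = B lam (eT lam j x) y := by
  refine T_ind (P := fun x => ∀ y, B lam x (fT j y) = B lam (eT lam j x) y) ?_ ?_ ?_ ?_ ?_ x
  · intro y; simp
  · intro x x' hx hx' y; simp only [map_add, LinearMap.add_apply, hx, hx']
  · intro a x hx y; simp only [map_smul, LinearMap.smul_apply, hx]
  · intro y; rw [B_nil, eps0_fT, eT_nil]; simp
  · intro i x hx y
    rw [B_fT, eT_fT, eT_fT, map_add, map_add, LinearMap.add_apply, hx, B_fT]
    congr 1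
    by_cases hij : i = j
    · subst hij; simp only [if_true]; rw [B_hT]
    · have hji : ¬ j = i := fun h => hij h.symm
      simp [hij, hji]

lemma B_nil_right (x : T) : B lam x (Finsupp.single [] 1) = eps0 x := by
  refine T_ind (P := fun x => B lam x (Finsupp.single [] 1) = eps0 x) ?_ ?_ ?_ ?_ ?_ x
  · simp
  · intro y y' hy hy'; simp only [map_add, LinearMap.add_apply, hy, hy']
  · intro a y hy; simp only [map_smul, LinearMap.smul_apply, hy]
  · rw [B_nil, one_mul]
  · intro i x _; rw [B_fT, eT_nil, eps0_fT]; simp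

lemma B_symm (y : T) : ∀ x, B lam x y = B lam y x := by
  refine T_ind (P := fun y => ∀ x, B lam x y = B lam y x) ?_ ?_ ?_ ?_ ?_ y
  · intro x; simp
  · intro y y' hy hy' x; simp only [map_add, LinearMap.add_apply, hy, hy']
  · intro a y hy x; simp only [map_smul, LinearMap.smul_apply, hy]
  · intro x; rw [B_nil, one_mul, B_nil_right]
  · intro i y hy x
    rw [B_fT_right, B_fT, hy]

/-- The radical of the form. -/
noncomputable def RadT : Submodule ℂ T where
  carrier := {x | ∀ I, pW lam I x = 0}
  add_mem' := by intro x y hx hy I; rw [map_add, hx I, hy I, add_zero]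
  zero_mem' := by intro I; simp
  smul_mem' := by intro a x hx I; rw [map_smul, hx I, smul_zero]

lemma mem_RadT {x : T} : x ∈ RadT lam ↔ ∀ I, pW lam I x = 0 := Iff.rfl

lemma RadT_eT (i : Fin 2) {x : T} (hx : x ∈ RadT lam) : eT lam i x ∈ RadT lam := fun I => hx (i :: I)

lemma RadT_gT (c : ℂ) (α : Fin 2 → ℂ) {x : T} (hx : x ∈ RadT lam) : gT c α x ∈ RadT lam := by
  intro I; rw [pW_gT, hx I, mul_zero]

lemma RadT_fT (i : Fin 2) {x : T} (hx : x ∈ RadT lam) : fT i x ∈ RadT lam := by
  intro I
  induction I generalizing x with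
  | nil => rw [pW_nil, eps0_fT]
  | cons j I ih =>
    rw [pW_cons, eT_fT, map_add, ih (RadT_eT lam j hx), zero_add]
    split_ifs
    · exact RadT_gT lam _ _ hx I
    · simp

/-! ### The relations on words -/

/-- `f_i` as an endomorphism. -/
noncomputable def Fe (i : Fin 2) : Module.End ℂ T := fT i

/-- `e_i` as an endomorphism. -/
noncomputable def Ee (i : Fin 2) : Module.End ℂ T := eT lam i

/-- `h_i` as an endomorphism. -/
noncomputable def He (i : Fin 2) : Module.End ℂ T := hT lam i

/-- `d` as an endomorphism. -/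
noncomputable def De : Module.End ℂ T := gT 0 (fun j => if j = 0 then 1 else 0)

lemma cm_apply (a b : Module.End ℂ T) (x : T) : cm a b x = a (b x) - b (a x) := rfl

lemma rel_ef (i j : Fin 2) : cm (Ee lam i) (Fe j) = if i = j then He lam i else 0 := by
  refine LinearMap.ext fun x => ?_
  rw [cm_apply]
  change eT lam i (fT j x) - fT j (eT lam i x) = _
  rw [eT_fT]
  split_ifs
  · change _ = hT lam i x; abel
  · simp

lemma rel_hf (i j : Fin 2) : cm (He lam i) (Fe j) = (-cartan i j) • Fe j := by
  refine LinearMap.ext fun x => ?_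
  rw [cm_apply]
  change hT lam i (fT j x) - fT j (hT lam i x) = (-cartan i j) • fT j x
  rw [hT, gT_fT, ← Int.cast_smul_eq_zsmul ℂ]
  push_cast
  module

lemma rel_he (i j : Fin 2) : cm (He lam i) (Ee lam j) = (cartan i j) • Ee lam j := by
  refine LinearMap.ext fun x => ?_
  rw [cm_apply]
  change hT lam i (eT lam j x) - eT lam j (hT lam i x) = (cartan i j) • eT lam j x
  rw [hT, gT_eT, ← Int.cast_smul_eq_zsmul ℂ]
  module

lemma serre_f (i j : Fin 2) (hij : i ≠ j) (x : T) :
    cm (Fe i) (cm (Fe i) (cm (Fe i) (Fe j))) x ∈ RadT lam := by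
  set θ := cm (Fe i) (cm (Fe i) (cm (Fe i) (Fe j))) with hθ
  have hcomm : ∀ k (y : T), eT lam k (θ y) = θ (eT lam k y) := by
    intro k y
    have h := serre_comm (R := Module.End ℂ T) Fe (Ee lam) (He lam) (fun k j => rel_ef lam k j)
      (fun i j => rel_hf lam i j) i j hij k
    have h2 := LinearMap.congr_fun h y
    rw [cm_apply] at h2
    exact sub_eq_zero.mp h2
  have hker : ∀ y, eps0 (θ y) = 0 := by
    intro y
    rw [hθ]
    simp only [cm_apply, map_sub]
    simp only [Fe, eps0_fT, sub_zero]
  intro I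
  induction I generalizing x with
  | nil => exact hker x
  | cons k I ih => rw [pW_cons, hcomm]; exact ih _

lemma serre_e (i j : Fin 2) (hij : i ≠ j) :
    cm (Ee lam i) (cm (Ee lam i) (cm (Ee lam i) (Ee lam j))) = 0 := by
  set θ := cm (Ee lam i) (cm (Ee lam i) (cm (Ee lam i) (Ee lam j))) with hθ
  have hcomm : ∀ k (y : T), fT k (θ y) = θ (fT k y) := by
    intro k y
    have h := serre_comm (R := Module.End ℂ T) (Ee lam) Fe (fun i => - He lam i)
      (fun k j => by
        rw [cm_skew, rel_ef]
        by_cases hkj : k = j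
        · subst hkj; simp
        · have : ¬ j = k := fun h => hkj h.symm
          simp [hkj, this])
      (fun i j => by
        rw [neg_cm, rel_he]
        exact (neg_smul (cartan i j) (Ee lam j)).symm) i j hij k
    have h2 := LinearMap.congr_fun h y
    rw [cm_apply] at h2
    exact sub_eq_zero.mp h2
  refine LinearMap.ext fun x => ?_
  refine T_ind (P := fun x => θ x = (0 : Module.End ℂ T) x) ?_ ?_ ?_ ?_ ?_ x
  · simp
  · intro x y hx hy; rw [map_add, map_add, hx, hy]
  · intro a x hx; rw [map_smul, map_smul, hx]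
  · rw [hθ]
    simp only [cm_apply, Ee, eT_nil, map_zero, sub_zero, LinearMap.zero_apply]
  · intro k x hx
    rw [← hcomm, hx]; simp

/-! ### The quotient by the radical is a module -/

/-- The quotient of the words by the radical. -/
abbrev W : Type := T ⧸ RadT lam

/-- `e_i` on the quotient. -/
noncomputable def eQ (i : Fin 2) : Module.End ℂ (W lam) :=
  (RadT lam).mapQ (RadT lam) (Ee lam i) (fun _ hx => RadT_eT lam i hx)

/-- `f_i` on the quotient. -/
noncomputable def fQ (i : Fin 2) : Module.End ℂ (W lam) :=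
  (RadT lam).mapQ (RadT lam) (Fe i) (fun _ hx => RadT_fT lam i hx)

/-- `h_i` on the quotient. -/
noncomputable def hQ (i : Fin 2) : Module.End ℂ (W lam) :=
  (RadT lam).mapQ (RadT lam) (He lam i) (fun _ hx => RadT_gT lam _ _ hx)

/-- `d` on the quotient. -/
noncomputable def dQ : Module.End ℂ (W lam) :=
  (RadT lam).mapQ (RadT lam) De (fun _ hx => RadT_gT lam _ _ hx)

/-- The operators of the generators. -/
noncomputable def opQ : Gen → Module.End ℂ (W lam)
  | .e i => eQ lam i
  | .f i => fQ lam i
  | .h i => hQ lam i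
  | .d => dQ lam

/-- The quotient map. -/
noncomputable def mkW : T →ₗ[ℂ] W lam := (RadT lam).mkQ

lemma mkW_surj : Function.Surjective (mkW lam) := (RadT lam).mkQ_surjective

lemma opQ_mk (g : Gen) : ∃ a : Module.End ℂ T, ∀ x, opQ lam g (mkW lam x) = mkW lam (a x) := by
  cases g with
  | e i => exact ⟨Ee lam i, fun x => rfl⟩
  | f i => exact ⟨Fe i, fun x => rfl⟩
  | h i => exact ⟨He lam i, fun x => rfl⟩
  | d => exact ⟨De, fun x => rfl⟩

lemma cm_applyQ (a b : Module.End ℂ (W lam)) (x : W lam) : cm a b x = a (b x) - b (a x) := rfl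

lemma toCm {a b : Module.End ℂ (W lam)} {a' b' : Module.End ℂ T}
    (ha : ∀ x, a (mkW lam x) = mkW lam (a' x)) (hb : ∀ x, b (mkW lam x) = mkW lam (b' x)) (x : T) :
    cm a b (mkW lam x) = mkW lam (cm a' b' x) := by
  rw [cm_applyQ, cm_apply, ha, hb, ha, hb, map_sub]

lemma eQ_mk (i : Fin 2) (x : T) : eQ lam i (mkW lam x) = mkW lam (Ee lam i x) := rfl
lemma fQ_mk (i : Fin 2) (x : T) : fQ lam i (mkW lam x) = mkW lam (Fe i x) := rfl
lemma hQ_mk (i : Fin 2) (x : T) : hQ lam i (mkW lam x) = mkW lam (He lam i x) := rfl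
lemma dQ_mk (x : T) : dQ lam (mkW lam x) = mkW lam (De x) := rfl

lemma extW {a b : Module.End ℂ (W lam)} (H : ∀ x, a (mkW lam x) = b (mkW lam x)) : a = b := by
  refine LinearMap.ext fun y => ?_
  obtain ⟨x, rfl⟩ := mkW_surj lam y
  exact H x

/-- The action of the free algebra. -/
noncomputable def rho0 : FreeAlgebra ℂ Gen →ₐ[ℂ] Module.End ℂ (W lam) :=
  FreeAlgebra.lift ℂ (opQ lam)

lemma rho0_gn (x : Gen) : rho0 lam (gn x) = opQ lam x := by
  rw [rho0, gn, FreeAlgebra.lift_ι_apply]

lemma rho0_cm (a b : FreeAlgebra ℂ Gen) : rho0 lam (cm a b) = cm (rho0 lam a) (rho0 lam b) := by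
  simp only [cm, map_sub, map_mul]

lemma rho0_rel {a b : FreeAlgebra ℂ Gen} (H : Rel a b) : rho0 lam a = rho0 lam b := by
  cases H with
  | hh i j =>
    rw [rho0_cm, rho0_gn, rho0_gn, map_zero]
    refine extW lam fun x => ?_
    rw [show opQ lam (.h i) = hQ lam i from rfl, show opQ lam (.h j) = hQ lam j from rfl,
      toCm lam (hQ_mk lam i) (hQ_mk lam j)]
    have : cm (He lam i) (He lam j) x = 0 := by
      rw [cm_apply]
      exact sub_eq_zero.mpr (gT_comm _ _ _ _ x)
    rw [this, map_zero]; rfl
  | hd i =>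
    rw [rho0_cm, rho0_gn, rho0_gn, map_zero]
    refine extW lam fun x => ?_
    rw [show opQ lam (.h i) = hQ lam i from rfl, show opQ lam .d = dQ lam from rfl,
      toCm lam (hQ_mk lam i) (dQ_mk lam)]
    have : cm (He lam i) De x = 0 := by
      rw [cm_apply]
      exact sub_eq_zero.mpr (gT_comm _ _ _ _ x)
    rw [this, map_zero]; rfl
  | ef i j =>
    rw [rho0_cm, rho0_gn, rho0_gn]
    refine extW lam fun x => ?_
    rw [show opQ lam (.e i) = eQ lam i from rfl, show opQ lam (.f j) = fQ lam j from rfl,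
      toCm lam (eQ_mk lam i) (fQ_mk lam j), rel_ef]
    split_ifs
    · rw [rho0_gn]; rfl
    · rw [map_zero, LinearMap.zero_apply, map_zero]; rfl
  | he i j =>
    rw [rho0_cm, rho0_gn, rho0_gn, map_zsmul, rho0_gn]
    refine extW lam fun x => ?_
    rw [show opQ lam (.h i) = hQ lam i from rfl, show opQ lam (.e j) = eQ lam j from rfl,
      toCm lam (hQ_mk lam i) (eQ_mk lam j), rel_he, LinearMap.smul_apply, map_zsmul]
    rfl
  | hf i j =>
    rw [rho0_cm, rho0_gn, rho0_gn, map_neg, map_zsmul, rho0_gn]
    refine extW lam fun x => ?_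
    rw [show opQ lam (.h i) = hQ lam i from rfl, show opQ lam (.f j) = fQ lam j from rfl,
      toCm lam (hQ_mk lam i) (fQ_mk lam j), rel_hf, LinearMap.smul_apply, map_zsmul, ← neg_smul]
    rfl
  | de j =>
    rw [rho0_cm, rho0_gn, rho0_gn]
    refine extW lam fun x => ?_
    rw [show opQ lam .d = dQ lam from rfl, show opQ lam (.e j) = eQ lam j from rfl,
      toCm lam (dQ_mk lam) (eQ_mk lam j), cm_apply]
    have h1 : De (Ee lam j x) - Ee lam j (De x) =
        ((if j = 0 then 1 else 0 : ℂ)) • Ee lam j x := by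
      change gT _ _ (eT lam j x) - eT lam j (gT _ _ x) = _ • eT lam j x
      rw [gT_eT]; abel
    rw [h1]
    split_ifs
    · rw [one_smul, rho0_gn]; rfl
    · rw [zero_smul, map_zero, map_zero]; rfl
  | df j =>
    rw [rho0_cm, rho0_gn, rho0_gn, map_neg]
    refine extW lam fun x => ?_
    rw [show opQ lam .d = dQ lam from rfl, show opQ lam (.f j) = fQ lam j from rfl,
      toCm lam (dQ_mk lam) (fQ_mk lam j), cm_apply]
    have h1 : De (Fe j x) - Fe j (De x) = - (((if j = 0 then 1 else 0 : ℂ)) • Fe j x) := by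
      change gT _ _ (fT j x) - fT j (gT _ _ x) = - (_ • fT j x)
      rw [gT_fT]; abel
    rw [h1]
    split_ifs
    · rw [one_smul, rho0_gn, map_neg]; rfl
    · rw [zero_smul, map_zero, neg_zero, map_zero, neg_zero]; rfl
  | serre_e i j hij =>
    rw [rho0_cm, rho0_cm, rho0_cm, rho0_gn, rho0_gn, map_zero]
    refine extW lam fun x => ?_
    rw [show opQ lam (.e i) = eQ lam i from rfl, show opQ lam (.e j) = eQ lam j from rfl,
      toCm lam (eQ_mk lam i) (toCm lam (eQ_mk lam i) (toCm lam (eQ_mk lam i) (eQ_mk lam j))),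
      serre_e lam i j hij, LinearMap.zero_apply, map_zero]
    rfl
  | serre_f i j hij =>
    rw [rho0_cm, rho0_cm, rho0_cm, rho0_gn, rho0_gn, map_zero]
    refine extW lam fun x => ?_
    rw [show opQ lam (.f i) = fQ lam i from rfl, show opQ lam (.f j) = fQ lam j from rfl,
      toCm lam (fQ_mk lam i) (toCm lam (fQ_mk lam i) (toCm lam (fQ_mk lam i) (fQ_mk lam j)))]
    exact (Submodule.Quotient.mk_eq_zero _).mpr (serre_f lam i j hij x)

/-- The action of `U(𝔤)` on the quotient. -/
noncomputable def rho : UA →ₐ[ℂ] Module.End ℂ (W lam) :=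
  show RingQuot Rel →ₐ[ℂ] Module.End ℂ (W lam) from
    RingQuot.liftAlgHom ℂ ⟨rho0 lam, fun _ _ H => rho0_rel lam H⟩

lemma rho_toUA (x : FreeAlgebra ℂ Gen) : rho lam (toUA x) = rho0 lam x :=
  RingQuot.liftAlgHom_mkAlgHom_apply ℂ (rho0 lam) _ x

lemma rho_e (i : Fin 2) : rho lam (e i) = eQ lam i := by rw [e, rho_toUA, rho0_gn]; rfl
lemma rho_f (i : Fin 2) : rho lam (f i) = fQ lam i := by rw [f, rho_toUA, rho0_gn]; rfl
lemma rho_h (i : Fin 2) : rho lam (h i) = hQ lam i := by rw [h, rho_toUA, rho0_gn]; rfl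
lemma rho_d : rho lam d = dQ lam := by rw [d, rho_toUA, rho0_gn]; rfl

/-- The functional on the quotient. -/
noncomputable def epsW : W lam →ₗ[ℂ] ℂ := (RadT lam).liftQ eps0 (fun _ hx => hx [])

lemma epsW_mk (x : T) : epsW lam (mkW lam x) = eps0 x := rfl

end words

/-! ### Relations in `U(𝔤)` -/

section relations

lemma toUA_rel {a b : FreeAlgebra ℂ Gen} (H : Rel a b) : toUA a = toUA b :=
  RingQuot.mkAlgHom_rel ℂ H

lemma toUA_cm (a b : FreeAlgebra ℂ Gen) : toUA (cm a b) = cm (toUA a) (toUA b) := by
  simp only [cm, map_sub, map_mul]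

lemma ua_hh (i j : Fin 2) : cm (h i) (h j) = 0 := by
  have := toUA_rel (.hh i j); rwa [toUA_cm, map_zero] at this

lemma ua_hd (i : Fin 2) : cm (h i) d = 0 := by
  have := toUA_rel (.hd i); rwa [toUA_cm, map_zero] at this

lemma ua_ef (i j : Fin 2) : cm (e i) (f j) = if i = j then h i else 0 := by
  have := toUA_rel (.ef i j)
  rw [toUA_cm] at this
  refine this.trans ?_
  split_ifs
  · rfl
  · exact map_zero _

lemma ua_he (i j : Fin 2) : cm (h i) (e j) = cartan i j • e j := by
  have := toUA_rel (.he i j); rwa [toUA_cm, map_zsmul] at this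

lemma ua_hf (i j : Fin 2) : cm (h i) (f j) = - (cartan i j • f j) := by
  have := toUA_rel (.hf i j); rwa [toUA_cm, map_neg, map_zsmul] at this

lemma ua_de (j : Fin 2) : cm d (e j) = if j = 0 then e j else 0 := by
  have := toUA_rel (.de j)
  rw [toUA_cm] at this
  refine this.trans ?_
  split_ifs
  · rfl
  · exact map_zero _

lemma ua_df (j : Fin 2) : cm d (f j) = - (if j = 0 then f j else 0) := by
  have := toUA_rel (.df j)
  rw [toUA_cm] at this
  refine this.trans ?_
  rw [map_neg]
  split_ifs
  · rfl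
  · rw [map_zero]

/-- Induction on `U(𝔤)`. -/
lemma UA_ind {P : UA → Prop} (halg : ∀ a : ℂ, P (algebraMap ℂ UA a)) (he : ∀ i, P (e i))
    (hf : ∀ i, P (f i)) (hh : ∀ i, P (h i)) (hd : P d) (hadd : ∀ x y, P x → P y → P (x + y))
    (hmul : ∀ x y, P x → P y → P (x * y)) (u : UA) : P u := by
  obtain ⟨a, rfl⟩ := RingQuot.mkAlgHom_surjective ℂ Rel u
  refine FreeAlgebra.induction ℂ Gen (motive := fun a => P (toUA a)) ?_ ?_ ?_ ?_ a
  · intro r; rw [AlgHom.commutes]; exact halg r
  · intro x
    cases x with
    | e i => exact he i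
    | f i => exact hf i
    | h i => exact hh i
    | d => exact hd
  · intro x y hx hy; rw [map_mul]; exact hmul _ _ hx hy
  · intro x y hx hy; rw [map_add]; exact hadd _ _ hx hy

end relations

end Pool.Agent.Helper855.Affine
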