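import Pool.Agent.Helper855.BqRing

/-!
Orthogonality preserving maps between three-dimensional inner product spaces.
-/

set_option autoImplicit false

namespace Pool.Agent.Helper855.Bq

open Module

lemma OP.slope_gen {G1 G2 G3 : ℝ → ℝ → ℝ → ℝ} (H : OP G1 G2 G3) {a b : ℝ} (h : a ≠ 0 ∨ b ≠ 0) :
    a ^ 2 * G2 a b 0 ^ 2 = b ^ 2 * G1 a b 0 ^ 2 := by
  by_cases ha : a = 0
  · subst ha
    rw [H.z1 (Or.inl (h.resolve_left (by simp)))]
    ring
  · have w : -(b / a) ≠ 0 ∨ (1 : ℝ) ≠ 0 := Or.inr one_ne_zero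
    have p := par (H.n12 w) (H.o12 (a := 1) (b := b / a) (by simp) w (by ring))
      (H.o12 (a := a) (b := b) h w (by field_simp; ring))
    have s := H.slope_sq (b / a)
    have n1 : G1 1 (b / a) 0 ≠ 0 := by
      intro h0
      rw [h0] at s
      exact H.n12 (Or.inl one_ne_zero : (1 : ℝ) ≠ 0 ∨ b / a ≠ 0)
        ⟨h0, by simpa using s⟩
    have hx : a * (b / a) = b := by field_simp
    set x := b / a
    rw [← hx]
    apply mul_left_cancel₀ (pow_ne_zero 2 n1)
    have p2 : (G1 a (a * x) 0 * G2 1 x 0) ^ 2 = (G2 a (a * x) 0 * G1 1 x 0) ^ 2 := by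
      rw [hx]; rw [p]
    linear_combination (-a ^ 2) * p2 + a ^ 2 * G1 a (a * x) 0 ^ 2 * s

section inner

variable {E V : Type*} [NormedAddCommGroup E] [InnerProductSpace ℝ E]
  [NormedAddCommGroup V] [InnerProductSpace ℝ V]

/-- A family of pairwise orthogonal nonzero vectors in a subspace is not larger than the
dimension. -/
lemma card_le_finrank {n : ℕ} (L : Submodule ℝ V) [FiniteDimensional ℝ L] (a : Fin n → V)
    (hL : ∀ i, a i ∈ L) (h0 : ∀ i, a i ≠ 0) (ho : ∀ i j, i ≠ j → inner ℝ (a i) (a j) = 0) :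
    n ≤ finrank ℝ L := by
  let a' : Fin n → L := fun i => ⟨a i, hL i⟩
  have h1 : LinearIndependent ℝ a := by
    refine linearIndependent_of_ne_zero_of_inner_eq_zero h0 ?_
    intro i j hij
    exact ho i j hij
  have h2 : LinearIndependent ℝ a' := by
    refine LinearIndependent.of_comp L.subtype ?_
    exact h1
  have := h2.fintype_card_le_finrank
  simpa using this

/-- A vector of a subspace of dimension at most three that is orthogonal to three orthonormal
vectors of the subspace vanishes. -/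
lemma eq_zero_of_orth {L : Submodule ℝ V} [FiniteDimensional ℝ L] (hL : finrank ℝ L ≤ 3)
    {a b c x : V} (ha : a ∈ L) (hb : b ∈ L) (hc : c ∈ L) (hx : x ∈ L)
    (na : ‖a‖ = 1) (nb : ‖b‖ = 1) (nc : ‖c‖ = 1)
    (hab : inner ℝ a b = 0) (hac : inner ℝ a c = 0) (hbc : inner ℝ b c = 0)
    (h1 : inner ℝ x a = 0) (h2 : inner ℝ x b = 0) (h3 : inner ℝ x c = 0) : x = 0 := by
  by_contra hne
  have na' : a ≠ 0 := fun h => by simp [h] at na
  have nb' : b ≠ 0 := fun h => by simp [h] at nb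
  have nc' : c ≠ 0 := fun h => by simp [h] at nc
  have hab' : inner ℝ b a = 0 := by rw [real_inner_comm]; exact hab
  have hac' : inner ℝ c a = 0 := by rw [real_inner_comm]; exact hac
  have hbc' : inner ℝ c b = 0 := by rw [real_inner_comm]; exact hbc
  have h1' : inner ℝ a x = 0 := by rw [real_inner_comm]; exact h1
  have h2' : inner ℝ b x = 0 := by rw [real_inner_comm]; exact h2
  have h3' : inner ℝ c x = 0 := by rw [real_inner_comm]; exact h3
  have := card_le_finrank L ![a, b, c, x]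
    (by intro i; fin_cases i <;> simpa)
    (by intro i; fin_cases i <;> simpa)
    (by intro i j hij; fin_cases i <;> fin_cases j <;> simp_all)
  omega

/-- Expansion of the norm in a subspace of dimension at most three. -/
lemma parseval {L : Submodule ℝ V} [FiniteDimensional ℝ L] (hL : finrank ℝ L ≤ 3)
    {a b c x : V} (ha : a ∈ L) (hb : b ∈ L) (hc : c ∈ L) (hx : x ∈ L)
    (na : ‖a‖ = 1) (nb : ‖b‖ = 1) (nc : ‖c‖ = 1)
    (hab : inner ℝ a b = 0) (hac : inner ℝ a c = 0) (hbc : inner ℝ b c = 0) :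
    x = (inner ℝ x a : ℝ) • a + (inner ℝ x b : ℝ) • b + (inner ℝ x c : ℝ) • c := by
  have hab' : inner ℝ b a = 0 := by rw [real_inner_comm]; exact hab
  have hac' : inner ℝ c a = 0 := by rw [real_inner_comm]; exact hac
  have hbc' : inner ℝ c b = 0 := by rw [real_inner_comm]; exact hbc
  have key := eq_zero_of_orth hL (x := x - ((inner ℝ x a : ℝ) • a + (inner ℝ x b : ℝ) • b +
    (inner ℝ x c : ℝ) • c)) ha hb hc
    (L.sub_mem hx (L.add_mem (L.add_mem (L.smul_mem _ ha) (L.smul_mem _ hb)) (L.smul_mem _ hc)))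
    na nb nc hab hac hbc
    (by simp [inner_sub_left, inner_add_left, inner_smul_left, na, hab', hac'])
    (by simp [inner_sub_left, inner_add_left, inner_smul_left, nb, hab, hbc'])
    (by simp [inner_sub_left, inner_add_left, inner_smul_left, nc, hac, hbc])
  exact sub_eq_zero.mp key

/-- An orthogonality preserving map from a three-dimensional space into a three-dimensional space
preserves angles up to sign. -/
theorem angle_sq (L : Submodule ℝ V) [FiniteDimensional ℝ L] (hL : finrank ℝ L ≤ 3) (g : E → V)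
    {e1 e2 e3 : E} (n1 : ‖e1‖ = 1) (n2 : ‖e2‖ = 1) (n3 : ‖e3‖ = 1)
    (h12 : inner ℝ e1 e2 = (0 : ℝ)) (h13 : inner ℝ e1 e3 = (0 : ℝ))
    (h23 : inner ℝ e2 e3 = (0 : ℝ))
    (hg1 : ∀ u ∈ Submodule.span ℝ {e1, e2, e3}, ‖u‖ = 1 → ‖g u‖ = 1 ∧ g u ∈ L)
    (hg2 : ∀ u ∈ Submodule.span ℝ {e1, e2, e3}, ∀ v ∈ Submodule.span ℝ {e1, e2, e3},
      ‖u‖ = 1 → ‖v‖ = 1 → inner ℝ u v = (0 : ℝ) → inner ℝ (g u) (g v) = (0 : ℝ))
    {α β : ℝ} (hαβ : α ^ 2 + β ^ 2 = 1) :
    (inner ℝ (g (α • e1 + β • e2)) (g e1) : ℝ) ^ 2 = α ^ 2 := by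
  have m1 : e1 ∈ Submodule.span ℝ {e1, e2, e3} := Submodule.subset_span (by simp)
  have m2 : e2 ∈ Submodule.span ℝ {e1, e2, e3} := Submodule.subset_span (by simp)
  have m3 : e3 ∈ Submodule.span ℝ {e1, e2, e3} := Submodule.subset_span (by simp)
  have h21 : inner ℝ e2 e1 = (0 : ℝ) := by rw [real_inner_comm]; exact h12
  have h31 : inner ℝ e3 e1 = (0 : ℝ) := by rw [real_inner_comm]; exact h13
  have h32 : inner ℝ e3 e2 = (0 : ℝ) := by rw [real_inner_comm]; exact h23
  have h11 : inner ℝ e1 e1 = (1 : ℝ) := by rw [real_inner_self_eq_norm_sq, n1]; norm_num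
  have h22 : inner ℝ e2 e2 = (1 : ℝ) := by rw [real_inner_self_eq_norm_sq, n2]; norm_num
  have h33 : inner ℝ e3 e3 = (1 : ℝ) := by rw [real_inner_self_eq_norm_sq, n3]; norm_num
  let v : ℝ → ℝ → ℝ → E := fun a b c => a • e1 + b • e2 + c • e3
  have hv : ∀ a b c a' b' c', inner ℝ (v a b c) (v a' b' c') = a * a' + b * b' + c * c' := by
    intro a b c a' b' c'
    simp only [v, inner_add_left, inner_add_right, inner_smul_left, inner_smul_right, h11, h12, h13,
      h21, h22, h23, h31, h32, h33, conj_trivial]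
    ring
  have hmem : ∀ a b c, v a b c ∈ Submodule.span ℝ {e1, e2, e3} := fun a b c =>
    Submodule.add_mem _ (Submodule.add_mem _ (Submodule.smul_mem _ _ m1)
      (Submodule.smul_mem _ _ m2)) (Submodule.smul_mem _ _ m3)
  have hne : ∀ a b c, (a ≠ 0 ∨ b ≠ 0 ∨ c ≠ 0) → v a b c ≠ 0 := by
    intro a b c h h0
    have h1 := hv a b c a b c
    rw [h0, inner_zero_left] at h1
    have ha : a = 0 := by nlinarith [sq_nonneg a, sq_nonneg b, sq_nonneg c]
    have hb : b = 0 := by nlinarith [sq_nonneg a, sq_nonneg b, sq_nonneg c]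
    have hc : c = 0 := by nlinarith [sq_nonneg a, sq_nonneg b, sq_nonneg c]
    tauto
  let w : ℝ → ℝ → ℝ → E := fun a b c => (‖v a b c‖⁻¹ : ℝ) • v a b c
  have hw : ∀ a b c, (a ≠ 0 ∨ b ≠ 0 ∨ c ≠ 0) → ‖w a b c‖ = 1 := by
    intro a b c h
    have := norm_ne_zero_iff.mpr (hne a b c h)
    simp only [w, norm_smul, norm_inv, norm_norm]
    field_simp
  have hwm : ∀ a b c, w a b c ∈ Submodule.span ℝ {e1, e2, e3} := fun a b c =>
    Submodule.smul_mem _ _ (hmem a b c)
  have hwu : ∀ a b c, a ^ 2 + b ^ 2 + c ^ 2 = 1 → w a b c = v a b c := by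
    intro a b c h
    have : ‖v a b c‖ ^ 2 = 1 := by
      rw [← real_inner_self_eq_norm_sq, hv]; linear_combination h
    have h2 : ‖v a b c‖ = 1 := (pow_eq_one_iff_of_nonneg (norm_nonneg _) two_ne_zero).mp this
    simp only [w]
    rw [h2]; simp
  have w1 : w 1 0 0 = e1 := by rw [hwu _ _ _ (by norm_num)]; simp [v]
  have w2 : w 0 1 0 = e2 := by rw [hwu _ _ _ (by norm_num)]; simp [v]
  have w3 : w 0 0 1 = e3 := by rw [hwu _ _ _ (by norm_num)]; simp [v]
  have a12 := hg2 e1 m1 e2 m2 n1 n2 h12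
  have a13 := hg2 e1 m1 e3 m3 n1 n3 h13
  have a23 := hg2 e2 m2 e3 m3 n2 n3 h23
  have a21 : inner ℝ (g e2) (g e1) = (0 : ℝ) := by rw [real_inner_comm]; exact a12
  have a31 : inner ℝ (g e3) (g e1) = (0 : ℝ) := by rw [real_inner_comm]; exact a13
  have a32 : inner ℝ (g e3) (g e2) = (0 : ℝ) := by rw [real_inner_comm]; exact a23
  have exp : ∀ x ∈ L, x = (inner ℝ x (g e1) : ℝ) • g e1 + (inner ℝ x (g e2) : ℝ) • g e2 +
      (inner ℝ x (g e3) : ℝ) • g e3 := fun x hx =>
    parseval hL (hg1 e1 m1 n1).2 (hg1 e2 m2 n2).2 (hg1 e3 m3 n3).2 hx (hg1 e1 m1 n1).1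
      (hg1 e2 m2 n2).1 (hg1 e3 m3 n3).1 a12 a13 a23
  have H : OP (fun a b c => inner ℝ (g (w a b c)) (g e1)) (fun a b c => inner ℝ (g (w a b c)) (g e2))
      (fun a b c => inner ℝ (g (w a b c)) (g e3)) :=
    { ne := by
        rintro a b c h ⟨h1, h2, h3⟩
        have h4 := hg1 _ (hwm a b c) (hw a b c h)
        have h5 := exp _ h4.2
        rw [h1, h2, h3] at h5
        simp only [zero_smul, add_zero] at h5
        rw [h5, norm_zero] at h4
        exact zero_ne_one h4.1
      orth := by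
        intro a b c a' b' c' h h' ho
        have h1 : inner ℝ (w a b c) (w a' b' c') = (0 : ℝ) := by
          simp only [w, inner_smul_left, inner_smul_right, hv, ho, mul_zero]
        have h2 := hg2 _ (hwm a b c) _ (hwm a' b' c') (hw a b c h) (hw a' b' c' h') h1
        have h4 := exp _ (hg1 _ (hwm a' b' c') (hw a' b' c' h')).2
        rw [h4] at h2
        simp only [inner_add_right, inner_smul_right] at h2
        linear_combination h2
      e1 := by simp only [w1, a12, a13, and_self]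
      e2 := by simp only [w2, a21, a23, and_self]
      e3 := by simp only [w3, a31, a32, and_self] }
  have hne2 : α ≠ 0 ∨ β ≠ 0 := by
    by_contra h
    push Not at h
    rw [h.1, h.2] at hαβ
    norm_num at hαβ
  have S := H.slope_gen hne2
  have hwv : w α β 0 = α • e1 + β • e2 := by
    rw [hwu _ _ _ (by linear_combination hαβ)]; simp [v]
  have Z : inner ℝ (g (w α β 0)) (g e3) = (0 : ℝ) := H.z3 hne2
  rw [hwv] at S Z
  have hn : ‖α • e1 + β • e2‖ = 1 := by rw [← hwv]; exact hw α β 0 (by tauto)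
  have hm : α • e1 + β • e2 ∈ Submodule.span ℝ {e1, e2, e3} := by rw [← hwv]; exact hwm _ _ _
  have h4 := hg1 _ hm hn
  have h5 := exp _ h4.2
  have h6 : (inner ℝ (g (α • e1 + β • e2)) (g (α • e1 + β • e2)) : ℝ) = 1 := by
    rw [real_inner_self_eq_norm_sq, h4.1]; norm_num
  generalize g (α • e1 + β • e2) = Y at *
  have h5' := congrArg (fun z => (inner ℝ Y z : ℝ)) h5
  simp only [inner_add_right, inner_smul_right, Z, h6] at h5'
  linear_combination (-(inner ℝ Y (g e1) : ℝ) ^ 2) * hαβ - S - α ^ 2 * h5'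

end inner

end Pool.Agent.Helper855.Bq
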