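import Pool.Agent.Helper855.BqCross

/-!
Maps that satisfy the dichotomy on an arc of a circle of radius larger than `1/√2`.
-/

set_option autoImplicit false

namespace Pool.Agent.Helper855.Bq

open Module

variable {E V : Type*} [NormedAddCommGroup E] [InnerProductSpace ℝ E]
  [NormedAddCommGroup V] [InnerProductSpace ℝ V]

/-- A bounded sequence in a finite-dimensional space is not separated. -/
lemma not_separated [FiniteDimensional ℝ V] (y : V) (a : ℕ → V) (hb : ∀ n, ‖a n - y‖ ≤ 1)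
    (hs : ∀ n m, n ≠ m → 1 < ‖a n - a m‖) : False := by
  have : ProperSpace V := FiniteDimensional.proper ℝ V
  obtain ⟨l, -, φ, hφ, hl⟩ := tendsto_subseq_of_bounded (Metric.isBounded_closedBall (x := y) (r := 1))
    (x := a) (fun n => by rw [Metric.mem_closedBall, dist_eq_norm]; exact hb n)
  have hc := hl.cauchySeq
  rw [Metric.cauchySeq_iff'] at hc
  obtain ⟨N, hN⟩ := hc 1 one_pos
  have h1 := hN (N + 1) (Nat.le_succ N)
  rw [dist_eq_norm] at h1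
  have h2 := hs (φ (N + 1)) (φ N) (hφ.injective.ne (Nat.succ_ne_self N))
  exact absurd h1 (not_lt.mpr h2.le)

omit [InnerProductSpace ℝ E] in
/-- The class argument. -/
theorem classes [FiniteDimensional ℝ V] {I : Type*} [Infinite I] (X : I → E) (g : I → V)
    (ha : ∀ i j, ‖X i - X j‖ ≤ 1 / 2)
    (hb : ∀ i j, ‖g i - g j‖ ^ 2 = ‖X i - X j‖ ^ 2 ∨ ‖g i - g j‖ ^ 2 = 2 - ‖X i - X j‖ ^ 2)
    (y : V) (hc : ∀ i, ‖g i - y‖ ≤ 1)
    (hd : ∀ i j k l, i ≠ j → i ≠ k → j ≠ k → ‖g i - g j‖ = ‖X i - X j‖ →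
      ‖g i - g k‖ = ‖X i - X k‖ → ‖g j - g k‖ = ‖X j - X k‖ →
      ‖g i - g l‖ ^ 2 = 2 - ‖X i - X l‖ ^ 2 → ‖g j - g l‖ ^ 2 = 2 - ‖X j - X l‖ ^ 2 →
      ‖g k - g l‖ ^ 2 = 2 - ‖X k - X l‖ ^ 2 → False) :
    ∀ i j, ‖g i - g j‖ = ‖X i - X j‖ := by
  have hsq : ∀ i j, ‖X i - X j‖ ^ 2 ≤ 1 / 4 := by
    intro i j
    have := pow_le_pow_left₀ (norm_nonneg _) (ha i j) 2
    norm_num at this ⊢; exact this
  have flip : ∀ i j, ‖g i - g j‖ ≠ ‖X i - X j‖ → ‖g i - g j‖ ^ 2 = 2 - ‖X i - X j‖ ^ 2 := by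
    intro i j h
    rcases hb i j with h1 | h1
    · exact absurd ((sq_eq_sq₀ (norm_nonneg _) (norm_nonneg _)).mp h1) h
    · exact h1
  have big : ∀ i j, ‖g i - g j‖ ≠ ‖X i - X j‖ → 1 < ‖g i - g j‖ := by
    intro i j h
    have h1 := flip i j h
    have h2 := hsq i j
    by_contra h3
    push Not at h3
    have := pow_le_pow_left₀ (norm_nonneg _) h3 2
    linarith
  have rsymm : ∀ i j, ‖g i - g j‖ = ‖X i - X j‖ → ‖g j - g i‖ = ‖X j - X i‖ := by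
    intro i j h
    rw [norm_sub_rev (g j), norm_sub_rev (X j)]; exact h
  have rtrans : ∀ i j k, ‖g i - g j‖ = ‖X i - X j‖ → ‖g j - g k‖ = ‖X j - X k‖ →
      ‖g i - g k‖ = ‖X i - X k‖ := by
    intro i j k h1 h2
    by_contra h
    have h3 := big i k h
    have h4 : g i - g k = (g i - g j) + (g j - g k) := by abel
    have h5 := norm_add_le (g i - g j) (g j - g k)
    rw [← h4, h1, h2] at h5
    have := ha i j
    have := ha j k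
    linarith
  let S : Setoid I :=
    { r := fun i j => ‖g i - g j‖ = ‖X i - X j‖
      iseqv := ⟨fun i => by simp, fun {i j} h => rsymm i j h, fun {i j k} h h' => rtrans i j k h h'⟩ }
  have hfin : Finite (Quotient S) := by
    by_contra hinf
    rw [not_finite_iff_infinite] at hinf
    let φ := Infinite.natEmbedding (Quotient S)
    refine not_separated y (fun n => g (φ n).out) (fun n => hc _) ?_
    intro n m hnm
    apply big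
    intro h
    apply hnm
    apply φ.injective
    have h1 : (φ n) = ⟦(φ n).out⟧ := (Quotient.out_eq _).symm
    have h2 : (φ m) = ⟦(φ m).out⟧ := (Quotient.out_eq _).symm
    rw [h1, h2]
    exact Quotient.sound h
  obtain ⟨C, hC⟩ := Finite.exists_infinite_fiber (fun i : I => (⟦i⟧ : Quotient S))
  let ψ := Infinite.natEmbedding ((fun i : I => (⟦i⟧ : Quotient S)) ⁻¹' {C})
  have rel : ∀ n m, ‖g (ψ n).1 - g (ψ m).1‖ = ‖X (ψ n).1 - X (ψ m).1‖ := by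
    intro n m
    have h1 : (⟦(ψ n).1⟧ : Quotient S) = C := (ψ n).2
    have h2 : (⟦(ψ m).1⟧ : Quotient S) = C := (ψ m).2
    exact Quotient.exact (h1.trans h2.symm)
  have dis : ∀ n m, n ≠ m → (ψ n).1 ≠ (ψ m).1 := by
    intro n m h h'
    exact h (ψ.injective (Subtype.ext h'))
  have all : ∀ l, ‖g (ψ 0).1 - g l‖ = ‖X (ψ 0).1 - X l‖ := by
    intro l
    by_contra h
    have h1 : ‖g (ψ 1).1 - g l‖ ≠ ‖X (ψ 1).1 - X l‖ := fun h' =>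
      h (rtrans _ _ _ (rel 0 1) h')
    have h2 : ‖g (ψ 2).1 - g l‖ ≠ ‖X (ψ 2).1 - X l‖ := fun h' =>
      h (rtrans _ _ _ (rel 0 2) h')
    exact hd (ψ 0).1 (ψ 1).1 (ψ 2).1 l (dis 0 1 (by decide)) (dis 0 2 (by decide))
      (dis 1 2 (by decide)) (rel 0 1) (rel 0 2) (rel 1 2) (flip _ _ h) (flip _ _ h1) (flip _ _ h2)
  intro i j
  exact rtrans _ _ _ (rsymm _ _ (all i)) (all j)

/-- Three distinct points of the unit circle are not collinear. -/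
lemma det_ne {c1 s1 c2 s2 c3 s3 : ℝ} (h1 : c1 ^ 2 + s1 ^ 2 = 1) (h2 : c2 ^ 2 + s2 ^ 2 = 1)
    (h3 : c3 ^ 2 + s3 ^ 2 = 1) (h12 : ¬ (c1 = c2 ∧ s1 = s2)) (h13 : ¬ (c1 = c3 ∧ s1 = s3))
    (h23 : ¬ (c2 = c3 ∧ s2 = s3)) : (c2 - c1) * (s3 - s1) - (c3 - c1) * (s2 - s1) ≠ 0 := by
  intro hD
  set a := c2 - c1 with ha
  set b := s2 - s1 with hb
  set a' := c3 - c1 with ha'
  set b' := s3 - s1 with hb'
  have hn : a ^ 2 + b ^ 2 ≠ 0 := by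
    intro h
    have e1 : a = 0 := by nlinarith [sq_nonneg a, sq_nonneg b]
    have e2 : b = 0 := by nlinarith [sq_nonneg a, sq_nonneg b]
    exact h12 ⟨by linarith, by linarith⟩
  obtain ⟨μ, hμ⟩ : ∃ μ : ℝ, μ * (a ^ 2 + b ^ 2) = a * a' + b * b' :=
    ⟨(a * a' + b * b') / (a ^ 2 + b ^ 2), div_mul_cancel₀ _ hn⟩
  have e1 : a' = μ * a := by
    apply mul_left_cancel₀ hn
    linear_combination (-b) * hD - a * hμ
  have e2 : b' = μ * b := by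
    apply mul_left_cancel₀ hn
    linear_combination a * hD - b * hμ
  have k1 : 2 * (c1 * a + s1 * b) + (a ^ 2 + b ^ 2) = 0 := by
    rw [ha, hb]; linear_combination h2 - h1
  have k2 : 2 * (c1 * a' + s1 * b') + (a' ^ 2 + b' ^ 2) = 0 := by
    rw [ha', hb']; linear_combination h3 - h1
  rw [e1, e2] at k2
  have k3 : (a ^ 2 + b ^ 2) * (μ * (μ - 1)) = 0 := by linear_combination k2 - μ * k1
  rcases mul_eq_zero.mp ((mul_eq_zero.mp k3).resolve_left hn) with h | h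
  · rw [h, zero_mul] at e1 e2
    exact h13 ⟨by linarith, by linarith⟩
  · have : μ = 1 := by linarith
    rw [this, one_mul] at e1 e2
    exact h23 ⟨by linarith, by linarith⟩

/-- Affine coordinates with respect to three distinct points of the unit circle. -/
lemma exists_coord {c1 s1 c2 s2 c3 s3 : ℝ} (h1 : c1 ^ 2 + s1 ^ 2 = 1) (h2 : c2 ^ 2 + s2 ^ 2 = 1)
    (h3 : c3 ^ 2 + s3 ^ 2 = 1) (h12 : ¬ (c1 = c2 ∧ s1 = s2)) (h13 : ¬ (c1 = c3 ∧ s1 = s3))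
    (h23 : ¬ (c2 = c3 ∧ s2 = s3)) (c s : ℝ) :
    ∃ l1 l2 l3 : ℝ, l1 + l2 + l3 = 1 ∧ l1 * c1 + l2 * c2 + l3 * c3 = c ∧
      l1 * s1 + l2 * s2 + l3 * s3 = s := by
  have hD := det_ne h1 h2 h3 h12 h13 h23
  obtain ⟨D, hD'⟩ : ∃ D : ℝ, D = (c2 - c1) * (s3 - s1) - (c3 - c1) * (s2 - s1) := ⟨_, rfl⟩
  rw [← hD'] at hD
  obtain ⟨l2, hl2⟩ : ∃ l : ℝ, l * D = (c - c1) * (s3 - s1) - (c3 - c1) * (s - s1) :=
    ⟨_, div_mul_cancel₀ _ hD⟩
  obtain ⟨l3, hl3⟩ : ∃ l : ℝ, l * D = (c2 - c1) * (s - s1) - (c - c1) * (s2 - s1) :=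
    ⟨_, div_mul_cancel₀ _ hD⟩
  refine ⟨1 - l2 - l3, l2, l3, by ring, ?_, ?_⟩
  · apply mul_left_cancel₀ hD
    linear_combination (c2 - c1) * hl2 + (c3 - c1) * hl3 - (c - c1) * hD'
  · apply mul_left_cancel₀ hD
    linear_combination (s2 - s1) * hl2 + (s3 - s1) * hl3 - (s - s1) * hD'

/-- The norm of a combination of three vectors. -/
lemma norm_comb (A1 A2 A3 : V) (l1 l2 l3 : ℝ) :
    ‖l1 • A1 + l2 • A2 + l3 • A3‖ ^ 2 = l1 ^ 2 * ‖A1‖ ^ 2 + l2 ^ 2 * ‖A2‖ ^ 2 + l3 ^ 2 * ‖A3‖ ^ 2 +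
      2 * l1 * l2 * inner ℝ A1 A2 + 2 * l1 * l3 * inner ℝ A1 A3 + 2 * l2 * l3 * inner ℝ A2 A3 := by
  rw [← real_inner_self_eq_norm_sq]
  simp only [inner_add_left, inner_add_right, inner_smul_left, inner_smul_right, conj_trivial,
    real_inner_self_eq_norm_sq, real_inner_comm A1 A2, real_inner_comm A1 A3, real_inner_comm A2 A3]
  ring

/-- The contradiction for a point of a circle of radius larger than `1/√2` outside a class. -/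
theorem circle_contra {R c1 s1 c2 s2 c3 s3 c s : ℝ} (hR : 1 / 2 < R ^ 2)
    (h1 : c1 ^ 2 + s1 ^ 2 = 1) (h2 : c2 ^ 2 + s2 ^ 2 = 1)
    (h3 : c3 ^ 2 + s3 ^ 2 = 1) (h : c ^ 2 + s ^ 2 = 1)
    (h12 : ¬ (c1 = c2 ∧ s1 = s2)) (h13 : ¬ (c1 = c3 ∧ s1 = s3))
    (h23 : ¬ (c2 = c3 ∧ s2 = s3)) {y1 y2 y3 y : V}
    (d12 : ‖y1 - y2‖ ^ 2 = R ^ 2 * (2 - 2 * c1 * c2 - 2 * s1 * s2))
    (d13 : ‖y1 - y3‖ ^ 2 = R ^ 2 * (2 - 2 * c1 * c3 - 2 * s1 * s3))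
    (d23 : ‖y2 - y3‖ ^ 2 = R ^ 2 * (2 - 2 * c2 * c3 - 2 * s2 * s3))
    (d1 : ‖y1 - y‖ ^ 2 = 2 - R ^ 2 * (2 - 2 * c1 * c - 2 * s1 * s))
    (d2 : ‖y2 - y‖ ^ 2 = 2 - R ^ 2 * (2 - 2 * c2 * c - 2 * s2 * s))
    (d3 : ‖y3 - y‖ ^ 2 = 2 - R ^ 2 * (2 - 2 * c3 * c - 2 * s3 * s)) : False := by
  obtain ⟨l1, l2, l3, L, C, S⟩ := exists_coord h1 h2 h3 h12 h13 h23 (-c) (-s)
  have n := norm_comb (y1 - y) (y2 - y) (y3 - y) l1 l2 l3
  have e12 := norm_sub_sq_real (y1 - y) (y2 - y)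
  have e13 := norm_sub_sq_real (y1 - y) (y3 - y)
  have e23 := norm_sub_sq_real (y2 - y) (y3 - y)
  rw [sub_sub_sub_cancel_right] at e12 e13 e23
  have i12 : inner ℝ (y1 - y) (y2 - y) = (‖y1 - y‖ ^ 2 + ‖y2 - y‖ ^ 2 - ‖y1 - y2‖ ^ 2) / 2 := by
    linarith
  have i13 : inner ℝ (y1 - y) (y3 - y) = (‖y1 - y‖ ^ 2 + ‖y3 - y‖ ^ 2 - ‖y1 - y3‖ ^ 2) / 2 := by
    linarith
  have i23 : inner ℝ (y2 - y) (y3 - y) = (‖y2 - y‖ ^ 2 + ‖y3 - y‖ ^ 2 - ‖y2 - y3‖ ^ 2) / 2 := by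
    linarith
  rw [i12, i13, i23, d1, d2, d3, d12, d13, d23] at n
  have key : ‖l1 • (y1 - y) + l2 • (y2 - y) + l3 • (y3 - y)‖ ^ 2 =
      (2 - 3 * R ^ 2) * (l1 + l2 + l3) ^ 2 + 2 * R ^ 2 * (l1 + l2 + l3) *
        (c * (l1 * c1 + l2 * c2 + l3 * c3) + s * (l1 * s1 + l2 * s2 + l3 * s3)) +
        R ^ 2 * ((l1 * c1 + l2 * c2 + l3 * c3) ^ 2 + (l1 * s1 + l2 * s2 + l3 * s3) ^ 2) := by
    rw [n]
    linear_combination (-(R ^ 2 * l1 ^ 2)) * h1 - (R ^ 2 * l2 ^ 2) * h2 - (R ^ 2 * l3 ^ 2) * h3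
  rw [L, C, S] at key
  have pos := sq_nonneg ‖l1 • (y1 - y) + l2 • (y2 - y) + l3 • (y3 - y)‖
  rw [key] at pos
  have : (2 - 3 * R ^ 2) * 1 ^ 2 + 2 * R ^ 2 * 1 * (c * -c + s * -s) +
      R ^ 2 * ((-c) ^ 2 + (-s) ^ 2) = 2 - 4 * R ^ 2 := by
    linear_combination (-(R ^ 2)) * h
  rw [this] at pos
  linarith

end Pool.Agent.Helper855.Bq
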