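import Pool.Agent.Helper855.BqFam

/-!
Four orthogonal three-dimensional blocks on a sphere of radius `1/√2`.
-/

set_option autoImplicit false

namespace Pool.Agent.Helper855.Bq

open Module

section one

variable {E V : Type*} [NormedAddCommGroup E] [InnerProductSpace ℝ E]
  [NormedAddCommGroup V] [InnerProductSpace ℝ V]

/-- The set of images of the unit vectors of a block. -/
def img (F : E → V) (e1 e2 e3 : E) : Set V :=
  {x | ∃ u ∈ Submodule.span ℝ {e1, e2, e3}, ‖u‖ = 1 ∧ x = F u}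

/-- A map whose values lie on a sphere of radius `1/√2` in a space of dimension at most three. -/
theorem block_angle {F : E → V} {e1 e2 e3 : E} (n1 : ‖e1‖ = 1) (n2 : ‖e2‖ = 1) (n3 : ‖e3‖ = 1)
    (h12 : inner ℝ e1 e2 = (0 : ℝ)) (h13 : inner ℝ e1 e3 = (0 : ℝ))
    (h23 : inner ℝ e2 e3 = (0 : ℝ)) (L : Submodule ℝ V) [FiniteDimensional ℝ L]
    (hL : finrank ℝ L ≤ 3) {c : V}
    (hc : ∀ u ∈ Submodule.span ℝ {e1, e2, e3}, ‖u‖ = 1 → F u - c ∈ L ∧ ‖F u - c‖ ^ 2 = 1 / 2)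
    (hF : ∀ u ∈ Submodule.span ℝ {e1, e2, e3}, ∀ v ∈ Submodule.span ℝ {e1, e2, e3},
      ‖u‖ = 1 → ‖v‖ = 1 → inner ℝ u v = (0 : ℝ) → ‖F u - F v‖ = 1)
    {α β : ℝ} (hαβ : α ^ 2 + β ^ 2 = 1) :
    (2 * inner ℝ (F (α • e1 + β • e2) - c) (F e1 - c) : ℝ) ^ 2 = α ^ 2 := by
  have hs : Real.sqrt 2 * Real.sqrt 2 = 2 := Real.mul_self_sqrt (by norm_num)
  have key := angle_sq L hL (fun u => Real.sqrt 2 • (F u - c)) n1 n2 n3 h12 h13 h23
    (by
      intro u hu hu1
      obtain ⟨h1, h2⟩ := hc u hu hu1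
      refine ⟨?_, L.smul_mem _ h1⟩
      have h3 : ‖Real.sqrt 2 • (F u - c)‖ ^ 2 = 1 := by
        rw [norm_smul, mul_pow, h2, Real.norm_eq_abs, sq_abs, sq, hs]; norm_num
      exact (pow_eq_one_iff_of_nonneg (norm_nonneg _) two_ne_zero).mp h3)
    (by
      intro u hu v hv hu1 hv1 ho
      have h1 := hF u hu v hv hu1 hv1 ho
      have h2 := norm_sub_sq_real (F u - c) (F v - c)
      have e : F u - c - (F v - c) = F u - F v := by abel
      rw [e, h1, (hc u hu hu1).2, (hc v hv hv1).2] at h2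
      have h3 : inner ℝ (F u - c) (F v - c) = (0 : ℝ) := by linarith
      simp only [inner_smul_left, inner_smul_right, h3, mul_zero])
    hαβ
  simp only [inner_smul_left, inner_smul_right, conj_trivial] at key
  rw [← key]
  have : ∀ t : ℝ, Real.sqrt 2 * (Real.sqrt 2 * t) = 2 * t := by
    intro t; rw [← mul_assoc, hs]
  rw [this]

/-- The dichotomy for distances in a good block. -/
theorem block_dist {F : E → V} {e1 e2 e3 : E} (n1 : ‖e1‖ = 1) (n2 : ‖e2‖ = 1) (n3 : ‖e3‖ = 1)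
    (h12 : inner ℝ e1 e2 = (0 : ℝ)) (h13 : inner ℝ e1 e3 = (0 : ℝ))
    (h23 : inner ℝ e2 e3 = (0 : ℝ)) (L : Submodule ℝ V) [FiniteDimensional ℝ L]
    (hL : finrank ℝ L ≤ 3) {c : V}
    (hc : ∀ u ∈ Submodule.span ℝ {e1, e2, e3}, ‖u‖ = 1 → F u - c ∈ L ∧ ‖F u - c‖ ^ 2 = 1 / 2)
    (hF : ∀ u ∈ Submodule.span ℝ {e1, e2, e3}, ∀ v ∈ Submodule.span ℝ {e1, e2, e3},
      ‖u‖ = 1 → ‖v‖ = 1 → inner ℝ u v = (0 : ℝ) → ‖F u - F v‖ = 1)
    {α β : ℝ} (hαβ : α ^ 2 + β ^ 2 = 1) :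
    ‖F (α • e1 + β • e2) - F e1‖ ^ 2 = 1 - α ∨ ‖F (α • e1 + β • e2) - F e1‖ ^ 2 = 1 + α := by
  have m1 : e1 ∈ Submodule.span ℝ {e1, e2, e3} := Submodule.subset_span (by simp)
  have m2 : e2 ∈ Submodule.span ℝ {e1, e2, e3} := Submodule.subset_span (by simp)
  have hm : α • e1 + β • e2 ∈ Submodule.span ℝ {e1, e2, e3} :=
    Submodule.add_mem _ (Submodule.smul_mem _ _ m1) (Submodule.smul_mem _ _ m2)
  have hn : ‖α • e1 + β • e2‖ = 1 := by
    have : ‖α • e1 + β • e2‖ ^ 2 = 1 := by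
      rw [norm_add_sq_real, norm_smul, norm_smul, n1, n2, inner_smul_left, inner_smul_right, h12]
      simp [hαβ]
    exact (pow_eq_one_iff_of_nonneg (norm_nonneg _) two_ne_zero).mp this
  have h1 := block_angle n1 n2 n3 h12 h13 h23 L hL hc hF hαβ
  have h2 := norm_sub_sq_real (F (α • e1 + β • e2) - c) (F e1 - c)
  have e : F (α • e1 + β • e2) - c - (F e1 - c) = F (α • e1 + β • e2) - F e1 := by abel
  rw [e, (hc _ hm hn).2, (hc _ m1 n1).2] at h2
  rcases sq_eq_sq_iff_eq_or_eq_neg.mp h1 with h | h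
  · left; rw [h2]; linarith
  · right; rw [h2]; linarith

/-- The image of a block has dimension at least three. -/
theorem three_le [FiniteDimensional ℝ V] {F : E → V} {e1 e2 e3 : E}
    (n1 : ‖e1‖ = 1) (n2 : ‖e2‖ = 1) (n3 : ‖e3‖ = 1)
    (h12 : inner ℝ e1 e2 = (0 : ℝ)) (h13 : inner ℝ e1 e3 = (0 : ℝ))
    (h23 : inner ℝ e2 e3 = (0 : ℝ))
    (hF : ∀ u ∈ Submodule.span ℝ {e1, e2, e3}, ∀ v ∈ Submodule.span ℝ {e1, e2, e3},
      ‖u‖ = 1 → ‖v‖ = 1 → inner ℝ u v = (0 : ℝ) → ‖F u - F v‖ = 1)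
    {c y : V} (hc : ∀ x ∈ img F e1 e2 e3, x - c ∈ dir (img F e1 e2 e3)) {r : ℝ}
    (hr : ∀ x ∈ img F e1 e2 e3, ‖x - c‖ ^ 2 = r)
    (hy : ∀ z ∈ dir (img F e1 e2 e3), inner ℝ z (y - c) = (0 : ℝ)) (hry : r + ‖y - c‖ ^ 2 = 1) :
    3 ≤ finrank ℝ (dir (img F e1 e2 e3)) := by
  by_contra hlt
  have hL2 : finrank ℝ (dir (img F e1 e2 e3)) ≤ 2 := by omega
  have m1 : e1 ∈ Submodule.span ℝ {e1, e2, e3} := Submodule.subset_span (by simp)
  have m2 : e2 ∈ Submodule.span ℝ {e1, e2, e3} := Submodule.subset_span (by simp)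
  have m3 : e3 ∈ Submodule.span ℝ {e1, e2, e3} := Submodule.subset_span (by simp)
  have i1 : F e1 ∈ img F e1 e2 e3 := ⟨e1, m1, n1, rfl⟩
  have i2 : F e2 ∈ img F e1 e2 e3 := ⟨e2, m2, n2, rfl⟩
  have i3 : F e3 ∈ img F e1 e2 e3 := ⟨e3, m3, n3, rfl⟩
  -- the radius
  have hr3 : r = 1 / 3 := by
    have a1 := hc _ i1
    have a2 := hc _ i2
    have a3 := hc _ i3
    have d12 := norm_sub_sq_real (F e1 - c) (F e2 - c)
    have d13 := norm_sub_sq_real (F e1 - c) (F e3 - c)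
    have d23 := norm_sub_sq_real (F e2 - c) (F e3 - c)
    rw [sub_sub_sub_cancel_right, hF _ m1 _ m2 n1 n2 h12, hr _ i1, hr _ i2] at d12
    rw [sub_sub_sub_cancel_right, hF _ m1 _ m3 n1 n3 h13, hr _ i1, hr _ i3] at d13
    rw [sub_sub_sub_cancel_right, hF _ m2 _ m3 n2 n3 h23, hr _ i2, hr _ i3] at d23
    have q1 : inner ℝ (F e1 - c) (F e1 - c) = r := by rw [real_inner_self_eq_norm_sq, hr _ i1]
    have q2 : inner ℝ (F e2 - c) (F e2 - c) = r := by rw [real_inner_self_eq_norm_sq, hr _ i2]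
    have q3 : inner ℝ (F e3 - c) (F e3 - c) = r := by rw [real_inner_self_eq_norm_sq, hr _ i3]
    have s12 := real_inner_comm (F e1 - c) (F e2 - c)
    have s13 := real_inner_comm (F e1 - c) (F e3 - c)
    have s23 := real_inner_comm (F e2 - c) (F e3 - c)
    generalize F e1 - c = b1 at *
    generalize F e2 - c = b2 at *
    generalize F e3 - c = b3 at *
    by_contra hne
    have z1 : b1 - b2 ≠ 0 := by
      intro h0
      have : inner ℝ (b1 - b2) (b1 - b2) = (0 : ℝ) := by rw [h0, inner_zero_left]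
      simp only [inner_sub_left, inner_sub_right] at this
      linarith
    have z2 : b1 + b2 - (2 : ℝ) • b3 ≠ 0 := by
      intro h0
      have : inner ℝ (b1 + b2 - (2 : ℝ) • b3) (b1 + b2 - (2 : ℝ) • b3) = (0 : ℝ) := by
        rw [h0, inner_zero_left]
      simp only [inner_sub_left, inner_sub_right, inner_add_left, inner_add_right,
        inner_smul_left, inner_smul_right, conj_trivial] at this
      linarith
    have z3 : b1 + b2 + b3 ≠ 0 := by
      intro h0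
      have : inner ℝ (b1 + b2 + b3) (b1 + b2 + b3) = (0 : ℝ) := by rw [h0, inner_zero_left]
      simp only [inner_add_left, inner_add_right] at this
      apply hne
      linarith
    have o12 : inner ℝ (b1 - b2) (b1 + b2 - (2 : ℝ) • b3) = (0 : ℝ) := by
      simp only [inner_sub_left, inner_sub_right, inner_add_left, inner_add_right,
        inner_smul_left, inner_smul_right, conj_trivial]
      linarith
    have o13 : inner ℝ (b1 - b2) (b1 + b2 + b3) = (0 : ℝ) := by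
      simp only [inner_sub_left, inner_add_right]
      linarith
    have o23 : inner ℝ (b1 + b2 - (2 : ℝ) • b3) (b1 + b2 + b3) = (0 : ℝ) := by
      simp only [inner_sub_left, inner_sub_right, inner_add_left, inner_add_right,
        inner_smul_left, inner_smul_right, conj_trivial]
      linarith
    have o21 : inner ℝ (b1 + b2 - (2 : ℝ) • b3) (b1 - b2) = (0 : ℝ) := by
      rw [real_inner_comm]; exact o12
    have o31 : inner ℝ (b1 + b2 + b3) (b1 - b2) = (0 : ℝ) := by rw [real_inner_comm]; exact o13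
    have o32 : inner ℝ (b1 + b2 + b3) (b1 + b2 - (2 : ℝ) • b3) = (0 : ℝ) := by
      rw [real_inner_comm]; exact o23
    have := card_le_finrank (dir (img F e1 e2 e3)) ![b1 - b2, b1 + b2 - (2 : ℝ) • b3, b1 + b2 + b3]
      (by
        intro i
        fin_cases i
        · exact Submodule.sub_mem _ a1 a2
        · exact Submodule.sub_mem _ (Submodule.add_mem _ a1 a2) (Submodule.smul_mem _ _ a3)
        · exact Submodule.add_mem _ (Submodule.add_mem _ a1 a2) a3)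
      (by intro i; fin_cases i; exacts [z1, z2, z3])
      (by
        intro i j hij
        fin_cases i <;> fin_cases j
        · exact absurd rfl hij
        · exact o12
        · exact o13
        · exact o21
        · exact absurd rfl hij
        · exact o23
        · exact o31
        · exact o32
        · exact absurd rfl hij)
    omega
  subst hr3
  set w := y - c with hw
  have hw2 : ‖w‖ ^ 2 = 2 / 3 := by linarith
  have hww : inner ℝ w w = (2 / 3 : ℝ) := by rw [real_inner_self_eq_norm_sq, hw2]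
  -- the apex
  let L' : Submodule ℝ V := dir (img F e1 e2 e3) ⊔ Submodule.span ℝ {w}
  have hL' : finrank ℝ L' ≤ 3 := by
    have h1 := Submodule.finrank_add_le_finrank_add_finrank (dir (img F e1 e2 e3))
      (Submodule.span ℝ {w})
    have h2 := finrank_span_le_card (R := ℝ) ({w} : Set V)
    have h3 : (Set.toFinset {w}).card = 1 := by simp
    rw [h3] at h2
    change finrank ℝ ((dir (img F e1 e2 e3)) ⊔ (Submodule.span ℝ {w}) : Submodule ℝ V) ≤ 3
    omega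
  have hperm : ∀ {x : E}, x ∈ Submodule.span ℝ {e2, e1, e3} → x ∈ Submodule.span ℝ {e1, e2, e3} := by
    intro x hx
    rwa [Set.insert_comm] at hx
  have hcc : ∀ u ∈ Submodule.span ℝ {e1, e2, e3}, ‖u‖ = 1 →
      F u - (c + (1 / 2 : ℝ) • w) ∈ L' ∧ ‖F u - (c + (1 / 2 : ℝ) • w)‖ ^ 2 = 1 / 2 ∧
      inner ℝ (F u - (c + (1 / 2 : ℝ) • w)) w = (-(1 / 3) : ℝ) := by
    intro u hu hu1
    have hi : F u ∈ img F e1 e2 e3 := ⟨u, hu, hu1, rfl⟩
    have e : F u - (c + (1 / 2 : ℝ) • w) = (F u - c) - (1 / 2 : ℝ) • w := by abel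
    have h1 := hy _ (hc _ hi)
    refine ⟨?_, ?_, ?_⟩
    · rw [e]
      exact Submodule.sub_mem _ (Submodule.mem_sup_left (hc _ hi))
        (Submodule.smul_mem _ _ (Submodule.mem_sup_right (Submodule.mem_span_singleton_self w)))
    · rw [e, norm_sub_sq_real, inner_smul_right, h1, hr _ hi, norm_smul, mul_pow, hw2]
      norm_num
    · rw [e, inner_sub_left, inner_smul_left, h1, hww]
      norm_num
  have hαβ : (3 / 5 : ℝ) ^ 2 + (4 / 5 : ℝ) ^ 2 = 1 := by norm_num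
  have hβα : (4 / 5 : ℝ) ^ 2 + (3 / 5 : ℝ) ^ 2 = 1 := by norm_num
  have k1 := block_angle n1 n2 n3 h12 h13 h23 L' hL' (c := c + (1 / 2 : ℝ) • w)
    (fun u hu hu1 => ⟨(hcc u hu hu1).1, (hcc u hu hu1).2.1⟩) hF hαβ
  have k2 := block_angle n2 n1 n3 (by rw [real_inner_comm]; exact h12) h23 h13 L' hL'
    (c := c + (1 / 2 : ℝ) • w)
    (fun u hu hu1 => ⟨(hcc u (hperm hu) hu1).1, (hcc u (hperm hu) hu1).2.1⟩)
    (fun u hu v hv => hF u (hperm hu) v (hperm hv)) hβα
  rw [add_comm ((4 / 5 : ℝ) • e2)] at k2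
  have hm : (3 / 5 : ℝ) • e1 + (4 / 5 : ℝ) • e2 ∈ Submodule.span ℝ {e1, e2, e3} :=
    Submodule.add_mem _ (Submodule.smul_mem _ _ m1) (Submodule.smul_mem _ _ m2)
  have hn : ‖(3 / 5 : ℝ) • e1 + (4 / 5 : ℝ) • e2‖ = 1 := by
    have : ‖(3 / 5 : ℝ) • e1 + (4 / 5 : ℝ) • e2‖ ^ 2 = 1 := by
      rw [norm_add_sq_real, norm_smul, norm_smul, n1, n2, inner_smul_left, inner_smul_right, h12]
      norm_num
    exact (pow_eq_one_iff_of_nonneg (norm_nonneg _) two_ne_zero).mp this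
  have ho : inner ℝ ((3 / 5 : ℝ) • e1 + (4 / 5 : ℝ) • e2) e3 = (0 : ℝ) := by
    rw [inner_add_left, inner_smul_left, inner_smul_left, h13, h23]; simp
  have dist0 : ∀ u ∈ Submodule.span ℝ {e1, e2, e3}, ∀ v ∈ Submodule.span ℝ {e1, e2, e3},
      ‖u‖ = 1 → ‖v‖ = 1 → inner ℝ u v = (0 : ℝ) →
      inner ℝ (F u - (c + (1 / 2 : ℝ) • w)) (F v - (c + (1 / 2 : ℝ) • w)) = (0 : ℝ) := by
    intro u hu v hv hu1 hv1 huv
    have d := norm_sub_sq_real (F u - (c + (1 / 2 : ℝ) • w)) (F v - (c + (1 / 2 : ℝ) • w))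
    rw [sub_sub_sub_cancel_right, hF u hu v hv hu1 hv1 huv, (hcc u hu hu1).2.1,
      (hcc v hv hv1).2.1] at d
    linarith
  have x1 := hcc _ m1 n1
  have x2 := hcc _ m2 n2
  have x3 := hcc _ m3 n3
  have x0 := hcc _ hm hn
  have y12 := dist0 _ m1 _ m2 n1 n2 h12
  have y13 := dist0 _ m1 _ m3 n1 n3 h13
  have y23 := dist0 _ m2 _ m3 n2 n3 h23
  have y03 := dist0 _ hm _ m3 hn n3 ho
  generalize F ((3 / 5 : ℝ) • e1 + (4 / 5 : ℝ) • e2) - (c + (1 / 2 : ℝ) • w) = g0 at *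
  generalize F e1 - (c + (1 / 2 : ℝ) • w) = g1 at *
  generalize F e2 - (c + (1 / 2 : ℝ) • w) = g2 at *
  generalize F e3 - (c + (1 / 2 : ℝ) • w) = g3 at *
  -- expansion of `g0`
  have hs : Real.sqrt 2 * Real.sqrt 2 = 2 := Real.mul_self_sqrt (by norm_num)
  have unit : ∀ g : V, ‖g‖ ^ 2 = 1 / 2 → ‖Real.sqrt 2 • g‖ = 1 := by
    intro g hg
    have h3 : ‖Real.sqrt 2 • g‖ ^ 2 = 1 := by
      rw [norm_smul, mul_pow, hg, Real.norm_eq_abs, sq_abs, sq, hs]; norm_num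
    exact (pow_eq_one_iff_of_nonneg (norm_nonneg _) two_ne_zero).mp h3
  have ex := parseval hL' (L'.smul_mem (Real.sqrt 2) x1.1) (L'.smul_mem (Real.sqrt 2) x2.1)
    (L'.smul_mem (Real.sqrt 2) x3.1) x0.1 (unit _ x1.2.1) (unit _ x2.2.1) (unit _ x3.2.1)
    (by simp only [inner_smul_left, inner_smul_right, y12, mul_zero])
    (by simp only [inner_smul_left, inner_smul_right, y13, mul_zero])
    (by simp only [inner_smul_left, inner_smul_right, y23, mul_zero])
  simp only [inner_smul_right, y03, mul_zero, zero_smul, add_zero, smul_smul] at ex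
  have ex2 := congrArg (fun z => (inner ℝ z w : ℝ)) ex
  simp only [inner_add_left, inner_smul_left, conj_trivial, x0.2.2, x1.2.2, x2.2.2] at ex2
  have ex3 : 2 * inner ℝ g0 g1 + 2 * inner ℝ g0 g2 = (1 : ℝ) := by
    have t1 : Real.sqrt 2 * inner ℝ g0 g1 * Real.sqrt 2 = 2 * inner ℝ g0 g1 := by
      rw [mul_right_comm, hs]
    have t2 : Real.sqrt 2 * inner ℝ g0 g2 * Real.sqrt 2 = 2 * inner ℝ g0 g2 := by
      rw [mul_right_comm, hs]
    rw [t1, t2] at ex2
    linarith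
  rcases sq_eq_sq_iff_eq_or_eq_neg.mp k1 with h | h <;>
    rcases sq_eq_sq_iff_eq_or_eq_neg.mp k2 with h' | h' <;>
    rw [h, h'] at ex3 <;> norm_num at ex3

end one

end Pool.Agent.Helper855.Bq
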