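import Pool.Agent.Helper855.BqPairs

/-!
Two short pairs of points with all cross distances one: one of them satisfies the dichotomy.
-/

set_option autoImplicit false

namespace Pool.Agent.Helper855.Bq

open Module

variable {E V : Type*} [NormedAddCommGroup E] [InnerProductSpace ℝ E]
  [NormedAddCommGroup V] [InnerProductSpace ℝ V]

/-- The dichotomy for a pair of points. -/
def Dich (f : E → V) (p q : E) : Prop :=
  ‖f p - f q‖ ^ 2 = ‖p - q‖ ^ 2 ∨ ‖f p - f q‖ ^ 2 = 2 - ‖p - q‖ ^ 2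

omit [InnerProductSpace ℝ E] [InnerProductSpace ℝ V] in
lemma Dich.symm {f : E → V} {p q : E} (h : Dich f p q) : Dich f q p := by
  unfold Dich at *
  rwa [norm_sub_rev (f q), norm_sub_rev q]

/-- A unit vector orthogonal to three given vectors. -/
lemma exists_unit_orth [FiniteDimensional ℝ E] (hE : 3 < finrank ℝ E) (a b c : E) :
    ∃ n : E, ‖n‖ = 1 ∧ inner ℝ a n = (0 : ℝ) ∧ inner ℝ b n = (0 : ℝ) ∧ inner ℝ c n = (0 : ℝ) := by
  have h1 := Submodule.finrank_add_finrank_orthogonal (Submodule.span ℝ {a, b, c})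
  have h2 : finrank ℝ (Submodule.span ℝ ({a, b, c} : Set E)) ≤ 3 := by
    classical
    have e : ({a, b, c} : Set E) = (({a, b, c} : Finset E) : Set E) := by simp
    rw [e]
    exact le_trans (finrank_span_finset_le_card _) (Finset.card_le_three)
  have h3 : 0 < finrank ℝ (Submodule.span ℝ ({a, b, c} : Set E))ᗮ := by omega
  have := Module.finrank_pos_iff.mp h3
  obtain ⟨⟨m, hm⟩, hm0⟩ := exists_ne (0 : (Submodule.span ℝ ({a, b, c} : Set E))ᗮ)
  have hm1 : m ≠ 0 := fun h => hm0 (by simpa using h)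
  rw [Submodule.mem_orthogonal] at hm
  refine ⟨(‖m‖⁻¹ : ℝ) • m, ?_, ?_, ?_, ?_⟩
  · rw [norm_smul, norm_inv, norm_norm, inv_mul_cancel₀ (norm_ne_zero_iff.mpr hm1)]
  · rw [inner_smul_right, hm a (Submodule.subset_span (by simp)), mul_zero]
  · rw [inner_smul_right, hm b (Submodule.subset_span (by simp)), mul_zero]
  · rw [inner_smul_right, hm c (Submodule.subset_span (by simp)), mul_zero]

/-- The relations between the difference vectors and the vector joining the midpoints. -/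
lemma mid_rel {p q x y : E} (hpx : ‖p - x‖ = 1) (hpy : ‖p - y‖ = 1) (hqx : ‖q - x‖ = 1)
    (hqy : ‖q - y‖ = 1) :
    inner ℝ (p - q) ((1 / 2 : ℝ) • (x + y) - (1 / 2 : ℝ) • (p + q)) = (0 : ℝ) ∧
    inner ℝ (x - y) ((1 / 2 : ℝ) • (x + y) - (1 / 2 : ℝ) • (p + q)) = (0 : ℝ) ∧
    ‖(1 / 2 : ℝ) • (x + y) - (1 / 2 : ℝ) • (p + q)‖ ^ 2 =
      1 - ‖p - q‖ ^ 2 / 4 - ‖x - y‖ ^ 2 / 4 := by
  have e1 := norm_sub_sq_real p x
  have e2 := norm_sub_sq_real p y
  have e3 := norm_sub_sq_real q x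
  have e4 := norm_sub_sq_real q y
  have e5 := norm_sub_sq_real p q
  have e6 := norm_sub_sq_real x y
  rw [hpx] at e1
  rw [hpy] at e2
  rw [hqx] at e3
  rw [hqy] at e4
  have pp : inner ℝ p p = ‖p‖ ^ 2 := real_inner_self_eq_norm_sq p
  have qq : inner ℝ q q = ‖q‖ ^ 2 := real_inner_self_eq_norm_sq q
  have xx : inner ℝ x x = ‖x‖ ^ 2 := real_inner_self_eq_norm_sq x
  have yy : inner ℝ y y = ‖y‖ ^ 2 := real_inner_self_eq_norm_sq y
  have qp : inner ℝ q p = inner ℝ p q := real_inner_comm _ _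
  have xp : inner ℝ x p = inner ℝ p x := real_inner_comm _ _
  have xq : inner ℝ x q = inner ℝ q x := real_inner_comm _ _
  have yp : inner ℝ y p = inner ℝ p y := real_inner_comm _ _
  have yq : inner ℝ y q = inner ℝ q y := real_inner_comm _ _
  have yx : inner ℝ y x = inner ℝ x y := real_inner_comm _ _
  refine ⟨?_, ?_, ?_⟩
  · simp only [inner_sub_left, inner_sub_right, inner_add_right, inner_smul_right, pp, qq, qp]
    linarith
  · simp only [inner_sub_left, inner_sub_right, inner_add_right, inner_smul_right, xx, yy, yx, xp,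
      xq, yp, yq]
    linarith
  · rw [← real_inner_self_eq_norm_sq]
    simp only [inner_sub_left, inner_sub_right, inner_add_left, inner_add_right, inner_smul_left,
      inner_smul_right, conj_trivial, pp, qq, xx, yy, qp, xp, xq, yp, yq, yx]
    linarith

/-- A point at distance `1/√2` from four points. -/
lemma exists_center [FiniteDimensional ℝ E] (hE : 3 < finrank ℝ E) {p q x y : E}
    (hpx : ‖p - x‖ = 1) (hpy : ‖p - y‖ = 1) (hqx : ‖q - x‖ = 1)
    (hqy : ‖q - y‖ = 1) (h1 : ‖p - q‖ ≤ 1 / 2) (h2 : ‖x - y‖ ≤ 1 / 2) :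
    ∃ o : E, ‖p - o‖ ^ 2 = 1 / 2 ∧ ‖q - o‖ ^ 2 = 1 / 2 ∧ ‖x - o‖ ^ 2 = 1 / 2 ∧
      ‖y - o‖ ^ 2 = 1 / 2 := by
  obtain ⟨r1, r2, r3⟩ := mid_rel hpx hpy hqx hqy
  set h := (1 / 2 : ℝ) • (x + y) - (1 / 2 : ℝ) • (p + q) with hh
  obtain ⟨n, n1, n2, n3, n4⟩ := exists_unit_orth hE (p - q) (x - y) h
  have t1 : ‖p - q‖ ^ 2 ≤ 1 / 4 := by
    have := pow_le_pow_left₀ (norm_nonneg _) h1 2
    norm_num at this ⊢; exact this
  have t2 : ‖x - y‖ ^ 2 ≤ 1 / 4 := by
    have := pow_le_pow_left₀ (norm_nonneg _) h2 2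
    norm_num at this ⊢; exact this
  have t3 := sq_nonneg ‖p - q‖
  have t4 := sq_nonneg ‖x - y‖
  obtain ⟨a, ha⟩ : ∃ a : ℝ, a = ‖p - q‖ ^ 2 / 4 := ⟨_, rfl⟩
  obtain ⟨b, hb⟩ : ∃ b : ℝ, b = ‖x - y‖ ^ 2 / 4 := ⟨_, rfl⟩
  have hp4 : ‖p - q‖ ^ 2 = 4 * a := by linarith
  have hx4 : ‖x - y‖ ^ 2 = 4 * b := by linarith
  have hh2 : ‖h‖ ^ 2 = 1 - a - b := by linarith
  have hK : 0 < 1 - a - b := by linarith
  have hm : 0 ≤ 1 / 2 - a - (1 - 2 * a) ^ 2 / (4 * (1 - a - b)) := by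
    have : (1 - 2 * a) ^ 2 / (4 * (1 - a - b)) ≤ 1 / 2 - a := by
      rw [div_le_iff₀ (by linarith)]
      nlinarith
    linarith
  have hmu : Real.sqrt (1 / 2 - a - (1 - 2 * a) ^ 2 / (4 * (1 - a - b))) ^ 2 =
    1 / 2 - a - (1 - 2 * a) ^ 2 / (4 * (1 - a - b)) := Real.sq_sqrt hm
  set μ := Real.sqrt (1 / 2 - a - (1 - 2 * a) ^ 2 / (4 * (1 - a - b)))
  obtain ⟨l, hl⟩ : ∃ l : ℝ, l = (1 - 2 * a) / (2 * (1 - a - b)) := ⟨_, rfl⟩
  have hl2 : l ^ 2 * (1 - a - b) = (1 - 2 * a) ^ 2 / (4 * (1 - a - b)) := by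
    rw [hl]; field_simp; ring
  have hl3 : (1 - l) ^ 2 * (1 - a - b) = (1 - 2 * a) ^ 2 / (4 * (1 - a - b)) + a - b := by
    rw [hl]; field_simp; ring
  have nrm : ∀ (d : E) (s k : ℝ), inner ℝ d h = (0 : ℝ) → inner ℝ d n = (0 : ℝ) →
      ‖s • d + k • h - μ • n‖ ^ 2 = s ^ 2 * ‖d‖ ^ 2 + k ^ 2 * ‖h‖ ^ 2 + μ ^ 2 := by
    intro d s k hd hn
    have hd' : inner ℝ h d = (0 : ℝ) := by rw [real_inner_comm]; exact hd
    have hn' : inner ℝ n d = (0 : ℝ) := by rw [real_inner_comm]; exact hn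
    have hn4' : inner ℝ n h = (0 : ℝ) := by rw [real_inner_comm]; exact n4
    rw [← real_inner_self_eq_norm_sq]
    simp only [inner_sub_left, inner_sub_right, inner_add_left, inner_add_right, inner_smul_left,
      inner_smul_right, conj_trivial, hd, hn, hd', hn', n4, hn4', real_inner_self_eq_norm_sq, n1]
    ring
  refine ⟨(1 / 2 : ℝ) • (p + q) + l • h + μ • n, ?_, ?_, ?_, ?_⟩
  · have e : p - ((1 / 2 : ℝ) • (p + q) + l • h + μ • n) =
        (1 / 2 : ℝ) • (p - q) + (-l) • h - μ • n := by module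
    rw [e, nrm _ _ _ r1 n2, hp4, hh2, hmu]
    linear_combination hl2
  · have e : q - ((1 / 2 : ℝ) • (p + q) + l • h + μ • n) =
        (-(1 / 2) : ℝ) • (p - q) + (-l) • h - μ • n := by module
    rw [e, nrm _ _ _ r1 n2, hp4, hh2, hmu]
    linear_combination hl2
  · have e : x - ((1 / 2 : ℝ) • (p + q) + l • h + μ • n) =
        (1 / 2 : ℝ) • (x - y) + (1 - l) • h - μ • n := by rw [hh]; module
    rw [e, nrm _ _ _ r2 n3, hx4, hh2, hmu]
    linear_combination hl3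
  · have e : y - ((1 / 2 : ℝ) • (p + q) + l • h + μ • n) =
        (-(1 / 2) : ℝ) • (x - y) + (1 - l) • h - μ • n := by rw [hh]; module
    rw [e, nrm _ _ _ r2 n3, hx4, hh2, hmu]
    linear_combination hl3

/-- The second unit vector of a plane spanned by two unit vectors. -/
lemma exists_second {u v : E} (hu : ‖u‖ = 1) (hv : ‖v‖ = 1) {α : ℝ} (h : inner ℝ u v = α)
    (h1 : -1 < α) (h2 : α < 1) :
    ∃ (w : E) (β : ℝ), ‖w‖ = 1 ∧ inner ℝ u w = (0 : ℝ) ∧ α ^ 2 + β ^ 2 = 1 ∧ v = α • u + β • w ∧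
      ∃ a b : ℝ, w = a • u + b • v := by
  have hpos : 0 < 1 - α ^ 2 := by nlinarith
  have hβ : Real.sqrt (1 - α ^ 2) ^ 2 = 1 - α ^ 2 := Real.sq_sqrt hpos.le
  have hβ0 : Real.sqrt (1 - α ^ 2) ≠ 0 := by
    intro h0
    rw [h0] at hβ
    norm_num at hβ
    linarith
  set β := Real.sqrt (1 - α ^ 2)
  refine ⟨(β⁻¹ : ℝ) • (v - α • u), β, ?_, ?_, by rw [hβ]; ring, ?_, -(β⁻¹ * α), β⁻¹, ?_⟩
  · have h3 : ‖(β⁻¹ : ℝ) • (v - α • u)‖ ^ 2 = 1 := by
      rw [norm_smul, mul_pow, norm_sub_sq_real, inner_smul_right, norm_smul, hu, hv,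
        real_inner_comm, h]
      simp only [norm_inv, Real.norm_eq_abs, inv_pow, sq_abs, hβ, mul_one, one_pow]
      field_simp
      ring
    exact (pow_eq_one_iff_of_nonneg (norm_nonneg _) two_ne_zero).mp h3
  · rw [inner_smul_right, inner_sub_right, inner_smul_right, h, real_inner_self_eq_norm_sq, hu]
    ring
  · rw [smul_smul, mul_inv_cancel₀ hβ0, one_smul]; abel
  · module

/-- **Cross lemma.** If a map into a space of dimension at most thirteen preserves unit distances,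
then of two short pairs with all cross distances one, one satisfies the dichotomy. -/
theorem cross [FiniteDimensional ℝ E] (hE : finrank ℝ E = 12) [FiniteDimensional ℝ V]
    (hV : finrank ℝ V ≤ 13) {f : E → V} (hf : ∀ x y, ‖x - y‖ = 1 → ‖f x - f y‖ = 1)
    {p q x y : E} (hpx : ‖p - x‖ = 1) (hpy : ‖p - y‖ = 1) (hqx : ‖q - x‖ = 1)
    (hqy : ‖q - y‖ = 1) (hpq : p ≠ q) (hxy : x ≠ y) (h1 : ‖p - q‖ ≤ 1 / 2)
    (h2 : ‖x - y‖ ≤ 1 / 2) : Dich f p q ∨ Dich f x y := by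
  obtain ⟨o, o1, o2, o3, o4⟩ := exists_center (by omega) hpx hpy hqx hqy h1 h2
  have hs : Real.sqrt 2 * Real.sqrt 2 = 2 := Real.mul_self_sqrt (by norm_num)
  have hs0 : Real.sqrt 2 ≠ 0 := by positivity
  have hsn : ‖Real.sqrt 2‖ ^ 2 = 2 := by rw [Real.norm_eq_abs, sq_abs, sq, hs]
  have unit : ∀ z : E, ‖z - o‖ ^ 2 = 1 / 2 → ‖Real.sqrt 2 • (z - o)‖ = 1 := by
    intro z hz
    have h3 : ‖Real.sqrt 2 • (z - o)‖ ^ 2 = 1 := by
      rw [norm_smul, mul_pow, hz, hsn]; norm_num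
    exact (pow_eq_one_iff_of_nonneg (norm_nonneg _) two_ne_zero).mp h3
  have inn : ∀ z w : E, ‖z - o‖ ^ 2 = 1 / 2 → ‖w - o‖ ^ 2 = 1 / 2 →
      inner ℝ (Real.sqrt 2 • (z - o)) (Real.sqrt 2 • (w - o)) = 1 - ‖z - w‖ ^ 2 := by
    intro z w hz hw
    have h3 := norm_sub_sq_real (z - o) (w - o)
    rw [sub_sub_sub_cancel_right, hz, hw] at h3
    rw [inner_smul_left, inner_smul_right, conj_trivial, ← mul_assoc, hs]
    linarith
  have t1 : 0 < ‖p - q‖ ^ 2 := by
    have := norm_pos_iff.mpr (sub_ne_zero.mpr hpq); positivity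
  have t2 : 0 < ‖x - y‖ ^ 2 := by
    have := norm_pos_iff.mpr (sub_ne_zero.mpr hxy); positivity
  have t3 : ‖p - q‖ ^ 2 ≤ 1 / 4 := by
    have := pow_le_pow_left₀ (norm_nonneg _) h1 2
    norm_num at this ⊢; exact this
  have t4 : ‖x - y‖ ^ 2 ≤ 1 / 4 := by
    have := pow_le_pow_left₀ (norm_nonneg _) h2 2
    norm_num at this ⊢; exact this
  obtain ⟨e2, β, u2, i12, ab, hq, a1, b1, he2⟩ := exists_second (unit p o1) (unit q o2)
    (inn p q o1 o2) (by linarith) (by linarith)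
  obtain ⟨e2', β', u2', i12', ab', hy, a1', b1', he2'⟩ := exists_second (unit x o3) (unit y o4)
    (inn x y o3 o4) (by linarith) (by linarith)
  have ix : inner ℝ (Real.sqrt 2 • (p - o)) (Real.sqrt 2 • (x - o)) = (0 : ℝ) := by
    rw [inn p x o1 o3, hpx]; norm_num
  have iy : inner ℝ (Real.sqrt 2 • (p - o)) (Real.sqrt 2 • (y - o)) = (0 : ℝ) := by
    rw [inn p y o1 o4, hpy]; norm_num
  have jx : inner ℝ (Real.sqrt 2 • (q - o)) (Real.sqrt 2 • (x - o)) = (0 : ℝ) := by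
    rw [inn q x o2 o3, hqx]; norm_num
  have jy : inner ℝ (Real.sqrt 2 • (q - o)) (Real.sqrt 2 • (y - o)) = (0 : ℝ) := by
    rw [inn q y o2 o4, hqy]; norm_num
  have unitp := unit p o1
  have unitx := unit x o3
  set e1 := Real.sqrt 2 • (p - o) with he1
  set e1' := Real.sqrt 2 • (x - o) with he1'
  have lr : ∀ (a b c : E) (s t : ℝ), inner ℝ a b = (0 : ℝ) → inner ℝ a c = (0 : ℝ) →
      inner ℝ a (s • b + t • c) = (0 : ℝ) := by
    intro a b c s t h3 h4
    rw [inner_add_right, inner_smul_right, inner_smul_right, h3, h4]; ring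
  have ll : ∀ (a b c : E) (s t : ℝ), inner ℝ b a = (0 : ℝ) → inner ℝ c a = (0 : ℝ) →
      inner ℝ (s • b + t • c) a = (0 : ℝ) := by
    intro a b c s t h3 h4
    rw [inner_add_left, inner_smul_left, inner_smul_left, h3, h4]; simp
  have c1 : inner ℝ e1 e2' = (0 : ℝ) := by
    rw [he2']; exact lr _ _ _ _ _ ix iy
  have c2 : inner ℝ e2 e1' = (0 : ℝ) := by
    rw [he2]; exact ll _ _ _ _ _ ix jx
  have c3 : inner ℝ e2 e2' = (0 : ℝ) := by
    rw [he2']; refine lr _ _ _ _ _ c2 ?_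
    rw [he2]; exact ll _ _ _ _ _ iy jy
  -- the orthonormal basis
  let v : Fin 4 × Fin 3 → E := fun ik =>
    if ik = (0, 0) then e1 else if ik = (0, 1) then e2 else if ik = (1, 0) then e1' else e2'
  let s : Set (Fin 4 × Fin 3) := {(0, 0), (0, 1), (1, 0), (1, 1)}
  have v00 : v (0, 0) = e1 := by simp [v]
  have v01 : v (0, 1) = e2 := by simp [v]
  have v10 : v (1, 0) = e1' := by simp [v]
  have v11 : v (1, 1) = e2' := by simp [v]
  have hon : Orthonormal ℝ (s.domRestrict v) := by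
    have k1 : inner ℝ e2 e1 = (0 : ℝ) := by rw [real_inner_comm]; exact i12
    have k2 : inner ℝ e2' e1' = (0 : ℝ) := by rw [real_inner_comm]; exact i12'
    have k3 : inner ℝ e1' e1 = (0 : ℝ) := by rw [real_inner_comm]; exact ix
    have k4 : inner ℝ e2' e1 = (0 : ℝ) := by rw [real_inner_comm]; exact c1
    have k5 : inner ℝ e1' e2 = (0 : ℝ) := by rw [real_inner_comm]; exact c2
    have k6 : inner ℝ e2' e2 = (0 : ℝ) := by rw [real_inner_comm]; exact c3
    constructor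
    · rintro ⟨i, hi⟩
      change ‖v i‖ = 1
      simp only [s, Set.mem_insert_iff, Set.mem_singleton_iff] at hi
      rcases hi with rfl | rfl | rfl | rfl
      · rw [v00]; exact unitp
      · rw [v01]; exact u2
      · rw [v10]; exact unitx
      · rw [v11]; exact u2'
    · rintro ⟨i, hi⟩ ⟨j, hj⟩ hij
      have hij' : i ≠ j := fun h => hij (Subtype.ext h)
      change inner ℝ (v i) (v j) = (0 : ℝ)
      simp only [s, Set.mem_insert_iff, Set.mem_singleton_iff] at hi hj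
      rcases hi with rfl | rfl | rfl | rfl <;> rcases hj with rfl | rfl | rfl | rfl <;>
        first
          | exact absurd rfl hij'
          | (simp only [v00, v01, v10, v11]; assumption)
  obtain ⟨b, hb⟩ := hon.exists_orthonormalBasis_extension_of_card_eq (by rw [hE]; rfl)
  have b00 : b (0, 0) = e1 := by rw [hb _ (by simp [s]), v00]
  have b01 : b (0, 1) = e2 := by rw [hb _ (by simp [s]), v01]
  have b10 : b (1, 0) = e1' := by rw [hb _ (by simp [s]), v10]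
  have b11 : b (1, 1) = e2' := by rw [hb _ (by simp [s]), v11]
  have key := two_blocks hV (F := fun u => f (o + (Real.sqrt 2)⁻¹ • u))
    (by
      intro u w hu hw huw
      apply hf
      have e : o + (Real.sqrt 2)⁻¹ • u - (o + (Real.sqrt 2)⁻¹ • w) = (Real.sqrt 2)⁻¹ • (u - w) := by
        module
      have h3 : ‖(Real.sqrt 2)⁻¹ • (u - w)‖ ^ 2 = 1 := by
        rw [norm_smul, mul_pow, norm_sub_sq_real, huw, hu, hw, norm_inv, inv_pow, hsn]; norm_num
      rw [e]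
      exact (pow_eq_one_iff_of_nonneg (norm_nonneg _) two_ne_zero).mp h3)
    (fun i k => b (i, k)) (fun i k => b.orthonormal.1 _)
    (fun i k j l h => b.orthonormal.2 h) ab ab'
  have back : ∀ z : E, o + (Real.sqrt 2)⁻¹ • (Real.sqrt 2 • (z - o)) = z := by
    intro z
    rw [smul_smul, inv_mul_cancel₀ hs0, one_smul]; abel
  simp only [b00, b01, b10, b11] at key
  rw [← hq, ← hy, he1, he1', back, back, back, back] at key
  unfold Dich
  rw [norm_sub_rev (f p), norm_sub_rev (f x)]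
  rcases key with (h | h) | (h | h)
  · left; left; rw [h]; ring
  · left; right; rw [h]; ring
  · right; left; rw [h]; ring
  · right; right; rw [h]; ring

end Pool.Agent.Helper855.Bq
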