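import Pool.Agent.Helper855.BqAngle

/-!
Four sets in a space of dimension at most thirteen such that all distances between different sets
are one.
-/

set_option autoImplicit false

namespace Pool.Agent.Helper855.Bq

open Module

variable {V : Type*} [NormedAddCommGroup V] [InnerProductSpace ℝ V]

/-- The direction space of a set. -/
def dir (A : Set V) : Submodule ℝ V := Submodule.span ℝ {z | ∃ x ∈ A, ∃ x' ∈ A, z = x - x'}

lemma sub_mem_dir {A : Set V} {x x' : V} (hx : x ∈ A) (hx' : x' ∈ A) : x - x' ∈ dir A :=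
  Submodule.subset_span ⟨x, hx, x', hx', rfl⟩

lemma four_orth {x x' y y' : V} (h1 : ‖x - y‖ = 1) (h2 : ‖x - y'‖ = 1) (h3 : ‖x' - y‖ = 1)
    (h4 : ‖x' - y'‖ = 1) : inner ℝ (x - x') (y - y') = 0 := by
  have e1 := norm_sub_sq_real x y
  have e2 := norm_sub_sq_real x y'
  have e3 := norm_sub_sq_real x' y
  have e4 := norm_sub_sq_real x' y'
  rw [h1] at e1
  rw [h2] at e2
  rw [h3] at e3
  rw [h4] at e4
  simp only [inner_sub_left, inner_sub_right]
  linarith

lemma orth_of_forall {A : Set V} {w : V} (h : ∀ x ∈ A, ∀ x' ∈ A, inner ℝ (x - x') w = 0) :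
    ∀ z ∈ dir A, inner ℝ z w = 0 := by
  intro z hz
  unfold dir at hz
  induction hz using Submodule.span_induction with
  | mem z hz => obtain ⟨x, hx, x', hx', rfl⟩ := hz; exact h x hx x' hx'
  | zero => exact inner_zero_left _
  | add z z' _ _ h1 h2 => rw [inner_add_left, h1, h2, add_zero]
  | smul a z _ h1 => rw [inner_smul_left, h1, mul_zero]

/-- Four nonempty sets with all distances between different ones equal to one. -/
structure Fam (A : Fin 4 → Set V) : Prop where
  ne : ∀ i, (A i).Nonempty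
  unit : ∀ i j, i ≠ j → ∀ x ∈ A i, ∀ y ∈ A j, ‖x - y‖ = 1

namespace Fam

variable {A : Fin 4 → Set V} (H : Fam A)

include H

lemma orth {i j : Fin 4} (hij : i ≠ j) : ∀ z ∈ dir (A i), ∀ w ∈ dir (A j), inner ℝ z w = 0 := by
  intro z hz w hw
  rw [real_inner_comm]
  revert w
  refine orth_of_forall fun y hy y' hy' => ?_
  rw [real_inner_comm]
  refine orth_of_forall (fun x hx x' hx' => ?_) z hz
  exact four_orth (H.unit i j hij x hx y hy) (H.unit i j hij x hx y' hy')
    (H.unit i j hij x' hx' y hy) (H.unit i j hij x' hx' y' hy')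

/-- The centre of one of the sets. -/
lemma exists_center [FiniteDimensional ℝ V] (i : Fin 4) : ∃ c : V, (∀ x ∈ A i, x - c ∈ dir (A i)) ∧
    ∀ j, i ≠ j → ∀ y ∈ A j, ∀ z ∈ dir (A i), inner ℝ z (y - c) = 0 := by
  obtain ⟨x0, hx0⟩ := H.ne i
  obtain ⟨j0, hj0⟩ : ∃ j0 : Fin 4, i ≠ j0 := by
    by_cases h : i = 0
    · exact ⟨1, by rw [h]; decide⟩
    · exact ⟨0, h⟩
  obtain ⟨y0, hy0⟩ := H.ne j0
  obtain ⟨a, ha, b, hb, hab⟩ := Submodule.exists_add_mem_mem_orthogonal (K := dir (A i)) (y0 - x0)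
  refine ⟨x0 + a, ?_, ?_⟩
  · intro x hx
    have : x - (x0 + a) = (x - x0) - a := by abel
    rw [this]
    exact (dir (A i)).sub_mem (sub_mem_dir hx hx0) ha
  · intro j hj y hy z hz
    have e : y - (x0 + a) = (y - y0) + b := by
      have : b = y0 - x0 - a := by rw [hab]; abel
      rw [this]; abel
    rw [e, inner_add_right, (Submodule.mem_orthogonal _ _).mp hb z hz, add_zero]
    refine orth_of_forall (fun x hx x' hx' => ?_) z hz
    exact four_orth (H.unit i j hj x hx y hy) (H.unit i j0 hj0 x hx y0 hy0)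
      (H.unit i j hj x' hx' y hy) (H.unit i j0 hj0 x' hx' y0 hy0)

lemma center_orth {c : Fin 4 → V} (hc1 : ∀ i, ∀ x ∈ A i, x - c i ∈ dir (A i))
    (hc2 : ∀ i j, i ≠ j → ∀ y ∈ A j, ∀ z ∈ dir (A i), inner ℝ z (y - c i) = 0) (i j k : Fin 4) :
    ∀ z ∈ dir (A k), inner ℝ z (c i - c j) = 0 := by
  have key : ∀ i k, ∀ z ∈ dir (A k), inner ℝ z (c i - c k) = 0 := by
    intro i k z hz
    by_cases hik : i = k
    · rw [hik, sub_self, inner_zero_right]
    · obtain ⟨x, hx⟩ := H.ne i
      have e : c i - c k = (x - c k) - (x - c i) := by abel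
      rw [e, inner_sub_right, hc2 k i (Ne.symm hik) x hx z hz,
        H.orth (Ne.symm hik) z hz _ (hc1 i x hx), sub_zero]
  intro z hz
  have e : c i - c j = (c i - c k) - (c j - c k) := by abel
  rw [e, inner_sub_right, key i k z hz, key j k z hz, sub_zero]

lemma radius {c : Fin 4 → V} (hc1 : ∀ i, ∀ x ∈ A i, x - c i ∈ dir (A i))
    (hc2 : ∀ i j, i ≠ j → ∀ y ∈ A j, ∀ z ∈ dir (A i), inner ℝ z (y - c i) = 0) {i j : Fin 4}
    (hij : i ≠ j) {x y : V} (hx : x ∈ A i) (hy : y ∈ A j) :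
    ‖x - c i‖ ^ 2 + ‖y - c i‖ ^ 2 = 1 := by
  have h1 := hc2 i j hij y hy _ (hc1 i x hx)
  have h2 := norm_sub_sq_real (x - c i) (y - c i)
  have e : x - c i - (y - c i) = x - y := by abel
  rw [e, h1, H.unit i j hij x hx y hy] at h2
  linarith

lemma exists_radius {c : Fin 4 → V} (hc1 : ∀ i, ∀ x ∈ A i, x - c i ∈ dir (A i))
    (hc2 : ∀ i j, i ≠ j → ∀ y ∈ A j, ∀ z ∈ dir (A i), inner ℝ z (y - c i) = 0) (i : Fin 4) :
    ∃ r : ℝ, ∀ x ∈ A i, ‖x - c i‖ ^ 2 = r := by
  obtain ⟨j, hj⟩ : ∃ j : Fin 4, i ≠ j := by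
    by_cases h : i = 0
    · exact ⟨1, by rw [h]; decide⟩
    · exact ⟨0, h⟩
  obtain ⟨y, hy⟩ := H.ne j
  refine ⟨1 - ‖y - c i‖ ^ 2, fun x hx => ?_⟩
  have := H.radius hc1 hc2 hj hx hy
  linarith

lemma radii {c : Fin 4 → V} (hc1 : ∀ i, ∀ x ∈ A i, x - c i ∈ dir (A i))
    (hc2 : ∀ i j, i ≠ j → ∀ y ∈ A j, ∀ z ∈ dir (A i), inner ℝ z (y - c i) = 0) {r : Fin 4 → ℝ}
    (hr : ∀ i, ∀ x ∈ A i, ‖x - c i‖ ^ 2 = r i) {i j : Fin 4} (hij : i ≠ j) :
    r i + r j + ‖c i - c j‖ ^ 2 = 1 := by
  obtain ⟨x, hx⟩ := H.ne i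
  obtain ⟨y, hy⟩ := H.ne j
  have h1 := H.radius hc1 hc2 hij hx hy
  have h2 := norm_sub_sq_real (y - c j) (c i - c j)
  have e : y - c j - (c i - c j) = y - c i := by abel
  rw [e, H.center_orth hc1 hc2 i j j _ (hc1 j y hy), hr j y hy] at h2
  rw [hr i x hx, h2] at h1
  linarith

/-- The key dichotomy: one of the first two sets lies on a sphere of radius `1/√2` in a space of
dimension at most three. -/
theorem dichotomy [FiniteDimensional ℝ V] (hV : finrank ℝ V ≤ 13) {c : Fin 4 → V}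
    (hc1 : ∀ i, ∀ x ∈ A i, x - c i ∈ dir (A i))
    (hc2 : ∀ i j, i ≠ j → ∀ y ∈ A j, ∀ z ∈ dir (A i), inner ℝ z (y - c i) = 0) {r : Fin 4 → ℝ}
    (hr : ∀ i, ∀ x ∈ A i, ‖x - c i‖ ^ 2 = r i) (h3 : ∀ i, 3 ≤ finrank ℝ (dir (A i))) :
    (finrank ℝ (dir (A 0)) ≤ 3 ∧ r 0 = 1 / 2) ∨ (finrank ℝ (dir (A 1)) ≤ 3 ∧ r 1 = 1 / 2) := by
  have o : ∀ i j, i ≠ j → dir (A i) ⟂ dir (A j) := fun i j hij =>
    Submodule.isOrtho_iff_inner_eq.mpr (H.orth hij)
  set M : Submodule ℝ V := dir (A 0) ⊔ dir (A 1) ⊔ (dir (A 2) ⊔ dir (A 3)) with hM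
  have d1 : finrank ℝ (dir (A 0) ⊔ dir (A 1) : Submodule ℝ V) =
      finrank ℝ (dir (A 0)) + finrank ℝ (dir (A 1)) := by
    have := Submodule.finrank_sup_add_finrank_inf_eq (dir (A 0)) (dir (A 1))
    rw [disjoint_iff.mp (o 0 1 (by decide)).disjoint, finrank_bot] at this
    omega
  have d2 : finrank ℝ (dir (A 2) ⊔ dir (A 3) : Submodule ℝ V) =
      finrank ℝ (dir (A 2)) + finrank ℝ (dir (A 3)) := by
    have := Submodule.finrank_sup_add_finrank_inf_eq (dir (A 2)) (dir (A 3))
    rw [disjoint_iff.mp (o 2 3 (by decide)).disjoint, finrank_bot] at this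
    omega
  have o2 : (dir (A 0) ⊔ dir (A 1)) ⟂ (dir (A 2) ⊔ dir (A 3)) := by
    rw [Submodule.isOrtho_sup_left, Submodule.isOrtho_sup_right, Submodule.isOrtho_sup_right]
    exact ⟨⟨o 0 2 (by decide), o 0 3 (by decide)⟩, ⟨o 1 2 (by decide), o 1 3 (by decide)⟩⟩
  have d3 : finrank ℝ M = finrank ℝ (dir (A 0)) + finrank ℝ (dir (A 1)) +
      (finrank ℝ (dir (A 2)) + finrank ℝ (dir (A 3))) := by
    have := Submodule.finrank_sup_add_finrank_inf_eq (dir (A 0) ⊔ dir (A 1))
      (dir (A 2) ⊔ dir (A 3))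
    rw [disjoint_iff.mp o2.disjoint, finrank_bot] at this
    rw [hM]
    omega
  have d4 := Submodule.finrank_add_finrank_orthogonal M
  have hmem : ∀ i j, c i - c j ∈ Mᗮ := by
    intro i j
    have h1 : ∀ k, dir (A k) ≤ (Submodule.span ℝ {c i - c j})ᗮ := by
      intro k z hz
      rw [Submodule.mem_orthogonal_singleton_iff_inner_left]
      exact H.center_orth hc1 hc2 i j k z hz
    have h2 : M ≤ (Submodule.span ℝ {c i - c j})ᗮ :=
      sup_le (sup_le (h1 0) (h1 1)) (sup_le (h1 2) (h1 3))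
    rw [Submodule.mem_orthogonal]
    intro z hz
    have := h2 hz
    rwa [Submodule.mem_orthogonal_singleton_iff_inner_left] at this
  have h30 := h3 0
  have h31 := h3 1
  have h32 := h3 2
  have h33 := h3 3
  have R := fun i j (hij : i ≠ j) => H.radii hc1 hc2 hr (i := i) (j := j) hij
  by_cases hbig : finrank ℝ Mᗮ = 0
  · have hz : ∀ i j, c i - c j = 0 := by
      intro i j
      have := Submodule.finrank_eq_zero.mp hbig
      have h := hmem i j
      rw [this, Submodule.mem_bot] at h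
      exact h
    have s01 := R 0 1 (by decide)
    have s02 := R 0 2 (by decide)
    have s12 := R 1 2 (by decide)
    rw [hz, norm_zero] at s01 s02 s12
    have r0 : r 0 = 1 / 2 := by linarith
    have r1 : r 1 = 1 / 2 := by linarith
    by_cases h : finrank ℝ (dir (A 0)) ≤ 3
    · exact Or.inl ⟨h, r0⟩
    · exact Or.inr ⟨by omega, r1⟩
  · have f0 : finrank ℝ (dir (A 0)) ≤ 3 := by omega
    have f1 : finrank ℝ (dir (A 1)) ≤ 3 := by omega
    have f4 : finrank ℝ Mᗮ ≤ 1 := by omega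
    have line : ∀ a ∈ Mᗮ, ∀ b ∈ Mᗮ, inner ℝ a b = 0 → a = 0 ∨ b = 0 := by
      intro a ha b hb hab
      by_contra hcon
      push Not at hcon
      have hba : inner ℝ b a = 0 := by rw [real_inner_comm]; exact hab
      have := card_le_finrank Mᗮ ![a, b]
        (by intro i; fin_cases i <;> simp [ha, hb])
        (by intro i; fin_cases i <;> simp [hcon.1, hcon.2])
        (by intro i j hij; fin_cases i <;> fin_cases j <;> simp_all)
      omega
    have s01 := R 0 1 (by decide)
    have s02 := R 0 2 (by decide)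
    have s03 := R 0 3 (by decide)
    have s12 := R 1 2 (by decide)
    have s13 := R 1 3 (by decide)
    have s23 := R 2 3 (by decide)
    have e1 : inner ℝ (c 0 - c 3) (c 1 - c 2) = 0 := by
      have n01 := norm_sub_sq_real (c 0) (c 1)
      have n02 := norm_sub_sq_real (c 0) (c 2)
      have n13 := norm_sub_sq_real (c 1) (c 3)
      have n23 := norm_sub_sq_real (c 2) (c 3)
      have c1 := real_inner_comm (c 1) (c 3)
      have c2 := real_inner_comm (c 2) (c 3)
      simp only [inner_sub_left, inner_sub_right]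
      linarith
    have e2 : inner ℝ (c 0 - c 2) (c 1 - c 3) = 0 := by
      have n01 := norm_sub_sq_real (c 0) (c 1)
      have n03 := norm_sub_sq_real (c 0) (c 3)
      have n12 := norm_sub_sq_real (c 1) (c 2)
      have n23 := norm_sub_sq_real (c 2) (c 3)
      have c1 := real_inner_comm (c 1) (c 2)
      simp only [inner_sub_left, inner_sub_right]
      linarith
    rcases line _ (hmem 0 3) _ (hmem 1 2) e1 with h | h
    · rcases line _ (hmem 0 2) _ (hmem 1 3) e2 with h' | h'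
      · left
        refine ⟨f0, ?_⟩
        have h23 : c 2 - c 3 = 0 := by
          rw [sub_eq_zero] at h h' ⊢
          rw [← h, ← h']
        rw [h, norm_zero] at s03
        rw [h', norm_zero] at s02
        rw [h23, norm_zero] at s23
        linarith
      · left
        refine ⟨f0, ?_⟩
        have h01 : c 0 - c 1 = 0 := by
          rw [sub_eq_zero] at h h' ⊢
          rw [h, h']
        rw [h, norm_zero] at s03
        rw [h', norm_zero] at s13
        rw [h01, norm_zero] at s01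
        linarith
    · rcases line _ (hmem 0 2) _ (hmem 1 3) e2 with h' | h'
      · left
        refine ⟨f0, ?_⟩
        have h01 : c 0 - c 1 = 0 := by
          rw [sub_eq_zero] at h h' ⊢
          rw [h, h']
        rw [h, norm_zero] at s12
        rw [h', norm_zero] at s02
        rw [h01, norm_zero] at s01
        linarith
      · right
        refine ⟨f1, ?_⟩
        have h23 : c 2 - c 3 = 0 := by
          rw [sub_eq_zero] at h h' ⊢
          rw [← h, ← h']
        rw [h, norm_zero] at s12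
        rw [h', norm_zero] at s13
        rw [h23, norm_zero] at s23
        linarith

end Fam

end Pool.Agent.Helper855.Bq
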