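import Pool.Agent.Helper855.BqArc

/-!
Every unit distance preserving map from a twelve-dimensional Euclidean space to a Euclidean space
of dimension at most thirteen is an isometry.
-/

set_option autoImplicit false

namespace Pool.Agent.Helper855.Bq

open Module

variable {E V : Type*} [NormedAddCommGroup E] [InnerProductSpace ℝ E]
  [NormedAddCommGroup V] [InnerProductSpace ℝ V]

/-- A point of a circle. -/
noncomputable def pt (z u w : E) (R θ : ℝ) : E := z + (R * Real.cos θ) • u + (R * Real.sin θ) • w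

lemma pt_sub_sq {z u w : E} {R : ℝ} (hu : ‖u‖ = 1) (hw : ‖w‖ = 1) (huw : inner ℝ u w = (0 : ℝ))
    (θ θ' : ℝ) : ‖pt z u w R θ - pt z u w R θ'‖ ^ 2 =
      R ^ 2 * (2 - 2 * Real.cos θ * Real.cos θ' - 2 * Real.sin θ * Real.sin θ') := by
  have e : pt z u w R θ - pt z u w R θ' =
      (R * (Real.cos θ - Real.cos θ')) • u + (R * (Real.sin θ - Real.sin θ')) • w := by
    unfold pt; module
  have hwu : inner ℝ w u = (0 : ℝ) := by rw [real_inner_comm]; exact huw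
  rw [e, ← real_inner_self_eq_norm_sq]
  simp only [inner_add_left, inner_add_right, inner_smul_left, inner_smul_right, conj_trivial,
    real_inner_self_eq_norm_sq, hu, hw, huw, hwu]
  linear_combination R ^ 2 * Real.sin_sq_add_cos_sq θ + R ^ 2 * Real.sin_sq_add_cos_sq θ'

lemma pt_sub_center {z u w p : E} {R : ℝ} (hu : ‖u‖ = 1) (hw : ‖w‖ = 1)
    (huw : inner ℝ u w = (0 : ℝ)) (hpu : inner ℝ (p - z) u = (0 : ℝ))
    (hpw : inner ℝ (p - z) w = (0 : ℝ)) (hR1 : R ^ 2 + ‖p - z‖ ^ 2 = 1) (θ : ℝ) :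
    ‖p - pt z u w R θ‖ = 1 := by
  have e : p - pt z u w R θ = (p - z) - (R * Real.cos θ) • u - (R * Real.sin θ) • w := by
    unfold pt; module
  have hwu : inner ℝ w u = (0 : ℝ) := by rw [real_inner_comm]; exact huw
  have hup : inner ℝ u (p - z) = (0 : ℝ) := by rw [real_inner_comm]; exact hpu
  have hwp : inner ℝ w (p - z) = (0 : ℝ) := by rw [real_inner_comm]; exact hpw
  have h : ‖p - pt z u w R θ‖ ^ 2 = 1 := by
    rw [e, ← real_inner_self_eq_norm_sq]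
    generalize p - z = d at *
    simp only [inner_sub_left, inner_sub_right, inner_smul_left, inner_smul_right, conj_trivial,
      real_inner_self_eq_norm_sq, hu, hw, huw, hwu, hpu, hpw, hup, hwp]
    linear_combination hR1 + R ^ 2 * Real.sin_sq_add_cos_sq θ
  exact (pow_eq_one_iff_of_nonneg (norm_nonneg _) two_ne_zero).mp h

lemma pt_close {z u w : E} {R θ0 : ℝ} (hu : ‖u‖ = 1) (hw : ‖w‖ = 1) (huw : inner ℝ u w = (0 : ℝ))
    (hπ : θ0 ≤ Real.pi) (hch : R ^ 2 * (2 - 2 * Real.cos θ0) ≤ 1 / 4) {θ θ' : ℝ}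
    (h : θ ∈ Set.Icc 0 θ0) (h' : θ' ∈ Set.Icc 0 θ0) :
    ‖pt z u w R θ - pt z u w R θ'‖ ≤ 1 / 2 := by
  have h1 : Real.cos θ0 ≤ Real.cos (θ - θ') := by
    rw [← Real.cos_abs (θ - θ')]
    apply Real.cos_le_cos_of_nonneg_of_le_pi (abs_nonneg _) hπ
    rw [abs_le]
    constructor <;> linarith [h.1, h.2, h'.1, h'.2]
  have h2 : ‖pt z u w R θ - pt z u w R θ'‖ ^ 2 ≤ (1 / 2) ^ 2 := by
    rw [pt_sub_sq hu hw huw]
    rw [Real.cos_sub] at h1
    nlinarith [sq_nonneg R]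
  exact (sq_le_sq₀ (norm_nonneg _) (by norm_num)).mp h2

/-- **Arc lemma.** -/
theorem arc [FiniteDimensional ℝ V] {f : E → V} (hf : ∀ x y, ‖x - y‖ = 1 → ‖f x - f y‖ = 1)
    {p z u w : E} {R θ0 : ℝ} (hR : 1 / 2 < R ^ 2) (hR1 : R ^ 2 + ‖p - z‖ ^ 2 = 1)
    (hu : ‖u‖ = 1) (hw : ‖w‖ = 1) (huw : inner ℝ u w = (0 : ℝ))
    (hpu : inner ℝ (p - z) u = (0 : ℝ)) (hpw : inner ℝ (p - z) w = (0 : ℝ))
    (h0 : 0 < θ0) (hπ : θ0 ≤ Real.pi) (hch : R ^ 2 * (2 - 2 * Real.cos θ0) ≤ 1 / 4)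
    (hD : ∀ θ ∈ Set.Icc 0 θ0, ∀ θ' ∈ Set.Icc 0 θ0, Dich f (pt z u w R θ) (pt z u w R θ')) :
    ∀ θ ∈ Set.Icc 0 θ0, ∀ θ' ∈ Set.Icc 0 θ0,
      ‖f (pt z u w R θ) - f (pt z u w R θ')‖ = ‖pt z u w R θ - pt z u w R θ'‖ := by
  have hinf : Infinite (Set.Icc 0 θ0) := Set.infinite_coe_iff.mpr (Set.Icc_infinite h0)
  have hne : ∀ θ ∈ Set.Icc 0 θ0, ∀ θ' ∈ Set.Icc 0 θ0, θ ≠ θ' →
      ¬ (Real.cos θ = Real.cos θ' ∧ Real.sin θ = Real.sin θ') := by
    intro θ h θ' h' hn hh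
    exact hn (Real.injOn_cos ⟨h.1, h.2.trans hπ⟩ ⟨h'.1, h'.2.trans hπ⟩ hh.1)
  have key := classes (fun i : Set.Icc 0 θ0 => pt z u w R i.1) (fun i => f (pt z u w R i.1))
    (fun i j => pt_close hu hw huw hπ hch i.2 j.2) (fun i j => hD i.1 i.2 j.1 j.2) (f p)
    (fun i => by
      have h1 := hf p (pt z u w R i.1) (pt_sub_center hu hw huw hpu hpw hR1 _)
      rw [norm_sub_rev]; exact h1.le)
    (by
      intro i j k l hij hik hjk d12 d13 d23 d1 d2 d3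
      have cs : ∀ θ : ℝ, Real.cos θ ^ 2 + Real.sin θ ^ 2 = 1 := Real.cos_sq_add_sin_sq
      refine circle_contra hR (cs i.1) (cs j.1) (cs k.1) (cs l.1)
        (hne i.1 i.2 j.1 j.2 (fun h => hij (Subtype.ext h)))
        (hne i.1 i.2 k.1 k.2 (fun h => hik (Subtype.ext h)))
        (hne j.1 j.2 k.1 k.2 (fun h => hjk (Subtype.ext h)))
        (y1 := f (pt z u w R i.1)) (y2 := f (pt z u w R j.1)) (y3 := f (pt z u w R k.1))
        (y := f (pt z u w R l.1)) ?_ ?_ ?_ ?_ ?_ ?_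
      · rw [d12, pt_sub_sq hu hw huw]
      · rw [d13, pt_sub_sq hu hw huw]
      · rw [d23, pt_sub_sq hu hw huw]
      · rw [d1, pt_sub_sq hu hw huw]
      · rw [d2, pt_sub_sq hu hw huw]
      · rw [d3, pt_sub_sq hu hw huw])
  intro θ h θ' h'
  exact key ⟨θ, h⟩ ⟨θ', h'⟩

/-- A point at distance one from three isometrically mapped points. -/
lemma affine_dist {f : E → V} {p x1 x2 x3 : E} {l1 l2 l3 : ℝ} (hl : l1 + l2 + l3 = 1)
    (h1 : ‖p - x1‖ = 1) (h2 : ‖p - x2‖ = 1) (h3 : ‖p - x3‖ = 1)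
    (g1 : ‖f p - f x1‖ = 1) (g2 : ‖f p - f x2‖ = 1) (g3 : ‖f p - f x3‖ = 1)
    (d12 : ‖f x1 - f x2‖ = ‖x1 - x2‖) (d13 : ‖f x1 - f x3‖ = ‖x1 - x3‖)
    (d23 : ‖f x2 - f x3‖ = ‖x2 - x3‖) :
    ‖f p - (l1 • f x1 + l2 • f x2 + l3 • f x3)‖ = ‖p - (l1 • x1 + l2 • x2 + l3 • x3)‖ := by
  have e1 : f p - (l1 • f x1 + l2 • f x2 + l3 • f x3) =
      l1 • (f p - f x1) + l2 • (f p - f x2) + l3 • (f p - f x3) := by
    have : f p = (l1 + l2 + l3) • f p := by rw [hl, one_smul]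
    nth_rewrite 1 [this]
    module
  have e2 : p - (l1 • x1 + l2 • x2 + l3 • x3) =
      l1 • (p - x1) + l2 • (p - x2) + l3 • (p - x3) := by
    have : p = (l1 + l2 + l3) • p := by rw [hl, one_smul]
    nth_rewrite 1 [this]
    module
  have i1 : ∀ a b c : V, ‖a - b‖ = 1 → ‖a - c‖ = 1 →
      inner ℝ (a - b) (a - c) = 1 - ‖b - c‖ ^ 2 / 2 := by
    intro a b c ha hb
    have h := norm_sub_sq_real (a - b) (a - c)
    rw [ha, hb, sub_sub_sub_cancel_left, norm_sub_rev] at h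
    linarith
  have i2 : ∀ a b c : E, ‖a - b‖ = 1 → ‖a - c‖ = 1 →
      inner ℝ (a - b) (a - c) = 1 - ‖b - c‖ ^ 2 / 2 := by
    intro a b c ha hb
    have h := norm_sub_sq_real (a - b) (a - c)
    rw [ha, hb, sub_sub_sub_cancel_left, norm_sub_rev] at h
    linarith
  have n1 := norm_comb (f p - f x1) (f p - f x2) (f p - f x3) l1 l2 l3
  have n2 := norm_comb (p - x1) (p - x2) (p - x3) l1 l2 l3
  rw [i1 _ _ _ g1 g2, i1 _ _ _ g1 g3, i1 _ _ _ g2 g3, g1, g2, g3, d12, d13, d23] at n1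
  rw [i2 _ _ _ h1 h2, i2 _ _ _ h1 h3, i2 _ _ _ h2 h3, h1, h2, h3] at n2
  rw [e1, e2]
  exact (sq_eq_sq₀ (norm_nonneg _) (norm_nonneg _)).mp (n1.trans n2.symm)

/-- If an arc of common unit neighbours is mapped isometrically, the distance does not grow. -/
theorem le_of_arc {f : E → V} (hf : ∀ x y, ‖x - y‖ = 1 → ‖f x - f y‖ = 1)
    {p q z u w : E} {R θ0 : ℝ} (h0 : 0 < θ0) (hπ : θ0 ≤ Real.pi)
    (hp : ∀ θ, ‖p - pt z u w R θ‖ = 1) (hq : ∀ θ, ‖q - pt z u w R θ‖ = 1)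
    (hz : ‖p - z‖ + ‖q - z‖ = ‖p - q‖)
    (hI : ∀ θ ∈ Set.Icc 0 θ0, ∀ θ' ∈ Set.Icc 0 θ0,
      ‖f (pt z u w R θ) - f (pt z u w R θ')‖ = ‖pt z u w R θ - pt z u w R θ'‖) :
    ‖f p - f q‖ ≤ ‖p - q‖ := by
  have m0 : (0 : ℝ) ∈ Set.Icc 0 θ0 := ⟨le_refl _, h0.le⟩
  have m1 : θ0 / 2 ∈ Set.Icc 0 θ0 := ⟨by linarith, by linarith⟩
  have m2 : θ0 ∈ Set.Icc 0 θ0 := ⟨h0.le, le_refl _⟩
  have hc : Real.cos (θ0 / 2) < 1 := by
    have := Real.cos_lt_cos_of_nonneg_of_le_pi (le_refl (0 : ℝ)) (by linarith : θ0 / 2 ≤ Real.pi)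
      (by linarith : (0 : ℝ) < θ0 / 2)
    rwa [Real.cos_zero] at this
  have c2 : Real.cos θ0 = 2 * Real.cos (θ0 / 2) ^ 2 - 1 := by
    rw [← Real.cos_two_mul]; congr 1; ring
  have s2 : Real.sin θ0 = 2 * Real.sin (θ0 / 2) * Real.cos (θ0 / 2) := by
    rw [← Real.sin_two_mul]; congr 1; ring
  obtain ⟨c, hcc⟩ : ∃ c, c = Real.cos (θ0 / 2) := ⟨_, rfl⟩
  rw [← hcc] at hc c2 s2
  have hne : 2 - 2 * c ≠ 0 := by linarith
  obtain ⟨l, hl⟩ : ∃ l : ℝ, l * (2 - 2 * c) = 1 := ⟨(2 - 2 * c)⁻¹, inv_mul_cancel₀ hne⟩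
  have hsum : l + (-2 * c * l) + l = 1 := by linear_combination hl
  have hzz : l • pt z u w R 0 + (-2 * c * l) • pt z u w R (θ0 / 2) + l • pt z u w R θ0 = z := by
    unfold pt
    rw [Real.cos_zero, Real.sin_zero, c2, s2, ← hcc]
    have : z = (l * (2 - 2 * c)) • z := by rw [hl, one_smul]
    nth_rewrite 4 [this]
    module
  have a1 := affine_dist (f := f) (p := p) hsum (hp 0) (hp (θ0 / 2)) (hp θ0)
    (hf _ _ (hp 0)) (hf _ _ (hp (θ0 / 2))) (hf _ _ (hp θ0))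
    (hI _ m0 _ m1) (hI _ m0 _ m2) (hI _ m1 _ m2)
  have a2 := affine_dist (f := f) (p := q) hsum (hq 0) (hq (θ0 / 2)) (hq θ0)
    (hf _ _ (hq 0)) (hf _ _ (hq (θ0 / 2))) (hf _ _ (hq θ0))
    (hI _ m0 _ m1) (hI _ m0 _ m2) (hI _ m1 _ m2)
  rw [hzz] at a1 a2
  rw [← hz, ← a1, ← a2]
  generalize (l • f (pt z u w R 0) + (-2 * c * l) • f (pt z u w R (θ0 / 2)) +
    l • f (pt z u w R θ0)) = F
  have : f p - f q = (f p - F) - (f q - F) := by abel
  rw [this]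
  exact norm_sub_le _ _

/-- The midpoint of two points and a common unit neighbour. -/
lemma mid_circle {p q x : E} (hpx : ‖p - x‖ = 1) (hqx : ‖q - x‖ = 1) :
    inner ℝ (p - (1 / 2 : ℝ) • (p + q)) (x - (1 / 2 : ℝ) • (p + q)) = (0 : ℝ) ∧
    ‖x - (1 / 2 : ℝ) • (p + q)‖ ^ 2 = 1 - ‖p - q‖ ^ 2 / 4 := by
  have e1 := norm_sub_sq_real p x
  have e3 := norm_sub_sq_real q x
  have e5 := norm_sub_sq_real p q
  rw [hpx] at e1
  rw [hqx] at e3
  have pp : inner ℝ p p = ‖p‖ ^ 2 := real_inner_self_eq_norm_sq p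
  have qq : inner ℝ q q = ‖q‖ ^ 2 := real_inner_self_eq_norm_sq q
  have xx : inner ℝ x x = ‖x‖ ^ 2 := real_inner_self_eq_norm_sq x
  have qp : inner ℝ q p = inner ℝ p q := real_inner_comm _ _
  have xp : inner ℝ x p = inner ℝ p x := real_inner_comm _ _
  have xq : inner ℝ x q = inner ℝ q x := real_inner_comm _ _
  constructor
  · simp only [inner_sub_left, inner_sub_right, inner_add_left, inner_add_right, inner_smul_left,
      inner_smul_right, conj_trivial, pp, qq, qp]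
    linarith
  · rw [← real_inner_self_eq_norm_sq]
    simp only [inner_sub_left, inner_sub_right, inner_add_left, inner_add_right, inner_smul_left,
      inner_smul_right, conj_trivial, pp, qq, xx, qp, xp, xq]
    linarith

lemma sub_mid_norm (p q : E) : ‖p - (1 / 2 : ℝ) • (p + q)‖ = ‖p - q‖ / 2 ∧
    ‖q - (1 / 2 : ℝ) • (p + q)‖ = ‖p - q‖ / 2 := by
  have e1 : p - (1 / 2 : ℝ) • (p + q) = (1 / 2 : ℝ) • (p - q) := by module
  have e2 : q - (1 / 2 : ℝ) • (p + q) = (1 / 2 : ℝ) • (q - p) := by module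
  rw [e1, e2, norm_smul, norm_smul, norm_sub_rev q p, Real.norm_eq_abs,
    abs_of_pos (by norm_num : (0 : ℝ) < 1 / 2)]
  constructor <;> ring

/-- A pair that fails the dichotomy forces isometry on short pairs of its common neighbours. -/
theorem eq_of_not_dich [FiniteDimensional ℝ E] (hE : finrank ℝ E = 12) [FiniteDimensional ℝ V]
    (hV : finrank ℝ V ≤ 13) {f : E → V} (hf : ∀ x y, ‖x - y‖ = 1 → ‖f x - f y‖ = 1)
    {p q x y : E} (hpx : ‖p - x‖ = 1) (hpy : ‖p - y‖ = 1) (hqx : ‖q - x‖ = 1)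
    (hqy : ‖q - y‖ = 1) (hpq : p ≠ q) (h1 : ‖p - q‖ ≤ 1 / 2)
    (h2 : ‖x - y‖ ≤ 1 / 2) (hnd : ¬ Dich f x y) : ‖f p - f q‖ = ‖p - q‖ := by
  have hxy : x ≠ y := by
    rintro rfl
    apply hnd
    left; simp
  have t0 : 0 < ‖p - q‖ := norm_pos_iff.mpr (sub_ne_zero.mpr hpq)
  have t1 : 0 < ‖p - q‖ ^ 2 := by positivity
  have t3 : ‖p - q‖ ^ 2 ≤ 1 / 4 := by
    have := pow_le_pow_left₀ (norm_nonneg _) h1 2
    norm_num at this ⊢; exact this
  have t4 : ‖x - y‖ ^ 2 ≤ 1 / 4 := by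
    have := pow_le_pow_left₀ (norm_nonneg _) h2 2
    norm_num at this ⊢; exact this
  obtain ⟨z, hz⟩ : ∃ z : E, z = (1 / 2 : ℝ) • (x + y) := ⟨_, rfl⟩
  obtain ⟨cp, np⟩ := mid_circle (x := p) (by rw [norm_sub_rev]; exact hpx : ‖x - p‖ = 1)
    (by rw [norm_sub_rev]; exact hpy : ‖y - p‖ = 1)
  obtain ⟨cq, nq⟩ := mid_circle (x := q) (by rw [norm_sub_rev]; exact hqx : ‖x - q‖ = 1)
    (by rw [norm_sub_rev]; exact hqy : ‖y - q‖ = 1)
  have nx := (sub_mid_norm x y).1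
  rw [← hz] at cp np cq nq nx
  have hRpos : 0 < 1 - ‖x - y‖ ^ 2 / 4 := by linarith
  obtain ⟨R, hR⟩ : ∃ R : ℝ, R = Real.sqrt (1 - ‖x - y‖ ^ 2 / 4) := ⟨_, rfl⟩
  have hR2 : R ^ 2 = 1 - ‖x - y‖ ^ 2 / 4 := by rw [hR]; exact Real.sq_sqrt hRpos.le
  have hR0 : R ≠ 0 := by
    intro h; rw [h] at hR2; norm_num at hR2; linarith
  have unit : ∀ a : E, ‖a‖ ^ 2 = R ^ 2 → ‖(R⁻¹ : ℝ) • a‖ = 1 := by
    intro a ha
    have h3 : ‖(R⁻¹ : ℝ) • a‖ ^ 2 = 1 := by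
      rw [norm_smul, mul_pow, ha, norm_inv, inv_pow, Real.norm_eq_abs, sq_abs]
      exact inv_mul_cancel₀ (pow_ne_zero 2 hR0)
    exact (pow_eq_one_iff_of_nonneg (norm_nonneg _) two_ne_zero).mp h3
  have nu := unit (p - z) (by rw [np, hR2])
  have nv := unit (q - z) (by rw [nq, hR2])
  have hin : inner ℝ ((R⁻¹ : ℝ) • (p - z)) ((R⁻¹ : ℝ) • (q - z)) =
      1 - ‖p - q‖ ^ 2 / (2 * R ^ 2) := by
    have h3 := norm_sub_sq_real (p - z) (q - z)
    rw [sub_sub_sub_cancel_right, np, nq, ← hR2] at h3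
    have h4 : inner ℝ (p - z) (q - z) = R ^ 2 - ‖p - q‖ ^ 2 / 2 := by linarith
    rw [inner_smul_left, inner_smul_right, conj_trivial, h4]
    field_simp
  obtain ⟨α, hα⟩ : ∃ α : ℝ, α = 1 - ‖p - q‖ ^ 2 / (2 * R ^ 2) := ⟨_, rfl⟩
  rw [← hα] at hin
  have hαR : R ^ 2 * (2 - 2 * α) = ‖p - q‖ ^ 2 := by
    rw [hα]; field_simp; ring
  have hα1 : α < 1 := by
    have : 0 < ‖p - q‖ ^ 2 / (2 * R ^ 2) := by positivity
    linarith
  have hα2 : -1 < α := by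
    have : ‖p - q‖ ^ 2 / (2 * R ^ 2) < 2 := by
      rw [div_lt_iff₀ (by positivity), hR2]; linarith
    linarith
  have hs : Real.sqrt (1 - α ^ 2) ^ 2 = 1 - α ^ 2 := Real.sq_sqrt (by nlinarith)
  have hpos : 0 < 1 - α ^ 2 := by nlinarith
  obtain ⟨β, hβ⟩ : ∃ β, β = Real.sqrt (1 - α ^ 2) := ⟨_, rfl⟩
  rw [← hβ] at hs
  have hβ0 : β ≠ 0 := by
    intro h; rw [h] at hs; norm_num at hs; linarith
  obtain ⟨u, hu⟩ : ∃ u : E, u = (R⁻¹ : ℝ) • (p - z) := ⟨_, rfl⟩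
  obtain ⟨v, hv⟩ : ∃ v : E, v = (R⁻¹ : ℝ) • (q - z) := ⟨_, rfl⟩
  rw [← hu, ← hv] at hin
  rw [← hu] at nu
  rw [← hv] at nv
  obtain ⟨w, hw⟩ : ∃ w : E, w = (β⁻¹ : ℝ) • (v - α • u) := ⟨_, rfl⟩
  have nw : ‖w‖ = 1 := by
    have h3 : ‖w‖ ^ 2 = 1 := by
      rw [hw, norm_smul, mul_pow, norm_sub_sq_real, inner_smul_right, norm_smul, nu, nv,
        real_inner_comm, hin]
      simp only [norm_inv, Real.norm_eq_abs, inv_pow, sq_abs, hs, mul_one, one_pow]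
      field_simp
      ring
    exact (pow_eq_one_iff_of_nonneg (norm_nonneg _) two_ne_zero).mp h3
  have uw : inner ℝ u w = (0 : ℝ) := by
    rw [hw, inner_smul_right, inner_sub_right, inner_smul_right, hin, real_inner_self_eq_norm_sq,
      nu]
    ring
  have xu : inner ℝ (x - z) u = (0 : ℝ) := by
    rw [hu, inner_smul_right, cp, mul_zero]
  have xv : inner ℝ (x - z) v = (0 : ℝ) := by
    rw [hv, inner_smul_right, cq, mul_zero]
  have xw : inner ℝ (x - z) w = (0 : ℝ) := by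
    rw [hw, inner_smul_right, inner_sub_right, inner_smul_right, xu, xv]; ring
  have yz : y - z = -(x - z) := by rw [hz]; module
  have ny : ‖y - z‖ = ‖x - y‖ / 2 := by rw [yz, norm_neg, nx]
  have yu : inner ℝ (y - z) u = (0 : ℝ) := by rw [yz, inner_neg_left, xu, neg_zero]
  have yw : inner ℝ (y - z) w = (0 : ℝ) := by rw [yz, inner_neg_left, xw, neg_zero]
  have hRx : R ^ 2 + ‖x - z‖ ^ 2 = 1 := by rw [nx, hR2]; ring
  have hRy : R ^ 2 + ‖y - z‖ ^ 2 = 1 := by rw [ny, hR2]; ring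
  have cosα : Real.cos (Real.arccos α) = α := Real.cos_arccos hα2.le hα1.le
  have sinα : Real.sin (Real.arccos α) = β := by rw [Real.sin_arccos, hβ]
  have h0 : 0 < Real.arccos α := Real.arccos_pos.mpr hα1
  have hπ : Real.arccos α ≤ Real.pi := Real.arccos_le_pi α
  have hch : R ^ 2 * (2 - 2 * Real.cos (Real.arccos α)) ≤ 1 / 4 := by rw [cosα, hαR]; exact t3
  have key := arc hf (p := x) (by rw [hR2]; linarith) hRx nu nw uw xu xw h0 hπ hch (by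
    intro θ h θ' h'
    by_cases hne : pt z u w R θ = pt z u w R θ'
    · rw [hne]; left; simp
    · have c1 := pt_sub_center nu nw uw xu xw hRx θ
      have c2 := pt_sub_center nu nw uw xu xw hRx θ'
      have c3 := pt_sub_center nu nw uw yu yw hRy θ
      have c4 := pt_sub_center nu nw uw yu yw hRy θ'
      rcases cross hE hV hf c1 c2 c3 c4 hxy hne h2 (pt_close nu nw uw hπ hch h h') with h3 | h3
      · exact absurd h3 hnd
      · exact h3)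
  have p0 : pt z u w R 0 = p := by
    unfold pt
    rw [Real.cos_zero, Real.sin_zero, hu, mul_one, smul_smul, mul_inv_cancel₀ hR0]
    module
  have q0 : pt z u w R (Real.arccos α) = q := by
    unfold pt
    rw [cosα, sinα, hw, smul_smul, mul_assoc, mul_inv_cancel₀ hβ0, mul_one, hv, hu]
    have : R • ((R⁻¹ : ℝ) • (q - z)) = q - z := by
      rw [smul_smul, mul_inv_cancel₀ hR0, one_smul]
    have h5 : R • ((R⁻¹ : ℝ) • (q - z) - α • (R⁻¹ : ℝ) • (p - z)) =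
        (q - z) - (R * α) • (R⁻¹ : ℝ) • (p - z) := by
      rw [smul_sub R, this]; module
    rw [h5]
    module
  have := key 0 ⟨le_refl _, h0.le⟩ (Real.arccos α) ⟨h0.le, le_refl _⟩
  rwa [p0, q0] at this

/-- Short distances do not grow. -/
theorem main_le [FiniteDimensional ℝ E] (hE : finrank ℝ E = 12) [FiniteDimensional ℝ V]
    (hV : finrank ℝ V ≤ 13) {f : E → V} (hf : ∀ x y, ‖x - y‖ = 1 → ‖f x - f y‖ = 1)
    {p q : E} (h1 : ‖p - q‖ ≤ 1 / 2) : ‖f p - f q‖ ≤ ‖p - q‖ := by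
  by_cases hpq : p = q
  · rw [hpq]; simp
  obtain ⟨u, nu, du, -, -⟩ := exists_unit_orth (by omega) (p - q) (p - q) (p - q)
  obtain ⟨w, nw, dw, uw, -⟩ := exists_unit_orth (by omega) (p - q) u u
  have t3 : ‖p - q‖ ^ 2 ≤ 1 / 4 := by
    have := pow_le_pow_left₀ (norm_nonneg _) h1 2
    norm_num at this ⊢; exact this
  obtain ⟨z, hz⟩ : ∃ z : E, z = (1 / 2 : ℝ) • (p + q) := ⟨_, rfl⟩
  obtain ⟨n1, n2⟩ := sub_mid_norm p q
  rw [← hz] at n1 n2
  have pz : p - z = (1 / 2 : ℝ) • (p - q) := by rw [hz]; module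
  have qz : q - z = (-(1 / 2) : ℝ) • (p - q) := by rw [hz]; module
  have pu : inner ℝ (p - z) u = (0 : ℝ) := by
    rw [pz, inner_smul_left, du]; simp
  have pw : inner ℝ (p - z) w = (0 : ℝ) := by
    rw [pz, inner_smul_left, dw]; simp
  have qu : inner ℝ (q - z) u = (0 : ℝ) := by
    rw [qz, inner_smul_left, du]; simp
  have qw : inner ℝ (q - z) w = (0 : ℝ) := by
    rw [qz, inner_smul_left, dw]; simp
  obtain ⟨R, hR⟩ : ∃ R : ℝ, R = Real.sqrt (1 - ‖p - q‖ ^ 2 / 4) := ⟨_, rfl⟩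
  have hR2 : R ^ 2 = 1 - ‖p - q‖ ^ 2 / 4 := by rw [hR]; exact Real.sq_sqrt (by linarith)
  have hRp : R ^ 2 + ‖p - z‖ ^ 2 = 1 := by rw [n1, hR2]; ring
  have hRq : R ^ 2 + ‖q - z‖ ^ 2 = 1 := by rw [n2, hR2]; ring
  have h0 : (0 : ℝ) < 1 / 4 := by norm_num
  have hπ : (1 / 4 : ℝ) ≤ Real.pi := by linarith [Real.pi_gt_three]
  have hch : R ^ 2 * (2 - 2 * Real.cos (1 / 4)) ≤ 1 / 4 := by
    have h3 := Real.one_sub_sq_div_two_le_cos (x := 1 / 4)
    have h4 := Real.cos_le_one (1 / 4)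
    rw [hR2]
    nlinarith [sq_nonneg ‖p - q‖]
  have cp := pt_sub_center nu nw uw pu pw hRp
  have cq := pt_sub_center nu nw uw qu qw hRq
  by_cases hD : ∀ θ ∈ Set.Icc (0 : ℝ) (1 / 4), ∀ θ' ∈ Set.Icc (0 : ℝ) (1 / 4),
      Dich f (pt z u w R θ) (pt z u w R θ')
  · exact le_of_arc hf h0 hπ cp cq (by rw [n1, n2]; ring)
      (arc hf (p := p) (by rw [hR2]; linarith) hRp nu nw uw pu pw h0 hπ hch hD)
  · push Not at hD
    obtain ⟨θ, hθ, θ', hθ', hnd⟩ := hD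
    exact (eq_of_not_dich hE hV hf (cp θ) (cp θ') (cq θ) (cq θ') hpq h1
      (pt_close nu nw uw hπ hch hθ hθ') hnd).le

omit [InnerProductSpace ℝ V] in
lemma lipschitz_step {f : E → V} {r : ℝ} (h : ∀ p q : E, ‖p - q‖ ≤ r → ‖f p - f q‖ ≤ ‖p - q‖) :
    ∀ p q : E, ‖p - q‖ ≤ 2 * r → ‖f p - f q‖ ≤ ‖p - q‖ := by
  intro p q hpq
  obtain ⟨n1, n2⟩ := sub_mid_norm p q
  have h1 := h p ((1 / 2 : ℝ) • (p + q)) (by rw [n1]; linarith)
  have h2 := h q ((1 / 2 : ℝ) • (p + q)) (by rw [n2]; linarith)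
  rw [n1] at h1
  rw [n2] at h2
  have h3 : f p - f q = (f p - f ((1 / 2 : ℝ) • (p + q))) - (f q - f ((1 / 2 : ℝ) • (p + q))) := by
    abel
  rw [h3]
  exact (norm_sub_le _ _).trans (by linarith)

omit [InnerProductSpace ℝ V] in
/-- Distances at most one are preserved. -/
theorem eq_le_one {f : E → V} (hf : ∀ x y, ‖x - y‖ = 1 → ‖f x - f y‖ = 1)
    (h : ∀ p q : E, ‖p - q‖ ≤ 1 / 2 → ‖f p - f q‖ ≤ ‖p - q‖) :
    ∀ p q : E, ‖p - q‖ ≤ 1 → ‖f p - f q‖ = ‖p - q‖ := by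
  have h1 : ∀ p q : E, ‖p - q‖ ≤ 1 → ‖f p - f q‖ ≤ ‖p - q‖ := by
    intro p q hpq
    exact lipschitz_step h p q (by linarith)
  intro p q hpq
  apply le_antisymm (h1 p q hpq)
  by_cases hne : p = q
  · rw [hne]; simp
  have t0 : 0 < ‖p - q‖ := norm_pos_iff.mpr (sub_ne_zero.mpr hne)
  obtain ⟨t, ht⟩ : ∃ t, t = ‖p - q‖ := ⟨_, rfl⟩
  rw [← ht] at t0 hpq
  have e1 : p - (p + (t⁻¹ : ℝ) • (q - p)) = (t⁻¹ : ℝ) • (p - q) := by module
  have e2 : q - (p + (t⁻¹ : ℝ) • (q - p)) = (t⁻¹ - 1) • (p - q) := by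
    module
  have ht1 : 1 ≤ t⁻¹ := (one_le_inv₀ t0).mpr hpq
  have n1 : ‖p - (p + (t⁻¹ : ℝ) • (q - p))‖ = 1 := by
    rw [e1, norm_smul, ← ht, Real.norm_eq_abs, abs_of_pos (inv_pos.mpr t0),
      inv_mul_cancel₀ t0.ne']
  have n2 : ‖q - (p + (t⁻¹ : ℝ) • (q - p))‖ = 1 - t := by
    rw [e2, norm_smul, ← ht, Real.norm_eq_abs, abs_of_nonneg (by linarith), sub_mul,
      inv_mul_cancel₀ t0.ne', one_mul]
  have g1 := hf _ _ n1
  have g2 := h1 _ _ (n2.le.trans (by linarith))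
  rw [n2] at g2
  have g3 : f p - f (p + (t⁻¹ : ℝ) • (q - p)) = (f p - f q) + (f q - f (p + (t⁻¹ : ℝ) • (q - p))) := by
    abel
  rw [g3] at g1
  have g4 := norm_add_le (f p - f q) (f q - f (p + (t⁻¹ : ℝ) • (q - p)))
  rw [← ht]
  linarith

/-- All distances are preserved. -/
theorem eq_all {f : E → V} (h : ∀ p q : E, ‖p - q‖ ≤ 1 → ‖f p - f q‖ = ‖p - q‖) :
    ∀ p q : E, ‖f p - f q‖ = ‖p - q‖ := by
  have step : ∀ x e : E, ‖e‖ ≤ 1 / 2 → f (x + e + e) - f (x + e) = f (x + e) - f x := by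
    intro x e he
    have n1 : ‖f (x + e) - f x‖ = ‖e‖ := by
      rw [h _ _ (by rw [add_sub_cancel_left]; linarith), add_sub_cancel_left]
    have n2 : ‖f (x + e + e) - f (x + e)‖ = ‖e‖ := by
      rw [h _ _ (by rw [add_sub_cancel_left]; linarith), add_sub_cancel_left]
    have e3 : x + e + e - x = (2 : ℝ) • e := by module
    have e4 : ‖x + e + e - x‖ = 2 * ‖e‖ := by rw [e3, norm_smul]; norm_num
    have n3 : ‖f (x + e + e) - f x‖ = 2 * ‖e‖ := by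
      rw [h _ _ (by rw [e4]; linarith), e4]
    have par := parallelogram_law_with_norm ℝ (f (x + e + e) - f (x + e)) (f (x + e) - f x)
    rw [sub_add_sub_cancel, n1, n2, n3] at par
    have h5 : ‖(f (x + e + e) - f (x + e)) - (f (x + e) - f x)‖ * 
      ‖(f (x + e + e) - f (x + e)) - (f (x + e) - f x)‖ = 0 := by linarith
    exact sub_eq_zero.mp (norm_eq_zero.mp (mul_self_eq_zero.mp h5))
  intro p q
  obtain ⟨n, hn⟩ := exists_nat_gt (2 * ‖p - q‖)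
  have hn0 : (0 : ℝ) < n := lt_of_le_of_lt (by positivity) hn
  obtain ⟨e, he⟩ : ∃ e : E, e = ((n : ℝ)⁻¹) • (q - p) := ⟨_, rfl⟩
  have ne : ‖e‖ = (n : ℝ)⁻¹ * ‖p - q‖ := by
    rw [he, norm_smul, norm_sub_rev, Real.norm_eq_abs, abs_of_pos (inv_pos.mpr hn0)]
  have ne2 : ‖e‖ ≤ 1 / 2 := by
    rw [ne, inv_mul_le_iff₀ hn0]; linarith
  have ind : ∀ k : ℕ, f (p + ((k : ℝ) + 1) • e) - f (p + (k : ℝ) • e) = f (p + e) - f p := by
    intro k
    induction k with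
    | zero => simp
    | succ k ih =>
      have h6 := step (p + (k : ℝ) • e) e ne2
      have e7 : p + (k : ℝ) • e + e = p + ((k : ℝ) + 1) • e := by module
      have e8 : p + ((k : ℝ) + 1) • e + e = p + (((k + 1 : ℕ) : ℝ) + 1) • e := by
        push_cast; module
      rw [e7, e8] at h6
      rw [show (((k + 1 : ℕ) : ℝ)) = (k : ℝ) + 1 by push_cast; ring] at h6 ⊢
      rw [h6, ih]
  have tot : ∀ k : ℕ, f (p + (k : ℝ) • e) - f p = (k : ℝ) • (f (p + e) - f p) := by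
    intro k
    induction k with
    | zero => simp
    | succ k ih =>
      have h7 := ind k
      rw [show (((k + 1 : ℕ) : ℝ)) = (k : ℝ) + 1 by push_cast; ring]
      have h8 : f (p + ((k : ℝ) + 1) • e) - f p =
          (f (p + ((k : ℝ) + 1) • e) - f (p + (k : ℝ) • e)) + (f (p + (k : ℝ) • e) - f p) := by abel
      rw [h8, h7, ih]
      module
  have hq : p + (n : ℝ) • e = q := by
    rw [he, smul_smul, mul_inv_cancel₀ hn0.ne', one_smul]; abel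
  have h9 := tot n
  rw [hq] at h9
  rw [norm_sub_rev, h9, norm_smul, h _ _ (by rw [add_sub_cancel_left]; linarith),
    add_sub_cancel_left, ne, Real.norm_eq_abs, abs_of_pos hn0, ← mul_assoc,
    mul_inv_cancel₀ hn0.ne', one_mul]

/-- **Main theorem.** Every unit distance preserving map from a twelve-dimensional Euclidean space
to a Euclidean space of dimension at most thirteen is an isometry. -/
theorem isometry_of_unit [FiniteDimensional ℝ E] (hE : finrank ℝ E = 12) [FiniteDimensional ℝ V]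
    (hV : finrank ℝ V ≤ 13) {f : E → V} (hf : ∀ x y, ‖x - y‖ = 1 → ‖f x - f y‖ = 1) :
    ∀ p q : E, ‖f p - f q‖ = ‖p - q‖ :=
  eq_all (eq_le_one hf (fun _ _ h => main_le hE hV hf h))

end Pool.Agent.Helper855.Bq
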