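import Pool.Agent.Helper855.BqBlock

/-!
Of two orthogonal pairs of points on a sphere of radius `1/√2` one satisfies the dichotomy.
-/

set_option autoImplicit false

namespace Pool.Agent.Helper855.Bq

open Module

variable {E V : Type*} [NormedAddCommGroup E] [InnerProductSpace ℝ E]
  [NormedAddCommGroup V] [InnerProductSpace ℝ V]

lemma span_orth {a b c a' b' c' : E} (h1 : inner ℝ a a' = (0 : ℝ)) (h2 : inner ℝ a b' = (0 : ℝ))
    (h3 : inner ℝ a c' = (0 : ℝ)) (h4 : inner ℝ b a' = (0 : ℝ)) (h5 : inner ℝ b b' = (0 : ℝ))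
    (h6 : inner ℝ b c' = (0 : ℝ)) (h7 : inner ℝ c a' = (0 : ℝ)) (h8 : inner ℝ c b' = (0 : ℝ))
    (h9 : inner ℝ c c' = (0 : ℝ)) :
    ∀ u ∈ Submodule.span ℝ {a, b, c}, ∀ v ∈ Submodule.span ℝ {a', b', c'},
      inner ℝ u v = (0 : ℝ) := by
  have : Submodule.span ℝ {a, b, c} ⟂ Submodule.span ℝ {a', b', c'} := by
    rw [Submodule.isOrtho_span]
    intro u hu v hv
    simp only [Set.mem_insert_iff, Set.mem_singleton_iff] at hu hv
    rcases hu with rfl | rfl | rfl <;> rcases hv with rfl | rfl | rfl <;> assumption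
  exact Submodule.isOrtho_iff_inner_eq.mp this

/-- The dichotomy for two pairs in different blocks. -/
theorem two_blocks [FiniteDimensional ℝ V] (hV : finrank ℝ V ≤ 13) {F : E → V}
    (hF : ∀ u v, ‖u‖ = 1 → ‖v‖ = 1 → inner ℝ u v = (0 : ℝ) → ‖F u - F v‖ = 1)
    (e : Fin 4 → Fin 3 → E) (he1 : ∀ i k, ‖e i k‖ = 1)
    (he2 : ∀ i k j l, (i, k) ≠ (j, l) → inner ℝ (e i k) (e j l) = (0 : ℝ))
    {α β α' β' : ℝ} (h : α ^ 2 + β ^ 2 = 1) (h' : α' ^ 2 + β' ^ 2 = 1) :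
    (‖F (α • e 0 0 + β • e 0 1) - F (e 0 0)‖ ^ 2 = 1 - α ∨
      ‖F (α • e 0 0 + β • e 0 1) - F (e 0 0)‖ ^ 2 = 1 + α) ∨
    (‖F (α' • e 1 0 + β' • e 1 1) - F (e 1 0)‖ ^ 2 = 1 - α' ∨
      ‖F (α' • e 1 0 + β' • e 1 1) - F (e 1 0)‖ ^ 2 = 1 + α') := by
  set A : Fin 4 → Set V := fun i => img F (e i 0) (e i 1) (e i 2) with hA
  have hF' : ∀ i, ∀ u ∈ Submodule.span ℝ {e i 0, e i 1, e i 2},
      ∀ v ∈ Submodule.span ℝ {e i 0, e i 1, e i 2},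
      ‖u‖ = 1 → ‖v‖ = 1 → inner ℝ u v = (0 : ℝ) → ‖F u - F v‖ = 1 :=
    fun i u _ v _ hu hv huv => hF u v hu hv huv
  have o : ∀ i k l, k ≠ l → inner ℝ (e i k) (e i l) = (0 : ℝ) := by
    intro i k l hkl
    exact he2 i k i l (by simpa using hkl)
  have H : Fam A :=
    { ne := fun i => ⟨F (e i 0), e i 0, Submodule.subset_span (by simp), he1 i 0, rfl⟩
      unit := by
        rintro i j hij x ⟨u, hu, hu1, rfl⟩ y ⟨v, hv, hv1, rfl⟩
        refine hF u v hu1 hv1 (span_orth ?_ ?_ ?_ ?_ ?_ ?_ ?_ ?_ ?_ u hu v hv) <;>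
          exact he2 _ _ _ _ (by simp [hij]) }
  choose c hc1 hc2 using fun i => H.exists_center i
  choose r hr using fun i => H.exists_radius hc1 hc2 i
  have h3 : ∀ i, 3 ≤ finrank ℝ (dir (A i)) := by
    intro i
    obtain ⟨j, hj⟩ : ∃ j : Fin 4, i ≠ j := by
      by_cases h : i = 0
      · exact ⟨1, by rw [h]; decide⟩
      · exact ⟨0, h⟩
    obtain ⟨y, hy⟩ := H.ne j
    obtain ⟨x, hx⟩ := H.ne i
    refine three_le (he1 i 0) (he1 i 1) (he1 i 2) (o i 0 1 (by decide)) (o i 0 2 (by decide))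
      (o i 1 2 (by decide)) (hF' i) (c := c i) (y := y) (hc1 i) (hr i) (hc2 i j hj y hy) ?_
    rw [← hr i x hx]
    exact H.radius hc1 hc2 hj hx hy
  rcases H.dichotomy hV hc1 hc2 hr h3 with ⟨f, hr2⟩ | ⟨f, hr2⟩
  · left
    refine block_dist (he1 0 0) (he1 0 1) (he1 0 2) (o 0 0 1 (by decide)) (o 0 0 2 (by decide))
      (o 0 1 2 (by decide)) (dir (A 0)) f (c := c 0) ?_ (hF' 0) h
    intro u hu hu1
    exact ⟨hc1 0 _ ⟨u, hu, hu1, rfl⟩, by rw [hr 0 _ ⟨u, hu, hu1, rfl⟩, hr2]⟩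
  · right
    refine block_dist (he1 1 0) (he1 1 1) (he1 1 2) (o 1 0 1 (by decide)) (o 1 0 2 (by decide))
      (o 1 1 2 (by decide)) (dir (A 1)) f (c := c 1) ?_ (hF' 1) h'
    intro u hu hu1
    exact ⟨hc1 1 _ ⟨u, hu, hu1, rfl⟩, by rw [hr 1 _ ⟨u, hu, hu1, rfl⟩, hr2]⟩

end Pool.Agent.Helper855.Bq
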