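import Mathlib

/-!
A map of three-space that preserves orthogonality preserves angles up to sign.
-/

set_option autoImplicit false

namespace Pool.Agent.Helper855.Bq

/-- `(G1, G2, G3)` maps nonzero vectors to nonzero vectors, preserves orthogonality and keeps the
three coordinate axes. -/
structure OP (G1 G2 G3 : ℝ → ℝ → ℝ → ℝ) : Prop where
  ne : ∀ a b c, (a ≠ 0 ∨ b ≠ 0 ∨ c ≠ 0) → ¬ (G1 a b c = 0 ∧ G2 a b c = 0 ∧ G3 a b c = 0)
  orth : ∀ a b c a' b' c', (a ≠ 0 ∨ b ≠ 0 ∨ c ≠ 0) → (a' ≠ 0 ∨ b' ≠ 0 ∨ c' ≠ 0) →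
    a * a' + b * b' + c * c' = 0 →
    G1 a b c * G1 a' b' c' + G2 a b c * G2 a' b' c' + G3 a b c * G3 a' b' c' = 0
  e1 : G2 1 0 0 = 0 ∧ G3 1 0 0 = 0
  e2 : G1 0 1 0 = 0 ∧ G3 0 1 0 = 0
  e3 : G1 0 0 1 = 0 ∧ G2 0 0 1 = 0

/-- Two planar vectors orthogonal to the same nonzero planar vector are parallel. -/
lemma par {u1 u2 w1 w2 h1 h2 : ℝ} (hw : ¬ (w1 = 0 ∧ w2 = 0)) (h : u1 * w1 + u2 * w2 = 0)
    (h' : h1 * w1 + h2 * w2 = 0) : h1 * u2 = h2 * u1 := by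
  by_cases hw1 : w1 = 0
  · have hw2 : w2 ≠ 0 := fun h0 => hw ⟨hw1, h0⟩
    apply mul_left_cancel₀ hw2
    linear_combination h1 * h - u1 * h'
  · apply mul_left_cancel₀ hw1
    linear_combination -h2 * h + u2 * h'

/-- A planar vector orthogonal to a nonzero planar vector is a multiple of its rotation. -/
lemma rot {a b a' b' : ℝ} (hab : ¬ (a = 0 ∧ b = 0)) (h : a * a' + b * b' = 0) :
    ∃ l : ℝ, a' = l * b ∧ b' = -(l * a) := by
  by_cases ha : a = 0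
  · have hb : b ≠ 0 := fun h0 => hab ⟨ha, h0⟩
    refine ⟨a' / b, by field_simp, ?_⟩
    subst ha
    have : b' = 0 := by
      apply mul_left_cancel₀ hb
      linear_combination h
    simp [this]
  · refine ⟨-b' / a, ?_, by field_simp⟩
    field_simp
    linear_combination h

namespace OP

variable {G1 G2 G3 : ℝ → ℝ → ℝ → ℝ} (H : OP G1 G2 G3)

include H

lemma z3 {a b : ℝ} (h : a ≠ 0 ∨ b ≠ 0) : G3 a b 0 = 0 := by
  have h1 := H.orth a b 0 0 0 1 (by tauto) (by simp) (by ring)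
  rw [H.e3.1, H.e3.2] at h1
  have h2 : G3 0 0 1 ≠ 0 := fun h0 => H.ne 0 0 1 (by simp) ⟨H.e3.1, H.e3.2, h0⟩
  have h3 : G3 a b 0 * G3 0 0 1 = 0 := by linear_combination h1
  exact (mul_eq_zero.mp h3).resolve_right h2

lemma z2 {a c : ℝ} (h : a ≠ 0 ∨ c ≠ 0) : G2 a 0 c = 0 := by
  have h1 := H.orth a 0 c 0 1 0 (by tauto) (by simp) (by ring)
  rw [H.e2.1, H.e2.2] at h1
  have h2 : G2 0 1 0 ≠ 0 := fun h0 => H.ne 0 1 0 (by simp) ⟨H.e2.1, h0, H.e2.2⟩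
  have h3 : G2 a 0 c * G2 0 1 0 = 0 := by linear_combination h1
  exact (mul_eq_zero.mp h3).resolve_right h2

lemma z1 {b c : ℝ} (h : b ≠ 0 ∨ c ≠ 0) : G1 0 b c = 0 := by
  have h1 := H.orth 0 b c 1 0 0 (by tauto) (by simp) (by ring)
  rw [H.e1.1, H.e1.2] at h1
  have h2 : G1 1 0 0 ≠ 0 := fun h0 => H.ne 1 0 0 (by simp) ⟨h0, H.e1.1, H.e1.2⟩
  have h3 : G1 0 b c * G1 1 0 0 = 0 := by linear_combination h1
  exact (mul_eq_zero.mp h3).resolve_right h2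

lemma n12 {a b : ℝ} (h : a ≠ 0 ∨ b ≠ 0) : ¬ (G1 a b 0 = 0 ∧ G2 a b 0 = 0) :=
  fun h0 => H.ne a b 0 (by tauto) ⟨h0.1, h0.2, H.z3 h⟩

lemma n13 {a c : ℝ} (h : a ≠ 0 ∨ c ≠ 0) : ¬ (G1 a 0 c = 0 ∧ G3 a 0 c = 0) :=
  fun h0 => H.ne a 0 c (by tauto) ⟨h0.1, H.z2 h, h0.2⟩

lemma n23 {b c : ℝ} (h : b ≠ 0 ∨ c ≠ 0) : ¬ (G2 0 b c = 0 ∧ G3 0 b c = 0) :=
  fun h0 => H.ne 0 b c (by tauto) ⟨H.z1 h, h0.1, h0.2⟩

lemma o12 {a b a' b' : ℝ} (h : a ≠ 0 ∨ b ≠ 0) (h' : a' ≠ 0 ∨ b' ≠ 0) (ho : a * a' + b * b' = 0) :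
    G1 a b 0 * G1 a' b' 0 + G2 a b 0 * G2 a' b' 0 = 0 := by
  have h1 := H.orth a b 0 a' b' 0 (by tauto) (by tauto) (by linear_combination ho)
  rw [H.z3 h] at h1
  linear_combination h1

lemma o13 {a c a' c' : ℝ} (h : a ≠ 0 ∨ c ≠ 0) (h' : a' ≠ 0 ∨ c' ≠ 0) (ho : a * a' + c * c' = 0) :
    G1 a 0 c * G1 a' 0 c' + G3 a 0 c * G3 a' 0 c' = 0 := by
  have h1 := H.orth a 0 c a' 0 c' (by tauto) (by tauto) (by linear_combination ho)
  rw [H.z2 h] at h1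
  linear_combination h1

lemma o23 {b c b' c' : ℝ} (h : b ≠ 0 ∨ c ≠ 0) (h' : b' ≠ 0 ∨ c' ≠ 0) (ho : b * b' + c * c' = 0) :
    G2 0 b c * G2 0 b' c' + G3 0 b c * G3 0 b' c' = 0 := by
  have h1 := H.orth 0 b c 0 b' c' (by tauto) (by tauto) (by linear_combination ho)
  rw [H.z1 h] at h1
  linear_combination h1

lemma R12 {a b : ℝ} (c : ℝ) (h : a ≠ 0 ∨ b ≠ 0) :
    G1 a b c * G2 a b 0 = G2 a b c * G1 a b 0 := by
  have h' : -b ≠ 0 ∨ a ≠ 0 := by simpa using h.symm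
  refine par (H.n12 h') (H.o12 h h' (by ring)) ?_
  have h1 := H.orth a b c (-b) a 0 (by tauto) (by tauto) (by ring)
  rw [H.z3 h'] at h1
  linear_combination h1

lemma R13 {a c : ℝ} (b : ℝ) (h : a ≠ 0 ∨ c ≠ 0) :
    G1 a b c * G3 a 0 c = G3 a b c * G1 a 0 c := by
  have h' : -c ≠ 0 ∨ a ≠ 0 := by simpa using h.symm
  refine par (H.n13 h') (H.o13 h h' (by ring)) ?_
  have h1 := H.orth a b c (-c) 0 a (by tauto) (by tauto) (by ring)
  rw [H.z2 h'] at h1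
  linear_combination h1

lemma R23 {b c : ℝ} (a : ℝ) (h : b ≠ 0 ∨ c ≠ 0) :
    G2 a b c * G3 0 b c = G3 a b c * G2 0 b c := by
  have h' : -c ≠ 0 ∨ b ≠ 0 := by simpa using h.symm
  refine par (H.n23 h') (H.o23 h h' (by ring)) ?_
  have h1 := H.orth a b c 0 (-c) b (by tauto) (by tauto) (by ring)
  rw [H.z1 h'] at h1
  linear_combination h1

/-- The determinant condition for three parallelism relations. -/
lemma det_cond {a b : ℝ} (c : ℝ) (ha : a ≠ 0) (hb : b ≠ 0) :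
    G2 a b 0 * G1 a 0 c * G3 0 b c = G1 a b 0 * G3 a 0 c * G2 0 b c := by
  have r12 := H.R12 c (Or.inl ha : a ≠ 0 ∨ b ≠ 0)
  have r13 := H.R13 b (Or.inl ha : a ≠ 0 ∨ c ≠ 0)
  have r23 := H.R23 a (Or.inl hb : b ≠ 0 ∨ c ≠ 0)
  have hn := H.ne a b c (Or.inl ha)
  generalize G1 a b c = h1 at *
  generalize G2 a b c = h2 at *
  generalize G3 a b c = h3 at *
  generalize G1 a b 0 = p at *
  generalize G2 a b 0 = q at *
  generalize G1 a 0 c = r at *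
  generalize G3 a 0 c = s at *
  generalize G2 0 b c = u at *
  generalize G3 0 b c = v at *
  by_contra hne
  have hd : q * r * v - p * s * u ≠ 0 := sub_ne_zero.mpr hne
  apply hn
  refine ⟨?_, ?_, ?_⟩
  · apply (mul_eq_zero.mp (_ : (q * r * v - p * s * u) * h1 = 0)).resolve_left hd
    linear_combination (r * v) * r12 - (p * u) * r13 + (p * r) * r23
  · apply (mul_eq_zero.mp (_ : (q * r * v - p * s * u) * h2 = 0)).resolve_left hd
    linear_combination (s * u) * r12 - (q * u) * r13 + (q * r) * r23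
  · apply (mul_eq_zero.mp (_ : (q * r * v - p * s * u) * h3 = 0)).resolve_left hd
    linear_combination (s * v) * r12 - (q * v) * r13 + (p * s) * r23

/-- The Yu-Oh computation. -/
lemma yuoh : G1 1 1 0 ^ 2 = G2 1 1 0 ^ 2 ∧ G1 1 0 1 ^ 2 = G3 1 0 1 ^ 2 := by
  have d0 := H.det_cond 1 (one_ne_zero) (one_ne_zero)
  have d1 := H.det_cond (-1) (one_ne_zero) (one_ne_zero)
  have d2 := H.det_cond 1 (one_ne_zero) (neg_ne_zero.mpr one_ne_zero)
  have d3 := H.det_cond 1 (neg_ne_zero.mpr one_ne_zero) (one_ne_zero)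
  have n1 := H.n12 (Or.inl one_ne_zero : (1 : ℝ) ≠ 0 ∨ (1 : ℝ) ≠ 0)
  have n2 := H.n13 (Or.inl one_ne_zero : (1 : ℝ) ≠ 0 ∨ (1 : ℝ) ≠ 0)
  have n3 := H.n23 (Or.inl one_ne_zero : (1 : ℝ) ≠ 0 ∨ (1 : ℝ) ≠ 0)
  have m1 := H.n12 (Or.inl one_ne_zero : (1 : ℝ) ≠ 0 ∨ (-1 : ℝ) ≠ 0)
  have m1' := H.n12 (Or.inr one_ne_zero : (-1 : ℝ) ≠ 0 ∨ (1 : ℝ) ≠ 0)
  have m2 := H.n13 (Or.inl one_ne_zero : (1 : ℝ) ≠ 0 ∨ (-1 : ℝ) ≠ 0)
  have m2' := H.n13 (Or.inr one_ne_zero : (-1 : ℝ) ≠ 0 ∨ (1 : ℝ) ≠ 0)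
  have m3 := H.n23 (Or.inl one_ne_zero : (1 : ℝ) ≠ 0 ∨ (-1 : ℝ) ≠ 0)
  have m3' := H.n23 (Or.inr one_ne_zero : (-1 : ℝ) ≠ 0 ∨ (1 : ℝ) ≠ 0)
  obtain ⟨l1, x1, y1⟩ := rot n1 (H.o12 (a := 1) (b := 1) (a' := 1) (b' := -1) (by simp) (by simp)
    (by norm_num))
  obtain ⟨l1', x1', y1'⟩ := rot n1 (H.o12 (a := 1) (b := 1) (a' := -1) (b' := 1) (by simp) (by simp)
    (by norm_num))
  obtain ⟨l2, x2, y2⟩ := rot n2 (H.o13 (a := 1) (c := 1) (a' := 1) (c' := -1) (by simp) (by simp)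
    (by norm_num))
  obtain ⟨l2', x2', y2'⟩ := rot n2 (H.o13 (a := 1) (c := 1) (a' := -1) (c' := 1) (by simp) (by simp)
    (by norm_num))
  obtain ⟨l3, x3, y3⟩ := rot n3 (H.o23 (b := 1) (c := 1) (b' := 1) (c' := -1) (by simp) (by simp)
    (by norm_num))
  obtain ⟨l3', x3', y3'⟩ := rot n3 (H.o23 (b := 1) (c := 1) (b' := -1) (c' := 1) (by simp) (by simp)
    (by norm_num))
  rw [x1, y1] at m1
  rw [x1', y1'] at m1'
  rw [x2, y2] at m2
  rw [x2', y2'] at m2'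
  rw [x3, y3] at m3
  rw [x3', y3'] at m3'
  rw [x2, y2, x3, y3] at d1
  rw [x1, y1, x3', y3'] at d2
  rw [x1', y1', x2', y2'] at d3
  generalize G1 1 1 0 = a at *
  generalize G2 1 1 0 = b at *
  generalize G1 1 0 1 = c at *
  generalize G3 1 0 1 = d at *
  generalize G2 0 1 1 = e at *
  generalize G3 0 1 1 = f at *
  have k1 : l1 ≠ 0 := fun h => m1 (by simp [h])
  have k1' : l1' ≠ 0 := fun h => m1' (by simp [h])
  have k2 : l2 ≠ 0 := fun h => m2 (by simp [h])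
  have k2' : l2' ≠ 0 := fun h => m2' (by simp [h])
  have k3 : l3 ≠ 0 := fun h => m3 (by simp [h])
  have k3' : l3' ≠ 0 := fun h => m3' (by simp [h])
  have E1 : b * c * f = a * d * e := d0
  have E4 : b * d * e = a * c * f := by
    apply mul_left_cancel₀ (mul_ne_zero k2 k3)
    linear_combination -d1
  have E3 : a * c * e = b * d * f := by
    apply mul_left_cancel₀ (mul_ne_zero k1 k3')
    linear_combination d2
  have E2 : a * d * f = b * c * e := by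
    apply mul_left_cancel₀ (mul_ne_zero k1' k2')
    linear_combination -d3
  constructor
  · by_contra hne
    have hd : a ^ 2 - b ^ 2 ≠ 0 := sub_ne_zero.mpr hne
    have z : ∀ t : ℝ, (a ^ 2 - b ^ 2) * t = 0 → t = 0 := fun t ht =>
      (mul_eq_zero.mp ht).resolve_left hd
    have z1 := z (c * f) (by linear_combination (-b) * E1 - a * E4)
    have z2 := z (d * f) (by linear_combination a * E2 + b * E3)
    have z3 := z (c * e) (by linear_combination a * E3 + b * E2)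
    have z4 := z (d * e) (by linear_combination (-a) * E1 - b * E4)
    rcases mul_eq_zero.mp z1 with h | h
    · subst h
      rcases mul_eq_zero.mp z2 with h | h
      · exact n2 ⟨rfl, h⟩
      · subst h
        rcases mul_eq_zero.mp z4 with h | h
        · exact n2 ⟨rfl, h⟩
        · exact n3 ⟨h, rfl⟩
    · subst h
      have he : e ≠ 0 := fun h => n3 ⟨h, rfl⟩
      exact n2 ⟨(mul_eq_zero.mp z3).resolve_right he, (mul_eq_zero.mp z4).resolve_right he⟩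
  · by_contra hne
    have hd : c ^ 2 - d ^ 2 ≠ 0 := sub_ne_zero.mpr hne
    have z : ∀ t : ℝ, (c ^ 2 - d ^ 2) * t = 0 → t = 0 := fun t ht =>
      (mul_eq_zero.mp ht).resolve_left hd
    have z1 := z (a * e) (by linear_combination d * E1 + c * E3)
    have z2 := z (b * f) (by linear_combination c * E1 + d * E3)
    have z3 := z (b * e) (by linear_combination (-c) * E2 - d * E4)
    have z4 := z (a * f) (by linear_combination (-d) * E2 - c * E4)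
    rcases mul_eq_zero.mp z1 with h | h
    · subst h
      have hb : b ≠ 0 := fun h => n1 ⟨rfl, h⟩
      exact n3 ⟨(mul_eq_zero.mp z3).resolve_left hb, (mul_eq_zero.mp z2).resolve_left hb⟩
    · subst h
      have hf : f ≠ 0 := fun h => n3 ⟨rfl, h⟩
      exact n1 ⟨(mul_eq_zero.mp z4).resolve_right hf, (mul_eq_zero.mp z2).resolve_right hf⟩

end OP

end Pool.Agent.Helper855.Bq
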