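import Pool.Agent.Helper855.BqRigid

/-!
A map of three-space that preserves orthogonality preserves angles up to sign: the ring
homomorphism argument.
-/

set_option autoImplicit false

namespace Pool.Agent.Helper855.Bq

namespace OP

variable {G1 G2 G3 : ℝ → ℝ → ℝ → ℝ}

/-- The normalised situation. -/
structure Nm (G1 G2 G3 : ℝ → ℝ → ℝ → ℝ) : Prop extends OP G1 G2 G3 where
  n2 : G1 1 1 0 = G2 1 1 0
  n3 : G1 1 0 1 = G3 1 0 1

namespace Nm

variable (H : Nm G1 G2 G3)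

include H

lemma c12 : G2 1 1 0 ≠ 0 := fun h => H.n12 (Or.inl one_ne_zero) ⟨by rw [H.n2, h], h⟩

lemma c13 : G3 1 0 1 ≠ 0 := fun h => H.n13 (Or.inl one_ne_zero) ⟨by rw [H.n3, h], h⟩

lemma n23' : G2 0 1 1 = G3 0 1 1 := by
  have r12 := H.R12 1 (Or.inl one_ne_zero : (1 : ℝ) ≠ 0 ∨ (1 : ℝ) ≠ 0)
  have r13 := H.R13 1 (Or.inl one_ne_zero : (1 : ℝ) ≠ 0 ∨ (1 : ℝ) ≠ 0)
  have r23 := H.R23 1 (Or.inl one_ne_zero : (1 : ℝ) ≠ 0 ∨ (1 : ℝ) ≠ 0)
  have hn := H.ne 1 1 1 (Or.inl one_ne_zero)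
  rw [H.n2] at r12
  rw [H.n3] at r13
  have e1 := mul_right_cancel₀ H.c12 r12
  have e2 := mul_right_cancel₀ H.c13 r13
  have h1 : G1 1 1 1 ≠ 0 := fun h => hn ⟨h, by rw [← e1, h], by rw [← e2, h]⟩
  rw [← e1, ← e2] at r23
  exact (mul_left_cancel₀ h1 r23).symm

lemma c23 : G3 0 1 1 ≠ 0 := fun h => H.n23 (Or.inl one_ne_zero) ⟨by rw [H.n23', h], h⟩

lemma p23 {a b : ℝ} (h : a ≠ 0 ∨ b ≠ 0) : G2 a b (-b) + G3 a b (-b) = 0 := by
  have h1 := H.orth a b (-b) 0 1 1 (by tauto) (by simp) (by ring)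
  rw [H.z1 (Or.inl one_ne_zero), H.n23'] at h1
  apply mul_right_cancel₀ H.c23
  linear_combination h1

lemma p13 {a b : ℝ} (h : a ≠ 0 ∨ b ≠ 0) : G1 a b (-a) + G3 a b (-a) = 0 := by
  have h1 := H.orth a b (-a) 1 0 1 (by tauto) (by simp) (by ring)
  rw [H.z2 (Or.inl one_ne_zero), H.n3] at h1
  apply mul_right_cancel₀ H.c13
  linear_combination h1

lemma q23 {a b : ℝ} (h : a ≠ 0 ∨ b ≠ 0) : G2 a b b = G3 a b b := by
  have h1 := H.orth a b b 0 1 (-1) (by tauto) (by simp) (by ring)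
  rw [H.z1 (Or.inl one_ne_zero)] at h1
  have h2 := H.p23 (a := 0) (b := 1) (by simp)
  have h3 : G2 0 1 (-1) ≠ 0 := by
    intro h0
    rw [h0, zero_add] at h2
    exact H.n23 (b := 1) (c := -1) (by simp) ⟨h0, h2⟩
  apply mul_right_cancel₀ h3
  linear_combination h1 - G3 a b b * h2

/-- The same slope in the first two coordinate planes. -/
lemma teq (x : ℝ) : G1 1 x 0 * G3 1 0 x = G2 1 x 0 * G1 1 0 x := by
  have r12 := H.R12 x (Or.inl one_ne_zero : (1 : ℝ) ≠ 0 ∨ x ≠ 0)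
  have r13 := H.R13 x (Or.inl one_ne_zero : (1 : ℝ) ≠ 0 ∨ x ≠ 0)
  have q := H.q23 (Or.inl one_ne_zero : (1 : ℝ) ≠ 0 ∨ x ≠ 0)
  have hn := H.ne 1 x x (Or.inl one_ne_zero)
  rw [← q] at r13 hn
  by_cases h1 : G1 1 x x = 0
  · have h2 : G2 1 x x ≠ 0 := fun h => hn ⟨h1, h, h⟩
    apply mul_left_cancel₀ h2
    linear_combination (-G3 1 0 x) * r12 + G2 1 x 0 * r13
  · apply mul_left_cancel₀ h1
    linear_combination (-G1 1 0 x) * r12 + G1 1 x 0 * r13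

lemma tneg (x : ℝ) : G1 1 x 0 * G3 1 0 (-x) + G2 1 x 0 * G1 1 0 (-x) = 0 := by
  have r12 := H.R12 (-x) (Or.inl one_ne_zero : (1 : ℝ) ≠ 0 ∨ x ≠ 0)
  have r13 := H.R13 x (Or.inl one_ne_zero : (1 : ℝ) ≠ 0 ∨ -x ≠ 0)
  have q := H.p23 (Or.inl one_ne_zero : (1 : ℝ) ≠ 0 ∨ x ≠ 0)
  have hn := H.ne 1 x (-x) (Or.inl one_ne_zero)
  have q' : G3 1 x (-x) = -G2 1 x (-x) := by linear_combination q
  rw [q'] at r13 hn
  by_cases h1 : G1 1 x (-x) = 0
  · have h2 : G2 1 x (-x) ≠ 0 := fun h => hn ⟨h1, h, by rw [h, neg_zero]⟩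
    apply mul_left_cancel₀ h2
    linear_combination (-G3 1 0 (-x)) * r12 + G2 1 x 0 * r13
  · apply mul_left_cancel₀ h1
    linear_combination G1 1 0 (-x) * r12 + G1 1 x 0 * r13

lemma tsucc {x : ℝ} (hx : G1 1 x 0 ≠ 0) : G1 1 (x + 1) 0 ≠ 0 ∧
    G2 1 (x + 1) 0 * G1 1 x 0 = G1 1 (x + 1) 0 * (G1 1 x 0 + G2 1 x 0) := by
  have r12 := H.R12 (-1) (Or.inl one_ne_zero : (1 : ℝ) ≠ 0 ∨ x ≠ 0)
  have q := H.p13 (Or.inl one_ne_zero : (1 : ℝ) ≠ 0 ∨ x ≠ 0)
  have hn := H.ne 1 x (-1) (Or.inl one_ne_zero)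
  have hh : G1 1 x (-1) ≠ 0 := by
    intro h0
    apply hn
    have h2 : G2 1 x (-1) * G1 1 x 0 = 0 := by linear_combination -r12 + G2 1 x 0 * h0
    exact ⟨h0, (mul_eq_zero.mp h2).resolve_right hx, by linear_combination q - h0⟩
  have p := H.p23 (Or.inr (neg_ne_zero.mpr one_ne_zero) : x + 1 ≠ 0 ∨ (-1 : ℝ) ≠ 0)
  have hk := H.ne (x + 1) (-1) (-(-1)) (by simp)
  have o1 := H.orth (x + 1) (-1) (-(-1)) 1 x (-1) (by simp) (by simp) (by ring)
  have o2 := H.orth (x + 1) (-1) (-(-1)) 1 (x + 1) 0 (by simp) (by simp) (by ring)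
  rw [H.z3 (Or.inl one_ne_zero)] at o2
  generalize G1 (x + 1) (-1) (-(-1)) = k1 at *
  generalize G2 (x + 1) (-1) (-(-1)) = k2 at *
  generalize G3 (x + 1) (-1) (-(-1)) = k3 at *
  have n1 := H.n12 (Or.inl one_ne_zero : (1 : ℝ) ≠ 0 ∨ x + 1 ≠ 0)
  have hk3 : k3 = -k2 := by linear_combination p
  subst hk3
  have rel : k1 * G1 1 x 0 + k2 * (G1 1 x 0 + G2 1 x 0) = 0 := by
    apply mul_left_cancel₀ hh
    linear_combination G1 1 x 0 * o1 + k2 * r12 + k2 * G1 1 x 0 * q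
  have hk2 : k2 ≠ 0 := by
    intro h0
    subst h0
    have : k1 * G1 1 x 0 = 0 := by linear_combination rel
    exact hk ⟨(mul_eq_zero.mp this).resolve_right hx, rfl, by simp⟩
  have main : G2 1 (x + 1) 0 * G1 1 x 0 = G1 1 (x + 1) 0 * (G1 1 x 0 + G2 1 x 0) := by
    apply mul_left_cancel₀ hk2
    linear_combination G1 1 x 0 * o2 - G1 1 (x + 1) 0 * rel
  refine ⟨fun h0 => n1 ⟨h0, ?_⟩, main⟩
  rw [h0, zero_mul] at main
  exact (mul_eq_zero.mp main).resolve_right hx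

lemma nat_ne (n : ℕ) : G1 1 (n : ℝ) 0 ≠ 0 := by
  induction n with
  | zero =>
    intro h
    exact H.ne 1 0 0 (by simp) ⟨by simpa using h, H.e1.1, H.e1.2⟩
  | succ n ih =>
    have := (H.tsucc ih).1
    push_cast
    exact this

lemma neg_ne {x : ℝ} (hx : G1 1 x 0 ≠ 0) : G1 1 (-x) 0 ≠ 0 := by
  intro h0
  have h1 := H.tneg x
  have h2 := H.teq (-x)
  rw [h0, zero_mul] at h2
  have n1 := H.n12 (Or.inl one_ne_zero : (1 : ℝ) ≠ 0 ∨ -x ≠ 0)
  have n2 := H.n13 (Or.inl one_ne_zero : (1 : ℝ) ≠ 0 ∨ -x ≠ 0)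
  have h3 : G2 1 (-x) 0 ≠ 0 := fun h => n1 ⟨h0, h⟩
  have h4 : G1 1 0 (-x) = 0 := (mul_eq_zero.mp h2.symm).resolve_left h3
  rw [h4, mul_zero, add_zero] at h1
  exact n2 ⟨h4, (mul_eq_zero.mp h1).resolve_left hx⟩

lemma int_ne (n : ℤ) : G1 1 (n : ℝ) 0 ≠ 0 := by
  obtain ⟨m, rfl | rfl⟩ := n.eq_nat_or_neg
  · exact_mod_cast H.nat_ne m
  · push_cast
    exact H.neg_ne (H.nat_ne m)

lemma tzero {z : ℝ} (hz : z ≠ 0) : G2 1 z 0 ≠ 0 := by
  intro h0
  have hp : G1 1 z 0 ≠ 0 := fun h => H.n12 (Or.inl one_ne_zero) ⟨h, h0⟩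
  obtain ⟨n, hn⟩ : ∃ n : ℤ, 0 < -1 - n * z := by
    rcases lt_or_gt_of_ne hz with h | h
    · obtain ⟨n, hn⟩ := exists_nat_gt (1 / (-z))
      refine ⟨n, ?_⟩
      rw [div_lt_iff₀ (by linarith)] at hn
      push_cast
      nlinarith
    · obtain ⟨n, hn⟩ := exists_nat_gt (1 / z)
      refine ⟨-n, ?_⟩
      rw [div_lt_iff₀ h] at hn
      push_cast
      nlinarith
  have hy : Real.sqrt (-1 - n * z) * Real.sqrt (-1 - n * z) = -1 - n * z :=
    Real.mul_self_sqrt hn.le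
  set y := Real.sqrt (-1 - n * z)
  have r12 := H.R12 y (Or.inl one_ne_zero : (1 : ℝ) ≠ 0 ∨ z ≠ 0)
  have r13 := H.R13 z (Or.inl one_ne_zero : (1 : ℝ) ≠ 0 ∨ y ≠ 0)
  have s12 := H.R12 y (Or.inl one_ne_zero : (1 : ℝ) ≠ 0 ∨ (n : ℝ) ≠ 0)
  have s13 := H.R13 n (Or.inl one_ne_zero : (1 : ℝ) ≠ 0 ∨ y ≠ 0)
  have o := H.orth 1 z y 1 n y (by simp) (by simp) (by linear_combination hy)
  have na := H.ne 1 z y (by simp)
  have nb := H.ne 1 n y (by simp)
  have nn := H.int_ne n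
  have nr := H.n13 (Or.inl one_ne_zero : (1 : ℝ) ≠ 0 ∨ y ≠ 0)
  rw [h0, mul_zero] at r12
  have a2 : G2 1 z y = 0 := (mul_eq_zero.mp r12.symm).resolve_right hp
  rw [a2, zero_mul, add_zero] at o
  have hpar : G1 1 z y * G3 1 n y = G3 1 z y * G1 1 n y := by
    by_cases h1 : G1 1 0 y = 0
    · have h3 : G3 1 0 y ≠ 0 := fun h => nr ⟨h1, h⟩
      rw [h1, mul_zero] at r13 s13
      rw [(mul_eq_zero.mp r13).resolve_right h3, (mul_eq_zero.mp s13).resolve_right h3]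
      ring
    · apply mul_left_cancel₀ h1
      linear_combination G1 1 n y * r13 - G1 1 z y * s13
  have hsq : G1 1 z y ^ 2 + G3 1 z y ^ 2 ≠ 0 := by
    intro h
    have e1 : G1 1 z y = 0 := by nlinarith [sq_nonneg (G1 1 z y), sq_nonneg (G3 1 z y)]
    have e3 : G3 1 z y = 0 := by nlinarith [sq_nonneg (G1 1 z y), sq_nonneg (G3 1 z y)]
    exact na ⟨e1, a2, e3⟩
  have b1 : G1 1 n y = 0 := by
    apply (mul_eq_zero.mp (_ : (G1 1 z y ^ 2 + G3 1 z y ^ 2) * G1 1 n y = 0)).resolve_left hsq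
    linear_combination G1 1 z y * o - G3 1 z y * hpar
  have b3 : G3 1 n y = 0 := by
    apply (mul_eq_zero.mp (_ : (G1 1 z y ^ 2 + G3 1 z y ^ 2) * G3 1 n y = 0)).resolve_left hsq
    linear_combination G3 1 z y * o + G1 1 z y * hpar
  rw [b1, zero_mul] at s12
  exact nb ⟨b1, (mul_eq_zero.mp s12.symm).resolve_right nn, b3⟩

lemma fin (x : ℝ) : G1 1 x 0 ≠ 0 := by
  intro h0
  have hx : x ≠ 0 := by
    rintro rfl
    exact H.ne 1 0 0 (by simp) ⟨h0, H.e1.1, H.e1.2⟩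
  have hq : G2 1 x 0 ≠ 0 := fun h => H.n12 (Or.inl one_ne_zero) ⟨h0, h⟩
  have o := H.o12 (a := 1) (b := x) (a' := 1) (b' := -1 / x) (by simp) (by simp)
    (by field_simp; ring)
  rw [h0, zero_mul, zero_add] at o
  exact H.tzero (z := -1 / x) (by simpa using hx) ((mul_eq_zero.mp o).resolve_left hq)

lemma slope (x : ℝ) : G2 1 x 0 = x * G1 1 x 0 := by
  have fin3 : ∀ x, G1 1 0 x ≠ 0 := by
    intro x h
    have h1 := H.teq x
    rw [h, mul_zero] at h1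
    exact H.n13 (Or.inl one_ne_zero : (1 : ℝ) ≠ 0 ∨ x ≠ 0)
      ⟨h, (mul_eq_zero.mp h1).resolve_left (H.fin x)⟩
  set t : ℝ → ℝ := fun x => G2 1 x 0 / G1 1 x 0 with ht
  have ht2 : ∀ x, G2 1 x 0 = t x * G1 1 x 0 := fun x => (div_mul_cancel₀ _ (H.fin x)).symm
  have ht3 : ∀ x, G3 1 0 x = t x * G1 1 0 x := by
    intro x
    apply mul_left_cancel₀ (H.fin x)
    rw [H.teq x, ht2 x]
    ring
  have h2 : ∀ x y, G2 1 x y = t x * G1 1 x y := by
    intro x y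
    have := H.R12 y (Or.inl one_ne_zero : (1 : ℝ) ≠ 0 ∨ x ≠ 0)
    rw [ht2 x] at this
    apply mul_right_cancel₀ (H.fin x)
    linear_combination -this
  have h3 : ∀ x y, G3 1 x y = t y * G1 1 x y := by
    intro x y
    have := H.R13 x (Or.inl one_ne_zero : (1 : ℝ) ≠ 0 ∨ y ≠ 0)
    rw [ht3 y] at this
    apply mul_right_cancel₀ (fin3 y)
    linear_combination -this
  have h1 : ∀ x y, G1 1 x y ≠ 0 := by
    intro x y h
    exact H.ne 1 x y (by simp) ⟨h, by rw [h2, h, mul_zero], by rw [h3, h, mul_zero]⟩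
  have key : ∀ x y x' y', 1 + x * x' + y * y' = 0 → 1 + t x * t x' + t y * t y' = 0 := by
    intro x y x' y' h
    have o := H.orth 1 x y 1 x' y' (by simp) (by simp) (by linear_combination h)
    rw [h2 x y, h2 x' y', h3 x y, h3 x' y'] at o
    apply (mul_eq_zero.mp (_ : (G1 1 x y * G1 1 x' y') * (1 + t x * t x' + t y * t y') = 0)).resolve_left
      (mul_ne_zero (h1 x y) (h1 x' y'))
    linear_combination o
  have t0 : t 0 = 0 := by
    simp only [ht]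
    rw [H.e1.1, zero_div]
  have t1 : t 1 = 1 := by
    simp only [ht]
    rw [← H.n2, div_self (H.fin 1)]
  have tn : ∀ x, t (-x) = -t x := by
    intro x
    have h4 := H.tneg x
    rw [ht2 x, ht3 (-x)] at h4
    apply mul_left_cancel₀ (mul_ne_zero (H.fin x) (fin3 (-x)))
    linear_combination h4
  have ts : ∀ x x', t (1 + x * x') = 1 + t x * t x' := by
    intro x x'
    have h4 := key x 1 x' (-(1 + x * x')) (by ring)
    rw [t1, tn] at h4
    linear_combination -h4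
  have tm1 : ∀ x, t (1 + x) = 1 + t x := by
    intro x
    have := ts x 1
    rwa [mul_one, t1, mul_one] at this
  have tm : ∀ x y, t (x * y) = t x * t y := by
    intro x y
    have := ts x y
    rw [tm1] at this
    linear_combination this
  have ta : ∀ x y, t (x + y) = t x + t y := by
    intro x y
    by_cases hy : y = 0
    · rw [hy, add_zero, t0, add_zero]
    · have e1 : x + y = y * (1 + x / y) := by field_simp; ring
      rw [e1, tm, tm1, mul_add, mul_one, ← tm]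
      have e2 : y * (x / y) = x := by field_simp
      rw [e2]; ring
  let τ : ℝ →+* ℝ :=
    { toFun := t
      map_one' := t1
      map_mul' := tm
      map_zero' := t0
      map_add' := ta }
  have hτ : τ = RingHom.id ℝ := Subsingleton.elim _ _
  have : t x = x := by
    have := congrArg (fun g : ℝ →+* ℝ => g x) hτ
    exact this
  rw [ht2 x, this]

end Nm

/-- A map of three-space that preserves orthogonality and the coordinate axes preserves the slopes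
in the first coordinate plane up to sign. -/
theorem slope_sq (H : OP G1 G2 G3) (x : ℝ) : G2 1 x 0 ^ 2 = x ^ 2 * G1 1 x 0 ^ 2 := by
  obtain ⟨y1, y2⟩ := H.yuoh
  obtain ⟨σ, hσ, h1⟩ : ∃ σ : ℝ, σ ^ 2 = 1 ∧ G1 1 1 0 = σ * G2 1 1 0 := by
    rcases sq_eq_sq_iff_eq_or_eq_neg.mp y1 with h | h
    · exact ⟨1, by norm_num, by rw [h]; ring⟩
    · exact ⟨-1, by norm_num, by rw [h]; ring⟩
  obtain ⟨τ, hτ, h2⟩ : ∃ τ : ℝ, τ ^ 2 = 1 ∧ G1 1 0 1 = τ * G3 1 0 1 := by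
    rcases sq_eq_sq_iff_eq_or_eq_neg.mp y2 with h | h
    · exact ⟨1, by norm_num, by rw [h]; ring⟩
    · exact ⟨-1, by norm_num, by rw [h]; ring⟩
  have s0 : σ ≠ 0 := by rintro rfl; norm_num at hσ
  have t0 : τ ≠ 0 := by rintro rfl; norm_num at hτ
  have N : Nm G1 (fun a b c => σ * G2 a b c) (fun a b c => τ * G3 a b c) :=
    { ne := by
        intro a b c h h0
        exact H.ne a b c h ⟨h0.1, (mul_eq_zero.mp h0.2.1).resolve_left s0,
          (mul_eq_zero.mp h0.2.2).resolve_left t0⟩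
      orth := by
        intro a b c a' b' c' h h' ho
        have := H.orth a b c a' b' c' h h' ho
        linear_combination this + G2 a b c * G2 a' b' c' * hσ + G3 a b c * G3 a' b' c' * hτ
      e1 := ⟨by simp [H.e1.1], by simp [H.e1.2]⟩
      e2 := ⟨H.e2.1, by simp [H.e2.2]⟩
      e3 := ⟨H.e3.1, by simp [H.e3.2]⟩
      n2 := h1
      n3 := h2 }
  have h3 : σ * G2 1 x 0 = x * G1 1 x 0 := N.slope x
  have h4 : (σ * G2 1 x 0) ^ 2 = (x * G1 1 x 0) ^ 2 := by rw [h3]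
  rw [mul_pow, mul_pow, hσ, one_mul] at h4
  exact h4

end OP

end Pool.Agent.Helper855.Bq
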