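import Pool.Agent.Helper855.GkoVirDefs

/-!
The affine Kac-Moody algebra of `sl_2` (through its enveloping algebra), its irreducible highest
weight modules, the Kostant-Garland form generated by the divided powers, and the Weyl modules over
a field.
-/

set_option autoImplicit false

namespace Pool.Agent.Helper855.Gko.Aff

/-- Names of the standard basis vectors of `sl_2`. -/
inductive X : Type
  | e : X
  | h : X
  | f : X

/-- The brackets of `sl_2`: `[x, y]` is `(brk x y).1` times `(brk x y).2`. -/
def brk : X → X → ℤ × X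
  | .e, .f => (1, .h)
  | .f, .e => (-1, .h)
  | .h, .e => (2, .e)
  | .e, .h => (-2, .e)
  | .h, .f => (-2, .f)
  | .f, .h => (2, .f)
  | x, _ => (0, x)

/-- The invariant form of `sl_2`: `(e|f) = 1`, `(h|h) = 2`. -/
def form : X → X → ℤ
  | .e, .f => 1
  | .f, .e => 1
  | .h, .h => 2
  | _, _ => 0

/-- Names of the generators `x(m) = x ⊗ t^m`, `c` and `d` of the affine algebra. -/
inductive AGen : Type
  | x (a : X) (m : ℤ) : AGen
  | c : AGen
  | d : AGen

/-- The generator `g`, in the free complex algebra. -/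
noncomputable def agn (g : AGen) : FreeAlgebra ℂ AGen := FreeAlgebra.ι ℂ g

/-- The relations of the affine algebra `sl_2 ⊗ ℂ[t,t⁻¹] ⊕ ℂ c ⊕ ℂ d`:
`[x(m), y(n)] = [x,y](m+n) + m δ_{m+n,0} (x|y) c`, `c` is central, `[d, x(m)] = m x(m)`. -/
inductive ARel : FreeAlgebra ℂ AGen → FreeAlgebra ℂ AGen → Prop
  | xx (a b : X) (m n : ℤ) : ARel (cm (agn (.x a m)) (agn (.x b n)))
      ((brk a b).1 • agn (.x (brk a b).2 (m + n)) +
        (if m + n = 0 then m * form a b else 0) • agn .c)
  | cx (g : AGen) : ARel (cm (agn .c) (agn g)) 0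
  | dx (a : X) (m : ℤ) : ARel (cm (agn .d) (agn (.x a m))) (m • agn (.x a m))

/-- The universal enveloping algebra `U(𝔤)` of the affine Kac-Moody algebra `𝔤` of `sl_2` over
`ℂ`. -/
abbrev UA : Type := RingQuot ARel

/-- The quotient map from the free algebra to `U(𝔤)`. -/
noncomputable def toUA : FreeAlgebra ℂ AGen →ₐ[ℂ] UA := RingQuot.mkAlgHom ℂ ARel

/-- The element `x(m)` of `U(𝔤)`. -/
noncomputable def xU (a : X) (m : ℤ) : UA := toUA (agn (.x a m))

/-- The central element `c` of `U(𝔤)`. -/
noncomputable def cU : UA := toUA (agn .c)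

/-- The element `d` of `U(𝔤)`. -/
noncomputable def dU : UA := toUA (agn .d)

/-- The Chevalley generators `e_0 = f(1)` and `e_1 = e(0)`. -/
noncomputable def e (i : Fin 2) : UA := if i = 0 then xU .f 1 else xU .e 0

/-- The Chevalley generators `f_0 = e(-1)` and `f_1 = f(0)`. -/
noncomputable def f (i : Fin 2) : UA := if i = 0 then xU .e (-1) else xU .f 0

/-- The simple coroots `h_0 = c - h(0)` and `h_1 = h(0)`. -/
noncomputable def h (i : Fin 2) : UA := if i = 0 then cU - xU .h 0 else xU .h 0

/-- The left ideal of `U(𝔤)` generated by all `x(m)` with `m > 0`, by `e(0)`, by `h_i - λ(h_i)` and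
by `d`, where `λ(h_i) = lam i`. -/
noncomputable def vermaIdeal (lam : Fin 2 → ℕ) : Submodule UA UA :=
  Submodule.span UA ({u | ∃ (a : X) (m : ℤ), 0 < m ∧ u = xU a m} ∪ {xU .e 0} ∪
    Set.range (fun i => h i - algebraMap ℂ UA (lam i)) ∪ {dU})

/-- The Verma module of highest weight `λ`, where `λ(h_i) = lam i` and `λ(d) = 0`. -/
def Verma (lam : Fin 2 → ℕ) : Type := Quo (vermaIdeal lam)

noncomputable instance (lam : Fin 2 → ℕ) : AddCommGroup (Verma lam) :=
  (inferInstance : AddCommGroup (Quo (vermaIdeal lam)))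

noncomputable instance (lam : Fin 2 → ℕ) : Module UA (Verma lam) :=
  (inferInstance : Module UA (Quo (vermaIdeal lam)))

/-- The sum of all proper submodules of the Verma module. -/
noncomputable def maxSub (lam : Fin 2 → ℕ) : Submodule UA (Verma lam) := sSup {N | N ≠ ⊤}

/-- The irreducible highest weight module `L_ℂ(λ)` of `𝔤`: the quotient of the Verma module by the
sum of all proper submodules. -/
def LC (lam : Fin 2 → ℕ) : Type := Quo (maxSub lam)

noncomputable instance (lam : Fin 2 → ℕ) : AddCommGroup (LC lam) :=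
  (inferInstance : AddCommGroup (Quo (maxSub lam)))

noncomputable instance (lam : Fin 2 → ℕ) : Module UA (LC lam) :=
  (inferInstance : Module UA (Quo (maxSub lam)))

/-- The highest weight vector `v_λ` of `L_ℂ(λ)`. -/
noncomputable def vlam (lam : Fin 2 → ℕ) : LC lam := cls (maxSub lam) (cls (vermaIdeal lam) 1)

/-- The divided power `x^k / k!`. -/
noncomputable def dpow (x : UA) (k : ℕ) : UA := ((k.factorial : ℂ)⁻¹) • x ^ k

/-- The Kostant-Garland form `U_ℤ` of `U(𝔤)`: the subring generated by the divided powers of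
`e_0, e_1, f_0, f_1`. -/
noncomputable def UZ : Subring UA :=
  Subring.closure {u | ∃ (i : Fin 2) (k : ℕ), u = dpow (e i) k ∨ u = dpow (f i) k}

/-- The lattice `V_ℤ(λ) = U_ℤ v_λ` in `L_ℂ(λ)`. -/
noncomputable def VZ (lam : Fin 2 → ℕ) : Submodule UZ (LC lam) := Submodule.span UZ {vlam lam}

/-- The lattice `V_ℤ(λ)` as a type. -/
def Lat (lam : Fin 2 → ℕ) : Type := VZ lam

noncomputable instance (lam : Fin 2 → ℕ) : AddCommGroup (Lat lam) :=
  (inferInstance : AddCommGroup (VZ lam))

noncomputable instance (lam : Fin 2 → ℕ) : Module UZ (Lat lam) :=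
  (inferInstance : Module UZ (VZ lam))

/-- The Weyl module `V(λ) = F ⊗_ℤ V_ℤ(λ)` over the field `F`. -/
def Weyl (F : Type*) [Field F] (lam : Fin 2 → ℕ) : Type _ := BC F (Lat lam)

noncomputable instance (F : Type*) [Field F] (lam : Fin 2 → ℕ) : AddCommGroup (Weyl F lam) :=
  (inferInstance : AddCommGroup (BC F (Lat lam)))

noncomputable instance (F : Type*) [Field F] (lam : Fin 2 → ℕ) : Module F (Weyl F lam) :=
  (inferInstance : Module F (BC F (Lat lam)))

/-- The action of an element `u` of `U_ℤ` (that is, of the element `1 ⊗ u` of the hyperalgebra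
`U_F = F ⊗_ℤ U_ℤ`) on the Weyl module. -/
noncomputable def actF (F : Type*) [Field F] (lam : Fin 2 → ℕ) (u : UZ) :
    Weyl F lam →ₗ[F] Weyl F lam :=
  bcMap F (act (M := Lat lam) u)

/-- The dominant integral weight `λ_{k;j} = (k - j) ω_0 + j ω_1` of level `k`, given by its values
on `h_0` and `h_1`. -/
def weight (k j : ℕ) : Fin 2 → ℕ := fun i => if i = 0 then k - j else j

end Pool.Agent.Helper855.Gko.Aff
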