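import Pool.Agent.Helper855.GkoAffMod

/-!
Divided powers and integrality of the vacuum functional.
-/

set_option autoImplicit false
set_option linter.unusedSectionVars false

namespace Pool.Agent.Helper855.Gko.Aff

/-! ### Divided powers -/

section dpow

variable {M : Type*} [AddCommGroup M] [Module ℂ M] [Module UA M] [IsScalarTower ℂ UA M]

lemma mul_dpow (x : UA) (k : ℕ) : x * dpow x k = (k + 1 : ℂ) • dpow x (k + 1) := by
  rw [dpow, dpow, mul_smul_comm, ← pow_succ', smul_smul]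
  congr 1
  rw [Nat.factorial_succ]
  have h1 : ((k : ℂ) + 1) ≠ 0 := by exact_mod_cast Nat.succ_ne_zero k
  have h2 : ((k.factorial : ℕ) : ℂ) ≠ 0 := by exact_mod_cast Nat.factorial_ne_zero k
  push_cast
  field_simp

lemma fact_dpow (x : UA) (k : ℕ) : (k.factorial : ℂ) • dpow x k = x ^ k := by
  rw [dpow, smul_smul, mul_inv_cancel₀, one_smul]
  exact_mod_cast Nat.factorial_ne_zero k

/-- Divided powers with integer exponent (zero for negative exponents). -/
noncomputable def dpz (x : UA) (n : ℤ) : UA := if n < 0 then 0 else dpow x n.toNat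

lemma dpz_nat (x : UA) (n : ℕ) : dpz x (n : ℤ) = dpow x n := by
  rw [dpz, if_neg (by omega)]; simp

lemma dpz_neg (x : UA) {n : ℤ} (hn : n < 0) : dpz x n = 0 := by rw [dpz, if_pos hn]

lemma mul_dpz (x : UA) (n : ℤ) : x * dpz x n = ((n + 1 : ℤ) : ℂ) • dpz x (n + 1) := by
  rcases lt_trichotomy n (-1) with h | h | h
  · rw [dpz_neg x (by omega), dpz_neg x (by omega), mul_zero, smul_zero]
  · subst h
    rw [dpz_neg x (by omega)]
    simp
  · obtain ⟨k, rfl⟩ : ∃ k : ℕ, n = k := ⟨n.toNat, by omega⟩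
    have : ((k : ℤ) + 1) = ((k + 1 : ℕ) : ℤ) := by push_cast; ring
    rw [this, dpz_nat, dpz_nat, mul_dpow]
    push_cast
    rfl

/-- Weight vectors for `h_i`. -/
def Wt (i : Fin 2) (μ : ℤ) (x : M) : Prop := h i • x = (μ : ℂ) • x

lemma Wt.smul_e {i j : Fin 2} {μ : ℤ} {x : M} (H : Wt i μ x) :
    Wt i (μ + cartan i j) (e j • x) := by
  unfold Wt at *
  rw [cm_smul, ua_he, H, zsmul_ua, smul_comm, ← add_smul, ← Int.cast_add]

lemma Wt.smul_f {i j : Fin 2} {μ : ℤ} {x : M} (H : Wt i μ x) :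
    Wt i (μ - cartan i j) (f j • x) := by
  unfold Wt at *
  rw [cm_smul, ua_hf, H, neg_smul, zsmul_ua, smul_comm, ← sub_eq_add_neg, ← sub_smul,
    ← Int.cast_sub]

lemma Wt.smul {i : Fin 2} {μ : ℤ} {x : M} (H : Wt i μ x) (a : ℂ) : Wt i μ (a • x) := by
  unfold Wt at *
  rw [smul_comm, H, smul_comm]

lemma Wt.zero (i : Fin 2) (μ : ℤ) : Wt i μ (0 : M) := by
  unfold Wt; simp

lemma Wt.pow_e {i j : Fin 2} {μ : ℤ} {x : M} (H : Wt i μ x) (k : ℕ) :
    Wt i (μ + k * cartan i j) (e j ^ k • x) := by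
  induction k with
  | zero => simpa using H
  | succ k ih =>
    rw [pow_succ', mul_smul]
    have := ih.smul_e (j := j)
    convert this using 1
    push_cast; ring

lemma Wt.pow_f {i j : Fin 2} {μ : ℤ} {x : M} (H : Wt i μ x) (k : ℕ) :
    Wt i (μ - k * cartan i j) (f j ^ k • x) := by
  induction k with
  | zero => simpa using H
  | succ k ih =>
    rw [pow_succ', mul_smul]
    have := ih.smul_f (j := j)
    convert this using 1
    push_cast; ring

lemma Wt.dpow_e {i j : Fin 2} {μ : ℤ} {x : M} (H : Wt i μ x) (k : ℕ) :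
    Wt i (μ + k * cartan i j) (dpow (e j) k • x) := by
  rw [dpow, smul_assoc]; exact (H.pow_e k).smul _

lemma Wt.dpow_f {i j : Fin 2} {μ : ℤ} {x : M} (H : Wt i μ x) (k : ℕ) :
    Wt i (μ - k * cartan i j) (dpow (f j) k • x) := by
  rw [dpow, smul_assoc]; exact (H.pow_f k).smul _

lemma Wt.dpz_e {i j : Fin 2} {μ : ℤ} {x : M} (H : Wt i μ x) (n : ℤ) :
    Wt i (μ + n * cartan i j) (dpz (e j) n • x) := by
  rcases lt_or_ge n 0 with hn | hn
  · rw [dpz_neg _ hn, zero_smul]; exact Wt.zero _ _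
  · obtain ⟨k, rfl⟩ := Int.eq_ofNat_of_zero_le hn
    rw [dpz_nat]; exact H.dpow_e k

lemma Wt.dpz_f {i j : Fin 2} {μ : ℤ} {x : M} (H : Wt i μ x) (n : ℤ) :
    Wt i (μ - n * cartan i j) (dpz (f j) n • x) := by
  rcases lt_or_ge n 0 with hn | hn
  · rw [dpz_neg _ hn, zero_smul]; exact Wt.zero _ _
  · obtain ⟨k, rfl⟩ := Int.eq_ofNat_of_zero_le hn
    rw [dpz_nat]; exact H.dpow_f k

lemma e_dpow_f {i : Fin 2} {μ : ℤ} {x : M} (H : Wt i μ x) (k : ℕ) :
    e i • dpow (f i) (k + 1) • x =
      dpow (f i) (k + 1) • e i • x + ((μ - k : ℤ) : ℂ) • dpow (f i) k • x := by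
  have key : ∀ k : ℕ, e i • f i ^ (k + 1) • x =
      f i ^ (k + 1) • e i • x + ((k + 1) * (μ - k) : ℂ) • f i ^ k • x := by
    intro k
    induction k with
    | zero =>
      rw [zero_add, pow_one, cm_smul, ua_ef, if_pos rfl, pow_zero, one_smul]
      unfold Wt at H
      rw [H]
      push_cast
      congr 1
      ring_nf
    | succ k ih =>
      rw [pow_succ' (f i) (k + 1), mul_smul, cm_smul, ih, ua_ef, if_pos rfl]
      have hw := H.pow_f (j := i) (k + 1)
      unfold Wt at hw
      rw [hw, smul_add, ← mul_smul (f i) (f i ^ (k + 1)), ← pow_succ', smul_comm (f i),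
        ← mul_smul (f i) (f i ^ k), ← pow_succ', add_assoc, ← add_smul]
      congr 2
      have : cartan i i = 2 := by simp [cartan]
      rw [this]
      push_cast
      ring
  rw [dpow, dpow, smul_assoc, smul_assoc, smul_assoc, smul_comm (e i), key k, smul_add]
  congr 1
  rw [smul_smul, smul_smul]
  congr 1
  rw [Nat.factorial_succ]
  have h1 : ((k : ℂ) + 1) ≠ 0 := by exact_mod_cast Nat.succ_ne_zero k
  have h2 : ((k.factorial : ℕ) : ℂ) ≠ 0 := by exact_mod_cast Nat.factorial_ne_zero k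
  push_cast
  field_simp

lemma e_dpz_f {i : Fin 2} {μ : ℤ} {x : M} (H : Wt i μ x) (n : ℤ) :
    e i • dpz (f i) n • x =
      dpz (f i) n • e i • x + ((μ - n + 1 : ℤ) : ℂ) • dpz (f i) (n - 1) • x := by
  rcases lt_trichotomy n 0 with h | h | h
  · rw [dpz_neg _ h, dpz_neg _ (by omega)]; simp
  · subst h
    rw [dpz_neg _ (show (0 : ℤ) - 1 < 0 by omega)]
    have : dpz (f i) 0 = 1 := by
      have := dpz_nat (f i) 0
      rw [dpow_zero] at this
      exact this
    rw [this]; simp
  · obtain ⟨k, rfl⟩ : ∃ k : ℕ, n = ((k + 1 : ℕ) : ℤ) := ⟨n.toNat - 1, by omega⟩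
    have e1 : (((k + 1 : ℕ) : ℤ) - 1) = (k : ℤ) := by push_cast; ring
    rw [e1, dpz_nat, dpz_nat, e_dpow_f H k]
    congr 3
    push_cast; ring

lemma choose_id (N : ℤ) (t : ℕ) :
    ((t : ℤ) + 1) * Ring.choose N (t + 1) = (N - t) * Ring.choose N t := by
  have h1 := Ring.descPochhammer_eq_factorial_smul_choose N (t + 1)
  have h2 := Ring.descPochhammer_eq_factorial_smul_choose N t
  have h3 : (descPochhammer ℤ (t + 1)).smeval N = (descPochhammer ℤ t).smeval N * (N - t) := by
    rw [descPochhammer_succ_right, Polynomial.smeval_mul]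
    congr 1
    simp [Polynomial.smeval_sub, Polynomial.smeval_X, Polynomial.smeval_natCast]
  rw [h1, h2, Nat.factorial_succ] at h3
  simp only [nsmul_eq_mul] at h3
  push_cast at h3
  have h4 : ((t.factorial : ℕ) : ℤ) ≠ 0 := by exact_mod_cast Nat.factorial_ne_zero t
  have h5 : ((t.factorial : ℕ) : ℤ) * (((t : ℤ) + 1) * Ring.choose N (t + 1)) =
      ((t.factorial : ℕ) : ℤ) * ((N - t) * Ring.choose N t) := by
    linear_combination h3
  exact mul_left_cancel₀ h4 h5

/-- The commutation formula for divided powers. -/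
lemma dpz_comm {i : Fin 2} {μ : ℤ} {x : M} (H : Wt i μ x) (a : ℕ) (b : ℤ) :
    dpz (e i) a • dpz (f i) b • x = ∑ t ∈ Finset.range (a + 1),
      ((Ring.choose (μ + a - b) t : ℤ) : ℂ) • dpz (f i) (b - t) • dpz (e i) (a - t) • x := by
  have hii : cartan i i = 2 := by simp [cartan]
  induction a with
  | zero =>
    rw [Finset.sum_range_one]
    simp only [Nat.cast_zero, Ring.choose_zero_right, Int.cast_one, one_smul, sub_zero]
    have : dpz (e i) 0 = 1 := by
      have := dpz_nat (e i) 0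
      rw [dpow_zero] at this
      exact this
    rw [this, one_smul, one_smul]
  | succ a ih =>
    have h1 : ((a : ℂ) + 1) ≠ 0 := by exact_mod_cast Nat.succ_ne_zero a
    have h2 : (((a : ℤ) + 1 : ℤ) : ℂ) • dpz (e i) ((a + 1 : ℕ) : ℤ) • dpz (f i) b • x =
        e i • dpz (e i) a • dpz (f i) b • x := by
      rw [← mul_smul (e i), mul_dpz, smul_assoc]
      push_cast
      rfl
    set N : ℤ := μ + a - b with hN
    set G : ℕ → M := fun t => dpz (f i) (b - t) • dpz (e i) (((a + 1 : ℕ) : ℤ) - t) • x with hG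
    have h3 : e i • dpz (e i) a • dpz (f i) b • x = ∑ t ∈ Finset.range (a + 1),
        (((Ring.choose N t * (a + 1 - t) : ℤ) : ℂ) • G t +
          ((Ring.choose N t * (N + a - t + 1) : ℤ) : ℂ) • G (t + 1)) := by
      rw [ih, Finset.smul_sum]
      refine Finset.sum_congr rfl fun t _ => ?_
      rw [smul_comm (e i), e_dpz_f (H.dpz_e (j := i) ((a : ℤ) - t)), smul_add]
      congr 1
      · rw [← mul_smul (e i), mul_dpz, smul_assoc, smul_comm (dpz (f i) _), smul_smul]
        rw [hG]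
        have e1 : ((a : ℤ) - t + 1) = ((a + 1 : ℕ) : ℤ) - t := by push_cast; ring
        simp only [e1]
        push_cast
        ring_nf
      · rw [smul_smul, hG]
        have e1 : b - ((t + 1 : ℕ) : ℤ) = b - t - 1 := by push_cast; ring
        have e2 : ((a + 1 : ℕ) : ℤ) - ((t + 1 : ℕ) : ℤ) = (a : ℤ) - t := by push_cast; ring
        simp only [e1, e2]
        rw [hii]
        congr 1
        rw [hN]
        push_cast
        ring
    have h4 : (((a : ℤ) + 1 : ℤ) : ℂ) • ∑ t ∈ Finset.range (a + 1 + 1),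
        ((Ring.choose (N + 1) t : ℤ) : ℂ) • G t = ∑ t ∈ Finset.range (a + 1),
        (((Ring.choose N t * (a + 1 - t) : ℤ) : ℂ) • G t +
          ((Ring.choose N t * (N + a - t + 1) : ℤ) : ℂ) • G (t + 1)) := by
      rw [Finset.sum_add_distrib]
      have h5 : ∑ t ∈ Finset.range (a + 1), ((Ring.choose N t * (a + 1 - t) : ℤ) : ℂ) • G t =
          ∑ t ∈ Finset.range (a + 1),
            ((Ring.choose N (t + 1) * (a - t) : ℤ) : ℂ) • G (t + 1) + ((a + 1 : ℤ) : ℂ) • G 0 := by
        have h6 : ∑ t ∈ Finset.range (a + 1 + 1), ((Ring.choose N t * (a + 1 - t) : ℤ) : ℂ) • G t =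
            ∑ t ∈ Finset.range (a + 1), ((Ring.choose N t * (a + 1 - t) : ℤ) : ℂ) • G t := by
          rw [Finset.sum_range_succ]
          have : ((Ring.choose N (a + 1) * ((a : ℤ) + 1 - ((a + 1 : ℕ) : ℤ)) : ℤ) : ℂ) = 0 := by
            push_cast; ring
          rw [this, zero_smul, add_zero]
        rw [← h6, Finset.sum_range_succ']
        congr 1
        · refine Finset.sum_congr rfl fun t _ => ?_
          congr 2
          push_cast; ring
        · congr 2
          simp
      rw [h5, Finset.sum_range_succ', smul_add, Finset.smul_sum]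
      have h7 : ((a + 1 : ℤ) : ℂ) • ((Ring.choose (N + 1) 0 : ℤ) : ℂ) • G 0 =
          ((a + 1 : ℤ) : ℂ) • G 0 := by simp
      rw [h7, add_right_comm, ← Finset.sum_add_distrib]
      congr 1
      refine Finset.sum_congr rfl fun t _ => ?_
      rw [smul_smul, ← add_smul]
      congr 1
      rw [Ring.choose_succ_succ]
      have h8 := choose_id N t
      have h9 : ((a : ℤ) + 1) * (Ring.choose N t + Ring.choose N (t + 1)) =
        Ring.choose N (t + 1) * (a - t) + Ring.choose N t * (N + a - t + 1) := by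
        linear_combination h8
      exact_mod_cast h9
    have h10 : (((a : ℤ) + 1 : ℤ) : ℂ) • dpz (e i) ((a + 1 : ℕ) : ℤ) • dpz (f i) b • x =
        (((a : ℤ) + 1 : ℤ) : ℂ) • ∑ t ∈ Finset.range (a + 1 + 1),
        ((Ring.choose (N + 1) t : ℤ) : ℂ) • G t := by
      rw [h2, h3, h4]
    have h11 : (((a : ℤ) + 1 : ℤ) : ℂ) ≠ 0 := by push_cast; exact h1
    have h12 := smul_right_injective M h11 h10
    have e3 : μ + ((a + 1 : ℕ) : ℤ) - b = N + 1 := by rw [hN]; push_cast; ring
    rw [e3]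
    exact h12

lemma dpow_comm_ne {i j : Fin 2} (hij : i ≠ j) (a : ℕ) (b : ℤ) :
    dpow (e i) a * dpz (f j) b = dpz (f j) b * dpow (e i) a := by
  have h1 : Commute (e i) (f j) := by
    have := ua_ef i j
    rw [if_neg hij, cm] at this
    exact sub_eq_zero.mp this
  rcases lt_or_ge b 0 with hb | hb
  · rw [dpz_neg _ hb]; simp
  · obtain ⟨k, rfl⟩ := Int.eq_ofNat_of_zero_le hb
    rw [dpz_nat]
    unfold dpow
    have h2 := (h1.pow_pow a k).eq
    simp only [smul_mul_assoc, mul_smul_comm]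
    rw [h2, smul_comm]

end dpow

/-- The multiples of `q` in `ℂ`. -/
def mult (q : ℤ) : AddSubgroup ℂ := AddSubgroup.zmultiples (q : ℂ)

lemma mem_mult {q : ℤ} {z : ℂ} : z ∈ mult q ↔ ∃ m : ℤ, z = (q * m : ℤ) := by
  unfold mult
  rw [AddSubgroup.mem_zmultiples_iff]
  constructor
  · rintro ⟨m, rfl⟩; exact ⟨m, by rw [zsmul_eq_mul]; push_cast; ring⟩
  · rintro ⟨m, rfl⟩; exact ⟨m, by rw [zsmul_eq_mul]; push_cast; ring⟩

lemma mult_int {q : ℤ} {z : ℂ} (hz : z ∈ mult q) (n : ℤ) : (n : ℂ) * z ∈ mult q := by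
  have := (mult q).zsmul_mem hz n
  rwa [zsmul_eq_mul] at this

/-- Products of divided powers of the `e_i`; the first one is applied first. -/
noncomputable def ewd : List (Fin 2 × ℕ) → UA
  | [] => 1
  | p :: w => ewd w * dpow (e p.1) p.2

/-- Products of divided powers of the `f_i`. -/
noncomputable def fwd : List (Fin 2 × ℕ) → UA
  | [] => 1
  | p :: w => dpow (f p.1) p.2 * fwd w

variable (lam : Fin 2 → ℕ) [Fact (lam 1 = 0)]

/-- Weight vectors on which all products of divided powers of the `e_i` have `v_λ`-coefficient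
divisible by `q`. -/
def R (q : ℤ) : Set (LC lam) :=
  {x | (∃ μ : Fin 2 → ℤ, ∀ i, Wt i (μ i) x) ∧ ∀ w, epsL lam (ewd w • x) ∈ mult q}

lemma R_smul_e {q : ℤ} {x : LC lam} (hx : x ∈ R lam q) (i : Fin 2) (k : ℕ) :
    dpow (e i) k • x ∈ R lam q := by
  obtain ⟨⟨μ, hμ⟩, h2⟩ := hx
  refine ⟨⟨fun j => μ j + k * cartan j i, fun j => (hμ j).dpow_e k⟩, fun w => ?_⟩
  have := h2 ((i, k) :: w)
  rwa [ewd, mul_smul] at this

lemma R_zero (q : ℤ) : (0 : LC lam) ∈ R lam q :=
  ⟨⟨0, fun i => Wt.zero _ _⟩, fun w => by rw [smul_zero, map_zero]; exact zero_mem _⟩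

lemma R_smul_ez {q : ℤ} {x : LC lam} (hx : x ∈ R lam q) (i : Fin 2) (n : ℤ) :
    dpz (e i) n • x ∈ R lam q := by
  rcases lt_or_ge n 0 with hn | hn
  · rw [dpz_neg _ hn, zero_smul]; exact R_zero lam q
  · obtain ⟨k, rfl⟩ := Int.eq_ofNat_of_zero_le hn
    rw [dpz_nat]; exact R_smul_e lam hx i k

lemma eps_dpz_f {q : ℤ} {x : LC lam} (hx : epsL lam x ∈ mult q) (i : Fin 2) (n : ℤ) :
    epsL lam (dpz (f i) n • x) ∈ mult q := by
  rcases lt_trichotomy n 0 with hn | hn | hn
  · rw [dpz_neg _ hn, zero_smul, map_zero]; exact zero_mem _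
  · subst hn
    have : dpz (f i) 0 = 1 := by
      have := dpz_nat (f i) 0
      rw [dpow_zero] at this
      exact this
    rw [this, one_smul]; exact hx
  · obtain ⟨k, rfl⟩ : ∃ k : ℕ, n = ((k + 1 : ℕ) : ℤ) := ⟨n.toNat - 1, by omega⟩
    rw [dpz_nat, dpow, pow_succ', smul_assoc, mul_smul, map_smul, epsL_f, smul_zero]
    exact zero_mem _

lemma R_aux {q : ℤ} (w : List (Fin 2 × ℕ)) : ∀ {x : LC lam}, x ∈ R lam q → ∀ (j : Fin 2) (b : ℤ),
    epsL lam (ewd w • dpz (f j) b • x) ∈ mult q := by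
  induction w with
  | nil =>
    intro x hx j b
    rw [ewd, one_smul]
    refine eps_dpz_f lam ?_ j b
    have := hx.2 []
    rwa [ewd, one_smul] at this
  | cons p w ih =>
    intro x hx j b
    obtain ⟨i, k⟩ := p
    rw [ewd, mul_smul]
    by_cases hij : i = j
    · subst hij
      obtain ⟨μ, hμ⟩ := hx.1
      have h1 := dpz_comm (hμ i) k b
      rw [dpz_nat] at h1
      change epsL lam (ewd w • dpow (e i) k • dpz (f i) b • x) ∈ mult q
      rw [h1, Finset.smul_sum, map_sum]
      refine AddSubgroup.sum_mem _ fun t _ => ?_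
      rw [smul_comm, map_smul, smul_eq_mul]
      exact mult_int (ih (R_smul_ez lam hx i _) i _) _
    · change epsL lam (ewd w • dpow (e i) k • dpz (f j) b • x) ∈ mult q
      rw [← mul_smul (dpow (e i) k), dpow_comm_ne hij, mul_smul]
      exact ih (R_smul_e lam hx i k) j b

lemma R_smul_f {q : ℤ} {x : LC lam} (hx : x ∈ R lam q) (j : Fin 2) (b : ℕ) :
    dpow (f j) b • x ∈ R lam q := by
  obtain ⟨μ, hμ⟩ := hx.1
  refine ⟨⟨fun i => μ i - b * cartan i j, fun i => (hμ i).dpow_f b⟩, fun w => ?_⟩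
  have := R_aux lam w hx j b
  rwa [dpz_nat] at this

lemma R_UZ {q : ℤ} {u : UA} (hu : u ∈ UZ) : ∀ x ∈ AddSubgroup.closure (R lam q),
    u • x ∈ AddSubgroup.closure (R lam q) := by
  unfold UZ at hu
  induction hu using Subring.closure_induction with
  | mem y hy =>
    intro x hx
    induction hx using AddSubgroup.closure_induction with
    | mem x hx =>
      obtain ⟨i, k, rfl | rfl⟩ := hy
      · exact AddSubgroup.subset_closure (R_smul_e lam hx i k)
      · exact AddSubgroup.subset_closure (R_smul_f lam hx i k)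
    | zero => rw [smul_zero]; exact zero_mem _
    | add x y _ _ hx hy => rw [smul_add]; exact add_mem hx hy
    | neg x _ hx => rw [smul_neg]; exact neg_mem hx
  | zero => intro x _; rw [zero_smul]; exact zero_mem _
  | one => intro x hx; rw [one_smul]; exact hx
  | add a b _ _ ha hb => intro x hx; rw [add_smul]; exact add_mem (ha x hx) (hb x hx)
  | neg a _ ha => intro x hx; rw [neg_smul]; exact neg_mem (ha x hx)
  | mul a b _ _ ha hb => intro x hx; rw [mul_smul]; exact ha _ (hb x hx)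

lemma eps_closure {q : ℤ} {x : LC lam} (hx : x ∈ AddSubgroup.closure (R lam q)) :
    epsL lam x ∈ mult q := by
  induction hx using AddSubgroup.closure_induction with
  | mem x hx => have := hx.2 []; rwa [ewd, one_smul] at this
  | zero => rw [map_zero]; exact zero_mem _
  | add x y _ _ hx hy => rw [map_add]; exact add_mem hx hy
  | neg x _ hx => rw [map_neg]; exact neg_mem hx

lemma eps_UZ {q : ℤ} {u : UA} (hu : u ∈ UZ) {x : LC lam} (hx : x ∈ R lam q) :
    epsL lam (u • x) ∈ mult q :=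
  eps_closure lam (R_UZ lam hu x (AddSubgroup.subset_closure hx))

lemma dpow_e_v (i : Fin 2) (k : ℕ) : dpow (e i) (k + 1) • vlam lam = 0 := by
  rw [dpow, pow_succ, smul_assoc, mul_smul, e_vlam lam, smul_zero, smul_zero]

lemma v_wt (i : Fin 2) : Wt i (lam i : ℤ) (vlam lam) := by
  unfold Wt
  rw [h_vlam lam]; push_cast; rfl

lemma v_mem_R : vlam lam ∈ R lam 1 := by
  refine ⟨⟨fun i => lam i, v_wt lam⟩, fun w => ?_⟩
  have : ewd w • vlam lam = vlam lam ∨ ewd w • vlam lam = 0 := by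
    induction w with
    | nil => left; rw [ewd, one_smul]
    | cons p w ih =>
      rw [ewd, mul_smul]
      obtain ⟨i, k⟩ := p
      cases k with
      | zero => rw [dpow_zero, one_smul]; exact ih
      | succ k => right; rw [dpow_e_v, smul_zero]
  rcases this with h | h
  · rw [h, epsL_vlam]; exact mem_mult.mpr ⟨1, by simp⟩
  · rw [h, map_zero]; exact zero_mem _

/-- The subgroup spanned by the products of divided powers of the `f_i` applied to `v_λ`. -/
noncomputable def S : AddSubgroup (LC lam) := AddSubgroup.closure (Set.range fun w => fwd w • vlam lam)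

lemma S_smul_f {x : LC lam} (hx : x ∈ S lam) (j : Fin 2) (b : ℕ) : dpow (f j) b • x ∈ S lam := by
  unfold S at hx
  induction hx using AddSubgroup.closure_induction with
  | mem x hx =>
    obtain ⟨w, rfl⟩ := hx
    change dpow (f j) b • fwd w • vlam lam ∈ S lam
    rw [← mul_smul]
    exact AddSubgroup.subset_closure ⟨(j, b) :: w, rfl⟩
  | zero => rw [smul_zero]; exact zero_mem _
  | add x y _ _ hx hy => rw [smul_add]; exact add_mem hx hy
  | neg x _ hx => rw [smul_neg]; exact neg_mem hx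

lemma S_smul_fz {x : LC lam} (hx : x ∈ S lam) (j : Fin 2) (b : ℤ) : dpz (f j) b • x ∈ S lam := by
  rcases lt_or_ge b 0 with hn | hn
  · rw [dpz_neg _ hn, zero_smul]; exact zero_mem _
  · obtain ⟨k, rfl⟩ := Int.eq_ofNat_of_zero_le hn
    rw [dpz_nat]; exact S_smul_f lam hx j k

lemma fwd_wt (i : Fin 2) (w : List (Fin 2 × ℕ)) : ∃ μ : ℤ, Wt i μ (fwd w • vlam lam) := by
  induction w with
  | nil => exact ⟨lam i, by rw [fwd, one_smul]; exact v_wt lam i⟩
  | cons p w ih =>
    obtain ⟨μ, hμ⟩ := ih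
    exact ⟨μ - p.2 * cartan i p.1, by rw [fwd, mul_smul]; exact hμ.dpow_f p.2⟩

lemma S_aux (w : List (Fin 2 × ℕ)) : ∀ (i : Fin 2) (n : ℤ),
    dpz (e i) n • fwd w • vlam lam ∈ S lam := by
  induction w with
  | nil =>
    intro i n
    rw [fwd, one_smul]
    rcases lt_trichotomy n 0 with hn | hn | hn
    · rw [dpz_neg _ hn, zero_smul]; exact zero_mem _
    · subst hn
      have : dpz (e i) 0 = 1 := by
        have := dpz_nat (e i) 0
        rw [dpow_zero] at this
        exact this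
      rw [this, one_smul]
      exact AddSubgroup.subset_closure ⟨[], one_smul _ _⟩
    · obtain ⟨k, rfl⟩ : ∃ k : ℕ, n = ((k + 1 : ℕ) : ℤ) := ⟨n.toNat - 1, by omega⟩
      rw [dpz_nat, dpow_e_v]; exact zero_mem _
  | cons p w ih =>
    intro i n
    obtain ⟨j, b⟩ := p
    rcases lt_or_ge n 0 with hn | hn
    · rw [dpz_neg _ hn, zero_smul]; exact zero_mem _
    obtain ⟨k, rfl⟩ := Int.eq_ofNat_of_zero_le hn
    rw [fwd, mul_smul]
    change dpz (e i) (k : ℤ) • dpow (f j) b • fwd w • vlam lam ∈ S lam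
    by_cases hij : i = j
    · subst hij
      obtain ⟨μ, hμ⟩ := fwd_wt lam i w
      have h1 := dpz_comm hμ k b
      rw [dpz_nat (f i) b] at h1
      rw [h1]
      refine AddSubgroup.sum_mem _ fun t _ => ?_
      rw [Int.cast_smul_eq_zsmul]
      exact AddSubgroup.zsmul_mem _ (S_smul_fz lam (ih i _) i _) _
    · rw [dpz_nat, ← dpz_nat (f j) b, ← mul_smul (dpow (e i) k), dpow_comm_ne hij, mul_smul]
      have := ih i k
      rw [dpz_nat] at this
      exact S_smul_fz lam this j b

lemma S_smul_e {x : LC lam} (hx : x ∈ S lam) (i : Fin 2) (k : ℕ) : dpow (e i) k • x ∈ S lam := by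
  unfold S at hx
  induction hx using AddSubgroup.closure_induction with
  | mem x hx =>
    obtain ⟨w, rfl⟩ := hx
    have := S_aux lam w i k
    rw [dpz_nat] at this
    exact this
  | zero => rw [smul_zero]; exact zero_mem _
  | add x y _ _ hx hy => rw [smul_add]; exact add_mem hx hy
  | neg x _ hx => rw [smul_neg]; exact neg_mem hx

lemma S_UZ {u : UA} (hu : u ∈ UZ) : ∀ x ∈ S lam, u • x ∈ S lam := by
  unfold UZ at hu
  induction hu using Subring.closure_induction with
  | mem y hy =>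
    intro x hx
    obtain ⟨i, k, rfl | rfl⟩ := hy
    · exact S_smul_e lam hx i k
    · exact S_smul_f lam hx i k
  | zero => intro x _; rw [zero_smul]; exact zero_mem _
  | one => intro x hx; rw [one_smul]; exact hx
  | add a b _ _ ha hb => intro x hx; rw [add_smul]; exact add_mem (ha x hx) (hb x hx)
  | neg a _ ha => intro x hx; rw [neg_smul]; exact neg_mem (ha x hx)
  | mul a b _ _ ha hb => intro x hx; rw [mul_smul]; exact ha _ (hb x hx)

lemma VZ_le_S {x : LC lam} (hx : x ∈ VZ lam) : x ∈ S lam := by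
  unfold VZ at hx
  induction hx using Submodule.span_induction with
  | mem y hy =>
    rw [Set.mem_singleton_iff.mp hy]
    exact AddSubgroup.subset_closure ⟨[], one_smul _ _⟩
  | zero => exact zero_mem _
  | add y z _ _ hy hz => exact add_mem hy hz
  | smul a y _ hy => exact S_UZ lam a.2 y hy

lemma smul_mem_VZ {u : UA} (hu : u ∈ UZ) {x : LC lam} (hx : x ∈ VZ lam) : u • x ∈ VZ lam :=
  (VZ lam).smul_mem ⟨u, hu⟩ hx

lemma v_mem_VZ : vlam lam ∈ VZ lam := Submodule.subset_span rfl

lemma mem_VZ_iff {x : LC lam} (hx : x ∈ VZ lam) : ∃ u ∈ UZ, x = u • vlam lam := by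
  unfold VZ at hx
  obtain ⟨u, rfl⟩ := Submodule.mem_span_singleton.mp hx
  exact ⟨u.1, u.2, rfl⟩

lemma eps_VZ {x : LC lam} (hx : x ∈ VZ lam) : ∃ m : ℤ, epsL lam x = m := by
  obtain ⟨u, hu, rfl⟩ := mem_VZ_iff lam hx
  have := eps_UZ lam hu (v_mem_R lam)
  obtain ⟨m, hm⟩ := mem_mult.mp this
  exact ⟨m, by rw [hm, one_mul]⟩

end Pool.Agent.Helper855.Gko.Aff
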