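import Pool.Agent.Helper855.GkoAffVac

/-!
The Verma module of highest weight `K ω_0`, its irreducible quotient, and the vacuum functional.
-/

set_option autoImplicit false
set_option linter.unusedSectionVars false

namespace Pool.Agent.Helper855.Gko.Aff

section instances

variable (lam : Fin 2 → ℕ)

/-- The quotient map from `U(𝔤)` to the Verma module. -/
noncomputable def vermaMk : UA →ₗ[UA] Verma lam := quo (vermaIdeal lam)

/-- The quotient map from the Verma module to `L_ℂ(λ)`. -/
noncomputable def lcMk : Verma lam →ₗ[UA] LC lam := quo (maxSub lam)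

noncomputable instance : Module ℂ (Verma lam) := Module.compHom _ (algebraMap ℂ UA)

instance : IsScalarTower ℂ UA (Verma lam) :=
  IsScalarTower.of_algebraMap_smul fun _ _ => rfl

noncomputable instance : Module ℂ (LC lam) := Module.compHom _ (algebraMap ℂ UA)

instance : IsScalarTower ℂ UA (LC lam) :=
  IsScalarTower.of_algebraMap_smul fun _ _ => rfl

end instances

section general

variable {M : Type*} [AddCommGroup M] [Module ℂ M] [Module UA M] [IsScalarTower ℂ UA M]

lemma cm_smul (a b : UA) (x : M) : a • b • x = b • a • x + cm a b • x := by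
  rw [cm, sub_smul, mul_smul, mul_smul]; abel

lemma zsmul_ua (n : ℤ) (a : UA) (x : M) : (n • a) • x = (n : ℂ) • a • x := by
  rw [← Int.cast_smul_eq_zsmul ℂ, smul_assoc]

lemma algebraMap_smul' (a : ℂ) (x : M) : algebraMap ℂ UA a • x = a • x :=
  algebraMap_smul UA a x

variable (M) in
/-- The operators of the generators. -/
noncomputable def opU (g : AGen) : Module.End ℂ M := Algebra.lsmul ℂ ℂ M (gU g)

lemma opU_apply (g : AGen) (x : M) : opU M g x = gU g • x := rfl

lemma opU_lin (b : AGen →₀ ℂ) (x : M) :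
    Finsupp.linearCombination ℂ (opU M) b x = Finsupp.linearCombination ℂ gU b • x := by
  induction b using Finsupp.induction_linear with
  | zero => simp
  | add p q hp hq => rw [map_add, LinearMap.add_apply, hp, hq, map_add, add_smul]
  | single g a =>
    rw [Finsupp.linearCombination_single, Finsupp.linearCombination_single, LinearMap.smul_apply,
      opU_apply, smul_assoc]

/-- Induction on `U(𝔤)`. -/
lemma UA_ind {P : UA → Prop} (halg : ∀ a : ℂ, P (algebraMap ℂ UA a)) (hg : ∀ g, P (gU g))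
    (hadd : ∀ x y, P x → P y → P (x + y))
    (hmul : ∀ x y, P x → P y → P (x * y)) (u : UA) : P u := by
  obtain ⟨a, rfl⟩ := RingQuot.mkAlgHom_surjective ℂ ARel u
  refine FreeAlgebra.induction ℂ AGen (motive := fun a => P (toUA a)) ?_ ?_ ?_ ?_ a
  · intro r; rw [AlgHom.commutes]; exact halg r
  · intro x; exact hg x
  · intro x y hx hy; rw [map_mul]; exact hmul _ _ hx hy
  · intro x y hx hy; rw [map_add]; exact hadd _ _ hx hy

end general

/-! ### The Verma module -/

section verma

variable (lam : Fin 2 → ℕ)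

/-- The highest weight vector of the Verma module. -/
noncomputable def vac : Verma lam := vermaMk lam 1

lemma vermaMk_eq_zero {u : UA} : vermaMk lam u = 0 ↔ u ∈ vermaIdeal lam :=
  Submodule.Quotient.mk_eq_zero _

lemma vermaMk_surj : Function.Surjective (vermaMk lam) := (vermaIdeal lam).mkQ_surjective

lemma smul_vac (u : UA) : u • vac lam = vermaMk lam u := by
  rw [vac, ← map_smul, smul_eq_mul, mul_one]

lemma vac_x {a : X} {m : ℤ} (hm : 0 < m) : xU a m • vac lam = 0 := by
  rw [smul_vac, vermaMk_eq_zero]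
  exact Submodule.subset_span (Or.inl (Or.inl (Or.inl ⟨a, m, hm, rfl⟩)))

lemma vac_e : xU .e 0 • vac lam = 0 := by
  rw [smul_vac, vermaMk_eq_zero]
  exact Submodule.subset_span (Or.inl (Or.inl (Or.inr rfl)))

lemma vac_h (i : Fin 2) : h i • vac lam = (lam i : ℂ) • vac lam := by
  have e1 : (lam i : ℂ) • vac lam = algebraMap ℂ UA (lam i) • vac lam :=
    (algebraMap_smul' _ _).symm
  rw [e1, ← sub_eq_zero, ← sub_smul, smul_vac, vermaMk_eq_zero]
  exact Submodule.subset_span (Or.inl (Or.inr ⟨i, rfl⟩))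

lemma vac_d : dU • vac lam = 0 := by
  rw [smul_vac, vermaMk_eq_zero]
  exact Submodule.subset_span (Or.inr rfl)

lemma vac_c : cU • vac lam = ((lam 0 : ℂ) + lam 1) • vac lam := by
  have e1 : cU = h 0 + h 1 := by rw [h_zero, h_one]; abel
  rw [e1, add_smul, vac_h, vac_h, ← add_smul]

lemma vacHW : (adata2 ((lam 0 : ℂ) + lam 1) (lam 1)).IsHW (opU (Verma lam)) (vac lam) where
  comm := by
    intro x y m
    rw [opU_lin, opU_apply, opU_apply, opU_apply, opU_apply, cm_smul, gU_comm]
    rfl
  vac := by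
    intro g hg
    rw [opU_apply]
    rcases g with ⟨a, m⟩ | _ | _
    · rw [gU_x]
      change 0 ≤ deg2 (.x a m) at hg
      simp only [deg2] at hg
      rcases lt_trichotomy m 0 with hm | rfl | hm
      · exfalso
        have : wt a ≤ 1 := by rcases a <;> simp [wt]
        omega
      · rcases a with _ | _ | _
        · rw [vac_e]; exact (zero_smul _ _).symm
        · change h 1 • vac lam = (if (0 : ℤ) = 0 then (lam 1 : ℂ) else 0) • vac lam
          rw [vac_h, if_pos rfl]
        · simp [wt] at hg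
      · rw [vac_x lam hm]
        symm
        convert zero_smul ℂ (vac lam)
        rcases a with _ | _ | _
        · rfl
        · change (if m = 0 then (lam 1 : ℂ) else 0) = 0
          rw [if_neg (by omega)]
        · rfl
    · rw [gU_c]; exact vac_c lam
    · rw [gU_d, vac_d]; exact (zero_smul _ _).symm

/-- The degree parts of the Verma module. -/
noncomputable def PV (n : ℤ) : Submodule ℂ (Verma lam) :=
  (adata2 ((lam 0 : ℂ) + lam 1) (lam 1)).P (opU (Verma lam)) (vac lam) n

lemma mem_iSup_PV (x : Verma lam) : x ∈ ⨆ n : ℤ, PV lam n := by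
  obtain ⟨u, rfl⟩ := vermaMk_surj lam x
  rw [← smul_vac]
  have key : ∀ u : UA, ∀ y ∈ ⨆ n : ℤ, PV lam n, u • y ∈ ⨆ n : ℤ, PV lam n := by
    intro u
    refine UA_ind (P := fun u => ∀ y ∈ ⨆ n : ℤ, PV lam n, u • y ∈ ⨆ n : ℤ, PV lam n) ?_ ?_ ?_ ?_ u
    · intro a y hy; rw [algebraMap_smul']; exact Submodule.smul_mem _ _ hy
    · intro g y hy
      exact (vacHW lam).op_iSup _ hy g
    · intro x y hx hy z hz; rw [add_smul]; exact add_mem (hx z hz) (hy z hz)
    · intro x y hx hy z hz; rw [mul_smul]; exact hx _ (hy z hz)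
  exact key u _ (Submodule.mem_iSup_of_mem 0 (Data.v_mem_P _))

/-- The element of `U(𝔤)` acting by minus the principal degree. -/
noncomputable def lenU : UA := (2⁻¹ : ℂ) • (h 1 - algebraMap ℂ UA (lam 1)) + (2 : ℂ) • dU

lemma lenU_comm {a : X} {m : ℤ} {M : Type*} [AddCommGroup M] [Module ℂ M] [Module UA M]
    [IsScalarTower ℂ UA M] (x : M) :
    lenU lam • xU a m • x = xU a m • lenU lam • x + ((2 * m + wt a : ℤ) : ℂ) • xU a m • x := by
  have h1 : cm (h 1) (xU a m) = (2 * wt a) • xU a m := by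
    rw [h_one, ua_xx]
    rcases a <;> simp [brk, form, wt]
  rw [cm_smul]
  congr 1
  have h2 : cm (lenU lam) (xU a m) = (2⁻¹ : ℂ) • cm (h 1) (xU a m) + (2 : ℂ) • cm dU (xU a m) := by
    have e1 : algebraMap ℂ UA (lam 1 : ℂ) * xU a m = xU a m * algebraMap ℂ UA (lam 1 : ℂ) :=
      Algebra.commutes _ _
    simp only [lenU, cm, add_mul, mul_add, smul_mul_assoc, mul_smul_comm, sub_mul, mul_sub, e1,
      smul_sub]
    abel
  have h3 : cm (lenU lam) (xU a m) = ((2 * m + wt a : ℤ) : ℂ) • xU a m := by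
    rw [h2, h1, ua_dx, ← Int.cast_smul_eq_zsmul ℂ, ← Int.cast_smul_eq_zsmul ℂ, smul_smul, smul_smul,
      ← add_smul]
    congr 1
    push_cast
    ring
  rw [h3, smul_assoc]

lemma lenU_vac : lenU lam • vac lam = 0 := by
  rw [lenU, add_smul, smul_assoc, smul_assoc, sub_smul, algebraMap_smul', vac_h, vac_d, sub_self]
  simp

lemma lenU_PV {n : ℤ} {x : Verma lam} (hx : x ∈ PV lam n) : lenU lam • x = (-(n : ℂ)) • x := by
  unfold PV Data.P at hx
  induction hx using Submodule.span_induction with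
  | mem y hy =>
    obtain ⟨w, hw, hs, rfl⟩ := hy
    have key : ∀ w : List AGen, (∀ g ∈ w, deg2 g < 0) →
        lenU lam • Data.wv (opU (Verma lam)) (vac lam) w =
        (((w.map deg2).sum : ℤ) : ℂ) • Data.wv (opU (Verma lam)) (vac lam) w := by
      intro w
      induction w with
      | nil =>
        intro _
        rw [Data.wv_nil, lenU_vac]
        simp
      | cons g w ih =>
        intro hw
        rw [Data.wv_cons, opU_apply]
        have hg := hw g (by simp)
        rcases g with ⟨a, m⟩ | _ | _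
        · rw [gU_x, lenU_comm, ih (fun g hg => hw g (by simp [hg])), smul_comm, ← add_smul]
          congr 1
          rw [List.map_cons, List.sum_cons]
          simp only [deg2]
          push_cast
          ring
        · exact absurd hg (lt_irrefl _)
        · exact absurd hg (lt_irrefl _)
    rw [key w hw]
    have e1 : (w.map deg2).sum = -n := hs
    rw [e1]
    push_cast
    rfl
  | zero => simp
  | add y z _ _ hy hz => rw [smul_add, smul_add, hy, hz]
  | smul a y _ hy => rw [smul_comm, hy, smul_comm]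

end verma

/-! ### The functional -/

section functional

variable (lam : Fin 2 → ℕ) [Fact (lam 1 = 0)]

lemma lam1_zero : lam 1 = 0 := Fact.out

lemma rho_ideal {u : UA} (hu : u ∈ vermaIdeal lam) : arho (lam 0) u (adata1 (lam 0)).vq = 0 := by
  unfold vermaIdeal at hu
  induction hu using Submodule.span_induction with
  | mem y hy =>
    rcases hy with ((⟨a, m, hm, rfl⟩ | hy) | ⟨i, rfl⟩) | hy
    · exact arho_x hm.le
    · rw [Set.mem_singleton_iff.mp hy]; exact arho_x le_rfl
    · change arho _ (h i - algebraMap ℂ UA (lam i)) _ = 0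
      fin_cases i
      · change arho _ ((cU - xU .h 0) - algebraMap ℂ UA (lam 0)) _ = 0
        rw [map_sub, map_sub, LinearMap.sub_apply, LinearMap.sub_apply, arho_x le_rfl, arho_c,
          AlgHom.commutes, Module.algebraMap_end_apply, sub_zero, sub_self]
      · change arho _ (xU .h 0 - algebraMap ℂ UA (lam 1)) _ = 0
        rw [map_sub, LinearMap.sub_apply, arho_x le_rfl, AlgHom.commutes, lam1_zero lam]
        simp
    · rw [Set.mem_singleton_iff.mp hy]; exact arho_d
  | zero => simp
  | add y z _ _ hy hz => rw [map_add, LinearMap.add_apply, hy, hz, add_zero]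
  | smul a y _ hy => rw [smul_eq_mul, map_mul, Module.End.mul_apply, hy, map_zero]

/-- The functional on the Verma module. -/
noncomputable def eps : Verma lam →ₗ[ℂ] ℂ :=
  show (UA ⧸ vermaIdeal lam) →ₗ[ℂ] ℂ from
  (((vermaIdeal lam).restrictScalars ℂ).liftQ (epsU (lam 0)) (fun u hu => by
    rw [LinearMap.mem_ker, epsU_apply, rho_ideal lam hu, map_zero])) ∘ₗ
    (Submodule.Quotient.restrictScalarsEquiv ℂ (vermaIdeal lam)).symm.toLinearMap

lemma eps_smul_vac (u : UA) : eps lam (u • vac lam) = epsU (lam 0) u := by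
  rw [smul_vac]
  rfl

lemma eps_vac : eps lam (vac lam) = 1 := by
  rw [← one_smul UA (vac lam), eps_smul_vac, epsU_one]

lemma eps_neg {g : AGen} (hg : deg1 g < 0) (x : Verma lam) : eps lam (gU g • x) = 0 := by
  obtain ⟨u, rfl⟩ := vermaMk_surj lam x
  rw [← smul_vac, ← mul_smul, eps_smul_vac, epsU_neg hg]

lemma eps_zero {g : AGen} (hg : deg1 g = 0) (x : Verma lam) :
    eps lam (gU g • x) = lam1 (lam 0) g * eps lam x := by
  obtain ⟨u, rfl⟩ := vermaMk_surj lam x
  rw [← smul_vac, ← mul_smul, eps_smul_vac, eps_smul_vac, epsU_zero hg]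

lemma eps_x {a : X} {m : ℤ} (hm : m ≤ 0) (x : Verma lam) : eps lam (xU a m • x) = 0 := by
  rcases lt_or_eq_of_le hm with h0 | h0
  · exact eps_neg lam (g := .x a m) h0 x
  · rw [← gU_x, eps_zero lam (g := .x a m) h0]
    exact zero_mul _

lemma eps_d (x : Verma lam) : eps lam (dU • x) = 0 := by
  rw [← gU_d, eps_zero lam (g := .d) rfl]
  exact zero_mul _

lemma eps_lenU (x : Verma lam) : eps lam (lenU lam • x) = 0 := by
  rw [lenU, add_smul, smul_assoc, smul_assoc, sub_smul, algebraMap_smul', lam1_zero lam, h_one,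
    map_add, map_smul, map_smul, map_sub, eps_x lam le_rfl, eps_d]
  simp

lemma eps_PV {n : ℤ} (hn : n ≠ 0) {x : Verma lam} (hx : x ∈ PV lam n) : eps lam x = 0 := by
  have h1 := eps_lenU lam x
  rw [lenU_PV lam hx, map_smul, smul_eq_mul] at h1
  have h2 : (-(n : ℂ)) ≠ 0 := by
    rw [neg_ne_zero]; exact_mod_cast hn
  exact (mul_eq_zero.mp h1).resolve_left h2

omit [Fact (lam 1 = 0)] in
/-- The projector on the highest weight space. -/
noncomputable def projU : ℕ → UA
  | 0 => 1
  | n + 1 => (1 + ((n + 1 : ℂ)⁻¹) • lenU lam) * projU n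

omit [Fact (lam 1 = 0)] in
lemma projU_PV {k : ℤ} {x : Verma lam} (hx : x ∈ PV lam k) (n : ℕ) :
    ∃ c : ℂ, projU lam n • x = c • x ∧ (k = 0 → c = 1) ∧ (0 < k → k ≤ n → c = 0) := by
  induction n with
  | zero =>
    refine ⟨1, by rw [projU, one_smul, one_smul], fun _ => rfl, fun h1 h2 => ?_⟩
    omega
  | succ n ih =>
    obtain ⟨c, hc1, hc2, hc3⟩ := ih
    refine ⟨(1 + (n + 1 : ℂ)⁻¹ * (-(k : ℂ))) * c, ?_, ?_, ?_⟩
    · rw [projU, mul_smul, hc1, smul_comm, add_smul, one_smul, smul_assoc, lenU_PV lam hx]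
      module
    · intro h0; rw [hc2 h0, h0]; simp
    · intro h0 hk
      rcases lt_or_ge (n : ℤ) k with hlt | hge
      · have : k = n + 1 := by push_cast at hk; omega
        rw [this]
        have hne : (n + 1 : ℂ) ≠ 0 := by exact_mod_cast Nat.succ_ne_zero n
        push_cast
        have : (1 + (n + 1 : ℂ)⁻¹ * (-(n + 1 : ℂ))) = 0 := by field_simp; ring
        rw [this, zero_mul]
      · rw [hc3 h0 hge, mul_zero]

lemma exists_proj (x : Verma lam) : ∃ n0, ∀ n ≥ n0, projU lam n • x = eps lam x • vac lam := by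
  have hx := mem_iSup_PV lam x
  induction hx using Submodule.iSup_induction' with
  | mem k y hy =>
    rcases lt_trichotomy k 0 with hk | rfl | hk
    · have : y = 0 := Data.P_neg _ hk hy
      subst this
      exact ⟨0, fun n _ => by simp⟩
    · obtain ⟨a, rfl⟩ := Data.P_zero _ hy
      refine ⟨0, fun n _ => ?_⟩
      obtain ⟨c, hc1, hc2, hc3⟩ := projU_PV lam hy n
      rw [hc1, hc2 rfl, one_smul, map_smul, eps_vac, smul_eq_mul, mul_one]
    · refine ⟨k.toNat, fun n hn => ?_⟩
      obtain ⟨c, hc1, hc2, hc3⟩ := projU_PV lam hy n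
      rw [hc1, hc3 hk (by omega), zero_smul, eps_PV lam (by omega) hy, zero_smul]
  | zero => exact ⟨0, fun n _ => by simp⟩
  | add x y _ _ hx hy =>
    obtain ⟨n1, h1⟩ := hx
    obtain ⟨n2, h2⟩ := hy
    refine ⟨max n1 n2, fun n hn => ?_⟩
    rw [smul_add, h1 n (le_trans (le_max_left _ _) hn),
      h2 n (le_trans (le_max_right _ _) hn), map_add, add_smul]

lemma eps_proper {N : Submodule UA (Verma lam)} (hN : N ≠ ⊤) {x : Verma lam} (hx : x ∈ N) :
    eps lam x = 0 := by
  by_contra h0
  apply hN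
  obtain ⟨n, hn⟩ := exists_proj lam x
  have h1 := N.smul_mem (projU lam n) hx
  rw [hn n le_rfl] at h1
  have h2 : vac lam ∈ N := by
    have := N.smul_mem (algebraMap ℂ UA (eps lam x)⁻¹) h1
    rw [algebraMap_smul', smul_smul, inv_mul_cancel₀ h0, one_smul] at this
    exact this
  rw [eq_top_iff]
  intro y _
  obtain ⟨u, rfl⟩ := vermaMk_surj lam y
  rw [← smul_vac]
  exact N.smul_mem u h2

lemma eps_maxSub {x : Verma lam} (hx : x ∈ maxSub lam) : eps lam x = 0 := by
  unfold maxSub at hx
  rw [sSup_eq_iSup'] at hx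
  induction hx using Submodule.iSup_induction' with
  | mem N y hy => exact eps_proper lam N.2 hy
  | zero => exact map_zero _
  | add y z _ _ hy hz => rw [map_add, hy, hz, add_zero]

/-! ### The irreducible module -/

lemma lcMk_surj : Function.Surjective (lcMk lam) := (maxSub lam).mkQ_surjective

/-- The functional on the irreducible module. -/
noncomputable def epsL : LC lam →ₗ[ℂ] ℂ :=
  show (Verma lam ⧸ maxSub lam) →ₗ[ℂ] ℂ from
  (((maxSub lam).restrictScalars ℂ).liftQ (eps lam) (fun _ hu => eps_maxSub lam hu)) ∘ₗ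
    (Submodule.Quotient.restrictScalarsEquiv ℂ (maxSub lam)).symm.toLinearMap

lemma epsL_mk (x : Verma lam) : epsL lam (lcMk lam x) = eps lam x := rfl

lemma lcMk_smul (a : ℂ) (x : Verma lam) : lcMk lam (a • x) = a • lcMk lam x :=
  map_smul (lcMk lam) (algebraMap ℂ UA a) x

lemma vlam_eq : vlam lam = lcMk lam (vac lam) := rfl

lemma epsL_vlam : epsL lam (vlam lam) = 1 := by
  rw [vlam_eq, epsL_mk, eps_vac]

lemma epsL_x {a : X} {m : ℤ} (hm : m ≤ 0) (x : LC lam) : epsL lam (xU a m • x) = 0 := by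
  obtain ⟨y, rfl⟩ := lcMk_surj lam x
  rw [← map_smul, epsL_mk, eps_x lam hm]

lemma epsL_f (i : Fin 2) (x : LC lam) : epsL lam (f i • x) = 0 := by
  fin_cases i
  · exact epsL_x lam (a := .e) (m := -1) (by norm_num) x
  · exact epsL_x lam (a := .f) (m := 0) le_rfl x

lemma exists_smul_vlam (x : LC lam) : ∃ u : UA, x = u • vlam lam := by
  obtain ⟨y, rfl⟩ := lcMk_surj lam x
  obtain ⟨u, rfl⟩ := vermaMk_surj lam y
  exact ⟨u, by rw [vlam_eq, ← map_smul, smul_vac]⟩

/-- All `x(m)` with `m ≥ 0` kill the highest weight vector of the irreducible module. -/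
lemma x_vlam {a : X} {m : ℤ} (hm : 0 ≤ m) : xU a m • vlam lam = 0 := by
  rw [vlam_eq, ← map_smul]
  refine (Submodule.Quotient.mk_eq_zero _).mpr ?_
  have hmem : xU a m • vac lam ∈ Submodule.span UA {xU a m • vac lam} :=
    Submodule.mem_span_singleton_self _
  refine (le_sSup (a := Submodule.span UA {xU a m • vac lam}) ?_) hmem
  intro htop
  have h1 : vac lam ∈ Submodule.span UA {xU a m • vac lam} := by rw [htop]; trivial
  obtain ⟨u, hu⟩ := Submodule.mem_span_singleton.mp h1
  have h2 := congrArg (eps lam) hu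
  rw [← mul_smul, eps_smul_vac, eps_vac, epsU_apply, map_mul, Module.End.mul_apply, arho_x hm,
    map_zero, map_zero] at h2
  exact zero_ne_one h2

lemma h_vlam (i : Fin 2) : h i • vlam lam = (lam i : ℂ) • vlam lam := by
  rw [vlam_eq, ← map_smul, vac_h]
  rfl

lemma c_vlam : cU • vlam lam = (lam 0 : ℂ) • vlam lam := by
  rw [vlam_eq, ← map_smul, vac_c, lam1_zero lam]
  simp

lemma d_vlam : dU • vlam lam = 0 := by
  rw [vlam_eq, ← map_smul, vac_d, map_zero]

lemma e_vlam (i : Fin 2) : e i • vlam lam = 0 := by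
  fin_cases i
  · exact x_vlam lam (a := .f) (m := 1) (by norm_num)
  · exact x_vlam lam (a := .e) (m := 0) le_rfl

lemma cU_comm (u : UA) : cU * u = u * cU := by
  refine UA_ind (P := fun u => cU * u = u * cU) ?_ ?_ ?_ ?_ u
  · intro a; exact (Algebra.commutes a cU).symm
  · intro g; exact sub_eq_zero.mp (ua_cg g)
  · intro x y hx hy; rw [mul_add, add_mul, hx, hy]
  · intro x y hx hy; rw [← mul_assoc, hx, mul_assoc, hy, mul_assoc]

lemma c_LC (x : LC lam) : cU • x = (lam 0 : ℂ) • x := by
  obtain ⟨u, rfl⟩ := exists_smul_vlam lam x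
  rw [← mul_smul, cU_comm, mul_smul, c_vlam, smul_comm]

/-- Smoothness of the irreducible module. -/
lemma smooth_LC (x : LC lam) : ∃ N : ℤ, ∀ m ≥ N, ∀ a : X, xU a m • x = 0 := by
  obtain ⟨u, rfl⟩ := exists_smul_vlam lam x
  have key : ∀ u : UA, ∀ x : LC lam, (∃ N : ℤ, ∀ m ≥ N, ∀ a : X, xU a m • x = 0) →
      ∃ N : ℤ, ∀ m ≥ N, ∀ a : X, xU a m • u • x = 0 := by
    intro u
    refine UA_ind (P := fun u => ∀ x : LC lam, (∃ N : ℤ, ∀ m ≥ N, ∀ a : X, xU a m • x = 0) →
      ∃ N : ℤ, ∀ m ≥ N, ∀ a : X, xU a m • u • x = 0) ?_ ?_ ?_ ?_ u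
    · rintro r x ⟨N, hN⟩
      refine ⟨N, fun m hm a => ?_⟩
      rw [algebraMap_smul', smul_comm, hN m hm a, smul_zero]
    · rintro g x ⟨N, hN⟩
      rcases g with ⟨b, n⟩ | _ | _
      · refine ⟨max N (max (N - n) (-n + 1)), fun m hm a => ?_⟩
        have h1 : N ≤ m := le_trans (le_max_left _ _) hm
        have h2 : N - n ≤ m := le_trans (le_trans (le_max_left _ _) (le_max_right _ _)) hm
        have h3 : -n + 1 ≤ m := le_trans (le_trans (le_max_right _ _) (le_max_right _ _)) hm
        rw [gU_x, cm_smul, hN m h1 a, smul_zero, zero_add, ua_xx, add_smul, zsmul_ua,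
          hN (m + n) (by omega), if_neg (by omega), smul_zero, zero_add, zsmul_ua]
        simp
      · refine ⟨N, fun m hm a => ?_⟩
        rw [gU_c, cm_smul, hN m hm a, smul_zero, zero_add, ua_xc, zero_smul]
      · refine ⟨N, fun m hm a => ?_⟩
        rw [gU_d, cm_smul, hN m hm a, smul_zero, zero_add, cm_skew, ua_dx, neg_smul, zsmul_ua,
          hN m hm a, smul_zero, neg_zero]
    · intro u v hu hv x hx
      obtain ⟨N1, h1⟩ := hu x hx
      obtain ⟨N2, h2⟩ := hv x hx
      refine ⟨max N1 N2, fun m hm a => ?_⟩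
      rw [add_smul, smul_add, h1 m (le_trans (le_max_left _ _) hm),
        h2 m (le_trans (le_max_right _ _) hm), add_zero]
    · intro u v hu hv x hx
      have := hu _ (hv x hx)
      simpa only [mul_smul] using this
  exact key u _ ⟨0, fun m hm a => x_vlam lam hm⟩

end functional

end Pool.Agent.Helper855.Gko.Aff
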