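import Pool.Agent.Helper855.GkoFun
import Pool.Agent.Helper855.GkoAffDefs

/-!
Relations in the enveloping algebra of the affine algebra; the loop generators lie in the
Kostant-Garland form.
-/

set_option autoImplicit false
set_option linter.unusedSectionVars false

namespace Pool.Agent.Helper855.Gko.Aff

section commutators

variable {R : Type*} [Ring R]

lemma cm_zero (a : R) : cm a 0 = 0 := by simp [cm]

lemma cm_neg (a b : R) : cm a (-b) = - cm a b := by simp only [cm]; noncomm_ring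

lemma cm_add (a b c : R) : cm a (b + c) = cm a b + cm a c := by simp only [cm]; noncomm_ring

lemma cm_sub (a b c : R) : cm a (b - c) = cm a b - cm a c := by simp only [cm]; noncomm_ring

lemma add_cm (a b c : R) : cm (a + b) c = cm a c + cm b c := by simp only [cm]; noncomm_ring

lemma sub_cm (a b c : R) : cm (a - b) c = cm a c - cm b c := by simp only [cm]; noncomm_ring

lemma cm_zsmul (n : ℤ) (a b : R) : cm a (n • b) = n • cm a b := by
  simp only [cm, mul_smul_comm, smul_mul_assoc, smul_sub]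

lemma zsmul_cm (n : ℤ) (a b : R) : cm (n • a) b = n • cm a b := by
  simp only [cm, mul_smul_comm, smul_mul_assoc, smul_sub]

lemma cm_skew (a b : R) : cm a b = - cm b a := by simp only [cm]; noncomm_ring

lemma neg_cm (a b : R) : cm (-a) b = - cm a b := by
  simp only [cm, neg_mul, mul_neg]; abel

lemma cm_self (a : R) : cm a a = 0 := by simp [cm]

end commutators

lemma toUA_rel {a b : FreeAlgebra ℂ AGen} (H : ARel a b) : toUA a = toUA b :=
  RingQuot.mkAlgHom_rel ℂ H

lemma toUA_cm (a b : FreeAlgebra ℂ AGen) : toUA (cm a b) = cm (toUA a) (toUA b) := by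
  simp only [cm, map_sub, map_mul]

/-- The generators of `U(𝔤)`. -/
noncomputable def gU (g : AGen) : UA := toUA (agn g)

lemma gU_x (a : X) (m : ℤ) : gU (.x a m) = xU a m := rfl
lemma gU_c : gU .c = cU := rfl
lemma gU_d : gU .d = dU := rfl

lemma ua_xx (a b : X) (m n : ℤ) : cm (xU a m) (xU b n) =
    (brk a b).1 • xU (brk a b).2 (m + n) + (if m + n = 0 then m * form a b else 0) • cU := by
  have h1 := toUA_rel (ARel.xx a b m n)
  rw [toUA_cm, map_add, map_zsmul, map_zsmul] at h1
  exact h1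

lemma ua_cg (g : AGen) : cm cU (gU g) = 0 := by
  have h1 := toUA_rel (ARel.cx g)
  rw [toUA_cm, map_zero] at h1
  exact h1

lemma ua_cx (a : X) (m : ℤ) : cm cU (xU a m) = 0 := ua_cg (.x a m)

lemma ua_xc (a : X) (m : ℤ) : cm (xU a m) cU = 0 := by rw [cm_skew, ua_cx, neg_zero]

lemma ua_dx (a : X) (m : ℤ) : cm dU (xU a m) = m • xU a m := by
  have h1 := toUA_rel (ARel.dx a m)
  rw [toUA_cm, map_zsmul] at h1
  exact h1

lemma ua_dc : cm dU cU = 0 := by
  rw [cm_skew, show cm cU dU = 0 from ua_cg .d, neg_zero]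

lemma ua_ef' (p q : ℤ) : cm (xU .e p) (xU .f q) = xU .h (p + q) + (if p + q = 0 then p else 0) • cU := by
  rw [ua_xx]; simp [brk, form]

lemma ua_fe' (p q : ℤ) : cm (xU .f p) (xU .e q) =
    - xU .h (p + q) + (if p + q = 0 then p else 0) • cU := by
  rw [ua_xx]; simp [brk, form]

lemma ua_eh' (p q : ℤ) : cm (xU .e p) (xU .h q) = (-2 : ℤ) • xU .e (p + q) := by
  rw [ua_xx]; simp [brk, form]

lemma ua_fh' (p q : ℤ) : cm (xU .f p) (xU .h q) = (2 : ℤ) • xU .f (p + q) := by
  rw [ua_xx]; simp [brk, form]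

lemma ua_he' (p q : ℤ) : cm (xU .h p) (xU .e q) = (2 : ℤ) • xU .e (p + q) := by
  rw [ua_xx]; simp [brk, form]

lemma ua_hf' (p q : ℤ) : cm (xU .h p) (xU .f q) = (-2 : ℤ) • xU .f (p + q) := by
  rw [ua_xx]; simp [brk, form]

lemma ua_ee' (p q : ℤ) : cm (xU .e p) (xU .e q) = 0 := by
  rw [ua_xx]; simp [brk, form]

lemma ua_ff' (p q : ℤ) : cm (xU .f p) (xU .f q) = 0 := by
  rw [ua_xx]; simp [brk, form]

/-! ### Membership in `U_ℤ` -/

lemma dpow_zero (x : UA) : dpow x 0 = 1 := by simp [dpow]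

lemma dpow_one (x : UA) : dpow x 1 = x := by simp [dpow]

lemma dpow_e_mem (i : Fin 2) (k : ℕ) : dpow (e i) k ∈ UZ :=
  Subring.subset_closure ⟨i, k, Or.inl rfl⟩

lemma dpow_f_mem (i : Fin 2) (k : ℕ) : dpow (f i) k ∈ UZ :=
  Subring.subset_closure ⟨i, k, Or.inr rfl⟩

lemma e_mem (i : Fin 2) : e i ∈ UZ := by rw [← dpow_one (e i)]; exact dpow_e_mem i 1

lemma f_mem (i : Fin 2) : f i ∈ UZ := by rw [← dpow_one (f i)]; exact dpow_f_mem i 1

lemma half_ad (u w : UA) : (2⁻¹ : ℂ) • cm u (cm u w) =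
    dpow u 2 * w - u * w * u + w * dpow u 2 := by
  have h1 : cm u (cm u w) = u ^ 2 * w - (2 : ℂ) • (u * w * u) + w * u ^ 2 := by
    simp only [cm, two_smul, mul_sub, sub_mul, pow_two, mul_assoc]; abel
  rw [h1, dpow]
  simp only [Nat.factorial, smul_add, smul_sub, smul_smul, smul_mul_assoc, mul_smul_comm]
  norm_num

lemma half_ad_mem {u w : UA} (hu : u ∈ UZ) (hu2 : dpow u 2 ∈ UZ) (hw : w ∈ UZ) :
    (2⁻¹ : ℂ) • cm u (cm u w) ∈ UZ := by
  rw [half_ad]
  exact add_mem (sub_mem (mul_mem hu2 hw) (mul_mem (mul_mem hu hw) hu)) (mul_mem hw hu2)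

lemma ad_ef (p q : ℤ) : (2⁻¹ : ℂ) • cm (xU .e p) (cm (xU .e p) (xU .f q)) =
    - xU .e (p + (p + q)) := by
  rw [ua_ef', cm_add, ua_eh', cm_zsmul, ua_xc, zsmul_zero, add_zero, ← Int.cast_smul_eq_zsmul ℂ,
    smul_smul]
  norm_num

lemma ad_fe (p q : ℤ) : (2⁻¹ : ℂ) • cm (xU .f p) (cm (xU .f p) (xU .e q)) =
    - xU .f (p + (p + q)) := by
  rw [ua_fe', cm_add, cm_neg, ua_fh', cm_zsmul, ua_xc, zsmul_zero, add_zero,
    ← Int.cast_smul_eq_zsmul ℂ, smul_neg, smul_smul]
  norm_num

lemma e0_mem : xU .e 0 ∈ UZ := e_mem 1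
lemma f1_mem : xU .f 1 ∈ UZ := e_mem 0
lemma e1_mem : xU .e (-1) ∈ UZ := f_mem 0
lemma f0_mem : xU .f 0 ∈ UZ := f_mem 1

lemma step1 {q : ℤ} (hq : xU .f q ∈ UZ) : xU .e q ∈ UZ := by
  have := half_ad_mem e0_mem (dpow_e_mem 1 2) hq
  change (2⁻¹ : ℂ) • cm (xU .e 0) (cm (xU .e 0) (xU .f q)) ∈ UZ at this
  rw [ad_ef] at this
  simpa using this

lemma step2 {q : ℤ} (hq : xU .e q ∈ UZ) : xU .f (q + 2) ∈ UZ := by
  have := half_ad_mem f1_mem (dpow_e_mem 0 2) hq
  change (2⁻¹ : ℂ) • cm (xU .f 1) (cm (xU .f 1) (xU .e q)) ∈ UZ at this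
  rw [ad_fe] at this
  have e1 : (1 : ℤ) + (1 + q) = q + 2 := by ring
  rw [e1] at this
  simpa using this

lemma step3 {q : ℤ} (hq : xU .f q ∈ UZ) : xU .e (q - 2) ∈ UZ := by
  have := half_ad_mem e1_mem (dpow_f_mem 0 2) hq
  change (2⁻¹ : ℂ) • cm (xU .e (-1)) (cm (xU .e (-1)) (xU .f q)) ∈ UZ at this
  rw [ad_ef] at this
  have e1 : (-1 : ℤ) + (-1 + q) = q - 2 := by ring
  rw [e1] at this
  simpa using this

lemma step4 {q : ℤ} (hq : xU .e q ∈ UZ) : xU .f q ∈ UZ := by
  have := half_ad_mem f0_mem (dpow_f_mem 1 2) hq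
  change (2⁻¹ : ℂ) • cm (xU .f 0) (cm (xU .f 0) (xU .e q)) ∈ UZ at this
  rw [ad_fe] at this
  simpa using this

lemma f_all (n : ℕ) : xU .f (2 * n) ∈ UZ ∧ xU .f (-(2 * n)) ∈ UZ ∧ xU .f (2 * n + 1) ∈ UZ ∧
    xU .f (-(2 * n) + 1) ∈ UZ := by
  induction n with
  | zero => simp [f0_mem, f1_mem]
  | succ n ih =>
    obtain ⟨h1, h2, h3, h4⟩ := ih
    refine ⟨?_, ?_, ?_, ?_⟩
    · have := step2 (step1 h1)
      convert this using 2
      push_cast; ring
    · have := step4 (step3 h2)
      convert this using 2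
      push_cast; ring
    · have := step2 (step1 h3)
      convert this using 2
      push_cast; ring
    · have := step4 (step3 h4)
      convert this using 2
      push_cast; ring

lemma xf_mem (m : ℤ) : xU .f m ∈ UZ := by
  rcases Int.even_or_odd' m with ⟨k, rfl | rfl⟩
  · rcases Int.eq_nat_or_neg k with ⟨n, rfl | rfl⟩
    · exact (f_all n).1
    · have := (f_all n).2.1
      convert this using 2
      ring
  · rcases Int.eq_nat_or_neg k with ⟨n, rfl | rfl⟩
    · exact (f_all n).2.2.1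
    · have := (f_all n).2.2.2
      convert this using 2
      ring

lemma xe_mem (m : ℤ) : xU .e m ∈ UZ := step1 (xf_mem m)

lemma cm_mem {u w : UA} (hu : u ∈ UZ) (hw : w ∈ UZ) : cm u w ∈ UZ :=
  sub_mem (mul_mem hu hw) (mul_mem hw hu)

lemma xh_mem (m : ℤ) : xU .h m ∈ UZ := by
  have h1 := cm_mem (xe_mem 0) (xf_mem m)
  rw [ua_ef'] at h1
  simpa using h1

/-- The elements `x(m)` lie in `U_ℤ`. -/
theorem xU_mem (a : X) (m : ℤ) : xU a m ∈ UZ := by
  cases a with
  | e => exact xe_mem m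
  | h => exact xh_mem m
  | f => exact xf_mem m

lemma cU_mem : cU ∈ UZ := by
  have h1 := cm_mem (xe_mem 1) (xf_mem (-1))
  rw [ua_ef'] at h1
  have h2 := sub_mem h1 (xh_mem (1 + -1))
  simpa using h2

/-! ### The Chevalley generators -/

/-- The Cartan matrix. -/
def cartan (i j : Fin 2) : ℤ := if i = j then 2 else -2

lemma e_zero : e 0 = xU .f 1 := rfl
lemma e_one : e 1 = xU .e 0 := rfl
lemma f_zero : f 0 = xU .e (-1) := rfl
lemma f_one : f 1 = xU .f 0 := rfl
lemma h_zero : h 0 = cU - xU .h 0 := rfl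
lemma h_one : h 1 = xU .h 0 := rfl

lemma ua_ef (i j : Fin 2) : cm (e i) (f j) = if i = j then h i else 0 := by
  fin_cases i <;> fin_cases j
  · change cm (xU .f 1) (xU .e (-1)) = cU - xU .h 0
    rw [ua_fe']
    norm_num
    abel
  · change cm (xU .f 1) (xU .f 0) = 0
    rw [ua_ff']
  · change cm (xU .e 0) (xU .e (-1)) = 0
    rw [ua_ee']
  · change cm (xU .e 0) (xU .f 0) = xU .h 0
    rw [ua_ef']
    simp

lemma ua_he (i j : Fin 2) : cm (h i) (e j) = cartan i j • e j := by
  fin_cases i <;> fin_cases j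
  · change cm (cU - xU .h 0) (xU .f 1) = (2 : ℤ) • xU .f 1
    rw [sub_cm, ua_cx, ua_hf']
    norm_num
  · change cm (cU - xU .h 0) (xU .e 0) = (-2 : ℤ) • xU .e 0
    rw [sub_cm, ua_cx, ua_he']
    norm_num
  · change cm (xU .h 0) (xU .f 1) = (-2 : ℤ) • xU .f 1
    rw [ua_hf']
    norm_num
  · change cm (xU .h 0) (xU .e 0) = (2 : ℤ) • xU .e 0
    rw [ua_he']
    norm_num

lemma ua_hf (i j : Fin 2) : cm (h i) (f j) = - (cartan i j • f j) := by
  fin_cases i <;> fin_cases j
  · change cm (cU - xU .h 0) (xU .e (-1)) = - ((2 : ℤ) • xU .e (-1))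
    rw [sub_cm, ua_cx, ua_he']
    norm_num
  · change cm (cU - xU .h 0) (xU .f 0) = - ((-2 : ℤ) • xU .f 0)
    rw [sub_cm, ua_cx, ua_hf']
    norm_num
  · change cm (xU .h 0) (xU .e (-1)) = - ((-2 : ℤ) • xU .e (-1))
    rw [ua_he']
    norm_num
  · change cm (xU .h 0) (xU .f 0) = - ((2 : ℤ) • xU .f 0)
    rw [ua_hf']
    norm_num

/-! ### Structure constants -/

/-- The brackets of generators. -/
noncomputable def abr : AGen → AGen → (AGen →₀ ℂ)
  | .x a m, .x b n => Finsupp.single (.x (brk a b).2 (m + n)) ((brk a b).1 : ℂ) +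
      Finsupp.single .c (((if m + n = 0 then m * form a b else 0 : ℤ)) : ℂ)
  | .x _ _, .c => 0
  | .x a m, .d => Finsupp.single (.x a m) (-(m : ℂ))
  | .c, _ => 0
  | .d, .x a m => Finsupp.single (.x a m) (m : ℂ)
  | .d, .c => 0
  | .d, .d => 0

lemma abr_xx (a b : X) (m n : ℤ) : abr (.x a m) (.x b n) =
    Finsupp.single (.x (brk a b).2 (m + n)) ((brk a b).1 : ℂ) +
      Finsupp.single .c (((if m + n = 0 then m * form a b else 0 : ℤ)) : ℂ) := rfl
lemma abr_xc (a : X) (m : ℤ) : abr (.x a m) .c = 0 := rfl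
lemma abr_xd (a : X) (m : ℤ) : abr (.x a m) .d = Finsupp.single (.x a m) (-(m : ℂ)) := rfl
lemma abr_c (g : AGen) : abr .c g = 0 := rfl
lemma abr_dx (a : X) (m : ℤ) : abr .d (.x a m) = Finsupp.single (.x a m) (m : ℂ) := rfl
lemma abr_dc : abr .d .c = 0 := rfl
lemma abr_dd : abr .d .d = 0 := rfl

lemma brk_skew (a b : X) (s : ℤ) : (Finsupp.single (AGen.x (brk a b).2 s) ((brk a b).1 : ℂ)) =
    - Finsupp.single (AGen.x (brk b a).2 s) ((brk b a).1 : ℂ) := by
  rcases a <;> rcases b <;> simp [brk]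

lemma form_symm (a b : X) : form a b = form b a := by
  rcases a <;> rcases b <;> rfl

lemma form_inv (a b c : X) : (brk b c).1 * form a (brk b c).2 = (brk a b).1 * form (brk a b).2 c := by
  rcases a <;> rcases b <;> rcases c <;> rfl

lemma brk_jac (a b c : X) (s : ℤ) :
    ((brk b c).1 : ℂ) • Finsupp.single (AGen.x (brk a (brk b c).2).2 s)
      ((brk a (brk b c).2).1 : ℂ) -
    ((brk a c).1 : ℂ) • Finsupp.single (AGen.x (brk b (brk a c).2).2 s)
      ((brk b (brk a c).2).1 : ℂ) =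
    ((brk a b).1 : ℂ) • Finsupp.single (AGen.x (brk (brk a b).2 c).2 s)
      ((brk (brk a b).2 c).1 : ℂ) := by
  rcases a <;> rcases b <;> rcases c <;> simp [brk]

lemma abr_skew (x y : AGen) : abr x y = - abr y x := by
  rcases x with ⟨a, m⟩ | _ | _ <;> rcases y with ⟨b, n⟩ | _ | _ <;>
    simp only [abr_xx, abr_xc, abr_xd, abr_c, abr_dx, abr_dc, abr_dd, neg_zero]
  · rw [brk_skew a b, neg_add, add_comm n m, form_symm b a, ← Finsupp.single_neg]
    congr 2
    split_ifs with h0
    · have : n = -m := by omega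
      subst this
      rw [← Finsupp.single_neg]
      push_cast; ring_nf
    · simp
  · rw [← Finsupp.single_neg]
  · rw [← Finsupp.single_neg, neg_neg]

lemma ajac (x y z : AGen) : Finsupp.linearCombination ℂ (abr x) (abr y z) -
    Finsupp.linearCombination ℂ (abr y) (abr x z) =
    Finsupp.linearCombination ℂ (fun g => abr g z) (abr x y) := by
  rcases x with ⟨a, m⟩ | _ | _ <;> rcases y with ⟨b, n⟩ | _ | _ <;> rcases z with ⟨c, k⟩ | _ | _ <;>
    simp only [abr_xx, abr_xc, abr_xd, abr_c, abr_dx, abr_dc, abr_dd, map_add, map_zero,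
      Finsupp.linearCombination_single, smul_zero, add_zero, sub_zero, zero_sub, neg_zero,
      zero_add, sub_self]
  · have e1 : m + (n + k) = m + n + k := by ring
    have e2 : n + (m + k) = m + n + k := by ring
    rw [e1, e2]
    have h1 := brk_jac a b c (m + n + k)
    have h2 : (brk b c).1 * form a (brk b c).2 = (brk a b).1 * form (brk a b).2 c := form_inv a b c
    have h3 : (brk a c).1 * form b (brk a c).2 = - ((brk a b).1 * form (brk a b).2 c) := by
      have h4 := form_inv b a c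
      rw [h4]
      rcases a <;> rcases b <;> simp [brk]
    rw [smul_add, smul_add, smul_add, ← h1]
    simp only [Finsupp.smul_single, smul_eq_mul]
    have h5 : ∀ (u v w p q r : AGen →₀ ℂ), p - q = r → u + p - (v + q) = u - v + r := by
      intro u v w p q r h; rw [← h]; abel
    refine h5 _ _ 0 _ _ _ ?_
    rw [← Finsupp.single_sub]
    congr 1
    split_ifs with h0
    · have h2' : ((brk b c).1 : ℂ) * (form a (brk b c).2 : ℂ) =
        ((brk a b).1 : ℂ) * (form (brk a b).2 c : ℂ) := by exact_mod_cast h2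
      have h3' : ((brk a c).1 : ℂ) * (form b (brk a c).2 : ℂ) =
        - (((brk a b).1 : ℂ) * (form (brk a b).2 c : ℂ)) := by exact_mod_cast h3
      push_cast
      linear_combination (m : ℂ) * h2' - (n : ℂ) * h3'
    · simp
  · have e : (Finsupp.single (AGen.x (brk b a).2 (n + m)) ((brk b a).1 : ℂ) +
        Finsupp.single .c (((if n + m = 0 then n * form b a else 0 : ℤ)) : ℂ)) =
        - (Finsupp.single (AGen.x (brk a b).2 (m + n)) ((brk a b).1 : ℂ) +
        Finsupp.single .c (((if m + n = 0 then m * form a b else 0 : ℤ)) : ℂ)) :=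
      abr_skew (.x b n) (.x a m)
    rw [e]
    by_cases h0 : m + n = 0
    · have h1 : n = -m := by omega
      subst h1
      rw [add_neg_cancel]
      simp only [Int.cast_neg, Int.cast_zero, neg_zero, Finsupp.single_zero, smul_zero]
      module
    · rw [if_neg h0, Int.cast_zero, Finsupp.single_zero, add_zero, ← Finsupp.single_neg,
        Finsupp.smul_single, Finsupp.smul_single, Finsupp.smul_single, ← Finsupp.single_sub]
      congr 1
      simp only [smul_eq_mul]
      push_cast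
      ring
  · by_cases h0 : m + k = 0
    · have h1 : k = -m := by omega
      subst h1
      rw [add_neg_cancel]
      simp only [Int.cast_neg, Int.cast_zero, Finsupp.single_zero, smul_zero]
      module
    · rw [if_neg h0, Int.cast_zero, Finsupp.single_zero, add_zero,
        Finsupp.smul_single, Finsupp.smul_single, Finsupp.smul_single, ← Finsupp.single_sub]
      congr 1
      simp only [smul_eq_mul]
      push_cast
      ring
  · simp
  · by_cases h0 : n + k = 0
    · have h1 : k = -n := by omega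
      subst h1
      rw [add_neg_cancel]
      simp only [Int.cast_neg, Int.cast_zero, Finsupp.single_zero, smul_zero]
      module
    · rw [if_neg h0, Int.cast_zero, Finsupp.single_zero, add_zero,
        Finsupp.smul_single, Finsupp.smul_single, Finsupp.smul_single, ← Finsupp.single_sub]
      congr 1
      simp only [smul_eq_mul]
      push_cast
      ring
  · simp

end Pool.Agent.Helper855.Gko.Aff
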