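import Pool.Agent.Helper855.GkoHW
import Pool.Agent.Helper855.GkoAffRel

/-!
The vacuum functional on the irreducible modules of highest weight `K ω_0`.
-/

set_option autoImplicit false
set_option linter.unusedSectionVars false

namespace Pool.Agent.Helper855.Gko.Aff

/-! ### Two gradings -/

/-- The degree in `t`. -/
def deg1 : AGen → ℤ
  | .x _ m => m
  | .c => 0
  | .d => 0

/-- The weight of a basis vector of `sl_2`. -/
def wt : X → ℤ
  | .e => 1
  | .h => 0
  | .f => -1

/-- The principal degree. -/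
def deg2 : AGen → ℤ
  | .x a m => 2 * m + wt a
  | .c => 0
  | .d => 0

lemma wt_brk (a b : X) (h0 : (brk a b).1 ≠ 0) : wt (brk a b).2 = wt a + wt b := by
  rcases a <;> rcases b <;> simp_all [brk, wt]

lemma abr_supp (x y g : AGen) (hg : abr x y g ≠ 0) :
    (∃ a m b n, x = .x a m ∧ y = .x b n ∧ (brk a b).1 ≠ 0 ∧ g = .x (brk a b).2 (m + n)) ∨
    (∃ a m b n, x = .x a m ∧ y = .x b n ∧ m + n = 0 ∧ form a b ≠ 0 ∧ m ≠ 0 ∧ g = .c) ∨
    (∃ a m, x = .x a m ∧ y = .d ∧ m ≠ 0 ∧ g = .x a m) ∨
    (∃ a m, x = .d ∧ y = .x a m ∧ m ≠ 0 ∧ g = .x a m) := by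
  classical
  rcases x with ⟨a, m⟩ | _ | _ <;> rcases y with ⟨b, n⟩ | _ | _
  · rw [abr_xx, Finsupp.add_apply, Finsupp.single_apply, Finsupp.single_apply] at hg
    by_cases h1 : AGen.x (brk a b).2 (m + n) = g
    · left
      refine ⟨a, m, b, n, rfl, rfl, ?_, h1.symm⟩
      intro h2
      subst h1
      rw [if_pos rfl, h2] at hg
      simp at hg
    · rw [if_neg h1, zero_add] at hg
      right; left
      by_cases h2 : AGen.c = g
      · rw [if_pos h2] at hg
        by_cases h3 : m + n = 0
        · rw [if_pos h3] at hg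
          refine ⟨a, m, b, n, rfl, rfl, h3, ?_, ?_, h2.symm⟩
          · intro h4; rw [h4] at hg; simp at hg
          · intro h4; rw [h4] at hg; simp at hg
        · rw [if_neg h3] at hg; simp at hg
      · rw [if_neg h2] at hg; exact absurd rfl hg
  · exact absurd rfl hg
  · rw [abr_xd, Finsupp.single_apply] at hg
    right; right; left
    by_cases h1 : AGen.x a m = g
    · refine ⟨a, m, rfl, rfl, ?_, h1.symm⟩
      rintro rfl
      simp at hg
    · rw [if_neg h1] at hg; exact absurd rfl hg
  · exact absurd rfl hg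
  · exact absurd rfl hg
  · exact absurd rfl hg
  · rw [abr_dx, Finsupp.single_apply] at hg
    right; right; right
    by_cases h1 : AGen.x b n = g
    · refine ⟨b, n, rfl, rfl, ?_, h1.symm⟩
      rintro rfl
      simp at hg
    · rw [if_neg h1] at hg; exact absurd rfl hg
  · exact absurd rfl hg
  · exact absurd rfl hg

/-- The character of `g[t] + c + d`. -/
noncomputable def lam1 (k : ℂ) : AGen → ℂ
  | .x _ _ => 0
  | .c => k
  | .d => 0

/-- The character of the Borel subalgebra. -/
noncomputable def lam2 (k j : ℂ) : AGen → ℂ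
  | .x .h m => if m = 0 then j else 0
  | .x _ _ => 0
  | .c => k
  | .d => 0

/-- The grading by `t`. -/
noncomputable def adata1 (k : ℂ) : Data ℂ AGen where
  br := abr
  deg := deg1
  lam := lam1 k
  skew := abr_skew
  jac := ajac
  hdeg := by
    intro x y g hg
    rcases abr_supp x y g hg with ⟨a, m, b, n, rfl, rfl, -, rfl⟩ | ⟨a, m, b, n, rfl, rfl, h1, -, -, rfl⟩ |
      ⟨a, m, rfl, rfl, h4, rfl⟩ | ⟨a, m, rfl, rfl, h4, rfl⟩ <;> simp only [deg1] <;> omega
  hlam := by
    rintro (⟨a, m⟩ | _ | _) hx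
    · rfl
    · exact absurd hx (lt_irrefl _)
    · rfl
  hbr := by
    intro x y hx hy
    refine Data.supp_ind (P := fun b => Finsupp.linearCombination ℂ (lam1 k) b = 0)
      (Q := fun g => lam1 k g = 0) ?_ (map_zero _) ?_ ?_
    · intro g hg
      rcases abr_supp x y g hg with ⟨a, m, b, n, rfl, rfl, -, rfl⟩ |
        ⟨a, m, b, n, rfl, rfl, h1, h2, h3, rfl⟩ | ⟨a, m, rfl, rfl, h4, rfl⟩ | ⟨a, m, rfl, rfl, h4, rfl⟩
      · rfl
      · exfalso
        change 0 ≤ m at hx
        change 0 ≤ n at hy
        omega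
      · rfl
      · rfl
    · intro x y hx hy; rw [map_add, hx, hy, add_zero]
    · intro g a hg; rw [Finsupp.linearCombination_single, hg, smul_zero]

/-- The principal grading. -/
noncomputable def adata2 (k j : ℂ) : Data ℂ AGen where
  br := abr
  deg := deg2
  lam := lam2 k j
  skew := abr_skew
  jac := ajac
  hdeg := by
    intro x y g hg
    rcases abr_supp x y g hg with ⟨a, m, b, n, rfl, rfl, h1, rfl⟩ |
      ⟨a, m, b, n, rfl, rfl, h1, h2, h3, rfl⟩ |
      ⟨a, m, rfl, rfl, h4, rfl⟩ | ⟨a, m, rfl, rfl, h4, rfl⟩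
    · have := wt_brk a b h1
      simp only [deg2]; omega
    · simp only [deg2]
      have : wt a + wt b = 0 := by
        rcases a <;> rcases b <;> simp_all [form, wt]
      omega
    · simp only [deg2]; omega
    · simp only [deg2]; omega
  hlam := by
    rintro (⟨a, m⟩ | _ | _) hx
    · rcases a with _ | _ | _
      · rfl
      · simp only [deg2, wt] at hx
        change (if m = 0 then j else 0) = 0
        rw [if_neg (by omega)]
      · rfl
    · exact absurd hx (lt_irrefl _)
    · rfl
  hbr := by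
    intro x y hx hy
    refine Data.supp_ind (P := fun b => Finsupp.linearCombination ℂ (lam2 k j) b = 0)
      (Q := fun g => lam2 k j g = 0) ?_ (map_zero _) ?_ ?_
    · intro g hg
      rcases abr_supp x y g hg with ⟨a, m, b, n, rfl, rfl, h1, rfl⟩ |
        ⟨a, m, b, n, rfl, rfl, h1, h2, h3, rfl⟩ | ⟨a, m, rfl, rfl, h4, rfl⟩ | ⟨a, m, rfl, rfl, h4, rfl⟩
      · simp only [deg2] at hx hy
        rcases a <;> rcases b <;> simp_all [brk, wt] <;> try rfl
        · change (if m + n = 0 then j else 0) = 0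
          rw [if_neg (by omega)]
        · change (if m + n = 0 then j else 0) = 0
          rw [if_neg (by omega)]
      · exfalso
        simp only [deg2] at hx hy
        rcases a <;> rcases b <;> simp_all [form, wt] <;> omega
      · rcases a with _ | _ | _
        · rfl
        · change (if m = 0 then j else 0) = 0
          rw [if_neg h4]
        · rfl
      · rcases a with _ | _ | _
        · rfl
        · change (if m = 0 then j else 0) = 0
          rw [if_neg h4]
        · rfl
    · intro x y hx hy; rw [map_add, hx, hy, add_zero]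
    · intro g a hg; rw [Finsupp.linearCombination_single, hg, smul_zero]

/-! ### The functional on the enveloping algebra -/

lemma linC_gU_xx (a b : X) (m n : ℤ) : Finsupp.linearCombination ℂ gU (abr (.x a m) (.x b n)) =
    (brk a b).1 • xU (brk a b).2 (m + n) + (if m + n = 0 then m * form a b else 0) • cU := by
  rw [abr_xx, map_add, Finsupp.linearCombination_single, Finsupp.linearCombination_single,
    Int.cast_smul_eq_zsmul, Int.cast_smul_eq_zsmul]
  rfl

/-- The commutators of the generators. -/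
lemma gU_comm (x y : AGen) : cm (gU x) (gU y) = Finsupp.linearCombination ℂ gU (abr x y) := by
  rcases x with ⟨a, m⟩ | _ | _ <;> rcases y with ⟨b, n⟩ | _ | _
  · rw [linC_gU_xx]; exact ua_xx a b m n
  · rw [abr_xc, map_zero]; exact ua_xc a m
  · rw [abr_xd, Finsupp.linearCombination_single, neg_smul, Int.cast_smul_eq_zsmul, cm_skew]
    congr 1
    exact ua_dx a m
  · rw [abr_c, map_zero]; exact ua_cg _
  · rw [abr_c, map_zero]; exact ua_cg _
  · rw [abr_c, map_zero]; exact ua_cg _
  · rw [abr_dx, Finsupp.linearCombination_single, Int.cast_smul_eq_zsmul]; exact ua_dx b n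
  · rw [abr_dc, map_zero]; exact ua_dc
  · rw [abr_dd, map_zero]; exact cm_self _

variable {k : ℂ}

/-- The action of the free algebra. -/
noncomputable def arho0 (k : ℂ) : FreeAlgebra ℂ AGen →ₐ[ℂ] Module.End ℂ (adata1 k).Q :=
  FreeAlgebra.lift ℂ (adata1 k).opQ

lemma arho0_gn (x : AGen) : arho0 k (agn x) = (adata1 k).opQ x := by
  rw [arho0, agn, FreeAlgebra.lift_ι_apply]

lemma arho0_cm (x y : AGen) : arho0 k (cm (agn x) (agn y)) = (adata1 k).opQL (abr x y) := by
  have h1 := (adata1 k).opQ_comm x y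
  have h2 : arho0 k (cm (agn x) (agn y)) = (adata1 k).opQ x * (adata1 k).opQ y -
      (adata1 k).opQ y * (adata1 k).opQ x := by
    simp only [cm, map_sub, map_mul, arho0_gn]
  rw [h2, h1]
  rfl

lemma arho0_rel {a b : FreeAlgebra ℂ AGen} (H : ARel a b) : arho0 k a = arho0 k b := by
  cases H with
  | xx a b m n =>
    rw [arho0_cm, abr_xx, map_add, Data.opQL, Finsupp.linearCombination_single,
      Finsupp.linearCombination_single, Int.cast_smul_eq_zsmul, Int.cast_smul_eq_zsmul, map_add,
      map_zsmul, map_zsmul, arho0_gn, arho0_gn]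
  | cx g => rw [arho0_cm, abr_c, map_zero, map_zero]
  | dx a m =>
    rw [arho0_cm, abr_dx, Data.opQL, Finsupp.linearCombination_single, Int.cast_smul_eq_zsmul,
      map_zsmul, arho0_gn]

/-- The action of the enveloping algebra. -/
noncomputable def arho (k : ℂ) : UA →ₐ[ℂ] Module.End ℂ (adata1 k).Q :=
  RingQuot.liftAlgHom ℂ ⟨arho0 k, fun _ _ H => arho0_rel H⟩

lemma arho_toUA (x : FreeAlgebra ℂ AGen) : arho k (toUA x) = arho0 k x :=
  RingQuot.liftAlgHom_mkAlgHom_apply ℂ (arho0 k) _ x

lemma arho_g (g : AGen) : arho k (gU g) = (adata1 k).opQ g := by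
  rw [gU, arho_toUA, arho0_gn]

/-- The functional on the enveloping algebra. -/
noncomputable def epsU (k : ℂ) : UA →ₗ[ℂ] ℂ :=
  (adata1 k).epsQ ∘ₗ (LinearMap.applyₗ (adata1 k).vq) ∘ₗ (arho k).toLinearMap

lemma epsU_apply (u : UA) : epsU k u = (adata1 k).epsQ (arho k u (adata1 k).vq) := rfl

lemma epsU_one : epsU k 1 = 1 := by
  rw [epsU_apply, map_one]
  exact (adata1 k).epsQ_vq

lemma epsU_neg {g : AGen} (hg : deg1 g < 0) (u : UA) : epsU k (gU g * u) = 0 := by
  rw [epsU_apply, map_mul, Module.End.mul_apply, arho_g]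
  exact (adata1 k).epsQ_neg hg _

lemma epsU_zero {g : AGen} (hg : deg1 g = 0) (u : UA) :
    epsU k (gU g * u) = lam1 k g * epsU k u := by
  rw [epsU_apply, map_mul, Module.End.mul_apply, arho_g]
  exact (adata1 k).epsQ_zero hg _

lemma arho_vq {g : AGen} (hg : 0 ≤ deg1 g) : arho k (gU g) (adata1 k).vq = lam1 k g • (adata1 k).vq := by
  rw [arho_g]
  exact (adata1 k).opQ_vq hg

lemma arho_x {a : X} {m : ℤ} (hm : 0 ≤ m) : arho k (xU a m) (adata1 k).vq = 0 := by
  have := arho_vq (k := k) (g := .x a m) hm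
  rw [gU_x] at this
  rw [this]
  exact zero_smul _ _

lemma arho_c : arho k cU (adata1 k).vq = k • (adata1 k).vq :=
  arho_vq (k := k) (g := .c) (le_refl (0 : ℤ))

lemma arho_d : arho k dU (adata1 k).vq = 0 := by
  have := arho_vq (k := k) (g := .d) (le_refl (0 : ℤ))
  rw [gU_d] at this
  rw [this]
  exact zero_smul _ _

end Pool.Agent.Helper855.Gko.Aff
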