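import Mathlib

/-!
Quotient modules, tensor products and base changes as separate types. They are Mathlib's quotient
modules and tensor products; the separate names keep the terms of later files short.
-/

set_option autoImplicit false

open scoped TensorProduct DirectSum

namespace Pool.Agent.Helper855.Gko

section quo

variable {R M : Type*} [Ring R] [AddCommGroup M] [Module R M]

/-- The quotient module `M / N`. -/
def Quo (N : Submodule R M) : Type _ := M ⧸ N

noncomputable instance (N : Submodule R M) : AddCommGroup (Quo N) :=
  (inferInstance : AddCommGroup (M ⧸ N))

noncomputable instance (N : Submodule R M) : Module R (Quo N) :=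
  (inferInstance : Module R (M ⧸ N))

/-- The class of an element of `M` in `M / N`. -/
def cls (N : Submodule R M) (x : M) : Quo N := Submodule.Quotient.mk x

/-- The quotient map `M → M / N`. -/
noncomputable def quo (N : Submodule R M) : M →ₗ[R] Quo N := N.mkQ

/-- The action of an element of `R` on `M`, as a homomorphism of abelian groups. -/
def act (r : R) : M →+ M := AddMonoidHom.mk' (fun x => r • x) (smul_add r)

end quo

section tens

variable (F : Type*) [Field F] (V W : Type*) [AddCommGroup V] [Module F V] [AddCommGroup W]
  [Module F W]

/-- The tensor product `V ⊗ W` over the field `F`. -/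
def Tens : Type _ := V ⊗[F] W

noncomputable instance : AddCommGroup (Tens F V W) := (inferInstance : AddCommGroup (V ⊗[F] W))

noncomputable instance : Module F (Tens F V W) := (inferInstance : Module F (V ⊗[F] W))

variable {F V} in
/-- The operator `A ⊗ 1` on `V ⊗ W`. -/
noncomputable def opLeft (A : V →ₗ[F] V) : Tens F V W →ₗ[F] Tens F V W := A.rTensor W

variable {F W} in
/-- The operator `1 ⊗ B` on `V ⊗ W`. -/
noncomputable def opRight (B : W →ₗ[F] W) : Tens F V W →ₗ[F] Tens F V W := B.lTensor V

end tens

section basechange

variable (F : Type*) [Field F] (A : Type*) [AddCommGroup A]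

/-- The base change `F ⊗_ℤ A` of an abelian group `A`. -/
def BC : Type _ := F ⊗[ℤ] A

noncomputable instance : AddCommGroup (BC F A) := (inferInstance : AddCommGroup (F ⊗[ℤ] A))

noncomputable instance : Module F (BC F A) := (inferInstance : Module F (F ⊗[ℤ] A))

variable {A} in
/-- The base change `1 ⊗ g` of an endomorphism `g` of `A`. -/
noncomputable def bcMap (g : A →+ A) : BC F A →ₗ[F] BC F A := g.toIntLinearMap.baseChange F

end basechange

section sums

variable (F : Type*) [Field F] {J : Type*} (S : J → Type*) [∀ j, AddCommGroup (S j)]
  [∀ j, Module F (S j)]

/-- The direct sum of the `S j`. -/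
def Sm : Type _ := ⨁ j, S j

noncomputable instance : AddCommGroup (Sm S) := (inferInstance : AddCommGroup (⨁ j, S j))

noncomputable instance : Module F (Sm S) := (inferInstance : Module F (⨁ j, S j))

variable {S} in
/-- The component of an element of the direct sum in `S j`. -/
def Sm.comp (x : Sm S) (j : J) : S j := (show ⨁ j, S j from x) j

end sums

end Pool.Agent.Helper855.Gko
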