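import Pool.Agent.Helper855.GkoAffRel

/-!
The coset Virasoro action on the tensor product of two Weyl modules, and the Goddard-Kent-Olive
decomposition.
-/

set_option autoImplicit false

namespace Pool.Agent.Helper855.Gko

open Aff (X)

/-- The action of `x(m)` on the Weyl module `V(λ_{k;j})` (the elements `x(m)` lie in `U_ℤ` by
`Aff.xU_mem`). -/
noncomputable def opW (F : Type*) [Field F] (k j : ℕ) (a : X) (m : ℤ) :
    Aff.Weyl F (Aff.weight k j) →ₗ[F] Aff.Weyl F (Aff.weight k j) :=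
  Aff.actF F (Aff.weight k j) ⟨Aff.xU a m, Aff.xU_mem a m⟩

section sugawara

variable {F : Type*} [Field F] {M : Type*} [AddCommGroup M] [Module F M]

/-- For operators `ρ x m` on `M`, the operator
`e(p) f(q) + f(p) e(q) + (1/2) h(p) h(q)`, that is the sum of `x_a(p) x^a(q)` over dual bases of
`sl_2`. -/
noncomputable def quad (ρ : X → ℤ → M →ₗ[F] M) (p q : ℤ) : M →ₗ[F] M :=
  ρ .e p ∘ₗ ρ .f q + ρ .f p ∘ₗ ρ .e q + (2⁻¹ : F) • (ρ .h p ∘ₗ ρ .h q)

/-- The Sugawara operator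
`L_n = (1/(2κ)) ∑_{m ∈ ℤ} ∑_a :x_a(m) x^a(n - m):`, where `κ` is the level plus `2` and the normal
ordering puts the larger index to the right. The sum is finite on each vector of a smooth module. -/
noncomputable def sug (ρ : X → ℤ → M →ₗ[F] M) (κ : F) (n : ℤ) (v : M) : M :=
  (2 * κ)⁻¹ • ∑ᶠ m : ℤ, quad ρ (min m (n - m)) (max m (n - m)) v

end sugawara

variable (F : Type*) [Field F] (ℓ n ε : ℕ)

/-- The tensor product `V(λ_{ℓ-1;n}) ⊗ V(ω_ε)`; here `ω_ε = λ_{1;ε}`. -/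
def Ten : Type _ := Tens F (Aff.Weyl F (Aff.weight (ℓ - 1) n)) (Aff.Weyl F (Aff.weight 1 ε))

noncomputable instance : AddCommGroup (Ten F ℓ n ε) :=
  (inferInstance : AddCommGroup
    (Tens F (Aff.Weyl F (Aff.weight (ℓ - 1) n)) (Aff.Weyl F (Aff.weight 1 ε))))

noncomputable instance : Module F (Ten F ℓ n ε) :=
  (inferInstance : Module F
    (Tens F (Aff.Weyl F (Aff.weight (ℓ - 1) n)) (Aff.Weyl F (Aff.weight 1 ε))))

/-- The action of `x(m)` on the first factor. -/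
noncomputable def act1 (a : X) (m : ℤ) : Ten F ℓ n ε →ₗ[F] Ten F ℓ n ε :=
  opLeft _ (opW F (ℓ - 1) n a m)

/-- The action of `x(m)` on the second factor. -/
noncomputable def act2 (a : X) (m : ℤ) : Ten F ℓ n ε →ₗ[F] Ten F ℓ n ε :=
  opRight _ (opW F 1 ε a m)

/-- The diagonal action of `x(m)`. -/
noncomputable def actD (a : X) (m : ℤ) : Ten F ℓ n ε →ₗ[F] Ten F ℓ n ε :=
  act1 F ℓ n ε a m + act2 F ℓ n ε a m

/-- The coset Virasoro operators
`L_m = L^{(ℓ-1)}_m ⊗ 1 + 1 ⊗ L^{(1)}_m - L^{(ℓ)}_m` (the last one for the diagonal action). -/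
noncomputable def coset (m : ℤ) (v : Ten F ℓ n ε) : Ten F ℓ n ε :=
  sug (act1 F ℓ n ε) (((ℓ - 1 : ℕ) : F) + 2) m v + sug (act2 F ℓ n ε) (1 + 2) m v -
    sug (actD F ℓ n ε) ((ℓ : F) + 2) m v

/-- The index set `J_{n,ε}`. -/
def Jset : Type := {j : ℕ // j ≤ ℓ ∧ j % 2 = (n + ε) % 2}

/-- The weight `η(n,j)`. -/
noncomputable def eta (j : ℕ) : F :=
  if j ≤ n then hMin F ℓ (n + 1) (j + 1) else hMin F ℓ (ℓ - n) (ℓ + 1 - j)

/-- The summand `V(λ_{ℓ;j}) ⊗ L_{c_ℓ,η(n,j)}`. -/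
def Summand (j : ℕ) : Type _ :=
  Tens F (Aff.Weyl F (Aff.weight ℓ j)) (Simple F (cMin F ℓ) (eta F ℓ n j))

noncomputable instance (j : ℕ) : AddCommGroup (Summand F ℓ n j) :=
  (inferInstance : AddCommGroup
    (Tens F (Aff.Weyl F (Aff.weight ℓ j)) (Simple F (cMin F ℓ) (eta F ℓ n j))))

noncomputable instance (j : ℕ) : Module F (Summand F ℓ n j) :=
  (inferInstance : Module F
    (Tens F (Aff.Weyl F (Aff.weight ℓ j)) (Simple F (cMin F ℓ) (eta F ℓ n j))))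

/-- The action of `x(m)` on the factor `V(λ_{ℓ;j})` of the summand. -/
noncomputable def sumX (j : ℕ) (a : X) (m : ℤ) : Summand F ℓ n j →ₗ[F] Summand F ℓ n j :=
  opLeft _ (opW F ℓ j a m)

/-- The action of `L_m` on the factor `L_{c_ℓ,η(n,j)}` of the summand. -/
noncomputable def sumL (j : ℕ) (m : ℤ) : Summand F ℓ n j →ₗ[F] Summand F ℓ n j :=
  opRight _ (opV F (cMin F ℓ) (eta F ℓ n j) m)

/-- The direct sum of the `V(λ_{ℓ;j}) ⊗ L_{c_ℓ,η(n,j)}` over `j ∈ J_{n,ε}`. -/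
def Rhs : Type _ := Sm fun j : Jset ℓ n ε => Summand F ℓ n j.1

noncomputable instance : AddCommGroup (Rhs F ℓ n ε) :=
  (inferInstance : AddCommGroup (Sm fun j : Jset ℓ n ε => Summand F ℓ n j.1))

noncomputable instance : Module F (Rhs F ℓ n ε) :=
  (inferInstance : Module F (Sm fun j : Jset ℓ n ε => Summand F ℓ n j.1))

/-- The component of an element of the direct sum. -/
noncomputable def Rhs.comp (x : Rhs F ℓ n ε) (j : Jset ℓ n ε) : Summand F ℓ n j.1 := Sm.comp x j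

/-- There is an isomorphism of `V(λ_{ℓ-1;n}) ⊗ V(ω_ε)` with the direct sum over `j ∈ J_{n,ε}` of
the `V(λ_{ℓ;j}) ⊗ L_{c_ℓ,η(n,j)}` that commutes with all `x(m)` (acting diagonally on the left and
on the factors `V(λ_{ℓ;j})` on the right) and with all `L_m` (acting by the coset construction on
the left and on the factors `L_{c_ℓ,η(n,j)}` on the right). -/
def HasGKO : Prop :=
  ∃ φ : Ten F ℓ n ε ≃ₗ[F] Rhs F ℓ n ε,
    (∀ (a : X) (m : ℤ) (v : Ten F ℓ n ε) (j : Jset ℓ n ε),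
      (φ (actD F ℓ n ε a m v)).comp F ℓ n ε j = sumX F ℓ n j.1 a m ((φ v).comp F ℓ n ε j)) ∧
    (∀ (m : ℤ) (v : Ten F ℓ n ε) (j : Jset ℓ n ε),
      (φ (coset F ℓ n ε m v)).comp F ℓ n ε j = sumL F ℓ n j.1 m ((φ v).comp F ℓ n ε j))

end Pool.Agent.Helper855.Gko
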