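import Mathlib

/-!
The functional attached to a graded Lie algebra given by structure constants, and the module
it generates.
-/

set_option autoImplicit false
set_option linter.unusedSectionVars false

namespace Pool.Agent.Helper855.Gko

/-- Structure constants of a graded Lie algebra with basis `G`, and a character of the
nonnegative part. -/
structure Data (F : Type*) [Field F] (G : Type*) where
  br : G → G → (G →₀ F)
  deg : G → ℤ
  lam : G → F
  skew : ∀ x y, br x y = - br y x
  jac : ∀ x y z, Finsupp.linearCombination F (br x) (br y z) -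
    Finsupp.linearCombination F (br y) (br x z) =
    Finsupp.linearCombination F (fun g => br g z) (br x y)
  hdeg : ∀ x y g, br x y g ≠ 0 → deg g = deg x + deg y
  hlam : ∀ x, 0 < deg x → lam x = 0
  hbr : ∀ x y, 0 ≤ deg x → 0 ≤ deg y → Finsupp.linearCombination F lam (br x y) = 0

section basic

variable {F : Type*} [Field F] {G : Type*}

variable (F G) in
/-- Words with coefficients. -/
abbrev Wd : Type _ := List G →₀ F

/-- Prepend a letter. -/
noncomputable def cns (g : G) : Wd F G →ₗ[F] Wd F G := Finsupp.lmapDomain F F (List.cons g)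

lemma cns_single (g : G) (w : List G) (a : F) :
    cns g (Finsupp.single w a) = Finsupp.single (g :: w) a := by
  simp [cns, Finsupp.lmapDomain_apply, Finsupp.mapDomain_single]

/-- Prepend a combination of letters. -/
noncomputable def cnsL : (G →₀ F) →ₗ[F] (Wd F G →ₗ[F] Wd F G) :=
  Finsupp.linearCombination F cns

lemma cnsL_single (g : G) (a : F) (t : Wd F G) : cnsL (Finsupp.single g a) t = a • cns g t := by
  rw [cnsL, Finsupp.linearCombination_single, LinearMap.smul_apply]

/-- Induction on words. -/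
lemma wd_ind {P : Wd F G → Prop} (h0 : P 0) (hadd : ∀ x y, P x → P y → P (x + y))
    (hsmul : ∀ (a : F) x, P x → P (a • x)) (hnil : P (Finsupp.single [] 1))
    (hcons : ∀ i x, P x → P (cns i x)) (x : Wd F G) : P x := by
  have hw : ∀ J : List G, P (Finsupp.single J 1) := by
    intro J
    induction J with
    | nil => exact hnil
    | cons i J ih => rw [← cns_single]; exact hcons i _ ih
  induction x using Finsupp.induction_linear with
  | zero => exact h0
  | add x y hx hy => exact hadd x y hx hy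
  | single J a =>
    have : (Finsupp.single J a : Wd F G) = a • Finsupp.single J 1 := by simp
    rw [this]; exact hsmul a _ (hw J)

end basic

namespace Data

variable {F : Type*} [Field F] {G : Type*} (𝔇 : Data F G)

/-- The adjoint action on words, on a single word. -/
noncomputable def DW (x : G) : List G → Wd F G
  | [] => 0
  | y :: w => cnsL (𝔇.br x y) (Finsupp.single w 1) + cns y (DW x w)

/-- The adjoint action on words. -/
noncomputable def D (x : G) : Wd F G →ₗ[F] Wd F G := Finsupp.linearCombination F (𝔇.DW x)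

/-- The adjoint action of a combination of letters. -/
noncomputable def DL : (G →₀ F) →ₗ[F] (Wd F G →ₗ[F] Wd F G) := Finsupp.linearCombination F 𝔇.D

/-- The bracket with a letter. -/
noncomputable def ad (x : G) : (G →₀ F) →ₗ[F] (G →₀ F) := Finsupp.linearCombination F (𝔇.br x)

/-- The bracket of a combination with a letter. -/
noncomputable def adR (z : G) : (G →₀ F) →ₗ[F] (G →₀ F) :=
  Finsupp.linearCombination F (fun g => 𝔇.br g z)

/-- The character on combinations. -/
noncomputable def lamL : (G →₀ F) →ₗ[F] F := Finsupp.linearCombination F 𝔇.lam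

lemma D_single (x : G) (w : List G) (a : F) : 𝔇.D x (Finsupp.single w a) = a • 𝔇.DW x w := by
  rw [D, Finsupp.linearCombination_single]

lemma D_nil (x : G) (a : F) : 𝔇.D x (Finsupp.single [] a) = 0 := by
  rw [D_single, DW, smul_zero]

lemma D_cns (x y : G) (t : Wd F G) :
    𝔇.D x (cns y t) = cnsL (𝔇.br x y) t + cns y (𝔇.D x t) := by
  induction t using Finsupp.induction_linear with
  | zero => simp
  | add s t hs ht => simp only [map_add, hs, ht]; abel
  | single w a =>
    rw [cns_single, D_single, D_single, DW, smul_add, map_smul, ← map_smul (cnsL (𝔇.br x y)),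
      Finsupp.smul_single, smul_eq_mul, mul_one]

lemma jac' (x y z : G) : 𝔇.ad x (𝔇.br y z) - 𝔇.ad y (𝔇.br x z) = 𝔇.adR z (𝔇.br x y) :=
  𝔇.jac x y z

lemma D_cnsL (x : G) (b : G →₀ F) (t : Wd F G) :
    𝔇.D x (cnsL b t) = cnsL (𝔇.ad x b) t + cnsL b (𝔇.D x t) := by
  induction b using Finsupp.induction_linear with
  | zero => simp
  | add s t hs ht => simp only [map_add, LinearMap.add_apply, hs, ht]; abel
  | single g a =>
    rw [cnsL_single, map_smul, D_cns, cnsL_single, ad, Finsupp.linearCombination_single,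
      map_smul, LinearMap.smul_apply, smul_add]

lemma DL_single (g : G) (a : F) (t : Wd F G) : 𝔇.DL (Finsupp.single g a) t = a • 𝔇.D g t := by
  rw [DL, Finsupp.linearCombination_single, LinearMap.smul_apply]

lemma DL_nil (b : G →₀ F) (a : F) : 𝔇.DL b (Finsupp.single [] a) = 0 := by
  induction b using Finsupp.induction_linear with
  | zero => simp
  | add s t hs ht => rw [map_add, LinearMap.add_apply, hs, ht, add_zero]
  | single g a => rw [DL_single, D_nil, smul_zero]

lemma DL_cns (b : G →₀ F) (z : G) (t : Wd F G) :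
    𝔇.DL b (cns z t) = cnsL (𝔇.adR z b) t + cns z (𝔇.DL b t) := by
  induction b using Finsupp.induction_linear with
  | zero => simp
  | add s t hs ht => simp only [map_add, LinearMap.add_apply, hs, ht]; abel
  | single g a =>
    rw [DL_single, D_cns, DL_single, adR, Finsupp.linearCombination_single, map_smul,
      LinearMap.smul_apply, map_smul, smul_add]

lemma D_comm (x y : G) (t : Wd F G) :
    𝔇.D x (𝔇.D y t) - 𝔇.D y (𝔇.D x t) = 𝔇.DL (𝔇.br x y) t := by
  refine wd_ind (P := fun t => 𝔇.D x (𝔇.D y t) - 𝔇.D y (𝔇.D x t) = 𝔇.DL (𝔇.br x y) t)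
    ?_ ?_ ?_ ?_ ?_ t
  · simp
  · intro s t hs ht
    simp only [map_add]
    rw [← hs, ← ht]; abel
  · intro a t ht
    simp only [map_smul]
    rw [← ht, smul_sub]
  · rw [D_nil, D_nil, map_zero, map_zero, DL_nil, sub_zero]
  · intro z t ht
    rw [D_cns, D_cns, map_add, map_add, D_cns, D_cns, D_cnsL, D_cnsL, DL_cns, ← ht, ← jac']
    simp only [map_sub, LinearMap.sub_apply]
    abel

/-- The functional, with fuel. -/
noncomputable def Ef : ℕ → Wd F G →ₗ[F] F
  | 0 => Finsupp.lapply []
  | n + 1 => Finsupp.linearCombination F (fun w => match w with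
      | [] => 1
      | g :: w' => if 𝔇.deg g < 0 then 0 else
          Ef n (𝔇.D g (Finsupp.single w' 1)) + 𝔇.lam g * Ef n (Finsupp.single w' 1))

variable (F G) in
/-- Words of length at most `n`. -/
noncomputable def Sn (n : ℕ) : Submodule F (Wd F G) := Finsupp.supported F F {w | w.length ≤ n}

lemma single_Sn {w : List G} {n : ℕ} (h : w.length ≤ n) (a : F) : Finsupp.single w a ∈ Sn F G n := by
  unfold Sn
  exact Finsupp.single_mem_supported F a h

lemma Sn_ind {n : ℕ} {P : Wd F G → Prop} (h0 : P 0) (hadd : ∀ x y, P x → P y → P (x + y))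
    (hs : ∀ (w : List G) (a : F), w.length ≤ n → P (Finsupp.single w a)) {t : Wd F G}
    (ht : t ∈ Sn F G n) : P t := by
  have h1 : t = t.sum Finsupp.single := (Finsupp.sum_single t).symm
  rw [h1]
  unfold Finsupp.sum
  have key : ∀ s : Finset (List G), (∀ w ∈ s, w.length ≤ n) → P (∑ w ∈ s, Finsupp.single w (t w)) := by
    intro s
    classical
    induction s using Finset.induction_on with
    | empty => intro _; simpa using h0
    | insert w s hw ih =>
      intro hh
      rw [Finset.sum_insert hw]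
      exact hadd _ _ (hs _ _ (hh w (Finset.mem_insert_self _ _)))
        (ih fun w' hw' => hh w' (Finset.mem_insert_of_mem hw'))
  refine key _ ?_
  intro w hw
  unfold Sn at ht
  exact (Finsupp.mem_supported F t).mp ht hw

lemma cns_Sn {n : ℕ} {t : Wd F G} (g : G) (ht : t ∈ Sn F G n) : cns g t ∈ Sn F G (n + 1) := by
  refine Sn_ind (P := fun t => cns g t ∈ Sn F G (n + 1)) ?_ ?_ ?_ ht
  · rw [map_zero]; exact zero_mem _
  · intro x y hx hy; rw [map_add]; exact add_mem hx hy
  · intro w a hw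
    rw [cns_single]
    exact single_Sn (by simpa using hw) a

lemma cnsL_Sn {n : ℕ} {t : Wd F G} (b : G →₀ F) (ht : t ∈ Sn F G n) :
    cnsL b t ∈ Sn F G (n + 1) := by
  induction b using Finsupp.induction_linear with
  | zero => simp
  | add s t hs ht => rw [map_add, LinearMap.add_apply]; exact add_mem hs ht
  | single g a => rw [cnsL_single]; exact Submodule.smul_mem _ _ (cns_Sn g ht)

lemma DW_Sn (x : G) (w : List G) : 𝔇.DW x w ∈ Sn F G w.length := by
  induction w with
  | nil => rw [DW]; exact zero_mem _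
  | cons y w ih =>
    rw [DW, List.length_cons]
    exact add_mem (cnsL_Sn _ (single_Sn le_rfl _)) (cns_Sn _ ih)

lemma Sn_mono {m n : ℕ} (h : m ≤ n) : Sn F G m ≤ Sn F G n :=
  Finsupp.supported_mono (fun _ hw => le_trans hw h)

lemma D_Sn {n : ℕ} (x : G) {t : Wd F G} (ht : t ∈ Sn F G n) : 𝔇.D x t ∈ Sn F G n := by
  refine Sn_ind (P := fun t => 𝔇.D x t ∈ Sn F G n) ?_ ?_ ?_ ht
  · rw [map_zero]; exact zero_mem _
  · intro x y hx hy; rw [map_add]; exact add_mem hx hy
  · intro w a hw
    rw [D_single]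
    exact Submodule.smul_mem _ _ (Sn_mono hw (𝔇.DW_Sn x w))

lemma Ef_nil (n : ℕ) (a : F) : 𝔇.Ef n (Finsupp.single [] a) = a := by
  cases n with
  | zero => simp [Ef]
  | succ n => rw [Ef, Finsupp.linearCombination_single]; simp

lemma Ef_cons (n : ℕ) (g : G) (w : List G) (a : F) : 𝔇.Ef (n + 1) (Finsupp.single (g :: w) a) =
    if 𝔇.deg g < 0 then 0 else 𝔇.Ef n (𝔇.D g (Finsupp.single w a)) +
      𝔇.lam g * 𝔇.Ef n (Finsupp.single w a) := by
  rw [Ef, Finsupp.linearCombination_single]
  have e : (Finsupp.single w a : Wd F G) = a • Finsupp.single w 1 := by simp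
  rw [e, map_smul, map_smul, map_smul]
  simp only [smul_eq_mul]
  split_ifs
  · ring
  · ring

lemma Ef_succ (n : ℕ) : ∀ {t : Wd F G}, t ∈ Sn F G n → 𝔇.Ef (n + 1) t = 𝔇.Ef n t := by
  induction n with
  | zero =>
    intro t ht
    refine Sn_ind (P := fun t => 𝔇.Ef (0 + 1) t = 𝔇.Ef 0 t) (by simp) ?_ ?_ ht
    · intro x y hx hy; rw [map_add, map_add, hx, hy]
    · intro w a hw
      have : w = [] := List.length_eq_zero_iff.mp (Nat.le_zero.mp hw)
      subst this
      rw [Ef_nil, Ef_nil]
  | succ n ih =>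
    intro t ht
    refine Sn_ind (P := fun t => 𝔇.Ef (n + 1 + 1) t = 𝔇.Ef (n + 1) t) (by simp) ?_ ?_ ht
    · intro x y hx hy; rw [map_add, map_add, hx, hy]
    · intro w a hw
      cases w with
      | nil => rw [Ef_nil, Ef_nil]
      | cons g w =>
        rw [Ef_cons, Ef_cons]
        have hw' : w.length ≤ n := by simpa using hw
        rw [ih (𝔇.D_Sn g (single_Sn hw' a)), ih (single_Sn hw' a)]

lemma Ef_eq {m n : ℕ} (h : m ≤ n) {t : Wd F G} (ht : t ∈ Sn F G m) : 𝔇.Ef n t = 𝔇.Ef m t := by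
  induction n, h using Nat.le_induction with
  | base => rfl
  | succ n hmn ih => rw [𝔇.Ef_succ n (Sn_mono hmn ht), ih]

/-- The functional. -/
noncomputable def E : Wd F G →ₗ[F] F :=
  Finsupp.linearCombination F (fun w => 𝔇.Ef w.length (Finsupp.single w 1))

lemma E_single (w : List G) (a : F) :
    𝔇.E (Finsupp.single w a) = 𝔇.Ef w.length (Finsupp.single w a) := by
  rw [E, Finsupp.linearCombination_single, ← map_smul, Finsupp.smul_single, smul_eq_mul, mul_one]

lemma E_eq {n : ℕ} {t : Wd F G} (ht : t ∈ Sn F G n) : 𝔇.E t = 𝔇.Ef n t := by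
  refine Sn_ind (P := fun t => 𝔇.E t = 𝔇.Ef n t) (by simp) ?_ ?_ ht
  · intro x y hx hy; rw [map_add, map_add, hx, hy]
  · intro w a hw
    rw [E_single, 𝔇.Ef_eq hw (single_Sn le_rfl a)]

lemma E_nil (a : F) : 𝔇.E (Finsupp.single [] a) = a := by
  rw [E_single, Ef_nil]

lemma E_cns (g : G) (t : Wd F G) : 𝔇.E (cns g t) =
    if 𝔇.deg g < 0 then 0 else 𝔇.E (𝔇.D g t) + 𝔇.lam g * 𝔇.E t := by
  induction t using Finsupp.induction_linear with
  | zero => simp
  | add s t hs ht =>
    simp only [map_add, hs, ht]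
    split_ifs
    · simp
    · ring
  | single w a =>
    rw [cns_single, E_single, List.length_cons, Ef_cons, ← 𝔇.E_eq (𝔇.D_Sn g (single_Sn le_rfl a)),
      ← E_single]

lemma E_neg {g : G} (hg : 𝔇.deg g < 0) (t : Wd F G) : 𝔇.E (cns g t) = 0 := by
  rw [E_cns, if_pos hg]

lemma E_nonneg {g : G} (hg : 0 ≤ 𝔇.deg g) (t : Wd F G) :
    𝔇.E (cns g t) = 𝔇.E (𝔇.D g t) + 𝔇.lam g * 𝔇.E t := by
  rw [E_cns, if_neg (by omega)]

/-- Induction on a combination of letters of given degree. -/
lemma supp_ind {P : (G →₀ F) → Prop} {b : G →₀ F} {Q : G → Prop} (hb : ∀ g, b g ≠ 0 → Q g)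
    (h0 : P 0) (hadd : ∀ x y, P x → P y → P (x + y))
    (hs : ∀ g a, Q g → P (Finsupp.single g a)) : P b := by
  have h1 : b = b.sum Finsupp.single := (Finsupp.sum_single b).symm
  rw [h1]
  unfold Finsupp.sum
  have key : ∀ s : Finset G, (∀ g ∈ s, Q g) → P (∑ g ∈ s, Finsupp.single g (b g)) := by
    intro s
    classical
    induction s using Finset.induction_on with
    | empty => intro _; simpa using h0
    | insert w s hw ih =>
      intro hh
      rw [Finset.sum_insert hw]
      exact hadd _ _ (hs _ _ (hh w (Finset.mem_insert_self _ _)))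
        (ih fun w' hw' => hh w' (Finset.mem_insert_of_mem hw'))
  refine key _ ?_
  intro g hg
  exact hb g (Finsupp.mem_support_iff.mp hg)

lemma E_cnsL_neg {b : G →₀ F} (hb : ∀ g, b g ≠ 0 → 𝔇.deg g < 0) (t : Wd F G) :
    𝔇.E (cnsL b t) = 0 := by
  refine supp_ind (P := fun b => 𝔇.E (cnsL b t) = 0) hb (by simp) ?_ ?_
  · intro x y hx hy; rw [map_add, LinearMap.add_apply, map_add, hx, hy, add_zero]
  · intro g a hg; rw [cnsL_single, map_smul, 𝔇.E_neg hg, smul_zero]

lemma E_cnsL_nonneg {b : G →₀ F} (hb : ∀ g, b g ≠ 0 → 0 ≤ 𝔇.deg g) (t : Wd F G) :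
    𝔇.E (cnsL b t) = 𝔇.E (𝔇.DL b t) + 𝔇.lamL b * 𝔇.E t := by
  refine supp_ind (P := fun b => 𝔇.E (cnsL b t) = 𝔇.E (𝔇.DL b t) + 𝔇.lamL b * 𝔇.E t) hb
    (by simp) ?_ ?_
  · intro x y hx hy; simp only [map_add, LinearMap.add_apply, hx, hy]; ring
  · intro g a hg
    rw [cnsL_single, map_smul, 𝔇.E_nonneg hg, DL_single, map_smul, lamL,
      Finsupp.linearCombination_single]
    simp only [smul_eq_mul]; ring

/-- The relation elements. -/
noncomputable def rel (x y : G) (t : Wd F G) : Wd F G :=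
  cns x (cns y t) - cns y (cns x t) - cnsL (𝔇.br x y) t

lemma rel_skew (x y : G) (t : Wd F G) : 𝔇.rel x y t = - 𝔇.rel y x t := by
  rw [rel, rel, 𝔇.skew x y, map_neg, LinearMap.neg_apply]; abel

lemma E_rel (x y : G) (t : Wd F G) : 𝔇.E (𝔇.rel x y t) = 0 := by
  have mixed : ∀ x y, 0 ≤ 𝔇.deg x → 𝔇.deg y < 0 → 𝔇.E (𝔇.rel x y t) = 0 := by
    intro x y hx hy
    rw [rel, map_sub, map_sub, 𝔇.E_neg hy, 𝔇.E_nonneg hx, 𝔇.E_neg hy, D_cns, map_add, 𝔇.E_neg hy]
    ring
  rcases lt_or_ge (𝔇.deg x) 0 with hx | hx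
  · rcases lt_or_ge (𝔇.deg y) 0 with hy | hy
    · rw [rel, map_sub, map_sub, 𝔇.E_neg hx, 𝔇.E_neg hy, 𝔇.E_cnsL_neg]
      · ring
      · intro g hg
        have := 𝔇.hdeg x y g hg
        omega
    · rw [rel_skew, map_neg, mixed y x hy hx, neg_zero]
  · rcases lt_or_ge (𝔇.deg y) 0 with hy | hy
    · exact mixed x y hx hy
    · have hb : ∀ g, 𝔇.br x y g ≠ 0 → 0 ≤ 𝔇.deg g := by
        intro g hg
        have := 𝔇.hdeg x y g hg
        omega
      have hb' : ∀ g, 𝔇.br y x g ≠ 0 → 0 ≤ 𝔇.deg g := by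
        intro g hg
        have := 𝔇.hdeg y x g hg
        omega
      have h1 : 𝔇.lamL (𝔇.br x y) = 0 := 𝔇.hbr x y hx hy
      have h2 : 𝔇.lamL (𝔇.br y x) = 0 := 𝔇.hbr y x hy hx
      have h3 := congrArg 𝔇.E (𝔇.D_comm x y t)
      rw [map_sub] at h3
      have h4 : 𝔇.DL (𝔇.br y x) t = - 𝔇.DL (𝔇.br x y) t := by
        rw [𝔇.skew y x, map_neg, LinearMap.neg_apply]
      have a1 : 𝔇.E (cns x (cns y t)) = 𝔇.E (cnsL (𝔇.br x y) t) + (𝔇.E (𝔇.D y (𝔇.D x t)) +
          𝔇.lam y * 𝔇.E (𝔇.D x t)) + 𝔇.lam x * (𝔇.E (𝔇.D y t) + 𝔇.lam y * 𝔇.E t) := by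
        rw [𝔇.E_nonneg hx, D_cns, map_add, 𝔇.E_nonneg hy, 𝔇.E_nonneg hy]
      have a2 : 𝔇.E (cns y (cns x t)) = 𝔇.E (cnsL (𝔇.br y x) t) + (𝔇.E (𝔇.D x (𝔇.D y t)) +
          𝔇.lam x * 𝔇.E (𝔇.D y t)) + 𝔇.lam y * (𝔇.E (𝔇.D x t) + 𝔇.lam x * 𝔇.E t) := by
        rw [𝔇.E_nonneg hy, D_cns, map_add, 𝔇.E_nonneg hx, 𝔇.E_nonneg hx]
      rw [rel, map_sub, map_sub, a1, a2, 𝔇.E_cnsL_nonneg hb, 𝔇.E_cnsL_nonneg hb', h1, h2, h4,
        map_neg]
      linear_combination (-1) * h3

/-- Prepend a word. -/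
noncomputable def cnsAll (w : List G) : Wd F G →ₗ[F] Wd F G :=
  w.foldr (fun g f => cns g ∘ₗ f) LinearMap.id

lemma cnsAll_nil (t : Wd F G) : cnsAll [] t = t := rfl

lemma cnsAll_cons (g : G) (w : List G) (t : Wd F G) : cnsAll (g :: w) t = cns g (cnsAll w t) := rfl

lemma cnsAll_single (w w' : List G) (a : F) :
    cnsAll w (Finsupp.single w' a) = Finsupp.single (w ++ w') a := by
  induction w with
  | nil => rfl
  | cons g w ih => rw [cnsAll_cons, ih, cns_single, List.cons_append]

/-- The relations with a prefix of length `n`. -/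
noncomputable def RS : ℕ → Submodule F (Wd F G)
  | 0 => Submodule.span F {s | ∃ x y t, s = 𝔇.rel x y t}
  | n + 1 => Submodule.span F {s | ∃ g u, u ∈ RS n ∧ s = cns g u}

lemma cns_RS {n : ℕ} (g : G) {u : Wd F G} (hu : u ∈ 𝔇.RS n) : cns g u ∈ 𝔇.RS (n + 1) :=
  Submodule.subset_span ⟨g, u, hu, rfl⟩

lemma cnsL_RS {n : ℕ} (b : G →₀ F) {u : Wd F G} (hu : u ∈ 𝔇.RS n) :
    cnsL b u ∈ 𝔇.RS (n + 1) := by
  induction b using Finsupp.induction_linear with
  | zero => simp
  | add s t hs ht => rw [map_add, LinearMap.add_apply]; exact add_mem hs ht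
  | single g a => rw [cnsL_single]; exact Submodule.smul_mem _ _ (𝔇.cns_RS g hu)

lemma rel_mem (x y : G) (t : Wd F G) : 𝔇.rel x y t ∈ 𝔇.RS 0 :=
  Submodule.subset_span ⟨x, y, t, rfl⟩

lemma relL_mem (b : G →₀ F) (y : G) (t : Wd F G) :
    cnsL b (cns y t) - cns y (cnsL b t) - cnsL (𝔇.adR y b) t ∈ 𝔇.RS 0 := by
  induction b using Finsupp.induction_linear with
  | zero => simp
  | add p q hp hq =>
    have := add_mem hp hq
    simp only [map_add, LinearMap.add_apply] at this ⊢
    convert this using 1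
    abel
  | single g a =>
    have := Submodule.smul_mem _ a (𝔇.rel_mem g y t)
    rw [cnsL_single, cnsL_single, adR, Finsupp.linearCombination_single, map_smul, map_smul,
      LinearMap.smul_apply]
    rw [rel, smul_sub, smul_sub] at this
    exact this

lemma relR_mem (x : G) (b : G →₀ F) (t : Wd F G) :
    cns x (cnsL b t) - cnsL b (cns x t) - cnsL (𝔇.ad x b) t ∈ 𝔇.RS 0 := by
  induction b using Finsupp.induction_linear with
  | zero => simp
  | add p q hp hq =>
    have := add_mem hp hq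
    simp only [map_add, LinearMap.add_apply] at this ⊢
    convert this using 1
    abel
  | single g a =>
    have := Submodule.smul_mem _ a (𝔇.rel_mem x g t)
    rw [cnsL_single, cnsL_single, ad, Finsupp.linearCombination_single, map_smul, map_smul,
      LinearMap.smul_apply]
    rw [rel, smul_sub, smul_sub] at this
    exact this

lemma ad_skew (z : G) (b : G →₀ F) : 𝔇.ad z b = - 𝔇.adR z b := by
  induction b using Finsupp.induction_linear with
  | zero => simp
  | add p q hp hq => rw [map_add, map_add, hp, hq]; abel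
  | single g a =>
    rw [ad, adR, Finsupp.linearCombination_single, Finsupp.linearCombination_single, 𝔇.skew z g,
      smul_neg]

lemma D_RS (z : G) (n : ℕ) : ∀ {u : Wd F G}, u ∈ 𝔇.RS n → 𝔇.D z u ∈ 𝔇.RS n := by
  induction n with
  | zero =>
    intro u hu
    rw [RS] at hu
    induction hu using Submodule.span_induction with
    | mem s hs =>
      obtain ⟨x, y, t, rfl⟩ := hs
      have h1 := 𝔇.relL_mem (𝔇.br z x) y t
      have h2 := 𝔇.relR_mem x (𝔇.br z y) t
      have h3 := 𝔇.rel_mem x y (𝔇.D z t)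
      have h4 : 𝔇.ad z (𝔇.br x y) = 𝔇.adR y (𝔇.br z x) + 𝔇.ad x (𝔇.br z y) := by
        rw [← 𝔇.jac' z x y]; abel
      have h5 : 𝔇.D z (𝔇.rel x y t) =
          (cnsL (𝔇.br z x) (cns y t) - cns y (cnsL (𝔇.br z x) t) - cnsL (𝔇.adR y (𝔇.br z x)) t) +
          (cns x (cnsL (𝔇.br z y) t) - cnsL (𝔇.br z y) (cns x t) - cnsL (𝔇.ad x (𝔇.br z y)) t) +
          𝔇.rel x y (𝔇.D z t) := by
        rw [rel, map_sub, map_sub, D_cns, D_cns, D_cns, D_cns, D_cnsL, h4, rel]
        simp only [map_add, LinearMap.add_apply]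
        abel
      rw [h5]
      exact add_mem (add_mem h1 h2) h3
    | zero => rw [map_zero]; exact zero_mem _
    | add x y _ _ hx hy => rw [map_add]; exact add_mem hx hy
    | smul a x _ hx => rw [map_smul]; exact Submodule.smul_mem _ _ hx
  | succ n ih =>
    intro u hu
    rw [RS] at hu
    induction hu using Submodule.span_induction with
    | mem s hs =>
      obtain ⟨g, u, hu, rfl⟩ := hs
      rw [D_cns]
      exact add_mem (𝔇.cnsL_RS _ hu) (𝔇.cns_RS _ (ih hu))
    | zero => rw [map_zero]; exact zero_mem _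
    | add x y _ _ hx hy => rw [map_add]; exact add_mem hx hy
    | smul a x _ hx => rw [map_smul]; exact Submodule.smul_mem _ _ hx

lemma E_RS (n : ℕ) : ∀ {u : Wd F G}, u ∈ 𝔇.RS n → 𝔇.E u = 0 := by
  induction n with
  | zero =>
    intro u hu
    rw [RS] at hu
    induction hu using Submodule.span_induction with
    | mem s hs => obtain ⟨x, y, t, rfl⟩ := hs; exact 𝔇.E_rel x y t
    | zero => exact map_zero _
    | add x y _ _ hx hy => rw [map_add, hx, hy, add_zero]
    | smul a x _ hx => rw [map_smul, hx, smul_zero]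
  | succ n ih =>
    intro u hu
    rw [RS] at hu
    induction hu using Submodule.span_induction with
    | mem s hs =>
      obtain ⟨g, u, hu, rfl⟩ := hs
      rw [E_cns, ih hu, ih (𝔇.D_RS g n hu)]
      split_ifs <;> simp
    | zero => exact map_zero _
    | add x y _ _ hx hy => rw [map_add, hx, hy, add_zero]
    | smul a x _ hx => rw [map_smul, hx, smul_zero]

lemma E_cnsAll_rel (w : List G) (x y : G) (t : Wd F G) : 𝔇.E (cnsAll w (𝔇.rel x y t)) = 0 := by
  have h1 : ∀ w : List G, cnsAll w (𝔇.rel x y t) ∈ 𝔇.RS w.length := by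
    intro w
    induction w with
    | nil => exact 𝔇.rel_mem x y t
    | cons g w ih => rw [cnsAll_cons]; exact 𝔇.cns_RS g ih
  exact 𝔇.E_RS _ (h1 w)

/-! ### Letters on the right -/

/-- Append a letter. -/
noncomputable def rc (g : G) : Wd F G →ₗ[F] Wd F G := Finsupp.lmapDomain F F (fun w => w ++ [g])

lemma rc_single (g : G) (w : List G) (a : F) :
    rc g (Finsupp.single w a) = Finsupp.single (w ++ [g]) a := by
  simp [rc, Finsupp.lmapDomain_apply, Finsupp.mapDomain_single]

lemma rc_cns (g h : G) (t : Wd F G) : rc g (cns h t) = cns h (rc g t) := by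
  induction t using Finsupp.induction_linear with
  | zero => simp
  | add s t hs ht => simp only [map_add, hs, ht]
  | single w a => rw [cns_single, rc_single, rc_single, cns_single, List.cons_append]

lemma rc_cnsL (g : G) (b : G →₀ F) (t : Wd F G) : rc g (cnsL b t) = cnsL b (rc g t) := by
  induction b using Finsupp.induction_linear with
  | zero => simp
  | add p q hp hq => simp only [map_add, LinearMap.add_apply, hp, hq]
  | single h a => rw [cnsL_single, cnsL_single, map_smul, rc_cns]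

/-- Append a combination of letters. -/
noncomputable def rcL : (G →₀ F) →ₗ[F] (Wd F G →ₗ[F] Wd F G) := Finsupp.linearCombination F rc

lemma D_rc (z g : G) (t : Wd F G) : 𝔇.D z (rc g t) = rcL (𝔇.br z g) t + rc g (𝔇.D z t) := by
  refine wd_ind (P := fun t => 𝔇.D z (rc g t) = rcL (𝔇.br z g) t + rc g (𝔇.D z t)) ?_ ?_ ?_ ?_ ?_ t
  · simp
  · intro s t hs ht; simp only [map_add, hs, ht]; abel
  · intro a t ht; simp only [map_smul, ht, smul_add]
  · rw [rc_single, D_nil, map_zero, add_zero]
    have e1 : (Finsupp.single ([] ++ [g]) 1 : Wd F G) = cns g (Finsupp.single [] 1) := by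
      rw [cns_single]; rfl
    rw [e1, D_cns, D_nil, map_zero, add_zero]
    generalize 𝔇.br z g = b
    induction b using Finsupp.induction_linear with
    | zero => simp
    | add p q hp hq => simp only [map_add, LinearMap.add_apply, hp, hq]
    | single h a =>
      rw [cnsL_single, rcL, Finsupp.linearCombination_single, LinearMap.smul_apply, rc_single,
        cns_single]
      rfl
  · intro y t ht
    rw [rc_cns, D_cns, ht, D_cns, map_add, map_add, rc_cns, rc_cnsL]
    have e2 : ∀ b : G →₀ F, rcL b (cns y t) = cns y (rcL b t) := by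
      intro b
      induction b using Finsupp.induction_linear with
      | zero => simp
      | add p q hp hq => simp only [map_add, LinearMap.add_apply, hp, hq]
      | single h a =>
        rw [rcL, Finsupp.linearCombination_single, LinearMap.smul_apply, LinearMap.smul_apply,
          map_smul, rc_cns]
    rw [e2]
    abel

lemma E_rc_aux (n : ℕ) : ∀ {t : Wd F G}, t ∈ Sn F G n → ∀ g, 0 ≤ 𝔇.deg g →
    𝔇.E (rc g t) = 𝔇.lam g * 𝔇.E t := by
  induction n with
  | zero =>
    intro t ht g hg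
    refine Sn_ind (P := fun t => 𝔇.E (rc g t) = 𝔇.lam g * 𝔇.E t) (by simp) ?_ ?_ ht
    · intro x y hx hy; rw [map_add, map_add, map_add, hx, hy, mul_add]
    · intro w a hw
      have : w = [] := List.length_eq_zero_iff.mp (Nat.le_zero.mp hw)
      subst this
      have e1 : rc g (Finsupp.single [] a : Wd F G) = cns g (Finsupp.single [] a) := by
        rw [cns_single, rc_single]; rfl
      rw [e1, 𝔇.E_nonneg hg, D_nil, map_zero, zero_add]
  | succ n ih =>
    intro t ht g hg
    refine Sn_ind (P := fun t => 𝔇.E (rc g t) = 𝔇.lam g * 𝔇.E t) (by simp) ?_ ?_ ht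
    · intro x y hx hy; rw [map_add, map_add, map_add, hx, hy, mul_add]
    · intro w a hw
      cases w with
      | nil =>
        have e1 : rc g (Finsupp.single [] a : Wd F G) = cns g (Finsupp.single [] a) := by
          rw [cns_single, rc_single]; rfl
        rw [e1, 𝔇.E_nonneg hg, D_nil, map_zero, zero_add]
      | cons y w =>
        have hw' : w.length ≤ n := by simpa using hw
        rw [← cns_single, rc_cns]
        rcases lt_or_ge (𝔇.deg y) 0 with hy | hy
        · rw [𝔇.E_neg hy, 𝔇.E_neg hy, mul_zero]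
        · have hb : ∀ g', 𝔇.br y g g' ≠ 0 → 0 ≤ 𝔇.deg g' := by
            intro g' hg'
            have := 𝔇.hdeg y g g' hg'
            omega
          have h1 : ∀ s ∈ Sn F G n, 𝔇.E (rcL (𝔇.br y g) s) = 𝔇.lamL (𝔇.br y g) * 𝔇.E s := by
            intro s hs
            refine supp_ind (P := fun b => 𝔇.E (rcL b s) = 𝔇.lamL b * 𝔇.E s) hb (by simp) ?_ ?_
            · intro x y hx hy; simp only [map_add, LinearMap.add_apply, hx, hy]; ring
            · intro g' a' hg'
              rw [rcL, Finsupp.linearCombination_single, LinearMap.smul_apply, map_smul,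
                ih hs g' hg', lamL, Finsupp.linearCombination_single]
              simp only [smul_eq_mul]; ring
          have h2 : 𝔇.lamL (𝔇.br y g) = 0 := 𝔇.hbr y g hy hg
          rw [𝔇.E_nonneg hy, 𝔇.E_nonneg hy, D_rc, map_add, h1 _ (single_Sn hw' a), h2,
            ih (𝔇.D_Sn y (single_Sn hw' a)) g hg, ih (single_Sn hw' a) g hg]
          ring

lemma E_rc {g : G} (hg : 0 ≤ 𝔇.deg g) (t : Wd F G) : 𝔇.E (rc g t) = 𝔇.lam g * 𝔇.E t := by
  induction t using Finsupp.induction_linear with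
  | zero => simp
  | add s t hs ht => rw [map_add, map_add, map_add, hs, ht, mul_add]
  | single w a => exact 𝔇.E_rc_aux w.length (single_Sn le_rfl a) g hg

/-! ### Letters of degree zero on the left -/

lemma E_D_zero_aux (n : ℕ) : ∀ {t : Wd F G}, t ∈ Sn F G n → ∀ x, 𝔇.deg x = 0 →
    𝔇.E (𝔇.D x t) = 0 := by
  induction n with
  | zero =>
    intro t ht x hx
    refine Sn_ind (P := fun t => 𝔇.E (𝔇.D x t) = 0) (by simp) ?_ ?_ ht
    · intro x y hx hy; rw [map_add, map_add, hx, hy, add_zero]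
    · intro w a hw
      have : w = [] := List.length_eq_zero_iff.mp (Nat.le_zero.mp hw)
      subst this
      rw [D_nil, map_zero]
  | succ n ih =>
    intro t ht x hx
    refine Sn_ind (P := fun t => 𝔇.E (𝔇.D x t) = 0) (by simp) ?_ ?_ ht
    · intro x y hx hy; rw [map_add, map_add, hx, hy, add_zero]
    · intro w a hw
      cases w with
      | nil => rw [D_nil, map_zero]
      | cons y w =>
        have hw' : w.length ≤ n := by simpa using hw
        have hs : (Finsupp.single w a : Wd F G) ∈ Sn F G n := single_Sn hw' a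
        rw [← cns_single, D_cns, map_add]
        set s : Wd F G := Finsupp.single w a
        rcases lt_or_ge (𝔇.deg y) 0 with hy | hy
        · rw [𝔇.E_neg hy, 𝔇.E_cnsL_neg, add_zero]
          intro g hg
          have := 𝔇.hdeg x y g hg
          omega
        · have hb : ∀ g, 𝔇.br x y g ≠ 0 → 0 ≤ 𝔇.deg g := by
            intro g hg
            have := 𝔇.hdeg x y g hg
            omega
          have h1 : 𝔇.lamL (𝔇.br x y) = 0 := 𝔇.hbr x y hx.ge hy
          have h3 := congrArg 𝔇.E (𝔇.D_comm x y s)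
          rw [map_sub] at h3
          have h4 := ih (𝔇.D_Sn y hs) x hx
          have h5 : 𝔇.lam y * 𝔇.E (𝔇.D x s) = 0 := by
            rw [ih hs x hx, mul_zero]
          rw [𝔇.E_cnsL_nonneg hb, 𝔇.E_nonneg hy, h1]
          linear_combination (-1) * h3 + h4 + h5

lemma E_zero {x : G} (hx : 𝔇.deg x = 0) (t : Wd F G) : 𝔇.E (cns x t) = 𝔇.lam x * 𝔇.E t := by
  have h1 : 𝔇.E (𝔇.D x t) = 0 := by
    induction t using Finsupp.induction_linear with
    | zero => simp
    | add s t hs ht => rw [map_add, map_add, hs, ht, add_zero]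
    | single w a => exact 𝔇.E_D_zero_aux w.length (single_Sn le_rfl a) x hx
  rw [𝔇.E_nonneg hx.ge, h1, zero_add]

/-! ### The module generated by the functional -/

/-- The left radical of the functional. -/
noncomputable def Nr : Submodule F (Wd F G) where
  carrier := {t | ∀ w : List G, 𝔇.E (cnsAll w t) = 0}
  add_mem' := by intro x y hx hy w; rw [map_add, map_add, hx w, hy w, add_zero]
  zero_mem' := by intro w; simp
  smul_mem' := by intro a x hx w; rw [map_smul, map_smul, hx w, smul_zero]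

lemma cnsAll_append (w w' : List G) (t : Wd F G) : cnsAll (w ++ w') t = cnsAll w (cnsAll w' t) := by
  induction w with
  | nil => rfl
  | cons g w ih => rw [List.cons_append, cnsAll_cons, cnsAll_cons, ih]

lemma cns_Nr (g : G) {t : Wd F G} (ht : t ∈ 𝔇.Nr) : cns g t ∈ 𝔇.Nr := by
  intro w
  have : cnsAll w (cns g t) = cnsAll (w ++ [g]) t := by rw [cnsAll_append]; rfl
  rw [this]
  exact ht _

/-- The module. -/
abbrev Q : Type _ := Wd F G ⧸ 𝔇.Nr

/-- The operators. -/
noncomputable def opQ (g : G) : Module.End F 𝔇.Q :=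
  𝔇.Nr.mapQ 𝔇.Nr (cns g) (fun _ hx => 𝔇.cns_Nr g hx)

lemma opQ_mk (g : G) (t : Wd F G) : 𝔇.opQ g (𝔇.Nr.mkQ t) = 𝔇.Nr.mkQ (cns g t) := rfl

/-- The operator of a combination of letters. -/
noncomputable def opQL : (G →₀ F) →ₗ[F] Module.End F 𝔇.Q := Finsupp.linearCombination F 𝔇.opQ

lemma opQL_mk (b : G →₀ F) (t : Wd F G) : 𝔇.opQL b (𝔇.Nr.mkQ t) = 𝔇.Nr.mkQ (cnsL b t) := by
  induction b using Finsupp.induction_linear with
  | zero => simp
  | add p q hp hq => simp only [map_add, LinearMap.add_apply, hp, hq]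
  | single h a =>
    rw [opQL, Finsupp.linearCombination_single, LinearMap.smul_apply, opQ_mk, cnsL_single, map_smul]

lemma opQ_comm (x y : G) : 𝔇.opQ x * 𝔇.opQ y - 𝔇.opQ y * 𝔇.opQ x = 𝔇.opQL (𝔇.br x y) := by
  refine LinearMap.ext fun q => ?_
  obtain ⟨t, rfl⟩ := 𝔇.Nr.mkQ_surjective q
  rw [LinearMap.sub_apply, Module.End.mul_apply, Module.End.mul_apply, opQ_mk, opQ_mk, opQ_mk,
    opQ_mk, opQL_mk, ← map_sub, ← sub_eq_zero, ← map_sub]
  exact (Submodule.Quotient.mk_eq_zero _).mpr (fun w => 𝔇.E_cnsAll_rel w x y t)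

/-- The generating vector. -/
noncomputable def vq : 𝔇.Q := 𝔇.Nr.mkQ (Finsupp.single [] 1)

/-- The functional on the module. -/
noncomputable def epsQ : 𝔇.Q →ₗ[F] F := 𝔇.Nr.liftQ 𝔇.E (fun _ hx => hx [])

lemma epsQ_mk (t : Wd F G) : 𝔇.epsQ (𝔇.Nr.mkQ t) = 𝔇.E t := rfl

lemma epsQ_vq : 𝔇.epsQ 𝔇.vq = 1 := by rw [vq, epsQ_mk, E_nil]

lemma epsQ_neg {g : G} (hg : 𝔇.deg g < 0) (q : 𝔇.Q) : 𝔇.epsQ (𝔇.opQ g q) = 0 := by
  obtain ⟨t, rfl⟩ := 𝔇.Nr.mkQ_surjective q
  rw [opQ_mk, epsQ_mk, 𝔇.E_neg hg]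

lemma epsQ_zero {g : G} (hg : 𝔇.deg g = 0) (q : 𝔇.Q) :
    𝔇.epsQ (𝔇.opQ g q) = 𝔇.lam g * 𝔇.epsQ q := by
  obtain ⟨t, rfl⟩ := 𝔇.Nr.mkQ_surjective q
  rw [opQ_mk, epsQ_mk, epsQ_mk, 𝔇.E_zero hg]

lemma opQ_vq {g : G} (hg : 0 ≤ 𝔇.deg g) : 𝔇.opQ g 𝔇.vq = 𝔇.lam g • 𝔇.vq := by
  rw [vq, opQ_mk, ← map_smul, ← sub_eq_zero, ← map_sub]
  refine (Submodule.Quotient.mk_eq_zero _).mpr (fun w => ?_)
  rw [map_sub, map_smul, cns_single, cnsAll_single, cnsAll_single, map_sub, map_smul]
  have h1 : (Finsupp.single (w ++ [g]) 1 : Wd F G) = rc g (Finsupp.single w 1) := by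
    rw [rc_single]
  rw [h1, 𝔇.E_rc hg, List.append_nil, smul_eq_mul, sub_self]

end Data

end Pool.Agent.Helper855.Gko
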