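import Pool.Agent.Helper855.GkoFun

/-!
Modules generated by a highest weight vector.
-/

set_option autoImplicit false
set_option linter.unusedSectionVars false

namespace Pool.Agent.Helper855.Gko.Data

variable {F : Type*} [Field F] {G : Type*} (𝔇 : Data F G) {M : Type*} [AddCommGroup M] [Module F M]
  (op : G → Module.End F M) (v : M)

/-- A word applied to the vector. -/
def wv (w : List G) : M := w.foldr (fun g m => op g m) v

lemma wv_nil : wv op v [] = v := rfl

lemma wv_cons (g : G) (w : List G) : wv op v (g :: w) = op g (wv op v w) := rfl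

/-- The degree parts. -/
def P (n : ℤ) : Submodule F M := Submodule.span F
  {m | ∃ w : List G, (∀ g ∈ w, 𝔇.deg g < 0) ∧ (w.map 𝔇.deg).sum = -n ∧ m = wv op v w}

/-- The conditions for a highest weight vector. -/
structure IsHW : Prop where
  comm : ∀ x y m, op x (op y m) = op y (op x m) + Finsupp.linearCombination F op (𝔇.br x y) m
  vac : ∀ g, 0 ≤ 𝔇.deg g → op g v = 𝔇.lam g • v

variable {op v}

lemma wv_mem {w : List G} (hw : ∀ g ∈ w, 𝔇.deg g < 0) : wv op v w ∈ 𝔇.P op v (-(w.map 𝔇.deg).sum) :=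
  Submodule.subset_span ⟨w, hw, by ring, rfl⟩

lemma P_cons {g : G} (hg : 𝔇.deg g < 0) {m : M} {n : ℤ} (hm : m ∈ 𝔇.P op v n) :
    op g m ∈ 𝔇.P op v (n - 𝔇.deg g) := by
  unfold P at hm
  induction hm using Submodule.span_induction with
  | mem y hy =>
    obtain ⟨w, hw, hs, rfl⟩ := hy
    refine Submodule.subset_span ⟨g :: w, ?_, ?_, rfl⟩
    · intro g' hg'
      rcases List.mem_cons.mp hg' with rfl | h
      · exact hg
      · exact hw g' h
    · rw [List.map_cons, List.sum_cons, hs]; ring
  | zero => rw [map_zero]; exact zero_mem _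
  | add y z _ _ hy hz => rw [map_add]; exact add_mem hy hz
  | smul a y _ hy => rw [map_smul]; exact Submodule.smul_mem _ _ hy

lemma IsHW.op_wv (H : 𝔇.IsHW op v) : ∀ (w : List G), (∀ g ∈ w, 𝔇.deg g < 0) → ∀ g : G,
    op g (wv op v w) ∈ 𝔇.P op v (-(w.map 𝔇.deg).sum - 𝔇.deg g) := by
  intro w
  induction w with
  | nil =>
    intro _ g
    have hv : v ∈ 𝔇.P op v 0 := Submodule.subset_span ⟨[], by simp, by simp, rfl⟩
    rw [wv_nil, List.map_nil, List.sum_nil, neg_zero]
    rcases lt_or_ge (𝔇.deg g) 0 with hg | hg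
    · exact 𝔇.P_cons hg hv
    · rw [H.vac g hg]
      rcases eq_or_lt_of_le hg with h0 | h0
      · rw [← h0, sub_zero]; exact Submodule.smul_mem _ _ hv
      · rw [𝔇.hlam g h0, zero_smul]; exact zero_mem _
  | cons y w ih =>
    intro hw g
    have hy : 𝔇.deg y < 0 := hw y (by simp)
    have hw' : ∀ g ∈ w, 𝔇.deg g < 0 := fun g hg => hw g (by simp [hg])
    rw [wv_cons, List.map_cons, List.sum_cons]
    rcases lt_or_ge (𝔇.deg g) 0 with hg | hg
    · have := 𝔇.P_cons hg (𝔇.P_cons hy (𝔇.wv_mem (op := op) (v := v) hw'))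
      convert this using 2
      ring
    · rw [H.comm]
      refine add_mem ?_ ?_
      · have := 𝔇.P_cons hy (ih hw' g)
        convert this using 2
        ring
      · have key : ∀ b : G →₀ F, (∀ g', b g' ≠ 0 → 𝔇.deg g' = 𝔇.deg g + 𝔇.deg y) →
            Finsupp.linearCombination F op b (wv op v w) ∈
              𝔇.P op v (-(𝔇.deg y + (w.map 𝔇.deg).sum) - 𝔇.deg g) := by
          intro b hb
          refine supp_ind (P := fun b => Finsupp.linearCombination F op b (wv op v w) ∈
              𝔇.P op v (-(𝔇.deg y + (w.map 𝔇.deg).sum) - 𝔇.deg g)) hb ?_ ?_ ?_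
          · rw [map_zero, LinearMap.zero_apply]; exact zero_mem _
          · intro x y hx hy
            rw [map_add, LinearMap.add_apply]; exact add_mem hx hy
          · intro g' a hg'
            rw [Finsupp.linearCombination_single, LinearMap.smul_apply]
            refine Submodule.smul_mem _ _ ?_
            have := ih hw' g'
            convert this using 2
            rw [hg']; ring
        exact key _ (𝔇.hdeg g y)

lemma IsHW.op_P (H : 𝔇.IsHW op v) {m : M} {n : ℤ} (hm : m ∈ 𝔇.P op v n) (g : G) :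
    op g m ∈ 𝔇.P op v (n - 𝔇.deg g) := by
  unfold P at hm
  induction hm using Submodule.span_induction with
  | mem y hy =>
    obtain ⟨w, hw, hs, rfl⟩ := hy
    have := H.op_wv 𝔇 w hw g
    rwa [hs, neg_neg] at this
  | zero => rw [map_zero]; exact zero_mem _
  | add y z _ _ hy hz => rw [map_add]; exact add_mem hy hz
  | smul a y _ hy => rw [map_smul]; exact Submodule.smul_mem _ _ hy

lemma sum_nonpos {w : List G} (hw : ∀ g ∈ w, 𝔇.deg g < 0) : (w.map 𝔇.deg).sum ≤ 0 := by
  induction w with
  | nil => simp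
  | cons y w ih =>
    have h1 := hw y (by simp)
    have h2 := ih (fun g hg => hw g (by simp [hg]))
    rw [List.map_cons, List.sum_cons]
    omega

lemma P_neg {n : ℤ} (hn : n < 0) {m : M} (hm : m ∈ 𝔇.P op v n) : m = 0 := by
  unfold P at hm
  induction hm using Submodule.span_induction with
  | mem y hy =>
    obtain ⟨w, hw, hs, rfl⟩ := hy
    have := 𝔇.sum_nonpos hw
    omega
  | zero => rfl
  | add y z _ _ hy hz => rw [hy, hz, add_zero]
  | smul a y _ hy => rw [hy, smul_zero]

lemma P_zero {m : M} (hm : m ∈ 𝔇.P op v 0) : ∃ a : F, m = a • v := by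
  unfold P at hm
  induction hm using Submodule.span_induction with
  | mem y hy =>
    obtain ⟨w, hw, hs, rfl⟩ := hy
    cases w with
    | nil => exact ⟨1, by rw [wv_nil, one_smul]⟩
    | cons g w =>
      have h1 := 𝔇.sum_nonpos (w := w) (fun g' hg' => hw g' (by simp [hg']))
      have h2 := hw g (by simp)
      rw [List.map_cons, List.sum_cons] at hs
      omega
  | zero => exact ⟨0, by simp⟩
  | add y z _ _ hy hz =>
    obtain ⟨a, rfl⟩ := hy
    obtain ⟨b, rfl⟩ := hz
    exact ⟨a + b, by rw [add_smul]⟩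
  | smul a y _ hy =>
    obtain ⟨b, rfl⟩ := hy
    exact ⟨a * b, by rw [mul_smul]⟩

lemma v_mem_P : v ∈ 𝔇.P op v 0 := Submodule.subset_span ⟨[], by simp, by simp, rfl⟩

lemma IsHW.op_iSup (H : 𝔇.IsHW op v) {m : M} (hm : m ∈ ⨆ n : ℤ, 𝔇.P op v n) (g : G) :
    op g m ∈ ⨆ n : ℤ, 𝔇.P op v n := by
  induction hm using Submodule.iSup_induction' with
  | mem n y hy => exact Submodule.mem_iSup_of_mem _ (H.op_P 𝔇 hy g)
  | zero => rw [map_zero]; exact zero_mem _
  | add y z _ _ hy hz => rw [map_add]; exact add_mem hy hz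

end Pool.Agent.Helper855.Gko.Data
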