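import Pool.Agent.Helper855.GkoDefs

/-!
The notions of `GkoDefs` expressed directly with Mathlib's tensor products and direct sums.
-/

set_option autoImplicit false

open scoped TensorProduct DirectSum

namespace Pool.Agent.Helper855.Gko

open Aff (X)

variable (F : Type*) [Field F] (ℓ n ε : ℕ)

/-- The tensor product `V(λ_{ℓ-1;n}) ⊗ V(ω_ε)`; here `ω_ε = λ_{1;ε}`. -/
abbrev OTen : Type _ := Aff.Weyl F (Aff.weight (ℓ - 1) n) ⊗[F] Aff.Weyl F (Aff.weight 1 ε)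

/-- The action of `x(m)` on the first factor. -/
noncomputable def oact1 (a : X) (m : ℤ) : OTen F ℓ n ε →ₗ[F] OTen F ℓ n ε :=
  (opW F (ℓ - 1) n a m).rTensor _

/-- The action of `x(m)` on the second factor. -/
noncomputable def oact2 (a : X) (m : ℤ) : OTen F ℓ n ε →ₗ[F] OTen F ℓ n ε :=
  (opW F 1 ε a m).lTensor _

/-- The diagonal action of `x(m)`. -/
noncomputable def oactD (a : X) (m : ℤ) : OTen F ℓ n ε →ₗ[F] OTen F ℓ n ε :=
  oact1 F ℓ n ε a m + oact2 F ℓ n ε a m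

/-- The coset Virasoro operators. -/
noncomputable def ocoset (m : ℤ) (v : OTen F ℓ n ε) : OTen F ℓ n ε :=
  sug (oact1 F ℓ n ε) (((ℓ - 1 : ℕ) : F) + 2) m v + sug (oact2 F ℓ n ε) (1 + 2) m v -
    sug (oactD F ℓ n ε) ((ℓ : F) + 2) m v

/-- The summand `V(λ_{ℓ;j}) ⊗ L_{c_ℓ,η(n,j)}`. -/
abbrev OSummand (j : ℕ) : Type _ :=
  Aff.Weyl F (Aff.weight ℓ j) ⊗[F] Simple F (cMin F ℓ) (eta F ℓ n j)

/-- The decomposition. -/
def OHasGKO : Prop :=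
  ∃ φ : OTen F ℓ n ε ≃ₗ[F] ⨁ j : Jset ℓ n ε, OSummand F ℓ n j.1,
    (∀ (a : X) (m : ℤ) (v : OTen F ℓ n ε) (j : Jset ℓ n ε),
      φ (oactD F ℓ n ε a m v) j = (opW F ℓ j.1 a m).rTensor _ (φ v j)) ∧
    (∀ (m : ℤ) (v : OTen F ℓ n ε) (j : Jset ℓ n ε),
      φ (ocoset F ℓ n ε m v) j = (opV F (cMin F ℓ) (eta F ℓ n j.1) m).lTensor _ (φ v j))

variable {F ℓ n ε}

theorem OHasGKO_of (H : HasGKO F ℓ n ε) : OHasGKO F ℓ n ε := by
  obtain ⟨φ, h1, h2⟩ := H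
  exact ⟨φ, h1, h2⟩

end Pool.Agent.Helper855.Gko
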