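import Pool.Agent.Helper855.GkoBasic

/-!
The Virasoro algebra over a field (through its enveloping algebra), its Verma modules and their
simple quotients.
-/

set_option autoImplicit false

namespace Pool.Agent.Helper855.Gko

/-- The commutator `ab - ba`. -/
def cm {R : Type*} [Ring R] (a b : R) : R := a * b - b * a

/-- The binomial coefficient `(m+1 choose 3) = (m+1)m(m-1)/6` of an integer `m`. -/
def binom3 (m : ℤ) : ℤ := (m + 1) * m * (m - 1) / 6

/-- Names of the basis elements of the Virasoro algebra. -/
inductive VGen : Type
  | L (n : ℤ) : VGen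
  | C : VGen

variable (F : Type*) [Field F]

/-- The basis element `x` of the Virasoro algebra, in the free algebra. -/
noncomputable def vgn (x : VGen) : FreeAlgebra F VGen := FreeAlgebra.ι F x

/-- The coefficient `(m^3 - m)/12` of `C` in `[L_m, L_{-m}]`, that is half of
`(m+1 choose 3)`. -/
noncomputable def cen (m : ℤ) : F := (2 : F)⁻¹ * (binom3 m : F)

/-- The relations of the Virasoro algebra:
`[L_m, L_n] = (m - n) L_{m+n} + (if m + n = 0 then (m^3 - m)/12 C)`, and `C` is central. -/
inductive VRel : FreeAlgebra F VGen → FreeAlgebra F VGen → Prop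
  | LL (m n : ℤ) : VRel (cm (vgn F (.L m)) (vgn F (.L n)))
      (((m - n : ℤ) : F) • vgn F (.L (m + n)) + (if m + n = 0 then cen F m • vgn F .C else 0))
  | CL (n : ℤ) : VRel (cm (vgn F .C) (vgn F (.L n))) 0

/-- The universal enveloping algebra of the Virasoro algebra over `F`. -/
abbrev UVir : Type _ := RingQuot (VRel F)

/-- The quotient map from the free algebra. -/
noncomputable def toV : FreeAlgebra F VGen →ₐ[F] UVir F := RingQuot.mkAlgHom F (VRel F)

/-- `L_n` as an element of the enveloping algebra. -/
noncomputable def uL (n : ℤ) : UVir F := toV F (vgn F (.L n))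

/-- `C` as an element of the enveloping algebra. -/
noncomputable def uC : UVir F := toV F (vgn F .C)

/-- The left ideal of the enveloping algebra generated by `L_n` for `n > 0`, by `L_0 - h` and by
`C - c`. -/
noncomputable def vermaIdeal (c h : F) : Submodule (UVir F) (UVir F) :=
  Submodule.span (UVir F) ({x | ∃ n : ℤ, 0 < n ∧ x = uL F n} ∪
    {uL F 0 - algebraMap F (UVir F) h, uC F - algebraMap F (UVir F) c})

/-- The Verma module `M_{c,h}`: the quotient of the enveloping algebra by the left ideal above. -/
def Verma (c h : F) : Type _ := Quo (vermaIdeal F c h)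

noncomputable instance (c h : F) : AddCommGroup (Verma F c h) :=
  (inferInstance : AddCommGroup (Quo (vermaIdeal F c h)))

noncomputable instance (c h : F) : Module (UVir F) (Verma F c h) :=
  (inferInstance : Module (UVir F) (Quo (vermaIdeal F c h)))

noncomputable instance (c h : F) : Module F (Verma F c h) :=
  Module.compHom _ (algebraMap F (UVir F))

/-- The highest weight vector of the Verma module. -/
noncomputable def vac (c h : F) : Verma F c h := cls (vermaIdeal F c h) 1

/-- The monomial `L_{-i_1} ⋯ L_{-i_r}` for a list `[i_1, …, i_r]`. -/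
noncomputable def mono (l : List ℕ) : UVir F := (l.map fun i => uL F (-(i : ℤ))).prod

/-- For a vector `v` in a module, the span of the vectors `L_{-i_1} ⋯ L_{-i_r} v` with all
`i_j > 0` and `i_1 + ⋯ + i_r = k`. -/
noncomputable def degreePart {M : Type*} [AddCommGroup M] [Module F M] [Module (UVir F) M]
    (v : M) (k : ℕ) : Submodule F M :=
  Submodule.span F {x | ∃ l : List ℕ, (∀ i ∈ l, 0 < i) ∧ l.sum = k ∧ x = mono F l • v}

/-- The degree `k` part of the Verma module. -/
noncomputable def vermaPart (c h : F) (k : ℕ) : Submodule F (Verma F c h) :=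
  degreePart F (vac F c h) k

/-- A submodule `N` of the Verma module is graded when each of its elements is a linear
combination of homogeneous elements of `N`. -/
def IsGraded (c h : F) (N : Submodule (UVir F) (Verma F c h)) : Prop :=
  ∀ x ∈ N, x ∈ Submodule.span F {y | y ∈ N ∧ ∃ k : ℕ, y ∈ vermaPart F c h k}

/-- The largest proper graded submodule of the Verma module: the sum of all proper graded
submodules. (It is proved in `GkoVir` that it is graded and proper, and that the quotient is
simple.) -/
noncomputable def maxGraded (c h : F) : Submodule (UVir F) (Verma F c h) :=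
  sSup {N | IsGraded F c h N ∧ N ≠ ⊤}

/-- The simple quotient `L_{c,h}` of the Verma module `M_{c,h}`. -/
def Simple (c h : F) : Type _ := Quo (maxGraded F c h)

noncomputable instance (c h : F) : AddCommGroup (Simple F c h) :=
  (inferInstance : AddCommGroup (Quo (maxGraded F c h)))

noncomputable instance (c h : F) : Module (UVir F) (Simple F c h) :=
  (inferInstance : Module (UVir F) (Quo (maxGraded F c h)))

noncomputable instance (c h : F) : Module F (Simple F c h) :=
  Module.compHom _ (algebraMap F (UVir F))

instance (c h : F) : IsScalarTower F (UVir F) (Simple F c h) :=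
  IsScalarTower.of_algebraMap_smul fun _ _ => rfl

/-- The central charge `c_ℓ = 1 - 6/((ℓ+1)(ℓ+2))`. -/
noncomputable def cMin (ℓ : ℕ) : F := 1 - 6 / (((ℓ : F) + 1) * ((ℓ : F) + 2))

/-- The weight `h_{m,n}`, with `4(ℓ+1)(ℓ+2) h_{m,n} = (m(ℓ+2) - n(ℓ+1))^2 - 1`. -/
noncomputable def hMin (ℓ m n : ℕ) : F :=
  (((m : F) * ((ℓ : F) + 2) - (n : F) * ((ℓ : F) + 1)) ^ 2 - 1) /
    (4 * ((ℓ : F) + 1) * ((ℓ : F) + 2))

/-- The action of `L_n` on `L_{c,h}`, as a linear map. -/
noncomputable def opV (c h : F) (n : ℤ) : Simple F c h →ₗ[F] Simple F c h :=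
  Algebra.lsmul F F (Simple F c h) (uL F n)

end Pool.Agent.Helper855.Gko
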