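import Pool.Agent.Helper855.GkoFun
import Pool.Agent.Helper855.GkoVirDefs

/-!
General facts on Verma modules of the Virasoro algebra, and a singular vector in characteristic 37.
-/

set_option autoImplicit false
set_option linter.unusedSimpArgs false
set_option linter.unusedSectionVars false
set_option linter.unusedVariables false

namespace Pool.Agent.Helper855.Gko

section cenfacts

variable {F : Type*} [Field F]

lemma six_binom3 (m : ℤ) : 6 * binom3 m = (m + 1) * m * (m - 1) := by
  unfold binom3
  apply Int.mul_ediv_cancel'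
  have h : m % 6 = 0 ∨ m % 6 = 1 ∨ m % 6 = 2 ∨ m % 6 = 3 ∨ m % 6 = 4 ∨ m % 6 = 5 := by omega
  apply Int.dvd_of_emod_eq_zero
  rcases h with h | h | h | h | h | h <;>
    simp [Int.mul_emod, Int.add_emod, Int.sub_emod, h]

lemma binom3_neg (m : ℤ) : binom3 (-m) = - binom3 m := by
  have h1 := six_binom3 m
  have h2 := six_binom3 (-m)
  have h3 : 6 * binom3 (-m) = 6 * (- binom3 m) := by rw [h2]; linear_combination h1
  omega

lemma binom3_cocycle (m n : ℤ) :
    (m - n) * binom3 (m + n) = (m + 2 * n) * binom3 m - (2 * m + n) * binom3 n := by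
  have h1 := six_binom3 m
  have h2 := six_binom3 n
  have h3 := six_binom3 (m + n)
  have h4 : 6 * ((m - n) * binom3 (m + n)) =
      6 * ((m + 2 * n) * binom3 m - (2 * m + n) * binom3 n) := by
    linear_combination (m - n) * h3 - (m + 2 * n) * h1 + (2 * m + n) * h2
  omega

lemma cen_neg (m : ℤ) : cen F (-m) = - cen F m := by
  simp [cen, binom3_neg]

lemma cen_cocycle (m n : ℤ) : ((m - n : ℤ) : F) * cen F (m + n) =
    ((m + 2 * n : ℤ) : F) * cen F m - ((2 * m + n : ℤ) : F) * cen F n := by
  have h := congrArg (fun z : ℤ => (z : F)) (binom3_cocycle m n)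
  simp only [Int.cast_mul, Int.cast_sub, Int.cast_add] at h
  simp only [cen, Int.cast_sub, Int.cast_add, Int.cast_mul]
  simp only [Int.cast_ofNat] at *
  linear_combination (2 : F)⁻¹ * h

end cenfacts

section virdata

variable {F : Type*} [Field F]

/-- Brackets of basis elements. -/
noncomputable def vbr : VGen → VGen → (VGen →₀ F)
  | .L m, .L n => Finsupp.single (.L (m + n)) ((m - n : ℤ) : F) +
      (if m + n = 0 then cen F m else 0) • Finsupp.single .C 1
  | .L _, .C => 0
  | .C, _ => 0

lemma vbr_LL (m n : ℤ) : vbr (F := F) (.L m) (.L n) =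
    Finsupp.single (.L (m + n)) ((m - n : ℤ) : F) +
      (if m + n = 0 then cen F m else 0) • Finsupp.single .C 1 := rfl

lemma vbr_LC (m : ℤ) : vbr (F := F) (.L m) .C = 0 := rfl

lemma vbr_C (x : VGen) : vbr (F := F) .C x = 0 := rfl

/-- The degree. -/
def vdeg : VGen → ℤ
  | .L m => m
  | .C => 0

/-- The character. -/
noncomputable def vlam (c h : F) : VGen → F
  | .L m => if m = 0 then h else 0
  | .C => c

variable (F) in
lemma vjac (x y z : VGen) : Finsupp.linearCombination F (vbr (F := F) x) (vbr y z) -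
    Finsupp.linearCombination F (vbr (F := F) y) (vbr x z) =
    Finsupp.linearCombination F (fun g => vbr (F := F) g z) (vbr (F := F) x y) := by
  classical
  rcases x with m | _ <;> rcases y with n | _ <;> rcases z with k | _ <;>
    simp only [vbr_LL, vbr_LC, vbr_C, map_add, map_smul, map_zero,
      Finsupp.linearCombination_single, smul_zero, add_zero, sub_zero, zero_sub, neg_zero, one_smul,
      zero_add]
  simp only [smul_add, Finsupp.smul_single, smul_eq_mul]
  have e1 : m + (n + k) = m + n + k := by ring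
  have e2 : n + (m + k) = m + n + k := by ring
  rw [e1, e2]
  by_cases h : m + n + k = 0
  · have hk : k = -(m + n) := by omega
    subst hk
    simp only [h, if_true]
    have h1 := cen_cocycle (F := F) m n
    have key : ((n - -(m + n) : ℤ) : F) * cen F m = ((m - n : ℤ) : F) * cen F (m + n) +
      ((m - -(m + n) : ℤ) : F) * cen F n := by
      rw [h1]; push_cast; ring
    ext g
    simp only [Finsupp.sub_apply, Finsupp.add_apply, Finsupp.single_apply]
    push_cast at key ⊢
    split_ifs with h5 h6 h6
    · subst h5; exact absurd h6 (by simp)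
    · simp; ring
    · simp; linear_combination key
    · simp
  · simp only [h, if_false]
    ext g
    simp only [Finsupp.sub_apply, Finsupp.add_apply, Finsupp.single_apply]
    push_cast
    split_ifs <;> simp <;> ring

/-- The Virasoro algebra as a graded Lie algebra with structure constants. -/
noncomputable def vdata (c h : F) : Data F VGen where
  br := vbr
  deg := vdeg
  lam := vlam c h
  skew := by
    classical
    rintro (m | _) (n | _)
    · rw [vbr_LL, vbr_LL, add_comm n m]
      by_cases h0 : m + n = 0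
      · have hn : n = -m := by omega
        subst hn
        simp only [add_neg_cancel, if_true, cen_neg]
        ext g
        simp only [Finsupp.neg_apply, Finsupp.smul_apply, Finsupp.add_apply, Finsupp.single_apply]
        push_cast
        split_ifs <;> simp <;> ring
      · simp only [h0, if_false]
        ext g
        simp only [Finsupp.neg_apply, Finsupp.smul_apply, Finsupp.add_apply, Finsupp.single_apply]
        push_cast
        split_ifs <;> simp
    · simp [vbr]
    · simp [vbr]
    · simp [vbr]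
  jac := vjac F
  hdeg := by
    classical
    rintro (m | _) (n | _) g hg
    · rw [vbr_LL, Finsupp.add_apply, Finsupp.smul_apply, Finsupp.single_apply,
        Finsupp.single_apply] at hg
      by_cases h1 : VGen.L (m + n) = g
      · subst h1; rfl
      · rw [if_neg h1, zero_add] at hg
        by_cases h2 : VGen.C = g
        · subst h2
          by_cases h3 : m + n = 0
          · change 0 = m + n
            omega
          · rw [if_neg h3, zero_smul] at hg; exact absurd rfl hg
        · rw [if_neg h2, smul_zero] at hg; exact absurd rfl hg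
    · exact absurd rfl hg
    · exact absurd rfl hg
    · exact absurd rfl hg
  hlam := by
    rintro (m | _) hm
    · change 0 < m at hm
      change (if m = 0 then h else 0) = 0
      rw [if_neg (by omega)]
    · exact absurd hm (lt_irrefl _)
  hbr := by
    rintro (m | _) (n | _) hm hn
    · change 0 ≤ m at hm
      change 0 ≤ n at hn
      rw [vbr_LL, map_add, map_smul, Finsupp.linearCombination_single,
        Finsupp.linearCombination_single]
      simp only [vlam, smul_eq_mul]
      by_cases h3 : m + n = 0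
      · have h4 : m = 0 := by omega
        have h5 : n = 0 := by omega
        subst h4 h5
        simp [cen, binom3]
      · simp [h3]
    · exact map_zero _
    · exact map_zero _
    · exact map_zero _

end virdata

variable {F : Type*} [Field F]

section basicfacts

instance (c h : F) : IsScalarTower F (UVir F) (Verma F c h) :=
  IsScalarTower.of_algebraMap_smul fun _ _ => rfl

variable (F) in
/-- The quotient map from the enveloping algebra to the Verma module. -/
noncomputable def vermaMk (c h : F) : UVir F →ₗ[UVir F] Verma F c h := quo (vermaIdeal F c h)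

lemma vac_def (c h : F) : vac F c h = vermaMk F c h 1 := rfl

lemma vermaMk_eq_zero {c h : F} {u : UVir F} : vermaMk F c h u = 0 ↔ u ∈ vermaIdeal F c h :=
  Submodule.Quotient.mk_eq_zero _

lemma vermaMk_surj {c h : F} : Function.Surjective (vermaMk F c h) :=
  (vermaIdeal F c h).mkQ_surjective

lemma simpleMk_eq_zero' {c h : F} {x : Verma F c h} :
    (maxGraded F c h).mkQ x = 0 ↔ x ∈ maxGraded F c h :=
  Submodule.Quotient.mk_eq_zero _

variable (F) in
/-- The quotient map from the Verma module to its simple quotient. -/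
noncomputable def simpleMk (c h : F) : Verma F c h →ₗ[UVir F] Simple F c h :=
  quo (maxGraded F c h)

variable (F) in
/-- The highest weight vector of `L_{c,h}`. -/
noncomputable def svac (c h : F) : Simple F c h := simpleMk F c h (vac F c h)

lemma simpleMk_eq_zero {c h : F} {x : Verma F c h} : simpleMk F c h x = 0 ↔ x ∈ maxGraded F c h :=
  Submodule.Quotient.mk_eq_zero _

lemma simpleMk_surj {c h : F} : Function.Surjective (simpleMk F c h) :=
  (maxGraded F c h).mkQ_surjective

lemma simpleMk_smul {c h : F} (a : F) (x : Verma F c h) :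
    simpleMk F c h (a • x) = a • simpleMk F c h x := by
  rw [← algebraMap_smul (UVir F) a x, ← algebraMap_smul (UVir F) a (simpleMk F c h x), map_smul]

lemma isGraded_iff {c h : F} {N : Submodule (UVir F) (Verma F c h)} : IsGraded F c h N ↔
    ∀ x ∈ N, x ∈ ⨆ k : ℕ, (N.restrictScalars F ⊓ degreePart F (vac F c h) k) := by
  have e : Submodule.span F {y | y ∈ N ∧ ∃ k : ℕ, y ∈ vermaPart F c h k} =
      ⨆ k : ℕ, (N.restrictScalars F ⊓ degreePart F (vac F c h) k) := by
    apply le_antisymm
    · refine Submodule.span_le.mpr ?_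
      rintro y ⟨hy, k, hk⟩
      exact Submodule.mem_iSup_of_mem k ⟨hy, hk⟩
    · refine iSup_le fun k => ?_
      rintro y ⟨hy, hk⟩
      exact Submodule.subset_span ⟨hy, k, hk⟩
  unfold IsGraded
  rw [e]

lemma toV_rel {a b : FreeAlgebra F VGen} (H : VRel F a b) : toV F a = toV F b :=
  RingQuot.mkAlgHom_rel F H

lemma toV_cm (a b : FreeAlgebra F VGen) : toV F (cm a b) = cm (toV F a) (toV F b) := by
  simp only [cm, map_sub, map_mul]

end basicfacts

/-! ### General facts on modules -/

section general

variable {M : Type*} [AddCommGroup M] [Module F M] [Module (UVir F) M] [IsScalarTower F (UVir F) M]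

lemma uL_comm (m n : ℤ) : uL F m * uL F n = uL F n * uL F m +
    ((m - n : ℤ) : F) • uL F (m + n) + (if m + n = 0 then cen F m else 0) • uC F := by
  have h1 := toV_rel (VRel.LL (F := F) m n)
  rw [toV_cm, map_add, map_smul] at h1
  have h3 : toV F (if m + n = 0 then cen F m • vgn F .C else 0) =
      (if m + n = 0 then cen F m else 0) • uC F := by
    split_ifs
    · rw [map_smul]; rfl
    · rw [map_zero, zero_smul]
  rw [h3] at h1
  change uL F m * uL F n - uL F n * uL F m = _ at h1
  have h4 : uL F m * uL F n = uL F n * uL F m + (uL F m * uL F n - uL F n * uL F m) := by abel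
  rw [h4, h1, ← add_assoc]
  rfl

lemma uC_comm_L (n : ℤ) : uC F * uL F n = uL F n * uC F := by
  have h1 := toV_rel (VRel.CL (F := F) n)
  rw [toV_cm, map_zero] at h1
  exact sub_eq_zero.mp h1

/-- Induction on the enveloping algebra. -/
lemma U_ind {P : UVir F → Prop} (halg : ∀ a : F, P (algebraMap F _ a)) (hL : ∀ n, P (uL F n))
    (hC : P (uC F)) (hadd : ∀ x y, P x → P y → P (x + y)) (hmul : ∀ x y, P x → P y → P (x * y))
    (u : UVir F) : P u := by
  obtain ⟨a, rfl⟩ := RingQuot.mkAlgHom_surjective F (VRel F) u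
  refine FreeAlgebra.induction F VGen (motive := fun a => P (toV F a)) ?_ ?_ ?_ ?_ a
  · intro r; rw [AlgHom.commutes]; exact halg r
  · intro x
    cases x with
    | L n => exact hL n
    | C => exact hC
  · intro x y hx hy; rw [map_mul]; exact hmul _ _ hx hy
  · intro x y hx hy; rw [map_add]; exact hadd _ _ hx hy

lemma uC_comm (u : UVir F) : uC F * u = u * uC F := by
  refine U_ind (P := fun u => uC F * u = u * uC F) ?_ ?_ rfl ?_ ?_ u
  · intro a; exact (Algebra.commutes a (uC F)).symm
  · intro n; exact uC_comm_L _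
  · intro x y hx hy; rw [mul_add, add_mul, hx, hy]
  · intro x y hx hy; rw [← mul_assoc, hx, mul_assoc, hy, mul_assoc]

lemma uL_smul_comm (m n : ℤ) (x : M) : uL F m • uL F n • x = uL F n • uL F m • x +
    ((m - n : ℤ) : F) • uL F (m + n) • x + (if m + n = 0 then cen F m else 0) • uC F • x := by
  rw [← mul_smul, uL_comm, add_smul, add_smul, mul_smul, smul_assoc, smul_assoc]

lemma algebraMap_smul' (a : F) (x : M) : algebraMap F (UVir F) a • x = a • x :=
  algebraMap_smul (UVir F) a x

/-- A subspace stable under the generators is stable under the enveloping algebra. -/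
lemma stable_of (Z : Submodule F M) (hL : ∀ n, ∀ z ∈ Z, uL F n • z ∈ Z)
    (hC : ∀ z ∈ Z, uC F • z ∈ Z) (u : UVir F) : ∀ z ∈ Z, u • z ∈ Z := by
  refine U_ind (P := fun u => ∀ z ∈ Z, u • z ∈ Z) ?_ hL hC ?_ ?_ u
  · intro a z hz; rw [algebraMap_smul']; exact Z.smul_mem _ hz
  · intro x y hx hy z hz; rw [add_smul]; exact add_mem (hx z hz) (hy z hz)
  · intro x y hx hy z hz; rw [mul_smul]; exact hx _ (hy z hz)

lemma mono_nil : mono F [] = 1 := by simp [mono]

lemma mono_cons (i : ℕ) (l : List ℕ) : mono F (i :: l) = uL F (-(i : ℤ)) * mono F l := by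
  simp [mono]

end general

/-! ### The functional -/

variable {c h : F}

/-- The action of the free algebra. -/
noncomputable def vrho0 (c h : F) : FreeAlgebra F VGen →ₐ[F] Module.End F (vdata c h).Q :=
  FreeAlgebra.lift F (vdata c h).opQ

lemma vrho0_gn (x : VGen) : vrho0 c h (vgn F x) = (vdata c h).opQ x := by
  rw [vrho0, vgn, FreeAlgebra.lift_ι_apply]

lemma opQ_C_vq : (vdata c h).opQ .C (vdata c h).vq = c • (vdata c h).vq :=
  (vdata c h).opQ_vq (g := .C) (le_refl (0 : ℤ))

lemma vrho0_rel {a b : FreeAlgebra F VGen} (H : VRel F a b) : vrho0 c h a = vrho0 c h b := by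
  cases H with
  | LL m n =>
    have h1 : vrho0 c h (cm (vgn F (.L m)) (vgn F (.L n))) =
        (vdata c h).opQ (.L m) * (vdata c h).opQ (.L n) -
          (vdata c h).opQ (.L n) * (vdata c h).opQ (.L m) := by
      simp only [cm, map_sub, map_mul, vrho0_gn]
    rw [h1, (vdata c h).opQ_comm]
    change (vdata c h).opQL (vbr (.L m) (.L n)) = _
    rw [vbr_LL, map_add, map_smul, Data.opQL, Finsupp.linearCombination_single,
      Finsupp.linearCombination_single, one_smul, map_add, map_smul, vrho0_gn]
    split_ifs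
    · rw [map_smul, vrho0_gn]
    · rw [zero_smul, map_zero]
  | CL n =>
    have h1 : vrho0 c h (cm (vgn F .C) (vgn F (.L n))) =
        (vdata c h).opQ .C * (vdata c h).opQ (.L n) -
          (vdata c h).opQ (.L n) * (vdata c h).opQ .C := by
      simp only [cm, map_sub, map_mul, vrho0_gn]
    rw [h1, (vdata c h).opQ_comm]
    change (vdata c h).opQL (vbr .C (.L n)) = _
    rw [vbr_C, map_zero, map_zero]

/-- The action of the enveloping algebra. -/
noncomputable def rho (c h : F) : UVir F →ₐ[F] Module.End F (vdata c h).Q :=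
  RingQuot.liftAlgHom F ⟨vrho0 c h, fun _ _ H => vrho0_rel H⟩

lemma rho_toV (x : FreeAlgebra F VGen) : rho c h (toV F x) = vrho0 c h x :=
  RingQuot.liftAlgHom_mkAlgHom_apply F (vrho0 c h) _ x

lemma rho_L (n : ℤ) : rho c h (uL F n) = (vdata c h).opQ (.L n) := by
  rw [uL, rho_toV, vrho0_gn]

lemma rho_C : rho c h (uC F) = (vdata c h).opQ .C := by
  rw [uC, rho_toV, vrho0_gn]

/-- The functional on the enveloping algebra. -/
noncomputable def epsU (c h : F) : UVir F →ₗ[F] F :=
  (vdata c h).epsQ ∘ₗ (LinearMap.applyₗ (vdata c h).vq) ∘ₗ (rho c h).toLinearMap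

lemma epsU_apply (u : UVir F) : epsU c h u = (vdata c h).epsQ (rho c h u (vdata c h).vq) := rfl

lemma rho_ideal {u : UVir F} (hu : u ∈ vermaIdeal F c h) : rho c h u (vdata c h).vq = 0 := by
  unfold vermaIdeal at hu
  induction hu using Submodule.span_induction with
  | mem y hy =>
    rcases hy with ⟨n, hn, rfl⟩ | hy
    · rw [rho_L, (vdata c h).opQ_vq (g := .L n) hn.le]
      have : (vdata c h).lam (.L n) = 0 := (vdata c h).hlam (.L n) hn
      rw [this, zero_smul]
    · rcases hy with rfl | hy
      · rw [map_sub, rho_L, LinearMap.sub_apply, (vdata c h).opQ_vq (g := .L 0) (le_refl (0 : ℤ)),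
          AlgHom.commutes]
        have : (vdata c h).lam (.L 0) = h := by
          change (if (0 : ℤ) = 0 then h else 0) = h
          rw [if_pos rfl]
        rw [this]
        simp
      · rw [Set.mem_singleton_iff.mp hy, map_sub, rho_C, LinearMap.sub_apply, opQ_C_vq,
          AlgHom.commutes]
        simp
  | zero => simp
  | add y z _ _ hy hz => rw [map_add, LinearMap.add_apply, hy, hz, add_zero]
  | smul a y _ hy => rw [smul_eq_mul, map_mul, Module.End.mul_apply, hy, map_zero]

/-- The functional on the Verma module. -/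
noncomputable def eps (c h : F) : Verma F c h →ₗ[F] F :=
  show (UVir F ⧸ vermaIdeal F c h) →ₗ[F] F from
  (((vermaIdeal F c h).restrictScalars F).liftQ (epsU c h) (fun u hu => by
    rw [LinearMap.mem_ker, epsU_apply, rho_ideal hu, map_zero])) ∘ₗ
    (Submodule.Quotient.restrictScalarsEquiv F (vermaIdeal F c h)).symm.toLinearMap

lemma eps_smul_vac (u : UVir F) :
    eps c h (u • vac F c h) = (vdata c h).epsQ (rho c h u (vdata c h).vq) := by
  have : u • vac F c h = vermaMk F c h u := by
    rw [vac_def, ← map_smul, smul_eq_mul, mul_one]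
  rw [this]
  rfl

lemma exists_smul_vac (x : Verma F c h) : ∃ u : UVir F, x = u • vac F c h := by
  obtain ⟨u, rfl⟩ := vermaMk_surj x
  exact ⟨u, by rw [vac_def, ← map_smul, smul_eq_mul, mul_one]⟩

lemma eps_vac : eps c h (vac F c h) = 1 := by
  have := eps_smul_vac (c := c) (h := h) 1
  rw [one_smul, map_one] at this
  rw [this]
  exact (vdata c h).epsQ_vq

lemma eps_neg {n : ℤ} (hn : n < 0) (x : Verma F c h) : eps c h (uL F n • x) = 0 := by
  obtain ⟨u, rfl⟩ := exists_smul_vac x
  rw [← mul_smul, eps_smul_vac, map_mul, Module.End.mul_apply, rho_L]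
  exact (vdata c h).epsQ_neg (g := .L n) hn _

lemma eps_L0 (x : Verma F c h) : eps c h (uL F 0 • x) = h * eps c h x := by
  obtain ⟨u, rfl⟩ := exists_smul_vac x
  rw [← mul_smul, eps_smul_vac, map_mul, Module.End.mul_apply, rho_L,
    (vdata c h).epsQ_zero (g := .L 0) rfl, eps_smul_vac]
  congr 1

lemma vac_pos {n : ℤ} (hn : 0 < n) : uL F n • vac F c h = 0 := by
  rw [vac_def, ← map_smul, smul_eq_mul, mul_one, vermaMk_eq_zero]
  exact Submodule.subset_span (Or.inl ⟨n, hn, rfl⟩)

lemma vac_zero : uL F 0 • vac F c h = h • vac F c h := by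
  have e : h • vac F c h = algebraMap F (UVir F) h • vac F c h :=
    (algebraMap_smul (UVir F) h _).symm
  rw [e, ← sub_eq_zero, ← sub_smul, vac_def, ← map_smul,
    smul_eq_mul, mul_one, vermaMk_eq_zero]
  exact Submodule.subset_span (Or.inr (Or.inl rfl))

lemma C_smul_vac : uC F • vac F c h = c • vac F c h := by
  have e : c • vac F c h = algebraMap F (UVir F) c • vac F c h :=
    (algebraMap_smul (UVir F) c _).symm
  rw [e, ← sub_eq_zero, ← sub_smul, vac_def, ← map_smul,
    smul_eq_mul, mul_one, vermaMk_eq_zero]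
  exact Submodule.subset_span (Or.inr (Or.inr rfl))

lemma C_smul (x : Verma F c h) : uC F • x = c • x := by
  obtain ⟨u, rfl⟩ := exists_smul_vac x
  rw [← mul_smul, uC_comm, mul_smul, C_smul_vac, smul_comm]

/-! ### Degrees -/

section degrees

variable {M : Type*} [AddCommGroup M] [Module F M] [Module (UVir F) M] [IsScalarTower F (UVir F) M]

lemma mono_mem {v : M} {l : List ℕ} (hl : ∀ i ∈ l, 0 < i) : mono F l • v ∈ degreePart F v l.sum :=
  Submodule.subset_span ⟨l, hl, rfl, rfl⟩

lemma cons_mem {v x : M} {k i : ℕ} (hi : 0 < i) (hx : x ∈ degreePart F v k) :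
    uL F (-(i : ℤ)) • x ∈ degreePart F v (i + k) := by
  unfold degreePart at hx
  induction hx using Submodule.span_induction with
  | mem y hy =>
    obtain ⟨l, hl, rfl, rfl⟩ := hy
    rw [← mul_smul, ← mono_cons]
    exact mono_mem (l := i :: l) (by simpa using ⟨hi, hl⟩)
  | zero => rw [smul_zero]; exact zero_mem _
  | add y z _ _ hy hz => rw [smul_add]; exact add_mem hy hz
  | smul a y _ hy => rw [smul_comm]; exact Submodule.smul_mem _ _ hy

/-- Degree parts indexed by integers. -/
noncomputable def dP (v : M) (k : ℤ) : Submodule F M := if k < 0 then ⊥ else degreePart F v k.toNat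

lemma dP_nat {v : M} (k : ℕ) : dP v (k : ℤ) = degreePart F v k := by
  unfold dP
  rw [if_neg (by omega)]
  simp

lemma dP_cons {v x : M} {k : ℤ} {i : ℕ} (hi : 0 < i) (hx : x ∈ dP (F := F) v k) :
    uL F (-(i : ℤ)) • x ∈ dP (F := F) v (k + i) := by
  rcases lt_or_ge k 0 with hk | hk
  · unfold dP at hx
    rw [if_pos hk, Submodule.mem_bot] at hx
    rw [hx, smul_zero]; exact zero_mem _
  · obtain ⟨k, rfl⟩ := Int.eq_ofNat_of_zero_le hk
    rw [dP_nat] at hx
    have := cons_mem hi hx
    have e : (k : ℤ) + i = ((i + k : ℕ) : ℤ) := by push_cast; ring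
    rw [e, dP_nat]
    exact this

/-- Highest weight vectors. -/
structure HW (c h : F) (v : M) : Prop where
  pos : ∀ n : ℤ, 0 < n → uL F n • v = 0
  zero : uL F 0 • v = h • v
  central : ∀ x : M, uC F • x = c • x

lemma HW.mono_dP {v : M} (H : HW c h v) : ∀ (l : List ℕ), (∀ i ∈ l, 0 < i) → ∀ n : ℤ,
    uL F n • mono F l • v ∈ dP (F := F) v (l.sum - n) := by
  intro l
  induction l with
  | nil =>
    intro _ n
    rw [mono_nil, one_smul]
    have hv : v ∈ dP (F := F) v 0 := by
      have := mono_mem (F := F) (v := v) (l := []) (by simp)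
      rw [mono_nil, one_smul] at this
      have e : (0 : ℤ) = ((0 : ℕ) : ℤ) := rfl
      rw [e, dP_nat]
      simpa using this
    rcases lt_trichotomy n 0 with hn | rfl | hn
    · obtain ⟨i, rfl⟩ : ∃ i : ℕ, n = -(i : ℤ) := ⟨(-n).toNat, by omega⟩
      have := dP_cons (i := i) (by omega) hv
      simpa using this
    · rw [H.zero]
      simpa using Submodule.smul_mem _ h hv
    · rw [H.pos n hn]; exact zero_mem _
  | cons i l ih =>
    intro hl n
    have hi : 0 < i := hl i (by simp)
    have hl' : ∀ j ∈ l, 0 < j := fun j hj => hl j (by simp [hj])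
    have hy : mono F l • v ∈ dP (F := F) v (l.sum : ℤ) := by
      rw [dP_nat]; exact mono_mem hl'
    rw [mono_cons, mul_smul, List.sum_cons]
    rcases lt_or_ge n 0 with hn | hn
    · obtain ⟨j, rfl⟩ : ∃ j : ℕ, n = -(j : ℤ) := ⟨(-n).toNat, by omega⟩
      have := dP_cons (i := j) (by omega) (dP_cons hi hy)
      convert this using 2
      push_cast; ring
    · rw [uL_smul_comm]
      refine add_mem (add_mem ?_ ?_) ?_
      · have := dP_cons hi (ih hl' n)
        convert this using 2
        push_cast; ring
      · refine Submodule.smul_mem _ _ ?_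
        have := ih hl' (n + -(i : ℤ))
        convert this using 2
        push_cast; ring
      · by_cases h0 : n + -(i : ℤ) = 0
        · rw [if_pos h0, H.central]
          refine Submodule.smul_mem _ _ (Submodule.smul_mem _ _ ?_)
          convert hy using 2
          push_cast; linarith
        · rw [if_neg h0, zero_smul]; exact zero_mem _

lemma HW.act_dP {v : M} (H : HW c h v) {x : M} {k : ℤ} (hx : x ∈ dP (F := F) v k) (n : ℤ) :
    uL F n • x ∈ dP (F := F) v (k - n) := by
  rcases lt_or_ge k 0 with hk | hk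
  · unfold dP at hx
    rw [if_pos hk, Submodule.mem_bot] at hx
    rw [hx, smul_zero]; exact zero_mem _
  · obtain ⟨k, rfl⟩ := Int.eq_ofNat_of_zero_le hk
    rw [dP_nat] at hx
    unfold degreePart at hx
    induction hx using Submodule.span_induction with
    | mem y hy =>
      obtain ⟨l, hl, rfl, rfl⟩ := hy
      exact H.mono_dP l hl n
    | zero => rw [smul_zero]; exact zero_mem _
    | add y z _ _ hy hz => rw [smul_add]; exact add_mem hy hz
    | smul a y _ hy => rw [smul_comm]; exact Submodule.smul_mem _ _ hy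

lemma HW.L0 {v : M} (H : HW c h v) {x : M} {k : ℕ} (hx : x ∈ degreePart F v k) :
    uL F 0 • x = (h + k) • x := by
  unfold degreePart at hx
  induction hx using Submodule.span_induction with
  | mem y hy =>
    obtain ⟨l, hl, rfl, rfl⟩ := hy
    clear hl
    induction l with
    | nil => rw [mono_nil, one_smul, H.zero]; simp
    | cons i l ih =>
      rw [mono_cons, mul_smul, uL_smul_comm, ih]
      have e : (0 : ℤ) + -(i : ℤ) = -(i : ℤ) := by ring
      rw [e]
      have e2 : (if -(i : ℤ) = 0 then cen F 0 else 0) = 0 := by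
        split_ifs <;> simp [cen, binom3]
      rw [e2, zero_smul, add_zero, smul_comm, ← add_smul]
      congr 1
      push_cast [List.sum_cons]; ring
  | zero => simp
  | add y z _ _ hy hz => rw [smul_add, smul_add, hy, hz]
  | smul a y _ hy => rw [smul_comm, hy, smul_comm]

end degrees

lemma vacHW : HW c h (vac F c h) := ⟨fun _ hn => vac_pos hn, vac_zero, C_smul⟩

lemma eps_degree {k : ℕ} (hk : 0 < k) {x : Verma F c h} (hx : x ∈ degreePart F (vac F c h) k) :
    eps c h x = 0 := by
  unfold degreePart at hx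
  induction hx using Submodule.span_induction with
  | mem y hy =>
    obtain ⟨l, hl, rfl, rfl⟩ := hy
    cases l with
    | nil => simp at hk
    | cons i l =>
      rw [mono_cons, mul_smul]
      have : 0 < i := hl i (by simp)
      exact eps_neg (by omega) _
  | zero => simp
  | add y z _ _ hy hz => rw [map_add, hy, hz, add_zero]
  | smul a y _ hy => rw [map_smul, hy, smul_zero]

/-- The radical of the functional. -/
noncomputable def Rad (c h : F) : Submodule (UVir F) (Verma F c h) where
  carrier := {x | ∀ u : UVir F, eps c h (u • x) = 0}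
  add_mem' := by
    intro x y hx hy u
    rw [smul_add, map_add, hx, hy, add_zero]
  zero_mem' := by intro u; simp
  smul_mem' := by
    intro a x hx u
    rw [← mul_smul]; exact hx _

lemma mem_Rad {x : Verma F c h} : x ∈ Rad c h ↔ ∀ u : UVir F, eps c h (u • x) = 0 := Iff.rfl

lemma eps_of_Rad {x : Verma F c h} (hx : x ∈ Rad c h) : eps c h x = 0 := by
  have := hx 1
  rwa [one_smul] at this

lemma degree_zero {x : Verma F c h} (hx : x ∈ degreePart F (vac F c h) 0) :
    ∃ a : F, x = a • vac F c h := by
  unfold degreePart at hx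
  induction hx using Submodule.span_induction with
  | mem y hy =>
    obtain ⟨l, hl, hl0, rfl⟩ := hy
    cases l with
    | nil => exact ⟨1, by rw [mono_nil]; simp⟩
    | cons i l =>
      have : 0 < i := hl i (by simp)
      simp at hl0
      omega
  | zero => exact ⟨0, by simp⟩
  | add y z _ _ hy hz =>
    obtain ⟨a, rfl⟩ := hy
    obtain ⟨b, rfl⟩ := hz
    exact ⟨a + b, by rw [add_smul]⟩
  | smul a y _ hy =>
    obtain ⟨b, rfl⟩ := hy
    exact ⟨a * b, by rw [mul_smul]⟩

lemma eq_top_of_vac {N : Submodule (UVir F) (Verma F c h)} (h1 : vac F c h ∈ N) : N = ⊤ := by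
  rw [eq_top_iff]
  intro x _
  obtain ⟨u, rfl⟩ := exists_smul_vac x
  exact N.smul_mem u h1

lemma le_Rad {N : Submodule (UVir F) (Verma F c h)} (hg : IsGraded F c h N) (hN : N ≠ ⊤) :
    N ≤ Rad c h := by
  have key : ∀ x ∈ N, eps c h x = 0 := by
    intro x hx
    have h1 := isGraded_iff.mp hg x hx
    induction h1 using Submodule.iSup_induction' with
    | mem k y hy =>
      rcases Nat.eq_zero_or_pos k with rfl | hk
      · obtain ⟨a, rfl⟩ := degree_zero hy.2
        by_cases ha : a = 0
        · simp [ha]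
        · exfalso
          apply hN
          apply eq_top_of_vac
          have h2 := (N.restrictScalars F).smul_mem a⁻¹ hy.1
          rw [smul_smul, inv_mul_cancel₀ ha, one_smul] at h2
          exact h2
      · exact eps_degree hk hy.2
    | zero => simp
    | add y z hy hz ihy ihz =>
      have memN : ∀ w, w ∈ ⨆ k : ℕ, (N.restrictScalars F ⊓ degreePart F (vac F c h) k) → w ∈ N := by
        intro w hw
        have : (⨆ k : ℕ, (N.restrictScalars F ⊓ degreePart F (vac F c h) k)) ≤
          N.restrictScalars F := iSup_le fun k => inf_le_left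
        exact this hw
      rw [map_add, ihy (memN y hy), ihz (memN z hz), add_zero]
  intro x hx u
  exact key _ (N.smul_mem u hx)

lemma max_le_Rad : maxGraded F c h ≤ Rad c h := by
  refine sSup_le ?_
  rintro N ⟨h1, h2⟩
  exact le_Rad h1 h2

lemma vac_not_mem : vac F c h ∉ maxGraded F c h := by
  intro h1
  have := eps_of_Rad (max_le_Rad h1)
  rw [eps_vac] at this
  exact one_ne_zero this

lemma maxGraded_ne_top : maxGraded F c h ≠ ⊤ := by
  intro h1
  apply vac_not_mem (F := F) (c := c) (h := h)
  rw [h1]; trivial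

lemma maxGraded_isGraded : IsGraded F c h (maxGraded F c h) := by
  rw [isGraded_iff]
  intro x hx
  have hx' : x ∈ sSup {N | IsGraded F c h N ∧ N ≠ ⊤} := hx
  rw [sSup_eq_iSup'] at hx'
  induction hx' using Submodule.iSup_induction' with
  | mem N y hy =>
    have h1 := isGraded_iff.mp N.2.1 y hy
    have h2 : (⨆ k : ℕ, ((N : Submodule (UVir F) (Verma F c h)).restrictScalars F ⊓
        degreePart F (vac F c h) k)) ≤
        ⨆ k : ℕ, ((maxGraded F c h).restrictScalars F ⊓ degreePart F (vac F c h) k) := by
      refine iSup_mono fun k => inf_le_inf_right _ ?_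
      intro z hz
      exact (le_sSup (a := (N : Submodule (UVir F) (Verma F c h))) N.2) hz
    exact h2 h1
  | zero => exact zero_mem _
  | add y z hy hz ihy ihz =>
    have memN : ∀ w, w ∈ (⨆ N : {N | IsGraded F c h N ∧ N ≠ ⊤},
        (N : Submodule (UVir F) (Verma F c h))) → w ∈ maxGraded F c h := by
      intro w hw
      rw [← sSup_eq_iSup'] at hw
      exact hw
    exact add_mem (ihy (memN y hy)) (ihz (memN z hz))

/-- A homogeneous element of the radical lies in the maximal graded submodule. -/
lemma mem_max_of_Rad {k : ℕ} {x : Verma F c h} (hx : x ∈ degreePart F (vac F c h) k)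
    (hr : x ∈ Rad c h) : x ∈ maxGraded F c h := by
  have hspan : x ∈ Submodule.span (UVir F) {x} := Submodule.mem_span_singleton_self x
  refine (le_sSup (a := Submodule.span (UVir F) {x}) ?_) hspan
  constructor
  · rw [isGraded_iff]
    intro y hy
    obtain ⟨u, rfl⟩ := Submodule.mem_span_singleton.mp hy
    refine stable_of (⨆ k : ℕ, ((Submodule.span (UVir F) {x}).restrictScalars F ⊓
      degreePart F (vac F c h) k)) ?_ ?_ u x ?_
    · intro n z hz
      induction hz using Submodule.iSup_induction' with
      | mem j y hy =>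
        have h1 : uL F n • y ∈ dP (F := F) (vac F c h) ((j : ℤ) - n) :=
          vacHW.act_dP (by rw [dP_nat]; exact hy.2) n
        rcases lt_or_ge ((j : ℤ) - n) 0 with hlt | hge
        · unfold dP at h1
          rw [if_pos hlt, Submodule.mem_bot] at h1
          rw [h1]; exact zero_mem _
        · obtain ⟨i, hi⟩ := Int.eq_ofNat_of_zero_le hge
          rw [hi, dP_nat] at h1
          exact Submodule.mem_iSup_of_mem i ⟨(Submodule.span (UVir F) {x}).smul_mem _ hy.1, h1⟩
      | zero => rw [smul_zero]; exact zero_mem _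
      | add y z _ _ ihy ihz => rw [smul_add]; exact add_mem ihy ihz
    · intro z hz
      rw [C_smul]
      exact Submodule.smul_mem _ _ hz
    · exact Submodule.mem_iSup_of_mem k ⟨hspan, hx⟩
  · intro htop
    have h1 : vac F c h ∈ Submodule.span (UVir F) {x} := by rw [htop]; trivial
    obtain ⟨u, hu⟩ := Submodule.mem_span_singleton.mp h1
    have h2 := hr u
    rw [hu, eps_vac] at h2
    exact one_ne_zero h2

/-- The criterion for singular vectors. -/
lemma crit {k : ℕ} (hk : 0 < k) {x : Verma F c h} (hx : x ∈ degreePart F (vac F c h) k)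
    (hs : ∀ n : ℤ, 0 < n → uL F n • x ∈ Rad c h) : x ∈ Rad c h := by
  set S : Submodule F (Verma F c h) :=
    Submodule.span F {y | ∃ l : List ℕ, (∀ i ∈ l, 0 < i) ∧ y = mono F l • x} with hS
  set Z : Submodule F (Verma F c h) := (Rad c h).restrictScalars F ⊔ S with hZ
  have hR : ∀ y ∈ Rad c h, y ∈ Z := fun y hy => Submodule.mem_sup_left hy
  have hSm : ∀ l : List ℕ, (∀ i ∈ l, 0 < i) → mono F l • x ∈ Z :=
    fun l hl => Submodule.mem_sup_right (Submodule.subset_span ⟨l, hl, rfl⟩)
  have hSc : ∀ (i : ℕ), 0 < i → ∀ z ∈ Z, uL F (-(i : ℤ)) • z ∈ Z := by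
    intro i hi z hz
    obtain ⟨y, hy, w, hw, rfl⟩ := Submodule.mem_sup.mp hz
    rw [smul_add]
    refine add_mem (hR _ ((Rad c h).smul_mem _ hy)) ?_
    rw [hS] at hw
    clear hz
    induction hw using Submodule.span_induction with
    | mem y hy =>
      obtain ⟨l, hl, rfl⟩ := hy
      rw [← mul_smul, ← mono_cons]
      exact hSm (i :: l) (by simpa using ⟨hi, hl⟩)
    | zero => rw [smul_zero]; exact zero_mem _
    | add y z _ _ ihy ihz => rw [smul_add]; exact add_mem ihy ihz
    | smul a y _ ihy => rw [smul_comm]; exact Submodule.smul_mem _ _ ihy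
  have hword : ∀ (l : List ℕ), (∀ i ∈ l, 0 < i) → ∀ n : ℤ, uL F n • mono F l • x ∈ Z := by
    intro l
    induction l with
    | nil =>
      intro _ n
      rw [mono_nil, one_smul]
      rcases lt_trichotomy n 0 with hn | rfl | hn
      · obtain ⟨i, rfl⟩ : ∃ i : ℕ, n = -(i : ℤ) := ⟨(-n).toNat, by omega⟩
        have := hSm [i] (by simp; omega)
        rw [mono_cons, mono_nil, mul_one] at this
        exact this
      · rw [vacHW.L0 hx]
        refine Submodule.smul_mem _ _ ?_
        have := hSm [] (by simp)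
        rwa [mono_nil, one_smul] at this
      · exact hR _ (hs n hn)
    | cons i l ih =>
      intro hl n
      have hi : 0 < i := hl i (by simp)
      have hl' : ∀ j ∈ l, 0 < j := fun j hj => hl j (by simp [hj])
      rw [mono_cons, mul_smul, uL_smul_comm]
      refine add_mem (add_mem (hSc i hi _ (ih hl' n)) (Submodule.smul_mem _ _ (ih hl' _))) ?_
      rw [C_smul]
      exact Submodule.smul_mem _ _ (Submodule.smul_mem _ _ (hSm l hl'))
  have hstab : ∀ n, ∀ z ∈ Z, uL F n • z ∈ Z := by
    intro n z hz
    obtain ⟨y, hy, w, hw, rfl⟩ := Submodule.mem_sup.mp hz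
    rw [smul_add]
    refine add_mem (hR _ ((Rad c h).smul_mem _ hy)) ?_
    rw [hS] at hw
    clear hz
    induction hw using Submodule.span_induction with
    | mem y hy =>
      obtain ⟨l, hl, rfl⟩ := hy
      exact hword l hl n
    | zero => rw [smul_zero]; exact zero_mem _
    | add y z _ _ ihy ihz => rw [smul_add]; exact add_mem ihy ihz
    | smul a y _ ihy => rw [smul_comm]; exact Submodule.smul_mem _ _ ihy
  have heps : ∀ z ∈ Z, eps c h z = 0 := by
    intro z hz
    obtain ⟨y, hy, w, hw, rfl⟩ := Submodule.mem_sup.mp hz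
    rw [map_add, eps_of_Rad hy, zero_add]
    rw [hS] at hw
    clear hz
    induction hw using Submodule.span_induction with
    | mem y hy =>
      obtain ⟨l, hl, rfl⟩ := hy
      cases l with
      | nil => rw [mono_nil, one_smul]; exact eps_degree hk hx
      | cons i l =>
        rw [mono_cons, mul_smul]
        have : 0 < i := hl i (by simp)
        exact eps_neg (by omega) _
    | zero => simp
    | add y z _ _ ihy ihz => rw [map_add, ihy, ihz, add_zero]
    | smul a y _ ihy => rw [map_smul, ihy, smul_zero]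
  intro u
  refine heps _ (stable_of Z hstab ?_ u x ?_)
  · intro z hz; rw [C_smul]; exact Submodule.smul_mem _ _ hz
  · have := hSm [] (by simp)
    rwa [mono_nil, one_smul] at this

/-! ### Computations with a vacuum vector -/

section compute

variable {M : Type*} [AddCommGroup M] [Module F M] [Module (UVir F) M] [IsScalarTower F (UVir F) M]

lemma comm_ne {m n s d : ℤ} (h0 : m + n ≠ 0) (hs : m + n = s) (hd : m - n = d) (x : M) :
    uL F m • uL F n • x = uL F n • uL F m • x + (d : F) • uL F s • x := by
  rw [uL_smul_comm, if_neg h0, zero_smul, add_zero, hs, hd]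

lemma k_p1_m2 (x : M) : uL F 1 • uL F (-2) • x = uL F (-2) • uL F 1 • x + (3 : F) • uL F (-1) • x := by
  have := comm_ne (F := F) (m := 1) (n := -2) (s := -1) (d := 3) (by norm_num) (by norm_num) (by norm_num) x
  rw [this]; norm_num

lemma k_p1_m3 (x : M) : uL F 1 • uL F (-3) • x = uL F (-3) • uL F 1 • x + (4 : F) • uL F (-2) • x := by
  have := comm_ne (F := F) (m := 1) (n := -3) (s := -2) (d := 4) (by norm_num) (by norm_num) (by norm_num) x
  rw [this]; norm_num

lemma k_p1_m4 (x : M) : uL F 1 • uL F (-4) • x = uL F (-4) • uL F 1 • x + (5 : F) • uL F (-3) • x := by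
  have := comm_ne (F := F) (m := 1) (n := -4) (s := -3) (d := 5) (by norm_num) (by norm_num) (by norm_num) x
  rw [this]; norm_num

lemma k_p1_m5 (x : M) : uL F 1 • uL F (-5) • x = uL F (-5) • uL F 1 • x + (6 : F) • uL F (-4) • x := by
  have := comm_ne (F := F) (m := 1) (n := -5) (s := -4) (d := 6) (by norm_num) (by norm_num) (by norm_num) x
  rw [this]; norm_num

lemma k_p1_m6 (x : M) : uL F 1 • uL F (-6) • x = uL F (-6) • uL F 1 • x + (7 : F) • uL F (-5) • x := by
  have := comm_ne (F := F) (m := 1) (n := -6) (s := -5) (d := 7) (by norm_num) (by norm_num) (by norm_num) x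
  rw [this]; norm_num

lemma k_p1_m7 (x : M) : uL F 1 • uL F (-7) • x = uL F (-7) • uL F 1 • x + (8 : F) • uL F (-6) • x := by
  have := comm_ne (F := F) (m := 1) (n := -7) (s := -6) (d := 8) (by norm_num) (by norm_num) (by norm_num) x
  rw [this]; norm_num

lemma k_p1_m8 (x : M) : uL F 1 • uL F (-8) • x = uL F (-8) • uL F 1 • x + (9 : F) • uL F (-7) • x := by
  have := comm_ne (F := F) (m := 1) (n := -8) (s := -7) (d := 9) (by norm_num) (by norm_num) (by norm_num) x
  rw [this]; norm_num

lemma k_p2_m3 (x : M) : uL F 2 • uL F (-3) • x = uL F (-3) • uL F 2 • x + (5 : F) • uL F (-1) • x := by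
  have := comm_ne (F := F) (m := 2) (n := -3) (s := -1) (d := 5) (by norm_num) (by norm_num) (by norm_num) x
  rw [this]; norm_num

lemma k_p2_m4 (x : M) : uL F 2 • uL F (-4) • x = uL F (-4) • uL F 2 • x + (6 : F) • uL F (-2) • x := by
  have := comm_ne (F := F) (m := 2) (n := -4) (s := -2) (d := 6) (by norm_num) (by norm_num) (by norm_num) x
  rw [this]; norm_num

lemma k_p2_m5 (x : M) : uL F 2 • uL F (-5) • x = uL F (-5) • uL F 2 • x + (7 : F) • uL F (-3) • x := by
  have := comm_ne (F := F) (m := 2) (n := -5) (s := -3) (d := 7) (by norm_num) (by norm_num) (by norm_num) x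
  rw [this]; norm_num

lemma k_p2_m6 (x : M) : uL F 2 • uL F (-6) • x = uL F (-6) • uL F 2 • x + (8 : F) • uL F (-4) • x := by
  have := comm_ne (F := F) (m := 2) (n := -6) (s := -4) (d := 8) (by norm_num) (by norm_num) (by norm_num) x
  rw [this]; norm_num

lemma k_p2_m7 (x : M) : uL F 2 • uL F (-7) • x = uL F (-7) • uL F 2 • x + (9 : F) • uL F (-5) • x := by
  have := comm_ne (F := F) (m := 2) (n := -7) (s := -5) (d := 9) (by norm_num) (by norm_num) (by norm_num) x
  rw [this]; norm_num

lemma k_p2_m8 (x : M) : uL F 2 • uL F (-8) • x = uL F (-8) • uL F 2 • x + (10 : F) • uL F (-6) • x := by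
  have := comm_ne (F := F) (m := 2) (n := -8) (s := -6) (d := 10) (by norm_num) (by norm_num) (by norm_num) x
  rw [this]; norm_num

lemma k_m1_m2 (x : M) : uL F (-1) • uL F (-2) • x = uL F (-2) • uL F (-1) • x + (1 : F) • uL F (-3) • x := by
  have := comm_ne (F := F) (m := -1) (n := -2) (s := -3) (d := 1) (by norm_num) (by norm_num) (by norm_num) x
  rw [this]; norm_num

lemma k_m1_m3 (x : M) : uL F (-1) • uL F (-3) • x = uL F (-3) • uL F (-1) • x + (2 : F) • uL F (-4) • x := by
  have := comm_ne (F := F) (m := -1) (n := -3) (s := -4) (d := 2) (by norm_num) (by norm_num) (by norm_num) x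
  rw [this]; norm_num

lemma k_m1_m4 (x : M) : uL F (-1) • uL F (-4) • x = uL F (-4) • uL F (-1) • x + (3 : F) • uL F (-5) • x := by
  have := comm_ne (F := F) (m := -1) (n := -4) (s := -5) (d := 3) (by norm_num) (by norm_num) (by norm_num) x
  rw [this]; norm_num

lemma k_m2_m3 (x : M) : uL F (-2) • uL F (-3) • x = uL F (-3) • uL F (-2) • x + (1 : F) • uL F (-5) • x := by
  have := comm_ne (F := F) (m := -2) (n := -3) (s := -5) (d := 1) (by norm_num) (by norm_num) (by norm_num) x
  rw [this]; norm_num

lemma k_m2_m4 (x : M) : uL F (-2) • uL F (-4) • x = uL F (-4) • uL F (-2) • x + (2 : F) • uL F (-6) • x := by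
  have := comm_ne (F := F) (m := -2) (n := -4) (s := -6) (d := 2) (by norm_num) (by norm_num) (by norm_num) x
  rw [this]; norm_num

lemma k_m2_m5 (x : M) : uL F (-2) • uL F (-5) • x = uL F (-5) • uL F (-2) • x + (3 : F) • uL F (-7) • x := by
  have := comm_ne (F := F) (m := -2) (n := -5) (s := -7) (d := 3) (by norm_num) (by norm_num) (by norm_num) x
  rw [this]; norm_num

lemma k_m2_m6 (x : M) : uL F (-2) • uL F (-6) • x = uL F (-6) • uL F (-2) • x + (4 : F) • uL F (-8) • x := by
  have := comm_ne (F := F) (m := -2) (n := -6) (s := -8) (d := 4) (by norm_num) (by norm_num) (by norm_num) x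
  rw [this]; norm_num

lemma k_m3_m4 (x : M) : uL F (-3) • uL F (-4) • x = uL F (-4) • uL F (-3) • x + (1 : F) • uL F (-7) • x := by
  have := comm_ne (F := F) (m := -3) (n := -4) (s := -7) (d := 1) (by norm_num) (by norm_num) (by norm_num) x
  rw [this]; norm_num

lemma k_m3_m5 (x : M) : uL F (-3) • uL F (-5) • x = uL F (-5) • uL F (-3) • x + (2 : F) • uL F (-8) • x := by
  have := comm_ne (F := F) (m := -3) (n := -5) (s := -8) (d := 2) (by norm_num) (by norm_num) (by norm_num) x
  rw [this]; norm_num

lemma k_p0_m2 (x : M) : uL F 0 • uL F (-2) • x = uL F (-2) • uL F 0 • x + (2 : F) • uL F (-2) • x := by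
  have := comm_ne (F := F) (m := 0) (n := -2) (s := -2) (d := 2) (by norm_num) (by norm_num) (by norm_num) x
  rw [this]; norm_num

lemma k_p0_m3 (x : M) : uL F 0 • uL F (-3) • x = uL F (-3) • uL F 0 • x + (3 : F) • uL F (-3) • x := by
  have := comm_ne (F := F) (m := 0) (n := -3) (s := -3) (d := 3) (by norm_num) (by norm_num) (by norm_num) x
  rw [this]; norm_num

lemma k_p0_m4 (x : M) : uL F 0 • uL F (-4) • x = uL F (-4) • uL F 0 • x + (4 : F) • uL F (-4) • x := by
  have := comm_ne (F := F) (m := 0) (n := -4) (s := -4) (d := 4) (by norm_num) (by norm_num) (by norm_num) x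
  rw [this]; norm_num

lemma k_p0_m5 (x : M) : uL F 0 • uL F (-5) • x = uL F (-5) • uL F 0 • x + (5 : F) • uL F (-5) • x := by
  have := comm_ne (F := F) (m := 0) (n := -5) (s := -5) (d := 5) (by norm_num) (by norm_num) (by norm_num) x
  rw [this]; norm_num

lemma k_p0_m6 (x : M) : uL F 0 • uL F (-6) • x = uL F (-6) • uL F 0 • x + (6 : F) • uL F (-6) • x := by
  have := comm_ne (F := F) (m := 0) (n := -6) (s := -6) (d := 6) (by norm_num) (by norm_num) (by norm_num) x
  rw [this]; norm_num

lemma k_p0_m7 (x : M) : uL F 0 • uL F (-7) • x = uL F (-7) • uL F 0 • x + (7 : F) • uL F (-7) • x := by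
  have := comm_ne (F := F) (m := 0) (n := -7) (s := -7) (d := 7) (by norm_num) (by norm_num) (by norm_num) x
  rw [this]; norm_num

lemma k_p0_m8 (x : M) : uL F 0 • uL F (-8) • x = uL F (-8) • uL F 0 • x + (8 : F) • uL F (-8) • x := by
  have := comm_ne (F := F) (m := 0) (n := -8) (s := -8) (d := 8) (by norm_num) (by norm_num) (by norm_num) x
  rw [this]; norm_num


lemma k_p2_m2 {y : M} (H : HW c h y) (x : M) : uL F 2 • uL F (-2) • x =
    uL F (-2) • uL F 2 • x + (4 : F) • uL F 0 • x + (2⁻¹ * c) • x := by
  rw [uL_smul_comm, if_pos (by norm_num), H.central]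
  have : cen F 2 = 2⁻¹ := by simp [cen, binom3]
  rw [this, mul_smul]
  norm_num

lemma usc (n : ℤ) (a : F) (x : M) : uL F n • a • x = a • uL F n • x := smul_comm _ _ _

lemma L1_deg8 {y : M} (H : HW c 0 y) (H1 : uL F (-1) • y = 0)
    (a8 a62 a53 a44 a422 a332 a2222 : F) :
    uL F 1 • (a8 • uL F (-8) • y + a62 • uL F (-6) • uL F (-2) • y +
      a53 • uL F (-5) • uL F (-3) • y + a44 • uL F (-4) • uL F (-4) • y +
      a422 • uL F (-4) • uL F (-2) • uL F (-2) • y + a332 • uL F (-3) • uL F (-3) • uL F (-2) • y +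
      a2222 • uL F (-2) • uL F (-2) • uL F (-2) • uL F (-2) • y) =
    (9 * a8 + 5 * a44 + 27 * a2222) • uL F (-7) • y +
    (7 * a62 + 4 * a53 + 4 * a332 + 24 * a2222) • uL F (-5) • uL F (-2) • y +
    (6 * a53 + 10 * a44 + 3 * a422) • uL F (-4) • uL F (-3) • y +
    (5 * a422 + 8 * a332 + 18 * a2222) • uL F (-3) • uL F (-2) • uL F (-2) • y := by
  have h1 := H.pos 1 (by norm_num)
  have h0 : uL F 0 • y = 0 := by rw [H.zero, zero_smul]
  simp only [k_p1_m2, k_p1_m3, k_p1_m4, k_p1_m5, k_p1_m6, k_p1_m7, k_p1_m8, k_m1_m2, k_m1_m3,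
    k_m1_m4, k_m2_m3, k_m2_m4, k_m2_m5, k_m2_m6, k_m3_m4, k_m3_m5, usc, smul_add, smul_zero, H1,
    h1, add_zero, zero_add]
  generalize uL F (-7) • y = z1
  generalize uL F (-5) • uL F (-2) • y = z2
  generalize uL F (-4) • uL F (-3) • y = z3
  generalize uL F (-3) • uL F (-2) • uL F (-2) • y = z4
  module

lemma L2_deg8 {y : M} (H : HW c 0 y) (H1 : uL F (-1) • y = 0)
    (a8 a62 a53 a44 a422 a332 a2222 : F) :
    uL F 2 • (a8 • uL F (-8) • y + a62 • uL F (-6) • uL F (-2) • y +
      a53 • uL F (-5) • uL F (-3) • y + a44 • uL F (-4) • uL F (-4) • y +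
      a422 • uL F (-4) • uL F (-2) • uL F (-2) • y + a332 • uL F (-3) • uL F (-3) • uL F (-2) • y +
      a2222 • uL F (-2) • uL F (-2) • uL F (-2) • uL F (-2) • y) =
    (10 * a8 + (2⁻¹ * c) * a62 + 12 * a44) • uL F (-6) • y +
    (8 * a62 + 12 * a44 + (8 + 2⁻¹ * c) * a422 + 2⁻¹ * c * a422 + 10 * a332) •
      uL F (-4) • uL F (-2) • y +
    (7 * a53 + (2⁻¹ * c + 10) * a332) • uL F (-3) • uL F (-3) • y +
    (6 * a422 + (48 + 4 * (2⁻¹ * c)) * a2222) • uL F (-2) • uL F (-2) • uL F (-2) • y := by
  have h1 := H.pos 1 (by norm_num)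
  have h2 := H.pos 2 (by norm_num)
  have h0 : uL F 0 • y = 0 := by rw [H.zero, zero_smul]
  have h22 := k_p2_m2 H
  simp only [k_p2_m3, k_p2_m4, k_p2_m5, k_p2_m6, k_p2_m7, k_p2_m8, k_p1_m2, k_p1_m3, k_m1_m2,
    k_m1_m3, k_m1_m4, k_m2_m3, k_m2_m4, k_m2_m5, k_m2_m6, k_m3_m4, k_m3_m5, k_p0_m2, k_p0_m3,
    k_p0_m4, h22, usc, smul_add, smul_zero, H1, h1, h2, h0, add_zero, zero_add]
  generalize uL F (-6) • y = z1
  generalize uL F (-4) • uL F (-2) • y = z2
  generalize uL F (-3) • uL F (-3) • y = z3
  generalize uL F (-2) • uL F (-2) • uL F (-2) • y = z4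
  module
end compute

/-! ### The simple module -/

lemma svac_ne : svac F c h ≠ 0 := by
  intro h0
  rw [svac, simpleMk_eq_zero] at h0
  exact vac_not_mem h0

lemma svacHW : HW c h (svac F c h) where
  pos := by
    intro n hn
    rw [svac, ← map_smul, vac_pos hn, map_zero]
  zero := by
    rw [svac, ← map_smul, vac_zero]
    rfl
  central := by
    intro x
    obtain ⟨x, rfl⟩ := simpleMk_surj x
    rw [← map_smul, C_smul]
    rfl

lemma svac_neg_one : uL F (-1) • svac F c 0 = 0 := by
  rw [svac, ← map_smul, simpleMk_eq_zero]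
  have hd : uL F (-1) • vac F c 0 ∈ degreePart F (vac F c 0) 1 := by
    have := mono_mem (F := F) (v := vac F c 0) (l := [1]) (by simp)
    simpa [mono_cons, mono_nil] using this
  refine mem_max_of_Rad hd (crit one_pos hd ?_)
  intro n hn
  have h0 : uL F n • uL F (-1) • vac F c 0 = 0 := by
    rw [uL_smul_comm, vac_pos hn, smul_zero, zero_add]
    rcases eq_or_lt_of_le (show 1 ≤ n by omega) with rfl | hn1
    · have : (1 : ℤ) + -1 = 0 := by norm_num
      rw [this, vac_zero]
      simp [cen, binom3]
    · rw [if_neg (by omega), zero_smul, add_zero, vac_pos (by omega), smul_zero]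
  rw [h0]
  exact zero_mem _

/-! ### Simplicity of `L_{c,h}` -/

/-- Elements of the enveloping algebra lowering the degree by `d`. -/
noncomputable def lowers (c h : F) (d : ℤ) : Submodule F (UVir F) where
  carrier := {u | ∀ (j : ℤ), ∀ x ∈ dP (F := F) (vac F c h) j, u • x ∈ dP (F := F) (vac F c h) (j - d)}
  add_mem' := by
    intro u v hu hv j x hx
    rw [add_smul]; exact add_mem (hu j x hx) (hv j x hx)
  zero_mem' := by intro j x _; rw [zero_smul]; exact zero_mem _
  smul_mem' := by
    intro a u hu j x hx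
    rw [smul_assoc]; exact Submodule.smul_mem _ _ (hu j x hx)

lemma mul_lowers {d e : ℤ} {u v : UVir F} (hu : u ∈ lowers c h d) (hv : v ∈ lowers c h e) :
    u * v ∈ lowers c h (d + e) := by
  intro j x hx
  rw [mul_smul]
  have := hu _ _ (hv j x hx)
  have e1 : j - (d + e) = j - e - d := by ring
  rw [e1]; exact this

lemma mem_iSup_lowers (u : UVir F) : u ∈ ⨆ d : ℤ, lowers c h d := by
  refine U_ind (P := fun u => u ∈ ⨆ d : ℤ, lowers c h d) ?_ ?_ ?_ ?_ ?_ u
  · intro a
    refine Submodule.mem_iSup_of_mem 0 ?_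
    intro j x hx
    rw [algebraMap_smul' (M := Verma F c h), sub_zero]
    exact Submodule.smul_mem _ _ hx
  · intro n
    exact Submodule.mem_iSup_of_mem n (fun j x hx => vacHW.act_dP hx n)
  · refine Submodule.mem_iSup_of_mem 0 ?_
    intro j x hx
    rw [C_smul, sub_zero]
    exact Submodule.smul_mem _ _ hx
  · intro x y hx hy; exact add_mem hx hy
  · intro x y hx hy
    induction hx using Submodule.iSup_induction' with
    | mem d x hx =>
      induction hy using Submodule.iSup_induction' with
      | mem e y hy => exact Submodule.mem_iSup_of_mem (d + e) (mul_lowers hx hy)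
      | zero => rw [mul_zero]; exact zero_mem _
      | add y z _ _ ihy ihz => rw [mul_add]; exact add_mem ihy ihz
    | zero => rw [zero_mul]; exact zero_mem _
    | add x z _ _ ihx ihz => rw [add_mul]; exact add_mem ihx ihz

lemma eps_dP {j : ℤ} (hj : j ≠ 0) {x : Verma F c h} (hx : x ∈ dP (F := F) (vac F c h) j) :
    eps c h x = 0 := by
  rcases lt_or_gt_of_ne hj with hlt | hgt
  · unfold dP at hx
    rw [if_pos hlt, Submodule.mem_bot] at hx
    rw [hx, map_zero]
  · obtain ⟨i, rfl⟩ := Int.eq_ofNat_of_zero_le hgt.le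
    rw [dP_nat] at hx
    exact eps_degree (by omega) hx

/-- A homogeneous vector outside the radical can be lowered to the highest weight vector. -/
lemma exists_lower {k : ℕ} {x : Verma F c h} (hx : x ∈ degreePart F (vac F c h) k)
    (hr : x ∉ Rad c h) : ∃ u ∈ lowers c h (k : ℤ), eps c h (u • x) ≠ 0 := by
  by_contra hcon
  push Not at hcon
  apply hr
  intro u
  have hu := mem_iSup_lowers (c := c) (h := h) u
  induction hu using Submodule.iSup_induction' with
  | mem d u hu =>
    by_cases hd : d = k
    · subst hd; exact hcon u hu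
    · have h1 := hu k x (by rw [dP_nat]; exact hx)
      exact eps_dP (by omega) h1
  | zero => rw [zero_smul, map_zero]
  | add u v _ _ ihu ihv => rw [add_smul, map_add, ihu, ihv, add_zero]

lemma vac_mem_of {N : Submodule (UVir F) (Verma F c h)} (hN : maxGraded F c h ≤ N) :
    ∀ (K : ℕ) (x : Verma F c h), x ∈ N → x ∈ (⨆ k : Fin K, degreePart F (vac F c h) (k : ℕ)) →
      x ∉ maxGraded F c h → vac F c h ∈ N := by
  intro K
  induction K with
  | zero =>
    intro x _ hx hxn
    exfalso
    apply hxn
    rw [iSup_of_empty, Submodule.mem_bot] at hx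
    rw [hx]; exact zero_mem _
  | succ K ih =>
    intro x hxN hx hxn
    have hsplit : (⨆ k : Fin (K + 1), degreePart F (vac F c h) (k : ℕ)) ≤
        (⨆ k : Fin K, degreePart F (vac F c h) (k : ℕ)) ⊔ degreePart F (vac F c h) K := by
      refine iSup_le fun k => ?_
      rcases Nat.lt_succ_iff_lt_or_eq.mp k.2 with hk | hk
      · exact le_trans (le_iSup (fun k : Fin K => degreePart F (vac F c h) (k : ℕ)) ⟨k, hk⟩)
          le_sup_left
      · rw [hk]; exact le_sup_right
    obtain ⟨x', hx', xK, hxK, rfl⟩ := Submodule.mem_sup.mp (hsplit hx)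
    by_cases hm : xK ∈ maxGraded F c h
    · refine ih x' ?_ hx' ?_
      · have := N.sub_mem hxN (hN hm)
        rwa [add_sub_cancel_right] at this
      · intro h1; exact hxn (add_mem h1 hm)
    · have hr : xK ∉ Rad c h := fun h1 => hm (mem_max_of_Rad hxK h1)
      obtain ⟨u, hu, hne⟩ := exists_lower hxK hr
      have h1 : u • x' = 0 := by
        clear hxN hx hxn
        induction hx' using Submodule.iSup_induction' with
        | mem k y hy =>
          have h2 := hu k y (by rw [dP_nat]; exact hy)
          unfold dP at h2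
          rw [if_pos (by have := k.2; omega), Submodule.mem_bot] at h2
          exact h2
        | zero => rw [smul_zero]
        | add y z _ _ ihy ihz => rw [smul_add, ihy, ihz, add_zero]
      have h2 : u • xK ∈ degreePart F (vac F c h) 0 := by
        have h3 := hu K xK (by rw [dP_nat]; exact hxK)
        rw [sub_self] at h3
        exact (dP_nat (F := F) (v := vac F c h) 0) ▸ h3
      obtain ⟨a, ha⟩ := degree_zero h2
      have h3 : a ≠ 0 := by
        rintro rfl
        rw [ha, zero_smul, map_zero] at hne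
        exact hne rfl
      have h4 : u • (x' + xK) ∈ N := N.smul_mem u hxN
      rw [smul_add, h1, zero_add, ha] at h4
      have h5 := (N.restrictScalars F).smul_mem a⁻¹ h4
      rw [smul_smul, inv_mul_cancel₀ h3, one_smul] at h5
      exact h5

/-- The module `L_{c,h}` is a simple module over the enveloping algebra. -/
theorem simple_isSimple (c h : F) : IsSimpleModule (UVir F) (Simple F c h) := by
  change IsSimpleModule (UVir F) (Verma F c h ⧸ maxGraded F c h)
  rw [isSimpleModule_iff_isCoatom]
  constructor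
  · intro htop
    apply vac_not_mem (F := F) (c := c) (h := h)
    rw [htop]; trivial
  · intro N hN
    obtain ⟨hle, x, hxN, hx⟩ := SetLike.lt_iff_le_and_exists.mp hN
    apply eq_top_of_vac
    have hall : x ∈ ⨆ k : ℕ, degreePart F (vac F c h) k := by
      obtain ⟨u, rfl⟩ := exists_smul_vac x
      refine stable_of (⨆ k : ℕ, degreePart F (vac F c h) k) ?_ ?_ u _ ?_
      · intro n z hz
        induction hz using Submodule.iSup_induction' with
        | mem j y hy =>
          have h1 : uL F n • y ∈ dP (F := F) (vac F c h) ((j : ℤ) - n) :=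
            vacHW.act_dP (by rw [dP_nat]; exact hy) n
          rcases lt_or_ge ((j : ℤ) - n) 0 with hlt | hge
          · unfold dP at h1
            rw [if_pos hlt, Submodule.mem_bot] at h1
            rw [h1]; exact zero_mem _
          · obtain ⟨i, hi⟩ := Int.eq_ofNat_of_zero_le hge
            rw [hi, dP_nat] at h1
            exact Submodule.mem_iSup_of_mem i h1
        | zero => rw [smul_zero]; exact zero_mem _
        | add y z _ _ ihy ihz => rw [smul_add]; exact add_mem ihy ihz
      · intro z hz
        rw [C_smul]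
        exact Submodule.smul_mem _ _ hz
      · refine Submodule.mem_iSup_of_mem 0 (Submodule.subset_span ⟨[], by simp, rfl, ?_⟩)
        rw [mono_nil, one_smul]
    have hfin : ∃ K : ℕ, x ∈ ⨆ k : Fin K, degreePart F (vac F c h) (k : ℕ) := by
      have mono' : ∀ {K K' : ℕ}, K ≤ K' → (⨆ k : Fin K, degreePart F (vac F c h) (k : ℕ)) ≤
          ⨆ k : Fin K', degreePart F (vac F c h) (k : ℕ) := by
        intro K K' hK
        refine iSup_le fun k => ?_
        exact le_iSup (fun k : Fin K' => degreePart F (vac F c h) (k : ℕ))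
          ⟨k, lt_of_lt_of_le k.2 hK⟩
      clear hxN hx
      induction hall using Submodule.iSup_induction' with
      | mem k y hy =>
        exact ⟨k + 1, Submodule.mem_iSup_of_mem (⟨k, by omega⟩ : Fin (k + 1)) hy⟩
      | zero => exact ⟨0, zero_mem _⟩
      | add y z _ _ ihy ihz =>
        obtain ⟨K1, h1⟩ := ihy
        obtain ⟨K2, h2⟩ := ihz
        exact ⟨max K1 K2, add_mem (mono' (le_max_left _ _) h1) (mono' (le_max_right _ _) h2)⟩
    obtain ⟨K, hK⟩ := hfin
    exact vac_mem_of hle K x hxN hK hx

section char37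

variable {M : Type*} [AddCommGroup M] [Module F M] [Module (UVir F) M] [IsScalarTower F (UVir F) M]

/-- The singular vector in characteristic `37`. -/
noncomputable def sing (y : M) : M :=
  (-8 : F) • uL F (-8) • y + (-6 : F) • uL F (-6) • uL F (-2) • y +
      (7 : F) • uL F (-5) • uL F (-3) • y + (9 : F) • uL F (-4) • uL F (-4) • y +
      (-7 : F) • uL F (-4) • uL F (-2) • uL F (-2) • y +
      (16 : F) • uL F (-3) • uL F (-3) • uL F (-2) • y +
      (1 : F) • uL F (-2) • uL F (-2) • uL F (-2) • uL F (-2) • y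

lemma sing_L1 {y : M} (H : HW c 0 y) (H1 : uL F (-1) • y = 0) (h37 : (37 : F) = 0) :
    uL F 1 • sing (F := F) y = 0 := by
  rw [sing, L1_deg8 H H1]
  have e1 : (9 * (-8) + 5 * 9 + 27 * 1 : F) = 0 := by norm_num
  have e2 : (7 * (-6) + 4 * 7 + 4 * 16 + 24 * 1 : F) = 0 := by linear_combination 2 * h37
  have e3 : (6 * 7 + 10 * 9 + 3 * (-7) : F) = 0 := by linear_combination 3 * h37
  have e4 : (5 * (-7) + 8 * 16 + 18 * 1 : F) = 0 := by linear_combination 3 * h37
  rw [e1, e2, e3, e4]
  simp

lemma sing_L2 {y : M} (H : HW c 0 y) (H1 : uL F (-1) • y = 0) (h37 : (37 : F) = 0)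
    (hc : 2⁻¹ * c = 17) : uL F 2 • sing (F := F) y = 0 := by
  rw [sing, L2_deg8 H H1, hc]
  have e1 : (10 * (-8) + 17 * (-6) + 12 * 9 : F) = 0 := by linear_combination (-2) * h37
  have e2 : (8 * (-6) + 12 * 9 + (8 + 17) * (-7) + 17 * (-7) + 10 * 16 : F) = 0 := by
    linear_combination (-2) * h37
  have e3 : (7 * 7 + (17 + 10) * 16 : F) = 0 := by linear_combination 13 * h37
  have e4 : (6 * (-7) + (48 + 4 * 17) * 1 : F) = 0 := by linear_combination 2 * h37
  rw [e1, e2, e3, e4]
  simp

lemma lower_all {x : M} (h37 : (37 : F) = 0) (h1 : uL F 1 • x = 0) (h2 : uL F 2 • x = 0) :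
    ∀ n : ℤ, 0 < n → n ≤ 8 → uL F n • x = 0 := by
  have step : ∀ n : ℤ, 2 ≤ n → ((n - 1 : ℤ) : F) ≠ 0 → uL F n • x = 0 → uL F (n + 1) • x = 0 := by
    intro n hn hne hx
    have h3 := uL_smul_comm (F := F) n 1 x
    rw [h1, hx, smul_zero, smul_zero, zero_add, if_neg (by omega), zero_smul, add_zero] at h3
    exact (smul_eq_zero.mp h3.symm).resolve_left hne
  have n2 : (2 : F) ≠ 0 := by
    intro h0
    exact one_ne_zero (α := F) (by linear_combination h37 - 18 * h0)
  have n3 : (3 : F) ≠ 0 := by
    intro h0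
    exact one_ne_zero (α := F) (by linear_combination h37 - 12 * h0)
  have n5 : (5 : F) ≠ 0 := by
    intro h0
    exact one_ne_zero (α := F) (by linear_combination (-2) * h37 + 15 * h0)
  have h3 := step 2 (by norm_num) (by norm_num) h2
  norm_num at h3
  have h4 := step 3 (by norm_num) (by norm_num; exact n2) h3
  norm_num at h4
  have h5 := step 4 (by norm_num) (by norm_num; exact n3) h4
  norm_num at h5
  have h6 := step 5 (by norm_num) (by
    have : (4 : F) = 2 * 2 := by norm_num
    norm_num
    rw [this]; exact mul_ne_zero n2 n2) h5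
  norm_num at h6
  have h7 := step 6 (by norm_num) (by norm_num; exact n5) h6
  norm_num at h7
  have h8 := step 7 (by norm_num) (by
    have : (6 : F) = 2 * 3 := by norm_num
    norm_num
    rw [this]; exact mul_ne_zero n2 n3) h7
  norm_num at h8
  intro n hn hn8
  have : n = 1 ∨ n = 2 ∨ n = 3 ∨ n = 4 ∨ n = 5 ∨ n = 6 ∨ n = 7 ∨ n = 8 := by omega
  rcases this with rfl | rfl | rfl | rfl | rfl | rfl | rfl | rfl <;> assumption

end char37

lemma sing_mem (v : Verma F c h) : sing (F := F) v ∈ degreePart F v 8 := by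
  have key : ∀ l : List ℕ, (∀ i ∈ l, 0 < i) → l.sum = 8 → mono F l • v ∈ degreePart F v 8 := by
    intro l hl hs
    exact Submodule.subset_span ⟨l, hl, hs, rfl⟩
  have k1 := key [8] (by simp) (by simp)
  have k2 := key [6, 2] (by simp) (by simp)
  have k3 := key [5, 3] (by simp) (by simp)
  have k4 := key [4, 4] (by simp) (by simp)
  have k5 := key [4, 2, 2] (by simp) (by simp)
  have k6 := key [3, 3, 2] (by simp) (by simp)
  have k7 := key [2, 2, 2, 2] (by simp) (by simp)
  simp only [mono_cons, mono_nil, mul_smul, mul_one, Nat.cast_ofNat] at k1 k2 k3 k4 k5 k6 k7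
  unfold sing
  exact add_mem (add_mem (add_mem (add_mem (add_mem (add_mem (Submodule.smul_mem _ _ k1)
    (Submodule.smul_mem _ _ k2)) (Submodule.smul_mem _ _ k3)) (Submodule.smul_mem _ _ k4))
    (Submodule.smul_mem _ _ k5)) (Submodule.smul_mem _ _ k6)) (Submodule.smul_mem _ _ k7)

lemma sing_map (v : Verma F c h) : simpleMk F c h (sing (F := F) v) =
    sing (F := F) (simpleMk F c h v) := by
  simp only [sing, map_add, simpleMk_smul, map_smul]

lemma sing_zero (h37 : (37 : F) = 0) (hc : 2⁻¹ * c = 17) : sing (F := F) (svac F c 0) = 0 := by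
  have hs1 : uL F 1 • sing (F := F) (svac F c 0) = 0 := sing_L1 svacHW svac_neg_one h37
  have hs2 : uL F 2 • sing (F := F) (svac F c 0) = 0 := sing_L2 svacHW svac_neg_one h37 hc
  have hall := lower_all h37 hs1 hs2
  rw [svac, ← sing_map, simpleMk_eq_zero]
  refine mem_max_of_Rad (sing_mem _) (crit (by norm_num) (sing_mem _) ?_)
  intro n hn
  rcases le_or_gt n 8 with h8 | h8
  · apply max_le_Rad
    have h1 := hall n hn h8
    rw [svac, ← sing_map, ← map_smul, simpleMk_eq_zero] at h1
    exact h1
  · have h1 := vacHW.act_dP (F := F) (k := 8) (x := sing (F := F) (vac F c 0)) (v := vac F c 0) (by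
      have := dP_nat (F := F) (v := vac F c 0) 8
      rw [Nat.cast_ofNat] at this
      rw [this]; exact sing_mem _) n
    unfold dP at h1
    rw [if_pos (by omega), Submodule.mem_bot] at h1
    rw [h1]; exact zero_mem _

lemma cMin37 (h37 : (37 : F) = 0) : 2⁻¹ * cMin F 3 = 17 := by
  have n2 : (2 : F) ≠ 0 := by
    intro h0
    exact one_ne_zero (α := F) (by linear_combination h37 - 18 * h0)
  have n5 : (5 : F) ≠ 0 := by
    intro h0
    exact one_ne_zero (α := F) (by linear_combination (-2) * h37 + 15 * h0)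
  have n20 : (20 : F) ≠ 0 := by
    have : (20 : F) = 2 * (2 * 5) := by norm_num
    rw [this]; exact mul_ne_zero n2 (mul_ne_zero n2 n5)
  have e : cMin F 3 = 1 - 6 / 20 := by
    simp only [cMin]; norm_num
  rw [e]
  have h1 : (2 : F) * (2⁻¹ * (1 - 6 / 20)) * 20 = 14 := by
    field_simp
    norm_num
  have h2 : (2 : F) * 17 * 20 = 14 := by linear_combination 18 * h37
  have h3 : (2 : F) * (2⁻¹ * (1 - 6 / 20)) * 20 = 2 * 17 * 20 := by rw [h1, h2]
  exact mul_left_cancel₀ n2 (mul_right_cancel₀ n20 h3)



/-! ### Singular vectors of the simple module -/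

/-- Vectors killed modulo the radical by all raising operators and by the functional. -/
noncomputable def Kr (c h : F) : Submodule F (Verma F c h) where
  carrier := {y | (∀ n : ℤ, 0 < n → uL F n • y ∈ Rad c h) ∧ eps c h y = 0}
  add_mem' := by
    intro x y hx hy
    exact ⟨fun n hn => by rw [smul_add]; exact add_mem (hx.1 n hn) (hy.1 n hn),
      by rw [map_add, hx.2, hy.2, add_zero]⟩
  zero_mem' := ⟨fun n _ => by rw [smul_zero]; exact zero_mem _, map_zero _⟩
  smul_mem' := by
    intro a x hx
    refine ⟨fun n hn => ?_, by rw [map_smul, hx.2, smul_zero]⟩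
    rw [smul_comm]
    exact ((Rad c h).restrictScalars F).smul_mem a (hx.1 n hn)

lemma Kr_L0 {y : Verma F c h} (hy : y ∈ Kr c h) : uL F 0 • y ∈ Kr c h := by
  refine ⟨fun n hn => ?_, by rw [eps_L0, hy.2, mul_zero]⟩
  rw [uL_smul_comm, if_neg (by omega), zero_smul, add_zero, add_zero]
  exact add_mem ((Rad c h).smul_mem _ (hy.1 n hn))
    (((Rad c h).restrictScalars F).smul_mem _ (hy.1 n hn))

lemma Kr_le_Rad {x : Verma F c h} (hx : x ∈ Kr c h) : x ∈ Rad c h := by
  set S : Submodule F (Verma F c h) :=
    Submodule.span F {y | ∃ l : List ℕ, (∀ i ∈ l, 0 < i) ∧ ∃ x ∈ Kr c h, y = mono F l • x} with hS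
  set Z : Submodule F (Verma F c h) := (Rad c h).restrictScalars F ⊔ S with hZ
  have hR : ∀ y ∈ Rad c h, y ∈ Z := fun y hy => Submodule.mem_sup_left hy
  have hSm : ∀ l : List ℕ, (∀ i ∈ l, 0 < i) → ∀ x ∈ Kr c h, mono F l • x ∈ Z :=
    fun l hl x hx => Submodule.mem_sup_right (Submodule.subset_span ⟨l, hl, x, hx, rfl⟩)
  have hSc : ∀ (i : ℕ), 0 < i → ∀ z ∈ Z, uL F (-(i : ℤ)) • z ∈ Z := by
    intro i hi z hz
    obtain ⟨y, hy, w, hw, rfl⟩ := Submodule.mem_sup.mp hz
    rw [smul_add]
    refine add_mem (hR _ ((Rad c h).smul_mem _ hy)) ?_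
    rw [hS] at hw
    clear hz
    induction hw using Submodule.span_induction with
    | mem y hy =>
      obtain ⟨l, hl, x, hx, rfl⟩ := hy
      rw [← mul_smul, ← mono_cons]
      exact hSm (i :: l) (by simpa using ⟨hi, hl⟩) x hx
    | zero => rw [smul_zero]; exact zero_mem _
    | add y z _ _ ihy ihz => rw [smul_add]; exact add_mem ihy ihz
    | smul a y _ ihy => rw [smul_comm]; exact Submodule.smul_mem _ _ ihy
  have hword : ∀ (l : List ℕ), (∀ i ∈ l, 0 < i) → ∀ n : ℤ, ∀ x ∈ Kr c h,
      uL F n • mono F l • x ∈ Z := by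
    intro l
    induction l with
    | nil =>
      intro _ n x hx
      rw [mono_nil, one_smul]
      rcases lt_trichotomy n 0 with hn | rfl | hn
      · obtain ⟨i, rfl⟩ : ∃ i : ℕ, n = -(i : ℤ) := ⟨(-n).toNat, by omega⟩
        have := hSm [i] (by simp; omega) x hx
        rw [mono_cons, mono_nil, mul_one] at this
        exact this
      · have := hSm [] (by simp) _ (Kr_L0 hx)
        rwa [mono_nil, one_smul] at this
      · exact hR _ (hx.1 n hn)
    | cons i l ih =>
      intro hl n x hx
      have hi : 0 < i := hl i (by simp)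
      have hl' : ∀ j ∈ l, 0 < j := fun j hj => hl j (by simp [hj])
      rw [mono_cons, mul_smul, uL_smul_comm]
      refine add_mem (add_mem (hSc i hi _ (ih hl' n x hx))
        (Submodule.smul_mem _ _ (ih hl' _ x hx))) ?_
      rw [C_smul]
      exact Submodule.smul_mem _ _ (Submodule.smul_mem _ _ (hSm l hl' x hx))
  have hstab : ∀ n, ∀ z ∈ Z, uL F n • z ∈ Z := by
    intro n z hz
    obtain ⟨y, hy, w, hw, rfl⟩ := Submodule.mem_sup.mp hz
    rw [smul_add]
    refine add_mem (hR _ ((Rad c h).smul_mem _ hy)) ?_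
    rw [hS] at hw
    clear hz
    induction hw using Submodule.span_induction with
    | mem y hy =>
      obtain ⟨l, hl, x, hx, rfl⟩ := hy
      exact hword l hl n x hx
    | zero => rw [smul_zero]; exact zero_mem _
    | add y z _ _ ihy ihz => rw [smul_add]; exact add_mem ihy ihz
    | smul a y _ ihy => rw [smul_comm]; exact Submodule.smul_mem _ _ ihy
  have heps : ∀ z ∈ Z, eps c h z = 0 := by
    intro z hz
    obtain ⟨y, hy, w, hw, rfl⟩ := Submodule.mem_sup.mp hz
    rw [map_add, eps_of_Rad hy, zero_add]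
    rw [hS] at hw
    clear hz
    induction hw using Submodule.span_induction with
    | mem y hy =>
      obtain ⟨l, hl, x, hx, rfl⟩ := hy
      cases l with
      | nil => rw [mono_nil, one_smul]; exact hx.2
      | cons i l =>
        rw [mono_cons, mul_smul]
        have : 0 < i := hl i (by simp)
        exact eps_neg (by omega) _
    | zero => simp
    | add y z _ _ ihy ihz => rw [map_add, ihy, ihz, add_zero]
    | smul a y _ ihy => rw [map_smul, ihy, smul_zero]
  intro u
  refine heps _ (stable_of Z hstab ?_ u x ?_)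
  · intro z hz; rw [C_smul]; exact Submodule.smul_mem _ _ hz
  · have := hSm [] (by simp) x hx
    rwa [mono_nil, one_smul] at this

lemma exists_degree_bound (x : Verma F c h) :
    ∃ K : ℕ, x ∈ ⨆ k : Fin K, degreePart F (vac F c h) (k : ℕ) := by
  have hall : x ∈ ⨆ k : ℕ, degreePart F (vac F c h) k := by
    obtain ⟨u, rfl⟩ := exists_smul_vac x
    refine stable_of (⨆ k : ℕ, degreePart F (vac F c h) k) ?_ ?_ u _ ?_
    · intro n z hz
      induction hz using Submodule.iSup_induction' with
      | mem j y hy =>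
        have h1 : uL F n • y ∈ dP (F := F) (vac F c h) ((j : ℤ) - n) :=
          vacHW.act_dP (by rw [dP_nat]; exact hy) n
        rcases lt_or_ge ((j : ℤ) - n) 0 with hlt | hge
        · unfold dP at h1
          rw [if_pos hlt, Submodule.mem_bot] at h1
          rw [h1]; exact zero_mem _
        · obtain ⟨i, hi⟩ := Int.eq_ofNat_of_zero_le hge
          rw [hi, dP_nat] at h1
          exact Submodule.mem_iSup_of_mem i h1
      | zero => rw [smul_zero]; exact zero_mem _
      | add y z _ _ ihy ihz => rw [smul_add]; exact add_mem ihy ihz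
    · intro z hz
      rw [C_smul]
      exact Submodule.smul_mem _ _ hz
    · refine Submodule.mem_iSup_of_mem 0 (Submodule.subset_span ⟨[], by simp, rfl, ?_⟩)
      rw [mono_nil, one_smul]
  have mono' : ∀ {K K' : ℕ}, K ≤ K' → (⨆ k : Fin K, degreePart F (vac F c h) (k : ℕ)) ≤
      ⨆ k : Fin K', degreePart F (vac F c h) (k : ℕ) := by
    intro K K' hK
    refine iSup_le fun k => ?_
    exact le_iSup (fun k : Fin K' => degreePart F (vac F c h) (k : ℕ))
      ⟨k, lt_of_lt_of_le k.2 hK⟩
  induction hall using Submodule.iSup_induction' with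
  | mem k y hy =>
    exact ⟨k + 1, Submodule.mem_iSup_of_mem (⟨k, by omega⟩ : Fin (k + 1)) hy⟩
  | zero => exact ⟨0, zero_mem _⟩
  | add y z _ _ ihy ihz =>
    obtain ⟨K1, h1⟩ := ihy
    obtain ⟨K2, h2⟩ := ihz
    exact ⟨max K1 K2, add_mem (mono' (le_max_left _ _) h1) (mono' (le_max_right _ _) h2)⟩

lemma Rad_le_max {x : Verma F c h} (hx : x ∈ Rad c h) : x ∈ maxGraded F c h := by
  by_contra hn
  obtain ⟨K, hK⟩ := exists_degree_bound x
  have h1 := vac_mem_of max_le_Rad K x hx hK hn
  have h2 := eps_of_Rad h1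
  rw [eps_vac] at h2
  exact one_ne_zero h2

/-- Vectors of the simple module killed by all `L_n`, `n > 0`, are multiples of the highest weight
vector. -/
theorem sing_simple {z : Simple F c h} (hz : ∀ n : ℤ, 0 < n → uL F n • z = 0) :
    ∃ a : F, z = a • svac F c h := by
  obtain ⟨x, rfl⟩ := simpleMk_surj z
  refine ⟨eps c h x, ?_⟩
  rw [← sub_eq_zero, svac, ← simpleMk_smul, ← map_sub, simpleMk_eq_zero]
  refine Rad_le_max (Kr_le_Rad ⟨fun n hn => ?_, ?_⟩)
  · rw [smul_sub, smul_comm, vac_pos hn, smul_zero, sub_zero]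
    have := hz n hn
    rw [← map_smul, simpleMk_eq_zero] at this
    exact max_le_Rad this
  · rw [map_sub, map_smul, eps_vac, smul_eq_mul, mul_one, sub_self]

end Pool.Agent.Helper855.Gko
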