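import Pool.Agent.Helper855.GkoAffLat
import Pool.Agent.Helper855.GkoDefs

/-!
The Weyl module of highest weight `K ω_0`: relations, smoothness, vacuum vector and functional.
-/

set_option autoImplicit false
set_option linter.unusedSectionVars false

open scoped TensorProduct

namespace Pool.Agent.Helper855.Gko

open Aff (X brk form xU cU)

namespace Aff

variable (lam : Fin 2 → ℕ)

/-- The action of an element of `U_ℤ` on `V_ℤ(λ)`, as a linear map. -/
noncomputable def actZ (u : UZ) : Lat lam →ₗ[ℤ] Lat lam :=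
  (act (M := Lat lam) u).toIntLinearMap

/-- The action of `U_ℤ` on the Weyl module as a ring homomorphism. -/
noncomputable def actH (F : Type*) [Field F] : UZ →+* Module.End F (Weyl F lam) where
  toFun u := actF F lam u
  map_one' := by
    have h1 : actZ lam 1 = LinearMap.id := LinearMap.ext fun x => one_smul UZ x
    change (actZ lam 1).baseChange F = _
    rw [h1]
    exact LinearMap.baseChange_id
  map_mul' u u' := by
    have h1 : actZ lam (u * u') = actZ lam u ∘ₗ actZ lam u' :=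
      LinearMap.ext fun x => mul_smul u u' x
    change (actZ lam (u * u')).baseChange F = _
    rw [h1]
    exact LinearMap.baseChange_comp _ _
  map_zero' := by
    have h1 : actZ lam 0 = 0 := LinearMap.ext fun x => zero_smul UZ x
    change (actZ lam 0).baseChange F = _
    rw [h1]
    exact LinearMap.baseChange_zero
  map_add' u u' := by
    have h1 : actZ lam (u + u') = actZ lam u + actZ lam u' :=
      LinearMap.ext fun x => add_smul u u' x
    change (actZ lam (u + u')).baseChange F = _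
    rw [h1]
    exact LinearMap.baseChange_add _ _

/-- The element `x(m)` of `U_ℤ`. -/
noncomputable def xZ (a : X) (m : ℤ) : UZ := ⟨xU a m, xU_mem a m⟩

/-- The element `c` of `U_ℤ`. -/
noncomputable def cZ : UZ := ⟨cU, cU_mem⟩

lemma xZ_comm (a b : X) (m n : ℤ) : xZ a m * xZ b n - xZ b n * xZ a m =
    (brk a b).1 • xZ (brk a b).2 (m + n) + (if m + n = 0 then m * form a b else 0) • cZ := by
  apply Subtype.ext
  have h1 := ua_xx a b m n
  rw [cm] at h1
  have h2 : ((xZ a m * xZ b n - xZ b n * xZ a m : UZ) : UA) = xU a m * xU b n - xU b n * xU a m := rfl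
  rw [h2, h1]
  simp only [Subring.coe_add]
  congr 1

variable [Fact (lam 1 = 0)]

lemma exists_epsZ : ∃ φ : Lat lam →ₗ[ℤ] ℤ, ∀ x : Lat lam, (φ x : ℂ) = epsL lam (x : VZ lam).1 := by
  have H : ∀ x : Lat lam, ∃ m : ℤ, epsL lam (x : VZ lam).1 = m := fun x =>
    eps_VZ lam (x : VZ lam).2
  choose φ hφ using H
  refine ⟨(AddMonoidHom.mk' φ fun x y => ?_).toIntLinearMap, fun x => (hφ x).symm⟩
  have h1 : (φ (x + y) : ℂ) = (φ x : ℂ) + φ y := by
    rw [← hφ, ← hφ, ← hφ]
    exact map_add _ _ _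
  exact_mod_cast h1

/-- The integral functional. -/
noncomputable def epsZ : Lat lam →ₗ[ℤ] ℤ := (exists_epsZ lam).choose

lemma epsZ_spec (x : Lat lam) : (epsZ lam x : ℂ) = epsL lam (x : VZ lam).1 :=
  (exists_epsZ lam).choose_spec x

/-- The functional on the Weyl module. -/
noncomputable def epsF (F : Type*) [Field F] : Weyl F lam →ₗ[F] F :=
  show (F ⊗[ℤ] Lat lam) →ₗ[F] F from
    (TensorProduct.AlgebraTensorModule.rid ℤ F F).toLinearMap ∘ₗ (epsZ lam).baseChange F

/-- The highest weight vector of the Weyl module. -/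
noncomputable def vF (F : Type*) [Field F] : Weyl F lam :=
  show F ⊗[ℤ] Lat lam from (1 : F) ⊗ₜ[ℤ] (show Lat lam from ⟨vlam lam, v_mem_VZ lam⟩)

/-- Induction on the Weyl module. -/
lemma weyl_ind {F : Type*} [Field F] {P : Weyl F lam → Prop} (h0 : P 0)
    (hadd : ∀ x y, P x → P y → P (x + y))
    (ht : ∀ (r : F) (x : Lat lam), P (show F ⊗[ℤ] Lat lam from r ⊗ₜ[ℤ] x)) (z : Weyl F lam) : P z :=
  TensorProduct.induction_on (motive := P) z h0 ht hadd

lemma actH_tmul {F : Type*} [Field F] (u : UZ) (r : F) (x : Lat lam) :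
    actH lam F u (show F ⊗[ℤ] Lat lam from r ⊗ₜ[ℤ] x) =
      (show F ⊗[ℤ] Lat lam from r ⊗ₜ[ℤ] (show Lat lam from u • x)) := rfl

variable {lam} in
lemma actF_c (F : Type*) [Field F] (z : Weyl F lam) : actH lam F cZ z = (lam 0 : F) • z := by
  refine weyl_ind lam (P := fun z => actH lam F cZ z = (lam 0 : F) • z) ?_ ?_ ?_ z
  · rw [map_zero, smul_zero]
  · intro x y hx hy; rw [map_add, hx, hy, smul_add]
  · intro r x
    rw [actH_tmul]
    have h1 : (show Lat lam from cZ • x) = (lam 0 : ℤ) • x := by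
      refine Subtype.ext ?_
      change cU • (x : VZ lam).1 = _
      rw [c_LC]
      have : ((lam 0 : ℕ) : ℂ) • ((x : VZ lam).1 : LC lam) = ((lam 0 : ℕ) : ℤ) • (x : VZ lam).1 := by
        rw [← Int.cast_smul_eq_zsmul ℂ]
        simp
      exact this
    rw [h1]
    have h2 : (show F ⊗[ℤ] Lat lam from r ⊗ₜ[ℤ] ((lam 0 : ℤ) • x)) =
        (show F ⊗[ℤ] Lat lam from ((lam 0 : F) * r) ⊗ₜ[ℤ] x) := by
      change r ⊗ₜ[ℤ] ((lam 0 : ℤ) • x) = ((lam 0 : F) * r) ⊗ₜ[ℤ] x
      rw [← TensorProduct.smul_tmul]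
      congr 1
      rw [zsmul_eq_mul]
      simp
    exact h2

lemma epsF_tmul {F : Type*} [Field F] (r : F) (x : Lat lam) :
    epsF lam F (show F ⊗[ℤ] Lat lam from r ⊗ₜ[ℤ] x) = (epsZ lam x : F) * r := by
  change (TensorProduct.AlgebraTensorModule.rid ℤ F F) (r ⊗ₜ[ℤ] (epsZ lam x)) = _
  rw [TensorProduct.AlgebraTensorModule.rid_tmul, zsmul_eq_mul]

lemma epsF_vF (F : Type*) [Field F] : epsF lam F (vF lam F) = 1 := by
  change epsF lam F (show F ⊗[ℤ] Lat lam from (1 : F) ⊗ₜ[ℤ] _) = 1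
  rw [epsF_tmul]
  have h1 := epsZ_spec lam (show Lat lam from ⟨vlam lam, v_mem_VZ lam⟩)
  change _ = epsL lam (vlam lam) at h1
  rw [epsL_vlam] at h1
  have h2 : epsZ lam (show Lat lam from ⟨vlam lam, v_mem_VZ lam⟩) = 1 := by exact_mod_cast h1
  rw [h2]
  simp

lemma epsF_x {F : Type*} [Field F] {a : X} {m : ℤ} (hm : m ≤ 0) (z : Weyl F lam) :
    epsF lam F (actH lam F (xZ a m) z) = 0 := by
  refine weyl_ind lam (P := fun z => epsF lam F (actH lam F (xZ a m) z) = 0) ?_ ?_ ?_ z
  · rw [map_zero, map_zero]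
  · intro x y hx hy; rw [map_add, map_add, hx, hy, add_zero]
  · intro r x
    rw [actH_tmul, epsF_tmul]
    have h1 := epsZ_spec lam (show Lat lam from xZ a m • x)
    change _ = epsL lam (xU a m • (x : VZ lam).1) at h1
    rw [epsL_x lam hm] at h1
    have h2 : epsZ lam (show Lat lam from xZ a m • x) = 0 := by exact_mod_cast h1
    rw [h2]
    simp

lemma x_vF {F : Type*} [Field F] {a : X} {m : ℤ} (hm : 0 ≤ m) :
    actH lam F (xZ a m) (vF lam F) = 0 := by
  change actH lam F (xZ a m) (show F ⊗[ℤ] Lat lam from (1 : F) ⊗ₜ[ℤ] _) = 0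
  rw [actH_tmul]
  have h1 : (show Lat lam from xZ a m • (show Lat lam from ⟨vlam lam, v_mem_VZ lam⟩)) = 0 := by
    refine Subtype.ext ?_
    exact x_vlam lam hm
  rw [h1]
  exact TensorProduct.tmul_zero _ _

lemma smooth_W {F : Type*} [Field F] (z : Weyl F lam) :
    ∃ N : ℤ, ∀ m ≥ N, ∀ a : X, actH lam F (xZ a m) z = 0 := by
  refine weyl_ind lam (P := fun z => ∃ N : ℤ, ∀ m ≥ N, ∀ a : X, actH lam F (xZ a m) z = 0)
    ?_ ?_ ?_ z
  · exact ⟨0, fun m _ a => map_zero _⟩
  · rintro x y ⟨N1, h1⟩ ⟨N2, h2⟩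
    exact ⟨max N1 N2, fun m hm a => by rw [map_add, h1 m (le_trans (le_max_left _ _) hm),
      h2 m (le_trans (le_max_right _ _) hm), add_zero]⟩
  · intro r x
    obtain ⟨N, hN⟩ := smooth_LC lam (x : VZ lam).1
    refine ⟨N, fun m hm a => ?_⟩
    rw [actH_tmul]
    have h1 : (show Lat lam from xZ a m • x) = 0 := Subtype.ext (hN m hm a)
    rw [h1]
    exact TensorProduct.tmul_zero _ _

lemma actH_comm {F : Type*} [Field F] (a b : X) (m n : ℤ) (z : Weyl F lam) :
    actH lam F (xZ a m) (actH lam F (xZ b n) z) = actH lam F (xZ b n) (actH lam F (xZ a m) z) +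
      ((brk a b).1 : F) • actH lam F (xZ (brk a b).2 (m + n)) z +
      (((if m + n = 0 then m * form a b else 0 : ℤ) : F) * (lam 0 : F)) • z := by
  have h1 := congrArg (actH lam F) (xZ_comm a b m n)
  rw [map_sub, map_mul, map_mul, map_add, map_zsmul, map_zsmul] at h1
  have h2 := LinearMap.congr_fun h1 z
  rw [LinearMap.sub_apply, LinearMap.add_apply, Module.End.mul_apply, Module.End.mul_apply,
    LinearMap.smul_apply, LinearMap.smul_apply, actF_c, ← Int.cast_smul_eq_zsmul F,
    ← Int.cast_smul_eq_zsmul F, smul_smul] at h2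
  rw [add_assoc, ← h2]
  abel

end Aff

end Pool.Agent.Helper855.Gko
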