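import Pool.Agent.Helper855.GkoRec
import Pool.Agent.Helper855.GkoWeyl
import Pool.Agent.Helper855.GkoVir
import Pool.Agent.Helper855.GkoOld

/-!
The Goddard-Kent-Olive decomposition fails for `ℓ = 3` in characteristic `37`.
-/

set_option autoImplicit false
set_option linter.unusedSectionVars false

open scoped TensorProduct DirectSum

namespace Pool.Agent.Helper855.Gko

open Aff (X brk form)

section tensor

variable {F : Type*} [Field F] {V W : Type*} [AddCommGroup V] [Module F V] [AddCommGroup W]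
  [Module F W]

lemma AffRep.rT {r : X → ℤ → V →ₗ[F] V} {K : F} (H : AffRep r K) :
    AffRep (fun a m => (r a m).rTensor W) K where
  comm := by
    intro a b m n z
    induction z using TensorProduct.induction_on with
    | zero => simp
    | tmul x y =>
      simp only [LinearMap.rTensor_tmul]
      rw [H.comm, TensorProduct.add_tmul, TensorProduct.add_tmul, TensorProduct.smul_tmul',
        TensorProduct.smul_tmul']
    | add x y hx hy =>
      simp only [map_add, smul_add] at hx hy ⊢
      rw [hx, hy]; abel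
  smooth := by
    intro z
    induction z using TensorProduct.induction_on with
    | zero => exact ⟨0, fun m _ a => map_zero _⟩
    | tmul x y =>
      obtain ⟨N, hN⟩ := H.smooth x
      refine ⟨N, fun m hm a => ?_⟩
      rw [LinearMap.rTensor_tmul, hN m hm a, TensorProduct.zero_tmul]
    | add x y hx hy =>
      obtain ⟨N1, h1⟩ := hx
      obtain ⟨N2, h2⟩ := hy
      exact ⟨max N1 N2, fun m hm a => by rw [map_add, h1 m (le_trans (le_max_left _ _) hm),
        h2 m (le_trans (le_max_right _ _) hm), add_zero]⟩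

lemma AffRep.lT {r : X → ℤ → W →ₗ[F] W} {K : F} (H : AffRep r K) :
    AffRep (fun a m => (r a m).lTensor V) K where
  comm := by
    intro a b m n z
    induction z using TensorProduct.induction_on with
    | zero => simp
    | tmul x y =>
      simp only [LinearMap.lTensor_tmul]
      rw [H.comm, TensorProduct.tmul_add, TensorProduct.tmul_add, TensorProduct.tmul_smul,
        TensorProduct.tmul_smul]
    | add x y hx hy =>
      simp only [map_add, smul_add] at hx hy ⊢
      rw [hx, hy]; abel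
  smooth := by
    intro z
    induction z using TensorProduct.induction_on with
    | zero => exact ⟨0, fun m _ a => map_zero _⟩
    | tmul x y =>
      obtain ⟨N, hN⟩ := H.smooth y
      refine ⟨N, fun m hm a => ?_⟩
      rw [LinearMap.lTensor_tmul, hN m hm a, TensorProduct.tmul_zero]
    | add x y hx hy =>
      obtain ⟨N1, h1⟩ := hx
      obtain ⟨N2, h2⟩ := hy
      exact ⟨max N1 N2, fun m hm a => by rw [map_add, h1 m (le_trans (le_max_left _ _) hm),
        h2 m (le_trans (le_max_right _ _) hm), add_zero]⟩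

lemma AffRep.sum {ρ σ J : X → ℤ → V →ₗ[F] V} {K1 K2 : F} (H1 : AffRep ρ K1) (H2 : AffRep σ K2)
    (hc : ∀ a b m n z, ρ a m (σ b n z) = σ b n (ρ a m z))
    (hJ : ∀ a m z, J a m z = ρ a m z + σ a m z) : AffRep J (K1 + K2) where
  comm := by
    intro a b m n z
    simp only [hJ, map_add]
    rw [H1.comm a b m n z, H2.comm a b m n z, hc a b m n z, hc b a n m z]
    module
  smooth := by
    intro z
    obtain ⟨N1, h1⟩ := H1.smooth z
    obtain ⟨N2, h2⟩ := H2.smooth z
    exact ⟨max N1 N2, fun m hm a => by rw [hJ, h1 m (le_trans (le_max_left _ _) hm),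
        h2 m (le_trans (le_max_right _ _) hm), add_zero]⟩

/-- Vectors of `V ⊗ L_{c,h}` killed by all `L_n`, `n > 0`. -/
lemma tensor_sing {c h : F} (a : V ⊗[F] Simple F c h)
    (ha : ∀ n : ℤ, 0 < n → (opV F c h n).lTensor V a = 0) : ∃ a' : V, a = a' ⊗ₜ[F] svac F c h := by
  classical
  let B := Module.Basis.ofVectorSpace F V
  let e := TensorProduct.equivFinsuppOfBasisLeft (N := Simple F c h) B
  have key : ∀ (n : ℤ) (a : V ⊗[F] Simple F c h) i,
      e ((opV F c h n).lTensor V a) i = opV F c h n (e a i) := by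
    intro n a i
    induction a using TensorProduct.induction_on with
    | zero => simp
    | tmul x y =>
      rw [LinearMap.lTensor_tmul, TensorProduct.equivFinsuppOfBasisLeft_apply_tmul_apply,
        TensorProduct.equivFinsuppOfBasisLeft_apply_tmul_apply, map_smul]
    | add x y hx hy => simp only [map_add, Finsupp.add_apply, hx, hy]
  have h1 : ∀ i, ∃ r : F, e a i = r • svac F c h := by
    intro i
    refine sing_simple fun n hn => ?_
    have := key n a i
    rw [ha n hn, map_zero] at this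
    exact this.symm
  choose r hr using h1
  refine ⟨∑ i ∈ (e a).support, r i • B i, ?_⟩
  have h2 : a = (e a).sum fun i n => B i ⊗ₜ[F] n := by
    rw [← TensorProduct.equivFinsuppOfBasisLeft_symm_apply]
    exact (e.symm_apply_apply a).symm
  refine h2.trans ?_
  rw [Finsupp.sum, TensorProduct.sum_tmul]
  refine Finset.sum_congr rfl fun i _ => ?_
  rw [hr, TensorProduct.tmul_smul, TensorProduct.smul_tmul']

end tensor

section concrete

variable (F : Type*) [Field F]

instance factw (k : ℕ) : Fact (Aff.weight k 0 1 = 0) := ⟨rfl⟩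

lemma opW_eq (k : ℕ) (a : X) (m : ℤ) (z : Aff.Weyl F (Aff.weight k 0)) :
    opW F k 0 a m z = Aff.actH (Aff.weight k 0) F (Aff.xZ a m) z := rfl

lemma affRep_opW (k : ℕ) : AffRep (opW F k 0) (k : F) where
  comm := by
    intro a b m n z
    simp only [opW_eq]
    rw [Aff.actH_comm]
    congr 3
    unfold dl
    split_ifs
    · push_cast; ring
    · simp
  smooth z := Aff.smooth_W (Aff.weight k 0) z

/-- The functional on the tensor product. -/
noncomputable def epsT : OTen F 3 0 0 →ₗ[F] F :=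
  (TensorProduct.lid F F).toLinearMap ∘ₗ
    TensorProduct.map (Aff.epsF (Aff.weight (3 - 1) 0) F) (Aff.epsF (Aff.weight 1 0) F)

/-- The vacuum vector of the tensor product. -/
noncomputable def Om : OTen F 3 0 0 :=
  Aff.vF (Aff.weight (3 - 1) 0) F ⊗ₜ[F] Aff.vF (Aff.weight 1 0) F

lemma epsT_Om : epsT F (Om F) = 1 := by
  rw [epsT, Om, LinearMap.comp_apply, TensorProduct.map_tmul, Aff.epsF_vF, Aff.epsF_vF]
  simp

lemma epsT_1 (a : X) (m : ℤ) (z : OTen F 3 0 0) (hm : m ≤ 0) : epsT F (oact1 F 3 0 0 a m z) = 0 := by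
  induction z using TensorProduct.induction_on with
  | zero => simp
  | tmul x y =>
    rw [oact1, LinearMap.rTensor_tmul, epsT, LinearMap.comp_apply, TensorProduct.map_tmul, opW_eq,
      Aff.epsF_x _ hm]
    simp
  | add x y hx hy => rw [map_add, map_add, hx, hy, add_zero]

lemma epsT_2 (a : X) (m : ℤ) (z : OTen F 3 0 0) (hm : m ≤ 0) : epsT F (oact2 F 3 0 0 a m z) = 0 := by
  induction z using TensorProduct.induction_on with
  | zero => simp
  | tmul x y =>
    rw [oact2, LinearMap.lTensor_tmul, epsT, LinearMap.comp_apply, TensorProduct.map_tmul, opW_eq,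
      Aff.epsF_x _ hm]
    simp
  | add x y hx hy => rw [map_add, map_add, hx, hy, add_zero]

lemma act1_Om (a : X) (m : ℤ) (hm : 0 ≤ m) : oact1 F 3 0 0 a m (Om F) = 0 := by
  rw [oact1, Om, LinearMap.rTensor_tmul, opW_eq, Aff.x_vF _ hm, TensorProduct.zero_tmul]

lemma act2_Om (a : X) (m : ℤ) (hm : 0 ≤ m) : oact2 F 3 0 0 a m (Om F) = 0 := by
  rw [oact2, Om, LinearMap.lTensor_tmul, opW_eq, Aff.x_vF _ hm, TensorProduct.tmul_zero]

lemma actD_apply (a : X) (m : ℤ) (z : OTen F 3 0 0) :
    oactD F 3 0 0 a m z = oact1 F 3 0 0 a m z + oact2 F 3 0 0 a m z := rfl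

lemma act_comm (a b : X) (m n : ℤ) (z : OTen F 3 0 0) :
    oact1 F 3 0 0 a m (oact2 F 3 0 0 b n z) = oact2 F 3 0 0 b n (oact1 F 3 0 0 a m z) := by
  rw [oact1, oact2, ← LinearMap.comp_apply, LinearMap.rTensor_comp_lTensor, ← LinearMap.comp_apply,
    LinearMap.lTensor_comp_rTensor]

variable {F}

lemma setting (h2 : (2 : F) ≠ 0) :
    Setting (oact1 F 3 0 0) (oact2 F 3 0 0) (oactD F 3 0 0) 2 1 (epsT F) where
  rho := by
    have := (affRep_opW F (3 - 1)).rT (W := Aff.Weyl F (Aff.weight 1 0))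
    have e : (((3 - 1 : ℕ) : ℕ) : F) = 2 := by norm_num
    rw [e] at this
    exact this
  sigma := by
    have := (affRep_opW F 1).lT (V := Aff.Weyl F (Aff.weight (3 - 1) 0))
    rw [Nat.cast_one] at this
    exact this
  diag := by
    have h1 := (affRep_opW F (3 - 1)).rT (W := Aff.Weyl F (Aff.weight 1 0))
    have h3 := (affRep_opW F 1).lT (V := Aff.Weyl F (Aff.weight (3 - 1) 0))
    have := AffRep.sum (J := oactD F 3 0 0) h1 h3 (act_comm F) (actD_apply F)
    have e : (((3 - 1 : ℕ) : ℕ) : F) = 2 := by norm_num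
    rw [e, Nat.cast_one] at this
    exact this
  jdef := actD_apply F
  comm := act_comm F
  vrho := ⟨epsT_1 F⟩
  vsigma := ⟨epsT_2 F⟩
  vdiag := ⟨fun a m z hm => by
    rw [actD_apply, map_add, epsT_1 F a m z hm, epsT_2 F a m z hm, add_zero]⟩
  two := h2
  k1 := by
    have : (2 : F) + 2 = 2 * 2 := by norm_num
    rw [this]; exact mul_ne_zero h2 h2

lemma coset_eq (m : ℤ) (z : OTen F 3 0 0) :
    ocoset F 3 0 0 m z = cos (oact1 F 3 0 0) (oact2 F 3 0 0) (oactD F 3 0 0) 2 1 m z := by
  have e1 : (((3 - 1 : ℕ) : ℕ) : F) + 2 = 2 + 2 := by norm_num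
  have e2 : ((3 : ℕ) : F) + 2 = 2 + 1 + 2 := by norm_num
  rw [ocoset, cos, e1, e2]

lemma fs_Om {r : X → ℤ → OTen F 3 0 0 →ₗ[F] OTen F 3 0 0} (hr : ∀ a m, 0 ≤ m → r a m (Om F) = 0)
    {n : ℤ} (hn : 0 ≤ n) : ∑ᶠ m : ℤ, nterm r n (Om F) m = 0 := by
  refine finsum_eq_zero_of_forall_eq_zero fun m => quad_right_zero fun a => hr a _ ?_
  rcases le_total m (n - m) with h | h
  · rw [max_eq_right h]; omega
  · rw [max_eq_left h]; omega

lemma coset_Om {n : ℤ} (hn : 0 ≤ n) : ocoset F 3 0 0 n (Om F) = 0 := by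
  rw [coset_eq, cos, sug_eq, sug_eq, sug_eq, fs_Om (act1_Om F) hn, fs_Om (act2_Om F) hn,
    fs_Om (fun a m hm => by rw [actD_apply, act1_Om F a m hm, act2_Om F a m hm, add_zero]) hn]
  simp

lemma eta_zero : eta F 3 0 0 = 0 := by
  have : ((1 : F) * (3 + 2) - 1 * (3 + 1)) ^ 2 - 1 = 0 := by norm_num
  simp only [eta, hMin]
  norm_num

lemma eta_two (h37 : (37 : F) = 0) : eta F 3 0 2 ≠ 0 := by
  have n2 : (2 : F) ≠ 0 := by
    intro h0
    exact one_ne_zero (α := F) (by linear_combination h37 - 18 * h0)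
  have n3 : (3 : F) ≠ 0 := by
    intro h0
    exact one_ne_zero (α := F) (by linear_combination h37 - 12 * h0)
  have n5 : (5 : F) ≠ 0 := by
    intro h0
    exact one_ne_zero (α := F) (by linear_combination (-2) * h37 + 15 * h0)
  have e1 : eta F 3 0 2 = (2 * 2 * 2 * 2 * 3) / (2 * 2 * 2 * 2 * 5) := by
    simp only [eta, hMin]
    norm_num
  rw [e1]
  exact div_ne_zero (by simp [n2, n3]) (by simp [n2, n5])

/-- The singular combination in the tensor product. -/
noncomputable def sT (F : Type*) [Field F] (w : List ℕ) : OTen F 3 0 0 :=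
  zw (oact1 F 3 0 0) (oact2 F 3 0 0) (oactD F 3 0 0) (Om F) w

lemma sT_nil : sT F [] = Om F := rfl

lemma sT_cons (n : ℕ) (w : List ℕ) : sT F (n :: w) = ocoset F 3 0 0 (-(n : ℤ)) (sT F w) := by
  rw [coset_eq]; rfl

/-- Words in the simple module. -/
noncomputable def opM (c h : F) (w : List ℕ) : Simple F c h →ₗ[F] Simple F c h :=
  Algebra.lsmul F F (Simple F c h) (mono F w)

lemma opM_cons (c h : F) (n : ℕ) (w : List ℕ) :
    opM c h (n :: w) = opV F c h (-(n : ℤ)) ∘ₗ opM c h w := by
  refine LinearMap.ext fun x => ?_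
  change mono F (n :: w) • x = uL F (-(n : ℤ)) • mono F w • x
  rw [mono_cons, mul_smul]

/-- The decomposition fails for `ℓ = 3` in characteristic `37`. -/
theorem not_gko (h37 : (37 : F) = 0) : ¬ HasGKO F 3 0 0 := by
  intro H
  obtain ⟨φ, hJ, hL⟩ := OHasGKO_of H
  have n2 : (2 : F) ≠ 0 := by
    intro h0
    exact one_ne_zero (α := F) (by linear_combination h37 - 18 * h0)
  have S := setting (F := F) n2
  have ext0 : ∀ z : OTen F 3 0 0, (∀ j, φ z j = 0) → z = 0 := by
    intro z hz
    have : φ z = 0 := DFinsupp.ext hz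
    exact (LinearEquiv.map_eq_zero_iff φ).mp this
  -- the vectors are invariant
  have hinv : ∀ w : List ℕ, ∀ a m, 0 ≤ m → oactD F 3 0 0 a m (sT F w) = 0 := by
    intro w
    induction w with
    | nil =>
      intro a m hm
      rw [sT_nil, actD_apply, act1_Om F a m hm, act2_Om F a m hm, add_zero]
    | cons n w ih =>
      intro a m hm
      refine ext0 _ fun j => ?_
      rw [hJ, sT_cons, hL, ← LinearMap.comp_apply, LinearMap.rTensor_comp_lTensor,
        ← LinearMap.lTensor_comp_rTensor, LinearMap.comp_apply, ← hJ, ih a m hm, map_zero]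
      exact map_zero _
  -- the image of the vacuum vector
  have hsing : ∀ j : Jset 3 0 0, ∃ a', φ (Om F) j = a' ⊗ₜ[F] svac F (cMin F 3) (eta F 3 0 j.1) := by
    intro j
    refine tensor_sing _ fun n hn => ?_
    rw [← hL, coset_Om hn.le, map_zero]
    rfl
  have hword : ∀ (w : List ℕ) (j : Jset 3 0 0),
      φ (sT F w) j = (opM (cMin F 3) (eta F 3 0 j.1) w).lTensor _ (φ (Om F) j) := by
    intro w j
    induction w with
    | nil =>
      have : opM (cMin F 3) (eta F 3 0 j.1) [] = LinearMap.id := by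
        refine LinearMap.ext fun x => ?_
        change mono F [] • x = x
        rw [mono_nil, one_smul]
      rw [this, LinearMap.lTensor_id]; rfl
    | cons n w ih =>
      rw [sT_cons, hL, ih, opM_cons, LinearMap.lTensor_comp, LinearMap.comp_apply]
  set z : OTen F 3 0 0 := (-8 : F) • sT F [8] + (-6 : F) • sT F [6, 2] + (7 : F) • sT F [5, 3] +
    (9 : F) • sT F [4, 4] + (-7 : F) • sT F [4, 2, 2] + (16 : F) • sT F [3, 3, 2] +
    (1 : F) • sT F [2, 2, 2, 2] with hz
  have hz0 : z = 0 := by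
    refine ext0 _ fun j => ?_
    obtain ⟨a', ha'⟩ := hsing j
    have e1 : φ z j = a' ⊗ₜ[F] sing (F := F) (svac F (cMin F 3) (eta F 3 0 j.1)) := by
      have hw : ∀ w, φ (sT F w) j = a' ⊗ₜ[F] (mono F w • svac F (cMin F 3) (eta F 3 0 j.1)) := by
        intro w
        rw [hword, ha', LinearMap.lTensor_tmul]; rfl
      rw [hz]
      simp only [map_add, map_smul]
      change (-8 : F) • φ (sT F [8]) j + (-6 : F) • φ (sT F [6, 2]) j + (7 : F) • φ (sT F [5, 3]) j +
        (9 : F) • φ (sT F [4, 4]) j + (-7 : F) • φ (sT F [4, 2, 2]) j +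
        (16 : F) • φ (sT F [3, 3, 2]) j + (1 : F) • φ (sT F [2, 2, 2, 2]) j = _
      simp only [hw, ← TensorProduct.tmul_smul, ← TensorProduct.tmul_add, sing]
      simp only [mono_cons, mono_nil, mul_smul, mul_one, Nat.cast_ofNat]
    rw [e1]
    obtain ⟨j, hj3, hj2⟩ := j
    have hj : j = 0 ∨ j = 2 := by omega
    rcases hj with rfl | rfl
    · have hs : ∀ h : F, h = 0 → sing (F := F) (svac F (cMin F 3) h) = 0 := by
        intro h hh
        subst hh
        exact sing_zero h37 (cMin37 h37)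
      rw [hs _ eta_zero, TensorProduct.tmul_zero]
    · have h0 : φ (Om F) ⟨2, hj3, hj2⟩ = 0 := by
        have h1 := hL 0 (Om F) ⟨2, hj3, hj2⟩
        rw [coset_Om le_rfl, map_zero] at h1
        have h3 : ((opV F (cMin F 3) (eta F 3 0 2) 0).lTensor _)
            (φ (Om F) ⟨2, hj3, hj2⟩) = eta F 3 0 2 • φ (Om F) ⟨2, hj3, hj2⟩ := by
          rw [ha', LinearMap.lTensor_tmul]
          have : opV F (cMin F 3) (eta F 3 0 2) 0 (svac F (cMin F 3) (eta F 3 0 2)) =
              eta F 3 0 2 • svac F (cMin F 3) (eta F 3 0 2) := svacHW.zero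
          rw [this, TensorProduct.tmul_smul]
        rw [h3] at h1
        exact (smul_eq_zero.mp h1.symm).resolve_left (eta_two h37)
      rw [← e1, hz]
      simp only [map_add, map_smul]
      change (-8 : F) • φ (sT F [8]) ⟨2, hj3, hj2⟩ + (-6 : F) • φ (sT F [6, 2]) ⟨2, hj3, hj2⟩ +
        (7 : F) • φ (sT F [5, 3]) ⟨2, hj3, hj2⟩ +
        (9 : F) • φ (sT F [4, 4]) ⟨2, hj3, hj2⟩ + (-7 : F) • φ (sT F [4, 2, 2]) ⟨2, hj3, hj2⟩ +
        (16 : F) • φ (sT F [3, 3, 2]) ⟨2, hj3, hj2⟩ +
        (1 : F) • φ (sT F [2, 2, 2, 2]) ⟨2, hj3, hj2⟩ = _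
      simp only [hword, h0, map_zero, smul_zero, add_zero]
  have hval := EE_val h37 S (Om := Om F) (epsT_Om F) (act1_Om F) hinv
  have h1 : EE (oact1 F 3 0 0) (epsT F) 4 4 z = (total : F) := by
    rw [hz]
    simp only [EE_add, EE_smul]
    have hv : ∀ w : List ℕ, (∀ n ∈ w, 0 < n) → EE (oact1 F 3 0 0) (epsT F) 4 4 (sT F w) =
      (val w 4 4 : F) := fun w hw => hval w hw 4 4
    rw [hv [8] (by simp), hv [6, 2] (by simp), hv [5, 3] (by simp), hv [4, 4] (by simp),
      hv [4, 2, 2] (by simp), hv [3, 3, 2] (by simp), hv [2, 2, 2, 2] (by simp)]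
    simp only [total]
    push_cast
    ring
  rw [hz0] at h1
  have h0 : EE (F := F) (oact1 F 3 0 0) (epsT F) 4 4 (0 : OTen F 3 0 0) = (0 : F) := by
    rw [EE, map_zero, map_zero]
  rw [h0] at h1
  have h5 : total = 37 * (total / 37) + 6 := by
    have := Int.mul_ediv_add_emod total 37
    rw [total_mod] at this
    exact this.symm
  rw [h5] at h1
  push_cast at h1
  rw [h37, zero_mul, zero_add] at h1
  have n3 : (3 : F) ≠ 0 := by
    intro h0
    exact one_ne_zero (α := F) (by linear_combination h37 - 12 * h0)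
  have n6 : (6 : F) ≠ 0 := by
    have : (6 : F) = 2 * 3 := by norm_num
    rw [this]; exact mul_ne_zero n2 n3
  exact n6 h1.symm

end concrete

end Pool.Agent.Helper855.Gko
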