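import Pool.Agent.Helper855.GkoSug

/-!
The recursion for the quadratic functional on vectors obtained from the coset operators.
-/

set_option autoImplicit false
set_option linter.unusedSectionVars false

namespace Pool.Agent.Helper855.Gko

open Aff (X brk form)

section

variable {F : Type*} [Field F] {M : Type*} [AddCommGroup M] [Module F M]

lemma fs_inv {J : X → ℤ → M →ₗ[F] M} {K : F} (H : AffRep J K) {z : M}
    (hz : ∀ a m, 0 ≤ m → J a m z = 0) {n : ℕ} (hn : 0 < n) :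
    ∑ᶠ m : ℤ, nterm J (-(n : ℤ)) z m =
      ∑ i ∈ Finset.range (n - 1), quad J (-((n : ℤ) - 1) + i) (-1 - i) z := by
  have h1 : ∑ᶠ m : ℤ, nterm J (-(n : ℤ)) z m =
      ∑ i ∈ Finset.range (n - 1), nterm J (-(n : ℤ)) z (-((n : ℤ) - 1) + i) := by
    refine finsum_window fun m hm => nterm_zero (R := 0) (fun m hm a => hz a m hm) ?_
    rcases hm with h | h
    · right; omega
    · left; omega
  rw [h1]
  refine Finset.sum_congr rfl fun i _ => ?_
  rw [H.nterm_eq (by omega)]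
  congr 2
  ring

lemma EE_add (ρ : X → ℤ → M →ₗ[F] M) (ε : M →ₗ[F] F) (l k : ℤ) (x y : M) :
    EE ρ ε l k (x + y) = EE ρ ε l k x + EE ρ ε l k y := by
  rw [EE, map_add, map_add]; rfl

lemma EE_sub (ρ : X → ℤ → M →ₗ[F] M) (ε : M →ₗ[F] F) (l k : ℤ) (x y : M) :
    EE ρ ε l k (x - y) = EE ρ ε l k x - EE ρ ε l k y := by
  rw [EE, map_sub, map_sub]; rfl

lemma EE_smul (ρ : X → ℤ → M →ₗ[F] M) (ε : M →ₗ[F] F) (l k : ℤ) (c : F) (x : M) :
    EE ρ ε l k (c • x) = c * EE ρ ε l k x := by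
  rw [EE, map_smul, map_smul, smul_eq_mul]; rfl

lemma EE_sum (ρ : X → ℤ → M →ₗ[F] M) (ε : M →ₗ[F] F) (l k : ℤ) {ι : Type*} (s : Finset ι)
    (x : ι → M) : EE ρ ε l k (∑ i ∈ s, x i) = ∑ i ∈ s, EE ρ ε l k (x i) := by
  rw [EE, map_sum, map_sum]; rfl

/-- The setting of the coset construction. -/
structure Setting (ρ σ J : X → ℤ → M →ₗ[F] M) (K1 K2 : F) (ε : M →ₗ[F] F) : Prop where
  rho : AffRep ρ K1
  sigma : AffRep σ K2
  diag : AffRep J (K1 + K2)
  jdef : ∀ a m z, J a m z = ρ a m z + σ a m z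
  comm : ∀ a b m n z, ρ a m (σ b n z) = σ b n (ρ a m z)
  vrho : Vac ρ ε
  vsigma : Vac σ ε
  vdiag : Vac J ε
  two : (2 : F) ≠ 0
  k1 : K1 + 2 ≠ 0

variable {ρ σ J : X → ℤ → M →ₗ[F] M} {K1 K2 : F} {ε : M →ₗ[F] F}

/-- The coset operator. -/
noncomputable def cos (ρ σ J : X → ℤ → M →ₗ[F] M) (K1 K2 : F) (m : ℤ) (z : M) : M :=
  sug ρ (K1 + 2) m z + sug σ (K2 + 2) m z - sug J (K1 + K2 + 2) m z

lemma Setting.eps_cos (S : Setting ρ σ J K1 K2 ε) {N : ℤ} (hN : N < 0) (z : M) :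
    ε (cos ρ σ J K1 K2 N z) = 0 := by
  rw [cos, map_sub, map_add, sug_eq, sug_eq, sug_eq, map_smul, map_smul, map_smul,
    S.vrho.fs hN (S.rho.finite _ _), S.vsigma.fs hN (S.sigma.finite _ _),
    S.vdiag.fs hN (S.diag.finite _ _)]
  simp

lemma Setting.recur (S : Setting ρ σ J K1 K2 ε) {z : M} (hz : ∀ a m, 0 ≤ m → J a m z = 0)
    {n : ℕ} (hn : 0 < n) (l k : ℕ) :
    EE ρ ε l k (cos ρ σ J K1 K2 (-(n : ℤ)) z) =
      l * EE ρ ε (-(n : ℤ) + l) k z + k * EE ρ ε l (-(n : ℤ) + k) z -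
      (2 * (K1 + K2 + 2))⁻¹ * ∑ i ∈ Finset.range (n - 1),
        (4 * EE ρ ε (l + (-((n : ℤ) - 1) + i) + (-1 - i)) k z +
          4 * EE ρ ε l (k + (-((n : ℤ) - 1) + i) + (-1 - i)) z -
          4 * EE ρ ε (l + (-((n : ℤ) - 1) + i)) (k + (-1 - i)) z -
          4 * EE ρ ε (l + (-1 - i)) (k + (-((n : ℤ) - 1) + i)) z +
          3 * K1 ^ 2 * (dl F l (-((n : ℤ) - 1) + i) * dl F k (-1 - i) +
            dl F k (-((n : ℤ) - 1) + i) * dl F l (-1 - i)) * ε z) := by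
  have hN : (-(n : ℤ)) < 0 := by omega
  have hJ : ∀ a b m n z, ρ a m (J b n z) = J b n (ρ a m z) +
      ((brk a b).1 : F) • ρ (brk a b).2 (m + n) z + ((form a b : F) * dl F m n * K1) • z := by
    intro a b m n z
    rw [S.jdef, S.jdef, map_add, S.rho.comm a b m n z, S.comm]
    module
  rw [cos, EE_sub, EE_add, sug_eq, sug_eq, sug_eq, EE_smul, EE_smul, EE_smul,
    EE_fs S.two S.rho S.vrho hN, EE_fs_comm S.sigma S.comm S.vsigma hN, fs_inv S.diag hz hn,
    EE_sum]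
  have h1 : ∀ i ∈ Finset.range (n - 1),
      EE ρ ε l k (quad J (-((n : ℤ) - 1) + (i : ℤ)) (-1 - (i : ℤ)) z) =
        4 * EE ρ ε (l + (-((n : ℤ) - 1) + i) + (-1 - i)) k z +
          4 * EE ρ ε l (k + (-((n : ℤ) - 1) + i) + (-1 - i)) z -
          4 * EE ρ ε (l + (-((n : ℤ) - 1) + i)) (k + (-1 - i)) z -
          4 * EE ρ ε (l + (-1 - i)) (k + (-((n : ℤ) - 1) + i)) z +
          3 * K1 ^ 2 * (dl F l (-((n : ℤ) - 1) + i) * dl F k (-1 - i) +
            dl F k (-((n : ℤ) - 1) + i) * dl F l (-1 - i)) * ε z := by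
    intro i hi
    rw [Finset.mem_range] at hi
    exact EE_quad S.two hJ S.vdiag l k (by omega) (by omega) z
  rw [Finset.sum_congr rfl h1, mul_zero, add_zero, ← mul_assoc]
  have h2 : (2 * (K1 + 2))⁻¹ * (2 * (K1 + 2)) = 1 :=
    inv_mul_cancel₀ (mul_ne_zero S.two S.k1)
  rw [h2, one_mul]

end

/-! ### The values -/

/-- `m δ_{m+n,0}` as an integer. -/
def dlz (m n : ℤ) : ℤ := if m + n = 0 then m else 0

/-- `1` for the empty word. -/
def e0 : List ℕ → ℤ
  | [] => 1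
  | _ :: _ => 0

/-- The values of the functional in characteristic `37`, for `K1 = 2`, `K2 = 1`. -/
def val : List ℕ → ℤ → ℤ → ℤ
  | [], l, k => if l ≤ 0 then 0 else if k ≤ 0 then 6 * dlz l k else 0
  | n :: w, l, k => if l ≤ 0 then 0 else if k ≤ 0 then 0 else
      l * val w (-(n : ℤ) + l) k + k * val w l (-(n : ℤ) + k) -
      26 * ((List.range (n - 1)).map fun i : ℕ =>
        (4 * val w (l + (-((n : ℤ) - 1) + i) + (-1 - i)) k +
          4 * val w l (k + (-((n : ℤ) - 1) + i) + (-1 - i)) -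
          4 * val w (l + (-((n : ℤ) - 1) + i)) (k + (-1 - i)) -
          4 * val w (l + (-1 - i)) (k + (-((n : ℤ) - 1) + i)) +
          12 * (dlz l (-((n : ℤ) - 1) + i) * dlz k (-1 - i) +
            dlz k (-((n : ℤ) - 1) + i) * dlz l (-1 - i)) * e0 w)).sum

/-- The total value. -/
def total : ℤ :=
  -8 * val [8] 4 4 + -6 * val [6, 2] 4 4 + 7 * val [5, 3] 4 4 + 9 * val [4, 4] 4 4 +
    -7 * val [4, 2, 2] 4 4 + 16 * val [3, 3, 2] 4 4 + 1 * val [2, 2, 2, 2] 4 4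

lemma total_mod : total % 37 = 6 := by decide +kernel

section

variable {F : Type*} [Field F] {M : Type*} [AddCommGroup M] [Module F M]
  {ρ σ J : X → ℤ → M →ₗ[F] M} {ε : M →ₗ[F] F}

lemma dl_cast (m n : ℤ) : dl F m n = (dlz m n : F) := by
  unfold dl dlz
  split_ifs <;> simp

/-- The vector of a word. -/
noncomputable def zw (ρ σ J : X → ℤ → M →ₗ[F] M) (Om : M) : List ℕ → M
  | [] => Om
  | n :: w => cos ρ σ J 2 1 (-(n : ℤ)) (zw ρ σ J Om w)

lemma eps_zw (S : Setting ρ σ J 2 1 ε) {Om : M} (hε : ε Om = 1) :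
    ∀ w : List ℕ, (∀ n ∈ w, 0 < n) → ε (zw ρ σ J Om w) = (e0 w : F) := by
  intro w hw
  cases w with
  | nil => rw [zw, hε]; simp [e0]
  | cons n w =>
    rw [zw, S.eps_cos (by have := hw n (by simp); omega)]
    simp [e0]

theorem EE_val (h37 : (37 : F) = 0) (S : Setting ρ σ J 2 1 ε) {Om : M} (hε : ε Om = 1)
    (hOm : ∀ a m, 0 ≤ m → ρ a m Om = 0)
    (hinv : ∀ w : List ℕ, ∀ a m, 0 ≤ m → J a m (zw ρ σ J Om w) = 0) :
    ∀ w : List ℕ, (∀ n ∈ w, 0 < n) → ∀ l k : ℤ, EE ρ ε l k (zw ρ σ J Om w) = (val w l k : F) := by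
  intro w
  induction w with
  | nil =>
    intro _ l k
    rw [zw, val]
    by_cases hl : l ≤ 0
    · rw [if_pos hl, EE_nonpos S.vrho hl]; simp
    rw [if_neg hl]
    by_cases hk : k ≤ 0
    · rw [if_pos hk, EE_base S.two S.rho S.vrho l hk, hε, dl_cast]
      push_cast; ring
    · rw [if_neg hk, EE, quad_right_zero (fun a => hOm a k (by omega)), map_zero]
      simp
  | cons n w ih =>
    intro hw l k
    have hn : 0 < n := hw n (by simp)
    have hw' : ∀ n ∈ w, 0 < n := fun m hm => hw m (by simp [hm])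
    rw [val]
    by_cases hl : l ≤ 0
    · rw [if_pos hl, EE_nonpos S.vrho hl]; simp
    rw [if_neg hl]
    by_cases hk : k ≤ 0
    · rw [if_pos hk, EE_base S.two S.rho S.vrho l hk, eps_zw S hε (n :: w) hw]
      simp [e0]
    rw [if_neg hk]
    obtain ⟨l, rfl⟩ := Int.eq_ofNat_of_zero_le (show 0 ≤ l by omega)
    obtain ⟨k, rfl⟩ := Int.eq_ofNat_of_zero_le (show 0 ≤ k by omega)
    rw [zw, S.recur (hinv w) hn l k]
    have h10 : (2 * ((2 : F) + 1 + 2))⁻¹ = 26 :=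
      inv_eq_of_mul_eq_one_right (by linear_combination 7 * h37)
    rw [h10]
    have hsum : ∀ f : ℕ → ℤ, ((((List.range (n - 1)).map f).sum : ℤ) : F) =
        ∑ i ∈ Finset.range (n - 1), (f i : F) := by
      intro f
      have : ((List.range (n - 1)).map f).sum = ∑ i ∈ Finset.range (n - 1), f i := rfl
      rw [this]
      push_cast
      rfl
    simp only [ih hw', eps_zw S hε w hw', dl_cast]
    push_cast [hsum]
    congr 2
    refine Finset.sum_congr rfl fun i _ => ?_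
    ring

end

end Pool.Agent.Helper855.Gko
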