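import Pool.Agent.Helper855.GkoMain

/-!
Sanity checks: the quotient of each Verma module of the affine algebra by the sum of all proper
submodules is a simple module with nonzero highest weight vector; the operators `x(m)` on the Weyl
modules satisfy the relations of the affine algebra, and each vector is killed by all `x(m)` with
large `m`, so that the Sugawara sums are finite.
-/

set_option autoImplicit false
set_option linter.unusedSectionVars false

namespace Pool.Agent.Helper855.Gko.Aff

section functional2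

variable {k j : ℂ}

/-- The action of the free algebra. -/
noncomputable def brho0 (k j : ℂ) : FreeAlgebra ℂ AGen →ₐ[ℂ] Module.End ℂ (adata2 k j).Q :=
  FreeAlgebra.lift ℂ (adata2 k j).opQ

lemma brho0_gn (x : AGen) : brho0 k j (agn x) = (adata2 k j).opQ x := by
  rw [brho0, agn, FreeAlgebra.lift_ι_apply]

lemma brho0_cm (x y : AGen) : brho0 k j (cm (agn x) (agn y)) = (adata2 k j).opQL (abr x y) := by
  have h1 := (adata2 k j).opQ_comm x y
  have h2 : brho0 k j (cm (agn x) (agn y)) = (adata2 k j).opQ x * (adata2 k j).opQ y -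
      (adata2 k j).opQ y * (adata2 k j).opQ x := by
    simp only [cm, map_sub, map_mul, brho0_gn]
  rw [h2, h1]
  rfl

lemma brho0_rel {a b : FreeAlgebra ℂ AGen} (H : ARel a b) : brho0 k j a = brho0 k j b := by
  cases H with
  | xx a b m n =>
    rw [brho0_cm, abr_xx, map_add, Data.opQL, Finsupp.linearCombination_single,
      Finsupp.linearCombination_single, Int.cast_smul_eq_zsmul, Int.cast_smul_eq_zsmul, map_add,
      map_zsmul, map_zsmul, brho0_gn, brho0_gn]
  | cx g => rw [brho0_cm, abr_c, map_zero, map_zero]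
  | dx a m =>
    rw [brho0_cm, abr_dx, Data.opQL, Finsupp.linearCombination_single, Int.cast_smul_eq_zsmul,
      map_zsmul, brho0_gn]

/-- The action of the enveloping algebra. -/
noncomputable def brho (k j : ℂ) : UA →ₐ[ℂ] Module.End ℂ (adata2 k j).Q :=
  RingQuot.liftAlgHom ℂ ⟨brho0 k j, fun _ _ H => brho0_rel H⟩

lemma brho_toUA (x : FreeAlgebra ℂ AGen) : brho k j (toUA x) = brho0 k j x :=
  RingQuot.liftAlgHom_mkAlgHom_apply ℂ (brho0 k j) _ x

lemma brho_g (g : AGen) : brho k j (gU g) = (adata2 k j).opQ g := by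
  rw [gU, brho_toUA, brho0_gn]

lemma brho_vq {g : AGen} (hg : 0 ≤ deg2 g) :
    brho k j (gU g) (adata2 k j).vq = lam2 k j g • (adata2 k j).vq := by
  rw [brho_g]
  exact (adata2 k j).opQ_vq hg

lemma brho_zero {a : X} {m : ℤ} (hm : 0 < deg2 (.x a m)) :
    brho k j (xU a m) (adata2 k j).vq = 0 := by
  have := brho_vq (k := k) (j := j) (g := .x a m) hm.le
  rw [gU_x] at this
  rw [this]
  have h0 : lam2 k j (.x a m) = 0 := (adata2 k j).hlam _ hm
  rw [h0, zero_smul]

lemma brho_h : brho k j (xU .h 0) (adata2 k j).vq = j • (adata2 k j).vq := by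
  have := brho_vq (k := k) (j := j) (g := .x .h 0) (by simp [deg2, wt])
  rw [gU_x] at this
  rw [this]
  have h0 : lam2 k j (.x .h 0) = j := by
    change (if (0 : ℤ) = 0 then j else 0) = j
    rw [if_pos rfl]
  rw [h0]

lemma brho_c : brho k j cU (adata2 k j).vq = k • (adata2 k j).vq :=
  brho_vq (k := k) (j := j) (g := .c) (le_refl (0 : ℤ))

lemma brho_d : brho k j dU (adata2 k j).vq = 0 := by
  have := brho_vq (k := k) (j := j) (g := .d) (le_refl (0 : ℤ))
  rw [gU_d] at this
  rw [this]
  exact zero_smul _ _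

end functional2

variable (lam : Fin 2 → ℕ)

lemma brho_ideal {u : UA} (hu : u ∈ vermaIdeal lam) :
    brho ((lam 0 : ℂ) + lam 1) (lam 1) u (adata2 ((lam 0 : ℂ) + lam 1) (lam 1)).vq = 0 := by
  unfold vermaIdeal at hu
  induction hu using Submodule.span_induction with
  | mem y hy =>
    rcases hy with ((⟨a, m, hm, rfl⟩ | hy) | ⟨i, rfl⟩) | hy
    · refine brho_zero ?_
      have : -1 ≤ wt a := by rcases a <;> simp [wt]
      simp only [deg2]; omega
    · rw [Set.mem_singleton_iff.mp hy]; exact brho_zero (by simp [deg2, wt])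
    · change brho _ _ (h i - algebraMap ℂ UA (lam i)) _ = 0
      fin_cases i
      · change brho _ _ ((cU - xU .h 0) - algebraMap ℂ UA (lam 0)) _ = 0
        rw [map_sub, map_sub, LinearMap.sub_apply, LinearMap.sub_apply, brho_h, brho_c,
          AlgHom.commutes, Module.algebraMap_end_apply]
        module
      · change brho _ _ (xU .h 0 - algebraMap ℂ UA (lam 1)) _ = 0
        rw [map_sub, LinearMap.sub_apply, brho_h, AlgHom.commutes, Module.algebraMap_end_apply,
          sub_self]
    · rw [Set.mem_singleton_iff.mp hy]; exact brho_d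
  | zero => simp
  | add y z _ _ hy hz => rw [map_add, LinearMap.add_apply, hy, hz, add_zero]
  | smul a y _ hy => rw [smul_eq_mul, map_mul, Module.End.mul_apply, hy, map_zero]

/-- The highest weight functional on the Verma module. -/
noncomputable def epsB : Verma lam →ₗ[ℂ] ℂ :=
  show (UA ⧸ vermaIdeal lam) →ₗ[ℂ] ℂ from
  (((vermaIdeal lam).restrictScalars ℂ).liftQ
    ((adata2 ((lam 0 : ℂ) + lam 1) (lam 1)).epsQ ∘ₗ
      (LinearMap.applyₗ (adata2 ((lam 0 : ℂ) + lam 1) (lam 1)).vq) ∘ₗ
      (brho ((lam 0 : ℂ) + lam 1) (lam 1)).toLinearMap) (fun u hu => by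
    rw [LinearMap.mem_ker]
    change (adata2 ((lam 0 : ℂ) + lam 1) (lam 1)).epsQ
      (brho ((lam 0 : ℂ) + lam 1) (lam 1) u (adata2 ((lam 0 : ℂ) + lam 1) (lam 1)).vq) = 0
    rw [brho_ideal lam hu, map_zero])) ∘ₗ
    (Submodule.Quotient.restrictScalarsEquiv ℂ (vermaIdeal lam)).symm.toLinearMap

lemma epsB_smul_vac (u : UA) : epsB lam (u • vac lam) =
    (adata2 ((lam 0 : ℂ) + lam 1) (lam 1)).epsQ
      (brho ((lam 0 : ℂ) + lam 1) (lam 1) u (adata2 ((lam 0 : ℂ) + lam 1) (lam 1)).vq) := by
  rw [smul_vac]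
  rfl

lemma epsB_vac : epsB lam (vac lam) = 1 := by
  rw [← one_smul UA (vac lam), epsB_smul_vac, map_one]
  exact (adata2 ((lam 0 : ℂ) + lam 1) (lam 1)).epsQ_vq

lemma epsB_neg {g : AGen} (hg : deg2 g < 0) (x : Verma lam) : epsB lam (gU g • x) = 0 := by
  obtain ⟨u, rfl⟩ := vermaMk_surj lam x
  rw [← smul_vac, ← mul_smul, epsB_smul_vac, map_mul, Module.End.mul_apply, brho_g]
  exact (adata2 ((lam 0 : ℂ) + lam 1) (lam 1)).epsQ_neg hg _

lemma epsB_PV {n : ℤ} (hn : 0 < n) {x : Verma lam} (hx : x ∈ PV lam n) : epsB lam x = 0 := by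
  unfold PV Data.P at hx
  induction hx using Submodule.span_induction with
  | mem y hy =>
    obtain ⟨w, hw, hs, rfl⟩ := hy
    cases w with
    | nil =>
      rw [List.map_nil, List.sum_nil] at hs
      omega
    | cons g w =>
      rw [Data.wv_cons, opU_apply]
      exact epsB_neg lam (hw g (by simp)) _
  | zero => simp
  | add y z _ _ hy hz => rw [map_add, hy, hz, add_zero]
  | smul a y _ hy => rw [map_smul, hy, smul_zero]

lemma exists_projB (x : Verma lam) : ∃ u : UA, u • x = epsB lam x • vac lam := by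
  have key : ∃ n0, ∀ n ≥ n0, projU lam n • x = epsB lam x • vac lam := by
    have hx := mem_iSup_PV lam x
    induction hx using Submodule.iSup_induction' with
    | mem k y hy =>
      rcases lt_trichotomy k 0 with hk | rfl | hk
      · have : y = 0 := Data.P_neg _ hk hy
        subst this
        exact ⟨0, fun n _ => by simp⟩
      · obtain ⟨a, rfl⟩ := Data.P_zero _ hy
        refine ⟨0, fun n _ => ?_⟩
        obtain ⟨c, hc1, hc2, hc3⟩ := projU_PV lam hy n
        rw [hc1, hc2 rfl, one_smul, map_smul, epsB_vac, smul_eq_mul, mul_one]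
      · refine ⟨k.toNat, fun n hn => ?_⟩
        obtain ⟨c, hc1, hc2, hc3⟩ := projU_PV lam hy n
        rw [hc1, hc3 hk (by omega), zero_smul, epsB_PV lam hk hy, zero_smul]
    | zero => exact ⟨0, fun n _ => by simp⟩
    | add x y _ _ hx hy =>
      obtain ⟨n1, h1⟩ := hx
      obtain ⟨n2, h2⟩ := hy
      refine ⟨max n1 n2, fun n hn => ?_⟩
      rw [smul_add, h1 n (le_trans (le_max_left _ _) hn),
        h2 n (le_trans (le_max_right _ _) hn), map_add, add_smul]
  obtain ⟨n, hn⟩ := key
  exact ⟨projU lam n, hn n le_rfl⟩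

lemma epsB_proper {N : Submodule UA (Verma lam)} (hN : N ≠ ⊤) {x : Verma lam} (hx : x ∈ N) :
    epsB lam x = 0 := by
  by_contra h0
  apply hN
  obtain ⟨u, hu⟩ := exists_projB lam x
  have h1 := N.smul_mem u hx
  rw [hu] at h1
  have h2 : vac lam ∈ N := by
    have := N.smul_mem (algebraMap ℂ UA (epsB lam x)⁻¹) h1
    rw [algebraMap_smul', smul_smul, inv_mul_cancel₀ h0, one_smul] at this
    exact this
  rw [eq_top_iff]
  intro y _
  obtain ⟨u, rfl⟩ := vermaMk_surj lam y
  rw [← smul_vac]
  exact N.smul_mem u h2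

lemma epsB_maxSub {x : Verma lam} (hx : x ∈ maxSub lam) : epsB lam x = 0 := by
  unfold maxSub at hx
  rw [sSup_eq_iSup'] at hx
  induction hx using Submodule.iSup_induction' with
  | mem N y hy => exact epsB_proper lam N.2 hy
  | zero => exact map_zero _
  | add y z _ _ hy hz => rw [map_add, hy, hz, add_zero]

theorem maxSub_coatom : IsCoatom (maxSub lam) := by
  constructor
  · intro h
    have h1 : vac lam ∈ maxSub lam := by rw [h]; trivial
    have h2 := epsB_maxSub lam h1
    rw [epsB_vac] at h2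
    exact one_ne_zero h2
  · intro N hN
    by_contra h
    exact absurd (le_sSup (show N ∈ {N | N ≠ ⊤} from h)) (not_le_of_gt hN)

/-- The complex module is simple. -/
theorem lc_simple : IsSimpleModule UA (LC lam) :=
  isSimpleModule_iff_isCoatom.mpr (maxSub_coatom lam)

/-- Its highest weight vector is nonzero. -/
theorem vlam_ne_zero : vlam lam ≠ 0 := by
  intro h
  have h1 : vac lam ∈ maxSub lam := (Submodule.Quotient.mk_eq_zero _).mp h
  have h2 := epsB_maxSub lam h1
  rw [epsB_vac] at h2
  exact one_ne_zero h2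

end Pool.Agent.Helper855.Gko.Aff
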