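import Pool.Agent.Helper855.GkoDefs

/-!
Sugawara operators on smooth modules, and the recursion for a quadratic functional.
-/

set_option autoImplicit false
set_option linter.unusedSectionVars false

namespace Pool.Agent.Helper855.Gko

open Aff (X brk form)

section

variable {F : Type*} [Field F] {M : Type*} [AddCommGroup M] [Module F M]

variable (F) in
/-- `m δ_{m+n,0}`. -/
def dl (m n : ℤ) : F := if m + n = 0 then (m : F) else 0

/-- A smooth representation of level `K`. -/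
structure AffRep (ρ : X → ℤ → M →ₗ[F] M) (K : F) : Prop where
  comm : ∀ a b m n z, ρ a m (ρ b n z) = ρ b n (ρ a m z) +
    ((brk a b).1 : F) • ρ (brk a b).2 (m + n) z + ((form a b : F) * dl F m n * K) • z
  smooth : ∀ z, ∃ N : ℤ, ∀ m ≥ N, ∀ a, ρ a m z = 0

lemma quad_apply (ρ : X → ℤ → M →ₗ[F] M) (p q : ℤ) (z : M) :
    quad ρ p q z = ρ .e p (ρ .f q z) + ρ .f p (ρ .e q z) + (2⁻¹ : F) • ρ .h p (ρ .h q z) := rfl

/-- The normally ordered terms. -/
noncomputable def nterm (ρ : X → ℤ → M →ₗ[F] M) (N : ℤ) (z : M) (m : ℤ) : M :=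
  quad ρ (min m (N - m)) (max m (N - m)) z

lemma sug_eq (ρ : X → ℤ → M →ₗ[F] M) (κ : F) (N : ℤ) (z : M) :
    sug ρ κ N z = (2 * κ)⁻¹ • ∑ᶠ m : ℤ, nterm ρ N z m := rfl

lemma quad_right_zero {ρ : X → ℤ → M →ₗ[F] M} {p q : ℤ} {z : M} (hz : ∀ a, ρ a q z = 0) :
    quad ρ p q z = 0 := by
  rw [quad_apply, hz, hz, hz, map_zero, map_zero, map_zero]; simp

lemma nterm_zero {ρ : X → ℤ → M →ₗ[F] M} {N R m : ℤ} {z : M} (hz : ∀ m ≥ R, ∀ a, ρ a m z = 0)
    (hm : R ≤ m ∨ R ≤ N - m) : nterm ρ N z m = 0 := by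
  refine quad_right_zero (hz _ ?_)
  rcases hm with h | h
  · exact le_trans h (le_max_left _ _)
  · exact le_trans h (le_max_right _ _)

lemma nterm_finite {ρ : X → ℤ → M →ₗ[F] M} {N R : ℤ} {z : M} (hz : ∀ m ≥ R, ∀ a, ρ a m z = 0) :
    (Function.support (nterm ρ N z)).Finite := by
  refine (Set.finite_Ioo (N - R) R).subset ?_
  intro m hm
  rw [Function.mem_support] at hm
  by_contra h
  rw [Set.mem_Ioo, not_and_or, not_lt, not_lt] at h
  apply hm
  refine nterm_zero hz ?_
  rcases h with h | h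
  · right; omega
  · left; exact h

lemma AffRep.finite {ρ : X → ℤ → M →ₗ[F] M} {K : F} (H : AffRep ρ K) (N : ℤ) (z : M) :
    (Function.support (nterm ρ N z)).Finite := by
  obtain ⟨R, hR⟩ := H.smooth z
  exact nterm_finite hR

/-- Sums over windows. -/
lemma finsum_window {G : ℤ → M} {A : ℤ} {L : ℕ} (h : ∀ m, m < A ∨ A + L ≤ m → G m = 0) :
    ∑ᶠ m : ℤ, G m = ∑ i ∈ Finset.range L, G (A + i) := by
  rw [finsum_eq_sum_of_support_subset (s := (Finset.range L).image (fun i : ℕ => A + (i : ℤ)))]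
  · rw [Finset.sum_image]
    intro x _ y _ hxy
    simpa using hxy
  · intro m hm
    rw [Function.mem_support] at hm
    by_contra hc
    apply hm
    apply h
    by_contra h2
    push Not at h2
    apply hc
    rw [Finset.coe_image, Set.mem_image]
    refine ⟨(m - A).toNat, ?_, ?_⟩
    · rw [Finset.coe_range, Set.mem_Iio]; omega
    · omega

lemma telescope {g : ℤ → M} {A : ℤ} {L : ℕ} {c : M} (k : ℕ) (h0 : ∀ m, m ≤ A + k → g m = 0)
    (h1 : ∀ m, A + L ≤ m → g m = c) :
    ∑ i ∈ Finset.range L, (g (A + i + k) - g (A + i)) = (k : F) • c := by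
  induction k with
  | zero => simp
  | succ k ih =>
    have e1 : ∀ i ∈ Finset.range L, g (A + (i : ℤ) + ((k + 1 : ℕ) : ℤ)) - g (A + i) =
        (g (A + k + ((i + 1 : ℕ) : ℤ)) - g (A + k + (i : ℤ))) + (g (A + i + k) - g (A + i)) := by
      intro i _
      have a1 : A + (i : ℤ) + ((k + 1 : ℕ) : ℤ) = A + k + ((i + 1 : ℕ) : ℤ) := by push_cast; ring
      have a2 : A + k + (i : ℤ) = A + i + k := by ring
      rw [a1, a2]; abel
    rw [Finset.sum_congr rfl e1, Finset.sum_add_distrib,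
      Finset.sum_range_sub (fun i : ℕ => g (A + k + (i : ℤ))), ih (fun m hm => h0 m (by push_cast; omega)),
      h1 _ (by omega), h0 (A + k + ((0 : ℕ) : ℤ)) (by push_cast; omega)]
    push_cast
    module

lemma window_single {A : ℤ} {L : ℕ} {m0 : ℤ} (h1 : A ≤ m0) (h2 : m0 < A + L) (y : ℤ → M) :
    ∑ i ∈ Finset.range L, (if A + (i : ℤ) = m0 then y (A + i) else 0) = y m0 := by
  rw [Finset.sum_eq_single (m0 - A).toNat]
  · have e : A + ((m0 - A).toNat : ℤ) = m0 := by omega
    rw [if_pos e, e]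
  · intro i _ hi
    rw [if_neg]
    intro h
    apply hi
    omega
  · intro h
    exfalso
    apply h
    rw [Finset.mem_range]
    omega

variable {ρ : X → ℤ → M →ₗ[F] M} {K : F}

lemma AffRep.quad_comm (H : AffRep ρ K) {p q : ℤ} (hpq : p + q ≠ 0) (z : M) :
    quad ρ p q z = quad ρ q p z := by
  have d1 : dl F p q = 0 := if_neg hpq
  rw [quad_apply, quad_apply, H.comm .e .f p q, H.comm .f .e p q, H.comm .h .h p q, d1]
  simp only [brk, form]
  push_cast
  module

lemma AffRep.nterm_eq (H : AffRep ρ K) {N : ℤ} (hN : N ≠ 0) (z : M) (m : ℤ) :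
    nterm ρ N z m = quad ρ m (N - m) z := by
  rw [nterm]
  rcases le_total m (N - m) with h | h
  · rw [min_eq_left h, max_eq_right h]
  · rw [min_eq_right h, max_eq_left h, H.quad_comm]
    intro h0; apply hN; omega

/-- The antisymmetric combination. -/
noncomputable def theta (ρ : X → ℤ → M →ₗ[F] M) : X → ℤ → ℤ → M → M
  | .e, p, q, z => ρ .h p (ρ .e q z) - ρ .e p (ρ .h q z)
  | .h, p, q, z => (2 : F) • ρ .e p (ρ .f q z) - (2 : F) • ρ .f p (ρ .e q z)
  | .f, p, q, z => ρ .f p (ρ .h q z) - ρ .h p (ρ .f q z)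

lemma theta_zero {b : X} {p q : ℤ} {z : M} (hz : ∀ a, ρ a q z = 0) : theta ρ b p q z = 0 := by
  cases b <;> simp [theta, hz]

lemma AffRep.theta_swap (H : AffRep ρ K) {b : X} {p q : ℤ} {z : M} (hz : ∀ a, ρ a p z = 0) :
    theta ρ b p q z = (4 : F) • ρ b (p + q) z := by
  cases b
  · simp only [theta]
    rw [H.comm .h .e p q, H.comm .e .h p q, hz, hz]
    simp only [brk, form, map_zero]
    push_cast
    module
  · simp only [theta]
    rw [H.comm .e .f p q, H.comm .f .e p q, hz, hz]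
    simp only [brk, form, map_zero]
    push_cast
    module
  · simp only [theta]
    rw [H.comm .f .h p q, H.comm .h .f p q, hz, hz]
    simp only [brk, form, map_zero]
    push_cast
    module

lemma dl_smul (m n : ℤ) (z : M) : dl F m n • z = if m + n = 0 then (m : F) • z else 0 := by
  unfold dl
  split_ifs <;> simp

lemma AffRep.comm_quad (h2 : (2 : F) ≠ 0) (H : AffRep ρ K) (b : X) (k p q : ℤ) (z : M) :
    ρ b k (quad ρ p q z) = quad ρ p q (ρ b k z) +
      (theta ρ b (k + p) q z - theta ρ b p (k + q) z) +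
      (dl F k p * K) • ρ b q z + (dl F k q * K) • ρ b p z := by
  rw [quad_apply, quad_apply, map_add, map_add, map_smul]
  cases b
  · simp only [theta]
    rw [H.comm .e .e k p, H.comm .e .f k p, H.comm .e .h k p, H.comm .e .f k q, H.comm .e .e k q,
      H.comm .e .h k q]
    simp only [brk, form, map_add, map_smul, smul_add]
    push_cast
    match_scalars <;> field_simp <;> ring
  · simp only [theta]
    rw [H.comm .h .e k p, H.comm .h .f k p, H.comm .h .h k p, H.comm .h .f k q, H.comm .h .e k q,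
      H.comm .h .h k q]
    simp only [brk, form, map_add, map_smul, smul_add]
    push_cast
    match_scalars <;> field_simp <;> ring
  · simp only [theta]
    rw [H.comm .f .e k p, H.comm .f .f k p, H.comm .f .h k p, H.comm .f .f k q, H.comm .f .e k q,
      H.comm .f .h k q]
    simp only [brk, form, map_add, map_smul, smul_add]
    push_cast
    match_scalars <;> field_simp <;> ring

/-- The commutator of a current with the normally ordered sum. -/
lemma AffRep.comm_fs (h2 : (2 : F) ≠ 0) (H : AffRep ρ K) {N : ℤ} (hN : N ≠ 0) (b : X) (k : ℕ)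
    (z : M) : ρ b k (∑ᶠ m : ℤ, nterm ρ N z m) = (∑ᶠ m : ℤ, nterm ρ N (ρ b k z) m) +
      (2 * (k : F) * (K + 2)) • ρ b (N + k) z := by
  obtain ⟨R1, hR1⟩ := H.smooth z
  obtain ⟨R2, hR2⟩ := H.smooth (ρ b k z)
  obtain ⟨S, s1, s2, s3, s4, s5⟩ : ∃ S : ℕ, R1 ≤ S ∧ R2 ≤ S ∧ N ≤ S ∧ -N ≤ S ∧ (k : ℤ) < S :=
    ⟨R1.toNat + R2.toNat + N.natAbs + k + 1, by omega, by omega, by omega, by omega, by omega⟩
  set A : ℤ := -(2 * S) with hA
  set L : ℕ := 4 * S with hL
  have w1 : (∑ᶠ m : ℤ, nterm ρ N z m) = ∑ i ∈ Finset.range L, nterm ρ N z (A + i) := by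
    refine finsum_window fun m hm => nterm_zero hR1 ?_
    rcases hm with h | h
    · right; omega
    · left; omega
  have w2 : (∑ᶠ m : ℤ, nterm ρ N (ρ b k z) m) =
      ∑ i ∈ Finset.range L, nterm ρ N (ρ b k z) (A + i) := by
    refine finsum_window fun m hm => nterm_zero hR2 ?_
    rcases hm with h | h
    · right; omega
    · left; omega
  set g : ℤ → M := fun m => theta ρ b m (N + k - m) z with hg
  have t1 : ∑ i ∈ Finset.range L, (g (A + i + k) - g (A + i)) =
      (k : F) • ((4 : F) • ρ b (N + k) z) := by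
    refine telescope k ?_ ?_
    · intro m hm
      exact theta_zero (hR1 _ (by omega))
    · intro m hm
      rw [hg]
      beta_reduce
      rw [H.theta_swap (hR1 m (by omega))]
      congr 3
      ring
  have c1 : ∑ i ∈ Finset.range L, (if A + (i : ℤ) = -k then
      ((k : F) * K) • ρ b (N - (A + i)) z else 0) = ((k : F) * K) • ρ b (N + k) z := by
    have := window_single (A := A) (L := L) (m0 := -k) (by omega) (by omega)
      (fun m => ((k : F) * K) • ρ b (N - m) z)
    rw [this]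
    beta_reduce
    congr 3
    ring
  have c2 : ∑ i ∈ Finset.range L, (if A + (i : ℤ) = N + k then
      ((k : F) * K) • ρ b (A + i) z else 0) = ((k : F) * K) • ρ b (N + k) z :=
    window_single (A := A) (L := L) (m0 := N + k) (by omega) (by omega)
      (fun m => ((k : F) * K) • ρ b m z)
  rw [w1, w2, map_sum]
  have key : ∀ i ∈ Finset.range L, ρ b k (nterm ρ N z (A + i)) =
      nterm ρ N (ρ b k z) (A + i) + (g (A + i + k) - g (A + i)) +
      (if A + (i : ℤ) = -k then ((k : F) * K) • ρ b (N - (A + i)) z else 0) +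
      (if A + (i : ℤ) = N + k then ((k : F) * K) • ρ b (A + i) z else 0) := by
    intro i _
    rw [H.nterm_eq hN, H.nterm_eq hN, H.comm_quad h2]
    have e1 : theta ρ b ((k : ℤ) + (A + i)) (N - (A + i)) z = g (A + i + k) := by
      rw [hg]
      beta_reduce
      congr 1 <;> ring
    have e2 : theta ρ b (A + i) ((k : ℤ) + (N - (A + i))) z = g (A + i) := by
      rw [hg]
      beta_reduce
      congr 1
      ring
    rw [e1, e2]
    congr 2
    · by_cases h0 : A + (i : ℤ) = -k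
      · rw [if_pos h0, dl, if_pos (by omega)]
        push_cast; rfl
      · rw [if_neg h0, dl, if_neg (by omega), zero_mul, zero_smul]
    · by_cases h0 : A + (i : ℤ) = N + k
      · rw [if_pos h0, dl, if_pos (by omega)]
        push_cast; rfl
      · rw [if_neg h0, dl, if_neg (by omega), zero_mul, zero_smul]
  rw [Finset.sum_congr rfl key, Finset.sum_add_distrib, Finset.sum_add_distrib,
    Finset.sum_add_distrib, t1, c1, c2]
  module

/-- A linear map commuting with the currents passes through the normally ordered sum. -/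
lemma map_fs {ρ : X → ℤ → M →ₗ[F] M} (T : M →ₗ[F] M) (hT : ∀ a m z, T (ρ a m z) = ρ a m (T z))
    {N : ℤ} {z : M} (hf : (Function.support (nterm ρ N z)).Finite) :
    T (∑ᶠ m : ℤ, nterm ρ N z m) = ∑ᶠ m : ℤ, nterm ρ N (T z) m := by
  have h1 := AddMonoidHom.map_finsum (T : M →ₗ[F] M).toAddMonoidHom hf
  refine h1.trans ?_
  refine finsum_congr fun m => ?_
  change T (quad ρ _ _ z) = quad ρ _ _ (T z)
  rw [quad_apply, quad_apply, map_add, map_add, map_smul]
  simp only [hT]

/-- Functionals vanishing on the images of the lowering currents. -/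
structure Vac (ρ : X → ℤ → M →ₗ[F] M) (ε : M →ₗ[F] F) : Prop where
  kill : ∀ a m z, m ≤ 0 → ε (ρ a m z) = 0

lemma Vac.quad {ε : M →ₗ[F] F} (V : Vac ρ ε) {p q : ℤ} (hp : p ≤ 0) (z : M) :
    ε (quad ρ p q z) = 0 := by
  rw [quad_apply, map_add, map_add, map_smul, V.kill _ _ _ hp, V.kill _ _ _ hp, V.kill _ _ _ hp]
  simp

lemma Vac.fs {ε : M →ₗ[F] F} (V : Vac ρ ε) {N : ℤ} (hN : N < 0) {z : M}
    (hf : (Function.support (nterm ρ N z)).Finite) : ε (∑ᶠ m : ℤ, nterm ρ N z m) = 0 := by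
  have h1 := AddMonoidHom.map_finsum (ε : M →ₗ[F] F).toAddMonoidHom hf
  refine h1.trans ?_
  rw [finsum_eq_zero_of_forall_eq_zero]
  intro m
  change ε (Gko.quad ρ _ _ z) = 0
  refine V.quad ?_ z
  rcases le_total m (N - m) with h | h
  · rw [min_eq_left h]; omega
  · rw [min_eq_right h]; omega

/-- The quadratic functional. -/
noncomputable def EE (ρ : X → ℤ → M →ₗ[F] M) (ε : M →ₗ[F] F) (l k : ℤ) (z : M) : F :=
  ε (quad ρ l k z)

lemma EE_eq (ρ : X → ℤ → M →ₗ[F] M) (ε : M →ₗ[F] F) (l k : ℤ) (z : M) :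
    EE ρ ε l k z = ε (ρ .e l (ρ .f k z)) + ε (ρ .f l (ρ .e k z)) + 2⁻¹ * ε (ρ .h l (ρ .h k z)) := by
  rw [EE, quad_apply, map_add, map_add, map_smul, smul_eq_mul]

/-- Part one of the recursion: the Sugawara operator of the same currents. -/
lemma EE_fs (h2 : (2 : F) ≠ 0) (H : AffRep ρ K) {ε : M →ₗ[F] F} (V : Vac ρ ε) {N : ℤ} (hN : N < 0)
    (l k : ℕ) (z : M) : EE ρ ε l k (∑ᶠ m : ℤ, nterm ρ N z m) =
      (2 * (K + 2)) * (l * EE ρ ε (N + l) k z + k * EE ρ ε l (N + k) z) := by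
  have h1 : ∀ a b, ε (ρ a l (ρ b k (∑ᶠ m : ℤ, nterm ρ N z m))) =
      (2 * (K + 2)) * (l * ε (ρ a (N + l) (ρ b k z)) + k * ε (ρ a l (ρ b (N + k) z))) := by
    intro a b
    rw [H.comm_fs h2 hN.ne, map_add, map_smul, H.comm_fs h2 hN.ne, map_add, map_add, map_smul,
      map_smul, V.fs hN (H.finite _ _), smul_eq_mul, smul_eq_mul]
    ring
  rw [EE_eq, EE_eq, EE_eq, h1, h1, h1]
  ring

/-- Part two of the recursion: the Sugawara operator of commuting currents. -/
lemma EE_fs_comm {σ : X → ℤ → M →ₗ[F] M} {K' : F} (H : AffRep σ K')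
    (hc : ∀ a b m n z, ρ a m (σ b n z) = σ b n (ρ a m z)) {ε : M →ₗ[F] F} (V : Vac σ ε)
    {N : ℤ} (hN : N < 0) (l k : ℤ) (z : M) : EE ρ ε l k (∑ᶠ m : ℤ, nterm σ N z m) = 0 := by
  have h1 : ∀ a b, ε (ρ a l (ρ b k (∑ᶠ m : ℤ, nterm σ N z m))) = 0 := by
    intro a b
    rw [map_fs (ρ b k) (fun a' m z => hc b a' k m z) (H.finite _ _),
      map_fs (ρ a l) (fun a' m z => hc a a' l m z) (H.finite _ _), V.fs hN (H.finite _ _)]
  rw [EE_eq, h1, h1, h1]
  simp

/-- The base of the recursion. -/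
lemma EE_nonpos {ε : M →ₗ[F] F} (V : Vac ρ ε) {l : ℤ} (hl : l ≤ 0) (k : ℤ) (z : M) :
    EE ρ ε l k z = 0 := V.quad hl z

lemma EE_base (h2 : (2 : F) ≠ 0) (H : AffRep ρ K) {ε : M →ₗ[F] F} (V : Vac ρ ε) (l : ℤ) {k : ℤ}
    (hk : k ≤ 0) (z : M) : EE ρ ε l k z = 3 * K * dl F l k * ε z := by
  rw [EE_eq, H.comm .e .f l k, H.comm .f .e l k, H.comm .h .h l k]
  simp only [map_add, map_smul, V.kill _ _ _ hk, brk, form, smul_eq_mul]
  push_cast
  field_simp
  ring

/-- Part three of the recursion: two lowering currents of a larger algebra. -/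
lemma EE_quad (h2 : (2 : F) ≠ 0) {J : X → ℤ → M →ₗ[F] M}
    (hJ : ∀ a b m n z, ρ a m (J b n z) = J b n (ρ a m z) +
      ((brk a b).1 : F) • ρ (brk a b).2 (m + n) z + ((form a b : F) * dl F m n * K) • z)
    {ε : M →ₗ[F] F} (V : Vac J ε) (l k : ℤ) {p q : ℤ} (hp : p ≤ 0) (hq : q ≤ 0) (z : M) :
    EE ρ ε l k (quad J p q z) =
      4 * EE ρ ε (l + p + q) k z + 4 * EE ρ ε l (k + p + q) z - 4 * EE ρ ε (l + p) (k + q) z -
      4 * EE ρ ε (l + q) (k + p) z +
      3 * K ^ 2 * (dl F l p * dl F k q + dl F k p * dl F l q) * ε z := by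
  have P2 : ∀ x y u w, ε (ρ x l (ρ y k (J u p w))) =
      ((brk y u).1 : F) * ε (ρ x l (ρ (brk y u).2 (k + p) w)) +
      ((form y u : F) * dl F k p * K) * ε (ρ x l w) +
      ((brk x u).1 : F) * ε (ρ (brk x u).2 (l + p) (ρ y k w)) +
      ((form x u : F) * dl F l p * K) * ε (ρ y k w) := by
    intro x y u w
    rw [hJ y u k p w]
    simp only [map_add, map_smul]
    rw [hJ x u l p]
    simp only [map_add, map_smul, V.kill _ _ _ hp, smul_eq_mul]
    ring
  have Q2 : ∀ x y u w m n, ε (ρ x m (ρ y n (J u q w))) =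
      ((brk y u).1 : F) * ε (ρ x m (ρ (brk y u).2 (n + q) w)) +
      ((form y u : F) * dl F n q * K) * ε (ρ x m w) +
      ((brk x u).1 : F) * ε (ρ (brk x u).2 (m + q) (ρ y n w)) +
      ((form x u : F) * dl F m q * K) * ε (ρ y n w) := by
    intro x y u w m n
    rw [hJ y u n q w]
    simp only [map_add, map_smul]
    rw [hJ x u m q]
    simp only [map_add, map_smul, V.kill _ _ _ hq, smul_eq_mul]
    ring
  have Q1 : ∀ x u w m, ε (ρ x m (J u q w)) =
      ((brk x u).1 : F) * ε (ρ (brk x u).2 (m + q) w) +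
      ((form x u : F) * dl F m q * K) * ε w := by
    intro x u w m
    rw [hJ x u m q, map_add, map_add, map_smul, map_smul, V.kill _ _ _ hq]
    simp only [smul_eq_mul]
    ring
  simp only [EE_eq]
  rw [quad_apply]
  simp only [map_add, map_smul, smul_eq_mul, P2, Q2, Q1, brk, form]
  push_cast
  field_simp
  ring

end

end Pool.Agent.Helper855.Gko
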