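import Pool.Agent.Helper855.KzGen

/-!
The stabiliser of a basis vector, generation by transvections, perfectness.
-/

set_option autoImplicit false

namespace Pool.Agent.Helper855.Kz

open Matrix

variable {F : Type} [Field F] (D : Dat F)

/-- The block matrix. -/
def Dat.bm (a b : F) : Matrix (Fin 3) (Fin 3) F :=
  !![a, b, 0; D.s b, D.s a, 0; 0, 0, 1]

lemma bm_det {a b : F} (h : a * D.s a + b * D.s b = 1) : (D.bm a b).det = 1 := by
  rw [Matrix.det_fin_three]
  simp only [Dat.bm, Matrix.of_apply, Matrix.cons_val_zero, Matrix.cons_val_one, Matrix.cons_val,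
    Matrix.cons_val']
  linear_combination h - (b * D.s b) * D.two

lemma bm_mulVec (a b : F) (v : Fin 3 → F) :
    D.bm a b *ᵥ v = ![a * v 0 + b * v 1, D.s b * v 0 + D.s a * v 1, v 2] := by
  funext i
  fin_cases i <;>
    simp [Dat.bm, Matrix.mulVec, dotProduct, Fin.sum_univ_three]

/-- The elements of the stabiliser of the last basis vector. -/
def Dat.blk (a b : F) (h : a * D.s a + b * D.s b = 1) : D.SU :=
  ⟨sl (D.bm a b) (bm_det D h), by
    intro v w
    rw [mx_sl, bm_mulVec, bm_mulVec, h_def, h_def]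
    simp only [Matrix.cons_val_zero, Matrix.cons_val_one, Matrix.cons_val, map_add, map_mul, D.inv]
    linear_combination (v 0 * D.s (w 0) + v 1 * D.s (w 1)) * h +
      (a * D.s b * v 0 * D.s (w 1) + b * D.s a * v 1 * D.s (w 0)) * D.two⟩

lemma a_blk {a b : F} (h : a * D.s a + b * D.s b = 1) (v : Fin 3 → F) :
    D.a (D.blk a b h) v = ![a * v 0 + b * v 1, D.s b * v 0 + D.s a * v 1, v 2] :=
  bm_mulVec D a b v

lemma blk_mem {a b : F} (h : a * D.s a + b * D.s b = 1) : D.blk a b h ∈ D.St (E F 2) := by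
  rw [mem_St, a_blk]
  funext i
  fin_cases i <;> simp [E]

lemma blk_congr {a b a' b' : F} (h : a * D.s a + b * D.s b = 1) (h' : a' * D.s a' + b' * D.s b' = 1)
    (ha : a = a') (hb : b = b') : D.blk a b h = D.blk a' b' h' := by
  subst ha hb; rfl

lemma blk_mul_norm {a b c d : F} (h : a * D.s a + b * D.s b = 1)
    (h' : c * D.s c + d * D.s d = 1) :
    (a * c + b * D.s d) * D.s (a * c + b * D.s d) +
      (a * d + b * D.s c) * D.s (a * d + b * D.s c) = 1 := by
  simp only [map_add, map_mul, D.inv]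
  linear_combination h * (c * D.s c + d * D.s d) + h' +
    (a * c * D.s b * d + b * D.s d * D.s a * D.s c) * D.two

lemma blk_mul {a b c d : F} (h : a * D.s a + b * D.s b = 1)
    (h' : c * D.s c + d * D.s d = 1) :
    D.blk a b h * D.blk c d h' = D.blk (a * c + b * D.s d) (a * d + b * D.s c)
      (blk_mul_norm D h h') := by
  apply a_ext' D
  intro v
  rw [a_mul, a_blk, a_blk, a_blk]
  funext i
  fin_cases i <;> simp [D.inv] <;> ring

lemma stab_blk {g : D.SU} (hg : g ∈ D.St (E F 2)) :
    ∃ (a b : F) (h : a * D.s a + b * D.s b = 1), g = D.blk a b h := by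
  have h02 : (0 : Fin 3) ≠ 2 := by decide
  rw [mem_St] at hg
  obtain ⟨v, hv⟩ : ∃ v, v = D.a g (E F 0) := ⟨_, rfl⟩
  have h2 : v 2 = 0 := by
    calc v 2 = D.h v (E F 2) := (h_E D v 2).symm
      _ = D.h (D.a g (E F 0)) (D.a g (E F 2)) := by rw [hv, hg]
      _ = 0 := by rw [a_h, E_ne D h02]
  have h1 : D.h v v = 1 := by rw [hv, a_h, E_self]
  have hn : v 0 * D.s (v 0) + D.s (v 1) * D.s (D.s (v 1)) = 1 := by
    rw [h_def, h2] at h1
    rw [D.inv]
    linear_combination h1
  refine ⟨v 0, D.s (v 1), hn, ?_⟩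
  apply witt_unique D (x := E F 0) (y := E F 2)
  · rw [E_self, E_self, E_ne D h02]; ring
  · rw [← hv, a_blk]
    funext i
    fin_cases i <;> simp [E, D.inv, h2]
  · rw [hg, a_blk]
    funext i
    fin_cases i <;> simp [E]

/-- The subgroup generated by the transvections. -/
def Dat.TV : Subgroup D.SU := Subgroup.closure {g | ∃ u hu, g = D.t u hu}

lemma t_mem (u : Fin 3 → F) (hu : D.h u u = 0) : D.t u hu ∈ D.TV :=
  Subgroup.subset_closure ⟨u, hu, rfl⟩

lemma fix_sq {x y : F} (hx : D.s x = x) (h : y * y = x) : D.s y = y := by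
  apply sq_inj D
  rw [← map_mul, h, hx]

/-- The blocks with fixed first entry are transvections. -/
lemma blk_mem_TV {a b : F} (h : a * D.s a + b * D.s b = 1) (ha : D.s a = a) :
    D.blk a b h ∈ D.TV := by
  by_cases h1 : a = 1
  · have hb : b = 0 := by
      apply norm_zero D
      rw [h1, map_one] at h
      linear_combination h
    have : D.blk a b h = 1 := by
      apply a_ext' D
      intro v
      rw [a_blk, a_one, h1, hb]
      funext i
      fin_cases i <;> simp
    rw [this]
    exact D.TV.one_mem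
  · obtain ⟨p, hp⟩ := D.nsurj (1 + a) (by rw [map_add, map_one, ha])
    have h1a : 1 + a ≠ 0 := by rw [add_comm]; exact add_eq_one_ne D h1
    have hp0 : p ≠ 0 := by
      rintro rfl
      rw [zero_mul] at hp
      exact h1a hp.symm
    have hsp0 : D.s p ≠ 0 := (map_ne_zero D.s).mpr hp0
    obtain ⟨r, hr⟩ : ∃ r, r = D.s b / D.s p := ⟨_, rfl⟩
    have hr1 : p * D.s r = b := by
      rw [hr, map_div₀, D.inv, D.inv]; field_simp
    have hr2 : r * D.s p = D.s b := by
      rw [hr]; field_simp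
    have hr3 : r * D.s r = 1 + a := by
      apply mul_left_cancel₀ h1a
      rw [ha] at h
      have e : (1 + a) * (r * D.s r) = b * D.s b := by
        calc (1 + a) * (r * D.s r) = (p * D.s p) * (r * D.s r) := by rw [hp]
          _ = (p * D.s r) * (r * D.s p) := by ring
          _ = b * D.s b := by rw [hr1, hr2]
      rw [e]
      linear_combination h - (1 + a + a * a) * 0 * D.two - (a + a * a) * D.two
    have hu : D.h ![p, r, 0] ![p, r, 0] = 0 := by
      rw [h_def]
      simp only [Matrix.cons_val_zero, Matrix.cons_val_one, Matrix.cons_val, map_zero]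
      linear_combination hp + hr3 + (1 + a) * D.two
    have : D.blk a b h = D.t ![p, r, 0] hu := by
      apply a_ext' D
      intro v
      rw [a_blk, a_t, h_def]
      funext i
      fin_cases i
      · simp
        linear_combination (-(v 0)) * hp - v 1 * hr1 + 0 * D.two - v 0 * D.two
      · simp
        linear_combination (-(v 1)) * hr3 - v 0 * hr2 + v 1 * ha - v 1 * D.two
      · simp
    rw [this]
    exact t_mem D _ hu

lemma blk_all_TV {a b : F} (h : a * D.s a + b * D.s b = 1) : D.blk a b h ∈ D.TV := by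
  by_cases ha : a = 0
  · exact blk_mem_TV D h (by rw [ha, map_zero])
  have hsa : D.s a ≠ 0 := (map_ne_zero D.s).mpr ha
  obtain ⟨x, hx⟩ := D.sqr (a / D.s a)
  have hx0 : x ≠ 0 := by
    rintro rfl
    rw [zero_mul] at hx
    exact div_ne_zero ha hsa hx.symm
  have hNx : x * D.s x = 1 := by
    apply sq_inj D
    have : (x * D.s x) * (x * D.s x) = (x * x) * D.s (x * x) := by rw [map_mul]; ring
    rw [this, hx, map_div₀, D.inv]
    field_simp
  have hsx0 : D.s x ≠ 0 := (map_ne_zero D.s).mpr hx0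
  have hsx : D.s x = x⁻¹ := by
    apply mul_left_cancel₀ hx0
    rw [hNx, mul_inv_cancel₀ hx0]
  have ha0 : D.s (a / x) = a / x := by
    rw [map_div₀, hsx, div_inv_eq_mul]
    rw [eq_div_iff hx0]
    have : D.s a * x * x = D.s a * (x * x) := by ring
    rw [this, hx]
    field_simp
  have e1 : x * D.s x + 0 * D.s 0 = 1 := by rw [zero_mul, add_zero]; exact hNx
  have e2 : (0 : F) * D.s 0 + x * D.s x = 1 := by rw [zero_mul, zero_add]; exact hNx
  have e3 : (0 : F) * D.s 0 + 1 * D.s 1 = 1 := by rw [map_one]; ring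
  have e4 : (a / x) * D.s (a / x) + (b / x) * D.s (b / x) = 1 := by
    rw [map_div₀, map_div₀, hsx]
    have : a / x * (D.s a / x⁻¹) + b / x * (D.s b / x⁻¹) = a * D.s a + b * D.s b := by
      field_simp
    rw [this, h]
  have f1 : D.blk 0 x e2 * D.blk 0 1 e3 = D.blk x 0 e1 := by
    rw [blk_mul]
    apply blk_congr
    · rw [map_one]; ring
    · rw [map_zero]; ring
  have f2 : D.blk x 0 e1 * D.blk (a / x) (b / x) e4 = D.blk a b h := by
    rw [blk_mul]
    apply blk_congr
    · field_simp; ring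
    · field_simp; ring
  rw [← f2, ← f1]
  exact D.TV.mul_mem (D.TV.mul_mem (blk_mem_TV D e2 (map_zero _)) (blk_mem_TV D e3 (map_zero _)))
    (blk_mem_TV D e4 ha0)

/-- The transvections generate. -/
theorem TV_top : D.TV = ⊤ := by
  have h2 : D.St (E F 2) ≤ D.TV := by
    intro g hg
    obtain ⟨a, b, h, rfl⟩ := stab_blk D hg
    exact blk_all_TV D h
  have hn : ∀ g k : D.SU, k ∈ D.TV → g * k * g⁻¹ ∈ D.TV := by
    intro g k hk
    refine Subgroup.closure_induction (p := fun k _ => g * k * g⁻¹ ∈ D.TV) ?_ ?_ ?_ ?_ hk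
    · rintro _ ⟨u, hu, rfl⟩
      rw [t_conj]; exact t_mem D _ _
    · simp [D.TV.one_mem]
    · intro x y _ _ hx hy
      have : g * (x * y) * g⁻¹ = (g * x * g⁻¹) * (g * y * g⁻¹) := by group
      rw [this]; exact D.TV.mul_mem hx hy
    · intro x _ hx
      have : g * x⁻¹ * g⁻¹ = (g * x * g⁻¹)⁻¹ := by group
      rw [this]; exact D.TV.inv_mem hx
  have h02 : (0 : Fin 3) ≠ 2 := by decide
  obtain ⟨w, w0, -⟩ := witt D (x := E F 2) (y := E F 0) (x' := E F 0) (y' := E F 2)
    (by rw [E_self, E_self, E_ne D h02.symm]; ring) (by rw [E_self, E_self])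
    (by rw [E_ne D h02, E_ne D h02.symm]) (by rw [E_self, E_self])
  apply gen02 D _ _ h2
  intro g hg
  have h3 : w⁻¹ * g * w ∈ D.St (E F 2) := by
    rw [mem_St] at hg ⊢
    rw [a_mul, a_mul, w0, hg, ← w0, a_inv_a]
  have h4 := hn w _ (h2 h3)
  simpa [mul_assoc] using h4

lemma t_zero_of (u : Fin 3 → F) (hu : D.h u u = 0) (h0 : u = 0) : D.t u hu = 1 := by
  apply a_ext' D
  intro v
  rw [a_t, a_one, h0]
  simp

/-- Transvections are commutators. -/
lemma t_comm (u : Fin 3 → F) (hu : D.h u u = 0) : D.t u hu ∈ commutator D.SU := by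
  by_cases h0 : u = 0
  · rw [t_zero_of D u hu h0]; exact Subgroup.one_mem _
  obtain ⟨l, hl, hl0, hl1⟩ := D.lam
  have hl2 : 1 + l ≠ 0 := by rw [add_comm]; exact add_eq_one_ne D hl1
  obtain ⟨v, hv⟩ : ∃ v, v = (1 + l)⁻¹ • u := ⟨_, rfl⟩
  have huv : u = (1 + l) • v := by rw [hv, smul_smul, mul_inv_cancel₀ hl2, one_smul]
  have hvv : D.h v v = 0 := by rw [hv, h_smul_left, h_smul_right, hu]; ring
  have hv0 : v ≠ 0 := by rintro rfl; rw [smul_zero] at huv; exact h0 huv
  obtain ⟨i, hi⟩ : ∃ i, v i ≠ 0 := by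
    by_contra h
    push Not at h
    exact hv0 (funext h)
  obtain ⟨c, d, h1, h2⟩ := partner D hvv hi
  obtain ⟨g, g1, -⟩ := hyp_scale D hvv h2 h1 hl hl0
  have : D.t u hu = g * D.t v hvv * g⁻¹ * (D.t v hvv)⁻¹ := by
    rw [t_conj, t_inv]
    apply a_ext' D
    intro w
    rw [a_mul, a_t, a_t, a_t, g1, h_add_left, h_smul_left, h_smul_right, h_smul_right, hvv, huv,
      h_smul_right, map_add, map_one, hl]
    funext i
    simp only [Pi.add_apply, Pi.smul_apply, smul_eq_mul]
    linear_combination (D.h w v * v i * l) * D.two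
  rw [this]
  exact Subgroup.commutator_mem_commutator (Subgroup.mem_top g) (Subgroup.mem_top _)

theorem perfect : commutator D.SU = ⊤ := by
  rw [eq_top_iff, ← TV_top D]
  unfold Dat.TV
  rw [Subgroup.closure_le]
  rintro _ ⟨u, hu, rfl⟩
  exact t_comm D u hu

end Pool.Agent.Helper855.Kz
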