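import Pool.Agent.Helper855.KzForm

/-!
The finite fields with `2 ^ (2 m)` elements.
-/

set_option autoImplicit false

namespace Pool.Agent.Helper855.Kz

open Polynomial

variable {F : Type} [Field F] [Fintype F]

/-- A generator of the multiplicative group. -/
lemma exists_gen (q : ℕ) (hq : Fintype.card F = q * q) (hq2 : 2 ≤ q) :
    ∃ g : F, g ≠ 0 ∧ (∀ x : F, x ≠ 0 → ∃ n : ℕ, x = g ^ n) ∧
      ∀ n : ℕ, g ^ n = 1 ↔ (q - 1) * (q + 1) ∣ n := by
  classical
  obtain ⟨g, hg⟩ := IsCyclic.exists_generator (α := Fˣ)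
  refine ⟨g, g.ne_zero, ?_, ?_⟩
  · intro x hx
    have h1 := hg (Units.mk0 x hx)
    rw [← mem_powers_iff_mem_zpowers] at h1
    obtain ⟨n, hn⟩ := h1
    refine ⟨n, ?_⟩
    have h2 := congrArg Units.val hn
    simp only [Units.val_mk0] at h2
    rw [← h2]
    simp
  · intro n
    have h1 : orderOf g = q * q - 1 := by
      rw [orderOf_eq_card_of_forall_mem_zpowers hg, Nat.card_eq_fintype_card,
        Fintype.card_units, hq]
    have h2 : (q - 1) * (q + 1) = q * q - 1 := by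
      obtain ⟨k, rfl⟩ : ∃ k, q = k + 1 := ⟨q - 1, by omega⟩
      simp only [Nat.add_sub_cancel]
      have : (k + 1) * (k + 1) = k * (k + 1 + 1) + 1 := by ring
      omega
    rw [h2, ← h1, orderOf_dvd_iff_pow_eq_one]
    rw [← Units.val_pow_eq_pow_val, Units.val_eq_one]

lemma card_pow_le (n : ℕ) (hn : 0 < n) (d : F) [DecidableEq F] :
    (Finset.univ.filter (fun x : F => x ^ n = d)).card ≤ n := by
  have h1 : Finset.univ.filter (fun x : F => x ^ n = d) ⊆ (nthRoots n d).toFinset := by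
    intro x hx
    rw [Finset.mem_filter] at hx
    rw [Multiset.mem_toFinset, mem_nthRoots hn]
    exact hx.2
  exact (Finset.card_le_card h1).trans ((Multiset.toFinset_card_le _).trans (card_nthRoots n d))

lemma pow_fixed (m : ℕ) (hc : Fintype.card F = 2 ^ m * 2 ^ m) (x : F) :
    (x ^ 2 ^ m) ^ 2 ^ m = x := by
  rw [← pow_mul, ← hc, FiniteField.pow_card]

/-- The norm equation. -/
lemma norm_eq (m : ℕ) (hm : 2 ≤ m) (hc : Fintype.card F = 2 ^ m * 2 ^ m) {x : F}
    (hx : x ^ 2 ^ m = x) : ∃ b : F, b * b ^ 2 ^ m = x := by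
  have hq : 2 ≤ 2 ^ m := by
    calc 2 ≤ 2 ^ 2 := by norm_num
      _ ≤ 2 ^ m := Nat.pow_le_pow_right (by norm_num) hm
  obtain ⟨g, hg0, hg1, hg2⟩ := exists_gen (F := F) (2 ^ m) hc hq
  by_cases h0 : x = 0
  · exact ⟨0, by rw [h0, zero_mul]⟩
  obtain ⟨n, rfl⟩ := hg1 x h0
  have h1 : g ^ (n * (2 ^ m - 1)) = 1 := by
    apply mul_left_cancel₀ h0
    rw [mul_one, ← pow_add]
    have : n + n * (2 ^ m - 1) = n * 2 ^ m := by
      obtain ⟨k, hk⟩ : ∃ k, 2 ^ m = k + 1 := ⟨2 ^ m - 1, by omega⟩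
      rw [hk, Nat.add_sub_cancel]; ring
    rw [this, pow_mul, hx]
  rw [hg2] at h1
  have h2 : (2 ^ m + 1) ∣ n := by
    rw [mul_comm n] at h1
    exact Nat.dvd_of_mul_dvd_mul_left (by omega) h1
  obtain ⟨j, rfl⟩ := h2
  refine ⟨g ^ j, ?_⟩
  rw [← pow_succ', ← pow_mul]
  congr 1
  ring

/-- The number of solutions of the norm equation. -/
lemma card_norm (m : ℕ) (hm : 2 ≤ m) (hc : Fintype.card F = 2 ^ m * 2 ^ m) [DecidableEq F] {x : F}
    (hx : x ^ 2 ^ m = x) (h0 : x ≠ 0) :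
    (Finset.univ.filter (fun b : F => b * b ^ 2 ^ m = x)).card = 2 ^ m + 1 := by
  have hq : 2 ≤ 2 ^ m := by
    calc 2 ≤ 2 ^ 2 := by norm_num
      _ ≤ 2 ^ m := Nat.pow_le_pow_right (by norm_num) hm
  apply le_antisymm
  · have := card_pow_le (2 ^ m + 1) (by omega) x
    simpa only [pow_succ'] using this
  · obtain ⟨g, hg0, hg1, hg2⟩ := exists_gen (F := F) (2 ^ m) hc hq
    obtain ⟨b, hb⟩ := norm_eq m hm hc hx
    have hb0 : b ≠ 0 := by
      rintro rfl
      rw [zero_mul] at hb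
      exact h0 hb.symm
    have hinj : Set.InjOn (fun i : ℕ => b * (g ^ (2 ^ m - 1)) ^ i)
        (Finset.range (2 ^ m + 1) : Set ℕ) := by
      intro i hi j hj hij
      rw [Finset.coe_range, Set.mem_Iio] at hi hj
      have h1 : (g ^ (2 ^ m - 1)) ^ i = (g ^ (2 ^ m - 1)) ^ j := mul_left_cancel₀ hb0 hij
      wlog hle : i ≤ j with H
      · exact (H m hm hc hx h0 hq g hg0 hg1 hg2 b hb hb0 hj hi hij.symm h1.symm (by omega)).symm
      obtain ⟨d, rfl⟩ := Nat.exists_eq_add_of_le hle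
      rw [pow_add] at h1
      have h2 : (g ^ (2 ^ m - 1)) ^ d = 1 := by
        have h3 : (g ^ (2 ^ m - 1)) ^ i ≠ 0 := pow_ne_zero _ (pow_ne_zero _ hg0)
        apply mul_left_cancel₀ h3
        rw [← h1, mul_one]
      rw [← pow_mul, hg2] at h2
      have h4 : (2 ^ m + 1) ∣ d := Nat.dvd_of_mul_dvd_mul_left (by omega) h2
      have h5 : d = 0 := Nat.eq_zero_of_dvd_of_lt h4 (by omega)
      omega
    have h6 := Finset.card_image_of_injOn hinj
    rw [Finset.card_range] at h6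
    rw [← h6]
    apply Finset.card_le_card
    intro y hy
    rw [Finset.mem_image] at hy
    obtain ⟨i, -, rfl⟩ := hy
    rw [Finset.mem_filter]
    refine ⟨Finset.mem_univ _, ?_⟩
    have h7 : (g ^ (2 ^ m - 1)) ^ i * ((g ^ (2 ^ m - 1)) ^ i) ^ 2 ^ m = 1 := by
      rw [← pow_succ', ← pow_mul, ← pow_mul, hg2]
      exact ⟨i, by ring⟩
    rw [mul_pow]
    calc b * (g ^ (2 ^ m - 1)) ^ i * (b ^ 2 ^ m * ((g ^ (2 ^ m - 1)) ^ i) ^ 2 ^ m) =
        (b * b ^ 2 ^ m) * ((g ^ (2 ^ m - 1)) ^ i * ((g ^ (2 ^ m - 1)) ^ i) ^ 2 ^ m) := by ring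
      _ = x := by rw [hb, h7, mul_one]

/-- The number of fixed elements. -/
lemma card_fixed (m : ℕ) (hm : 2 ≤ m) [DecidableEq F] :
    (Finset.univ.filter (fun b : F => b ^ 2 ^ m = b)).card ≤ 2 ^ m := by
  have hq : 2 ≤ 2 ^ m := by
    calc 2 ≤ 2 ^ 2 := by norm_num
      _ ≤ 2 ^ m := Nat.pow_le_pow_right (by norm_num) hm
  have h1 : Finset.univ.filter (fun b : F => b ^ 2 ^ m = b) ⊆
      insert 0 (Finset.univ.filter (fun b : F => b ^ (2 ^ m - 1) = 1)) := by
    intro x hx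
    rw [Finset.mem_filter] at hx
    rw [Finset.mem_insert, Finset.mem_filter]
    by_cases h0 : x = 0
    · left; exact h0
    · right
      refine ⟨Finset.mem_univ _, ?_⟩
      apply mul_left_cancel₀ h0
      rw [← pow_succ', mul_one]
      have : 2 ^ m - 1 + 1 = 2 ^ m := by omega
      rw [this]; exact hx.2
  have h2 := Finset.card_le_card h1
  have h3 := Finset.card_insert_le 0 (Finset.univ.filter (fun b : F => b ^ (2 ^ m - 1) = 1))
  have h4 := card_pow_le (2 ^ m - 1) (by omega) (1 : F)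
  omega

/-- The datum of a finite field. -/
def mkDat (m : ℕ) (hm : 2 ≤ m) (hc : Fintype.card F = 2 ^ m * 2 ^ m) [CharP F 2] : Dat F where
  s := iterateFrobenius F 2 m
  inv := by
    intro x
    rw [iterateFrobenius_def, iterateFrobenius_def]
    exact pow_fixed m hc x
  two := CharTwo.two_eq_zero
  nsurj := by
    intro x hx
    rw [iterateFrobenius_def] at hx
    obtain ⟨b, hb⟩ := norm_eq m hm hc hx
    exact ⟨b, by rw [iterateFrobenius_def]; exact hb⟩
  tr := by
    have hq : 4 ≤ 2 ^ m := by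
      calc 4 = 2 ^ 2 := by norm_num
        _ ≤ 2 ^ m := Nat.pow_le_pow_right (by norm_num) hm
    obtain ⟨g, hg0, hg1, hg2⟩ := exists_gen (F := F) (2 ^ m) hc (by omega)
    have h1 : g + iterateFrobenius F 2 m g ≠ 0 := by
      intro h
      rw [iterateFrobenius_def] at h
      have h2 : g ^ 2 ^ m = g := by
        have h3 : g ^ 2 ^ m = -g := by linear_combination h
        rw [h3, CharTwo.neg_eq]
      have h4 : g ^ (2 ^ m - 1) = 1 := by
        apply mul_left_cancel₀ hg0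
        rw [← pow_succ', mul_one]
        have : 2 ^ m - 1 + 1 = 2 ^ m := by omega
        rw [this]; exact h2
      rw [hg2] at h4
      have := Nat.le_of_dvd (by omega) h4
      nlinarith [Nat.sub_add_cancel (show 1 ≤ 2 ^ m by omega)]
    refine ⟨g / (g + iterateFrobenius F 2 m g), ?_⟩
    have h5 : iterateFrobenius F 2 m (iterateFrobenius F 2 m g) = g := by
      rw [iterateFrobenius_def, iterateFrobenius_def]
      exact pow_fixed m hc g
    rw [map_div₀, map_add, h5, add_comm (iterateFrobenius F 2 m g) g, ← add_div, div_self h1]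
  lam := by
    have hq : 4 ≤ 2 ^ m := by
      calc 4 = 2 ^ 2 := by norm_num
        _ ≤ 2 ^ m := Nat.pow_le_pow_right (by norm_num) hm
    obtain ⟨g, hg0, hg1, hg2⟩ := exists_gen (F := F) (2 ^ m) hc (by omega)
    refine ⟨g ^ (2 ^ m + 1), ?_, pow_ne_zero _ hg0, ?_⟩
    · rw [iterateFrobenius_def, pow_succ, mul_pow, pow_fixed m hc g, mul_comm]
    · intro h
      rw [hg2] at h
      have := Nat.le_of_dvd (by omega) h
      nlinarith [Nat.sub_add_cancel (show 1 ≤ 2 ^ m by omega)]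
  sqr := by
    intro x
    refine ⟨x ^ (2 ^ (2 * m - 1)), ?_⟩
    rw [← pow_add, ← two_mul, ← pow_succ']
    have h1 : 2 * m - 1 + 1 = m + m := by omega
    rw [h1, pow_add, ← hc, FiniteField.pow_card]

lemma mkDat_s (m : ℕ) (hm : 2 ≤ m) (hc : Fintype.card F = 2 ^ m * 2 ^ m) [CharP F 2] (x : F) :
    (mkDat m hm hc).s x = x ^ 2 ^ m := by
  change iterateFrobenius F 2 m x = _
  rw [iterateFrobenius_def]

end Pool.Agent.Helper855.Kz
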