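import Mathlib

/-!
Three-dimensional special unitary groups in characteristic two.
-/

set_option autoImplicit false

namespace Pool.Agent.Helper855.Kz

open Matrix

/-- A field of characteristic two with an involution, whose norm and trace are surjective. -/
structure Dat (F : Type) [Field F] where
  s : F →+* F
  inv : ∀ x, s (s x) = x
  two : (2 : F) = 0
  nsurj : ∀ x, s x = x → ∃ b, b * s b = x
  tr : ∃ t, t + s t = 1
  lam : ∃ l, s l = l ∧ l ≠ 0 ∧ l ≠ 1
  sqr : ∀ x : F, ∃ y : F, y * y = x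

variable {F : Type} [Field F] (D : Dat F)

/-- The Hermitian form. -/
def Dat.h (v w : Fin 3 → F) : F := ∑ i, v i * D.s (w i)

lemma h_def (v w : Fin 3 → F) : D.h v w = v 0 * D.s (w 0) + v 1 * D.s (w 1) + v 2 * D.s (w 2) := by
  unfold Dat.h; rw [Fin.sum_univ_three]

lemma h_add_left (v v' w : Fin 3 → F) : D.h (v + v') w = D.h v w + D.h v' w := by
  simp only [h_def, Pi.add_apply]; ring

lemma h_add_right (v w w' : Fin 3 → F) : D.h v (w + w') = D.h v w + D.h v w' := by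
  simp only [h_def, Pi.add_apply, map_add]; ring

lemma h_smul_left (c : F) (v w : Fin 3 → F) : D.h (c • v) w = c * D.h v w := by
  simp only [h_def, Pi.smul_apply, smul_eq_mul]; ring

lemma h_smul_right (c : F) (v w : Fin 3 → F) : D.h v (c • w) = D.s c * D.h v w := by
  simp only [h_def, Pi.smul_apply, smul_eq_mul, map_mul]; ring

lemma h_zero_left (w : Fin 3 → F) : D.h 0 w = 0 := by simp [h_def]

lemma h_zero_right (v : Fin 3 → F) : D.h v 0 = 0 := by simp [h_def]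

lemma h_conj (v w : Fin 3 → F) : D.s (D.h v w) = D.h w v := by
  simp only [h_def, map_add, map_mul, D.inv]; ring

lemma h_eq_zero_symm {v w : Fin 3 → F} (h : D.h v w = 0) : D.h w v = 0 := by
  rw [← h_conj, h, map_zero]

lemma h_self (v : Fin 3 → F) : D.s (D.h v v) = D.h v v := h_conj D v v

lemma h_single (v : Fin 3 → F) (i : Fin 3) : D.h v (Pi.single i 1) = v i := by
  fin_cases i <;> simp [h_def]

lemma h_ext {v w : Fin 3 → F} (h : ∀ x, D.h v x = D.h w x) : v = w := by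
  funext i
  rw [← h_single D v i, ← h_single D w i, h]

lemma h_ext' {v w : Fin 3 → F} (h : ∀ x, D.h x v = D.h x w) : v = w := by
  apply h_ext D
  intro x
  rw [← h_conj D x v, ← h_conj D x w, h]

/-- The conjugate of the cross product. -/
def Dat.cr (x y : Fin 3 → F) : Fin 3 → F :=
  ![D.s (x 1 * y 2 + x 2 * y 1), D.s (x 2 * y 0 + x 0 * y 2), D.s (x 0 * y 1 + x 1 * y 0)]

lemma h_cr (v x y : Fin 3 → F) : D.h v (D.cr x y) =
    v 0 * (x 1 * y 2 + x 2 * y 1) + v 1 * (x 2 * y 0 + x 0 * y 2) +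
      v 2 * (x 0 * y 1 + x 1 * y 0) := by
  rw [h_def]
  simp only [Dat.cr, Matrix.cons_val_zero, Matrix.cons_val_one, Matrix.cons_val, D.inv]

lemma h_cr_left (x y : Fin 3 → F) : D.h x (D.cr x y) = 0 := by
  rw [h_cr]
  linear_combination (x 0 * x 1 * y 2 + x 0 * x 2 * y 1 + x 1 * x 2 * y 0) * D.two

lemma h_cr_right (x y : Fin 3 → F) : D.h y (D.cr x y) = 0 := by
  rw [h_cr]
  linear_combination (y 0 * x 1 * y 2 + y 0 * x 2 * y 1 + x 0 * y 1 * y 2) * D.two

lemma h_cr_cr (x y : Fin 3 → F) : D.h (D.cr x y) (D.cr x y) =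
    D.h x x * D.h y y + D.h x y * D.h y x := by
  have e : D.h (D.cr x y) (D.cr x y) =
      D.s (x 1 * y 2 + x 2 * y 1) * (x 1 * y 2 + x 2 * y 1) +
      D.s (x 2 * y 0 + x 0 * y 2) * (x 2 * y 0 + x 0 * y 2) +
      D.s (x 0 * y 1 + x 1 * y 0) * (x 0 * y 1 + x 1 * y 0) := by
    rw [h_cr]
    simp only [Dat.cr, Matrix.cons_val_zero, Matrix.cons_val_one, Matrix.cons_val]
  rw [e]
  simp only [h_def, map_add, map_mul]
  linear_combination (-(x 0 * D.s (x 0) * y 0 * D.s (y 0) + x 1 * D.s (x 1) * y 1 * D.s (y 1) +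
    x 2 * D.s (x 2) * y 2 * D.s (y 2))) * D.two

lemma cr_smul (c d : F) (x y : Fin 3 → F) : D.cr (c • x) (d • y) = D.s (c * d) • D.cr x y := by
  funext i
  fin_cases i <;> simp [Dat.cr] <;> ring

/-- The determinant of three rows. -/
lemma h_cr_det (v x y : Fin 3 → F) : D.h v (D.cr x y) = (Matrix.of ![v, x, y]).det := by
  rw [h_cr, Matrix.det_fin_three]
  simp only [Matrix.of_apply, Matrix.cons_val_zero, Matrix.cons_val_one, Matrix.cons_val]
  linear_combination (v 0 * x 2 * y 1 + v 1 * x 0 * y 2 + v 2 * x 1 * y 0) * D.two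

/-- The matrix of an element of the special linear group. -/
def mx (g : SpecialLinearGroup (Fin 3) F) : Matrix (Fin 3) (Fin 3) F := g

lemma mx_mul (g g' : SpecialLinearGroup (Fin 3) F) : mx (g * g') = mx g * mx g' := rfl

lemma mx_one : mx (1 : SpecialLinearGroup (Fin 3) F) = 1 := rfl

lemma mx_det (g : SpecialLinearGroup (Fin 3) F) : (mx g).det = 1 := g.2

lemma mx_inj {g g' : SpecialLinearGroup (Fin 3) F} (h : mx g = mx g') : g = g' := Subtype.ext h

/-- Build an element of the special linear group. -/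
def sl (A : Matrix (Fin 3) (Fin 3) F) (h : A.det = 1) : SpecialLinearGroup (Fin 3) F := ⟨A, h⟩

lemma mx_sl (A : Matrix (Fin 3) (Fin 3) F) (h : A.det = 1) : mx (sl A h) = A := rfl

lemma mx_mulVec_inv (g : SpecialLinearGroup (Fin 3) F) (x : Fin 3 → F) :
    mx g *ᵥ (mx g⁻¹ *ᵥ x) = x := by
  rw [Matrix.mulVec_mulVec, ← mx_mul, mul_inv_cancel, mx_one, Matrix.one_mulVec]

lemma mx_inv_mulVec (g : SpecialLinearGroup (Fin 3) F) (x : Fin 3 → F) :
    mx g⁻¹ *ᵥ (mx g *ᵥ x) = x := by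
  rw [Matrix.mulVec_mulVec, ← mx_mul, inv_mul_cancel, mx_one, Matrix.one_mulVec]

/-- The special unitary group. -/
def Dat.SU : Subgroup (SpecialLinearGroup (Fin 3) F) where
  carrier := {g | ∀ v w, D.h (mx g *ᵥ v) (mx g *ᵥ w) = D.h v w}
  mul_mem' := by
    intro a b ha hb v w
    simp only [mx_mul, ← Matrix.mulVec_mulVec]
    rw [ha, hb]
  one_mem' := by
    intro v w
    simp [mx_one]
  inv_mem' := by
    intro a ha v w
    rw [← ha, mx_mulVec_inv, mx_mulVec_inv]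

/-- The action on vectors. -/
def Dat.a (g : D.SU) (v : Fin 3 → F) : Fin 3 → F := mx g.1 *ᵥ v

lemma a_h (g : D.SU) (v w : Fin 3 → F) : D.h (D.a g v) (D.a g w) = D.h v w := g.2 v w

lemma a_mul (g g' : D.SU) (v : Fin 3 → F) : D.a (g * g') v = D.a g (D.a g' v) := by
  unfold Dat.a
  rw [Subgroup.coe_mul, mx_mul, ← Matrix.mulVec_mulVec]

lemma a_one (v : Fin 3 → F) : D.a 1 v = v := by
  unfold Dat.a
  rw [Subgroup.coe_one, mx_one, Matrix.one_mulVec]

lemma a_inv_a (g : D.SU) (v : Fin 3 → F) : D.a g⁻¹ (D.a g v) = v := by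
  rw [← a_mul, inv_mul_cancel, a_one]

lemma a_a_inv (g : D.SU) (v : Fin 3 → F) : D.a g (D.a g⁻¹ v) = v := by
  rw [← a_mul, mul_inv_cancel, a_one]

lemma a_add (g : D.SU) (v w : Fin 3 → F) : D.a g (v + w) = D.a g v + D.a g w :=
  Matrix.mulVec_add _ _ _

lemma a_smul (g : D.SU) (c : F) (v : Fin 3 → F) : D.a g (c • v) = c • D.a g v :=
  Matrix.mulVec_smul _ _ _

lemma a_zero (g : D.SU) : D.a g 0 = 0 := Matrix.mulVec_zero _

lemma a_inj (g : D.SU) {v w : Fin 3 → F} (h : D.a g v = D.a g w) : v = w := by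
  rw [← a_inv_a D g v, h, a_inv_a]

lemma a_ext {g g' : D.SU} (h : ∀ i, D.a g (Pi.single i 1) = D.a g' (Pi.single i 1)) : g = g' := by
  apply Subtype.ext
  apply mx_inj
  ext i j
  have := congrFun (h j) i
  unfold Dat.a at this
  simpa using this

lemma a_ext' {g g' : D.SU} (h : ∀ v, D.a g v = D.a g' v) : g = g' := a_ext D fun _ => h _

lemma a_cr (g : D.SU) (x y : Fin 3 → F) : D.a g (D.cr x y) = D.cr (D.a g x) (D.a g y) := by
  apply h_ext' D
  intro v
  have h1 : D.h v (D.a g (D.cr x y)) = D.h (D.a g⁻¹ v) (D.cr x y) := by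
    rw [← a_h D g (D.a g⁻¹ v), a_a_inv]
  have h2 : v = D.a g (D.a g⁻¹ v) := (a_a_inv D g v).symm
  rw [h1, h_cr_det]
  conv_rhs => rw [h2]
  rw [h_cr_det]
  have h3 : (Matrix.of ![D.a g (D.a g⁻¹ v), D.a g x, D.a g y]) =
      (Matrix.of ![D.a g⁻¹ v, x, y]) * (mx g.1)ᵀ := by
    generalize D.a g⁻¹ v = u
    ext i j
    fin_cases i <;>
      simp [Dat.a, Matrix.mul_apply, Matrix.mulVec, dotProduct, Fin.sum_univ_three] <;> ring
  rw [h3, Matrix.det_mul, Matrix.det_transpose, mx_det, mul_one]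

/-- The matrix with columns `x`, `y`, `cr x y`. -/
def Dat.M (x y : Fin 3 → F) : Matrix (Fin 3) (Fin 3) F := (Matrix.of ![x, y, D.cr x y])ᵀ

lemma det_M (x y : Fin 3 → F) : (D.M x y).det = D.h x x * D.h y y + D.h x y * D.h y x := by
  rw [← h_cr_cr, h_cr_det, Dat.M, Matrix.det_transpose]
  rw [Matrix.det_fin_three, Matrix.det_fin_three]
  simp only [Matrix.of_apply, Matrix.cons_val_zero, Matrix.cons_val_one, Matrix.cons_val]
  ring

lemma M_mulVec (x y : Fin 3 → F) (v : Fin 3 → F) :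
    D.M x y *ᵥ v = v 0 • x + v 1 • y + v 2 • D.cr x y := by
  funext i
  simp [Dat.M, Matrix.mulVec, dotProduct, Fin.sum_univ_three]
  ring

/-- **Witt.** -/
theorem witt {x y x' y' : Fin 3 → F} (h0 : D.h x x * D.h y y + D.h x y * D.h y x = 1)
    (h1 : D.h x x = D.h x' x') (h2 : D.h x y = D.h x' y') (h3 : D.h y y = D.h y' y') :
    ∃ g : D.SU, D.a g x = x' ∧ D.a g y = y' := by
  have h2' : D.h y x = D.h y' x' := by rw [← h_conj, h2, h_conj]
  have h0' : D.h x' x' * D.h y' y' + D.h x' y' * D.h y' x' = 1 := by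
    rw [← h1, ← h2, ← h2', ← h3]; exact h0
  obtain ⟨A, hA1⟩ : ∃ A : SpecialLinearGroup (Fin 3) F, mx A = D.M x y :=
    ⟨sl (D.M x y) (by rw [det_M]; exact h0), rfl⟩
  obtain ⟨B, hB1⟩ : ∃ B : SpecialLinearGroup (Fin 3) F, mx B = D.M x' y' :=
    ⟨sl (D.M x' y') (by rw [det_M]; exact h0'), rfl⟩
  have hA : ∀ v, mx A *ᵥ v = v 0 • x + v 1 • y + v 2 • D.cr x y := by
    intro v; rw [hA1]; exact M_mulVec D x y v
  have hB : ∀ v, mx B *ᵥ v = v 0 • x' + v 1 • y' + v 2 • D.cr x' y' := by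
    intro v; rw [hB1]; exact M_mulVec D x' y' v
  have gram : ∀ v w, D.h (mx B *ᵥ v) (mx B *ᵥ w) = D.h (mx A *ᵥ v) (mx A *ᵥ w) := by
    intro v w
    rw [hA, hA, hB, hB]
    simp only [h_add_left, h_add_right, h_smul_left, h_smul_right]
    rw [h_cr_left, h_cr_right, h_cr_left, h_cr_right, h_cr_cr, h_cr_cr,
      h_eq_zero_symm D (h_cr_left D x y), h_eq_zero_symm D (h_cr_right D x y),
      h_eq_zero_symm D (h_cr_left D x' y'), h_eq_zero_symm D (h_cr_right D x' y'),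
      h0, h0', ← h1, ← h2, ← h2', ← h3]
  have hx : mx A *ᵥ (Pi.single 0 1) = x := by rw [hA]; simp
  have hy : mx A *ᵥ (Pi.single 1 1) = y := by rw [hA]; simp
  have hx' : mx B *ᵥ (Pi.single 0 1) = x' := by rw [hB]; simp
  have hy' : mx B *ᵥ (Pi.single 1 1) = y' := by rw [hB]; simp
  refine ⟨⟨B * A⁻¹, ?_⟩, ?_, ?_⟩
  · intro v w
    rw [mx_mul, ← Matrix.mulVec_mulVec, ← Matrix.mulVec_mulVec, gram, mx_mulVec_inv,
      mx_mulVec_inv]
  · change mx (B * A⁻¹) *ᵥ x = x'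
    rw [mx_mul, ← Matrix.mulVec_mulVec]
    nth_rewrite 1 [← hx]
    rw [mx_inv_mulVec, hx']
  · change mx (B * A⁻¹) *ᵥ y = y'
    rw [mx_mul, ← Matrix.mulVec_mulVec]
    nth_rewrite 1 [← hy]
    rw [mx_inv_mulVec, hy']

/-- Decomposition with respect to a pair with Gram determinant one. -/
lemma exists_coord {x y : Fin 3 → F} (h0 : D.h x x * D.h y y + D.h x y * D.h y x = 1)
    (v : Fin 3 → F) : ∃ c0 c1 c2 : F, v = c0 • x + c1 • y + c2 • D.cr x y := by
  obtain ⟨A, hA1⟩ : ∃ A : SpecialLinearGroup (Fin 3) F, mx A = D.M x y :=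
    ⟨sl (D.M x y) (by rw [det_M]; exact h0), rfl⟩
  have hA : ∀ v, mx A *ᵥ v = v 0 • x + v 1 • y + v 2 • D.cr x y := by
    intro v; rw [hA1]; exact M_mulVec D x y v
  have hAi := mx_mulVec_inv A v
  rw [hA] at hAi
  exact ⟨_, _, _, hAi.symm⟩

/-- Uniqueness in Witt's theorem. -/
theorem witt_unique {x y : Fin 3 → F} (h0 : D.h x x * D.h y y + D.h x y * D.h y x = 1)
    {g g' : D.SU} (hx : D.a g x = D.a g' x) (hy : D.a g y = D.a g' y) : g = g' := by
  apply a_ext' D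
  intro v
  obtain ⟨c0, c1, c2, hv⟩ := exists_coord D h0 v
  rw [hv]
  simp only [a_add, a_smul, a_cr, hx, hy]

end Pool.Agent.Helper855.Kz
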