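import Pool.Agent.Helper855.KzBlk

/-!
A subgroup containing the torus and one generic block element is the whole group.
-/

set_option autoImplicit false

namespace Pool.Agent.Helper855.Kz

open Matrix

variable {F : Type} [Field F] (D : Dat F)

lemma torus_norm {x : F} (hx : x * D.s x = 1) : x * D.s x + 0 * D.s 0 = 1 := by
  rw [zero_mul, add_zero]; exact hx

lemma anti_norm {x : F} (hx : x * D.s x = 1) : (0 : F) * D.s 0 + x * D.s x = 1 := by
  rw [zero_mul, zero_add]; exact hx

/-- Blocks with the same norm of the first entry. -/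
lemma same_norm (H : Subgroup D.SU)
    (hT : ∀ x (hx : x * D.s x = 1), D.blk x 0 (torus_norm D hx) ∈ H)
    {a b a' b' : F} (h : a * D.s a + b * D.s b = 1) (h' : a' * D.s a' + b' * D.s b' = 1)
    (hm : D.blk a b h ∈ H) (hn : a' * D.s a' = a * D.s a) : D.blk a' b' h' ∈ H := by
  have hn' : b' * D.s b' = b * D.s b := by linear_combination h' - h - hn
  by_cases ha : a = 0
  · have ha' : a' = 0 := by apply norm_zero D; rw [hn, ha]; ring
    have hb0 : b ≠ 0 := by
      rintro rfl
      simp [ha] at h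
    have hsb0 : D.s b ≠ 0 := (map_ne_zero D.s).mpr hb0
    have hx : (b' / b) * D.s (b' / b) = 1 := by
      rw [map_div₀]
      rw [div_mul_div_comm, hn', div_self (mul_ne_zero hb0 hsb0)]
    have e : D.blk (b' / b) 0 (torus_norm D hx) * D.blk a b h = D.blk a' b' h' := by
      rw [blk_mul]
      apply blk_congr
      · rw [ha, ha']; ring
      · field_simp; ring
    rw [← e]
    exact H.mul_mem (hT _ hx) hm
  by_cases hb : b = 0
  · have hb' : b' = 0 := by apply norm_zero D; rw [hn', hb]; ring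
    have hsa0 : D.s a ≠ 0 := (map_ne_zero D.s).mpr ha
    have hx : (a' / a) * D.s (a' / a) = 1 := by
      rw [map_div₀]
      rw [div_mul_div_comm, hn, div_self (mul_ne_zero ha hsa0)]
    have e : D.blk (a' / a) 0 (torus_norm D hx) * D.blk a b h = D.blk a' b' h' := by
      rw [blk_mul]
      apply blk_congr
      · field_simp; ring
      · rw [hb, hb']; ring
    rw [← e]
    exact H.mul_mem (hT _ hx) hm
  have hsa0 : D.s a ≠ 0 := (map_ne_zero D.s).mpr ha
  have hsb0 : D.s b ≠ 0 := (map_ne_zero D.s).mpr hb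
  obtain ⟨mu, hmu⟩ : ∃ mu, mu = a' / a := ⟨_, rfl⟩
  obtain ⟨nu, hnu⟩ : ∃ nu, nu = b' / b := ⟨_, rfl⟩
  have hmu1 : mu * D.s mu = 1 := by
    rw [hmu, map_div₀, div_mul_div_comm, hn, div_self (mul_ne_zero ha hsa0)]
  have hnu1 : nu * D.s nu = 1 := by
    rw [hnu, map_div₀, div_mul_div_comm, hn', div_self (mul_ne_zero hb hsb0)]
  have hmu2 : mu * a = a' := by rw [hmu]; field_simp
  have hnu2 : nu * b = b' := by rw [hnu]; field_simp
  obtain ⟨x, hx⟩ := D.sqr (mu * nu)
  have hx1 : x * D.s x = 1 := by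
    apply sq_inj D
    have : (x * D.s x) * (x * D.s x) = (x * x) * D.s (x * x) := by rw [map_mul]; ring
    rw [this, hx, map_mul]
    linear_combination (mu * D.s mu) * hnu1 + hmu1
  -- the second torus element
  have hy1 : (mu * D.s x) * D.s (mu * D.s x) = 1 := by
    rw [map_mul, D.inv]
    linear_combination (mu * D.s mu) * hx1 + hmu1
  have e : D.blk x 0 (torus_norm D hx1) * D.blk a b h *
      D.blk (mu * D.s x) 0 (torus_norm D hy1) = D.blk a' b' h' := by
    rw [blk_mul, blk_mul]
    apply blk_congr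
    · rw [map_zero]
      linear_combination (mu * a) * hx1 + hmu2
    · rw [map_mul, D.inv]
      linear_combination (b * D.s mu) * hx + (b * nu) * hmu1 + hnu2
  rw [← e]
  exact H.mul_mem (H.mul_mem (hT _ hx1) hm) (hT _ hy1)

/-- The norm of the first entry of a product. -/
lemma prod_norm {a b c d : F} (h : a * D.s a + b * D.s b = 1) (h' : c * D.s c + d * D.s d = 1) :
    (a * c + b * D.s d) * D.s (a * c + b * D.s d) =
      1 + a * D.s a + c * D.s c + (a * c * D.s b * d + D.s (a * c * D.s b * d)) := by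
  simp only [map_add, map_mul, D.inv]
  linear_combination (d * D.s d) * h + (1 - a * D.s a) * h' +
    (a * D.s a * c * D.s c - a * D.s a - c * D.s c) * D.two

/-- Two elements with the same norm and trace. -/
lemma norm_trace {x y : F} (h1 : x * D.s x = y * D.s y) (h2 : x + D.s x = y + D.s y) :
    x = y ∨ x = D.s y := by
  have : (x - y) * (x - D.s y) = 0 := by
    linear_combination x * h2 - h1
  rcases mul_eq_zero.mp this with h | h
  · left; exact sub_eq_zero.mp h
  · right; exact sub_eq_zero.mp h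

/-- **Fullness.** -/
theorem full [Fintype F] [DecidableEq F] (q : ℕ)
    (hcn : ∀ d : F, d ≠ 0 → D.s d = d → q + 1 ≤ (Finset.univ.filter (fun x : F => x * D.s x = d)).card)
    (hcf : (Finset.univ.filter (fun x : F => D.s x = x)).card ≤ q)
    (H : Subgroup D.SU)
    (hT : ∀ x (hx : x * D.s x = 1), D.blk x 0 (torus_norm D hx) ∈ H)
    (hS : D.blk 0 1 (anti_norm D (x := 1) (by rw [map_one, one_mul])) ∈ H)
    {a b : F} (h : a * D.s a + b * D.s b = 1) (hm : D.blk a b h ∈ H) (ha : a ≠ 0) (hb : b ≠ 0)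
    {w : D.SU} (hw : w ∈ H) (hw0 : D.a w (E F 2) = E F 0) : H = ⊤ := by
  have hsa0 : D.s a ≠ 0 := (map_ne_zero D.s).mpr ha
  have hsb0 : D.s b ≠ 0 := (map_ne_zero D.s).mpr hb
  -- all blocks
  have key : ∀ (a0 b0 : F) (h0 : a0 * D.s a0 + b0 * D.s b0 = 1), D.blk a0 b0 h0 ∈ H := by
    intro a0 b0 h0
    by_cases ha0 : a0 = 0
    · exact same_norm D H hT (anti_norm D (x := 1) (by rw [map_one, one_mul])) h0 hS (by rw [ha0])
    by_cases hb0 : b0 = 0
    · have h1 : a0 * D.s a0 = 1 := by
        rw [hb0, zero_mul, add_zero] at h0; exact h0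
      have : D.blk a0 b0 h0 = D.blk a0 0 (torus_norm D h1) := blk_congr D _ _ rfl hb0
      rw [this]; exact hT _ h1
    have hsa00 : D.s a0 ≠ 0 := (map_ne_zero D.s).mpr ha0
    have hsb00 : D.s b0 ≠ 0 := (map_ne_zero D.s).mpr hb0
    -- a general construction
    have cons : ∀ (c d : F) (hcd : c * D.s c + d * D.s d = 1), c ≠ 0 → d ≠ 0 → ∀ τ : F,
        τ * D.s τ = (c * D.s c) * (d * D.s d) * ((a * D.s a) * (b * D.s b)) →
        ∃ (e : F) (he : e * D.s e + b * D.s b = 1), D.blk e b he ∈ H ∧
          (c * e + d * D.s b) * D.s (c * e + d * D.s b) =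
            1 + c * D.s c + a * D.s a + (τ + D.s τ) := by
      intro c d hcd hc hd τ hτ
      have hsc : D.s c ≠ 0 := (map_ne_zero D.s).mpr hc
      have hsd : D.s d ≠ 0 := (map_ne_zero D.s).mpr hd
      obtain ⟨e, he⟩ : ∃ e, e = τ / (c * D.s d * b) := ⟨_, rfl⟩
      have he1 : c * e * D.s d * b = τ := by rw [he]; field_simp
      have he2 : e * D.s e = a * D.s a := by
        have h1 : (c * D.s c) * (d * D.s d) * (b * D.s b) ≠ 0 :=
          mul_ne_zero (mul_ne_zero (mul_ne_zero hc hsc) (mul_ne_zero hd hsd)) (mul_ne_zero hb hsb0)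
        apply mul_left_cancel₀ h1
        calc (c * D.s c) * (d * D.s d) * (b * D.s b) * (e * D.s e) =
            (c * e * D.s d * b) * D.s (c * e * D.s d * b) := by
              simp only [map_mul, D.inv]; ring
          _ = τ * D.s τ := by rw [he1]
          _ = _ := by rw [hτ]; ring
      have he3 : e * D.s e + b * D.s b = 1 := by rw [he2, h]
      refine ⟨e, he3, same_norm D H hT h he3 hm he2, ?_⟩
      rw [prod_norm D hcd he3, he1, he2]
    have fixn : ∀ x : F, D.s (x * D.s x) = x * D.s x := fun x => norm_fixed D x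
    obtain ⟨d1, hd1⟩ : ∃ d1, d1 = (a * D.s a) * (b * D.s b) * ((a * D.s a) * (b * D.s b)) :=
      ⟨_, rfl⟩
    obtain ⟨d2, hd2⟩ : ∃ d2, d2 = (a0 * D.s a0) * (b0 * D.s b0) * ((a * D.s a) * (b * D.s b)) :=
      ⟨_, rfl⟩
    have hd10 : d1 ≠ 0 := by
      rw [hd1]
      exact mul_ne_zero (mul_ne_zero (mul_ne_zero ha hsa0) (mul_ne_zero hb hsb0))
        (mul_ne_zero (mul_ne_zero ha hsa0) (mul_ne_zero hb hsb0))
    have hd20 : d2 ≠ 0 := by
      rw [hd2]
      exact mul_ne_zero (mul_ne_zero (mul_ne_zero ha0 hsa00) (mul_ne_zero hb0 hsb00))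
        (mul_ne_zero (mul_ne_zero ha hsa0) (mul_ne_zero hb hsb0))
    have hd1f : D.s d1 = d1 := by
      rw [hd1]; simp only [map_mul, D.inv]; ring
    have hd2f : D.s d2 = d2 := by
      rw [hd2]; simp only [map_mul, D.inv]; ring
    -- the two sets
    have fib : ∀ (d k : F), ∀ y ∈ (Finset.univ.filter (fun x : F => x * D.s x = d)).image
        (fun x => k + (x + D.s x)),
        ((Finset.univ.filter (fun x : F => x * D.s x = d)).filter
          (fun x => k + (x + D.s x) = y)).card ≤ 2 := by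
      intro d k y hy
      rw [Finset.mem_image] at hy
      obtain ⟨x0, hx0, rfl⟩ := hy
      rw [Finset.mem_filter] at hx0
      have hsub : ((Finset.univ.filter (fun x : F => x * D.s x = d)).filter
          (fun x => k + (x + D.s x) = k + (x0 + D.s x0))) ⊆ {x0, D.s x0} := by
        intro x hx
        rw [Finset.mem_filter, Finset.mem_filter] at hx
        rw [Finset.mem_insert, Finset.mem_singleton]
        exact norm_trace D (hx.1.2.trans hx0.2.symm) (add_left_cancel hx.2)
      exact (Finset.card_le_card hsub).trans (Finset.card_le_two)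
    have c1 := Finset.card_le_mul_card_image _ 2 (fib d1 (1 + a * D.s a + a * D.s a))
    have c2 := Finset.card_le_mul_card_image _ 2 (fib d2 (1 + a0 * D.s a0 + a * D.s a))
    have n1 := hcn d1 hd10 hd1f
    have n2 := hcn d2 hd20 hd2f
    have sub1 : ∀ (d k : F), D.s k = k → (Finset.univ.filter (fun x : F => x * D.s x = d)).image
        (fun x => k + (x + D.s x)) ⊆ Finset.univ.filter (fun x : F => D.s x = x) := by
      intro d k hk y hy
      rw [Finset.mem_image] at hy
      obtain ⟨x, -, rfl⟩ := hy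
      rw [Finset.mem_filter]
      refine ⟨Finset.mem_univ _, ?_⟩
      simp only [map_add, D.inv, hk]; ring
    have s1 := sub1 d1 (1 + a * D.s a + a * D.s a) (by simp only [map_add, map_one, map_mul, D.inv]; ring)
    have s2 := sub1 d2 (1 + a0 * D.s a0 + a * D.s a) (by simp only [map_add, map_one, map_mul, D.inv]; ring)
    have s3 := Finset.card_le_card (Finset.union_subset s1 s2)
    have s4 := Finset.card_union_add_card_inter
      ((Finset.univ.filter (fun x : F => x * D.s x = d1)).image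
        (fun x => (1 + a * D.s a + a * D.s a) + (x + D.s x)))
      ((Finset.univ.filter (fun x : F => x * D.s x = d2)).image
        (fun x => (1 + a0 * D.s a0 + a * D.s a) + (x + D.s x)))
    have s5 : 0 < (((Finset.univ.filter (fun x : F => x * D.s x = d1)).image
        (fun x => (1 + a * D.s a + a * D.s a) + (x + D.s x))) ∩
      ((Finset.univ.filter (fun x : F => x * D.s x = d2)).image
        (fun x => (1 + a0 * D.s a0 + a * D.s a) + (x + D.s x)))).card := by omega
    obtain ⟨y, hy⟩ := Finset.card_pos.mp s5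
    rw [Finset.mem_inter, Finset.mem_image, Finset.mem_image] at hy
    obtain ⟨⟨τ1, t1, y1⟩, ⟨τ2, t2, y2⟩⟩ := hy
    rw [Finset.mem_filter] at t1 t2
    obtain ⟨e1, he1, m1, f1⟩ := cons a b h ha hb τ1 (by rw [t1.2, hd1])
    obtain ⟨e2, he2, m2, f2⟩ := cons a0 b0 h0 ha0 hb0 τ2 (by rw [t2.2, hd2])
    have p1 : D.blk a b h * D.blk e1 b he1 ∈ H := H.mul_mem hm m1
    rw [blk_mul] at p1
    have p2 := same_norm D H hT _ (blk_mul_norm D h0 he2) p1 (by rw [f1, f2, y1, y2])
    rw [← blk_mul D h0 he2] at p2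
    exact (H.mul_mem_cancel_right m2).mp p2
  have h2 : D.St (E F 2) ≤ H := by
    intro g hg
    obtain ⟨a0, b0, h0, rfl⟩ := stab_blk D hg
    exact key a0 b0 h0
  apply gen02 D H _ h2
  intro g hg
  have h3 : w⁻¹ * g * w ∈ D.St (E F 2) := by
    rw [mem_St] at hg ⊢
    rw [a_mul, a_mul, hw0, hg, ← hw0, a_inv_a]
  have h4 := H.mul_mem (H.mul_mem hw (h2 h3)) (H.inv_mem hw)
  simpa [mul_assoc] using h4

end Pool.Agent.Helper855.Kz
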