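import Pool.Agent.Helper855.KzForm

/-!
Generation and transitivity for the special unitary group.
-/

set_option autoImplicit false

namespace Pool.Agent.Helper855.Kz

open Matrix

variable {F : Type} [Field F] (D : Dat F)

include D in
lemma add_self' (x : F) : x + x = 0 := by linear_combination x * D.two

include D in
lemma eq_of_add {x y : F} (h : x + y = 0) : x = y := by linear_combination h - y * D.two

include D in
lemma add_eq_one_ne {x : F} (h : x ≠ 1) : x + 1 ≠ 0 := fun h' => h (eq_of_add D h')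

include D in
/-- Squaring is injective. -/
lemma sq_inj {x y : F} (h : x * x = y * y) : x = y := by
  have h1 : (x + y) * (x + y) = 0 := by linear_combination h + (y * y + x * y) * D.two
  exact eq_of_add D (mul_self_eq_zero.mp h1)

lemma norm_zero {x : F} (h : x * D.s x = 0) : x = 0 := by
  rcases mul_eq_zero.mp h with h | h
  · exact h
  · exact (map_eq_zero D.s).mp h

lemma norm_fixed (x : F) : D.s (x * D.s x) = x * D.s x := by
  rw [map_mul, D.inv, mul_comm]

/-- The transvection matrix. -/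
def Dat.tm (u : Fin 3 → F) : Matrix (Fin 3) (Fin 3) F :=
  !![1 + u 0 * D.s (u 0), u 0 * D.s (u 1), u 0 * D.s (u 2);
     u 1 * D.s (u 0), 1 + u 1 * D.s (u 1), u 1 * D.s (u 2);
     u 2 * D.s (u 0), u 2 * D.s (u 1), 1 + u 2 * D.s (u 2)]

lemma tm_det (u : Fin 3 → F) (hu : D.h u u = 0) : (D.tm u).det = 1 := by
  rw [Matrix.det_fin_three]
  simp only [Dat.tm, Matrix.of_apply, Matrix.cons_val_zero, Matrix.cons_val_one, Matrix.cons_val,
    Matrix.cons_val']
  rw [h_def] at hu
  linear_combination hu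

lemma tm_mulVec (u v : Fin 3 → F) : D.tm u *ᵥ v = v + D.h v u • u := by
  funext i
  fin_cases i <;>
    simp [Dat.tm, Matrix.mulVec, dotProduct, Fin.sum_univ_three, h_def] <;> ring

/-- The transvection with centre `u`. -/
def Dat.t (u : Fin 3 → F) (hu : D.h u u = 0) : D.SU :=
  ⟨sl (D.tm u) (tm_det D u hu), by
    intro v w
    rw [mx_sl, tm_mulVec, tm_mulVec]
    simp only [h_add_left, h_add_right, h_smul_left, h_smul_right, hu]
    rw [h_conj]
    linear_combination (D.h v u * D.h u w) * D.two⟩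

lemma a_t (u : Fin 3 → F) (hu : D.h u u = 0) (v : Fin 3 → F) :
    D.a (D.t u hu) v = v + D.h v u • u := tm_mulVec D u v

lemma t_mul_self (u : Fin 3 → F) (hu : D.h u u = 0) : D.t u hu * D.t u hu = 1 := by
  apply a_ext' D
  intro v
  rw [a_mul, a_t, a_t, a_one, h_add_left, h_smul_left, hu, mul_zero, add_zero]
  funext i
  simp only [Pi.add_apply, Pi.smul_apply, smul_eq_mul]
  linear_combination (D.h v u * u i) * D.two

lemma t_inv (u : Fin 3 → F) (hu : D.h u u = 0) : (D.t u hu)⁻¹ = D.t u hu := by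
  rw [inv_eq_iff_mul_eq_one]; exact t_mul_self D u hu

lemma a_iso (g : D.SU) {u : Fin 3 → F} (hu : D.h u u = 0) : D.h (D.a g u) (D.a g u) = 0 := by
  rw [a_h, hu]

lemma t_conj (g : D.SU) (u : Fin 3 → F) (hu : D.h u u = 0) :
    g * D.t u hu * g⁻¹ = D.t (D.a g u) (a_iso D g hu) := by
  apply a_ext' D
  intro v
  rw [a_mul, a_mul, a_t, a_t, a_add, a_smul, a_a_inv]
  have : D.h (D.a g⁻¹ v) u = D.h v (D.a g u) := by rw [← a_h D g, a_a_inv]
  rw [this]

/-- A basis vector. -/
def E (F : Type) [Field F] (i : Fin 3) : Fin 3 → F := Pi.single i 1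

lemma h_E (v : Fin 3 → F) (i : Fin 3) : D.h v (E F i) = v i := h_single D v i

lemma h_E_left (v : Fin 3 → F) (i : Fin 3) : D.h (E F i) v = D.s (v i) := by
  rw [← h_conj, h_E]

lemma E_self (i : Fin 3) : D.h (E F i) (E F i) = 1 := by rw [h_E]; simp [E]

lemma E_ne {i j : Fin 3} (h : i ≠ j) : D.h (E F i) (E F j) = 0 := by
  rw [h_E]; simp [E, h.symm]

/-- The stabiliser of a vector. -/
def Dat.St (x : Fin 3 → F) : Subgroup D.SU where
  carrier := {g | D.a g x = x}
  mul_mem' := by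
    intro a b ha hb
    change D.a (a * b) x = x
    rw [a_mul, hb, ha]
  one_mem' := a_one D x
  inv_mem' := by
    intro a ha
    change D.a a⁻¹ x = x
    conv_lhs => rw [← ha]
    exact a_inv_a D a x

lemma mem_St {g : D.SU} {x : Fin 3 → F} : g ∈ D.St x ↔ D.a g x = x := Iff.rfl

lemma smul_cancel {c : F} (hc : c ≠ 0) {v w : Fin 3 → F} (h : c • v = c • w) : v = w := by
  funext i
  have := congrFun h i
  simp only [Pi.smul_apply, smul_eq_mul] at this
  exact mul_left_cancel₀ hc this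

/-- Moving anisotropic vectors orthogonal to a basis vector. -/
lemma mv1 (k : Fin 3) {p p' : Fin 3 → F} (hp : p k = 0) (hp' : p' k = 0)
    (hh : D.h p p = D.h p' p') (h0 : D.h p p ≠ 0) : ∃ g ∈ D.St (E F k), D.a g p = p' := by
  obtain ⟨c, hc⟩ := D.nsurj (D.h p p)⁻¹ (by rw [map_inv₀, h_self])
  have hc0 : c ≠ 0 := by
    rintro rfl
    rw [zero_mul] at hc
    exact inv_ne_zero h0 hc.symm
  have e1 : D.h (c • p) (c • p) = 1 := by
    rw [h_smul_left, h_smul_right, ← mul_assoc, hc, inv_mul_cancel₀ h0]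
  have e1' : D.h (c • p') (c • p') = 1 := by
    rw [h_smul_left, h_smul_right, ← mul_assoc, hc, ← hh, inv_mul_cancel₀ h0]
  have e2 : D.h (E F k) (c • p) = 0 := by rw [h_E_left]; simp [hp]
  have e2' : D.h (E F k) (c • p') = 0 := by rw [h_E_left]; simp [hp']
  obtain ⟨g, g1, g2⟩ := witt D (x := E F k) (y := c • p) (x' := E F k) (y' := c • p')
    (by rw [e1, e2, E_self]; ring) rfl (by rw [e2, e2']) (by rw [e1, e1'])
  refine ⟨g, g1, ?_⟩
  rw [a_smul] at g2
  exact smul_cancel hc0 g2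

/-- Isotropic partners. -/
lemma partner {u : Fin 3 → F} (hu : D.h u u = 0) {i : Fin 3} (hi : u i ≠ 0) :
    ∃ c d : F, D.h u (c • E F i + d • u) = 1 ∧
      D.h (c • E F i + d • u) (c • E F i + d • u) = 0 := by
  obtain ⟨t, ht⟩ := D.tr
  obtain ⟨c, hc⟩ : ∃ c, c = D.s (u i)⁻¹ := ⟨_, rfl⟩
  have hc1 : D.s c * u i = 1 := by
    rw [hc, D.inv, inv_mul_cancel₀ hi]
  have hc2 : c * D.s (u i) = 1 := by
    rw [hc, ← map_mul, inv_mul_cancel₀ hi, map_one]
  refine ⟨c, t * (c * D.s c), ?_, ?_⟩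
  · rw [h_add_right, h_smul_right, h_smul_right, hu, h_E, mul_zero, add_zero]
    exact hc1
  · simp only [h_add_left, h_add_right, h_smul_left, h_smul_right, hu, h_E, h_E_left, map_mul,
      D.inv, Pi.smul_apply, Pi.add_apply, smul_eq_mul]
    have : (E F i) i = 1 := by simp [E]
    rw [this]
    linear_combination (c * D.s c) * ht + (t * (c * D.s c)) * hc1 +
      (D.s t * (D.s c * c)) * hc2 + (c * D.s c) * D.two

/-- The scaling element of a hyperbolic pair. -/
lemma hyp_scale {u u' : Fin 3 → F} (hu : D.h u u = 0) (hu' : D.h u' u' = 0)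
    (huu : D.h u u' = 1) {l : F} (hl : D.s l = l) (hl0 : l ≠ 0) :
    ∃ g : D.SU, D.a g u = l • u ∧ ∀ w, D.h w u = 0 → D.h w u' = 0 → D.a g w = w := by
  have huu' : D.h u' u = 1 := by rw [← h_conj, huu, map_one]
  have hG : D.h u u * D.h u' u' + D.h u u' * D.h u' u = 1 := by rw [hu, huu, huu']; ring
  obtain ⟨g, g1, g2⟩ := witt D (x := u) (y := u') (x' := l • u) (y' := l⁻¹ • u') hG
    (by rw [h_smul_left, h_smul_right, hu]; ring)
    (by rw [h_smul_left, h_smul_right, map_inv₀, hl, huu]; field_simp)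
    (by rw [h_smul_left, h_smul_right, hu']; ring)
  refine ⟨g, g1, ?_⟩
  intro w hw hw'
  obtain ⟨c0, c1, c2, hv⟩ := exists_coord D hG w
  have e1 : c1 = 0 := by
    rw [hv, h_add_left, h_add_left, h_smul_left, h_smul_left, h_smul_left, hu, huu',
      h_eq_zero_symm D (h_cr_left D u u')] at hw
    linear_combination hw
  have e0 : c0 = 0 := by
    rw [hv, h_add_left, h_add_left, h_smul_left, h_smul_left, h_smul_left, hu', huu,
      h_eq_zero_symm D (h_cr_right D u u')] at hw'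
    linear_combination hw'
  rw [hv, e0, e1]
  simp only [a_add, a_smul, a_cr, g1, g2, cr_smul]
  rw [mul_inv_cancel₀ hl0, map_one]
  simp

/-- Scaling isotropic vectors orthogonal to a basis vector. -/
lemma mv2 (k : Fin 3) {p : Fin 3 → F} (hp : p k = 0) (hp0 : p ≠ 0) (hh : D.h p p = 0) {l : F}
    (hl : D.s l = l) (hl0 : l ≠ 0) : ∃ g ∈ D.St (E F k), D.a g p = l • p := by
  obtain ⟨i, hi⟩ : ∃ i, p i ≠ 0 := by
    by_contra h
    push Not at h
    exact hp0 (funext h)
  obtain ⟨c, d, h1, h2⟩ := partner D hh hi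
  obtain ⟨g, g1, g2⟩ := hyp_scale D hh h2 h1 hl hl0
  refine ⟨g, ?_, g1⟩
  apply g2
  · rw [h_E_left, hp, map_zero]
  · rw [h_E_left]
    have hik : i ≠ k := by rintro rfl; exact hi hp
    simp [E, hp, hik.symm]

lemma vec_eq (v : Fin 3 → F) : v = v 0 • E F 0 + v 1 • E F 1 + v 2 • E F 2 := by
  funext i
  fin_cases i <;> simp [E]

lemma a_of_St {g : D.SU} {k : Fin 3} (hg : g ∈ D.St (E F k)) (c : F) {p p' : Fin 3 → F}
    (h : D.a g p = p') : D.a g (p + c • E F k) = p' + c • E F k := by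
  rw [a_add, a_smul, h, (mem_St D).mp hg]

/-- Case A of transitivity. -/
lemma trans_A (H : Subgroup D.SU) (h0 : D.St (E F 0) ≤ H) (h2 : D.St (E F 2) ≤ H)
    {v : Fin 3 → F} (hv : D.h v v = 1) (hA : v 0 * D.s (v 0) + v 1 * D.s (v 1) ≠ 0) :
    ∃ g ∈ H, D.a g v = E F 2 := by
  obtain ⟨c, hc⟩ := D.nsurj (v 0 * D.s (v 0) + v 1 * D.s (v 1))
    (by rw [map_add, norm_fixed, norm_fixed])
  have hp : D.h (v 0 • E F 0 + v 1 • E F 1) (v 0 • E F 0 + v 1 • E F 1) =
      v 0 * D.s (v 0) + v 1 * D.s (v 1) := by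
    rw [h_def]; simp [E]
  have hp' : D.h (c • E F 1) (c • E F 1) = c * D.s c := by
    rw [h_smul_left, h_smul_right, E_self]; ring
  obtain ⟨g, hg, g1⟩ := mv1 D 2 (p := v 0 • E F 0 + v 1 • E F 1) (p' := c • E F 1)
    (by simp [E]) (by simp [E]) (by rw [hp, hp', hc]) (by rw [hp]; exact hA)
  have g2 : D.a g v = c • E F 1 + v 2 • E F 2 := by
    conv_lhs => rw [vec_eq v]
    exact a_of_St D hg (v 2) g1
  have hq : D.h (c • E F 1 + v 2 • E F 2) (c • E F 1 + v 2 • E F 2) = 1 := by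
    rw [← g2, a_h, hv]
  obtain ⟨g', hg', g1'⟩ := mv1 D 0 (p := c • E F 1 + v 2 • E F 2) (p' := E F 2)
    (by simp [E]) (by simp [E]) (by rw [hq, E_self]) (by rw [hq]; exact one_ne_zero)
  exact ⟨g' * g, H.mul_mem (h0 hg') (h2 hg), by rw [a_mul, g2, g1']⟩

/-- Transitivity on unit vectors. -/
lemma trans_unit (H : Subgroup D.SU) (h0 : D.St (E F 0) ≤ H) (h2 : D.St (E F 2) ≤ H)
    {v : Fin 3 → F} (hv : D.h v v = 1) : ∃ g ∈ H, D.a g v = E F 2 := by
  have hv3 : v 0 * D.s (v 0) + v 1 * D.s (v 1) + v 2 * D.s (v 2) = 1 := by rw [← h_def]; exact hv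
  by_cases hA : v 0 * D.s (v 0) + v 1 * D.s (v 1) ≠ 0
  · exact trans_A D H h0 h2 hv hA
  push Not at hA
  by_cases hz : v 0 = 0
  · obtain ⟨g, hg, g1⟩ := mv1 D 0 (p := v) (p' := E F 2) hz (by simp [E])
      (by rw [hv, E_self]) (by rw [hv]; exact one_ne_zero)
    exact ⟨g, h0 hg, g1⟩
  -- the case of different norm
  have B1 : ∀ v : Fin 3 → F, D.h v v = 1 → v 0 ≠ 0 → v 0 * D.s (v 0) ≠ 1 →
      v 0 * D.s (v 0) + v 1 * D.s (v 1) = 0 → ∃ g ∈ H, D.a g v = E F 2 := by
    intro v hv hz hn hA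
    have hv3 : v 0 * D.s (v 0) + v 1 * D.s (v 1) + v 2 * D.s (v 2) = 1 := by
      rw [← h_def]; exact hv
    obtain ⟨c, hc⟩ := D.nsurj (v 1 * D.s (v 1) + v 2 * D.s (v 2))
      (by rw [map_add, norm_fixed, norm_fixed])
    have hp : D.h (v 1 • E F 1 + v 2 • E F 2) (v 1 • E F 1 + v 2 • E F 2) =
        v 1 * D.s (v 1) + v 2 * D.s (v 2) := by
      rw [h_def]; simp [E]
    have hp' : D.h (c • E F 2) (c • E F 2) = c * D.s c := by
      rw [h_smul_left, h_smul_right, E_self]; ring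
    have hne : v 1 * D.s (v 1) + v 2 * D.s (v 2) ≠ 0 := by
      intro h
      apply hn
      linear_combination hv3 - h
    obtain ⟨g, hg, g1⟩ := mv1 D 0 (p := v 1 • E F 1 + v 2 • E F 2) (p' := c • E F 2)
      (by simp [E]) (by simp [E]) (by rw [hp, hp', hc]) (by rw [hp]; exact hne)
    have g2 : D.a g v = c • E F 2 + v 0 • E F 0 := by
      have : v = (v 1 • E F 1 + v 2 • E F 2) + v 0 • E F 0 := by
        conv_lhs => rw [vec_eq v]
        abel
      conv_lhs => rw [this]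
      exact a_of_St D hg (v 0) g1
    obtain ⟨g', hg', g1'⟩ := trans_A D H h0 h2 (v := c • E F 2 + v 0 • E F 0)
      (by rw [← g2, a_h, hv]) (by
        simp only [E, Pi.add_apply, Pi.smul_apply, smul_eq_mul]
        simp only [Pi.single_apply]
        simp
        exact hz)
    exact ⟨g' * g, H.mul_mem hg' (h0 hg), by rw [a_mul, g2, g1']⟩
  by_cases hn : v 0 * D.s (v 0) = 1
  · obtain ⟨l, hl, hl0, hl1⟩ := D.lam
    have hp : D.h (v 0 • E F 0 + v 1 • E F 1) (v 0 • E F 0 + v 1 • E F 1) = 0 := by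
      rw [h_def]; simp [E]; exact hA
    obtain ⟨g, hg, g1⟩ := mv2 D 2 (p := v 0 • E F 0 + v 1 • E F 1) (by simp [E])
      (by
        intro h
        have := congrFun h 0
        simp [E] at this
        exact hz this) hp hl hl0
    have g2 : D.a g v = l • (v 0 • E F 0 + v 1 • E F 1) + v 2 • E F 2 := by
      conv_lhs => rw [vec_eq v]
      exact a_of_St D hg (v 2) g1
    have f0 : (l • (v 0 • E F 0 + v 1 • E F 1) + v 2 • E F 2) 0 = l * v 0 := by simp [E]
    have f1 : (l • (v 0 • E F 0 + v 1 • E F 1) + v 2 • E F 2) 1 = l * v 1 := by simp [E]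
    obtain ⟨g', hg', g1'⟩ := B1 (l • (v 0 • E F 0 + v 1 • E F 1) + v 2 • E F 2)
      (by rw [← g2, a_h, hv]) (by rw [f0]; exact mul_ne_zero hl0 hz)
      (by
        rw [f0, map_mul, hl]
        intro h
        apply hl1
        apply sq_inj D
        linear_combination h - (l * l) * hn)
      (by
        rw [f0, f1, map_mul, map_mul, hl]
        linear_combination (l * l) * hA)
    exact ⟨g' * g, H.mul_mem hg' (h2 hg), by rw [a_mul, g2, g1']⟩
  · exact B1 v hv hz hn hA

/-- Two stabilisers generate. -/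
theorem gen02 (H : Subgroup D.SU) (h0 : D.St (E F 0) ≤ H) (h2 : D.St (E F 2) ≤ H) : H = ⊤ := by
  rw [eq_top_iff]
  intro g _
  obtain ⟨g', hg', g1⟩ := trans_unit D H h0 h2 (v := D.a g (E F 2)) (by rw [a_h, E_self])
  have : g' * g ∈ H := h2 (by rw [mem_St, a_mul, g1])
  exact (H.mul_mem_cancel_left hg').mp this

theorem gen {i k : Fin 3} (hik : i ≠ k) (H : Subgroup D.SU) (hi : D.St (E F i) ≤ H)
    (hk : D.St (E F k) ≤ H) : H = ⊤ := by
  have h02 : (0 : Fin 3) ≠ 2 := by decide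
  obtain ⟨w, w0, w2⟩ := witt D (x := E F 0) (y := E F 2) (x' := E F i) (y' := E F k)
    (by rw [E_self, E_self, E_ne D h02]; ring) (by rw [E_self, E_self])
    (by rw [E_ne D h02, E_ne D hik]) (by rw [E_self, E_self])
  have := gen02 D (H.comap (MulAut.conj w).toMonoidHom) (by
    intro g hg
    rw [Subgroup.mem_comap]
    apply hi
    rw [mem_St] at hg ⊢
    simp only [MulEquiv.coe_toMonoidHom, MulAut.conj_apply]
    rw [← w0, a_mul, a_mul, a_inv_a, hg]) (by
    intro g hg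
    rw [Subgroup.mem_comap]
    apply hk
    rw [mem_St] at hg ⊢
    simp only [MulEquiv.coe_toMonoidHom, MulAut.conj_apply]
    rw [← w2, a_mul, a_mul, a_inv_a, hg])
  rw [eq_top_iff]
  intro g _
  have h1 : w⁻¹ * g * w ∈ H.comap (MulAut.conj w).toMonoidHom := by rw [this]; trivial
  rw [Subgroup.mem_comap] at h1
  simpa [mul_assoc] using h1

end Pool.Agent.Helper855.Kz
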