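import Mathlib

/-!
Three closed subspaces of a Hilbert space with pairwise angles larger than sixty degrees.
-/

set_option autoImplicit false

namespace Pool.Agent.Helper855.Kz

variable {H : Type*} [NormedAddCommGroup H] [InnerProductSpace ℝ H]

/-- The numerical inequality behind the local estimate. -/
lemma num_ineq {ε n s t : ℝ} (h0 : 0 ≤ ε) (h1 : ε < 1) (hs : 0 ≤ s) (hn : 0 ≤ n)
    (ht1 : t ≤ ε * s) (ht2 : -(ε * s) ≤ t) (hc : s ^ 2 ≤ n * (s + t)) :
    -ε * (2 * n - s) ≤ 2 * (n - s) + t := by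
  rcases hs.eq_or_lt with h | h
  · subst h
    have : t = 0 := by nlinarith
    subst this
    nlinarith
  · have hp : 0 < s + t := by nlinarith
    have key : 0 ≤ (ε * s - t) * (s - t) := by
      apply mul_nonneg (by linarith)
      nlinarith
    have h2 : ((2 + ε) * s - t) * (s + t) ≤ 2 * (1 + ε) * s ^ 2 := by nlinarith
    have h3 : ((2 + ε) * s - t) * (s + t) ≤ (2 * (1 + ε) * n) * (s + t) := by nlinarith
    have h4 := le_of_mul_le_mul_right h3 hp
    linarith

/-- Local estimate for two subspaces. -/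
theorem two_sub (V W : Submodule ℝ H) [V.HasOrthogonalProjection] [W.HasOrthogonalProjection]
    [(V ⊓ W).HasOrthogonalProjection] {ε : ℝ} (h0 : 0 ≤ ε) (h1 : ε < 1)
    (h : ∀ a ∈ V, (∀ c ∈ V ⊓ W, inner ℝ a c = (0 : ℝ)) → ‖W.starProjection a‖ ≤ ε * ‖a‖) (v : H) :
    -ε * (‖v - V.starProjection v‖ ^ 2 + ‖v - W.starProjection v‖ ^ 2) ≤
      2 * inner ℝ (v - V.starProjection v) (v - W.starProjection v) := by
  obtain ⟨v0, hv0⟩ : ∃ v0, v0 = (V ⊓ W).starProjection v := ⟨_, rfl⟩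
  obtain ⟨v1, hv1⟩ : ∃ v1, v1 = v - v0 := ⟨_, rfl⟩
  have m0 : v0 ∈ V ⊓ W := by rw [hv0]; exact Submodule.starProjection_apply_mem _ _
  have o1 : ∀ c ∈ V ⊓ W, inner ℝ v1 c = (0 : ℝ) := by
    intro c hc
    rw [hv1, hv0]
    exact Submodule.starProjection_inner_eq_zero _ _ hc
  have hv : v = v0 + v1 := by rw [hv1]; abel
  obtain ⟨a, ha⟩ : ∃ a, a = V.starProjection v1 := ⟨_, rfl⟩
  obtain ⟨b, hb⟩ : ∃ b, b = W.starProjection v1 := ⟨_, rfl⟩
  have ma : a ∈ V := by rw [ha]; exact Submodule.starProjection_apply_mem _ _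
  have mb : b ∈ W := by rw [hb]; exact Submodule.starProjection_apply_mem _ _
  have eV : V.starProjection v0 = v0 := Submodule.starProjection_eq_self_iff.mpr m0.1
  have eW : W.starProjection v0 = v0 := Submodule.starProjection_eq_self_iff.mpr m0.2
  have q1 : v - V.starProjection v = v1 - a := by
    rw [hv, map_add, eV, ← ha]; abel
  have q2 : v - W.starProjection v = v1 - b := by
    rw [hv, map_add, eW, ← hb]; abel
  have oa : ∀ c ∈ V ⊓ W, inner ℝ a c = (0 : ℝ) := by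
    intro c hc
    rw [ha, Submodule.inner_starProjection_left_eq_right,
      Submodule.starProjection_eq_self_iff.mpr hc.1]
    exact o1 c hc
  have va : inner ℝ v1 a = ‖a‖ ^ 2 := by
    have : V.starProjection a = a := Submodule.starProjection_eq_self_iff.mpr ma
    rw [← real_inner_self_eq_norm_sq]
    nth_rewrite 2 [ha]
    rw [Submodule.inner_starProjection_left_eq_right, this]
  have vb : inner ℝ v1 b = ‖b‖ ^ 2 := by
    have : W.starProjection b = b := Submodule.starProjection_eq_self_iff.mpr mb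
    rw [← real_inner_self_eq_norm_sq]
    nth_rewrite 2 [hb]
    rw [Submodule.inner_starProjection_left_eq_right, this]
  have ab : |inner ℝ a b| ≤ ε * ‖a‖ * ‖b‖ := by
    have e : inner ℝ a b = inner ℝ (W.starProjection a) b := by
      rw [Submodule.inner_starProjection_left_eq_right, Submodule.starProjection_eq_self_iff.mpr mb]
    rw [e]
    exact (abs_real_inner_le_norm _ _).trans
      (mul_le_mul_of_nonneg_right (h a ma oa) (norm_nonneg b))
  have av : inner ℝ a v1 = ‖a‖ ^ 2 := by rw [real_inner_comm]; exact va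
  have bv : inner ℝ b v1 = ‖b‖ ^ 2 := by rw [real_inner_comm]; exact vb
  have ba : inner ℝ b a = inner ℝ a b := real_inner_comm _ _
  have n1 : ‖v1 - a‖ ^ 2 = ‖v1‖ ^ 2 - ‖a‖ ^ 2 := by rw [norm_sub_sq_real, va]; ring
  have n2 : ‖v1 - b‖ ^ 2 = ‖v1‖ ^ 2 - ‖b‖ ^ 2 := by rw [norm_sub_sq_real, vb]; ring
  have n3 : inner ℝ (v1 - a) (v1 - b) = ‖v1‖ ^ 2 - ‖a‖ ^ 2 - ‖b‖ ^ 2 + inner ℝ a b := by
    simp only [inner_sub_left, inner_sub_right, real_inner_self_eq_norm_sq, av, vb]
    ring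
  rw [q1, q2, n1, n2, n3]
  have cs : (‖a‖ ^ 2 + ‖b‖ ^ 2) ^ 2 ≤ ‖v1‖ ^ 2 * (‖a‖ ^ 2 + ‖b‖ ^ 2 + 2 * inner ℝ a b) := by
    have e1 : inner ℝ v1 (a + b) = ‖a‖ ^ 2 + ‖b‖ ^ 2 := by rw [inner_add_right, va, vb]
    have e2 : ‖a + b‖ ^ 2 = ‖a‖ ^ 2 + ‖b‖ ^ 2 + 2 * inner ℝ a b := by
      rw [norm_add_sq_real]; ring
    rw [← e2, ← e1, ← mul_pow, ← sq_abs]
    exact pow_le_pow_left₀ (abs_nonneg _) (abs_real_inner_le_norm _ _) 2
  have hab := abs_le.mp ab
  have am : 2 * (‖a‖ * ‖b‖) ≤ ‖a‖ ^ 2 + ‖b‖ ^ 2 := by nlinarith [sq_nonneg (‖a‖ - ‖b‖)]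
  have := num_ineq (n := ‖v1‖ ^ 2) (s := ‖a‖ ^ 2 + ‖b‖ ^ 2) (t := 2 * inner ℝ a b) h0 h1
    (by positivity) (by positivity) (by nlinarith) (by nlinarith) cs
  linarith

/-- A symmetric positive operator with trivial kernel and a gap is bounded below. -/
theorem gap [CompleteSpace H] (D : H →L[ℝ] H) (hs : ∀ x y, inner ℝ (D x) y = inner ℝ x (D y))
    (hp : ∀ x, 0 ≤ inner ℝ (D x) x) {κ : ℝ} (hκ : 0 < κ)
    (hg : ∀ x, κ * inner ℝ (D x) x ≤ ‖D x‖ ^ 2) (hk : ∀ x, D x = 0 → x = 0) (x : H) :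
    κ * ‖x‖ ^ 2 ≤ inner ℝ (D x) x := by
  have cs : ∀ x y : H, (inner ℝ (D x) y) ^ 2 ≤ inner ℝ (D x) x * inner ℝ (D y) y := by
    intro x y
    have hq : ∀ t : ℝ, 0 ≤ inner ℝ (D y) y * (t * t) + (2 * inner ℝ (D x) y) * t +
        inner ℝ (D x) x := by
      intro t
      have h1 := hp (x + t • y)
      have h2 : inner ℝ (D y) x = inner ℝ (D x) y := by rw [hs, real_inner_comm]
      simp only [map_add, map_smul, inner_add_left, inner_add_right, inner_smul_left,
        inner_smul_right, conj_trivial, h2] at h1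
      linarith
    have := discrim_le_zero hq
    unfold discrim at this
    nlinarith
  have hr : ∀ y : H, κ * ‖D y‖ ^ 2 ≤ inner ℝ (D (D y)) (D y) := by
    intro y
    by_cases h0 : D y = 0
    · rw [h0]; simp
    have h1 := cs (D y) y
    have h2 : inner ℝ (D (D y)) y = ‖D y‖ ^ 2 := by rw [hs, real_inner_self_eq_norm_sq]
    rw [h2] at h1
    have h3 := hg y
    have h4 : 0 < ‖D y‖ ^ 2 := by have := norm_pos_iff.mpr h0; positivity
    have h5 := hp (D y)
    have h6 := hp y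
    have h7 : κ * (‖D y‖ ^ 2) ^ 2 ≤ inner ℝ (D (D y)) (D y) * ‖D y‖ ^ 2 := by
      nlinarith
    have h8 : (κ * ‖D y‖ ^ 2) * ‖D y‖ ^ 2 ≤ inner ℝ (D (D y)) (D y) * ‖D y‖ ^ 2 := by
      linarith
    exact le_of_mul_le_mul_right h8 h4
  have hd : (LinearMap.range (D : H →ₗ[ℝ] H)).topologicalClosure = ⊤ := by
    rw [Submodule.topologicalClosure_eq_top_iff, Submodule.eq_bot_iff]
    intro z hz
    rw [Submodule.mem_orthogonal] at hz
    apply hk
    have h1 := hz (D (D z)) ⟨D z, rfl⟩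
    rw [hs] at h1
    exact inner_self_eq_zero.mp h1
  have hcl : IsClosed {x : H | κ * ‖x‖ ^ 2 ≤ inner ℝ (D x) x} := by
    apply isClosed_le
    · fun_prop
    · exact (D.continuous.inner continuous_id)
  have hx : x ∈ (LinearMap.range (D : H →ₗ[ℝ] H)).topologicalClosure := by rw [hd]; trivial
  have hsub : closure ((LinearMap.range (D : H →ₗ[ℝ] H) : Submodule ℝ H) : Set H) ⊆
      {x : H | κ * ‖x‖ ^ 2 ≤ inner ℝ (D x) x} := by
    apply closure_minimal _ hcl
    rintro _ ⟨y, rfl⟩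
    exact hr y
  exact hsub hx

/-- Three subspaces. -/
theorem three_sub [CompleteSpace H] (V0 V1 V2 : Submodule ℝ H) [V0.HasOrthogonalProjection]
    [V1.HasOrthogonalProjection] [V2.HasOrthogonalProjection]
    [(V0 ⊓ V1).HasOrthogonalProjection] [(V0 ⊓ V2).HasOrthogonalProjection]
    [(V1 ⊓ V2).HasOrthogonalProjection] {ε : ℝ} (h0 : 0 ≤ ε) (h1 : ε < 1 / 2)
    (h01 : ∀ a ∈ V0, (∀ c ∈ V0 ⊓ V1, inner ℝ a c = (0 : ℝ)) → ‖V1.starProjection a‖ ≤ ε * ‖a‖)
    (h02 : ∀ a ∈ V0, (∀ c ∈ V0 ⊓ V2, inner ℝ a c = (0 : ℝ)) → ‖V2.starProjection a‖ ≤ ε * ‖a‖)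
    (h12 : ∀ a ∈ V1, (∀ c ∈ V1 ⊓ V2, inner ℝ a c = (0 : ℝ)) → ‖V2.starProjection a‖ ≤ ε * ‖a‖)
    (hbot : ∀ x, x ∈ V0 → x ∈ V1 → x ∈ V2 → x = 0) (x : H) :
    (1 - 2 * ε) * ‖x‖ ^ 2 ≤ ‖x - V0.starProjection x‖ ^ 2 + ‖x - V1.starProjection x‖ ^ 2 +
      ‖x - V2.starProjection x‖ ^ 2 := by
  let D : H →L[ℝ] H := (ContinuousLinearMap.id ℝ H - V0.starProjection) +
    (ContinuousLinearMap.id ℝ H - V1.starProjection) +
    (ContinuousLinearMap.id ℝ H - V2.starProjection)
  have hD : ∀ x, D x = (x - V0.starProjection x) + (x - V1.starProjection x) +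
    (x - V2.starProjection x) := fun x => rfl
  have q : ∀ (V : Submodule ℝ H) [V.HasOrthogonalProjection] (x : H),
      inner ℝ (x - V.starProjection x) x = ‖x - V.starProjection x‖ ^ 2 := by
    intro V _ x
    have := Submodule.starProjection_inner_eq_zero x (V.starProjection x)
      (Submodule.starProjection_apply_mem V x)
    rw [← real_inner_self_eq_norm_sq, inner_sub_right (x - V.starProjection x) x, this, sub_zero]
  have hDx : ∀ x, inner ℝ (D x) x = ‖x - V0.starProjection x‖ ^ 2 +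
      ‖x - V1.starProjection x‖ ^ 2 + ‖x - V2.starProjection x‖ ^ 2 := by
    intro x
    rw [hD, inner_add_left, inner_add_left, q, q, q]
  rw [← hDx]
  apply gap D
  · intro x y
    rw [hD, hD]
    simp only [inner_add_left, inner_add_right, inner_sub_left, inner_sub_right,
      Submodule.inner_starProjection_left_eq_right]
  · intro x; rw [hDx]; positivity
  · linarith
  · intro x
    have t01 := two_sub V0 V1 h0 (by linarith) h01 x
    have t02 := two_sub V0 V2 h0 (by linarith) h02 x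
    have t12 := two_sub V1 V2 h0 (by linarith) h12 x
    rw [hDx, hD, norm_add_sq_real, norm_add_sq_real, inner_add_left]
    linarith
  · intro x hx
    have h2 := hDx x
    rw [hx, inner_zero_left] at h2
    have e0 : ‖x - V0.starProjection x‖ ^ 2 = 0 := by
      nlinarith [sq_nonneg ‖x - V0.starProjection x‖, sq_nonneg ‖x - V1.starProjection x‖,
        sq_nonneg ‖x - V2.starProjection x‖]
    have e1 : ‖x - V1.starProjection x‖ ^ 2 = 0 := by
      nlinarith [sq_nonneg ‖x - V0.starProjection x‖, sq_nonneg ‖x - V1.starProjection x‖,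
        sq_nonneg ‖x - V2.starProjection x‖]
    have e2 : ‖x - V2.starProjection x‖ ^ 2 = 0 := by
      nlinarith [sq_nonneg ‖x - V0.starProjection x‖, sq_nonneg ‖x - V1.starProjection x‖,
        sq_nonneg ‖x - V2.starProjection x‖]
    have f : ∀ (V : Submodule ℝ H) [V.HasOrthogonalProjection],
        ‖x - V.starProjection x‖ ^ 2 = 0 → x ∈ V := by
      intro V _ h
      have h3 : x - V.starProjection x = 0 := norm_eq_zero.mp (pow_eq_zero_iff two_ne_zero |>.mp h)
      rw [sub_eq_zero] at h3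
      rw [h3]
      exact Submodule.starProjection_apply_mem V x
    exact hbot x (f V0 e0) (f V1 e1) (f V2 e2)

end Pool.Agent.Helper855.Kz
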