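import Pool.Agent.Helper855.KzGen

/-!
The local estimate in representations of the special unitary group over the field with sixteen
elements.
-/

set_option autoImplicit false

namespace Pool.Agent.Helper855.Kz

open Matrix

variable {F : Type} [Field F] (D : Dat F)

/-- Transitivity on unit vectors. -/
lemma exists_unit_map {x y : Fin 3 → F} (hx : D.h x x = 1) (hy : D.h y y = 1) :
    ∃ g : D.SU, D.a g x = y := by
  obtain ⟨g, -, hg⟩ := trans_unit D ⊤ le_top le_top hx
  obtain ⟨k, -, hk⟩ := trans_unit D ⊤ le_top le_top hy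
  exact ⟨k⁻¹ * g, by rw [a_mul, hg, ← hk, a_inv_a]⟩

/-- The triple product identity. -/
lemma cr_cr (x y z : Fin 3 → F) : D.cr (D.cr x y) z = D.h x z • y + D.h y z • x := by
  funext i
  fin_cases i
  · simp [Dat.cr, h_def, D.inv]
    linear_combination (-(x 0 * y 0 * D.s (z 0))) * D.two
  · simp [Dat.cr, h_def, D.inv]
    linear_combination (-(x 1 * y 1 * D.s (z 1))) * D.two
  · simp [Dat.cr, h_def, D.inv]
    linear_combination (-(x 2 * y 2 * D.s (z 2))) * D.two

/-- Vanishing cross product. -/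
lemma cr_zero {x y : Fin 3 → F} (hx : x ≠ 0) (h : D.cr x y = 0) : ∃ c : F, y = c • x := by
  have h0 : x 1 * y 2 = x 2 * y 1 := by
    apply eq_of_add D
    apply (map_eq_zero D.s).mp
    have := congrFun h 0
    simpa [Dat.cr] using this
  have h1 : x 2 * y 0 = x 0 * y 2 := by
    apply eq_of_add D
    apply (map_eq_zero D.s).mp
    have := congrFun h 1
    simpa [Dat.cr] using this
  have h2 : x 0 * y 1 = x 1 * y 0 := by
    apply eq_of_add D
    apply (map_eq_zero D.s).mp
    have := congrFun h 2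
    simpa [Dat.cr] using this
  by_cases e0 : x 0 = 0
  · by_cases e1 : x 1 = 0
    · by_cases e2 : x 2 = 0
      · exfalso; apply hx; funext i; fin_cases i <;> simp [e0, e1, e2]
      · refine ⟨y 2 / x 2, ?_⟩
        funext i
        fin_cases i
        · change y 0 = y 2 / x 2 * x 0
          field_simp
          linear_combination h1
        · change y 1 = y 2 / x 2 * x 1
          field_simp
          linear_combination -h0
        · change y 2 = y 2 / x 2 * x 2
          field_simp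
    · refine ⟨y 1 / x 1, ?_⟩
      funext i
      fin_cases i
      · change y 0 = y 1 / x 1 * x 0
        field_simp
        linear_combination -h2
      · change y 1 = y 1 / x 1 * x 1
        field_simp
      · change y 2 = y 1 / x 1 * x 2
        field_simp
        linear_combination h0
  · refine ⟨y 0 / x 0, ?_⟩
    funext i
    fin_cases i
    · change y 0 = y 0 / x 0 * x 0
      field_simp
    · change y 1 = y 0 / x 0 * x 1
      field_simp
      linear_combination h2
    · change y 2 = y 0 / x 0 * x 2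
      field_simp
      linear_combination -h1

lemma unit_ne_zero {x : Fin 3 → F} (hx : D.h x x = 1) : x ≠ 0 := by
  rintro rfl
  rw [h_zero_left] at hx
  exact zero_ne_one hx

section Counting

variable [Fintype F] [DecidableEq F]

/-- The number of vectors orthogonal to two independent vectors. -/
lemma card_ind {x y : Fin 3 → F} (h : D.cr x y ≠ 0) :
    (Finset.univ.filter (fun z : Fin 3 → F => D.h x z = 0 ∧ D.h y z = 0)).card =
      Fintype.card F := by
  have e : Finset.univ.filter (fun z : Fin 3 → F => D.h x z = 0 ∧ D.h y z = 0) =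
      Finset.univ.image (fun t : F => t • D.cr x y) := by
    ext z
    rw [Finset.mem_filter, Finset.mem_image]
    constructor
    · rintro ⟨-, h1, h2⟩
      have h3 : D.cr (D.cr x y) z = 0 := by rw [cr_cr, h1, h2]; simp
      obtain ⟨c, hc⟩ := cr_zero D h h3
      exact ⟨c, Finset.mem_univ _, hc.symm⟩
    · rintro ⟨t, -, rfl⟩
      refine ⟨Finset.mem_univ _, ?_, ?_⟩
      · rw [h_smul_right, h_cr_left, mul_zero]
      · rw [h_smul_right, h_cr_right, mul_zero]
  rw [e, Finset.card_image_of_injective, Finset.card_univ]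
  intro t t' ht
  obtain ⟨i, hi⟩ : ∃ i, D.cr x y i ≠ 0 := by
    by_contra h'
    push Not at h'
    exact h (funext h')
  have := congrFun ht i
  simp only [Pi.smul_apply, smul_eq_mul] at this
  exact mul_right_cancel₀ hi this

/-- The number of vectors orthogonal to a unit vector. -/
lemma card_perp {x : Fin 3 → F} (hx : D.h x x = 1) :
    (Finset.univ.filter (fun z : Fin 3 → F => D.h x z = 0)).card * Fintype.card F =
      Fintype.card F ^ 3 := by
  have h1 : ((Finset.univ.filter (fun z : Fin 3 → F => D.h x z = 0)) ×ˢ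
      (Finset.univ : Finset F)).card = (Finset.univ : Finset (Fin 3 → F)).card := by
    refine Finset.card_bij' (fun p _ => p.1 + p.2 • x) (fun z _ => (z + D.h z x • x, D.h z x))
      ?_ ?_ ?_ ?_
    · intro p _; exact Finset.mem_univ _
    · intro z _
      rw [Finset.mem_product, Finset.mem_filter]
      refine ⟨⟨Finset.mem_univ _, ?_⟩, Finset.mem_univ _⟩
      rw [h_add_right, h_smul_right, hx, h_conj]
      linear_combination D.h x z * D.two
    · rintro ⟨z, c⟩ hp
      rw [Finset.mem_product, Finset.mem_filter] at hp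
      have hz : D.h z x = 0 := h_eq_zero_symm D hp.1.2
      have e1 : D.h (z + c • x) x = c := by
        rw [h_add_left, h_smul_left, hz, hx]; ring
      simp only [e1, Prod.mk.injEq, and_true]
      funext i
      simp only [Pi.add_apply, Pi.smul_apply, smul_eq_mul]
      linear_combination (c * x i) * D.two
    · intro z _
      funext i
      simp only [Pi.add_apply, Pi.smul_apply, smul_eq_mul]
      linear_combination (D.h z x * x i) * D.two
  rw [Finset.card_product, Finset.card_univ, Finset.card_univ, Fintype.card_pi] at h1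
  simpa using h1

lemma card_dep (hF : Fintype.card F = 16) {x y : Fin 3 → F} (hx : D.h x x = 1)
    (h : D.cr x y = 0) :
    (Finset.univ.filter (fun z : Fin 3 → F => D.h x z = 0 ∧ D.h y z = 0)).card = 256 := by
  obtain ⟨c, hc⟩ := cr_zero D (unit_ne_zero D hx) h
  have e : Finset.univ.filter (fun z : Fin 3 → F => D.h x z = 0 ∧ D.h y z = 0) =
      Finset.univ.filter (fun z : Fin 3 → F => D.h x z = 0) := by
    ext z
    rw [Finset.mem_filter, Finset.mem_filter]
    constructor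
    · rintro ⟨h1, h2, -⟩; exact ⟨h1, h2⟩
    · rintro ⟨h1, h2⟩
      refine ⟨h1, h2, ?_⟩
      rw [hc, h_smul_left, h2, mul_zero]
  have := card_perp D hx
  rw [hF] at this
  rw [e]
  omega

/-- The unit vectors. -/
def Dat.S : Finset (Fin 3 → F) := Finset.univ.filter (fun x => D.h x x = 1)

lemma mem_S {x : Fin 3 → F} : x ∈ D.S ↔ D.h x x = 1 := by
  simp [Dat.S]

/-- The number of unit vectors proportional to a unit vector. -/
lemma card_prop (h5 : (Finset.univ.filter (fun x : F => x * D.s x = 1)).card ≤ 5)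
    {x : Fin 3 → F} (hx : D.h x x = 1) :
    (D.S.filter (fun y => D.cr x y = 0)).card ≤ 5 := by
  have : D.S.filter (fun y => D.cr x y = 0) ⊆
      (Finset.univ.filter (fun x : F => x * D.s x = 1)).image (fun c => c • x) := by
    intro y hy
    rw [Finset.mem_filter, mem_S] at hy
    obtain ⟨c, hc⟩ := cr_zero D (unit_ne_zero D hx) hy.2
    rw [Finset.mem_image]
    refine ⟨c, ?_, hc.symm⟩
    rw [Finset.mem_filter]
    refine ⟨Finset.mem_univ _, ?_⟩
    have h1 := hy.1
    rw [hc, h_smul_left, h_smul_right, hx, mul_one] at h1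
    exact h1
  exact (Finset.card_le_card this).trans (Finset.card_image_le.trans h5)

end Counting

section Rep

variable {H : Type*} [NormedAddCommGroup H] [InnerProductSpace ℝ H]
variable (ρ : D.SU →* (H →ₗ[ℝ] H))

open Classical in
/-- The orbit map. -/
noncomputable def Dat.Φ (a : H) (i : Fin 3) (x : Fin 3 → F) : H :=
  if h : ∃ g : D.SU, D.a g (E F i) = x then ρ h.choose a else 0

lemma Φ_eq {a : H} {i : Fin 3} (ha : ∀ g ∈ D.St (E F i), ρ g a = a) (g : D.SU) :
    D.Φ ρ a i (D.a g (E F i)) = ρ g a := by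
  have h : ∃ g' : D.SU, D.a g' (E F i) = D.a g (E F i) := ⟨g, rfl⟩
  unfold Dat.Φ
  rw [dif_pos h]
  have h1 := h.choose_spec
  generalize h.choose = k at h1
  have h2 : g⁻¹ * k ∈ D.St (E F i) := by
    rw [mem_St, a_mul, h1, a_inv_a]
  have h3 := ha _ h2
  have h4 : ρ k a = ρ g (ρ (g⁻¹ * k) a) := by
    rw [← Module.End.mul_apply, ← map_mul, mul_inv_cancel_left]
  rw [h4, h3]

lemma Φ_map {a : H} {i : Fin 3} (ha : ∀ g ∈ D.St (E F i), ρ g a = a) (g : D.SU)
    {x : Fin 3 → F} (hx : D.h x x = 1) : D.Φ ρ a i (D.a g x) = ρ g (D.Φ ρ a i x) := by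
  obtain ⟨k, rfl⟩ := exists_unit_map D (E_self D i) hx
  rw [← a_mul, Φ_eq D ρ ha, Φ_eq D ρ ha, map_mul, Module.End.mul_apply]

lemma Φ_norm (hρ : ∀ g v w, inner ℝ (ρ g v) (ρ g w) = inner ℝ v w) {a : H} {i : Fin 3}
    (ha : ∀ g ∈ D.St (E F i), ρ g a = a)
    {x : Fin 3 → F} (hx : D.h x x = 1) : ‖D.Φ ρ a i x‖ = ‖a‖ := by
  obtain ⟨k, rfl⟩ := exists_unit_map D (E_self D i) hx
  rw [Φ_eq D ρ ha]
  have := hρ k a a
  rw [real_inner_self_eq_norm_sq, real_inner_self_eq_norm_sq] at this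
  exact (sq_eq_sq₀ (norm_nonneg _) (norm_nonneg _)).mp this

variable [Fintype F] [DecidableEq F]

/-- The sums over the unit vectors orthogonal to a given vector. -/
noncomputable def Dat.Sg (a : H) (i : Fin 3) (z : Fin 3 → F) : H :=
  ∑ x ∈ D.S.filter (fun x => D.h x z = 0), D.Φ ρ a i x

lemma Sg_map {a : H} {i : Fin 3} (ha : ∀ g ∈ D.St (E F i), ρ g a = a) (g : D.SU)
    (z : Fin 3 → F) : D.Sg ρ a i (D.a g z) = ρ g (D.Sg ρ a i z) := by
  unfold Dat.Sg
  rw [map_sum]
  symm
  refine Finset.sum_bij' (fun x _ => D.a g x) (fun x _ => D.a g⁻¹ x) ?_ ?_ ?_ ?_ ?_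
  · intro x hx
    rw [Finset.mem_filter, mem_S] at hx ⊢
    exact ⟨by rw [a_h]; exact hx.1, by rw [a_h]; exact hx.2⟩
  · intro x hx
    rw [Finset.mem_filter, mem_S] at hx ⊢
    exact ⟨by rw [a_h]; exact hx.1, by rw [← a_h D g, a_a_inv]; exact hx.2⟩
  · intro x _; exact a_inv_a D g x
  · intro x _; exact a_a_inv D g x
  · intro x hx
    rw [Finset.mem_filter, mem_S] at hx
    exact (Φ_map D ρ ha g hx.1).symm

lemma Sg_norm (hρ : ∀ g v w, inner ℝ (ρ g v) (ρ g w) = inner ℝ v w) {a : H} {i : Fin 3}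
    (ha : ∀ g ∈ D.St (E F i), ρ g a = a) {x y : Fin 3 → F} (hx : D.h x x = 1)
    (hy : D.h y y = 1) : ‖D.Sg ρ a i x‖ = ‖D.Sg ρ a i y‖ := by
  obtain ⟨k, rfl⟩ := exists_unit_map D hy hx
  rw [Sg_map D ρ ha]
  have := hρ k (D.Sg ρ a i y) (D.Sg ρ a i y)
  rw [real_inner_self_eq_norm_sq, real_inner_self_eq_norm_sq] at this
  exact (sq_eq_sq₀ (norm_nonneg _) (norm_nonneg _)).mp this

lemma Sg_smul (a : H) (i : Fin 3) {c : F} (hc : c ≠ 0) (z : Fin 3 → F) :
    D.Sg ρ a i (c • z) = D.Sg ρ a i z := by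
  unfold Dat.Sg
  apply Finset.sum_congr _ (fun _ _ => rfl)
  ext x
  rw [Finset.mem_filter, Finset.mem_filter, h_smul_right]
  have : D.s c ≠ 0 := (map_ne_zero D.s).mpr hc
  simp [this]

/-- The total sum vanishes. -/
lemma total_zero (hρ : ∀ g v w, inner ℝ (ρ g v) (ρ g w) = inner ℝ v w) {a : H} {i : Fin 3}
    (ha : ∀ g ∈ D.St (E F i), ρ g a = a)
    (hp : ∀ c : H, (∀ g, ρ g c = c) → inner ℝ a c = (0 : ℝ)) :
    ∑ x ∈ D.S, D.Φ ρ a i x = 0 := by
  have h0 : D.Sg ρ a i 0 = ∑ x ∈ D.S, D.Φ ρ a i x := by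
    unfold Dat.Sg
    apply Finset.sum_congr _ (fun _ _ => rfl)
    ext x
    rw [Finset.mem_filter, h_zero_right]
    simp
  rw [← h0]
  have inv : ∀ g, ρ g (D.Sg ρ a i 0) = D.Sg ρ a i 0 := by
    intro g
    rw [← Sg_map D ρ ha, a_zero]
  have h1 := hp _ inv
  have h2 : inner ℝ (D.Sg ρ a i 0) (D.Sg ρ a i 0) = (0 : ℝ) := by
    nth_rewrite 1 [h0]
    rw [sum_inner]
    apply Finset.sum_eq_zero
    intro x hx
    rw [mem_S] at hx
    obtain ⟨k, rfl⟩ := exists_unit_map D (E_self D i) hx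
    rw [Φ_eq D ρ ha, ← inv k, hρ, h1]
  exact inner_self_eq_zero.mp h2

/-- Sum over the stabiliser. -/
lemma Sg_stab [Fintype D.SU] {a : H} {i j : Fin 3} (hij : i ≠ j)
    (ha : ∀ g ∈ D.St (E F i), ρ g a = a) :
    D.Sg ρ a i (E F j) =
      ∑ g ∈ Finset.univ.filter (fun g : D.SU => D.a g (E F j) = E F j), ρ g a := by
  unfold Dat.Sg
  symm
  have hG : D.h (E F i) (E F i) * D.h (E F j) (E F j) +
      D.h (E F i) (E F j) * D.h (E F j) (E F i) = 1 := by
    rw [E_self, E_self, E_ne D hij]; ring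
  refine Finset.sum_bij (fun g _ => D.a g (E F i)) ?_ ?_ ?_ ?_
  · intro g hg
    rw [Finset.mem_filter] at hg
    rw [Finset.mem_filter, mem_S, a_h, E_self]
    refine ⟨rfl, ?_⟩
    have h1 : D.h (D.a g (E F i)) (D.a g (E F j)) = 0 := by rw [a_h, E_ne D hij]
    rwa [hg.2] at h1
  · intro g hg g' hg' h
    rw [Finset.mem_filter] at hg hg'
    exact witt_unique D hG h (by rw [hg.2, hg'.2])
  · intro x hx
    rw [Finset.mem_filter, mem_S] at hx
    obtain ⟨g, g1, g2⟩ := witt D (x := E F i) (y := E F j) (x' := x) (y' := E F j) hG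
      (by rw [E_self, hx.1]) (by rw [E_ne D hij, hx.2]) rfl
    exact ⟨g, by rw [Finset.mem_filter]; exact ⟨Finset.mem_univ _, g2⟩, g1⟩
  · intro g _
    exact (Φ_eq D ρ ha g).symm

/-- **Local estimate.** -/
theorem local_est (hF : Fintype.card F = 16)
    (h5 : (Finset.univ.filter (fun x : F => x * D.s x = 1)).card ≤ 5)
    (hρ : ∀ g v w, inner ℝ (ρ g v) (ρ g w) = inner ℝ v w) {a : H} {i : Fin 3}
    (ha : ∀ g ∈ D.St (E F i), ρ g a = a)
    (hp : ∀ c : H, (∀ g, ρ g c = c) → inner ℝ a c = (0 : ℝ)) (j : Fin 3) :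
    ‖D.Sg ρ a i (E F j)‖ ≤ 20 * ‖a‖ := by
  obtain ⟨l, hl, hl0, hl1⟩ := D.lam
  have hl2 : 1 + l ≠ 0 := by rw [add_comm]; exact add_eq_one_ne D hl1
  -- double count
  have e1 : ∑ z : Fin 3 → F, ‖D.Sg ρ a i z‖ ^ 2 = ∑ x ∈ D.S, ∑ y ∈ D.S,
      ((Finset.univ.filter (fun z : Fin 3 → F => D.h x z = 0 ∧ D.h y z = 0)).card : ℝ) *
        inner ℝ (D.Φ ρ a i x) (D.Φ ρ a i y) := by
    have : ∀ z : Fin 3 → F, ‖D.Sg ρ a i z‖ ^ 2 = ∑ x ∈ D.S, ∑ y ∈ D.S,
        if D.h x z = 0 ∧ D.h y z = 0 then inner ℝ (D.Φ ρ a i x) (D.Φ ρ a i y) else (0 : ℝ) := by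
      intro z
      rw [← real_inner_self_eq_norm_sq]
      unfold Dat.Sg
      rw [sum_inner, Finset.sum_filter]
      apply Finset.sum_congr rfl
      intro x _
      by_cases hxz : D.h x z = 0
      · rw [if_pos hxz, inner_sum, Finset.sum_filter]
        apply Finset.sum_congr rfl
        intro y _
        by_cases hyz : D.h y z = 0
        · rw [if_pos hyz, if_pos ⟨hxz, hyz⟩]
        · rw [if_neg hyz, if_neg (fun h => hyz h.2)]
      · rw [if_neg hxz]
        symm
        apply Finset.sum_eq_zero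
        intro y _
        rw [if_neg (fun h => hxz h.1)]
    rw [Finset.sum_congr rfl (fun z _ => this z), Finset.sum_comm]
    apply Finset.sum_congr rfl
    intro x _
    rw [Finset.sum_comm]
    apply Finset.sum_congr rfl
    intro y _
    rw [← Finset.sum_filter, Finset.sum_const, nsmul_eq_mul]
  have e2 : ∑ z : Fin 3 → F, ‖D.Sg ρ a i z‖ ^ 2 = 240 * ∑ x ∈ D.S,
      ∑ y ∈ D.S.filter (fun y => D.cr x y = 0), inner ℝ (D.Φ ρ a i x) (D.Φ ρ a i y) := by
    rw [e1]
    have : ∀ x ∈ D.S, ∑ y ∈ D.S,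
        ((Finset.univ.filter (fun z : Fin 3 → F => D.h x z = 0 ∧ D.h y z = 0)).card : ℝ) *
        inner ℝ (D.Φ ρ a i x) (D.Φ ρ a i y) =
        16 * inner ℝ (D.Φ ρ a i x) (∑ y ∈ D.S, D.Φ ρ a i y) + 240 *
          ∑ y ∈ D.S.filter (fun y => D.cr x y = 0), inner ℝ (D.Φ ρ a i x) (D.Φ ρ a i y) := by
      intro x hx
      rw [mem_S] at hx
      rw [inner_sum, Finset.mul_sum, Finset.sum_filter, Finset.mul_sum, ← Finset.sum_add_distrib]
      apply Finset.sum_congr rfl
      intro y _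
      by_cases hxy : D.cr x y = 0
      · rw [if_pos hxy, card_dep D hF hx hxy]; push_cast; ring
      · rw [if_neg hxy, card_ind D hxy, hF]; push_cast; ring
    rw [Finset.sum_congr rfl this, Finset.sum_add_distrib, total_zero D ρ hρ ha hp,
      Finset.mul_sum]
    simp
  have e3 : ∑ x ∈ D.S, ∑ y ∈ D.S.filter (fun y => D.cr x y = 0),
      inner ℝ (D.Φ ρ a i x) (D.Φ ρ a i y) ≤ (D.S.card : ℝ) * (5 * ‖a‖ ^ 2) := by
    rw [← nsmul_eq_mul]
    apply Finset.sum_le_card_nsmul
    intro x hx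
    rw [mem_S] at hx
    have h6 : ∑ y ∈ D.S.filter (fun y => D.cr x y = 0), inner ℝ (D.Φ ρ a i x) (D.Φ ρ a i y) ≤
        ((D.S.filter (fun y => D.cr x y = 0)).card : ℝ) * ‖a‖ ^ 2 := by
      rw [← nsmul_eq_mul]
      apply Finset.sum_le_card_nsmul
      intro y hy
      rw [Finset.mem_filter, mem_S] at hy
      have := real_inner_le_norm (D.Φ ρ a i x) (D.Φ ρ a i y)
      rw [Φ_norm D ρ hρ ha hx, Φ_norm D ρ hρ ha hy.1] at this
      rw [sq]; exact this
    have h7 : ((D.S.filter (fun y => D.cr x y = 0)).card : ℝ) ≤ 5 := by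
      exact_mod_cast card_prop D h5 hx
    nlinarith [sq_nonneg ‖a‖]
  -- lower bound
  have inj : Set.InjOn (fun p : F × (Fin 3 → F) => p.1 • p.2)
      ((({1, l, 1 + l} : Finset F) ×ˢ D.S : Finset (F × (Fin 3 → F))) : Set _) := by
    rintro ⟨c, x⟩ hc ⟨c', x'⟩ hc' h
    rw [Finset.mem_coe, Finset.mem_product, mem_S] at hc hc'
    have fx : ∀ c : F, c ∈ ({1, l, 1 + l} : Finset F) → D.s c = c ∧ c ≠ 0 := by
      intro c hc
      simp only [Finset.mem_insert, Finset.mem_singleton] at hc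
      rcases hc with rfl | rfl | rfl
      · exact ⟨map_one _, one_ne_zero⟩
      · exact ⟨hl, hl0⟩
      · exact ⟨by rw [map_add, map_one, hl], hl2⟩
    obtain ⟨f1, f2⟩ := fx c hc.1
    obtain ⟨f1', f2'⟩ := fx c' hc'.1
    have h8 : D.h (c • x) (c • x) = D.h (c' • x') (c' • x') := by
      have : c • x = c' • x' := h
      rw [this]
    rw [h_smul_left, h_smul_right, h_smul_left, h_smul_right, hc.2, hc'.2, f1, f1'] at h8
    have h9 : c = c' := by
      apply sq_inj D
      linear_combination h8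
    subst h9
    have h10 : x = x' := smul_cancel f2 h
    rw [h10]
  have hl3 : ({1, l, 1 + l} : Finset F).card = 3 := by
    rw [Finset.card_eq_three]
    refine ⟨1, l, 1 + l, fun h => hl1 h.symm, ?_, ?_, rfl⟩
    · intro h; apply hl0; linear_combination -h
    · intro h; exact one_ne_zero (by linear_combination -h : (1 : F) = 0)
  have e4 : (3 * D.S.card : ℝ) * ‖D.Sg ρ a i (E F j)‖ ^ 2 ≤
      ∑ z : Fin 3 → F, ‖D.Sg ρ a i z‖ ^ 2 := by
    have h11 : ∑ z ∈ (({1, l, 1 + l} : Finset F) ×ˢ D.S).image (fun p => p.1 • p.2),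
        ‖D.Sg ρ a i z‖ ^ 2 ≤ ∑ z : Fin 3 → F, ‖D.Sg ρ a i z‖ ^ 2 :=
      Finset.sum_le_sum_of_subset_of_nonneg (Finset.subset_univ _) (fun _ _ _ => sq_nonneg _)
    rw [Finset.sum_image inj] at h11
    have h12 : ∑ p ∈ (({1, l, 1 + l} : Finset F) ×ˢ D.S), ‖D.Sg ρ a i (p.1 • p.2)‖ ^ 2 =
        ∑ p ∈ (({1, l, 1 + l} : Finset F) ×ˢ D.S), ‖D.Sg ρ a i (E F j)‖ ^ 2 := by
      apply Finset.sum_congr rfl
      rintro ⟨c, x⟩ hc
      rw [Finset.mem_product, mem_S] at hc
      have hc0 : c ≠ 0 := by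
        have := hc.1
        simp only [Finset.mem_insert, Finset.mem_singleton] at this
        rcases this with rfl | rfl | rfl
        · exact one_ne_zero
        · exact hl0
        · exact hl2
      change ‖D.Sg ρ a i (c • x)‖ ^ 2 = _
      rw [Sg_smul D ρ a i hc0, Sg_norm D ρ hρ ha hc.2 (E_self D j)]
    rw [h12, Finset.sum_const, Finset.card_product, hl3, nsmul_eq_mul] at h11
    push_cast at h11
    exact h11
  have hS : 0 < (D.S.card : ℝ) := by
    have : 0 < D.S.card := Finset.card_pos.mpr ⟨E F 0, (mem_S D).mpr (E_self D 0)⟩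
    exact_mod_cast this
  have e5 : (D.S.card : ℝ) * (3 * ‖D.Sg ρ a i (E F j)‖ ^ 2) ≤
      (D.S.card : ℝ) * (1200 * ‖a‖ ^ 2) := by
    nlinarith
  have e6 := le_of_mul_le_mul_left e5 hS
  have e7 : ‖D.Sg ρ a i (E F j)‖ ^ 2 ≤ (20 * ‖a‖) ^ 2 := by nlinarith
  exact (sq_le_sq₀ (norm_nonneg _) (by positivity)).mp e7

end Rep

end Pool.Agent.Helper855.Kz
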