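import Pool.Agent.Helper855.KzBlk

/-!
Isotropic points, double transitivity, unipotent radical, simplicity.
-/

set_option autoImplicit false

namespace Pool.Agent.Helper855.Kz

open Matrix

variable {F : Type} [Field F] (D : Dat F)

/-- Coordinates with respect to an isotropic vector and a partner. -/
lemma coord_iso {u u' : Fin 3 → F} (hu : D.h u u = 0) (hu' : D.h u' u' = 0) (huu : D.h u u' = 1)
    (v : Fin 3 → F) : ∃ c0 c1 c2 : F, v = c0 • u + c1 • u' + c2 • D.cr u u' ∧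
      D.h v u = c1 ∧ D.h v u' = c0 ∧ D.h v (D.cr u u') = c2 := by
  have huu' : D.h u' u = 1 := by rw [← h_conj, huu, map_one]
  have hG : D.h u u * D.h u' u' + D.h u u' * D.h u' u = 1 := by rw [hu, huu, huu']; ring
  obtain ⟨c0, c1, c2, hv⟩ := exists_coord D hG v
  refine ⟨c0, c1, c2, hv, ?_, ?_, ?_⟩
  · rw [hv, h_add_left, h_add_left, h_smul_left, h_smul_left, h_smul_left, hu, huu',
      h_eq_zero_symm D (h_cr_left D u u')]
    ring
  · rw [hv, h_add_left, h_add_left, h_smul_left, h_smul_left, h_smul_left, hu', huu,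
      h_eq_zero_symm D (h_cr_right D u u')]
    ring
  · rw [hv, h_add_left, h_add_left, h_smul_left, h_smul_left, h_smul_left, h_cr_left, h_cr_right,
      h_cr_cr, hG]
    ring

lemma exists_partner {u : Fin 3 → F} (hu : D.h u u = 0) (h0 : u ≠ 0) :
    ∃ u' : Fin 3 → F, D.h u' u' = 0 ∧ D.h u u' = 1 := by
  obtain ⟨i, hi⟩ : ∃ i, u i ≠ 0 := by
    by_contra h
    push Not at h
    exact h0 (funext h)
  obtain ⟨c, d, h1, h2⟩ := partner D hu hi
  exact ⟨_, h2, h1⟩

/-- Orthogonal isotropic vectors are proportional. -/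
lemma iso_prop {u v : Fin 3 → F} (hu : D.h u u = 0) (hu0 : u ≠ 0) (hv : D.h v v = 0)
    (hv0 : v ≠ 0) (h : D.h u v = 0) : ∃ c : F, c ≠ 0 ∧ v = c • u := by
  obtain ⟨u', hu', huu⟩ := exists_partner D hu hu0
  have huu' : D.h u' u = 1 := by rw [← h_conj, huu, map_one]
  obtain ⟨c0, c1, c2, e, e1, -, -⟩ := coord_iso D hu hu' huu v
  have h1 : c1 = 0 := by rw [← e1]; exact h_eq_zero_symm D h
  rw [h1, zero_smul, add_zero] at e
  have h2 : c2 = 0 := by
    apply norm_zero D
    have : D.h v v = c2 * D.s c2 := by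
      rw [e]
      simp only [h_add_left, h_add_right, h_smul_left, h_smul_right, h_cr_left, h_cr_cr, hu, hu',
        huu, huu', h_eq_zero_symm D (h_cr_left D u u')]
      ring
    rw [← this, hv]
  rw [h2, zero_smul, add_zero] at e
  refine ⟨c0, ?_, e⟩
  rintro rfl
  rw [zero_smul] at e
  exact hv0 e

/-- The vectors orthogonal to the hyperplane orthogonal to an isotropic vector. -/
lemma perp_perp {u y : Fin 3 → F} (hu : D.h u u = 0) (hu0 : u ≠ 0)
    (hy : ∀ w, D.h w u = 0 → D.h y w = 0) : ∃ c : F, y = c • u := by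
  obtain ⟨u', hu', huu⟩ := exists_partner D hu hu0
  obtain ⟨c0, c1, c2, e, e1, -, e2⟩ := coord_iso D hu hu' huu y
  have h1 : c1 = 0 := by rw [← e1]; exact hy u hu
  have h2 : c2 = 0 := by
    rw [← e2]; exact hy _ (h_eq_zero_symm D (h_cr_left D u u'))
  exact ⟨c0, by rw [e, h1, h2]; simp⟩

/-- Nonzero isotropic vectors. -/
def Dat.IV : Type := {u : Fin 3 → F // u ≠ 0 ∧ D.h u u = 0}

/-- Constructor. -/
def Dat.iv (u : Fin 3 → F) (h0 : u ≠ 0) (hu : D.h u u = 0) : D.IV := ⟨u, h0, hu⟩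

lemma iv_val (u : Fin 3 → F) (h0 : u ≠ 0) (hu : D.h u u = 0) : (D.iv u h0 hu).1 = u := rfl

instance Dat.setoid : Setoid D.IV where
  r u v := ∃ c : F, c ≠ 0 ∧ v.1 = c • u.1
  iseqv := ⟨fun u => ⟨1, one_ne_zero, by rw [one_smul]⟩,
    fun {u v} ⟨c, hc, h⟩ => ⟨c⁻¹, inv_ne_zero hc, by rw [h, smul_smul, inv_mul_cancel₀ hc, one_smul]⟩,
    fun {u v w} ⟨c, hc, h⟩ ⟨d, hd, h'⟩ => ⟨d * c, mul_ne_zero hd hc, by rw [h', h, smul_smul]⟩⟩

/-- Isotropic points. -/
def Dat.X : Type := Quotient D.setoid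

/-- The point of an isotropic vector. -/
def Dat.pt (u : D.IV) : D.X := Quotient.mk D.setoid u

lemma pt_eq {u v : D.IV} : D.pt u = D.pt v ↔ ∃ c : F, c ≠ 0 ∧ v.1 = c • u.1 := Quotient.eq

lemma pt_surj (P : D.X) : ∃ u : D.IV, P = D.pt u := by
  obtain ⟨u, hu⟩ := Quotient.exists_rep P
  exact ⟨u, hu.symm⟩

/-- The action on isotropic vectors. -/
def Dat.gv (g : D.SU) (u : D.IV) : D.IV :=
  ⟨D.a g u.1, fun h => u.2.1 (a_inj D g (h.trans (a_zero D g).symm)), a_iso D g u.2.2⟩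

/-- The action on isotropic points. -/
def Dat.gp (g : D.SU) : D.X → D.X :=
  Quotient.map (D.gv g) (by
    rintro u v ⟨c, hc, h⟩
    exact ⟨c, hc, by change D.a g v.1 = c • D.a g u.1; rw [h, a_smul]⟩)

lemma gp_pt (g : D.SU) (u : D.IV) : D.gp g (D.pt u) = D.pt (D.gv g u) := rfl

instance : MulAction D.SU D.X where
  smul g P := D.gp g P
  one_smul P := by
    obtain ⟨u, rfl⟩ := pt_surj D P
    change D.pt (D.gv 1 u) = D.pt u
    congr 1
    exact Subtype.ext (a_one D u.1)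
  mul_smul g g' P := by
    obtain ⟨u, rfl⟩ := pt_surj D P
    change D.pt (D.gv (g * g') u) = D.pt (D.gv g (D.gv g' u))
    congr 1
    exact Subtype.ext (a_mul D g g' u.1)

lemma smul_pt (g : D.SU) (u : D.IV) : g • D.pt u = D.pt (D.gv g u) := rfl

lemma gv_val (g : D.SU) (u : D.IV) : (D.gv g u).1 = D.a g u.1 := rfl

/-- Normalised representative. -/
lemma norm_rep (u : D.IV) {Q : D.X} (h : Q ≠ D.pt u) :
    ∃ v : D.IV, Q = D.pt v ∧ D.h u.1 v.1 = 1 := by
  obtain ⟨w, rfl⟩ := pt_surj D Q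
  have h0 : D.h u.1 w.1 ≠ 0 := by
    intro h0
    obtain ⟨c, hc, e⟩ := iso_prop D u.2.2 u.2.1 w.2.2 w.2.1 h0
    exact h ((pt_eq D).mpr ⟨c, hc, e⟩).symm
  obtain ⟨c, hc⟩ : ∃ c, c = D.s (D.h u.1 w.1)⁻¹ := ⟨_, rfl⟩
  have hc0 : c ≠ 0 := by rw [hc]; exact (map_ne_zero D.s).mpr (inv_ne_zero h0)
  refine ⟨D.iv (c • w.1) (smul_ne_zero hc0 w.2.1) (by
    rw [h_smul_left, h_smul_right, w.2.2]; ring), (pt_eq D).mpr ⟨c, hc0, rfl⟩, ?_⟩
  rw [iv_val]
  rw [h_smul_right, hc, D.inv, inv_mul_cancel₀ h0]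

lemma iso_ne_of_one {u v : Fin 3 → F} (h : D.h u v = 1) : v ≠ 0 := by
  rintro rfl
  rw [h_zero_right] at h
  exact zero_ne_one h

theorem two_trans {a b c d : D.X} (hab : a ≠ b) (hcd : c ≠ d) :
    ∃ g : D.SU, g • a = c ∧ g • b = d := by
  obtain ⟨u, rfl⟩ := pt_surj D a
  obtain ⟨v, rfl, huv⟩ := norm_rep D u hab.symm
  obtain ⟨u', rfl⟩ := pt_surj D c
  obtain ⟨v', rfl, huv'⟩ := norm_rep D u' hcd.symm
  have hvu : D.h v.1 u.1 = 1 := by rw [← h_conj, huv, map_one]
  obtain ⟨g, g1, g2⟩ := witt D (x := u.1) (y := v.1) (x' := u'.1) (y' := v'.1)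
    (by rw [u.2.2, huv, hvu]; ring) (by rw [u.2.2, u'.2.2]) (by rw [huv, huv'])
    (by rw [v.2.2, v'.2.2])
  refine ⟨g, ?_, ?_⟩
  · rw [smul_pt]; congr 1; exact Subtype.ext g1
  · rw [smul_pt]; congr 1; exact Subtype.ext g2

/-- The unipotent radical of the stabiliser of an isotropic point. -/
def Dat.U (u : Fin 3 → F) : Subgroup D.SU where
  carrier := {g | D.a g u = u ∧ ∀ v, D.h v u = 0 → ∃ c : F, D.a g v = v + c • u}
  mul_mem' := by
    rintro a b ⟨ha, ha'⟩ ⟨hb, hb'⟩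
    refine ⟨by rw [a_mul, hb, ha], ?_⟩
    intro v hv
    obtain ⟨c, hc⟩ := hb' v hv
    obtain ⟨d, hd⟩ := ha' v hv
    refine ⟨c + d, ?_⟩
    rw [a_mul, hc, a_add, a_smul, ha, hd]
    module
  one_mem' := ⟨a_one D u, fun v _ => ⟨0, by rw [a_one]; simp⟩⟩
  inv_mem' := by
    rintro a ⟨ha, ha'⟩
    have h1 : D.a a⁻¹ u = u := by
      conv_lhs => rw [← ha]
      exact a_inv_a D a u
    refine ⟨h1, ?_⟩
    intro v hv
    obtain ⟨c, hc⟩ := ha' v hv
    refine ⟨-c, ?_⟩
    apply a_inj D a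
    rw [a_a_inv, a_add, a_smul, ha, hc]
    module

lemma mem_U {g : D.SU} {u : Fin 3 → F} : g ∈ D.U u ↔
    D.a g u = u ∧ ∀ v, D.h v u = 0 → ∃ c : F, D.a g v = v + c • u := Iff.rfl

lemma U_conj {u : D.IV} {g k : D.SU} (hg : g ∈ D.U u.1) (hk : k • D.pt u = D.pt u) :
    k * g * k⁻¹ ∈ D.U u.1 := by
  rw [smul_pt, eq_comm, pt_eq] at hk
  obtain ⟨c, hc, e⟩ := hk
  rw [gv_val] at e
  have e' : D.a k⁻¹ u.1 = c⁻¹ • u.1 := by
    apply a_inj D k
    rw [a_a_inv, a_smul, e, smul_smul, inv_mul_cancel₀ hc, one_smul]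
  refine ⟨?_, ?_⟩
  · rw [a_mul, a_mul, e', a_smul, a_smul, hg.1, e, smul_smul, inv_mul_cancel₀ hc, one_smul]
  · intro v hv
    have h1 : D.h (D.a k⁻¹ v) u.1 = 0 := by
      rw [← a_h D k, a_a_inv, e, h_smul_right, hv, mul_zero]
    obtain ⟨d, hd⟩ := hg.2 _ h1
    refine ⟨d * c, ?_⟩
    rw [a_mul, a_mul, hd, a_add, a_smul, a_a_inv, e, smul_smul]

lemma cr_add_right (x y z : Fin 3 → F) : D.cr x (y + z) = D.cr x y + D.cr x z := by
  funext i
  fin_cases i <;> simp [Dat.cr] <;> ring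

lemma cr_smul_right (c : F) (x y : Fin 3 → F) : D.cr x (c • y) = D.s c • D.cr x y := by
  funext i
  fin_cases i <;> simp [Dat.cr] <;> ring

lemma cr_self (x : Fin 3 → F) : D.cr x x = 0 := by
  funext i
  fin_cases i <;> simp [Dat.cr]
  · have : D.s (x 1) * D.s (x 2) + D.s (x 2) * D.s (x 1) = 0 := by
      linear_combination (D.s (x 1) * D.s (x 2)) * D.two
    exact this
  · have : D.s (x 2) * D.s (x 0) + D.s (x 0) * D.s (x 2) = 0 := by
      linear_combination (D.s (x 2) * D.s (x 0)) * D.two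
    exact this
  · have : D.s (x 0) * D.s (x 1) + D.s (x 1) * D.s (x 0) = 0 := by
      linear_combination (D.s (x 0) * D.s (x 1)) * D.two
    exact this

/-- Regularity of the unipotent radical. -/
theorem U_regular (u : D.IV) {y z : D.X} (hy : y ≠ D.pt u) (hz : z ≠ D.pt u) :
    ∃! g : D.SU, g ∈ D.U u.1 ∧ g • y = z := by
  obtain ⟨r1, rfl, h1⟩ := norm_rep D u hy
  obtain ⟨r2, rfl, h2⟩ := norm_rep D u hz
  have h1' : D.h r1.1 u.1 = 1 := by rw [← h_conj, h1, map_one]
  have h2' : D.h r2.1 u.1 = 1 := by rw [← h_conj, h2, map_one]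
  have hG : D.h u.1 u.1 * D.h r1.1 r1.1 + D.h u.1 r1.1 * D.h r1.1 u.1 = 1 := by
    rw [u.2.2, h1, h1']; ring
  obtain ⟨g, g1, g2⟩ := witt D (x := u.1) (y := r1.1) (x' := u.1) (y' := r2.1) hG rfl
    (by rw [h1, h2]) (by rw [r1.2.2, r2.2.2])
  have key : ∀ g : D.SU, g ∈ D.U u.1 → g • D.pt r1 = D.pt r2 → D.a g r1.1 = r2.1 := by
    intro g hg hgr
    rw [smul_pt, eq_comm, pt_eq] at hgr
    obtain ⟨c, hc, e⟩ := hgr
    rw [gv_val] at e
    have h3 : D.h (D.a g r1.1) (D.a g u.1) = 1 := by rw [a_h, h1']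
    rw [hg.1, e, h_smul_left, h2', mul_one] at h3
    rw [e, h3, one_smul]
  refine ⟨g, ⟨⟨g1, ?_⟩, ?_⟩, ?_⟩
  · intro v hv
    obtain ⟨c0, c1, c2, e, e1, -, -⟩ := coord_iso D u.2.2 r1.2.2 h1 v
    have hc1 : c1 = 0 := by rw [← e1]; exact hv
    rw [hc1, zero_smul, add_zero] at e
    -- the difference of the two partners
    have hd : D.h (r2.1 + r1.1) u.1 = 0 := by
      rw [h_add_left, h1', h2']; exact add_self' D 1
    obtain ⟨a0, a1, a2, f, f1, -, -⟩ := coord_iso D u.2.2 r1.2.2 h1 (r2.1 + r1.1)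
    have ha1 : a1 = 0 := by rw [← f1]; exact hd
    rw [ha1, zero_smul, add_zero] at f
    have hr2 : r2.1 = r1.1 + (a0 • u.1 + a2 • D.cr u.1 r1.1) := by
      rw [← f]
      funext i
      simp only [Pi.add_apply]
      linear_combination (-(r1.1 i)) * D.two
    obtain ⟨b, hb⟩ : ∃ b : F, D.cr u.1 (D.cr u.1 r1.1) = b • u.1 := by
      obtain ⟨b0, b1, b2, k, k1, -, k2⟩ := coord_iso D u.2.2 r1.2.2 h1 (D.cr u.1 (D.cr u.1 r1.1))
      have hb1 : b1 = 0 := by
        rw [← k1]; exact h_eq_zero_symm D (h_cr_left D _ _)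
      have hb2 : b2 = 0 := by
        rw [← k2]; exact h_eq_zero_symm D (h_cr_right D _ _)
      exact ⟨b0, by rw [k, hb1, hb2]; simp⟩
    have hcr : D.cr u.1 r2.1 = D.cr u.1 r1.1 + (D.s a2 * b) • u.1 := by
      rw [hr2, cr_add_right, cr_add_right, cr_smul_right, cr_smul_right, cr_self, hb]
      module
    refine ⟨c2 * (D.s a2 * b), ?_⟩
    rw [e, a_add, a_smul, a_smul, a_cr, g1, g2, hcr]
    module
  · rw [smul_pt]; congr 1; exact Subtype.ext g2
  · rintro g' ⟨hg', hgr'⟩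
    exact witt_unique D hG (by rw [hg'.1, g1]) (by rw [key g' hg' hgr', g2])

/-- The transvection subgroup of a point. -/
def Dat.T (P : D.X) : Subgroup D.SU where
  carrier := {g | ∀ v, (∀ u : D.IV, P = D.pt u → D.h v u.1 = 0) → D.a g v = v}
  mul_mem' := by
    intro a b ha hb v hv
    rw [a_mul, hb v hv, ha v hv]
  one_mem' := fun v _ => a_one D v
  inv_mem' := by
    intro a ha v hv
    have := ha v hv
    conv_lhs => rw [← this]
    exact a_inv_a D a v

lemma mem_T {g : D.SU} {P : D.X} : g ∈ D.T P ↔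
    ∀ v, (∀ u : D.IV, P = D.pt u → D.h v u.1 = 0) → D.a g v = v := Iff.rfl

lemma mem_T_pt {g : D.SU} {u : D.IV} : g ∈ D.T (D.pt u) ↔ ∀ v, D.h v u.1 = 0 → D.a g v = v := by
  rw [mem_T]
  constructor
  · intro h v hv
    apply h v
    intro w hw
    rw [pt_eq] at hw
    obtain ⟨c, hc, e⟩ := hw
    rw [e, h_smul_right, hv, mul_zero]
  · intro h v hv
    exact h v (hv u rfl)

/-- The Iwasawa structure. -/
def Dat.iwa : MulAction.IwasawaStructure D.SU D.X where
  T := D.T
  is_comm := by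
    intro P
    obtain ⟨u, rfl⟩ := pt_surj D P
    have mu : ∀ g ∈ D.T (D.pt u), ∀ v, ∃ c : F, D.a g v = v + c • u.1 := by
      intro g hg v
      rw [mem_T_pt] at hg
      obtain ⟨c, hc⟩ := perp_perp D (y := D.a g v - v) u.2.2 u.2.1 (by
        intro w hw
        have h1 : D.h (D.a g v) w = D.h v w := by
          conv_lhs => rw [← hg w hw]
          exact a_h D g v w
        have h2 : D.h (D.a g v - v) w = D.h (D.a g v) w - D.h v w := by
          simp only [h_def, Pi.sub_apply]; ring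
        rw [h2, h1, sub_self])
      exact ⟨c, by rw [← hc]; abel⟩
    apply IsMulCommutative.of_comm
    rintro ⟨g, hg⟩ ⟨g', hg'⟩
    apply Subtype.ext
    change g * g' = g' * g
    apply a_ext' D
    intro v
    obtain ⟨c, hc⟩ := mu g hg v
    obtain ⟨c', hc'⟩ := mu g' hg' v
    have f1 := (mem_T_pt D).mp hg u.1 u.2.2
    have f2 := (mem_T_pt D).mp hg' u.1 u.2.2
    rw [a_mul, a_mul, hc, hc', a_add, a_add, a_smul, a_smul, f1, f2, hc, hc']
    module
  is_conj := by
    intro g P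
    obtain ⟨u, rfl⟩ := pt_surj D P
    ext k
    rw [Subgroup.mem_pointwise_smul_iff_inv_smul_mem, smul_pt, mem_T_pt, mem_T_pt, gv_val]
    have e : (MulAut.conj g)⁻¹ • k = g⁻¹ * k * g := by
      rw [← map_inv, MulAut.smul_def, MulAut.conj_apply, inv_inv]
    rw [e]
    constructor
    · intro h v hv
      have h1 := h (D.a g v) (by rw [a_h, hv])
      rw [a_mul, a_mul, h1, a_inv_a]
    · intro h v hv
      have h1 := h (D.a g⁻¹ v) (by rw [← a_h D g, a_a_inv, hv])
      rw [a_mul, a_mul, a_a_inv] at h1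
      have h2 := congrArg (D.a g) h1
      rwa [a_a_inv, a_a_inv] at h2
  is_generator := by
    rw [eq_top_iff, ← TV_top D]
    unfold Dat.TV
    rw [Subgroup.closure_le]
    rintro _ ⟨u, hu, rfl⟩
    by_cases h0 : u = 0
    · rw [t_zero_of D u hu h0]; exact Subgroup.one_mem _
    · apply Subgroup.mem_iSup_of_mem (D.pt (D.iv u h0 hu))
      rw [mem_T_pt]
      intro v hv
      rw [a_t]
      rw [iv_val] at hv
      rw [hv]; simp

/-- Faithfulness. -/
theorem faithful (hc : ∀ x : F, x * x * x = 1 → x * D.s x = 1 → x = 1) : FaithfulSMul D.SU D.X := by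
  constructor
  intro g g' hg
  have hk : ∀ P : D.X, (g'⁻¹ * g) • P = P := by
    intro P
    rw [mul_smul, hg P, inv_smul_smul]
  suffices h : g'⁻¹ * g = 1 by
    rw [inv_mul_eq_one] at h; exact h.symm
  generalize g'⁻¹ * g = k at hk
  have hk2 : ∀ u : Fin 3 → F, u ≠ 0 → D.h u u = 0 → ∃ c : F, D.a k u = c • u := by
    intro u h0 hu
    have h1 := hk (D.pt (D.iv u h0 hu))
    rw [smul_pt, eq_comm, pt_eq] at h1
    obtain ⟨c, -, e⟩ := h1
    exact ⟨c, e⟩
  obtain ⟨u, hu⟩ : ∃ u : Fin 3 → F, u = ![1, 1, 0] := ⟨_, rfl⟩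
  obtain ⟨v, hv⟩ : ∃ v : Fin 3 → F, v = ![1, 0, 1] := ⟨_, rfl⟩
  have two' : (1 : F) + 1 = 0 := by linear_combination D.two
  have huu : D.h u u = 0 := by rw [h_def, hu]; simp [two']
  have hvv : D.h v v = 0 := by rw [h_def, hv]; simp [two']
  have huv : D.h u v = 1 := by rw [h_def, hu, hv]; simp
  have hvu : D.h v u = 1 := by rw [h_def, hu, hv]; simp
  have hu0 : u ≠ 0 := iso_ne_of_one D hvu
  have hv0 : v ≠ 0 := iso_ne_of_one D huv
  have hG : D.h u u * D.h v v + D.h u v * D.h v u = 1 := by rw [huu, huv, hvu]; ring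
  obtain ⟨t, ht⟩ := D.tr
  -- the third vector
  obtain ⟨r, hr⟩ : ∃ r, r = t • u + v + D.cr u v := ⟨_, rfl⟩
  have hcr : D.h (D.cr u v) (D.cr u v) = 1 := by rw [h_cr_cr, hG]
  have hrr : D.h r r = 0 := by
    rw [hr]
    simp only [h_add_left, h_add_right, h_smul_left, h_smul_right, h_cr_left, h_cr_right, huu, hvv,
      huv, hvu, hcr, h_eq_zero_symm D (h_cr_left D u v), h_eq_zero_symm D (h_cr_right D u v)]
    linear_combination ht + D.two
  have hru : D.h r u = 1 := by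
    rw [hr]
    simp only [h_add_left, h_smul_left, huu, hvu, h_eq_zero_symm D (h_cr_left D u v)]
    ring
  have hrc : D.h r (D.cr u v) = 1 := by
    rw [hr]
    simp only [h_add_left, h_smul_left, h_cr_left, h_cr_right, hcr]
    ring
  have hr0 : r ≠ 0 := by
    rintro h
    rw [h, h_zero_left] at hru
    exact zero_ne_one hru
  obtain ⟨al, hal⟩ := hk2 u hu0 huu
  obtain ⟨be, hbe⟩ := hk2 v hv0 hvv
  obtain ⟨ga, hga⟩ := hk2 r hr0 hrr
  have huv' : D.h (u + v) (u + v) = 0 := by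
    simp only [h_add_left, h_add_right, huu, hvv, huv, hvu]
    linear_combination D.two
  have huv0 : u + v ≠ 0 := by
    intro h
    have : D.h (u + v) u = 0 := by rw [h, h_zero_left]
    rw [h_add_left, huu, hvu] at this
    simp at this
  obtain ⟨de, hde⟩ := hk2 (u + v) huv0 huv'
  rw [a_add, hal, hbe] at hde
  -- al = be
  have e1 : be = de := by
    have := congrArg (fun x => D.h x u) hde
    simp only [h_add_left, h_smul_left, huu, hvu] at this
    linear_combination this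
  have e2 : al = de := by
    have := congrArg (fun x => D.h x v) hde
    simp only [h_add_left, h_smul_left, hvv, huv] at this
    linear_combination this
  have e3 : be = al := e1.trans e2.symm
  have hn : al * D.s al = 1 := by
    have : D.h (D.a k u) (D.a k v) = 1 := by rw [a_h, huv]
    rw [hal, hbe, h_smul_left, h_smul_right, huv, e3] at this
    linear_combination this
  have hcrk : D.a k (D.cr u v) = D.s (al * al) • D.cr u v := by
    rw [a_cr, hal, hbe, cr_smul, e3]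
  have hk3 : D.a k r = (al * t) • u + al • v + D.s (al * al) • D.cr u v := by
    rw [hr, a_add, a_add, a_smul, hal, hbe, hcrk, e3, smul_smul, mul_comm t al]
  rw [hga] at hk3
  have e4 : ga = al := by
    have := congrArg (fun x => D.h x u) hk3
    simp only [h_add_left, h_smul_left, huu, hvu, hru, h_eq_zero_symm D (h_cr_left D u v)] at this
    linear_combination this
  have e5 : ga = D.s (al * al) := by
    have := congrArg (fun x => D.h x (D.cr u v)) hk3
    simp only [h_add_left, h_smul_left, h_cr_left, h_cr_right, hcr, hrc] at this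
    linear_combination this
  have h3 : al * al * al = 1 := by
    have : al = D.s al * D.s al := by rw [← map_mul, ← e5, e4]
    calc al * al * al = al * al * (D.s al * D.s al) := by rw [← this]
      _ = (al * D.s al) * (al * D.s al) := by ring
      _ = 1 := by rw [hn]; ring
  have h1 := hc al h3 hn
  apply witt_unique D hG
  · rw [hal, h1, one_smul, a_one]
  · rw [hbe, e3, h1, one_smul, a_one]

/-- Simplicity. -/
theorem simple (hc : ∀ x : F, x * x * x = 1 → x * D.s x = 1 → x = 1) : IsSimpleGroup D.SU := by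
  have h2 : MulAction.IsMultiplyPretransitive D.SU D.X 2 :=
    MulAction.is_two_pretransitive_iff.mpr (fun h h' => two_trans D h h')
  have := MulAction.isPreprimitive_of_is_two_pretransitive h2
  have hnt : Nontrivial D.SU := by
    refine ⟨D.t ![1, 1, 0] (by rw [h_def]; simp; linear_combination D.two), 1, ?_⟩
    intro h
    have h3 := congrArg (fun g => D.a g (E F 0)) h
    simp only [a_t, a_one, h_E_left] at h3
    have := congrFun h3 1
    simp [E] at this
  exact D.iwa.isSimpleGroup (perfect D) (faithful D hc)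

end Pool.Agent.Helper855.Kz
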