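import Pool.Agent.Helper855.KzLocal
import Pool.Agent.Helper855.KzBlk
import Pool.Agent.Helper855.KzHilbert

/-!
The criterion for property (T).
-/

set_option autoImplicit false

namespace Pool.Agent.Helper855.Kz

open Matrix

section Fix

variable {H : Type*} [NormedAddCommGroup H] [InnerProductSpace ℝ H]
variable {A : Type*} [Group A] (τ : A →* (H →ₗ[ℝ] H))

/-- The fixed vectors. -/
def Fixs : Submodule ℝ H where
  carrier := {v | ∀ g, τ g v = v}
  add_mem' := by
    intro v w hv hw g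
    rw [map_add, hv g, hw g]
  zero_mem' := fun g => map_zero _
  smul_mem' := by
    intro c v hv g
    rw [map_smul, hv g]

lemma mem_Fixs {v : H} : v ∈ Fixs τ ↔ ∀ g, τ g v = v := Iff.rfl

lemma norm_of_inner (hτ : ∀ g v w, inner ℝ (τ g v) (τ g w) = inner ℝ v w) (g : A) (v : H) :
    ‖τ g v‖ = ‖v‖ := by
  have := hτ g v v
  rw [real_inner_self_eq_norm_sq, real_inner_self_eq_norm_sq] at this
  exact (sq_eq_sq₀ (norm_nonneg _) (norm_nonneg _)).mp this

lemma closed_Fixs (hτ : ∀ g v w, inner ℝ (τ g v) (τ g w) = inner ℝ v w) :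
    IsClosed (Fixs τ : Set H) := by
  have e : (Fixs τ : Set H) = ⋂ g, {v | τ g v = v} := by
    ext v
    simp [mem_Fixs]
  rw [e]
  apply isClosed_iInter
  intro g
  apply isClosed_eq _ continuous_id
  have : ∀ v, ‖τ g v‖ ≤ 1 * ‖v‖ := fun v => by rw [norm_of_inner τ hτ, one_mul]
  exact (LinearMap.mkContinuous (τ g) 1 this).continuous

lemma proj_Fixs [CompleteSpace H] (hτ : ∀ g v w, inner ℝ (τ g v) (τ g w) = inner ℝ v w) :
    (Fixs τ).HasOrthogonalProjection := by
  have := (closed_Fixs τ hτ).completeSpace_coe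
  infer_instance

lemma sum_mem_Fixs [Fintype A] (v : H) : ∑ g, τ g v ∈ Fixs τ := by
  intro k
  rw [map_sum]
  apply Fintype.sum_equiv (Equiv.mulLeft k)
  intro g
  rw [Equiv.coe_mulLeft, map_mul]; rfl

lemma fix_close [Fintype A] [(Fixs τ).HasOrthogonalProjection]
    (v : H) {ε : ℝ} (hv : ∀ g, ‖τ g v - v‖ ≤ ε) : ‖v - (Fixs τ).starProjection v‖ ≤ ε := by
  obtain ⟨q, hq⟩ : ∃ q, q = v - (Fixs τ).starProjection v := ⟨_, rfl⟩
  rw [← hq]
  have hP : (Fixs τ).starProjection v ∈ Fixs τ := Submodule.starProjection_apply_mem _ _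
  have h1 : inner ℝ q (∑ g, τ g q) = (0 : ℝ) := by
    rw [hq]
    exact Submodule.starProjection_inner_eq_zero _ _ (sum_mem_Fixs τ _)
  have h2 : ∀ g, τ g q - q = τ g v - v := by
    intro g
    rw [hq, map_sub, hP g]; abel
  have h3 : ∀ g, ‖q‖ ^ 2 - ε * ‖q‖ ≤ inner ℝ q (τ g q) := by
    intro g
    have e : τ g q = q + (τ g q - q) := by abel
    rw [e, inner_add_right, real_inner_self_eq_norm_sq, h2]
    have := abs_le.mp (abs_real_inner_le_norm q (τ g v - v))
    have h4 := hv g
    nlinarith [norm_nonneg q, this.1]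
  rw [inner_sum] at h1
  have h5 : (Fintype.card A : ℝ) * (‖q‖ ^ 2 - ε * ‖q‖) ≤ 0 := by
    rw [← h1, ← nsmul_eq_mul, Fintype.card]
    exact Finset.card_nsmul_le_sum _ _ _ (fun g _ => h3 g)
  have hA : 0 < (Fintype.card A : ℝ) := by exact_mod_cast Fintype.card_pos
  have h6 : ‖q‖ ^ 2 - ε * ‖q‖ ≤ 0 := by
    by_contra h
    push Not at h
    have := mul_pos hA h
    linarith
  by_contra h
  push Not at h
  have hε : 0 ≤ ε := (norm_nonneg _).trans (hv 1)
  nlinarith [norm_nonneg q]

lemma fix_avg [Fintype A] [(Fixs τ).HasOrthogonalProjection]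
    (hτ : ∀ g v w, inner ℝ (τ g v) (τ g w) = inner ℝ v w) (a : H) :
    (Fintype.card A : ℝ) * ‖(Fixs τ).starProjection a‖ ≤ ‖∑ g, τ g a‖ := by
  have h1 : ∀ g, (Fixs τ).starProjection (τ g a) = (Fixs τ).starProjection a := by
    intro g
    rw [← sub_eq_zero, ← map_sub, Submodule.starProjection_apply_eq_zero_iff,
      Submodule.mem_orthogonal']
    intro w hw
    have : inner ℝ (τ g a) w = inner ℝ a w := by
      conv_lhs => rw [← hw g]
      exact hτ g a w
    rw [inner_sub_left, this, sub_self]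
  have h2 : (Fixs τ).starProjection (∑ g, τ g a) =
      (Fintype.card A : ℝ) • (Fixs τ).starProjection a := by
    rw [map_sum, Finset.sum_congr rfl (fun g _ => h1 g), Finset.sum_const, Finset.card_univ,
      Nat.cast_smul_eq_nsmul]
  have h3 := Submodule.norm_starProjection_apply_le (Fixs τ) (∑ g, τ g a)
  rw [h2, norm_smul] at h3
  simpa using h3

end Fix

section Group

variable {F : Type} [Field F] (D : Dat F) [Fintype F] [DecidableEq F]

/-- The order of the stabilisers. -/
lemma stab_card [Fintype D.SU] (hF : Fintype.card F = 16)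
    (h5 : (Finset.univ.filter (fun x : F => x * D.s x = 1)).card ≤ 5)
    (h5' : ∀ d : F, d ≠ 0 → D.s d = d →
      5 ≤ (Finset.univ.filter (fun x : F => x * D.s x = d)).card) (j : Fin 3) :
    41 ≤ (Finset.univ.filter (fun g : D.SU => D.a g (E F j) = E F j)).card := by
  -- reduce to the last vector
  obtain ⟨w, hw⟩ := exists_unit_map D (E_self D 2) (E_self D j)
  have e1 : (Finset.univ.filter (fun g : D.SU => D.a g (E F 2) = E F 2)).card ≤
      (Finset.univ.filter (fun g : D.SU => D.a g (E F j) = E F j)).card := by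
    apply Finset.card_le_card_of_injOn (fun g => w * g * w⁻¹)
    · intro g hg
      rw [Finset.mem_coe, Finset.mem_filter] at hg ⊢
      refine ⟨Finset.mem_univ _, ?_⟩
      rw [a_mul, a_mul, ← hw, a_inv_a, hg.2]
    · intro g _ g' _ h
      have h' : w * g * w⁻¹ = w * g' * w⁻¹ := h
      have := mul_right_cancel h'
      exact mul_left_cancel this
  refine le_trans ?_ e1
  -- count blocks
  have e2 : (Finset.univ.filter (fun p : F × F => p.1 * D.s p.1 + p.2 * D.s p.2 = 1)).card ≤
      (Finset.univ.filter (fun g : D.SU => D.a g (E F 2) = E F 2)).card := by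
    apply Finset.card_le_card_of_injOn
      (fun p => if h : p.1 * D.s p.1 + p.2 * D.s p.2 = 1 then D.blk p.1 p.2 h else 1)
    · intro p hp
      rw [Finset.mem_coe, Finset.mem_filter] at hp ⊢
      refine ⟨Finset.mem_univ _, ?_⟩
      dsimp only
      rw [dif_pos hp.2]
      exact blk_mem D hp.2
    · rintro ⟨a, b⟩ hp ⟨a', b'⟩ hp' h
      rw [Finset.mem_coe, Finset.mem_filter] at hp hp'
      dsimp only at h hp hp'
      rw [dif_pos hp.2, dif_pos hp'.2] at h
      have h1 := congrArg (fun g => D.a g (E F 0)) h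
      simp only [a_blk] at h1
      have h2 := congrFun h1 0
      have h3 := congrFun h1 1
      simp only [Matrix.cons_val_zero, Matrix.cons_val_one, E] at h2 h3
      simp at h2 h3
      rw [h2, D.s.injective h3]
  refine le_trans ?_ e2
  rw [Finset.card_eq_sum_card_fiberwise (f := Prod.fst) (t := Finset.univ)
    (fun _ _ => Finset.mem_univ _)]
  have e3 : ∀ a ∈ Finset.univ.filter (fun a : F => ¬ a * D.s a = 1),
      5 ≤ ((Finset.univ.filter (fun p : F × F => p.1 * D.s p.1 + p.2 * D.s p.2 = 1)).filter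
        (fun p => p.1 = a)).card := by
    intro a ha
    rw [Finset.mem_filter] at ha
    have h1 := h5' (1 + a * D.s a) (by rw [add_comm]; exact add_eq_one_ne D ha.2)
      (by rw [map_add, map_one, norm_fixed])
    refine le_trans h1 ?_
    apply Finset.card_le_card_of_injOn (fun b => (a, b))
    · intro b hb
      rw [Finset.mem_coe, Finset.mem_filter] at hb
      rw [Finset.mem_coe, Finset.mem_filter, Finset.mem_filter]
      refine ⟨⟨Finset.mem_univ _, ?_⟩, rfl⟩
      dsimp only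
      rw [hb.2]
      linear_combination (a * D.s a) * D.two
    · intro b _ b' _ h
      exact (Prod.mk.inj h).2
  have e4 : (Finset.univ.filter (fun a : F => ¬ a * D.s a = 1)).card * 5 ≤
      ∑ a ∈ Finset.univ.filter (fun a : F => ¬ a * D.s a = 1),
      ((Finset.univ.filter (fun p : F × F => p.1 * D.s p.1 + p.2 * D.s p.2 = 1)).filter
        (fun p => p.1 = a)).card := by
    rw [← smul_eq_mul]
    exact Finset.card_nsmul_le_sum _ _ _ e3
  have e5 := Finset.sum_le_sum_of_subset (f := fun a : F =>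
      ((Finset.univ.filter (fun p : F × F => p.1 * D.s p.1 + p.2 * D.s p.2 = 1)).filter
        (fun p => p.1 = a)).card)
      (Finset.subset_univ (Finset.univ.filter (fun a : F => ¬ a * D.s a = 1)))
  have e6 := Finset.card_filter_add_card_filter_not (s := (Finset.univ : Finset F))
    (fun a : F => a * D.s a = 1)
  rw [Finset.card_univ, hF] at e6
  omega

variable {H : Type*} [NormedAddCommGroup H] [InnerProductSpace ℝ H]

/-- The angle between the fixed spaces of two stabilisers. -/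
theorem pair_est [CompleteSpace H] (hF : Fintype.card F = 16)
    (h5 : (Finset.univ.filter (fun x : F => x * D.s x = 1)).card ≤ 5)
    (h5' : ∀ d : F, d ≠ 0 → D.s d = d →
      5 ≤ (Finset.univ.filter (fun x : F => x * D.s x = d)).card)
    (ρ : D.SU →* (H →ₗ[ℝ] H)) (hρ : ∀ g v w, inner ℝ (ρ g v) (ρ g w) = inner ℝ v w)
    {i j : Fin 3} (hij : i ≠ j) (V W : Submodule ℝ H) [W.HasOrthogonalProjection]
    (hV : ∀ v, v ∈ V ↔ ∀ g ∈ D.St (E F i), ρ g v = v)
    (hW : ∀ v, v ∈ W ↔ ∀ g ∈ D.St (E F j), ρ g v = v)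
    (a : H) (ha : a ∈ V) (hp : ∀ c ∈ V ⊓ W, inner ℝ a c = (0 : ℝ)) :
    ‖W.starProjection a‖ ≤ 20 / 41 * ‖a‖ := by
  classical
  have : Fintype D.SU := Fintype.ofFinite _
  rw [hV] at ha
  have hp' : ∀ c : H, (∀ g, ρ g c = c) → inner ℝ a c = (0 : ℝ) := by
    intro c hc
    exact hp c ⟨(hV c).mpr (fun g _ => hc g), (hW c).mpr (fun g _ => hc g)⟩
  have h1 := local_est D ρ hF h5 hρ ha hp' j
  rw [Sg_stab D ρ hij ha] at h1
  -- the restricted representation
  let τ : D.St (E F j) →* (H →ₗ[ℝ] H) := ρ.comp (D.St (E F j)).subtype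
  have hτ : ∀ g v w, inner ℝ (τ g v) (τ g w) = inner ℝ v w := fun g v w => hρ g.1 v w
  have hWτ : W = Fixs τ := by
    ext v
    rw [hW, mem_Fixs]
    constructor
    · intro h g; exact h g.1 g.2
    · intro h g hg; exact h ⟨g, hg⟩
  subst hWτ
  have : Fintype (D.St (E F j)) := Fintype.ofFinite _
  have h2 := fix_avg τ hτ a
  have h3 : ∑ g, τ g a = ∑ g ∈ Finset.univ.filter (fun g : D.SU => D.a g (E F j) = E F j), ρ g a := by
    symm
    apply Finset.sum_subtype
    intro g
    rw [Finset.mem_filter]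
    exact ⟨fun h => h.2, fun h => ⟨Finset.mem_univ _, h⟩⟩
  have h4 : Fintype.card (D.St (E F j)) =
      (Finset.univ.filter (fun g : D.SU => D.a g (E F j) = E F j)).card := by
    apply Fintype.card_of_subtype
    intro g
    rw [Finset.mem_filter]
    exact ⟨fun h => h.2, fun h => ⟨Finset.mem_univ _, h⟩⟩
  have h5'' : (41 : ℝ) ≤ (Fintype.card (D.St (E F j)) : ℝ) := by
    rw [h4]; exact_mod_cast stab_card D hF h5 h5' j
  rw [h3] at h2
  have h6 := norm_nonneg ((Fixs τ).starProjection a)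
  have h7 := norm_nonneg a
  nlinarith

/-- The criterion. -/
theorem kaz_real [CompleteSpace H] (hF : Fintype.card F = 16)
    (h5 : (Finset.univ.filter (fun x : F => x * D.s x = 1)).card ≤ 5)
    (h5' : ∀ d : F, d ≠ 0 → D.s d = d →
      5 ≤ (Finset.univ.filter (fun x : F => x * D.s x = d)).card)
    {G : Type*} [Group G] (ia ib ic : D.SU →* G)
    (hab : ∀ g ∈ D.St (E F 0), ia g = ib g) (hac : ∀ g ∈ D.St (E F 2), ia g = ic g)
    (hbc : ∀ g ∈ D.St (E F 1), ib g = ic g) (htop : ia.range ⊔ ib.range ⊔ ic.range = ⊤)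
    (ρ : G →* (H →ₗ[ℝ] H)) (hρ : ∀ g v w, inner ℝ (ρ g v) (ρ g w) = inner ℝ v w)
    (hno : ∀ v, (∀ g, ρ g v = v) → v = 0) (v : H) {ε : ℝ}
    (ha : ∀ g, ‖ρ (ia g) v - v‖ ≤ ε) (hb : ∀ g, ‖ρ (ib g) v - v‖ ≤ ε) :
    1 / 41 * ‖v‖ ^ 2 ≤ 3 * ε ^ 2 := by
  classical
  let τ0 : D.St (E F 0) →* (H →ₗ[ℝ] H) := (ρ.comp ia).comp (D.St (E F 0)).subtype
  let τ1 : D.St (E F 1) →* (H →ₗ[ℝ] H) := (ρ.comp ib).comp (D.St (E F 1)).subtype
  let τ2 : D.St (E F 2) →* (H →ₗ[ℝ] H) := (ρ.comp ia).comp (D.St (E F 2)).subtype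
  have k0 : ∀ g v w, inner ℝ (τ0 g v) (τ0 g w) = inner ℝ v w := fun g v w => hρ _ v w
  have k1 : ∀ g v w, inner ℝ (τ1 g v) (τ1 g w) = inner ℝ v w := fun g v w => hρ _ v w
  have k2 : ∀ g v w, inner ℝ (τ2 g v) (τ2 g w) = inner ℝ v w := fun g v w => hρ _ v w
  have p0 := proj_Fixs τ0 k0
  have p1 := proj_Fixs τ1 k1
  have p2 := proj_Fixs τ2 k2
  have c01 : (Fixs τ0 ⊓ Fixs τ1).HasOrthogonalProjection := by
    have hc : IsClosed ((Fixs τ0 ⊓ Fixs τ1 : Submodule ℝ H) : Set H) :=
      (closed_Fixs τ0 k0).inter (closed_Fixs τ1 k1)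
    have := hc.completeSpace_coe
    infer_instance
  have c02 : (Fixs τ0 ⊓ Fixs τ2).HasOrthogonalProjection := by
    have hc : IsClosed ((Fixs τ0 ⊓ Fixs τ2 : Submodule ℝ H) : Set H) :=
      (closed_Fixs τ0 k0).inter (closed_Fixs τ2 k2)
    have := hc.completeSpace_coe
    infer_instance
  have c12 : (Fixs τ1 ⊓ Fixs τ2).HasOrthogonalProjection := by
    have hc : IsClosed ((Fixs τ1 ⊓ Fixs τ2 : Submodule ℝ H) : Set H) :=
      (closed_Fixs τ1 k1).inter (closed_Fixs τ2 k2)
    have := hc.completeSpace_coe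
    infer_instance
  have m0a : ∀ v, v ∈ Fixs τ0 ↔ ∀ g ∈ D.St (E F 0), (ρ.comp ia) g v = v := by
    intro v
    rw [mem_Fixs]
    exact ⟨fun h g hg => h ⟨g, hg⟩, fun h g => h g.1 g.2⟩
  have m0b : ∀ v, v ∈ Fixs τ0 ↔ ∀ g ∈ D.St (E F 0), (ρ.comp ib) g v = v := by
    intro v
    rw [m0a]
    constructor
    · intro h g hg; rw [MonoidHom.comp_apply, ← hab g hg]; exact h g hg
    · intro h g hg; rw [MonoidHom.comp_apply, hab g hg]; exact h g hg
  have m1b : ∀ v, v ∈ Fixs τ1 ↔ ∀ g ∈ D.St (E F 1), (ρ.comp ib) g v = v := by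
    intro v
    rw [mem_Fixs]
    exact ⟨fun h g hg => h ⟨g, hg⟩, fun h g => h g.1 g.2⟩
  have m1c : ∀ v, v ∈ Fixs τ1 ↔ ∀ g ∈ D.St (E F 1), (ρ.comp ic) g v = v := by
    intro v
    rw [m1b]
    constructor
    · intro h g hg; rw [MonoidHom.comp_apply, ← hbc g hg]; exact h g hg
    · intro h g hg; rw [MonoidHom.comp_apply, hbc g hg]; exact h g hg
  have m2a : ∀ v, v ∈ Fixs τ2 ↔ ∀ g ∈ D.St (E F 2), (ρ.comp ia) g v = v := by
    intro v
    rw [mem_Fixs]
    exact ⟨fun h g hg => h ⟨g, hg⟩, fun h g => h g.1 g.2⟩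
  have m2c : ∀ v, v ∈ Fixs τ2 ↔ ∀ g ∈ D.St (E F 2), (ρ.comp ic) g v = v := by
    intro v
    rw [m2a]
    constructor
    · intro h g hg; rw [MonoidHom.comp_apply, ← hac g hg]; exact h g hg
    · intro h g hg; rw [MonoidHom.comp_apply, hac g hg]; exact h g hg
  have h01 : (0 : Fin 3) ≠ 1 := by decide
  have h02 : (0 : Fin 3) ≠ 2 := by decide
  have h12 : (1 : Fin 3) ≠ 2 := by decide
  have gen' : ∀ (i : D.SU →* G) (k l : Fin 3), k ≠ l → ∀ v : H,
      (∀ g ∈ D.St (E F k), (ρ.comp i) g v = v) → (∀ g ∈ D.St (E F l), (ρ.comp i) g v = v) →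
      ∀ g, ρ (i g) v = v := by
    intro i k l hkl v hk hl
    let Sb : Subgroup D.SU :=
      { carrier := {g | ρ (i g) v = v}
        mul_mem' := by
          intro x y hx hy
          change ρ (i (x * y)) v = v
          rw [map_mul, map_mul, Module.End.mul_apply, hy, hx]
        one_mem' := by
          change ρ (i 1) v = v
          rw [map_one, map_one]; rfl
        inv_mem' := by
          intro x hx
          change ρ (i x⁻¹) v = v
          have hx' : ρ (i x) v = v := hx
          conv_lhs => rw [← hx']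
          rw [← Module.End.mul_apply, ← map_mul, ← map_mul, inv_mul_cancel, map_one, map_one]
          rfl }
    have hS : Sb = ⊤ := gen D hkl Sb (fun g hg => hk g hg) (fun g hg => hl g hg)
    intro g
    have : g ∈ Sb := by rw [hS]; trivial
    exact this
  have key := three_sub (Fixs τ0) (Fixs τ1) (Fixs τ2) (ε := 20 / 41) (by norm_num) (by norm_num)
    (fun a ha hp => pair_est D hF h5 h5' (ρ.comp ib) (fun g v w => hρ _ v w) h01 (Fixs τ0)
      (Fixs τ1) m0b m1b a ha hp)
    (fun a ha hp => pair_est D hF h5 h5' (ρ.comp ia) (fun g v w => hρ _ v w) h02 (Fixs τ0)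
      (Fixs τ2) m0a m2a a ha hp)
    (fun a ha hp => pair_est D hF h5 h5' (ρ.comp ic) (fun g v w => hρ _ v w) h12 (Fixs τ1)
      (Fixs τ2) m1c m2c a ha hp)
    (by
      intro x x0 x1 x2
      apply hno
      let Sb : Subgroup G :=
        { carrier := {g | ρ g x = x}
          mul_mem' := by
            intro a b ha hb
            change ρ (a * b) x = x
            rw [map_mul, Module.End.mul_apply, hb, ha]
          one_mem' := by
            change ρ 1 x = x
            rw [map_one]; rfl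
          inv_mem' := by
            intro a ha
            change ρ a⁻¹ x = x
            have ha' : ρ a x = x := ha
            conv_lhs => rw [← ha']
            rw [← Module.End.mul_apply, ← map_mul, inv_mul_cancel, map_one]
            rfl }
      have hS : Sb = ⊤ := by
        rw [eq_top_iff, ← htop, sup_le_iff, sup_le_iff]
        refine ⟨⟨?_, ?_⟩, ?_⟩
        · rintro _ ⟨g, rfl⟩
          exact gen' ia 0 2 h02 x ((m0a x).mp x0) ((m2a x).mp x2) g
        · rintro _ ⟨g, rfl⟩
          exact gen' ib 0 1 h01 x ((m0b x).mp x0) ((m1b x).mp x1) g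
        · rintro _ ⟨g, rfl⟩
          exact gen' ic 1 2 h12 x ((m1c x).mp x1) ((m2c x).mp x2) g
      intro g
      have : g ∈ Sb := by rw [hS]; trivial
      exact this) v
  have : Fintype (D.St (E F 0)) := Fintype.ofFinite _
  have : Fintype (D.St (E F 1)) := Fintype.ofFinite _
  have : Fintype (D.St (E F 2)) := Fintype.ofFinite _
  have n0 := fix_close τ0 v (fun g => ha g.1)
  have n1 := fix_close τ1 v (fun g => hb g.1)
  have n2 := fix_close τ2 v (fun g => ha g.1)
  have q0 := pow_le_pow_left₀ (norm_nonneg _) n0 2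
  have q1 := pow_le_pow_left₀ (norm_nonneg _) n1 2
  have q2 := pow_le_pow_left₀ (norm_nonneg _) n2 2
  linarith

end Group

end Pool.Agent.Helper855.Kz
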