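import Pool.Agent.Helper855.KzMap
import Pool.Agent.Helper855.KzPts
import Pool.Agent.Helper855.KzT

/-!
The group and its quotients.
-/

set_option autoImplicit false

namespace Pool.Agent.Helper855.Kz

open Matrix

/-- The exponent. -/
def em (n : ℕ) : ℕ := 2 * (2 * n + 1)

lemma em_ge (n : ℕ) : 2 ≤ em n := by unfold em; omega

/-- The fields. -/
abbrev Fn (n : ℕ) : Type := GaloisField 2 (em n + em n)

noncomputable instance (n : ℕ) : Fintype (Fn n) := Fintype.ofFinite _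

noncomputable instance (n : ℕ) : DecidableEq (Fn n) := Classical.decEq _

lemma card_Fn (n : ℕ) : Fintype.card (Fn n) = 2 ^ em n * 2 ^ em n := by
  rw [← Nat.card_eq_fintype_card, GaloisField.card 2 _ (by unfold em; omega), pow_add]

/-- The data. -/
noncomputable def Dn (n : ℕ) : Dat (Fn n) := mkDat (em n) (em_ge n) (card_Fn n)

lemma Dn_s (n : ℕ) (x : Fn n) : (Dn n).s x = x ^ 2 ^ em n := mkDat_s _ _ _ x

lemma three_dvd (n : ℕ) : 3 ∣ 2 ^ em n + 2 := by
  have h : 2 ^ em n = 4 ^ (2 * n + 1) := by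
    unfold em; rw [pow_mul]; norm_num
  rw [h]
  have h2 : 4 ^ (2 * n + 1) % 3 = 1 := by
    rw [Nat.pow_mod]; norm_num
  omega

lemma cube_cond (n : ℕ) (x : Fn n) (h3 : x * x * x = 1) (hx : x * (Dn n).s x = 1) : x = 1 := by
  obtain ⟨j, hj⟩ := three_dvd n
  have e2 : x ^ (2 ^ em n + 2) = x := by
    have : x ^ (2 ^ em n + 2) = (x * x ^ 2 ^ em n) * x := by ring
    rw [this, ← Dn_s, hx, one_mul]
  rw [← e2, hj, pow_mul]
  have : x ^ 3 = 1 := by rw [← h3]; ring
  rw [this, one_pow]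

lemma exists_emb (n : ℕ) : Nonempty (Fn 0 →ₐ[ZMod 2] Fn n) := by
  apply FiniteField.nonempty_algHom_of_finrank_dvd
  rw [GaloisField.finrank 2 (by unfold em; omega), GaloisField.finrank 2 (by unfold em; omega)]
  exact ⟨2 * n + 1, by unfold em; ring⟩

/-- The embeddings. -/
noncomputable def io (n : ℕ) : Fn 0 →+* Fn n := (exists_emb n).some.toRingHom

lemma io_s (n : ℕ) (x : Fn 0) : io n ((Dn 0).s x) = (Dn n).s (io n x) := by
  rw [Dn_s, Dn_s, ← map_pow]
  congr 1
  have h1 : 2 ^ em n = Fintype.card (Fn 0) ^ n * 2 ^ em 0 := by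
    rw [card_Fn]
    have : (2 ^ em 0 * 2 ^ em 0) ^ n * 2 ^ em 0 = 2 ^ ((em 0 + em 0) * n + em 0) := by
      rw [← pow_add, ← pow_mul, ← pow_add]
    rw [this]
    congr 1
    unfold em
    ring
  rw [h1, pow_mul, FiniteField.pow_card_pow]

/-- The parameter. -/
noncomputable def et (n : ℕ) : Fn n :=
  (exists_norm_gen (Dn n) (em n) (em_ge n) (card_Fn n) (Dn_s n)).choose

lemma et_norm (n : ℕ) : et n * (Dn n).s (et n) = 1 :=
  (exists_norm_gen (Dn n) (em n) (em_ge n) (card_Fn n) (Dn_s n)).choose_spec.1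

lemma et_gen (n : ℕ) : ∀ x : Fn n, x * (Dn n).s x = 1 → ∃ k : ℕ, x = et n ^ k :=
  (exists_norm_gen (Dn n) (em n) (em_ge n) (card_Fn n) (Dn_s n)).choose_spec.2

/-- The constant homomorphism. -/
noncomputable def mp (n : ℕ) : (Dn 0).SU →* (Dn n).SU := mapSU (Dn 0) (Dn n) (io n) (io_s n)

/-- The product group. -/
abbrev PG : Type := ∀ n : ℕ, (Dn n).SU

/-- The first homomorphism. -/
noncomputable def ja : (Dn 0).SU →* PG := MonoidHom.pi mp

/-- The second homomorphism. -/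
noncomputable def jb : (Dn 0).SU →* PG :=
  MonoidHom.pi (fun n => (MulAut.conj ((Dn n).tt (et_norm n) 0)).toMonoidHom.comp (mp n))

/-- The third homomorphism. -/
noncomputable def jc : (Dn 0).SU →* PG :=
  MonoidHom.pi (fun n => (MulAut.conj ((Dn n).tt (et_norm n) 0 *
    (Dn n).tt (et_norm n) 1)).toMonoidHom.comp (mp n))

lemma ja_apply (g : (Dn 0).SU) (n : ℕ) : ja g n = mp n g := rfl

lemma jb_apply (g : (Dn 0).SU) (n : ℕ) :
    jb g n = (Dn n).tt (et_norm n) 0 * mp n g * ((Dn n).tt (et_norm n) 0)⁻¹ := rfl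

lemma jc_apply (g : (Dn 0).SU) (n : ℕ) :
    jc g n = ((Dn n).tt (et_norm n) 0 * (Dn n).tt (et_norm n) 1) * mp n g *
      ((Dn n).tt (et_norm n) 0 * (Dn n).tt (et_norm n) 1)⁻¹ := rfl

lemma jab (g : (Dn 0).SU) (hg : g ∈ (Dn 0).St (E (Fn 0) 0)) : ja g = jb g := by
  funext n
  have h := tt_comm (Dn n) (et_norm n) 0 (map_St (Dn 0) (Dn n) (io n) (io_s n) hg)
  change (Dn n).tt (et_norm n) 0 * mp n g = mp n g * (Dn n).tt (et_norm n) 0 at h
  rw [ja_apply, jb_apply, h]
  group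

lemma jbc (g : (Dn 0).SU) (hg : g ∈ (Dn 0).St (E (Fn 0) 1)) : jb g = jc g := by
  funext n
  have h := tt_comm (Dn n) (et_norm n) 1 (map_St (Dn 0) (Dn n) (io n) (io_s n) hg)
  change (Dn n).tt (et_norm n) 1 * mp n g = mp n g * (Dn n).tt (et_norm n) 1 at h
  rw [jb_apply, jc_apply, mul_assoc ((Dn n).tt (et_norm n) 0) ((Dn n).tt (et_norm n) 1) (mp n g), h]
  group

lemma jac (g : (Dn 0).SU) (hg : g ∈ (Dn 0).St (E (Fn 0) 2)) : ja g = jc g := by
  funext n
  have e : (Dn n).tt (et_norm n) 0 * (Dn n).tt (et_norm n) 1 = ((Dn n).tt (et_norm n) 2)⁻¹ := by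
    rw [eq_inv_iff_mul_eq_one]; exact tt_prod (Dn n) (et_norm n)
  rw [ja_apply, jc_apply, e, inv_inv]
  have h := tt_comm (Dn n) (et_norm n) 2 (map_St (Dn 0) (Dn n) (io n) (io_s n) hg)
  change (Dn n).tt (et_norm n) 2 * mp n g = mp n g * (Dn n).tt (et_norm n) 2 at h
  rw [mul_assoc, ← h]
  group

/-- The group. -/
noncomputable def GG : Subgroup PG := ja.range ⊔ jb.range ⊔ jc.range

lemma ja_mem (g : (Dn 0).SU) : ja g ∈ GG :=
  Subgroup.mem_sup_left (Subgroup.mem_sup_left ⟨g, rfl⟩)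

lemma jb_mem (g : (Dn 0).SU) : jb g ∈ GG :=
  Subgroup.mem_sup_left (Subgroup.mem_sup_right ⟨g, rfl⟩)

lemma jc_mem (g : (Dn 0).SU) : jc g ∈ GG :=
  Subgroup.mem_sup_right ⟨g, rfl⟩

/-- Codomain restrictions. -/
noncomputable def ka : (Dn 0).SU →* GG := ja.codRestrict GG ja_mem

noncomputable def kb : (Dn 0).SU →* GG := jb.codRestrict GG jb_mem

noncomputable def kc : (Dn 0).SU →* GG := jc.codRestrict GG jc_mem

lemma k_top : ka.range ⊔ kb.range ⊔ kc.range = ⊤ := by
  apply Subgroup.map_injective GG.subtype_injective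
  rw [Subgroup.map_sup, Subgroup.map_sup, MonoidHom.map_range, MonoidHom.map_range,
    MonoidHom.map_range]
  have e1 : GG.subtype.comp ka = ja := rfl
  have e2 : GG.subtype.comp kb = jb := rfl
  have e3 : GG.subtype.comp kc = jc := rfl
  rw [e1, e2, e3, ← MonoidHom.range_eq_map, Subgroup.range_subtype]
  rfl

/-- The projections. -/
noncomputable def pr (n : ℕ) : GG →* (Dn n).SU := (Pi.evalMonoidHom _ n).comp GG.subtype

lemma pr_surj (n : ℕ) : Function.Surjective (pr n) := by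
  rw [← MonoidHom.range_eq_top]
  apply surj (Dn n) (em n) (em_ge n) (card_Fn n) (Dn_s n) (three_dvd n) (et_norm n) (et_gen n)
    (Dn 0) (io n) (io_s n)
  · intro g
    exact ⟨ka g, rfl⟩
  · intro g
    exact ⟨kb g, rfl⟩

lemma card_Fn0 : Fintype.card (Fn 0) = 16 := by
  rw [card_Fn]; rfl

lemma five_le (d : Fn 0) (hd : d ≠ 0) (hs : (Dn 0).s d = d) :
    (Finset.univ.filter (fun x : Fn 0 => x * (Dn 0).s x = d)).card = 5 := by
  have := card_norm (em 0) (em_ge 0) (card_Fn 0) (x := d) (by rw [← Dn_s]; exact hs) hd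
  simp only [← Dn_s] at this
  rw [this]; rfl

/-- **Property (T).** -/
theorem kazhdan (H : Type) [NormedAddCommGroup H] [InnerProductSpace ℂ H] [CompleteSpace H]
    (ρ : GG →* unitary (H →L[ℂ] H))
    (hal : ∀ (S : Finset GG) (ε : ℝ), 0 < ε →
      ∃ v : H, ‖v‖ = 1 ∧ ∀ s ∈ S, ‖(ρ s : H →L[ℂ] H) v - v‖ < ε) :
    ∃ v : H, v ≠ 0 ∧ ∀ g : GG, (ρ g : H →L[ℂ] H) v = v := by
  classical
  by_contra hno
  push Not at hno
  let _ : InnerProductSpace ℝ H := InnerProductSpace.rclikeToReal ℂ H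
  have : Fintype (Dn 0).SU := Fintype.ofFinite _
  let τ : GG →* (H →ₗ[ℝ] H) :=
    { toFun := fun g =>
        { toFun := fun v => (ρ g : H →L[ℂ] H) v
          map_add' := fun v w => map_add _ v w
          map_smul' := fun c v => by
            have e : ∀ w : H, c • w = (c : ℂ) • w := fun w => rfl
            rw [e, map_smul]; exact (e _).symm }
      map_one' := by
        ext v
        change (ρ 1 : H →L[ℂ] H) v = v
        rw [map_one]; rfl
      map_mul' := fun g g' => by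
        ext v
        change (ρ (g * g') : H →L[ℂ] H) v = (ρ g : H →L[ℂ] H) ((ρ g' : H →L[ℂ] H) v)
        rw [map_mul]; rfl }
  have hτ : ∀ g v, τ g v = (ρ g : H →L[ℂ] H) v := fun g v => rfl
  have hin : ∀ g v w, inner ℝ (τ g v) (τ g w) = inner ℝ v w := by
    intro g v w
    rw [real_inner_eq_re_inner ℂ, real_inner_eq_re_inner ℂ, hτ, hτ]
    congr 1
    exact ContinuousLinearMap.inner_map_map_of_mem_unitary (ρ g).2 v w
  obtain ⟨v, hv1, hv2⟩ := hal (Finset.univ.image ka ∪ Finset.univ.image kb) (1 / 12) (by norm_num)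
  have key := kaz_real (Dn 0) card_Fn0 (five_le 1 one_ne_zero (map_one _)).le
    (fun d hd hs => (five_le d hd hs).ge) ka kb kc
    (fun g hg => Subtype.ext (jab g hg)) (fun g hg => Subtype.ext (jac g hg))
    (fun g hg => Subtype.ext (jbc g hg)) k_top τ hin
    (fun v hv => by
      by_contra h0
      obtain ⟨g, hg⟩ := hno v h0
      exact hg (hv g)) v (ε := 1 / 12)
    (fun g => (hv2 (ka g) (Finset.mem_union_left _ (Finset.mem_image_of_mem _
      (Finset.mem_univ g)))).le)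
    (fun g => (hv2 (kb g) (Finset.mem_union_right _ (Finset.mem_image_of_mem _
      (Finset.mem_univ g)))).le)
  rw [hv1] at key
  norm_num at key

section BN

variable {F : Type} [Field F] (D : Dat F) [Finite F]

instance : Finite D.X := by
  have : Finite D.IV := inferInstanceAs (Finite {u : Fin 3 → F // u ≠ 0 ∧ D.h u u = 0})
  exact Quotient.finite _

omit [Finite F] in
lemma pt_ne {u v : D.IV} (h : D.h u.1 v.1 = 1) : D.pt u ≠ D.pt v := by
  intro e
  rw [pt_eq] at e
  obtain ⟨c, -, e⟩ := e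
  rw [e, h_smul_right, u.2.2, mul_zero] at h
  exact zero_ne_one h

lemma card_X : 3 ≤ Nat.card D.X := by
  have t : (1 : F) + 1 = 0 := by linear_combination D.two
  have h0 : D.h ![1, 1, 0] ![1, 1, 0] = 0 := by rw [h_def]; simp [t]
  have h1 : D.h ![1, 0, 1] ![1, 0, 1] = 0 := by rw [h_def]; simp [t]
  have h2 : D.h ![0, 1, 1] ![0, 1, 1] = 0 := by rw [h_def]; simp [t]
  have h01 : D.h ![1, 1, 0] ![1, 0, 1] = 1 := by rw [h_def]; simp
  have h02 : D.h ![1, 1, 0] ![0, 1, 1] = 1 := by rw [h_def]; simp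
  have h12 : D.h ![1, 0, 1] ![0, 1, 1] = 1 := by rw [h_def]; simp
  have n0 : (![1, 1, 0] : Fin 3 → F) ≠ 0 := by
    intro h; have := congrFun h 0; simp at this
  have n1 : (![1, 0, 1] : Fin 3 → F) ≠ 0 := by
    intro h; have := congrFun h 0; simp at this
  have n2 : (![0, 1, 1] : Fin 3 → F) ≠ 0 := by
    intro h; have := congrFun h 1; simp at this
  have p01 : D.pt (D.iv _ n0 h0) ≠ D.pt (D.iv _ n1 h1) := pt_ne D h01
  have p02 : D.pt (D.iv _ n0 h0) ≠ D.pt (D.iv _ n2 h2) := pt_ne D h02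
  have p12 : D.pt (D.iv _ n1 h1) ≠ D.pt (D.iv _ n2 h2) := pt_ne D h12
  classical
  have : Fintype D.X := Fintype.ofFinite _
  rw [Nat.card_eq_fintype_card]
  have h3 : ({D.pt (D.iv _ n0 h0), D.pt (D.iv _ n1 h1), D.pt (D.iv _ n2 h2)} :
      Finset D.X).card = 3 := by
    rw [Finset.card_eq_three]
    exact ⟨_, _, _, p01, p02, p12, rfl⟩
  rw [← h3]
  exact Finset.card_le_univ _

/-- The split BN-pair of rank one. -/
theorem bn_pair : ∃ (X : Type) (φ : D.SU →* Equiv.Perm X), Finite X ∧ 3 ≤ Nat.card X ∧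
    (∀ a b c d : X, a ≠ b → c ≠ d → ∃ g : D.SU, φ g a = c ∧ φ g b = d) ∧
    ∃ (x : X) (U : Subgroup D.SU),
      (∀ u ∈ U, φ u x = x) ∧
      (∀ u ∈ U, ∀ h : D.SU, φ h x = x → h * u * h⁻¹ ∈ U) ∧
      ∀ y z : X, y ≠ x → z ≠ x → ∃! u : D.SU, u ∈ U ∧ φ u y = z := by
  refine ⟨D.X, MulAction.toPermHom D.SU D.X, inferInstance, card_X D, ?_, ?_⟩
  · intro a b c d hab hcd
    exact two_trans D hab hcd
  · have t : (1 : F) + 1 = 0 := by linear_combination D.two
    have h0 : D.h ![1, 1, 0] ![1, 1, 0] = 0 := by rw [h_def]; simp [t]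
    have n0 : (![1, 1, 0] : Fin 3 → F) ≠ 0 := by
      intro h; have := congrFun h 0; simp at this
    obtain ⟨u, hu⟩ : ∃ u : D.IV, u = D.iv _ n0 h0 := ⟨_, rfl⟩
    refine ⟨D.pt u, D.U u.1, ?_, ?_, ?_⟩
    · intro g hg
      change g • D.pt u = D.pt u
      rw [smul_pt]
      congr 1
      exact Subtype.ext hg.1
    · intro g hg k hk
      exact U_conj D hg hk
    · intro y z hy hz
      exact U_regular D u hy hz

end BN

/-- Unbounded orders. -/
lemma card_large (n : ℕ) : n < Nat.card (Dn n).SU := by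
  classical
  have : Fintype (Dn n).SU := Fintype.ofFinite _
  rw [Nat.card_eq_fintype_card]
  have h1 := card_norm (em n) (em_ge n) (card_Fn n) (x := 1) (one_pow _) one_ne_zero
  have h2 : (Finset.univ.filter (fun b : Fn n => b * b ^ 2 ^ em n = 1)).card ≤
      Fintype.card (Dn n).SU := by
    rw [← Finset.card_univ]
    apply Finset.card_le_card_of_injOn
      (fun x => if h : x * (Dn n).s x = 1 then (Dn n).blk x 0 (torus_norm _ h) else 1)
    · intro x _; exact Finset.mem_coe.mpr (Finset.mem_univ _)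
    · intro x hx y hy h
      rw [Finset.mem_coe, Finset.mem_filter, ← Dn_s] at hx hy
      dsimp only at h
      rw [dif_pos hx.2, dif_pos hy.2] at h
      have h3 := congrArg (fun g => (Dn n).a g (E (Fn n) 0)) h
      simp only [a_blk] at h3
      have h4 := congrFun h3 0
      simpa [E] using h4
  rw [h1] at h2
  have h3 : n < 2 ^ n := Nat.lt_two_pow_self
  have h4 : 2 ^ n ≤ 2 ^ em n := Nat.pow_le_pow_right (by norm_num) (by unfold em; omega)
  omega

/-- The set of kernels is infinite. -/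
theorem kernels_infinite (P : Subgroup GG → Prop) (hP : ∀ n, P (pr n).ker) :
    ¬ Set.Finite {N : Subgroup GG | P N} := by
  intro hf
  have h1 : (fun N : Subgroup GG => N.index) '' {N : Subgroup GG | P N} |>.Finite := hf.image _
  obtain ⟨B, hB⟩ := h1.bddAbove
  have h2 := hB ⟨(pr B).ker, hP B, rfl⟩
  dsimp only at h2
  rw [Subgroup.index_ker, MonoidHom.range_eq_top.mpr (pr_surj B)] at h2
  have h3 := card_large B
  rw [Subgroup.card_top] at h2
  omega

end Pool.Agent.Helper855.Kz
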