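import Pool.Agent.Helper855.KzFull
import Pool.Agent.Helper855.KzFin

/-!
Functoriality, diagonal elements and generation in the large group.
-/

set_option autoImplicit false

namespace Pool.Agent.Helper855.Kz

open Matrix

section Diag

variable {F : Type} [Field F] (D : Dat F)

lemma form_of_basis (M : Matrix (Fin 3) (Fin 3) F)
    (h : ∀ i j, D.h (M *ᵥ E F i) (M *ᵥ E F j) = D.h (E F i) (E F j)) (v w : Fin 3 → F) :
    D.h (M *ᵥ v) (M *ᵥ w) = D.h v w := by
  rw [vec_eq v, vec_eq w]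
  simp only [Matrix.mulVec_add, Matrix.mulVec_smul, h_add_left, h_add_right, h_smul_left,
    h_smul_right, h]

/-- Diagonal matrices. -/
def Dat.dm (x : Fin 3 → F) : Matrix (Fin 3) (Fin 3) F := Matrix.diagonal x

/-- Diagonal elements. -/
def Dat.dg (x : Fin 3 → F) (h : x 0 * x 1 * x 2 = 1) (hn : ∀ i, x i * D.s (x i) = 1) : D.SU :=
  ⟨sl (Matrix.diagonal x) (by rw [Matrix.det_diagonal, Fin.prod_univ_three]; exact h), by
    intro v w
    rw [mx_sl]
    have : ∀ v : Fin 3 → F, Matrix.diagonal x *ᵥ v = fun i => x i * v i := by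
      intro v
      funext i
      rw [Matrix.mulVec_diagonal]
    rw [this, this, h_def, h_def]
    simp only [map_mul]
    linear_combination (v 0 * D.s (w 0)) * hn 0 + (v 1 * D.s (w 1)) * hn 1 +
      (v 2 * D.s (w 2)) * hn 2⟩

lemma a_dg (x : Fin 3 → F) (h : x 0 * x 1 * x 2 = 1) (hn : ∀ i, x i * D.s (x i) = 1)
    (v : Fin 3 → F) : D.a (D.dg x h hn) v = fun i => x i * v i := by
  funext i
  change (Matrix.diagonal x *ᵥ v) i = _
  rw [Matrix.mulVec_diagonal]

/-- Diagonal elements commute with stabilisers. -/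
lemma dg_comm (x : Fin 3 → F) (h : x 0 * x 1 * x 2 = 1) (hn : ∀ i, x i * D.s (x i) = 1)
    (k : Fin 3) (c : F) (hc : ∀ i, i ≠ k → x i = c) {g : D.SU} (hg : g ∈ D.St (E F k)) :
    D.dg x h hn * g = g * D.dg x h hn := by
  have e : ∀ v : Fin 3 → F, D.a (D.dg x h hn) v = c • v + ((x k - c) * v k) • E F k := by
    intro v
    rw [a_dg]
    funext i
    by_cases hik : i = k
    · subst hik
      simp [E]
      ring
    · simp only [Pi.add_apply, Pi.smul_apply, smul_eq_mul, hc i hik, E]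
      rw [Pi.single_eq_of_ne hik]
      ring
  apply a_ext' D
  intro v
  have hgk : (D.a g v) k = v k := by
    rw [← h_E D (D.a g v) k]
    conv_lhs => rw [← (mem_St D).mp hg]
    rw [a_h, h_E]
  rw [a_mul, a_mul, e, e, a_add, a_smul, a_smul, (mem_St D).mp hg, hgk]

end Diag

section Map

variable {F L : Type} [Field F] [Field L] (D : Dat F) (D' : Dat L) (f : F →+* L)
  (hf : ∀ x, f (D.s x) = D'.s (f x))

include hf in
lemma h_map (v w : Fin 3 → F) : D'.h (f ∘ v) (f ∘ w) = f (D.h v w) := by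
  rw [h_def, h_def]
  simp only [Function.comp_apply, map_add, map_mul, hf]

lemma E_map (i : Fin 3) : f ∘ E F i = E L i := by
  funext j
  by_cases h : j = i
  · subst h; simp [E]
  · simp [E, Pi.single_eq_of_ne h]

lemma mulVec_map (M : Matrix (Fin 3) (Fin 3) F) (v : Fin 3 → F) :
    (M.map f) *ᵥ (f ∘ v) = f ∘ (M *ᵥ v) := by
  funext i
  simp [Matrix.mulVec, dotProduct]

/-- The induced homomorphism. -/
def mapSU : D.SU →* D'.SU where
  toFun g := ⟨Matrix.SpecialLinearGroup.map f g.1, by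
    have e : mx (Matrix.SpecialLinearGroup.map f g.1) = (mx g.1).map f := rfl
    intro v w
    rw [e]
    apply form_of_basis
    intro i j
    rw [← E_map (F := F) f i, ← E_map (F := F) f j, mulVec_map, mulVec_map, h_map D D' f hf,
      h_map D D' f hf]
    congr 1
    exact a_h D g _ _⟩
  map_one' := by
    apply Subtype.ext
    exact map_one _
  map_mul' g g' := by
    apply Subtype.ext
    exact map_mul _ _ _

lemma a_map (g : D.SU) (v : Fin 3 → F) : D'.a (mapSU D D' f hf g) (f ∘ v) = f ∘ D.a g v :=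
  mulVec_map f (mx g.1) v

lemma a_map_E (g : D.SU) {i : Fin 3} {v : Fin 3 → F} (h : D.a g (E F i) = v) :
    D'.a (mapSU D D' f hf g) (E L i) = f ∘ v := by
  rw [← E_map f i, a_map, h]

lemma map_St {g : D.SU} {i : Fin 3} (hg : g ∈ D.St (E F i)) :
    mapSU D D' f hf g ∈ D'.St (E L i) := by
  rw [mem_St] at hg ⊢
  rw [a_map_E D D' f hf g hg, E_map]

include hf in
lemma blk_map_norm {a b : F} (h : a * D.s a + b * D.s b = 1) :
    f a * D'.s (f a) + f b * D'.s (f b) = 1 := by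
  rw [← hf, ← hf, ← map_mul, ← map_mul, ← map_add, h, map_one]

lemma blk_map {a b : F} (h : a * D.s a + b * D.s b = 1) :
    mapSU D D' f hf (D.blk a b h) = D'.blk (f a) (f b) (blk_map_norm D D' f hf h) := by
  apply a_ext D'
  intro i
  change D'.a _ (E L i) = D'.a _ (E L i)
  rw [← E_map (F := F) f i, a_map, a_blk, a_blk]
  funext j
  fin_cases j <;> simp [hf]

end Map

section Big

variable {F : Type} [Field F] (D : Dat F)

lemma norm_pow {x : F} (hx : x * D.s x = 1) (k : ℕ) : x ^ k * D.s (x ^ k) = 1 := by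
  rw [map_pow, ← mul_pow, hx, one_pow]

lemma norm_inv {x : F} (hx : x * D.s x = 1) : x⁻¹ * D.s x⁻¹ = 1 := by
  rw [map_inv₀, ← mul_inv, hx, inv_one]

lemma ne_zero_of_norm {x : F} (hx : x * D.s x = 1) : x ≠ 0 := by
  rintro rfl
  rw [zero_mul] at hx
  exact zero_ne_one hx

lemma torus_pow {x : F} (hx : x * D.s x = 1) (k : ℕ) :
    D.blk (x ^ k) 0 (torus_norm D (norm_pow D hx k)) = D.blk x 0 (torus_norm D hx) ^ k := by
  induction k with
  | zero =>
    refine Eq.trans ?_ (pow_zero (D.blk x 0 (torus_norm D hx))).symm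
    apply a_ext' D
    intro v
    rw [a_blk, a_one]
    funext i
    fin_cases i <;> simp
  | succ k ih =>
    refine Eq.trans ?_ (pow_succ (D.blk x 0 (torus_norm D hx)) k).symm
    rw [← ih, blk_mul]
    apply blk_congr
    · rw [map_zero]; ring
    · ring

/-- The three twisting elements. -/
def tw (η : F) (k : Fin 3) : Fin 3 → F := fun i => if i = k then η ^ 2 else η⁻¹

lemma tw_prod {η : F} (h0 : η ≠ 0) (k : Fin 3) : tw η k 0 * tw η k 1 * tw η k 2 = 1 := by
  unfold tw
  fin_cases k <;> simp <;> field_simp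

lemma tw_norm {η : F} (hη : η * D.s η = 1) (k i : Fin 3) : tw η k i * D.s (tw η k i) = 1 := by
  unfold tw
  by_cases h : i = k
  · rw [if_pos h]; exact norm_pow D hη 2
  · rw [if_neg h]; exact norm_inv D hη

/-- The twisting element. -/
def Dat.tt {η : F} (hη : η * D.s η = 1) (k : Fin 3) : D.SU :=
  D.dg (tw η k) (tw_prod (ne_zero_of_norm D hη) k) (tw_norm D hη k)

lemma a_tt {η : F} (hη : η * D.s η = 1) (k : Fin 3) (v : Fin 3 → F) :
    D.a (D.tt hη k) v = fun i => tw η k i * v i := a_dg D _ _ _ v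

lemma tt_comm {η : F} (hη : η * D.s η = 1) (k : Fin 3) {g : D.SU} (hg : g ∈ D.St (E F k)) :
    D.tt hη k * g = g * D.tt hη k := by
  apply dg_comm D _ _ _ k η⁻¹ _ hg
  intro i hi
  unfold tw
  rw [if_neg hi]

lemma tt_prod {η : F} (hη : η * D.s η = 1) : D.tt hη 0 * D.tt hη 1 * D.tt hη 2 = 1 := by
  have h0 := ne_zero_of_norm D hη
  apply a_ext' D
  intro v
  rw [a_mul, a_mul, a_tt, a_tt, a_tt, a_one]
  funext i
  unfold tw
  fin_cases i <;> simp <;> field_simp

/-- The third power of the parameter as a commutator. -/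
lemma tt_swap {η : F} (hη : η * D.s η = 1) :
    D.tt hη 0 * D.blk 0 1 (anti_norm D (x := 1) (by rw [map_one, one_mul])) * (D.tt hη 0)⁻¹ *
      (D.blk 0 1 (anti_norm D (x := 1) (by rw [map_one, one_mul])))⁻¹ =
      D.blk (η ^ 3) 0 (torus_norm D (norm_pow D hη 3)) := by
  have h0 := ne_zero_of_norm D hη
  have hs : D.s η = η⁻¹ := by
    apply mul_left_cancel₀ h0
    rw [hη, mul_inv_cancel₀ h0]
  rw [mul_inv_eq_iff_eq_mul, mul_inv_eq_iff_eq_mul]
  apply a_ext' D
  intro v
  rw [a_mul, a_mul, a_mul, a_tt, a_tt, a_blk, a_blk, a_blk]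
  funext i
  unfold tw
  fin_cases i
  · simp
    field_simp
  · simp [hs]
    field_simp
  · simp

/-- **Surjectivity criterion.** -/
theorem surj [Fintype F] [DecidableEq F] (m : ℕ) (hm : 2 ≤ m)
    (hc : Fintype.card F = 2 ^ m * 2 ^ m) (hs : ∀ x, D.s x = x ^ 2 ^ m)
    (h3 : 3 ∣ 2 ^ m + 2) {η : F} (hη : η * D.s η = 1)
    (hgen : ∀ x : F, x * D.s x = 1 → ∃ k : ℕ, x = η ^ k)
    {K : Type} [Field K] (C : Dat K) (f : K →+* F) (hf : ∀ x, f (C.s x) = D.s (f x))
    (H : Subgroup D.SU) (h1 : ∀ g, mapSU C D f hf g ∈ H)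
    (h2 : ∀ g, D.tt hη 0 * mapSU C D f hf g * (D.tt hη 0)⁻¹ ∈ H) : H = ⊤ := by
  -- the torus
  have e1 : mapSU C D f hf (C.blk 0 1 (anti_norm C (x := 1) (by rw [map_one, one_mul]))) =
      D.blk 0 1 (anti_norm D (x := 1) (by rw [map_one, one_mul])) := by
    rw [blk_map]
    apply blk_congr
    · exact map_zero f
    · exact map_one f
  have hS : D.blk 0 1 (anti_norm D (x := 1) (by rw [map_one, one_mul])) ∈ H := by
    rw [← e1]; exact h1 _
  have hc3 : D.blk (η ^ 3) 0 (torus_norm D (norm_pow D hη 3)) ∈ H := by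
    rw [← tt_swap D hη]
    apply H.mul_mem _ (H.inv_mem hS)
    rw [← e1]; exact h2 _
  have hT : ∀ x (hx : x * D.s x = 1), D.blk x 0 (torus_norm D hx) ∈ H := by
    intro x hx
    obtain ⟨j, hj⟩ := h3
    obtain ⟨k, hk⟩ := hgen x hx
    have hx3 : x = (η ^ 3) ^ (k * j) := by
      have e2 : x ^ (2 ^ m + 2) = x := by
        have : x ^ (2 ^ m + 2) = (x * x ^ 2 ^ m) * x := by ring
        rw [this, ← hs, hx, one_mul]
      rw [← e2, hj, hk]
      rw [← pow_mul, ← pow_mul]
      congr 1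
      ring
    have e3 : D.blk x 0 (torus_norm D hx) =
        D.blk ((η ^ 3) ^ (k * j)) 0 (torus_norm D (norm_pow D (norm_pow D hη 3) (k * j))) :=
      blk_congr D _ _ hx3 rfl
    rw [e3, torus_pow D (norm_pow D hη 3)]
    exact H.pow_mem hc3 _
  -- a generic element
  obtain ⟨l, hl, hl0, hl1⟩ := C.lam
  have hl2 : 1 + l ≠ 0 := by rw [add_comm]; exact add_eq_one_ne C hl1
  obtain ⟨a, ha⟩ := C.nsurj l hl
  obtain ⟨b, hb⟩ := C.nsurj (1 + l) (by rw [map_add, map_one, hl])
  have hab : a * C.s a + b * C.s b = 1 := by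
    rw [ha, hb]; linear_combination l * C.two
  have ha0 : a ≠ 0 := by rintro rfl; rw [zero_mul] at ha; exact hl0 ha.symm
  have hb0 : b ≠ 0 := by rintro rfl; rw [zero_mul] at hb; exact hl2 hb.symm
  have hm1 : D.blk (f a) (f b) (blk_map_norm C D f hf hab) ∈ H := by
    rw [← blk_map C D f hf hab]; exact h1 _
  -- the permutation
  have h02 : (0 : Fin 3) ≠ 2 := by decide
  obtain ⟨w, w0, -⟩ := witt C (x := E K 2) (y := E K 0) (x' := E K 0) (y' := E K 2)
    (by rw [E_self, E_self, E_ne C h02.symm]; ring) (by rw [E_self, E_self])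
    (by rw [E_ne C h02, E_ne C h02.symm]) (by rw [E_self, E_self])
  refine full D (2 ^ m) ?_ ?_ H hT hS _ hm1 ((map_ne_zero f).mpr ha0) ((map_ne_zero f).mpr hb0)
    (h1 w) ?_
  · intro d hd hsd
    have := card_norm m hm hc (x := d) (by rw [← hs]; exact hsd) hd
    simp only [← hs] at this
    rw [this]
  · have := card_fixed (F := F) m hm
    simp only [← hs] at this
    exact this
  · rw [a_map_E C D f hf w w0, E_map]

/-- A generator of the norm one group. -/
lemma exists_norm_gen [Fintype F] (m : ℕ) (hm : 2 ≤ m)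
    (hc : Fintype.card F = 2 ^ m * 2 ^ m) (hs : ∀ x, D.s x = x ^ 2 ^ m) :
    ∃ η : F, η * D.s η = 1 ∧ ∀ x : F, x * D.s x = 1 → ∃ k : ℕ, x = η ^ k := by
  have hq : 4 ≤ 2 ^ m := by
    calc 4 = 2 ^ 2 := by norm_num
      _ ≤ 2 ^ m := Nat.pow_le_pow_right (by norm_num) hm
  obtain ⟨g, hg0, hg1, hg2⟩ := exists_gen (F := F) (2 ^ m) hc (by omega)
  refine ⟨g ^ (2 ^ m - 1), ?_, ?_⟩
  · rw [hs, ← pow_mul, ← pow_add, hg2]
    exact ⟨1, by ring⟩
  · intro x hx
    obtain ⟨n, rfl⟩ := hg1 x (ne_zero_of_norm D hx)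
    rw [hs, ← pow_mul, ← pow_add, hg2] at hx
    have e : n + n * 2 ^ m = n * (2 ^ m + 1) := by ring
    rw [e] at hx
    obtain ⟨k, hk⟩ := Nat.dvd_of_mul_dvd_mul_right (by omega) hx
    exact ⟨k, by rw [hk, pow_mul]⟩

end Big

end Pool.Agent.Helper855.Kz
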