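import Pool.Agent.Helper855.RcMobius

set_option autoImplicit false

open Filter Topology

namespace Pool.Agent.Helper855.Rc

/-- inverse golden ratio -/
noncomputable def rho : ℝ := (Real.sqrt 5 - 1) / 2

theorem sqrt5_sq : Real.sqrt 5 ^ 2 = 5 := Real.sq_sqrt (by norm_num)

theorem rho_sq : rho ^ 2 = 1 - rho := by
  have := sqrt5_sq
  rw [rho]
  linear_combination this / 4

theorem rho_gt : (61 : ℝ) / 100 < rho := by
  have h1 : (222 : ℝ) / 100 < Real.sqrt 5 := by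
    apply Real.lt_sqrt_of_sq_lt
    norm_num
  rw [rho]
  linarith

theorem rho_lt : rho < (62 : ℝ) / 100 := by
  have h1 : Real.sqrt 5 < (224 : ℝ) / 100 := by
    rw [Real.sqrt_lt' (by norm_num)]
    norm_num
  rw [rho]
  linarith

theorem rho_pos : 0 < rho := by linarith [rho_gt]

/-- complex split logarithm -/
noncomputable def Ls (y : ℂ) : ℂ := Complex.log (1 - y + y ^ 2) - Complex.log (1 - y)

/-- complex inert logarithm -/
noncomputable def Li (y : ℂ) : ℂ := Complex.log (1 + y - y ^ 2) - Complex.log (1 + y)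

theorem re_lt {y : ℂ} (hy : y ∈ Metric.ball (0 : ℂ) rho) :
    -rho < y.re ∧ y.re < rho ∧ y.re ^ 2 + y.im ^ 2 < rho ^ 2 := by
  rw [mem_ball_zero_iff] at hy
  have h1 := Complex.abs_re_le_norm y
  have h2 := abs_le.mp h1
  refine ⟨by linarith, by linarith, ?_⟩
  have h3 : ‖y‖ ^ 2 = y.re ^ 2 + y.im ^ 2 := by
    rw [Complex.sq_norm, Complex.normSq_apply]
    ring
  rw [← h3]
  exact pow_lt_pow_left₀ hy (norm_nonneg _) (by norm_num)

theorem slit1 {y : ℂ} (hy : y ∈ Metric.ball (0 : ℂ) rho) : 1 - y ∈ Complex.slitPlane := by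
  obtain ⟨h1, h2, -⟩ := re_lt hy
  left
  simp only [Complex.sub_re, Complex.one_re]
  linarith [rho_lt]

theorem slit2 {y : ℂ} (hy : y ∈ Metric.ball (0 : ℂ) rho) : 1 + y ∈ Complex.slitPlane := by
  obtain ⟨h1, h2, -⟩ := re_lt hy
  left
  simp only [Complex.add_re, Complex.one_re]
  linarith [rho_lt]

theorem slit3 {y : ℂ} (hy : y ∈ Metric.ball (0 : ℂ) rho) :
    1 - y + y ^ 2 ∈ Complex.slitPlane := by
  obtain ⟨h1, h2, h3⟩ := re_lt hy
  left
  have : (1 - y + y ^ 2).re = 1 - y.re + (y.re * y.re - y.im * y.im) := by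
    rw [sq, Complex.add_re, Complex.sub_re, Complex.mul_re, Complex.one_re]
  rw [this]
  have h4 := rho_sq
  have h5 := rho_gt
  nlinarith [sq_nonneg (y.re - 1 / 4)]

theorem slit4 {y : ℂ} (hy : y ∈ Metric.ball (0 : ℂ) rho) :
    1 + y - y ^ 2 ∈ Complex.slitPlane := by
  obtain ⟨h1, h2, h3⟩ := re_lt hy
  left
  have : (1 + y - y ^ 2).re = 1 + y.re - (y.re * y.re - y.im * y.im) := by
    rw [sq, Complex.sub_re, Complex.add_re, Complex.mul_re, Complex.one_re]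
  rw [this]
  have h4 := rho_sq
  have h5 : 0 < (y.re + rho) * (1 + rho - y.re) := by
    apply mul_pos
    · linarith
    · linarith
  nlinarith [sq_nonneg y.im]

theorem Ls_diff : DifferentiableOn ℂ Ls (Metric.ball 0 rho) := by
  intro y hy
  apply DifferentiableAt.differentiableWithinAt
  unfold Ls
  exact ((by fun_prop : DifferentiableAt ℂ (fun y : ℂ => 1 - y + y ^ 2) y).clog (slit3 hy)).sub
    ((by fun_prop : DifferentiableAt ℂ (fun y : ℂ => 1 - y) y).clog (slit1 hy))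

theorem Li_diff : DifferentiableOn ℂ Li (Metric.ball 0 rho) := by
  intro y hy
  apply DifferentiableAt.differentiableWithinAt
  unfold Li
  exact ((by fun_prop : DifferentiableAt ℂ (fun y : ℂ => 1 + y - y ^ 2) y).clog (slit4 hy)).sub
    ((by fun_prop : DifferentiableAt ℂ (fun y : ℂ => 1 + y) y).clog (slit2 hy))

theorem ball_nhds : Metric.ball (0 : ℂ) rho ∈ 𝓝 (0 : ℂ) := Metric.ball_mem_nhds _ rho_pos

theorem Ls_zero : Ls 0 = 0 := by simp [Ls]

theorem Li_zero : Li 0 = 0 := by simp [Li]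

theorem zero_mem : (0 : ℂ) ∈ Metric.ball (0 : ℂ) rho := by
  rw [mem_ball_zero_iff, norm_zero]
  exact rho_pos

theorem Ls_deriv : deriv Ls 0 = 0 := by
  have h2 : HasDerivAt (fun y : ℂ => 1 - y) (-1 : ℂ) 0 := (hasDerivAt_id' (0 : ℂ)).const_sub 1
  have h1 : HasDerivAt (fun y : ℂ => 1 - y + y ^ 2) (-1 : ℂ) 0 :=
    (h2.fun_add ((hasDerivAt_id' (0 : ℂ)).fun_pow 2)).congr_deriv (by simp)
  have h3 := (h1.clog (slit3 zero_mem)).sub (h2.clog (slit1 zero_mem))
  have h4 : deriv Ls 0 = _ := h3.deriv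
  rw [h4]
  simp

theorem Li_deriv : deriv Li 0 = 0 := by
  have h2 : HasDerivAt (fun y : ℂ => 1 + y) (1 : ℂ) 0 := (hasDerivAt_id' (0 : ℂ)).const_add 1
  have h1 : HasDerivAt (fun y : ℂ => 1 + y - y ^ 2) (1 : ℂ) 0 :=
    (h2.fun_sub ((hasDerivAt_id' (0 : ℂ)).fun_pow 2)).congr_deriv (by simp)
  have h3 := (h1.clog (slit4 zero_mem)).sub (h2.clog (slit2 zero_mem))
  have h4 : deriv Li 0 = _ := h3.deriv
  rw [h4]
  simp

/-- divided difference -/
noncomputable def ks : ℂ → ℂ := dslope Ls 0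

/-- divided difference -/
noncomputable def ki : ℂ → ℂ := dslope Li 0

theorem ks_diff : DifferentiableOn ℂ ks (Metric.ball 0 rho) :=
  (Complex.differentiableOn_dslope ball_nhds).mpr Ls_diff

theorem ki_diff : DifferentiableOn ℂ ki (Metric.ball 0 rho) :=
  (Complex.differentiableOn_dslope ball_nhds).mpr Li_diff

theorem ks_zero : ks 0 = 0 := by rw [ks, dslope_same, Ls_deriv]

theorem ki_zero : ki 0 = 0 := by rw [ki, dslope_same, Li_deriv]

theorem ks_eq {y : ℂ} (hy : y ≠ 0) : ks y = Ls y / y := by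
  rw [ks, dslope_of_ne _ hy, slope_def_field, Ls_zero, sub_zero, sub_zero]

theorem ki_eq {y : ℂ} (hy : y ≠ 0) : ki y = Li y / y := by
  rw [ki, dslope_of_ne _ hy, slope_def_field, Li_zero, sub_zero, sub_zero]

theorem bound_of (k : ℂ → ℂ) (hk : DifferentiableOn ℂ k (Metric.ball 0 rho)) (h0 : k 0 = 0) :
    ∃ C : ℝ, 0 ≤ C ∧ ∀ y : ℂ, ‖y‖ ≤ rho ^ 2 → ‖k y‖ ≤ C * ‖y‖ := by
  have h1 : DifferentiableOn ℂ (dslope k 0) (Metric.ball 0 rho) :=
    (Complex.differentiableOn_dslope ball_nhds).mpr hk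
  have hsub : Metric.closedBall (0 : ℂ) (rho ^ 2) ⊆ Metric.ball 0 rho := by
    apply Metric.closedBall_subset_ball
    rw [rho_sq]
    linarith [rho_gt]
  obtain ⟨C, hC⟩ := (isCompact_closedBall (0 : ℂ) (rho ^ 2)).exists_bound_of_continuousOn
    (h1.continuousOn.mono hsub)
  refine ⟨max C 0, le_max_right _ _, ?_⟩
  intro y hy
  by_cases hy0 : y = 0
  · rw [hy0, h0]
    simp
  · have h3 := hC y (mem_closedBall_zero_iff.mpr hy)
    rw [dslope_of_ne _ hy0, slope_def_field, h0, sub_zero, sub_zero, norm_div] at h3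
    have h4 : 0 < ‖y‖ := norm_pos_iff.mpr hy0
    rw [div_le_iff₀ h4] at h3
    refine h3.trans ?_
    apply mul_le_mul_of_nonneg_right (le_max_left _ _) h4.le

/-- the terms of the exponent -/
noncomputable def Tt (d : ℕ) (t : ℂ) : ℂ :=
  (d : ℂ)⁻¹ * ((Ga d t - Gi d t - (if d = 1 then 2 * t else 0)) * ks (t ^ d) +
    Gi d t * ki (t ^ d))

theorem pow_mem {t : ℂ} (ht : t ∈ Metric.ball (0 : ℂ) rho) (d : ℕ) (hd : 1 ≤ d) :
    t ^ d ∈ Metric.ball (0 : ℂ) rho := by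
  rw [mem_ball_zero_iff] at ht ⊢
  rw [norm_pow]
  have h1 : ‖t‖ ≤ 1 := by linarith [rho_lt]
  calc ‖t‖ ^ d ≤ ‖t‖ ^ 1 := pow_le_pow_of_le_one (norm_nonneg _) h1 hd
    _ < rho := by rwa [pow_one]

theorem Tt_diff (d : ℕ) (hd : 1 ≤ d) : DifferentiableOn ℂ (Tt d) (Metric.ball 0 rho) := by
  unfold Tt
  have h1 : DifferentiableOn ℂ (fun t : ℂ => ks (t ^ d)) (Metric.ball 0 rho) :=
    ks_diff.comp (by fun_prop) (fun t ht => pow_mem ht d hd)
  have h2 : DifferentiableOn ℂ (fun t : ℂ => ki (t ^ d)) (Metric.ball 0 rho) :=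
    ki_diff.comp (by fun_prop) (fun t ht => pow_mem ht d hd)
  have h3 : DifferentiableOn ℂ (Ga d) (Metric.ball 0 rho) := (Ga_diff d).differentiableOn
  have h4 : DifferentiableOn ℂ (Gi d) (Metric.ball 0 rho) := (Gi_diff d).differentiableOn
  have h5 : DifferentiableOn ℂ (fun t : ℂ => if d = 1 then 2 * t else 0)
      (Metric.ball 0 rho) := by
    split_ifs
    · fun_prop
    · fun_prop
  exact (((h3.sub h4).sub h5).mul h1 |>.add (h4.mul h2)).const_mul _

theorem Tt_bound : ∃ C : ℝ, 0 ≤ C ∧ ∀ d : ℕ, 2 ≤ d → ∀ t ∈ Metric.ball (0 : ℂ) rho,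
    ‖Tt d t‖ ≤ C * rho ^ d := by
  obtain ⟨C1, hC1, h1⟩ := bound_of ks ks_diff ks_zero
  obtain ⟨C2, hC2, h2⟩ := bound_of ki ki_diff ki_zero
  refine ⟨2 * C1 + C2, by positivity, ?_⟩
  intro d hd t ht
  rw [mem_ball_zero_iff] at ht
  have ht1 : ‖t‖ ≤ 1 := by linarith [rho_lt]
  have hp : ‖t ^ d‖ ≤ rho ^ d := by
    rw [norm_pow]
    exact pow_le_pow_left₀ (norm_nonneg _) ht.le d
  have hp2 : rho ^ d ≤ rho ^ 2 :=
    pow_le_pow_of_le_one rho_pos.le (by linarith [rho_lt]) hd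
  have hks : ‖ks (t ^ d)‖ ≤ C1 * rho ^ d :=
    (h1 _ (hp.trans hp2)).trans (mul_le_mul_of_nonneg_left hp hC1)
  have hki : ‖ki (t ^ d)‖ ≤ C2 * rho ^ d :=
    (h2 _ (hp.trans hp2)).trans (mul_le_mul_of_nonneg_left hp hC2)
  have hd1 : d ≠ 1 := by omega
  have hd0 : (0 : ℝ) < d := by
    have : 0 < d := by omega
    exact_mod_cast this
  rw [Tt, if_neg hd1, sub_zero, norm_mul, norm_inv, Complex.norm_natCast]
  have hG : ‖Ga d t - Gi d t‖ ≤ 2 * d := by
    refine (norm_sub_le _ _).trans ?_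
    have := Ga_bound d t ht1
    have := Gi_bound d t ht1
    linarith
  have hGi := Gi_bound d t ht1
  have h3 : ‖(Ga d t - Gi d t) * ks (t ^ d) + Gi d t * ki (t ^ d)‖ ≤
      (d : ℝ) * ((2 * C1 + C2) * rho ^ d) := by
    refine (norm_add_le _ _).trans ?_
    rw [norm_mul, norm_mul]
    have h5 : ‖Ga d t - Gi d t‖ * ‖ks (t ^ d)‖ ≤ (2 * d) * (C1 * rho ^ d) :=
      mul_le_mul hG hks (norm_nonneg _) (by positivity)
    have h6 : ‖Gi d t‖ * ‖ki (t ^ d)‖ ≤ d * (C2 * rho ^ d) :=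
      mul_le_mul hGi hki (norm_nonneg _) (by positivity)
    linarith
  calc (d : ℝ)⁻¹ * ‖(Ga d t - Gi d t) * ks (t ^ d) + Gi d t * ki (t ^ d)‖
      ≤ (d : ℝ)⁻¹ * ((d : ℝ) * ((2 * C1 + C2) * rho ^ d)) :=
        mul_le_mul_of_nonneg_left h3 (by positivity)
    _ = (2 * C1 + C2) * rho ^ d := by
        rw [← mul_assoc, inv_mul_cancel₀ hd0.ne', one_mul]

/-- the tail of the exponent -/
noncomputable def At (t : ℂ) : ℂ := ∑' d : ℕ, Tt (d + 2) t

theorem At_props : DifferentiableOn ℂ At (Metric.ball 0 rho) ∧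
    (∀ t ∈ Metric.ball (0 : ℂ) rho, Summable (fun d : ℕ => Tt (d + 2) t)) ∧
    ∃ M : ℝ, ∀ t ∈ Metric.ball (0 : ℂ) rho, ‖At t‖ ≤ M := by
  obtain ⟨C, hC, hb⟩ := Tt_bound
  have hsum : Summable (fun d : ℕ => C * rho ^ (d + 2)) := by
    have h1 : Summable (fun d : ℕ => rho ^ d) :=
      summable_geometric_of_lt_one rho_pos.le (by linarith [rho_lt])
    exact ((summable_nat_add_iff 2).mpr h1).mul_left C
  refine ⟨?_, ?_, ?_⟩
  · exact Complex.differentiableOn_tsum_of_summable_norm hsum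
      (fun d => Tt_diff (d + 2) (by omega)) Metric.isOpen_ball
      (fun d t ht => hb (d + 2) (by omega) t ht)
  · intro t ht
    exact Summable.of_norm_bounded hsum (fun d => hb (d + 2) (by omega) t ht)
  · refine ⟨∑' d : ℕ, C * rho ^ (d + 2), ?_⟩
    intro t ht
    exact tsum_of_norm_bounded hsum.hasSum (fun d => hb (d + 2) (by omega) t ht)

end Pool.Agent.Helper855.Rc
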