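import Pool.Agent.Helper855.RcTorsor

set_option autoImplicit false

open Polynomial

namespace Pool.Agent.Helper855.Rc

variable {K : Type} [Field K]

/-- monic polynomials of degree n -/
def Mon (n : ℕ) (K : Type) [Field K] : Type := {m : K[X] // m.Monic ∧ m.natDegree = n}

/-- multiplication by a unit -/
noncomputable def mulU {m : K[X]} (u : (A m)ˣ) : A m ≃ₗ[K] A m where
  toFun a := u * a
  map_add' a b := mul_add _ _ _
  map_smul' c a := by
    rw [RingHom.id_apply, mul_smul_comm]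
  invFun a := (u⁻¹ : (A m)ˣ) * a
  left_inv a := by
    change (u⁻¹ : (A m)ˣ) * (u * a) = a
    rw [← mul_assoc, Units.inv_mul, one_mul]
  right_inv a := by
    change u * ((u⁻¹ : (A m)ˣ) * a) = a
    rw [← mul_assoc, Units.mul_inv, one_mul]

theorem finite_Cyc [Finite K] (n : ℕ) : Finite (Cyc n K) := by
  have : Finite (Mat n K) := by
    unfold Mat Matrix
    infer_instance
  unfold Cyc
  infer_instance

theorem minpoly_mem (h2 : (2 : K) ≠ 0) {n : ℕ} (M : Cyc n K) :
    (minpoly K (M.1 + (M.1)⁻¹)).Monic ∧ (minpoly K (M.1 + (M.1)⁻¹)).natDegree = n := by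
  obtain ⟨m, hm, hn, x, -, hc⟩ := exists_param h2 M.1 M.2.1 M.2.2
  rw [← hc, conj_minpoly hm x]
  exact ⟨hm, hn⟩

/-- The reduced polynomial. -/
noncomputable def mu (h2 : (2 : K) ≠ 0) {n : ℕ} (M : Cyc n K) : Mon n K :=
  ⟨minpoly K (M.1 + (M.1)⁻¹), minpoly_mem h2 M⟩

theorem card_fiber [Finite K] (h2 : (2 : K) ≠ 0) {n : ℕ} (m : Mon n K) :
    Nat.card {M : Cyc n K // mu h2 M = m} * Nat.card (A m.1)ˣ =
      Nat.card (Z n m.1) := by
  obtain ⟨m, hm, hn⟩ := m
  have hex : ∀ M : {M : Cyc n K // mu h2 M = ⟨m, hm, hn⟩}, ∃ x : A m ≃ₗ[K] V n K,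
      (∀ a b, B n K (x (om m * a)) (x (om m * b)) = B n K (x a) (x b)) ∧
        conj x (om m) = M.1.1 := by
    rintro ⟨M, hM⟩
    obtain ⟨m', hm', hn', x, hx, hc⟩ := exists_param h2 M.1 M.2.1 M.2.2
    have h1 : minpoly K (M.1 + (M.1)⁻¹) = m := congrArg Subtype.val hM
    rw [← hc, conj_minpoly hm' x] at h1
    subst h1
    exact ⟨x, hx, hc⟩
  choose s hs1 hs2 using hex
  change _ * Nat.card (A m)ˣ = Nat.card (Z n m)
  rw [← Nat.card_prod]
  refine Nat.card_eq_of_bijective
    (fun p : {M : Cyc n K // mu h2 M = ⟨m, hm, hn⟩} × (A m)ˣ =>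
      (⟨(mulU p.2).trans (s p.1), ?_⟩ : Z n m)) ⟨?_, ?_⟩
  · intro a b
    change B n K (s p.1 (p.2 * (om m * a))) (s p.1 (p.2 * (om m * b))) =
      B n K (s p.1 (p.2 * a)) (s p.1 (p.2 * b))
    rw [mul_left_comm, mul_left_comm _ _ b, hs1]
  · rintro ⟨M, u⟩ ⟨M', u'⟩ h
    have h0 : (mulU u).trans (s M) = (mulU u').trans (s M') := congrArg Subtype.val h
    have h1 : ∀ a, s M (u * a) = s M' (u' * a) := fun a => congrArg (fun f => f a) h0
    have hMM : M = M' := by
      apply Subtype.ext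
      apply Subtype.ext
      apply Matrix.toLin'.injective
      apply LinearMap.ext
      intro w
      obtain ⟨b, rfl⟩ := ((mulU u).trans (s M)).surjective w
      rw [Matrix.toLin'_apply, Matrix.toLin'_apply]
      change M.1.1.mulVec (s M (u * b)) = M'.1.1.mulVec (s M (u * b))
      conv_rhs => rw [h1, ← hs2 M', conj_mulVec, mul_left_comm, ← h1]
      rw [← hs2 M, conj_mulVec, mul_left_comm]
    subst hMM
    have huu : u = u' := by
      apply Units.ext
      have := (s M).injective (h1 1)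
      simpa using this
    rw [huu]
  · rintro ⟨x, hx⟩
    let M : Cyc n K := ⟨conj x (om m), conj_cyc hm hn x hx⟩
    have hM : mu h2 M = ⟨m, hm, hn⟩ := Subtype.ext (conj_minpoly hm x)
    let M' : {M : Cyc n K // mu h2 M = ⟨m, hm, hn⟩} := ⟨M, hM⟩
    let y := s M'
    have hy : conj y (om m) = conj x (om m) := hs2 M'
    have hcom : ∀ a, y.symm (x (om m * a)) = om m * y.symm (x a) := by
      intro a
      rw [← conj_mulVec, ← hy]
      obtain ⟨b, hb⟩ := y.surjective (x a)
      rw [← hb, conj_mulVec, LinearEquiv.symm_apply_apply, LinearEquiv.symm_apply_apply]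
    have hmul := comm_mul ((x.trans y.symm : A m ≃ₗ[K] A m) : A m →ₗ[K] A m) hcom
    obtain ⟨b, hb⟩ := (x.trans y.symm).surjective 1
    have h3 : ∀ a, (x.trans y.symm) a = a * (x.trans y.symm) 1 := by
      intro a
      have := hmul a 1
      rw [mul_one] at this
      exact this
    have hu : b * (x.trans y.symm) 1 = 1 := by rw [← h3, hb]
    refine ⟨⟨M', ⟨(x.trans y.symm) 1, b, by rw [mul_comm]; exact hu, hu⟩⟩, ?_⟩
    apply Subtype.ext
    apply LinearEquiv.ext
    intro a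
    change y ((x.trans y.symm) 1 * a) = x a
    rw [mul_comm, ← h3]
    simp

theorem finite_Mon [Finite K] (n : ℕ) : Finite (Mon n K) := by
  refine Finite.of_injective (fun m : Mon n K => fun i : Fin (n + 1) => m.1.coeff i) ?_
  intro m m' h
  apply Subtype.ext
  ext i
  by_cases hi : i < n + 1
  · exact congrFun h ⟨i, hi⟩
  · rw [Polynomial.coeff_eq_zero_of_natDegree_lt, Polynomial.coeff_eq_zero_of_natDegree_lt]
    · rw [m'.2.2]; omega
    · rw [m.2.2]; omega

theorem finite_units [Finite K] {m : K[X]} (hm : m.Monic) : Finite (A m)ˣ := by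
  have hfin := finite_A hm
  have hf : Finite (A m) := Module.finite_of_finite K
  infer_instance

theorem card_cyc [Finite K] (h2 : (2 : K) ≠ 0) (n : ℕ) [Fintype (Mon n K)] :
    (Nat.card (Cyc n K) : ℝ) = Nat.card (Matrix.symplecticGroup (Fin n) K) *
      ∑ m : Mon n K, (Nat.card (A0 m.1)ˣ : ℝ) / (Nat.card (A m.1)ˣ : ℝ) := by
  have hfin := finite_Cyc (K := K) n
  have h1 : Nat.card (Cyc n K) = ∑ m : Mon n K, Nat.card {M : Cyc n K // mu h2 M = m} := by
    rw [← Nat.card_sigma]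
    exact Nat.card_congr (Equiv.sigmaFiberEquiv (mu h2)).symm
  rw [h1, Nat.cast_sum, Finset.mul_sum]
  refine Finset.sum_congr rfl fun m _ => ?_
  have h3 := card_fiber h2 m
  have := finite_units m.2.1
  have h4 : (Nat.card (A m.1)ˣ : ℝ) ≠ 0 := by
    have : 0 < Nat.card (A m.1)ˣ := Nat.card_pos
    positivity
  rw [card_Z h2 m.2.1 m.2.2, card_Gen m.2.1, card_Iso] at h3
  rw [← mul_div_assoc, eq_div_iff h4, ← Nat.cast_mul, h3, Nat.cast_mul, mul_comm]

end Pool.Agent.Helper855.Rc
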