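import Pool.Agent.Helper855.RcForm

set_option autoImplicit false

open Polynomial

namespace Pool.Agent.Helper855.Rc

variable {K : Type} [Field K]

/-- matrices of size 2n -/
abbrev Mat (n : ℕ) (K : Type) := Matrix (Fin n ⊕ Fin n) (Fin n ⊕ Fin n) K

theorem sp_iff {n : ℕ} (M : Mat n K) :
    M ∈ Matrix.symplecticGroup (Fin n) K ↔
      ∀ u v, B n K (M.mulVec u) (M.mulVec v) = B n K u v := by
  rw [SymplecticGroup.mem_iff']
  have h1 := Matrix.toBilin'_comp (Matrix.J (Fin n) K) M M
  constructor
  · intro h u v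
    rw [h] at h1
    have := congrArg (fun f => f u v) h1
    simpa [B] using this
  · intro h
    apply Matrix.toBilin'.injective
    rw [← h1]
    refine LinearMap.ext fun u => LinearMap.ext fun v => ?_
    exact h u v

theorem card_Iso (n : ℕ) :
    Nat.card (Iso n K) = Nat.card (Matrix.symplecticGroup (Fin n) K) := by
  refine Nat.card_eq_of_bijective (fun g : Iso n K =>
    (⟨LinearMap.toMatrix' (g.1 : V n K →ₗ[K] V n K), ?_⟩ : Matrix.symplecticGroup (Fin n) K))
    ⟨?_, ?_⟩
  · rw [sp_iff]
    intro u v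
    rw [LinearMap.toMatrix'_mulVec, LinearMap.toMatrix'_mulVec]
    exact g.2 u v
  · intro g g' h
    have h1 := congrArg Subtype.val h
    have h3 := LinearMap.toMatrix'.injective h1
    apply Subtype.ext
    exact LinearEquiv.toLinearMap_injective h3
  · rintro ⟨M, hM⟩
    rw [sp_iff] at hM
    have hinj : Function.Injective (Matrix.toLin' M) := by
      rw [injective_iff_map_eq_zero]
      intro a ha
      apply B_nondeg
      intro v
      rw [← hM, ← Matrix.toLin'_apply, ha, map_zero, LinearMap.zero_apply]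
    refine ⟨⟨LinearEquiv.ofInjectiveEndo _ hinj, ?_⟩, ?_⟩
    · intro u v
      exact hM u v
    · apply Subtype.ext
      change LinearMap.toMatrix' (Matrix.toLin' M) = M
      exact LinearMap.toMatrix'_toLin' M

/-- conjugated multiplication -/
noncomputable def conj {n : ℕ} {m : K[X]} (x : A m ≃ₗ[K] V n K) : A m →ₐ[K] Mat n K :=
  (LinearMap.toMatrixAlgEquiv' : ((V n K) →ₗ[K] (V n K)) ≃ₐ[K] Mat n K).toAlgHom.comp
    ((x.conjAlgEquiv K).toAlgHom.comp (Algebra.lmul K (A m)))

theorem conj_mulVec {n : ℕ} {m : K[X]} (x : A m ≃ₗ[K] V n K) (a b : A m) :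
    (conj x a).mulVec (x b) = x (a * b) := by
  have h : conj x a = LinearMap.toMatrix' ((x.conjAlgEquiv K) (Algebra.lmul K (A m) a)) := rfl
  rw [h, LinearMap.toMatrix'_mulVec, LinearEquiv.conjAlgEquiv_apply]
  simp

theorem conj_injective {n : ℕ} {m : K[X]} (x : A m ≃ₗ[K] V n K) :
    Function.Injective (conj x) := by
  intro a b h
  have h1 := conj_mulVec x a 1
  rw [h, conj_mulVec x b 1] at h1
  have := x.injective h1
  simpa using this.symm

theorem minpoly_root' {m : K[X]} (hm : m.Monic) : minpoly K (AdjoinRoot.root m) = m := by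
  rw [AdjoinRoot.minpoly_root hm.ne_zero, hm.leadingCoeff]
  simp

theorem adjoin_om [Finite K] {m : K[X]} (hm : m.Monic) :
    Algebra.adjoin K {om m} = ⊤ := by
  have hfin := finite_A hm
  have hf : Finite (A m) := Module.finite_of_finite K
  have hmem : om m ∈ Algebra.adjoin K {om m} := Algebra.self_mem_adjoin_singleton K (om m)
  apply subalg_top
  · exact hmem
  · let u : (A m)ˣ := ⟨om m, star (om m), om_star m, star_om m⟩
    have h1 : u ^ (Nat.card (A m)ˣ) = 1 := pow_card_eq_one'
    have h3 : 0 < Nat.card (A m)ˣ := Nat.card_pos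
    have h4 : star (om m) = om m ^ (Nat.card (A m)ˣ - 1) := by
      have h5 : om m ^ (Nat.card (A m)ˣ) = 1 := by
        have := congrArg Units.val h1
        rw [Units.val_pow_eq_pow_val, Units.val_one] at this
        exact this
      have h6 : Nat.card (A m)ˣ = (Nat.card (A m)ˣ - 1) + 1 := by omega
      rw [h6, pow_succ] at h5
      have h7 : star (om m) = (om m ^ (Nat.card (A m)ˣ - 1) * om m) * star (om m) := by
        rw [h5, one_mul]
      rw [h7, mul_assoc, om_star, mul_one]
    rw [h4]
    exact pow_mem hmem _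

theorem minpoly_om [Finite K] {m : K[X]} (hm : m.Monic) :
    (minpoly K (om m)).natDegree = 2 * m.natDegree := by
  have hfin := finite_A hm
  have hint : IsIntegral K (om m) := Algebra.IsIntegral.isIntegral _
  have e := AlgEquiv.adjoinSingletonEquivAdjoinRootMinpoly K (om m)
  have h1 := e.toLinearEquiv.finrank_eq
  rw [finrank_A0 (minpoly.monic hint)] at h1
  rw [← h1, ← finrank_A hm]
  have h3 := adjoin_om hm
  have e2 : (Algebra.adjoin K {om m}) ≃ₐ[K] A m :=
    (Subalgebra.equivOfEq _ _ h3).trans Subalgebra.topEquiv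
  exact e2.toLinearEquiv.finrank_eq

/-- cyclic symplectic matrices -/
def Cyc (n : ℕ) (K : Type) [Field K] : Type :=
  {M : Mat n K // M ∈ Matrix.symplecticGroup (Fin n) K ∧ minpoly K M = M.charpoly}

theorem cyc_iff {n : ℕ} (M : Mat n K) :
    minpoly K M = M.charpoly ↔ (minpoly K M).natDegree = 2 * n := by
  have h1 : M.charpoly.natDegree = 2 * n := by
    rw [Matrix.charpoly_natDegree_eq_dim, Fintype.card_sum, Fintype.card_fin]
    ring
  constructor
  · intro h
    rw [h, h1]
  · intro h
    have h3 : M.charpoly = minpoly K M := Polynomial.eq_of_monic_of_dvd_of_natDegree_le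
      (minpoly.monic (Matrix.isIntegral M)) (Matrix.charpoly_monic M)
      (Matrix.minpoly_dvd_charpoly M) (by rw [h, h1])
    exact h3.symm

theorem conj_star {n : ℕ} {m : K[X]} (x : A m ≃ₗ[K] V n K) :
    (conj x (om m))⁻¹ = conj x (star (om m)) := by
  apply Matrix.inv_eq_right_inv
  rw [← map_mul, om_star, map_one]

theorem conj_cyc [Finite K] {n : ℕ} {m : K[X]} (hm : m.Monic) (hn : m.natDegree = n)
    (x : A m ≃ₗ[K] V n K)
    (hx : ∀ a b, B n K (x (om m * a)) (x (om m * b)) = B n K (x a) (x b)) :
    conj x (om m) ∈ Matrix.symplecticGroup (Fin n) K ∧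
      minpoly K (conj x (om m)) = (conj x (om m)).charpoly := by
  constructor
  · rw [sp_iff]
    intro u v
    obtain ⟨a, rfl⟩ := x.surjective u
    obtain ⟨b, rfl⟩ := x.surjective v
    rw [conj_mulVec, conj_mulVec, hx]
  · rw [cyc_iff, minpoly.algHom_eq _ (conj_injective x), minpoly_om hm, hn]

theorem conj_minpoly {n : ℕ} {m : K[X]} (hm : m.Monic) (x : A m ≃ₗ[K] V n K) :
    minpoly K (conj x (om m) + (conj x (om m))⁻¹) = m := by
  rw [conj_star, ← map_add, ← root_eq, minpoly.algHom_eq _ (conj_injective x)]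
  have h := minpoly.algHom_eq (IsScalarTower.toAlgHom K (A0 m) (A m))
    (QuadraticAlgebra.algebraMap_injective) (AdjoinRoot.root m)
  exact h.trans (minpoly_root' hm)

/-- existence of a cyclic vector -/
theorem exists_cyclic {n : ℕ} (M : Mat n K) (hM : minpoly K M = M.charpoly) :
    ∃ v : V n K, ∀ w, ∃ p : K[X], (aeval M p).mulVec v = w := by
  let φ : Module.End K (V n K) := Matrix.toLinAlgEquiv' M
  obtain ⟨x, hx⟩ := Module.exists_ker_toSpanSingleton_eq_annihilator K[X] (M := Module.AEval' φ)
  obtain ⟨v, rfl⟩ := (Module.AEval'.of φ).surjective x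
  rw [← span_minpoly_eq_annihilator] at hx
  have hmin : minpoly K φ = minpoly K M := minpoly.algEquiv_eq _ M
  have hae : ∀ p : K[X], (aeval M p).mulVec v = (aeval φ p) v := by
    intro p
    have h1 : aeval φ p = Matrix.toLinAlgEquiv' (aeval M p) := by
      change aeval (Matrix.toLinAlgEquiv' M) p = _
      rw [Polynomial.aeval_algEquiv]
      rfl
    rw [h1, Matrix.toLinAlgEquiv'_apply]
  refine ⟨v, ?_⟩
  have hdeg : (minpoly K M).natDegree = 2 * n := (cyc_iff M).mp hM
  let T : K[X] →ₗ[K] V n K :=
    { toFun := fun p => (aeval M p).mulVec v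
      map_add' := by
        intro p q
        rw [map_add, Matrix.add_mulVec]
      map_smul' := by
        intro c p
        rw [map_smul, Matrix.smul_mulVec]
        rfl }
  let S : Polynomial.degreeLT K (2 * n) →ₗ[K] V n K := T ∘ₗ (Polynomial.degreeLT K (2 * n)).subtype
  have hS : Function.Injective S := by
    rw [injective_iff_map_eq_zero]
    rintro ⟨p, hp⟩ h
    change (aeval M p).mulVec v = 0 at h
    rw [hae] at h
    have h3 : p ∈ LinearMap.ker (LinearMap.toSpanSingleton K[X] _ (Module.AEval'.of φ v)) := by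
      rw [LinearMap.mem_ker, LinearMap.toSpanSingleton_apply]
      have h4 : p • (Module.AEval'.of φ v) = Module.AEval'.of φ ((aeval φ p) v) := rfl
      rw [h4, h, map_zero]
    rw [hx, Ideal.mem_span_singleton, hmin] at h3
    apply Subtype.ext
    change p = 0
    by_contra hp0
    have h5 := Polynomial.natDegree_le_of_dvd h3 hp0
    rw [Polynomial.mem_degreeLT, Polynomial.degree_eq_natDegree hp0, Nat.cast_lt] at hp
    omega
  have hfin : Module.Finite K (Polynomial.degreeLT K (2 * n)) :=
    Module.Finite.equiv (Polynomial.degreeLTEquiv K (2 * n)).symm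
  have hsurj : Function.Surjective S := by
    refine (LinearMap.injective_iff_surjective_of_finrank_eq_finrank ?_).mp hS
    rw [(Polynomial.degreeLTEquiv K (2 * n)).finrank_eq, Module.finrank_fintype_fun_eq_card,
      Module.finrank_fintype_fun_eq_card, Fintype.card_sum, Fintype.card_fin, Fintype.card_fin]
    ring
  intro w
  obtain ⟨p, hp⟩ := hsurj w
  exact ⟨p.1, hp⟩

end Pool.Agent.Helper855.Rc
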