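import Pool.Agent.Helper855.RcValue

set_option autoImplicit false

open Filter Topology Polynomial

namespace Pool.Agent.Helper855.Rc

/-- The analytic function. -/
noncomputable def Et (t : ℂ) : ℂ := Complex.exp (Tt 1 t + At t)

theorem Et_diff : DifferentiableOn ℂ Et (Metric.ball 0 rho) :=
  ((Tt_diff 1 le_rfl).add At_props.1).cexp

theorem log_atBot (a : ℝ) : Tendsto (fun s : ℝ => Real.log (s - a)) (𝓝[>] a) atBot := by
  have h1 : Tendsto (fun s : ℝ => s - a) (𝓝[>] a) (𝓝[>] 0) := by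
    apply tendsto_nhdsWithin_of_tendsto_nhds_of_eventually_within
    · have : Tendsto (fun s : ℝ => s - a) (𝓝 a) (𝓝 (a - a)) :=
        (continuous_id.sub continuous_const).tendsto a
      rw [sub_self] at this
      exact this.mono_left nhdsWithin_le_nhds
    · filter_upwards [self_mem_nhdsWithin] with s hs
      have hs' : a < s := hs
      exact sub_pos.mpr hs'
  exact Real.tendsto_log_nhdsGT_zero.comp h1

/-- logarithmic order -/
def Asy (a : ℝ) (u : ℝ → ℝ) (g : ℝ) : Prop :=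
  Tendsto (fun s => u s / Real.log (s - a)) (𝓝[>] a) (𝓝 g)

theorem Asy.add {a g g' : ℝ} {u u' : ℝ → ℝ} (h : Asy a u g) (h' : Asy a u' g') :
    Asy a (fun s => u s + u' s) (g + g') := by
  have := Tendsto.add h h'
  refine this.congr fun s => ?_
  rw [add_div]

theorem asy_lim {a l : ℝ} {u : ℝ → ℝ} (h : Tendsto u (𝓝[>] a) (𝓝 l)) : Asy a u 0 :=
  h.div_atBot (log_atBot a)

theorem asy_bdd {a M : ℝ} {u : ℝ → ℝ} (h : ∀ᶠ s in 𝓝[>] a, |u s| ≤ M) : Asy a u 0 := by
  have h1 : Tendsto (fun s : ℝ => M * |Real.log (s - a)|⁻¹) (𝓝[>] a) (𝓝 0) := by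
    have h3 : Tendsto (fun s : ℝ => |Real.log (s - a)|⁻¹) (𝓝[>] a) (𝓝 0) := by
      have h4 := tendsto_abs_atBot_atTop.comp (log_atBot a)
      exact tendsto_inv_atTop_zero.comp h4
    simpa using h3.const_mul M
  refine squeeze_zero_norm' ?_ h1
  filter_upwards [h] with s hs
  rw [norm_div, Real.norm_eq_abs, Real.norm_eq_abs, div_eq_mul_inv]
  exact mul_le_mul_of_nonneg_right hs (by positivity)

theorem asy_mul_log {a g : ℝ} {u : ℝ → ℝ} (h : Tendsto u (𝓝[>] a) (𝓝 g)) :
    Asy a (fun s => u s * Real.log (s - a)) g := by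
  have h1 : ∀ᶠ s in 𝓝[>] a, Real.log (s - a) ≠ 0 := by
    filter_upwards [(log_atBot a).eventually (eventually_lt_atBot 0)] with s hs
    exact hs.ne
  refine h.congr' ?_
  filter_upwards [h1] with s hs
  rw [mul_div_assoc, div_self hs, mul_one]

theorem Asy.unique {a g g' : ℝ} {u u' : ℝ → ℝ} (h : Asy a u g) (h' : Asy a u' g')
    (he : ∀ᶠ s in 𝓝[>] a, u s = u' s) : g = g' := by
  have h1 : Asy a u g' := by
    refine Tendsto.congr' ?_ h'
    filter_upwards [he] with s hs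
    rw [hs]
  exact tendsto_nhds_unique h h1

theorem asy_poly (P : ℂ[X]) (hP : P ≠ 0) (a : ℝ) :
    (∃ k : ℕ, Asy a (fun s => Real.log ‖P.eval (s : ℂ)‖) k) ∧
      ∀ᶠ s : ℝ in 𝓝[>] a, P.eval (s : ℂ) ≠ 0 := by
  obtain ⟨R, hR, hnd⟩ := P.exists_eq_pow_rootMultiplicity_mul_and_not_dvd hP (a : ℂ)
  generalize P.rootMultiplicity (a : ℂ) = k at hR
  have hRa : R.eval (a : ℂ) ≠ 0 := by
    intro h
    exact hnd (Polynomial.dvd_iff_isRoot.mpr h)
  have hcont : Tendsto (fun s : ℝ => R.eval (s : ℂ)) (𝓝[>] a) (𝓝 (R.eval (a : ℂ))) := by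
    have h1 : Continuous (fun s : ℝ => R.eval (s : ℂ)) :=
      R.continuous.comp Complex.continuous_ofReal
    exact (h1.tendsto a).mono_left nhdsWithin_le_nhds
  have hne : ∀ᶠ s : ℝ in 𝓝[>] a, R.eval (s : ℂ) ≠ 0 := hcont.eventually_ne hRa
  have hev : ∀ᶠ s : ℝ in 𝓝[>] a, P.eval (s : ℂ) ≠ 0 ∧
      Real.log ‖P.eval (s : ℂ)‖ = (k : ℝ) * Real.log (s - a) + Real.log ‖R.eval (s : ℂ)‖ := by
    filter_upwards [hne, self_mem_nhdsWithin] with s hs hsa
    have hsa' : 0 < s - a := sub_pos.mpr hsa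
    have h3 : P.eval (s : ℂ) = ((s - a : ℝ) : ℂ) ^ k * R.eval (s : ℂ) := by
      rw [hR]
      simp
    have h4 : ((s - a : ℝ) : ℂ) ≠ 0 := by
      exact_mod_cast hsa'.ne'
    constructor
    · rw [h3]
      exact mul_ne_zero (pow_ne_zero _ h4) hs
    · rw [h3, norm_mul, norm_pow, Complex.norm_real, Real.norm_eq_abs, abs_of_pos hsa',
        Real.log_mul (pow_ne_zero _ hsa'.ne') (norm_ne_zero_iff.mpr hs), Real.log_pow]
  refine ⟨⟨k, ?_⟩, hev.mono fun s hs => hs.1⟩
  have h5 : Asy a (fun s => (k : ℝ) * Real.log (s - a) + Real.log ‖R.eval (s : ℂ)‖) ((k : ℝ) + 0) := by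
    apply Asy.add
    · exact asy_mul_log tendsto_const_nhds
    · apply asy_lim (l := Real.log ‖R.eval (a : ℂ)‖)
      exact (hcont.norm).log (norm_ne_zero_iff.mpr hRa)
  rw [add_zero] at h5
  refine Tendsto.congr' ?_ h5
  filter_upwards [hev] with s hs
  rw [hs.2]

theorem Li_neg {s : ℝ} (h0 : -rho < s) (h1 : s < 0) :
    Li (s : ℂ) = ((Real.log (s + rho) + Real.log (1 + rho - s) - Real.log (1 + s) : ℝ) : ℂ) := by
  have ha : 0 < 1 + s := by linarith [rho_lt]
  have hb : 0 < s + rho := by linarith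
  have hc : 0 < 1 + rho - s := by linarith [rho_pos]
  have hd : 1 + s - s ^ 2 = (s + rho) * (1 + rho - s) := by
    have := rho_sq
    linear_combination -this
  have he : 0 < 1 + s - s ^ 2 := by rw [hd]; positivity
  rw [← Real.log_mul hb.ne' hc.ne', ← hd, Li, Complex.ofReal_sub, Complex.ofReal_log he.le,
    Complex.ofReal_log ha.le]
  push_cast
  rfl

theorem Ls_neg {s : ℝ} (h1 : s < 0) :
    Ls (s : ℂ) = ((Real.log (1 - s + s ^ 2) - Real.log (1 - s) : ℝ) : ℂ) := by
  have ha : 0 < 1 - s := by linarith [rho_lt]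
  have hb : 0 < 1 - s + s ^ 2 := by positivity
  rw [Ls, Complex.ofReal_sub, Complex.ofReal_log hb.le, Complex.ofReal_log ha.le]
  push_cast
  rfl

theorem Tt_neg {s : ℝ} (h0 : -rho < s) (h1 : s < 0) :
    (Tt 1 (s : ℂ)).re = (1 - s) / (2 * s) * Real.log (s - -rho) +
      ((1 - 3 * s) / (2 * s) * (Real.log (1 - s + s ^ 2) - Real.log (1 - s)) +
        (1 - s) / (2 * s) * (Real.log (1 + rho - s) - Real.log (1 + s))) := by
  have hs : (s : ℂ) ≠ 0 := by exact_mod_cast h1.ne
  have hs' : s ≠ 0 := h1.ne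
  have h3 : Tt 1 (s : ℂ) = (((1 - 3 * s) / (2 * s) * (Real.log (1 - s + s ^ 2) - Real.log (1 - s)) +
      (1 - s) / (2 * s) * (Real.log (s + rho) + Real.log (1 + rho - s) - Real.log (1 + s)) : ℝ) : ℂ) := by
    rw [Tt, if_pos rfl, pow_one, ks_eq hs, ki_eq hs, Li_neg h0 h1, Ls_neg h1, Ga_one, Gi_one]
    generalize Real.log (1 - s + s ^ 2) - Real.log (1 - s) = x
    generalize Real.log (s + rho) + Real.log (1 + rho - s) - Real.log (1 + s) = y
    push_cast
    field_simp
    ring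
  rw [h3, Complex.ofReal_re, sub_neg_eq_add]
  ring

theorem asy_Tt : Asy (-rho) (fun s => (Tt 1 (s : ℂ)).re) (-(2 + rho) / 2) := by
  have hr := rho_gt
  have hr' := rho_lt
  have hr0 := rho_pos
  have hg : Tendsto (fun s : ℝ => (1 - s) / (2 * s)) (𝓝[>] (-rho)) (𝓝 (-(2 + rho) / 2)) := by
    have h1 : ContinuousAt (fun s : ℝ => (1 - s) / (2 * s)) (-rho) := by
      apply ContinuousAt.div
      · fun_prop
      · fun_prop
      · intro h
        linarith
    have h3 : (1 - -rho) / (2 * -rho) = -(2 + rho) / 2 := by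
      have := rho_sq
      field_simp
      linear_combination this
    have h4 := h1.tendsto
    rw [h3] at h4
    exact h4.mono_left nhdsWithin_le_nhds
  have hev : ∀ᶠ s : ℝ in 𝓝[>] (-rho), (Tt 1 (s : ℂ)).re =
      (1 - s) / (2 * s) * Real.log (s - -rho) +
      ((1 - 3 * s) / (2 * s) * (Real.log (1 - s + s ^ 2) - Real.log (1 - s)) +
        (1 - s) / (2 * s) * (Real.log (1 + rho - s) - Real.log (1 + s))) := by
    have h1 : ∀ᶠ s : ℝ in 𝓝[>] (-rho), s < 0 := by
      apply Filter.Eventually.filter_mono nhdsWithin_le_nhds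
      exact eventually_lt_nhds (by linarith)
    filter_upwards [h1, self_mem_nhdsWithin] with s hs hs'
    exact Tt_neg hs' hs
  have h5 := Asy.add (asy_mul_log hg) (asy_lim (a := -rho)
    (u := fun s : ℝ => ((1 - 3 * s) / (2 * s) * (Real.log (1 - s + s ^ 2) - Real.log (1 - s)) +
        (1 - s) / (2 * s) * (Real.log (1 + rho - s) - Real.log (1 + s))))
    (l := ((1 - 3 * -rho) / (2 * -rho) * (Real.log (1 - -rho + (-rho) ^ 2) - Real.log (1 - -rho)) +
        (1 - -rho) / (2 * -rho) * (Real.log (1 + rho - -rho) - Real.log (1 + -rho)))) ?_)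
  · rw [add_zero] at h5
    refine Tendsto.congr' ?_ h5
    filter_upwards [hev] with s hs
    rw [hs]
  · have hc : ContinuousAt (fun s : ℝ => ((1 - 3 * s) / (2 * s) *
        (Real.log (1 - s + s ^ 2) - Real.log (1 - s)) +
        (1 - s) / (2 * s) * (Real.log (1 + rho - s) - Real.log (1 + s)))) (-rho) := by
      have h1 : (1 - -rho + (-rho) ^ 2) ≠ 0 := by
        have : 0 < 1 - -rho + (-rho) ^ 2 := by nlinarith
        exact this.ne'
      have h2 : (1 - -rho) ≠ 0 := by linarith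
      have h3 : (1 + rho - -rho) ≠ 0 := by linarith
      have h4 : (1 + -rho) ≠ 0 := by linarith
      have h6 : (2 * -rho) ≠ 0 := by linarith
      have c1 : ContinuousAt (fun s : ℝ => (1 - 3 * s) / (2 * s)) (-rho) :=
        ContinuousAt.div (by fun_prop) (by fun_prop) h6
      have c2 : ContinuousAt (fun s : ℝ => (1 - s) / (2 * s)) (-rho) :=
        ContinuousAt.div (by fun_prop) (by fun_prop) h6
      have c3 : ContinuousAt (fun s : ℝ => Real.log (1 - s + s ^ 2)) (-rho) :=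
        ContinuousAt.log (by fun_prop) h1
      have c4 : ContinuousAt (fun s : ℝ => Real.log (1 - s)) (-rho) :=
        ContinuousAt.log (by fun_prop) h2
      have c5 : ContinuousAt (fun s : ℝ => Real.log (1 + rho - s)) (-rho) :=
        ContinuousAt.log (by fun_prop) h3
      have c6 : ContinuousAt (fun s : ℝ => Real.log (1 + s)) (-rho) :=
        ContinuousAt.log (by fun_prop) h4
      exact (c1.mul (c3.sub c4)).add (c2.mul (c5.sub c6))
    exact hc.tendsto.mono_left nhdsWithin_le_nhds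

theorem no_rational (P Q : ℂ[X]) (hQ : Q ≠ 0)
    (h : ∀ t ∈ Metric.ball (0 : ℂ) rho, Et t * Q.eval t = P.eval t) : False := by
  have hr := rho_gt
  have hr' := rho_lt
  have hr0 := rho_pos
  have hmem : ∀ᶠ s : ℝ in 𝓝[>] (-rho), (s : ℂ) ∈ Metric.ball (0 : ℂ) rho := by
    have h1 : ∀ᶠ s : ℝ in 𝓝[>] (-rho), s < 0 := by
      apply Filter.Eventually.filter_mono nhdsWithin_le_nhds
      exact eventually_lt_nhds (by linarith)
    filter_upwards [h1, self_mem_nhdsWithin] with s hs hs'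
    have hs'' : -rho < s := hs'
    rw [mem_ball_zero_iff, Complex.norm_real, Real.norm_eq_abs, abs_of_neg hs]
    linarith
  obtain ⟨⟨j, hj⟩, hQne⟩ := asy_poly Q hQ (-rho)
  have hP : P ≠ 0 := by
    rintro rfl
    obtain ⟨s, hs1, hs2⟩ := (hmem.and hQne).exists
    have h3 := h s hs1
    rw [Polynomial.eval_zero] at h3
    exact (mul_ne_zero (Complex.exp_ne_zero _) hs2) h3
  obtain ⟨⟨i, hi⟩, hPne⟩ := asy_poly P hP (-rho)
  obtain ⟨-, -, M, hM⟩ := At_props
  have hAt : Asy (-rho) (fun s => (At (s : ℂ)).re) 0 := by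
    apply asy_bdd (M := M)
    filter_upwards [hmem] with s hs
    exact (Complex.abs_re_le_norm _).trans (hM _ hs)
  have hL := (asy_Tt.add hAt).add hj
  have heq := hL.unique hi (by
    filter_upwards [hmem, hQne] with s hs hs'
    have h3 := h s hs
    rw [← h3, norm_mul, Et, Real.log_mul (norm_ne_zero_iff.mpr (Complex.exp_ne_zero _))
      (norm_ne_zero_iff.mpr hs'), Complex.norm_exp, Real.log_exp, Complex.add_re])
  have h5 : rho = 2 * ((j : ℝ) - i) - 2 := by linarith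
  have h6 : rho = ((2 * ((j : ℤ) - i) - 2 : ℤ) : ℝ) := by
    rw [h5]
    push_cast
    ring
  have h7 : (0 : ℝ) < ((2 * ((j : ℤ) - i) - 2 : ℤ) : ℝ) := by rw [← h6]; exact hr0
  have h8 : ((2 * ((j : ℤ) - i) - 2 : ℤ) : ℝ) < 1 := by rw [← h6]; linarith
  have h9 : (0 : ℤ) < 2 * ((j : ℤ) - i) - 2 := by exact_mod_cast h7
  have h10 : 2 * ((j : ℤ) - i) - 2 < 1 := by exact_mod_cast h8
  omega

end Pool.Agent.Helper855.Rc
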