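import Pool.Agent.Helper855.RcModel

set_option autoImplicit false

open Polynomial

namespace Pool.Agent.Helper855.Rc

variable {K : Type} [Field K]

theorem finrank_A0 {m : K[X]} (hm : m.Monic) : Module.finrank K (A0 m) = m.natDegree := by
  rw [(AdjoinRoot.powerBasis' hm).finrank, AdjoinRoot.powerBasis'_dim]

theorem finite_A0 {m : K[X]} (hm : m.Monic) : Module.Finite K (A0 m) :=
  (AdjoinRoot.powerBasis' hm).finite

theorem finite_A {m : K[X]} (hm : m.Monic) : Module.Finite K (A m) := by
  have := finite_A0 hm
  exact Module.Finite.trans (A0 m) (A m)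

theorem nontrivial_A0 {m : K[X]} (h : 0 < m.natDegree) : Nontrivial (A0 m) := by
  refine AdjoinRoot.nontrivial _ ?_
  intro h0
  have := Polynomial.natDegree_eq_zero_iff_degree_le_zero.mpr (le_of_eq h0)
  omega

theorem finrank_A {m : K[X]} (hm : m.Monic) : Module.finrank K (A m) = 2 * m.natDegree := by
  have h1 := finite_A0 hm
  rcases Nat.eq_zero_or_pos m.natDegree with h | h
  · have h0 : m = 1 := Polynomial.eq_one_of_monic_natDegree_zero hm h
    have h2 : Module.finrank K (A0 m) = 0 := by rw [finrank_A0 hm, h]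
    have h3 : Subsingleton (A0 m) := Module.finrank_zero_iff.mp h2
    have h4 : Subsingleton (A m) := ⟨fun a b => by
      ext
      · exact Subsingleton.elim _ _
      · exact Subsingleton.elim _ _⟩
    rw [h, Module.finrank_zero_of_subsingleton]
  · have := nontrivial_A0 h
    rw [← Module.finrank_mul_finrank K (A0 m) (A m), QuadraticAlgebra.finrank_eq_two,
      finrank_A0 hm, mul_comm]

/-- Isometric parametrizations. -/
def Z (n : ℕ) (m : K[X]) : Type :=
  {x : A m ≃ₗ[K] V n K // ∀ a b, B n K (x (om m * a)) (x (om m * b)) = B n K (x a) (x b)}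

/-- Generating functionals. -/
def Gen (m : K[X]) : Type :=
  {l : A0 m →ₗ[K] K // ∀ a, (∀ b, l (a * b) = 0) → a = 0}

/-- Isometries. -/
def Iso (n : ℕ) (K : Type) [Field K] : Type :=
  {g : V n K ≃ₗ[K] V n K // ∀ u v, B n K (g u) (g v) = B n K u v}

/-- Inclusion of the second coordinate. -/
noncomputable def inr (m : K[X]) : A0 m →ₗ[K] A m where
  toFun r := ⟨0, r⟩
  map_add' a b := by ext <;> simp
  map_smul' c a := by ext <;> simp

/-- first coordinate. -/
noncomputable def re' (m : K[X]) : A m →ₗ[K] A0 m where
  toFun r := r.re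
  map_add' a b := by simp
  map_smul' c a := by simp

/-- second coordinate. -/
noncomputable def im' (m : K[X]) : A m →ₗ[K] A0 m where
  toFun r := r.im
  map_add' a b := by simp
  map_smul' c a := by simp

/-- the functional attached to a parametrization. -/
noncomputable def lam {n : ℕ} {m : K[X]} (x : A m →ₗ[K] V n K) : A0 m →ₗ[K] K :=
  (B n K (x 1)) ∘ₗ x ∘ₗ (inr m)

theorem B_real (h2 : (2 : K) ≠ 0) {n : ℕ} {m : K[X]} (x : A m →ₗ[K] V n K)
    (hx : ∀ a b, B n K (x (om m * a)) (x (om m * b)) = B n K (x a) (x b)) (r : A0 m) :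
    B n K (x 1) (x (algebraMap (A0 m) (A m) r)) = 0 := by
  have h := adj x hx (algebraMap (A0 m) (A m) r) 1 1
  have h3 : star (algebraMap (A0 m) (A m) r) = algebraMap (A0 m) (A m) r := by
    ext <;> simp
  rw [h3, mul_one, B_swap] at h
  have h4 : 2 * B n K (x 1) (x (algebraMap (A0 m) (A m) r)) = 0 := by
    linear_combination -h
  exact (mul_eq_zero.mp h4).resolve_left h2

theorem B_eq (h2 : (2 : K) ≠ 0) {n : ℕ} {m : K[X]} (x : A m →ₗ[K] V n K)
    (hx : ∀ a b, B n K (x (om m * a)) (x (om m * b)) = B n K (x a) (x b)) (a b : A m) :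
    B n K (x a) (x b) = lam x (star a * b).im := by
  have h := adj x hx a 1 b
  rw [mul_one] at h
  rw [h]
  generalize star a * b = c
  have hc : c = algebraMap (A0 m) (A m) c.re + inr m c.im := by
    change c = algebraMap (A0 m) (A m) c.re + ⟨0, c.im⟩
    ext <;> simp
  conv_lhs => rw [hc]
  rw [map_add, map_add, B_real h2 x hx, zero_add]
  rfl

theorem lam_gen (h2 : (2 : K) ≠ 0) {n : ℕ} {m : K[X]} (x : A m ≃ₗ[K] V n K)
    (hx : ∀ a b, B n K (x (om m * a)) (x (om m * b)) = B n K (x a) (x b)) (a : A0 m)
    (ha : ∀ b, lam (x : A m →ₗ[K] V n K) (a * b) = 0) : a = 0 := by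
  have h1 : x (algebraMap (A0 m) (A m) a) = 0 := by
    apply B_nondeg
    intro v
    obtain ⟨c, rfl⟩ := x.surjective v
    have := B_eq h2 (x : A m →ₗ[K] V n K) hx (algebraMap (A0 m) (A m) a) c
    rw [LinearEquiv.coe_coe] at this
    rw [this]
    have h3 : (star (algebraMap (A0 m) (A m) a) * c).im = a * c.im := by
      simp
    rw [h3]
    exact ha _
  have h3 : algebraMap (A0 m) (A m) a = 0 := by
    apply x.injective
    rw [h1, map_zero]
  have := congrArg QuadraticAlgebra.re h3
  simpa using this

/-- the standard parametrization for a functional. -/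
theorem exists_std {n : ℕ} {m : K[X]} (hm : m.Monic) (hn : m.natDegree = n)
    (l : A0 m →ₗ[K] K) (hl : ∀ a, (∀ b, l (a * b) = 0) → a = 0) :
    ∃ x : A m ≃ₗ[K] V n K, ∀ a b, B n K (x a) (x b) = l (star a * b).im := by
  have hfin0 := finite_A0 hm
  have hfin := finite_A hm
  let e : Module.Basis (Fin n) K (A0 m) :=
    Module.finBasisOfFinrankEq K (A0 m) (by rw [finrank_A0 hm, hn])
  let x0 : A m →ₗ[K] V n K :=
    { toFun := fun a => Sum.elim (fun i => l (e i * a.im)) (fun i => e.repr a.re i)
      map_add' := by
        intro a b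
        funext j
        rcases j with j | j
        · simp [mul_add]
        · simp
      map_smul' := by
        intro c a
        funext j
        rcases j with j | j
        · simp
        · simp }
  have key : ∀ a b, B n K (x0 a) (x0 b) = l (star a * b).im := by
    intro a b
    have h1 : ∀ r s : A0 m, ∑ i, e.repr r i * l (e i * s) = l (r * s) := by
      intro r s
      conv_rhs => rw [← e.sum_repr r]
      rw [Finset.sum_mul, map_sum]
      refine Finset.sum_congr rfl fun i _ => ?_
      rw [smul_mul_assoc, map_smul, smul_eq_mul]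
    rw [B_apply, Finset.sum_sub_distrib]
    change ∑ i, e.repr a.re i * l (e i * b.im) - ∑ i, l (e i * a.im) * e.repr b.re i = _
    rw [h1]
    have h3 : ∑ i, l (e i * a.im) * e.repr b.re i = l (b.re * a.im) := by
      rw [← h1]
      exact Finset.sum_congr rfl fun i _ => mul_comm _ _
    rw [h3, ← map_sub]
    congr 1
    simp
    ring
  have hinj : Function.Injective x0 := by
    rw [injective_iff_map_eq_zero]
    intro a ha
    have h1 : ∀ b, l (star a * b).im = 0 := by
      intro b
      rw [← key, ha, map_zero, LinearMap.zero_apply]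
    have hre : a.re = 0 := by
      apply hl
      intro b
      have h3 := h1 (inr m b)
      have h4 : (star a * inr m b).im = a.re * b := by
        change (star a * ⟨0, b⟩ : A m).im = a.re * b
        simp
        ring
      rwa [h4] at h3
    have him : a.im = 0 := by
      apply hl
      intro b
      have h3 := h1 (algebraMap (A0 m) (A m) b)
      have h4 : (star a * algebraMap (A0 m) (A m) b).im = -(a.im * b) := by
        simp
      rw [h4, map_neg, neg_eq_zero] at h3
      exact h3
    ext
    · exact hre
    · exact him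
  refine ⟨LinearEquiv.ofBijective x0 ⟨hinj, ?_⟩, ?_⟩
  · refine (LinearMap.injective_iff_surjective_of_finrank_eq_finrank ?_).mp hinj
    rw [finrank_A hm, hn, Module.finrank_fintype_fun_eq_card, Fintype.card_sum, Fintype.card_fin]
    ring
  · intro a b
    exact key a b

theorem std_mem {n : ℕ} {m : K[X]} (l : A0 m →ₗ[K] K) (x : A m ≃ₗ[K] V n K)
    (h : ∀ a b, B n K (x a) (x b) = l (star a * b).im) (a b : A m) :
    B n K (x (om m * a)) (x (om m * b)) = B n K (x a) (x b) := by
  rw [h, h]
  congr 2
  rw [star_mul]
  calc star a * star (om m) * (om m * b) = star a * (star (om m) * om m) * b := by ring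
    _ = star a * b := by rw [star_om, mul_one]

theorem card_Z (h2 : (2 : K) ≠ 0) {n : ℕ} {m : K[X]} (hm : m.Monic) (hn : m.natDegree = n) :
    Nat.card (Z n m) = Nat.card (Gen m) * Nat.card (Iso n K) := by
  choose s hs using fun l : Gen m => exists_std hm hn l.1 l.2
  rw [← Nat.card_prod]
  symm
  refine Nat.card_eq_of_bijective
    (fun p : Gen m × Iso n K => (⟨(s p.1).trans p.2.1, fun a b => by
      rw [LinearEquiv.trans_apply, LinearEquiv.trans_apply, p.2.2,
        std_mem p.1.1 (s p.1) (hs p.1), LinearEquiv.trans_apply, LinearEquiv.trans_apply,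
        p.2.2]⟩ : Z n m)) ⟨?_, ?_⟩
  · rintro ⟨l, g⟩ ⟨l', g'⟩ h
    have h0 : (s l).trans g.1 = (s l').trans g'.1 := congrArg Subtype.val h
    have h1 : l = l' := by
      apply Subtype.ext
      apply LinearMap.ext
      intro r
      have h3 : B n K (((s l).trans g.1) 1) (((s l).trans g.1) (inr m r)) =
        B n K (((s l').trans g'.1) 1) (((s l').trans g'.1) (inr m r)) := by rw [h0]
      simp only [LinearEquiv.trans_apply] at h3
      rw [g.2, g'.2, hs, hs] at h3
      have h4 : (star 1 * inr m r : A m).im = r := by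
        change (star 1 * ⟨0, r⟩ : A m).im = r
        rw [star_one, one_mul]
      rwa [h4] at h3
    subst h1
    have h3 : g = g' := by
      apply Subtype.ext
      apply LinearEquiv.ext
      intro v
      have := congrArg (fun f => f ((s l).symm v)) h0
      simpa using this
    rw [h3]
  · rintro ⟨x, hx⟩
    let l : Gen m := ⟨lam (x : A m →ₗ[K] V n K), lam_gen h2 x hx⟩
    refine ⟨(l, ⟨(s l).symm.trans x, ?_⟩), ?_⟩
    · intro u v
      rw [LinearEquiv.trans_apply, LinearEquiv.trans_apply]
      have h3 := B_eq h2 (x : A m →ₗ[K] V n K) hx ((s l).symm u) ((s l).symm v)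
      rw [LinearEquiv.coe_coe] at h3
      rw [h3]
      have h4 := hs l ((s l).symm u) ((s l).symm v)
      rw [LinearEquiv.apply_symm_apply, LinearEquiv.apply_symm_apply] at h4
      rw [h4]
    · apply Subtype.ext
      apply LinearEquiv.ext
      intro v
      simp

/-- top coefficient functional -/
noncomputable def topc {m : K[X]} (hm : m.Monic) : A0 m →ₗ[K] K :=
  (Polynomial.lcoeff K (m.natDegree - 1)) ∘ₗ (AdjoinRoot.modByMonicHom hm)

theorem topc_gen {m : K[X]} (hm : m.Monic) (a : A0 m) (h : ∀ b, topc hm (a * b) = 0) :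
    a = 0 := by
  by_contra ha
  let p := AdjoinRoot.modByMonicHom hm a
  have hap : AdjoinRoot.mk m p = a := AdjoinRoot.mk_leftInverse hm a
  have hp0 : p ≠ 0 := by
    intro h0
    rw [h0, map_zero] at hap
    exact ha hap.symm
  have hm1 : m ≠ 1 := by
    rintro rfl
    have : a = AdjoinRoot.mk 1 (AdjoinRoot.modByMonicHom hm a) := (AdjoinRoot.mk_leftInverse hm a).symm
    rw [AdjoinRoot.mk_eq_zero.mpr (one_dvd _)] at this
    exact ha this
  have hdeg : p.natDegree < m.natDegree := by
    have h1 : p = p %ₘ m := by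
      conv_lhs => rw [show p = AdjoinRoot.modByMonicHom hm a from rfl, ← hap,
        AdjoinRoot.modByMonicHom_mk]
    rw [h1]
    exact Polynomial.natDegree_modByMonic_lt _ hm hm1
  have h1 := h (AdjoinRoot.mk m (X ^ (m.natDegree - 1 - p.natDegree)))
  rw [← hap, ← map_mul, topc, LinearMap.comp_apply, AdjoinRoot.modByMonicHom_mk,
    (Polynomial.modByMonic_eq_self_iff hm).mpr, Polynomial.lcoeff_apply] at h1
  · have h3 : m.natDegree - 1 = p.natDegree + (m.natDegree - 1 - p.natDegree) := by omega
    have h4 : (p * X ^ (m.natDegree - 1 - p.natDegree)).coeff (m.natDegree - 1) =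
        p.leadingCoeff := by
      rw [Polynomial.coeff_mul_X_pow', if_pos (by omega), Polynomial.leadingCoeff]
      congr 1
      omega
    rw [h4] at h1
    exact hp0 (Polynomial.leadingCoeff_eq_zero.mp h1)
  · refine lt_of_le_of_lt Polynomial.degree_le_natDegree ?_
    rw [Polynomial.degree_eq_natDegree hm.ne_zero, Nat.cast_lt, Polynomial.natDegree_mul_X_pow _ hp0]
    omega

theorem card_Gen [Finite K] {m : K[X]} (hm : m.Monic) :
    Nat.card (Gen m) = Nat.card (A0 m)ˣ := by
  have hfin0 := finite_A0 hm
  have hf : Finite (A0 m) := Module.finite_of_finite K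
  symm
  let T : A0 m →ₗ[K] (A0 m →ₗ[K] K) :=
    { toFun := fun u => (topc hm) ∘ₗ (LinearMap.mulLeft K u)
      map_add' := by
        intro u v
        ext r
        simp [add_mul]
      map_smul' := by
        intro c u
        ext r
        simp }
  have hTinj : Function.Injective T := by
    rw [injective_iff_map_eq_zero]
    intro u hu
    apply topc_gen hm
    intro b
    have := congrArg (fun f => f b) hu
    simpa [T] using this
  have hTsurj : Function.Surjective T := by
    refine (LinearMap.injective_iff_surjective_of_finrank_eq_finrank ?_).mp hTinj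
    exact (Subspace.dual_finrank_eq (K := K) (V := A0 m)).symm
  refine Nat.card_eq_of_bijective (fun u : (A0 m)ˣ => (⟨T u.1, ?_⟩ : Gen m)) ⟨?_, ?_⟩
  · intro a ha
    have h1 : (u : A0 m) * a = 0 := by
      apply topc_gen hm
      intro b
      have := ha b
      simpa [T, mul_assoc] using this
    rwa [Units.mul_right_eq_zero] at h1
  · intro u v h
    apply Units.ext
    exact hTinj (congrArg Subtype.val h)
  · rintro ⟨l, hl⟩
    obtain ⟨u, hu⟩ := hTsurj l
    have hnz : ∀ r, u * r = 0 → r = 0 := by
      intro r hr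
      apply hl
      intro b
      rw [← hu]
      change topc hm (u * (r * b)) = 0
      rw [← mul_assoc, hr, zero_mul, map_zero]
    have hinj : Function.Injective (fun r : A0 m => u * r) := by
      intro r s hrs
      have h3 : u * (r - s) = 0 := by
        rw [mul_sub]
        exact sub_eq_zero.mpr hrs
      exact sub_eq_zero.mp (hnz _ h3)
    obtain ⟨w, hw⟩ := Finite.surjective_of_injective hinj 1
    refine ⟨⟨u, w, hw, by rw [mul_comm]; exact hw⟩, ?_⟩
    apply Subtype.ext
    exact hu

end Pool.Agent.Helper855.Rc
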