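import Pool.Agent.Helper855.RcMean

set_option autoImplicit false

open Polynomial Filter Topology

namespace Pool.Agent.Helper855.Rc

theorem roots_le_two {F : Type} [Field F] (x : F) :
    Nat.card {y : F // y ^ 2 - x * y + 1 = 0} ≤ 2 := by
  by_cases h : Nonempty {y : F // y ^ 2 - x * y + 1 = 0}
  · obtain ⟨y0, h0⟩ := h
    have h1 : Function.Surjective (fun b : Bool =>
        (⟨if b then y0 else x - y0, by
          split_ifs
          · exact h0
          · linear_combination h0⟩ : {y : F // y ^ 2 - x * y + 1 = 0})) := by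
      rintro ⟨y, hy⟩
      have h3 : (y - y0) * (y - (x - y0)) = 0 := by linear_combination hy - h0
      rcases mul_eq_zero.mp h3 with h4 | h4
      · refine ⟨true, Subtype.ext ?_⟩
        change y0 = y
        exact (sub_eq_zero.mp h4).symm
      · refine ⟨false, Subtype.ext ?_⟩
        change x - y0 = y
        exact (sub_eq_zero.mp h4).symm
    have := Nat.card_le_card_of_surjective _ h1
    rwa [Nat.card_eq_fintype_card (α := Bool), Fintype.card_bool] at this
  · rw [not_nonempty_iff] at h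
    rw [Nat.card_of_isEmpty]
    omega

variable {K : Type} [Field K]

theorem sg_cases (P : Pr K) : sg P = -1 ∨ sg P = 0 ∨ sg P = 1 := by
  have h : rt P ≤ 2 := roots_le_two (F := Fp P) (AdjoinRoot.root P.1)
  rw [sg]
  have h1 : rt P = 0 ∨ rt P = 1 ∨ rt P = 2 := by omega
  rcases h1 with h1 | h1 | h1
  · left; rw [h1]; norm_num
  · right; left; rw [h1]; norm_num
  · right; right; rw [h1]; norm_num

theorem Qn_ge_two [Finite K] (P : Pr K) : 2 ≤ Qn P := by
  have := finite_Fp P
  have h1 : 1 < Nat.card (Fp P) := Finite.one_lt_card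
  have h2 : 2 ≤ Nat.card (Fp P) := h1
  rw [Qn]
  exact_mod_cast h2

theorem bb_bound [Finite K] (P : Pr K) : |bb P| ≤ 2 * ((Qn P)⁻¹) ^ 2 := by
  have h2 := Qn_ge_two P
  have h0 : Qn P ≠ 0 := by linarith
  have hp : 0 < Qn P := by linarith
  rw [bb]
  rcases sg_cases P with h | h | h
  · rw [h]
    have h3 : ((1 - -1 / Qn P)⁻¹ - 1) / Qn P = - (1 / ((Qn P + 1) * Qn P)) := by
      have : 1 - -1 / Qn P = (Qn P + 1) / Qn P := by field_simp; ring
      rw [this, inv_div]
      field_simp
      ring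
    rw [h3, abs_neg, abs_of_pos (by positivity), inv_pow, ← div_eq_mul_inv,
      div_le_div_iff₀ (by positivity) (by positivity)]
    nlinarith
  · rw [h]
    simp only [zero_div, sub_zero, inv_one, sub_self, abs_zero]
    positivity
  · rw [h]
    have h5 : 0 < Qn P - 1 := by linarith
    have h3 : ((1 - 1 / Qn P)⁻¹ - 1) / Qn P = 1 / ((Qn P - 1) * Qn P) := by
      have : 1 - 1 / Qn P = (Qn P - 1) / Qn P := by field_simp
      rw [this, inv_div]
      have : Qn P - 1 ≠ 0 := by linarith
      field_simp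
      ring
    rw [h3, abs_of_pos (by positivity), inv_pow, ← div_eq_mul_inv,
      div_le_div_iff₀ (by positivity) (by positivity)]
    nlinarith

theorem bb_pos [Finite K] (P : Pr K) : 0 < 1 + bb P := by
  have h1 := bb_bound P
  have h2 := Qn_ge_two P
  have h3 : ((Qn P)⁻¹) ^ 2 ≤ (1 / 2) ^ 2 := by
    apply pow_le_pow_left₀ (by positivity)
    rw [inv_eq_one_div]
    exact one_div_le_one_div_of_le (by norm_num) h2
  have h4 := (abs_le.mp h1).1
  nlinarith

theorem card_deg_le [Finite K] (d : ℕ) :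
    Nat.card {P : Pr K // P.1.natDegree = d} ≤ Nat.card K ^ d := by
  rw [← card_Mon]
  have := finite_Mon (K := K) d
  refine Nat.card_le_card_of_injective (fun P : {P : Pr K // P.1.natDegree = d} =>
    (⟨P.1.1, P.1.2.1, P.2⟩ : Mon d K)) ?_
  intro P P' h
  apply Subtype.ext
  apply Subtype.ext
  have h0 : (⟨P.1.1, P.1.2.1, P.2⟩ : Mon d K) = ⟨P'.1.1, P'.1.2.1, P'.2⟩ := h
  exact congrArg (fun z : Mon d K => z.1) h0

theorem finite_degEq [Finite K] (d : ℕ) : Finite {P : Pr K // P.1.natDegree = d} := by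
  have h := finite_deg (K := K) d
  have h1 : {P : Pr K | P.1.natDegree = d}.Finite :=
    h.subset (fun P hP => le_of_eq hP)
  exact h1

theorem summable_Q [Finite K] : Summable (fun P : Pr K => ((Qn P)⁻¹) ^ 2) := by
  have hq1 : 1 < Nat.card K := Finite.one_lt_card
  have hq : (1 : ℝ) < Nat.card K := by exact_mod_cast hq1
  let e := Equiv.sigmaFiberEquiv (fun P : Pr K => P.1.natDegree)
  rw [← e.summable_iff]
  have hnn : ∀ x, 0 ≤ ((fun P : Pr K => ((Qn P)⁻¹) ^ 2) ∘ e) x := fun x => by
    change 0 ≤ ((Qn (e x))⁻¹) ^ 2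
    positivity
  rw [summable_sigma_of_nonneg hnn]
  have hfin : ∀ d : ℕ, Finite {P : Pr K // P.1.natDegree = d} := finite_degEq
  constructor
  · intro d
    have := hfin d
    exact Summable.of_finite
  · refine Summable.of_nonneg_of_le (fun d => tsum_nonneg fun y => hnn _) ?_
      (summable_geometric_of_lt_one (r := (Nat.card K : ℝ)⁻¹) (by positivity)
        (inv_lt_one_of_one_lt₀ hq))
    intro d
    have := hfin d
    have hft : Fintype {P : Pr K // P.1.natDegree = d} := Fintype.ofFinite _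
    rw [tsum_fintype]
    have h1 : ∀ P : {P : Pr K // P.1.natDegree = d},
        ((fun P : Pr K => ((Qn P)⁻¹) ^ 2) ∘ e) ⟨d, P⟩ = (((Nat.card K : ℝ) ^ d)⁻¹) ^ 2 := by
      intro P
      change ((Qn P.1)⁻¹) ^ 2 = _
      rw [Qn_eq, P.2]
    rw [Finset.sum_congr rfl fun P _ => h1 P, Finset.sum_const, nsmul_eq_mul, Finset.card_univ,
      ← Nat.card_eq_fintype_card]
    have h3 : (Nat.card {P : Pr K // P.1.natDegree = d} : ℝ) ≤ (Nat.card K : ℝ) ^ d := by
      exact_mod_cast card_deg_le d
    have h4 : (0 : ℝ) < (Nat.card K : ℝ) ^ d := by positivity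
    calc (Nat.card {P : Pr K // P.1.natDegree = d} : ℝ) * (((Nat.card K : ℝ) ^ d)⁻¹) ^ 2
        ≤ (Nat.card K : ℝ) ^ d * (((Nat.card K : ℝ) ^ d)⁻¹) ^ 2 := by
          apply mul_le_mul_of_nonneg_right h3 (by positivity)
      _ = (Nat.card K : ℝ)⁻¹ ^ d := by
          rw [inv_pow (Nat.card K : ℝ) d, sq, ← mul_assoc, mul_inv_cancel₀ h4.ne', one_mul]

theorem summable_bb [Finite K] : Summable (fun P : Pr K => bb P) := by
  refine Summable.of_norm_bounded (summable_Q.mul_left 2) ?_
  intro P
  rw [Real.norm_eq_abs]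
  exact bb_bound P

theorem summable_abs_bb [Finite K] : Summable (fun P : Pr K => ‖bb P‖) := by
  refine Summable.of_nonneg_of_le (fun _ => norm_nonneg _) (fun P => ?_) (summable_Q.mul_left 2)
  rw [Real.norm_eq_abs]
  exact bb_bound P

theorem tendsto_fam [Finite K] : Tendsto (fun n => fam K n) atTop atTop := by
  apply tendsto_atTop_finset_of_monotone
  · intro a b hab S hS
    rw [mem_fam] at hS ⊢
    exact hS.trans hab
  · intro S
    exact ⟨dS S, by rw [mem_fam]⟩

theorem tendsto_prod [Finite K] :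
    Tendsto (fun n => ∑ S ∈ fam K n, ∏ P ∈ S, bb P) atTop
      (𝓝 (Real.exp (∑' P : Pr K, Real.log (1 + bb P)))) := by
  have h1 : Summable (fun S : Finset (Pr K) => ∏ P ∈ S, bb P) :=
    summable_finsetProd_of_summable_norm summable_abs_bb
  have h3 : Real.exp (∑' P : Pr K, Real.log (1 + bb P)) =
      ∑' S : Finset (Pr K), ∏ P ∈ S, bb P := by
    rw [Real.rexp_tsum_eq_tprod bb_pos (Real.summable_log_one_add_of_summable summable_bb),
      tprod_one_add h1]
  rw [h3]
  exact h1.hasSum.comp tendsto_fam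

/-- split local factor -/
noncomputable def ls (y : ℝ) : ℝ := Real.log ((1 - y + y ^ 2) / (1 - y))

/-- inert local factor -/
noncomputable def li (y : ℝ) : ℝ := Real.log ((1 + y - y ^ 2) / (1 + y))

/-- number of split primes -/
noncomputable def Ns (K : Type) [Field K] (d : ℕ) : ℕ :=
  Nat.card {P : Pr K // P.1.natDegree = d ∧ sg P = 1}

/-- number of inert primes -/
noncomputable def Ni (K : Type) [Field K] (d : ℕ) : ℕ :=
  Nat.card {P : Pr K // P.1.natDegree = d ∧ sg P = -1}

theorem log_local [Finite K] (P : Pr K) :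
    Real.log (1 + bb P) = (if sg P = 1 then ls ((Nat.card K : ℝ) ^ P.1.natDegree)⁻¹ else 0) +
      (if sg P = -1 then li ((Nat.card K : ℝ) ^ P.1.natDegree)⁻¹ else 0) := by
  rw [← Qn_eq]
  have h2 := Qn_ge_two P
  have h0 : Qn P ≠ 0 := by linarith
  rcases sg_cases P with h | h | h
  · rw [h, if_neg (by norm_num), if_pos rfl, zero_add, li, bb, h]
    congr 1
    have h3 : Qn P + 1 ≠ 0 := by linarith
    have h4 : 1 - -1 / Qn P = (Qn P + 1) / Qn P := by field_simp; ring
    have h5 : 1 + (Qn P)⁻¹ = (Qn P + 1) / Qn P := by field_simp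
    rw [h4, h5, inv_div]
    field_simp
    ring
  · rw [h, if_neg (by norm_num), if_neg (by norm_num), bb, h]
    simp
  · rw [h, if_pos rfl, if_neg (by norm_num), add_zero, ls, bb, h]
    congr 1
    have h3 : Qn P - 1 ≠ 0 := by linarith
    have h4 : 1 - 1 / Qn P = (Qn P - 1) / Qn P := by field_simp
    have h5 : 1 - (Qn P)⁻¹ = (Qn P - 1) / Qn P := by field_simp
    rw [h4, h5, inv_div]
    field_simp
    ring

theorem tsum_log [Finite K] :
    ∑' P : Pr K, Real.log (1 + bb P) =
      ∑' d : ℕ, ((Ns K d : ℝ) * ls ((Nat.card K : ℝ) ^ d)⁻¹ +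
        (Ni K d : ℝ) * li ((Nat.card K : ℝ) ^ d)⁻¹) := by
  let e := Equiv.sigmaFiberEquiv (fun P : Pr K => P.1.natDegree)
  have hs : Summable (fun P : Pr K => Real.log (1 + bb P)) :=
    Real.summable_log_one_add_of_summable summable_bb
  rw [← e.tsum_eq]
  have hs' : Summable ((fun P : Pr K => Real.log (1 + bb P)) ∘ e) := e.summable_iff.mpr hs
  have h1 := hs'.tsum_sigma
  rw [show ∑' c, Real.log (1 + bb (e c)) = ∑' c, ((fun P : Pr K => Real.log (1 + bb P)) ∘ e) c
    from rfl, h1]
  refine tsum_congr fun d => ?_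
  have := finite_degEq (K := K) d
  have hft : Fintype {P : Pr K // P.1.natDegree = d} := Fintype.ofFinite _
  rw [tsum_fintype]
  classical
  have h3 : ∀ P : {P : Pr K // P.1.natDegree = d},
      ((fun P : Pr K => Real.log (1 + bb P)) ∘ e) ⟨d, P⟩ =
        (if sg P.1 = 1 then ls ((Nat.card K : ℝ) ^ d)⁻¹ else 0) +
        (if sg P.1 = -1 then li ((Nat.card K : ℝ) ^ d)⁻¹ else 0) := by
    intro P
    change Real.log (1 + bb P.1) = _
    rw [log_local, P.2]
  have h5 : ∀ s : ℝ, ((Finset.univ.filter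
      (fun P : {P : Pr K // P.1.natDegree = d} => sg P.1 = s)).card : ℝ) =
      (Nat.card {P : Pr K // P.1.natDegree = d ∧ sg P = s} : ℝ) := by
    intro s
    have h6 : Nat.card {P : Pr K // P.1.natDegree = d ∧ sg P = s} =
        Nat.card {Q : {P : Pr K // P.1.natDegree = d} // sg Q.1 = s} :=
      Nat.card_congr (Equiv.subtypeSubtypeEquivSubtypeInter
        (fun P : Pr K => P.1.natDegree = d) (fun P : Pr K => sg P = s)).symm
    rw [h6, Nat.card_eq_fintype_card, Fintype.card_subtype]
  rw [Finset.sum_congr rfl fun P _ => h3 P, Finset.sum_add_distrib, ← Finset.sum_filter,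
    ← Finset.sum_filter, Finset.sum_const, Finset.sum_const, nsmul_eq_mul, nsmul_eq_mul,
    h5, h5]
  rfl

end Pool.Agent.Helper855.Rc
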