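import Pool.Agent.Helper855.RcFinal

set_option autoImplicit false

open Filter Topology Polynomial

namespace Pool.Agent.Helper855.Rc

/-- the exponent of the limit -/
noncomputable def expo (K : Type) [Field K] : ℝ :=
  ∑' d : ℕ, ((Ns K d : ℝ) * ls ((Nat.card K : ℝ) ^ d)⁻¹ + (Ni K d : ℝ) * li ((Nat.card K : ℝ) ^ d)⁻¹)

theorem limit (K : Type) [Field K] [Finite K] (h2 : (2 : K) ≠ 0) :
    Tendsto (fun n => (Nat.card (Cyc n K) : ℝ) /
      (Nat.card (Matrix.symplecticGroup (Fin n) K) : ℝ)) atTop (𝓝 (Real.exp (expo K))) := by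
  have h1 := tendsto_prod (K := K)
  rw [tsum_log] at h1
  refine h1.congr fun n => ?_
  have hf := finite_Mon (K := K) n
  have : Fintype (Mon n K) := Fintype.ofFinite _
  have hfM : Finite (Mat n K) := by
    unfold Mat Matrix
    infer_instance
  have hfS : Finite (Matrix.symplecticGroup (Fin n) K) := Subtype.finite
  have hpos : (0 : ℝ) < Nat.card (Matrix.symplecticGroup (Fin n) K) := by
    have : 0 < Nat.card (Matrix.symplecticGroup (Fin n) K) := Nat.card_pos
    exact_mod_cast this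
  rw [card_cyc h2 n, mean_eq, mul_div_cancel_left₀ _ hpos.ne']

theorem value' (K : Type) [Field K] [Finite K] (h2 : (2 : K) ≠ 0) :
    ((Real.exp (expo K) : ℝ) : ℂ) = Et ((Nat.card K : ℂ)⁻¹) := by
  obtain ⟨p, hp⟩ := CharP.exists K
  have hprime : Fact p.Prime := ⟨CharP.char_is_prime K p⟩
  exact value p h2

theorem finite_agree (P Q : ℝ[X]) (hQ : Q ≠ 0) :
    {q : ℕ | ∃ (K : Type) (_ : Field K) (_ : Finite K), Nat.card K = q ∧ (2 : K) ≠ 0 ∧
      Tendsto (fun n => (Nat.card (Cyc n K) : ℝ) /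
        (Nat.card (Matrix.symplecticGroup (Fin n) K) : ℝ)) atTop
        (𝓝 (P.eval (q : ℝ) / Q.eval (q : ℝ)))}.Finite := by
  by_contra hinf
  rw [← Set.Infinite, ← Nat.frequently_atTop_iff_infinite] at hinf
  let P' : ℂ[X] := P.map (algebraMap ℝ ℂ)
  let Q' : ℂ[X] := Q.map (algebraMap ℝ ℂ)
  have hQ' : Q' ≠ 0 := (Polynomial.map_ne_zero_iff (algebraMap ℝ ℂ).injective).mpr hQ
  let A : ℂ[X] := Q'.reverse * X ^ P'.natDegree
  let C : ℂ[X] := P'.reverse * X ^ Q'.natDegree
  have hA : A ≠ 0 := mul_ne_zero (fun h => hQ' (Polynomial.reverse_eq_zero.mp h))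
    (pow_ne_zero _ X_ne_zero)
  apply no_rational C A hA
  have htend : Tendsto (fun n : ℕ => ((n : ℂ))⁻¹) atTop (𝓝[≠] (0 : ℂ)) := by
    apply tendsto_nhdsWithin_of_tendsto_nhds_of_eventually_within
    · exact tendsto_inv_atTop_nhds_zero_nat (𝕜 := ℂ)
    · filter_upwards [eventually_gt_atTop 0] with n hn
      have : (n : ℂ) ≠ 0 := by exact_mod_cast hn.ne'
      exact inv_ne_zero this
  have hfreq : ∃ᶠ z in 𝓝[≠] (0 : ℂ), Et z * A.eval z = C.eval z := by
    apply htend.frequently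
    refine hinf.mono ?_
    rintro q ⟨K, _, _, hcard, h2, hlim⟩
    have h1 := tendsto_nhds_unique hlim (limit K h2)
    have hq0 : (q : ℂ) ≠ 0 := by
      have h3 := card_ge_three h2
      rw [hcard] at h3
      have : q ≠ 0 := by omega
      exact_mod_cast this
    have hval := value' K h2
    rw [hcard] at hval
    have hQq : Q.eval (q : ℝ) ≠ 0 := by
      intro h0
      rw [h0, div_zero] at h1
      exact (Real.exp_pos _).ne h1
    have h3 : Real.exp (expo K) * Q.eval (q : ℝ) = P.eval (q : ℝ) := by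
      rw [← h1, div_mul_cancel₀ _ hQq]
    have h4 : Et ((q : ℂ)⁻¹) * Q'.eval (q : ℂ) = P'.eval (q : ℂ) := by
      have e1 : Q'.eval (q : ℂ) = ((Q.eval (q : ℝ) : ℝ) : ℂ) := by
        have := Polynomial.eval_map_apply (p := Q) (algebraMap ℝ ℂ) (q : ℝ)
        rw [map_natCast] at this
        exact this
      have e2 : P'.eval (q : ℂ) = ((P.eval (q : ℝ) : ℝ) : ℂ) := by
        have := Polynomial.eval_map_apply (p := P) (algebraMap ℝ ℂ) (q : ℝ)
        rw [map_natCast] at this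
        exact this
      rw [e1, e2, ← hval, ← h3]
      push_cast
      rfl
    have hinv : Invertible (q : ℂ) := invertibleOfNonzero hq0
    have hrev : ∀ R : ℂ[X], R.reverse.eval ((q : ℂ)⁻¹) * (q : ℂ) ^ R.natDegree = R.eval (q : ℂ) := by
      intro R
      have := Polynomial.eval₂_reverse_mul_pow (RingHom.id ℂ) (q : ℂ) R
      rw [invOf_eq_inv] at this
      exact this
    rw [← hrev P', ← hrev Q'] at h4
    change Et ((q : ℂ)⁻¹) * A.eval ((q : ℂ)⁻¹) = C.eval ((q : ℂ)⁻¹)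
    rw [Polynomial.eval_mul, Polynomial.eval_mul, Polynomial.eval_pow, Polynomial.eval_pow,
      Polynomial.eval_X]
    have ha : ((q : ℂ)⁻¹) ^ P'.natDegree * (q : ℂ) ^ P'.natDegree = 1 := by
      rw [← mul_pow, inv_mul_cancel₀ hq0, one_pow]
    have hb : ((q : ℂ)⁻¹) ^ Q'.natDegree * (q : ℂ) ^ Q'.natDegree = 1 := by
      rw [← mul_pow, inv_mul_cancel₀ hq0, one_pow]
    linear_combination (((q : ℂ)⁻¹) ^ P'.natDegree * ((q : ℂ)⁻¹) ^ Q'.natDegree) * h4 -
      (Et ((q : ℂ)⁻¹) * Q'.reverse.eval ((q : ℂ)⁻¹) * ((q : ℂ)⁻¹) ^ P'.natDegree) * hb +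
      (P'.reverse.eval ((q : ℂ)⁻¹) * ((q : ℂ)⁻¹) ^ Q'.natDegree) * ha
  have han1 : AnalyticOnNhd ℂ (fun z => Et z * A.eval z) (Metric.ball 0 rho) :=
    (Et_diff.mul (Polynomial.differentiable A).differentiableOn).analyticOnNhd Metric.isOpen_ball
  have han2 : AnalyticOnNhd ℂ (fun z => C.eval z) (Metric.ball 0 rho) :=
    ((Polynomial.differentiable C).differentiableOn).analyticOnNhd Metric.isOpen_ball
  have hpre : IsPreconnected (Metric.ball (0 : ℂ) rho) := (convex_ball _ _).isPreconnected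
  have heq := han1.eqOn_of_preconnected_of_frequently_eq han2 hpre zero_mem hfreq
  intro t ht
  exact heq ht

end Pool.Agent.Helper855.Rc
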