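import Pool.Agent.Helper855.RcUnits

set_option autoImplicit false

open Polynomial Filter Topology

namespace Pool.Agent.Helper855.Rc

variable {K : Type} [Field K]

theorem card_Mon [Finite K] (n : ℕ) : Nat.card (Mon n K) = Nat.card K ^ n := by
  have h1 : Nat.card (Mon n K) = Nat.card (degreeLT K n) :=
    Nat.card_congr (Polynomial.monicEquivDegreeLT n)
  rw [h1, Nat.card_congr (Polynomial.degreeLTEquiv K n).toEquiv, Nat.card_fun, Nat.card_fin]

/-- the product polynomial of a set of primes -/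
noncomputable def pS (S : Finset (Pr K)) : K[X] := ∏ P ∈ S, P.1

/-- degree of a set of primes -/
noncomputable def dS (S : Finset (Pr K)) : ℕ := ∑ P ∈ S, P.1.natDegree

theorem pS_monic (S : Finset (Pr K)) : (pS S).Monic :=
  Polynomial.monic_prod_of_monic _ _ fun P _ => P.2.1

theorem pS_deg (S : Finset (Pr K)) : (pS S).natDegree = dS S :=
  Polynomial.natDegree_prod_of_monic _ _ fun P _ => P.2.1

theorem pS_dvd (S : Finset (Pr K)) (m : K[X]) : pS S ∣ m ↔ ∀ P ∈ S, P.1 ∣ m := by
  constructor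
  · intro h P hP
    exact (Finset.dvd_prod_of_mem (fun P : Pr K => P.1) hP).trans h
  · intro h
    refine Finset.prod_dvd_of_coprime ?_ h
    intro P _ P' _ hne
    refine P.2.2.coprime_iff_not_dvd.mpr ?_
    intro hdvd
    apply hne
    apply Subtype.ext
    exact Polynomial.eq_of_monic_of_associated P.2.1 P'.2.1
      ((P.2.2.associated_of_dvd P'.2.2 hdvd))

theorem card_mult [Finite K] (n : ℕ) (S : Finset (Pr K)) :
    Nat.card {m : Mon n K // ∀ P ∈ S, P.1 ∣ m.1} =
      if dS S ≤ n then Nat.card K ^ (n - dS S) else 0 := by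
  split_ifs with h
  · rw [← card_Mon]
    symm
    refine Nat.card_eq_of_bijective (fun c : Mon (n - dS S) K =>
      (⟨⟨pS S * c.1, (pS_monic S).mul c.2.1, ?_⟩, ?_⟩ :
        {m : Mon n K // ∀ P ∈ S, P.1 ∣ m.1})) ⟨?_, ?_⟩
    · rw [(pS_monic S).natDegree_mul c.2.1, pS_deg, c.2.2]
      omega
    · intro P hP
      exact ((pS_dvd S (pS S)).mp dvd_rfl P hP).trans (dvd_mul_right _ _)
    · intro c c' hcc
      have h0 : pS S * c.1 = pS S * c'.1 := congrArg (fun z => z.1.1) hcc
      exact Subtype.ext (mul_left_cancel₀ (pS_monic S).ne_zero h0)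
    · rintro ⟨⟨m, hm, hn⟩, hd⟩
      obtain ⟨c, hc⟩ := (pS_dvd S m).mpr hd
      have hcm : c.Monic := (pS_monic S).of_mul_monic_left (hc ▸ hm)
      refine ⟨⟨c, hcm, ?_⟩, ?_⟩
      · have := congrArg Polynomial.natDegree hc
        rw [(pS_monic S).natDegree_mul hcm, pS_deg, hn] at this
        omega
      · apply Subtype.ext
        apply Subtype.ext
        exact hc.symm
  · rw [Nat.card_eq_zero]
    left
    constructor
    rintro ⟨⟨m, hm, hn⟩, hd⟩
    have h1 := (pS_dvd S m).mpr hd
    have h3 := Polynomial.natDegree_le_of_dvd h1 hm.ne_zero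
    rw [pS_deg, hn] at h3
    exact h h3

theorem finite_deg [Finite K] (n : ℕ) : {P : Pr K | P.1.natDegree ≤ n}.Finite := by
  have hf : Finite {P : Pr K // P.1.natDegree ≤ n} := by
    refine Finite.of_injective (fun P : {P : Pr K // P.1.natDegree ≤ n} =>
      fun i : Fin (n + 1) => P.1.1.coeff i) ?_
    intro m m' h
    apply Subtype.ext
    apply Subtype.ext
    ext i
    by_cases hi : i < n + 1
    · exact congrFun h ⟨i, hi⟩
    · rw [Polynomial.coeff_eq_zero_of_natDegree_lt, Polynomial.coeff_eq_zero_of_natDegree_lt]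
      · have := m'.2; omega
      · have := m.2; omega
  exact hf

/-- primes of bounded degree -/
noncomputable def degLe (K : Type) [Field K] [Finite K] (n : ℕ) : Finset (Pr K) :=
  (finite_deg n).toFinset

theorem mem_degLe [Finite K] (n : ℕ) (P : Pr K) : P ∈ degLe K n ↔ P.1.natDegree ≤ n := by
  rw [degLe, Set.Finite.mem_toFinset]
  rfl

/-- the local term -/
noncomputable def bb (P : Pr K) : ℝ := ((1 - sg P / Qn P)⁻¹ - 1) / Qn P

theorem Qn_eq [Finite K] (P : Pr K) : Qn P = (Nat.card K : ℝ) ^ P.1.natDegree := by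
  rw [Qn, card_A0 P.2.1, Nat.cast_pow]

open Classical in
/-- admissible sets of primes -/
noncomputable def fam (K : Type) [Field K] [Finite K] (n : ℕ) : Finset (Finset (Pr K)) :=
  (degLe K n).powerset.filter (fun S => dS S ≤ n)

theorem mem_fam [Finite K] (n : ℕ) (S : Finset (Pr K)) : S ∈ fam K n ↔ dS S ≤ n := by
  rw [fam, Finset.mem_filter, Finset.mem_powerset]
  constructor
  · exact fun h => h.2
  · intro h
    refine ⟨fun P hP => ?_, h⟩
    rw [mem_degLe]
    refine le_trans ?_ h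
    exact Finset.single_le_sum (f := fun P : Pr K => P.1.natDegree) (fun _ _ => Nat.zero_le _) hP

open Classical in
theorem mean_eq [Finite K] (n : ℕ) [Fintype (Mon n K)] :
    ∑ m : Mon n K, (Nat.card (A0 m.1)ˣ : ℝ) / (Nat.card (A m.1)ˣ : ℝ) =
      ∑ S ∈ fam K n, ∏ P ∈ S, bb P := by
  have hq : (0 : ℝ) < Nat.card K := by
    have : 0 < Nat.card K := Nat.card_pos
    exact_mod_cast this
  let c : Pr K → ℝ := fun P => (1 - sg P / Qn P)⁻¹ - 1
  let D : K[X] → Finset (Pr K) := fun m => (degLe K n).filter (fun P => P.1 ∣ m)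
  have h1 : ∀ m : Mon n K, (Nat.card (A0 m.1)ˣ : ℝ) / (Nat.card (A m.1)ˣ : ℝ) =
      ∑ S ∈ (degLe K n).powerset, if (∀ P ∈ S, P.1 ∣ m.1) then
        (∏ P ∈ S, c P) / (Nat.card K : ℝ) ^ n else 0 := by
    intro m
    have hD : ∀ P, P ∈ D m.1 ↔ P.1 ∣ m.1 := by
      intro P
      rw [Finset.mem_filter, mem_degLe]
      constructor
      · exact fun h => h.2
      · intro h
        refine ⟨?_, h⟩
        have := Polynomial.natDegree_le_of_dvd h m.2.1.ne_zero
        rwa [m.2.2] at this
    rw [weight m.2.1 (D m.1) hD, m.2.2]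
    have h3 : ∏ P ∈ D m.1, (1 - sg P / Qn P)⁻¹ = ∏ P ∈ D m.1, (1 + c P) := by
      refine Finset.prod_congr rfl fun P _ => ?_
      ring
    rw [h3, Finset.prod_one_add, ← Finset.sum_filter, Finset.sum_div]
    refine Finset.sum_congr ?_ fun _ _ => rfl
    ext S
    rw [Finset.mem_powerset, Finset.mem_filter, Finset.mem_powerset]
    constructor
    · intro h
      exact ⟨fun P hP => (Finset.mem_filter.mp (h hP)).1, fun P hP => (hD P).mp (h hP)⟩
    · rintro ⟨h, h'⟩ P hP
      exact (hD P).mpr (h' P hP)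
  rw [Finset.sum_congr rfl fun m _ => h1 m, Finset.sum_comm, fam, Finset.sum_filter]
  refine Finset.sum_congr rfl fun S _ => ?_
  rw [← Finset.sum_filter, Finset.sum_const, nsmul_eq_mul]
  have h3 : (Finset.univ.filter (fun m : Mon n K => ∀ P ∈ S, P.1 ∣ m.1)).card =
      Nat.card {m : Mon n K // ∀ P ∈ S, P.1 ∣ m.1} := by
    rw [Nat.card_eq_fintype_card, Fintype.card_subtype]
  rw [h3, card_mult]
  split_ifs with h
  · have h4 : ∏ P ∈ S, bb P = (∏ P ∈ S, c P) / (Nat.card K : ℝ) ^ (dS S) := by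
      rw [dS, ← Finset.prod_pow_eq_pow_sum, ← Finset.prod_div_distrib]
      refine Finset.prod_congr rfl fun P _ => ?_
      rw [bb, ← Qn_eq]
    rw [h4, Nat.cast_pow]
    have h5 : (Nat.card K : ℝ) ^ n = (Nat.card K : ℝ) ^ (n - dS S) * (Nat.card K : ℝ) ^ (dS S) := by
      rw [← pow_add]
      congr 1
      omega
    rw [h5]
    field_simp
  · simp

end Pool.Agent.Helper855.Rc
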