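import Pool.Agent.Helper855.RcPrimes

set_option autoImplicit false

open Polynomial Filter Topology ArithmeticFunction

namespace Pool.Agent.Helper855.Rc

/-- odd indicator as arithmetic function -/
noncomputable def chi : ArithmeticFunction ℂ := ⟨fun n => if Odd n then 1 else 0, by simp⟩

/-- odd part of Moebius -/
noncomputable def muo : ArithmeticFunction ℂ :=
  ⟨fun n => if Odd n then (ArithmeticFunction.moebius n : ℂ) else 0, by simp⟩

theorem muo_chi : muo * chi = 1 := by
  ext n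
  rw [ArithmeticFunction.mul_apply]
  by_cases hn : Odd n
  · have h1 : ∀ x ∈ n.divisorsAntidiagonal, muo x.1 * chi x.2 =
        ((ArithmeticFunction.moebius : ArithmeticFunction ℤ) : ArithmeticFunction ℂ) x.1 *
          ((ArithmeticFunction.zeta : ArithmeticFunction ℕ) : ArithmeticFunction ℂ) x.2 := by
      rintro ⟨a, b⟩ hx
      rw [Nat.mem_divisorsAntidiagonal] at hx
      obtain ⟨hab, hn0⟩ := hx
      change a * b = n at hab
      rw [← hab, Nat.odd_mul] at hn
      have hb : b ≠ 0 := by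
        rintro rfl
        exact (by decide : ¬ Odd 0) hn.2
      change (if Odd a then (ArithmeticFunction.moebius a : ℂ) else 0) *
        (if Odd b then (1 : ℂ) else 0) = _
      rw [if_pos hn.1, if_pos hn.2]
      simp [ArithmeticFunction.natCoe_apply, ArithmeticFunction.zeta_apply, hb]
    rw [Finset.sum_congr rfl h1, ← ArithmeticFunction.mul_apply,
      ArithmeticFunction.coe_moebius_mul_coe_zeta]
  · have h1 : ∀ x ∈ n.divisorsAntidiagonal, muo x.1 * chi x.2 = 0 := by
      rintro ⟨a, b⟩ hx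
      rw [Nat.mem_divisorsAntidiagonal] at hx
      obtain ⟨hab, hn0⟩ := hx
      change a * b = n at hab
      rw [← hab, Nat.odd_mul] at hn
      change (if Odd a then (ArithmeticFunction.moebius a : ℂ) else 0) *
        (if Odd b then (1 : ℂ) else 0) = 0
      by_cases ha : Odd a
      · have hb : ¬ Odd b := fun hb => hn ⟨ha, hb⟩
        rw [if_neg hb, mul_zero]
      · rw [if_neg ha, zero_mul]
    rw [Finset.sum_eq_zero h1]
    have : n ≠ 1 := by
      rintro rfl
      exact hn odd_one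
    rw [ArithmeticFunction.one_apply_ne this]

theorem twisted_inversion (a f : ℕ → ℂ)
    (h : ∀ n > 0, ∑ d ∈ n.divisors, (if Odd (n / d) then a d else 0) = f n) :
    ∀ n > 0, ∑ x ∈ n.divisorsAntidiagonal, muo x.1 * f x.2 = a n := by
  let Aa : ArithmeticFunction ℂ := ⟨fun n => if n = 0 then 0 else a n, by simp⟩
  let Fa : ArithmeticFunction ℂ := ⟨fun n => if n = 0 then 0 else f n, by simp⟩
  have h1 : chi * Aa = Fa := by
    ext n
    by_cases hn : n = 0
    · subst hn
      simp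
    · rw [ArithmeticFunction.mul_apply]
      change _ = if n = 0 then 0 else f n
      rw [if_neg hn, ← h n (Nat.pos_of_ne_zero hn),
        Nat.sum_divisorsAntidiagonal' (fun x y => chi x * Aa y)]
      refine Finset.sum_congr rfl fun d hd => ?_
      have hd0 : d ≠ 0 := (Nat.pos_of_mem_divisors hd).ne'
      change (if Odd (n / d) then (1 : ℂ) else 0) * (if d = 0 then 0 else a d) = _
      rw [if_neg hd0]
      split_ifs <;> simp
  intro n hn
  have h3 : muo * Fa = Aa := by
    rw [← h1, ← mul_assoc, muo_chi, one_mul]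
  have h4 := congrArg (fun g : ArithmeticFunction ℂ => g n) h3
  simp only [ArithmeticFunction.mul_apply] at h4
  have h5 : Aa n = a n := by
    change (if n = 0 then 0 else a n) = a n
    rw [if_neg hn.ne']
  rw [h5] at h4
  rw [← h4]
  refine Finset.sum_congr rfl ?_
  rintro ⟨x, y⟩ hx
  rw [Nat.mem_divisorsAntidiagonal] at hx
  obtain ⟨hab, hn0⟩ := hx
  change x * y = n at hab
  have hy : y ≠ 0 := by
    rintro rfl
    apply hn0
    rw [← hab, mul_zero]
  congr 1
  change f y = if y = 0 then 0 else f y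
  rw [if_neg hy]

/-- all primes count, normalised -/
noncomputable def Ga (N : ℕ) (t : ℂ) : ℂ :=
  ∑ x ∈ N.divisorsAntidiagonal, (ArithmeticFunction.moebius x.1 : ℂ) * t ^ (N - x.2)

/-- inert primes count, normalised -/
noncomputable def Gi (N : ℕ) (t : ℂ) : ℂ :=
  ∑ x ∈ N.divisorsAntidiagonal, muo x.1 * ((t ^ (N - x.2) - t ^ N) / 2)

theorem card_antidiag (N : ℕ) : (N.divisorsAntidiagonal.card : ℝ) ≤ N := by
  have h1 : N.divisorsAntidiagonal.card = N.divisors.card := by
    rw [← Nat.image_fst_divisorsAntidiagonal]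
    symm
    apply Finset.card_image_of_injOn
    rintro ⟨a, b⟩ hab ⟨c, d⟩ hcd h
    rw [Finset.mem_coe, Nat.mem_divisorsAntidiagonal] at hab hcd
    change a = c at h
    subst h
    have h3 : a * b = a * d := hab.1.trans hcd.1.symm
    have ha : 0 < a := by
      rcases Nat.eq_zero_or_pos a with h | h
      · subst h
        exfalso
        apply hab.2
        rw [← hab.1, zero_mul]
      · exact h
    rw [Nat.eq_of_mul_eq_mul_left ha h3]
  rw [h1]
  exact_mod_cast Nat.card_divisors_le_self N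

theorem norm_moebius (n : ℕ) : ‖(ArithmeticFunction.moebius n : ℂ)‖ ≤ 1 := by
  have := ArithmeticFunction.abs_moebius_le_one (n := n)
  rw [Complex.norm_intCast]
  exact_mod_cast this

theorem norm_muo (n : ℕ) : ‖muo n‖ ≤ 1 := by
  change ‖if Odd n then (ArithmeticFunction.moebius n : ℂ) else 0‖ ≤ 1
  split_ifs
  · exact norm_moebius n
  · simp

theorem Ga_bound (N : ℕ) (t : ℂ) (ht : ‖t‖ ≤ 1) : ‖Ga N t‖ ≤ N := by
  refine le_trans (norm_sum_le _ _) ?_
  refine le_trans (Finset.sum_le_card_nsmul _ _ 1 ?_) ?_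
  · intro x _
    rw [norm_mul, norm_pow]
    have h1 := norm_moebius x.1
    have h2 : ‖t‖ ^ (N - x.2) ≤ 1 := pow_le_one₀ (norm_nonneg _) ht
    have h3 : 0 ≤ ‖t‖ ^ (N - x.2) := by positivity
    nlinarith [norm_nonneg (ArithmeticFunction.moebius x.1 : ℂ)]
  · rw [nsmul_eq_mul, mul_one]
    exact card_antidiag N

theorem Gi_bound (N : ℕ) (t : ℂ) (ht : ‖t‖ ≤ 1) : ‖Gi N t‖ ≤ N := by
  refine le_trans (norm_sum_le _ _) ?_
  refine le_trans (Finset.sum_le_card_nsmul _ _ 1 ?_) ?_
  · intro x _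
    rw [norm_mul, norm_div]
    have h1 := norm_muo x.1
    have h2 : ‖t‖ ^ (N - x.2) ≤ 1 := pow_le_one₀ (norm_nonneg _) ht
    have h2' : ‖t‖ ^ N ≤ 1 := pow_le_one₀ (norm_nonneg _) ht
    have h3 : ‖t ^ (N - x.2) - t ^ N‖ ≤ 2 := by
      refine le_trans (norm_sub_le _ _) ?_
      rw [norm_pow, norm_pow]
      linarith
    have h4 : ‖(2 : ℂ)‖ = 2 := by simp
    rw [h4]
    have h5 : ‖t ^ (N - x.2) - t ^ N‖ / 2 ≤ 1 := by linarith
    have h6 : 0 ≤ ‖t ^ (N - x.2) - t ^ N‖ / 2 := by positivity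
    nlinarith [norm_nonneg (muo x.1)]
  · rw [nsmul_eq_mul, mul_one]
    exact card_antidiag N

theorem Ga_diff (N : ℕ) : Differentiable ℂ (Ga N) := by
  unfold Ga
  fun_prop

theorem Gi_diff (N : ℕ) : Differentiable ℂ (Gi N) := by
  unfold Gi
  fun_prop

theorem Ga_one (t : ℂ) : Ga 1 t = 1 := by
  simp [Ga]

theorem Gi_one (t : ℂ) : Gi 1 t = (1 - t) / 2 := by
  have : muo 1 = 1 := by
    change (if Odd 1 then (ArithmeticFunction.moebius 1 : ℂ) else 0) = 1
    simp
  simp [Gi, this]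

section

variable {K : Type} [Field K] [Finite K] (p : ℕ) [Fact p.Prime] [CharP K p]

include p in
theorem count_all (N : ℕ) (hN : 0 < N) :
    ((Nat.card K : ℂ)) ^ N * Ga N ((Nat.card K : ℂ)⁻¹) =
      (N : ℂ) * (Nat.card {P : Pr K // P.1.natDegree = N} : ℂ) := by
  have hq : (Nat.card K : ℂ) ≠ 0 := by
    have : 0 < Nat.card K := Nat.card_pos
    exact_mod_cast this.ne'
  have h1 := (ArithmeticFunction.sum_eq_iff_sum_mul_moebius_eq (R := ℂ)
    (f := fun d => (d : ℂ) * (Nat.card {P : Pr K // P.1.natDegree = d} : ℂ))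
    (g := fun n => (Nat.card K : ℂ) ^ n)).mp ?_ N hN
  · rw [← h1, Ga, Finset.mul_sum]
    refine Finset.sum_congr rfl ?_
    rintro ⟨a, b⟩ hx
    rw [Nat.mem_divisorsAntidiagonal] at hx
    have hb : b ≤ N := Nat.le_of_dvd hN ⟨a, by rw [mul_comm]; exact hx.1.symm⟩
    change (Nat.card K : ℂ) ^ N * (_ * ((Nat.card K : ℂ)⁻¹) ^ (N - b)) = _ * (Nat.card K : ℂ) ^ b
    have h3 : (Nat.card K : ℂ) ^ N = (Nat.card K : ℂ) ^ b * (Nat.card K : ℂ) ^ (N - b) := by
      rw [← pow_add]
      congr 1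
      omega
    rw [h3, inv_pow]
    field_simp
  · intro n hn
    have : NeZero n := ⟨hn.ne'⟩
    have h3 := sum_all (K := K) (L := FiniteField.Extension K p n) n
      (FiniteField.finrank_extension K p n)
    have h4 := congrArg (fun k : ℕ => (k : ℂ)) h3
    push_cast at h4
    exact h4

include p in
theorem count_inert (h2 : (2 : K) ≠ 0) (N : ℕ) (hN : 0 < N) :
    ((Nat.card K : ℂ)) ^ N * Gi N ((Nat.card K : ℂ)⁻¹) = (N : ℂ) * (Ni K N : ℂ) := by
  have hq : (Nat.card K : ℂ) ≠ 0 := by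
    have : 0 < Nat.card K := Nat.card_pos
    exact_mod_cast this.ne'
  have h1 := twisted_inversion (fun d => (d : ℂ) * (Ni K d : ℂ))
    (fun n => ((Nat.card K : ℂ) ^ n - 1) / 2) ?_ N hN
  · rw [← h1, Gi, Finset.mul_sum]
    refine Finset.sum_congr rfl ?_
    rintro ⟨a, b⟩ hx
    rw [Nat.mem_divisorsAntidiagonal] at hx
    have hb : b ≤ N := Nat.le_of_dvd hN ⟨a, by rw [mul_comm]; exact hx.1.symm⟩
    change (Nat.card K : ℂ) ^ N * (_ * ((((Nat.card K : ℂ)⁻¹) ^ (N - b) -
      ((Nat.card K : ℂ)⁻¹) ^ N) / 2)) = _ * (((Nat.card K : ℂ) ^ b - 1) / 2)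
    have h3 : (Nat.card K : ℂ) ^ N = (Nat.card K : ℂ) ^ b * (Nat.card K : ℂ) ^ (N - b) := by
      rw [← pow_add]
      congr 1
      omega
    rw [inv_pow, inv_pow, h3]
    field_simp
  · intro n hn
    have : NeZero n := ⟨hn.ne'⟩
    have h3 := sum_inert (K := K) (L := FiniteField.Extension K p n) h2 n
      (FiniteField.finrank_extension K p n)
    have h4 := congrArg (fun k : ℕ => (k : ℂ)) h3
    push_cast at h4
    have h5 : ∑ d ∈ n.divisors, (if Odd (n / d) then (d : ℂ) * (Ni K d : ℂ) else 0) =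
        ∑ d ∈ n.divisors, ((if Odd (n / d) then d * Ni K d else 0 : ℕ) : ℂ) := by
      refine Finset.sum_congr rfl fun d _ => ?_
      split_ifs <;> simp
    rw [eq_div_iff (two_ne_zero)]
    rw [← h4]
    ring

end

end Pool.Agent.Helper855.Rc
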