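import Mathlib

set_option autoImplicit false

open Polynomial

namespace Pool.Agent.Helper855.Rc

variable {K : Type} [Field K]

/-- Coordinate space. -/
abbrev V (n : ℕ) (K : Type) := Fin n ⊕ Fin n → K

/-- The standard alternating form. -/
noncomputable def B (n : ℕ) (K : Type) [Field K] : LinearMap.BilinForm K (V n K) :=
  Matrix.toBilin' (Matrix.J (Fin n) K)

theorem B_apply {n : ℕ} (u v : V n K) :
    B n K u v = ∑ i, (u (Sum.inr i) * v (Sum.inl i) - u (Sum.inl i) * v (Sum.inr i)) := by
  rw [B, Matrix.toBilin'_apply']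
  simp [Matrix.J, Matrix.fromBlocks_mulVec, dotProduct, Fintype.sum_sum_type,
    Finset.sum_sub_distrib, Matrix.neg_mulVec]
  ring

theorem B_swap {n : ℕ} (u v : V n K) : B n K u v = - B n K v u := by
  rw [B_apply, B_apply, ← Finset.sum_neg_distrib]
  refine Finset.sum_congr rfl fun i _ => ?_
  ring

theorem B_nondeg {n : ℕ} (u : V n K) (h : ∀ v, B n K u v = 0) : u = 0 := by
  funext j
  rcases j with j | j
  · have := h (Pi.single (Sum.inr j) 1)
    rw [B_apply] at this
    simpa [Pi.single_apply] using this
  · have := h (Pi.single (Sum.inl j) 1)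
    rw [B_apply] at this
    simpa [Pi.single_apply] using this

/-- Base ring. -/
abbrev A0 (m : K[X]) := AdjoinRoot m

/-- The quadratic ring. -/
abbrev A (m : K[X]) := QuadraticAlgebra (AdjoinRoot m) (-1) (AdjoinRoot.root m)

/-- The generator. -/
noncomputable def om (m : K[X]) : A m := ⟨0, 1⟩

theorem om_star (m : K[X]) : om m * star (om m) = 1 := by
  rw [om]
  ext
  · simp
    rfl
  · simp
    rfl

theorem star_om (m : K[X]) : star (om m) * om m = 1 := by
  rw [mul_comm, om_star]

theorem root_eq (m : K[X]) :
    algebraMap (A0 m) (A m) (AdjoinRoot.root m) = om m + star (om m) := by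
  rw [om]
  ext <;> simp

theorem eq_add (m : K[X]) (u : A m) :
    u = algebraMap (A0 m) (A m) u.re + algebraMap (A0 m) (A m) u.im * om m := by
  rw [om]
  ext <;> simp

theorem subalg_top (m : K[X]) (S : Subalgebra K (A m)) (h1 : om m ∈ S) (h2 : star (om m) ∈ S) :
    S = ⊤ := by
  have h3 : ∀ r : A0 m, algebraMap (A0 m) (A m) r ∈ S := by
    intro r
    have hr : r ∈ (Algebra.adjoin K {AdjoinRoot.root m} : Subalgebra K (A0 m)) := by
      rw [AdjoinRoot.adjoinRoot_eq_top]; trivial
    have h4 : (Algebra.adjoin K {AdjoinRoot.root m} : Subalgebra K (A0 m)) ≤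
        S.comap (IsScalarTower.toAlgHom K (A0 m) (A m)) := by
      rw [Algebra.adjoin_le_iff]
      intro y hy
      rw [Set.mem_singleton_iff] at hy
      subst hy
      change algebraMap (A0 m) (A m) (AdjoinRoot.root m) ∈ S
      rw [root_eq]
      exact S.add_mem h1 h2
    exact h4 hr
  rw [eq_top_iff]
  intro u _
  rw [eq_add m u]
  exact S.add_mem (h3 _) (S.mul_mem (h3 _) h1)

theorem star_algebraMap (m : K[X]) (c : K) :
    star (algebraMap K (A m) c) = algebraMap K (A m) c := by
  have h : algebraMap K (A m) c = ⟨algebraMap K (A0 m) c, 0⟩ := rfl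
  rw [h]
  ext <;> simp

theorem adj {n : ℕ} {m : K[X]} (x : A m →ₗ[K] V n K)
    (hx : ∀ a b, B n K (x (om m * a)) (x (om m * b)) = B n K (x a) (x b)) (u a b : A m) :
    B n K (x (u * a)) (x b) = B n K (x a) (x (star u * b)) := by
  let S : Subalgebra K (A m) :=
    { carrier := {u | ∀ a b, B n K (x (u * a)) (x b) = B n K (x a) (x (star u * b))}
      mul_mem' := by
        intro u v hu hv a b
        rw [mul_assoc, hu, hv, ← mul_assoc, star_mul]
      add_mem' := by
        intro u v hu hv a b
        rw [add_mul, map_add, map_add, LinearMap.add_apply, hu, hv, star_add, add_mul, map_add,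
          map_add]
      algebraMap_mem' := by
        intro c a b
        rw [star_algebraMap, ← Algebra.smul_def, ← Algebra.smul_def, map_smul, map_smul,
          map_smul, LinearMap.smul_apply, map_smul] }
  have h1 : om m ∈ S := by
    intro a b
    have := hx a (star (om m) * b)
    rw [← mul_assoc, om_star, one_mul] at this
    exact this
  have h2 : star (om m) ∈ S := by
    intro a b
    rw [star_star, B_swap, ← neg_inj, neg_neg]
    have := h1 b a
    rw [← this, B_swap]
  have h3 : S = ⊤ := subalg_top m S h1 h2
  have h4 : u ∈ S := by rw [h3]; trivial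
  exact h4 a b

theorem comm_mul {m : K[X]} (h : A m →ₗ[K] A m) (hh : ∀ a, h (om m * a) = om m * h a)
    (u a : A m) : h (u * a) = u * h a := by
  let S : Subalgebra K (A m) :=
    { carrier := {u | ∀ a, h (u * a) = u * h a}
      mul_mem' := by
        intro u v hu hv a
        rw [mul_assoc, hu, hv, ← mul_assoc]
      add_mem' := by
        intro u v hu hv a
        rw [add_mul, map_add, hu, hv, add_mul]
      algebraMap_mem' := by
        intro c a
        rw [← Algebra.smul_def, ← Algebra.smul_def, map_smul] }
  have h1 : om m ∈ S := hh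
  have h2 : star (om m) ∈ S := by
    intro a
    have := hh (star (om m) * a)
    rw [← mul_assoc, om_star, one_mul] at this
    rw [this, ← mul_assoc, star_om, one_mul]
  have h3 : S = ⊤ := subalg_top m S h1 h2
  have h4 : u ∈ S := by rw [h3]; trivial
  exact h4 a

end Pool.Agent.Helper855.Rc
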