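import Pool.Agent.Helper855.RcLim

set_option autoImplicit false

open Polynomial Filter Topology

namespace Pool.Agent.Helper855.Rc

section quad

variable {F : Type} [Field F]

/-- number of solutions -/
noncomputable def nr (x : F) : ℕ := Nat.card {y : F // y ^ 2 - x * y + 1 = 0}

theorem nr_eq_zero_iff (h2 : (2 : F) ≠ 0) (x : F) [Finite F] :
    nr x = 0 ↔ ¬ IsSquare (x ^ 2 - 4) := by
  rw [nr, Nat.card_eq_zero]
  constructor
  · rintro (h | h) ⟨w, hw⟩
    · refine h.false ⟨(x + w) / 2, ?_⟩
      field_simp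
      linear_combination -hw
    · exact (not_finite_iff_infinite.mpr h) inferInstance
  · intro h
    left
    constructor
    rintro ⟨y, hy⟩
    apply h
    exact ⟨2 * y - x, by linear_combination -4 * hy⟩

theorem nr_eq_one_iff (h2 : (2 : F) ≠ 0) (x : F) :
    nr x = 1 ↔ x ^ 2 = 4 := by
  rw [nr, Nat.card_eq_one_iff_unique]
  constructor
  · rintro ⟨h, ⟨y, hy⟩⟩
    have h1 : (x - y) ^ 2 - x * (x - y) + 1 = 0 := by linear_combination hy
    have h3 := congrArg Subtype.val (Subsingleton.elim (⟨y, hy⟩ : {y : F // y ^ 2 - x * y + 1 = 0})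
      ⟨x - y, h1⟩)
    change y = x - y at h3
    have h4 : x = 2 * y := by linear_combination -h3
    rw [h4] at hy ⊢
    linear_combination -4 * hy
  · intro h
    constructor
    · constructor
      rintro ⟨y, hy⟩ ⟨y', hy'⟩
      apply Subtype.ext
      have h3 : (2 * y - x) ^ 2 = 0 := by linear_combination 4 * hy + h
      have h4 : (2 * y' - x) ^ 2 = 0 := by linear_combination 4 * hy' + h
      have h5 := pow_eq_zero_iff (two_ne_zero) |>.mp h3
      have h6 := pow_eq_zero_iff (two_ne_zero) |>.mp h4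
      exact mul_left_cancel₀ h2 (by linear_combination h5 - h6)
    · refine ⟨x / 2, ?_⟩
      field_simp
      linear_combination -h

theorem sum_nr [Fintype F] : ∑ x : F, nr x = Nat.card F - 1 := by
  rw [← Nat.card_units]
  have h1 : ∑ x : F, nr x = Nat.card (Σ x : F, {y : F // y ^ 2 - x * y + 1 = 0}) := by
    rw [Nat.card_sigma]
    rfl
  rw [h1]
  symm
  refine Nat.card_eq_of_bijective (fun u : Fˣ =>
    (⟨(u : F) + (u : F)⁻¹, ⟨(u : F), ?_⟩⟩ : Σ x : F, {y : F // y ^ 2 - x * y + 1 = 0})) ⟨?_, ?_⟩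
  · have := u.ne_zero
    field_simp
    ring
  · intro u v h
    apply Units.ext
    have h3 := congrArg (fun z : (Σ x : F, {y : F // y ^ 2 - x * y + 1 = 0}) => z.2.1) h
    exact h3
  · rintro ⟨x, ⟨y, hy⟩⟩
    have hy0 : y ≠ 0 := by
      rintro rfl
      simp at hy
    have hx : y + y⁻¹ = x := by
      field_simp
      linear_combination hy
    subst hx
    exact ⟨Units.mk0 y hy0, rfl⟩

theorem card_four (h2 : (2 : F) ≠ 0) : Nat.card {x : F // x ^ 2 = 4} = 2 := by
  have hb : Nat.card Bool = 2 := by rw [Nat.card_eq_fintype_card, Fintype.card_bool]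
  refine Eq.trans ?_ hb
  symm
  refine Nat.card_eq_of_bijective (fun b : Bool =>
    (⟨if b then 2 else -2, by split_ifs <;> norm_num⟩ : {x : F // x ^ 2 = 4})) ⟨?_, ?_⟩
  · intro b c h
    have h3 : (if b then (2 : F) else -2) = (if c then 2 else -2) := congrArg Subtype.val h
    have h4 : (2 : F) ≠ -2 := by
      intro h5
      have : (2 : F) * 2 = 0 := by linear_combination h5
      exact (mul_ne_zero h2 h2) this
    rcases b <;> rcases c
    · rfl
    · simp only [Bool.false_eq_true, if_false, if_true] at h3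
      exact absurd h3.symm h4
    · simp only [Bool.false_eq_true, if_false, if_true] at h3
      exact absurd h3 h4
    · rfl
  · rintro ⟨x, hx⟩
    have h3 : (x - 2) * (x + 2) = 0 := by linear_combination hx
    rcases mul_eq_zero.mp h3 with h | h
    · exact ⟨true, Subtype.ext (by
        change (2 : F) = x
        linear_combination -h)⟩
    · exact ⟨false, Subtype.ext (by
        change (-2 : F) = x
        linear_combination -h)⟩

theorem card_none [Finite F] (h2 : (2 : F) ≠ 0) :
    2 * Nat.card {x : F // nr x = 0} + 1 = Nat.card F := by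
  classical
  have : Fintype F := Fintype.ofFinite F
  have h1 : ∀ x : F, (2 : ℤ) - nr x = 2 * (if nr x = 0 then 1 else 0) +
      (if nr x = 1 then 1 else 0) := by
    intro x
    have : nr x ≤ 2 := roots_le_two x
    have h : nr x = 0 ∨ nr x = 1 ∨ nr x = 2 := by omega
    rcases h with h | h | h <;> rw [h] <;> norm_num
  have h3 : ∑ x : F, ((2 : ℤ) - nr x) = 2 * Nat.card F - (Nat.card F - 1) := by
    rw [Finset.sum_sub_distrib, Finset.sum_const, Finset.card_univ, ← Nat.card_eq_fintype_card,
      ← Nat.cast_sum, sum_nr, Nat.cast_sub (Nat.card_pos), nsmul_eq_mul]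
    push_cast
    ring
  rw [Finset.sum_congr rfl fun x _ => h1 x, Finset.sum_add_distrib, ← Finset.mul_sum,
    Finset.sum_boole, Finset.sum_boole] at h3
  have h4 : (Finset.univ.filter (fun x : F => nr x = 0)).card = Nat.card {x : F // nr x = 0} := by
    rw [Nat.card_eq_fintype_card, Fintype.card_subtype]
  have h5 : (Finset.univ.filter (fun x : F => nr x = 1)).card = 2 := by
    rw [← card_four h2, Nat.card_eq_fintype_card, Fintype.card_subtype]
    congr 1
    ext x
    simp only [Finset.mem_filter, Finset.mem_univ, true_and]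
    exact nr_eq_one_iff h2 x
  rw [h4, h5] at h3
  have h6 : ((2 * Nat.card {x : F // nr x = 0} + 1 : ℕ) : ℤ) = (Nat.card F : ℕ) := by
    push_cast
    push_cast at h3
    linarith
  exact_mod_cast h6

end quad

theorem odd_pow_div (Q e : ℕ) (hQ : Odd Q) :
    Q ^ e / 2 = (Q / 2) * ∑ i ∈ Finset.range e, Q ^ i := by
  obtain ⟨k, rfl⟩ := hQ
  have h1 : (2 * k + 1) / 2 = k := by omega
  rw [h1]
  have h3 : (2 * k + 1) ^ e = 2 * (k * ∑ i ∈ Finset.range e, (2 * k + 1) ^ i) + 1 := by
    induction e with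
    | zero => simp
    | succ e ih =>
      rw [Finset.sum_range_succ, pow_succ]
      generalize ∑ i ∈ Finset.range e, (2 * k + 1) ^ i = S at ih ⊢
      have : 2 * (k * (S + (2 * k + 1) ^ e)) + 1 =
        (2 * (k * S) + 1) + 2 * k * (2 * k + 1) ^ e := by ring
      rw [this, ← ih]
      ring
  omega

theorem odd_geom (Q e : ℕ) (hQ : Odd Q) : Odd (∑ i ∈ Finset.range e, Q ^ i) ↔ Odd e := by
  rw [Finset.odd_sum_iff_odd_card_odd]
  have : (Finset.range e).filter (fun i => Odd (Q ^ i)) = Finset.range e := by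
    apply Finset.filter_true_of_mem
    intro i _
    exact hQ.pow
  rw [this, Finset.card_range]

section ext

variable {L : Type} [Field L] [Finite L]

theorem ringChar_ne {F : Type} [Field F] (h2 : (2 : F) ≠ 0) : ringChar F ≠ 2 := by
  intro h
  apply h2
  have := (ringChar.spec F 2).mpr (by rw [h])
  exact_mod_cast this

theorem odd_card {F : Type} [Field F] [Finite F] (h2 : (2 : F) ≠ 0) : Odd (Nat.card F) := by
  have : Fintype F := Fintype.ofFinite F
  rw [Nat.card_eq_fintype_card, Nat.odd_iff]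
  exact FiniteField.odd_card_of_char_ne_two (ringChar_ne h2)

theorem square_ext {F : Type} [Field F] [Finite F] (h2 : (2 : F) ≠ 0) (φ : F →+* L) (e : ℕ)
    (he : Nat.card L = Nat.card F ^ e) (D : F) :
    ¬ IsSquare (φ D) ↔ (¬ IsSquare D ∧ Odd e) := by
  have hL2 : (2 : L) ≠ 0 := by
    have := (map_ne_zero φ).mpr h2
    rwa [map_ofNat] at this
  by_cases hD : D = 0
  · subst hD
    rw [map_zero]
    simp
  have hφD : φ D ≠ 0 := (map_ne_zero φ).mpr hD
  have : Fintype F := Fintype.ofFinite F
  have : Fintype L := Fintype.ofFinite L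
  rw [FiniteField.isSquare_iff (ringChar_ne h2) hD, FiniteField.isSquare_iff (ringChar_ne hL2) hφD,
    ← Nat.card_eq_fintype_card, ← Nat.card_eq_fintype_card, he,
    odd_pow_div _ _ (odd_card h2), pow_mul, ← map_pow]
  have hne : (-1 : F) ≠ 1 := by
    intro h
    apply h2
    linear_combination -h
  have hneL : (-1 : L) ≠ 1 := by
    intro h
    apply hL2
    linear_combination -h
  have hdic := FiniteField.pow_dichotomy (ringChar_ne h2) hD
  rw [← Nat.card_eq_fintype_card] at hdic
  rcases hdic with h | h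
  · rw [h]
    simp
  · rw [h, map_neg, map_one, ← odd_geom (Nat.card F) e (odd_card h2)]
    constructor
    · intro h3
      refine ⟨hne, ?_⟩
      rw [← Nat.not_even_iff_odd]
      intro h4
      exact h3 h4.neg_one_pow
    · rintro ⟨-, h3⟩ h4
      rw [h3.neg_one_pow] at h4
      exact hneL h4

variable {K : Type} [Field K] [Algebra K L]

omit [Finite L] in
theorem minpoly_hom (P : Pr K) (φ : AdjoinRoot P.1 →ₐ[K] L) :
    minpoly K (φ (AdjoinRoot.root P.1)) = P.1 := by
  have hinj : Function.Injective φ := (φ : Fp P →+* L).injective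
  rw [minpoly.algHom_eq φ hinj, minpoly_root' P.2.1]

theorem count_fiber [Finite K] (T : L → Prop) (T' : Pr K → Prop) (N : ℕ)
    (hN : Module.finrank K L = N)
    (hT : ∀ (P : Pr K) (φ : AdjoinRoot P.1 →ₐ[K] L), T (φ (AdjoinRoot.root P.1)) ↔ T' P) :
    Nat.card {z : L // T z} =
      ∑ d ∈ N.divisors, d * Nat.card {P : Pr K // P.1.natDegree = d ∧ T' P} := by
  have hfd : FiniteDimensional K L := Module.Finite.of_finite
  have hN0 : N ≠ 0 := by
    rw [← hN]
    exact Module.finrank_pos.ne'
  have hdeg : ∀ z : L, (minpoly K z).natDegree ∈ N.divisors := by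
    intro z
    rw [Nat.mem_divisors]
    refine ⟨?_, hN0⟩
    rw [← hN]
    exact minpoly.degree_dvd (Algebra.IsIntegral.isIntegral z)
  let f : {z : L // T z} → N.divisors := fun z => ⟨(minpoly K z.1).natDegree, hdeg z.1⟩
  have h1 : Nat.card {z : L // T z} = ∑ d : N.divisors, Nat.card {z : {z : L // T z} // f z = d} := by
    rw [← Nat.card_sigma]
    exact Nat.card_congr (Equiv.sigmaFiberEquiv f).symm
  rw [h1, ← Finset.sum_coe_sort N.divisors]
  refine Finset.sum_congr rfl fun d _ => ?_
  have hfP : Finite {P : Pr K // P.1.natDegree = d.1 ∧ T' P} := by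
    have := finite_degEq (K := K) d.1
    refine Finite.of_injective (fun P : {P : Pr K // P.1.natDegree = d.1 ∧ T' P} =>
      (⟨P.1, P.2.1⟩ : {P : Pr K // P.1.natDegree = d.1})) ?_
    intro P P' h
    have h0 : (⟨P.1, P.2.1⟩ : {P : Pr K // P.1.natDegree = d.1}) = ⟨P'.1, P'.2.1⟩ := h
    exact Subtype.ext (congrArg (fun z : {P : Pr K // P.1.natDegree = d.1} => z.1) h0)
  have : Fintype {P : Pr K // P.1.natDegree = d.1 ∧ T' P} := Fintype.ofFinite _
  have hfH : ∀ P : Pr K, Finite (AdjoinRoot P.1 →ₐ[K] L) := by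
    intro P
    refine Finite.of_injective (fun φ => φ (AdjoinRoot.root P.1)) ?_
    intro φ ψ h
    exact AdjoinRoot.algHom_ext h
  have hcard : ∀ P : {P : Pr K // P.1.natDegree = d.1 ∧ T' P},
      Nat.card (AdjoinRoot P.1.1 →ₐ[K] L) = d.1 := by
    intro P
    have hfr : Module.finrank K (Fp P.1) = d.1 := (finrank_A0 P.1.2.1).trans P.2.1
    have hdvd : Module.finrank K (Fp P.1) ∣ Module.finrank K L := by
      rw [hfr, hN]
      exact Nat.dvd_of_mem_divisors d.2
    have := FiniteField.natCard_algHom_of_finrank_dvd (F := K) (K := Fp P.1) (L := L) hdvd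
    rw [hfr] at this
    exact this
  have h3 : Nat.card (Σ P : {P : Pr K // P.1.natDegree = d.1 ∧ T' P},
      (AdjoinRoot P.1.1 →ₐ[K] L)) =
      d.1 * Nat.card {P : Pr K // P.1.natDegree = d.1 ∧ T' P} := by
    rw [Nat.card_sigma, Finset.sum_congr rfl fun P _ => hcard P, Finset.sum_const,
      Finset.card_univ, smul_eq_mul, Nat.card_eq_fintype_card, mul_comm]
  rw [← h3]
  symm
  refine Nat.card_eq_of_bijective
    (fun p : (Σ P : {P : Pr K // P.1.natDegree = d.1 ∧ T' P}, (AdjoinRoot P.1.1 →ₐ[K] L)) =>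
      (⟨⟨p.2 (AdjoinRoot.root p.1.1.1), (hT p.1.1 p.2).mpr p.1.2.2⟩, ?_⟩ :
        {z : {z : L // T z} // f z = d})) ⟨?_, ?_⟩
  · apply Subtype.ext
    change (minpoly K (p.2 (AdjoinRoot.root p.1.1.1))).natDegree = d.1
    rw [minpoly_hom, p.1.2.1]
  · rintro ⟨⟨P, hP⟩, φ⟩ ⟨⟨P', hP'⟩, φ'⟩ h
    have h0 : φ (AdjoinRoot.root P.1) = φ' (AdjoinRoot.root P'.1) :=
      congrArg (fun z : {z : {z : L // T z} // f z = d} => z.1.1) h
    have h4 : P = P' := by
      apply Subtype.ext
      rw [← minpoly_hom P φ, ← minpoly_hom P' φ', h0]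
    subst h4
    have h5 : φ = φ' := AdjoinRoot.algHom_ext h0
    subst h5
    rfl
  · rintro ⟨⟨z, hz⟩, hzd⟩
    have hint : IsIntegral K z := Algebra.IsIntegral.isIntegral z
    let P : Pr K := ⟨minpoly K z, minpoly.monic hint, minpoly.irreducible hint⟩
    let φ : AdjoinRoot P.1 →ₐ[K] L := AdjoinRoot.liftAlgHom P.1 (Algebra.ofId K L) z (by
      have := minpoly.aeval K z
      rwa [Polynomial.aeval_def] at this)
    have hφ : φ (AdjoinRoot.root P.1) = z := AdjoinRoot.liftAlgHom_root _ _ _ _
    refine ⟨⟨⟨P, ?_, ?_⟩, φ⟩, ?_⟩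
    · exact congrArg Subtype.val hzd
    · rw [← hT P φ, hφ]
      exact hz
    · apply Subtype.ext
      apply Subtype.ext
      exact hφ

theorem sg_neg_iff (P : Pr K) : sg P = -1 ↔ nr (F := Fp P) (AdjoinRoot.root P.1) = 0 := by
  rw [sg]
  change (nr (F := Fp P) (AdjoinRoot.root P.1) : ℝ) - 1 = -1 ↔ _
  constructor
  · intro h
    have : (nr (F := Fp P) (AdjoinRoot.root P.1) : ℝ) = 0 := by linarith
    exact_mod_cast this
  · intro h
    rw [h]
    norm_num

theorem sg_zero_iff (P : Pr K) : sg P = 0 ↔ nr (F := Fp P) (AdjoinRoot.root P.1) = 1 := by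
  rw [sg]
  change (nr (F := Fp P) (AdjoinRoot.root P.1) : ℝ) - 1 = 0 ↔ _
  constructor
  · intro h
    have : (nr (F := Fp P) (AdjoinRoot.root P.1) : ℝ) = 1 := by linarith
    exact_mod_cast this
  · intro h
    rw [h]
    norm_num

theorem two_Fp (h2 : (2 : K) ≠ 0) (P : Pr K) : (2 : Fp P) ≠ 0 := by
  have := (map_ne_zero (algebraMap K (Fp P))).mpr h2
  rwa [map_ofNat] at this

theorem inert_iff [Finite K] (h2 : (2 : K) ≠ 0) (N : ℕ) (hN : Module.finrank K L = N)
    (P : Pr K) (φ : AdjoinRoot P.1 →ₐ[K] L) :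
    nr (φ (AdjoinRoot.root P.1)) = 0 ↔ sg P = -1 ∧ Odd (N / P.1.natDegree) := by
  have hL2 : (2 : L) ≠ 0 := by
    have := (map_ne_zero (algebraMap K L)).mpr h2
    rwa [map_ofNat] at this
  have hf := finite_Fp P
  have hF2 : (2 : Fp P) ≠ 0 := two_Fp h2 P
  have hfr : Module.finrank K (Fp P) = P.1.natDegree := finrank_A0 P.2.1
  have hdvd : Module.finrank K (Fp P) ∣ Module.finrank K L :=
    FiniteField.nonempty_algHom_iff_finrank_dvd.mp ⟨(φ : Fp P →ₐ[K] L)⟩
  rw [hfr, hN] at hdvd
  have hcard : Nat.card L = Nat.card (Fp P) ^ (N / P.1.natDegree) := by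
    have h3 : Nat.card (Fp P) = Nat.card K ^ P.1.natDegree := card_A0 P.2.1
    have hfd : FiniteDimensional K L := Module.Finite.of_finite
    rw [h3, ← pow_mul, Nat.mul_div_cancel' hdvd, Module.natCard_eq_pow_finrank (K := K) (V := L), hN]
  rw [sg_neg_iff, nr_eq_zero_iff hL2, nr_eq_zero_iff hF2,
    ← square_ext hF2 (φ : Fp P →+* L) _ hcard, map_sub, map_pow, map_ofNat]
  rfl

theorem sum_all [Finite K] (N : ℕ) (hN : Module.finrank K L = N) :
    ∑ d ∈ N.divisors, d * Nat.card {P : Pr K // P.1.natDegree = d} = Nat.card K ^ N := by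
  have h1 := count_fiber (L := L) (K := K) (fun _ => True) (fun _ => True) N hN
    (fun P φ => Iff.rfl)
  have hfd : FiniteDimensional K L := Module.Finite.of_finite
  have h3 : Nat.card {z : L // True} = Nat.card K ^ N := by
    have h4 : Nat.card {z : L // True} = Nat.card L := Nat.card_congr (Equiv.Set.univ L)
    rw [h4, Module.natCard_eq_pow_finrank (K := K) (V := L), hN]
  rw [h3] at h1
  rw [h1]
  refine Finset.sum_congr rfl fun d _ => ?_
  congr 1
  exact Nat.card_congr (Equiv.subtypeEquivRight fun P => by simp)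

theorem sum_inert [Finite K] (h2 : (2 : K) ≠ 0) (N : ℕ) (hN : Module.finrank K L = N) :
    2 * (∑ d ∈ N.divisors, if Odd (N / d) then d * Ni K d else 0) + 1 = Nat.card K ^ N := by
  have h1 := count_fiber (L := L) (K := K) (fun z => nr z = 0)
    (fun P => sg P = -1 ∧ Odd (N / P.1.natDegree)) N hN (fun P φ => inert_iff h2 N hN P φ)
  have hfd : FiniteDimensional K L := Module.Finite.of_finite
  have hL2 : (2 : L) ≠ 0 := by
    have := (map_ne_zero (algebraMap K L)).mpr h2
    rwa [map_ofNat] at this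
  have h3 := card_none hL2
  rw [h1, Module.natCard_eq_pow_finrank (K := K) (V := L), hN] at h3
  rw [← h3]
  congr 2
  refine Finset.sum_congr rfl fun d _ => ?_
  split_ifs with h
  · congr 1
    rw [Ni]
    refine Nat.card_congr (Equiv.subtypeEquivRight fun P => ?_)
    constructor
    · rintro ⟨h4, h5⟩
      exact ⟨h4, h5, by rw [h4]; exact h⟩
    · rintro ⟨h4, h5, -⟩
      exact ⟨h4, h5⟩
  · symm
    rw [mul_eq_zero]
    right
    rw [Nat.card_eq_zero]
    left
    constructor
    rintro ⟨P, h4, h5, h6⟩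
    rw [h4] at h6
    exact h h6

end ext

section ram

variable {K : Type} [Field K]

/-- number of ramified primes -/
noncomputable def Nr (K : Type) [Field K] (d : ℕ) : ℕ :=
  Nat.card {P : Pr K // P.1.natDegree = d ∧ sg P = 0}

theorem sg_zero_iff' (h2 : (2 : K) ≠ 0) (P : Pr K) :
    sg P = 0 ↔ P.1 = X - C 2 ∨ P.1 = X - C (-2) := by
  rw [sg_zero_iff, nr_eq_one_iff (two_Fp h2 P)]
  have h3 : (AdjoinRoot.root P.1 : Fp P) ^ 2 = 4 ↔ P.1 ∣ (X - C 2) * (X - C (-2)) := by
    rw [← AdjoinRoot.mk_eq_zero, map_mul, map_sub, map_sub, AdjoinRoot.mk_X]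
    have h4 : AdjoinRoot.mk P.1 (C 2) = (2 : Fp P) := by
      rw [show (C (2 : K) : K[X]) = 2 from rfl, map_ofNat]
    have h5 : AdjoinRoot.mk P.1 (C (-2)) = (-2 : Fp P) := by
      rw [C_neg, map_neg, h4]
    rw [h4, h5]
    constructor
    · intro h
      change ((AdjoinRoot.root P.1 : Fp P) - 2) * ((AdjoinRoot.root P.1 : Fp P) - -2) = 0
      linear_combination h
    · intro h
      change ((AdjoinRoot.root P.1 : Fp P) - 2) * ((AdjoinRoot.root P.1 : Fp P) - -2) = 0 at h
      linear_combination h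
  rw [h3]
  constructor
  · intro h
    have hprime : Prime P.1 := P.2.2.prime
    rcases hprime.dvd_or_dvd h with h4 | h4
    · left
      exact Polynomial.eq_of_monic_of_associated P.2.1 (monic_X_sub_C _)
        (P.2.2.associated_of_dvd (irreducible_X_sub_C _) h4)
    · right
      exact Polynomial.eq_of_monic_of_associated P.2.1 (monic_X_sub_C _)
        (P.2.2.associated_of_dvd (irreducible_X_sub_C _) h4)
  · rintro (h | h)
    · rw [h]
      exact dvd_mul_right _ _
    · rw [h]
      exact dvd_mul_left _ _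

theorem Nr_one (h2 : (2 : K) ≠ 0) : Nr K 1 = 2 := by
  have hb : Nat.card Bool = 2 := by rw [Nat.card_eq_fintype_card, Fintype.card_bool]
  refine Eq.trans ?_ hb
  symm
  refine Nat.card_eq_of_bijective (fun b : Bool =>
    (⟨⟨X - C (if b then 2 else -2), monic_X_sub_C _, irreducible_X_sub_C _⟩,
      natDegree_X_sub_C _, ?_⟩ : {P : Pr K // P.1.natDegree = 1 ∧ sg P = 0})) ⟨?_, ?_⟩
  · refine (sg_zero_iff' h2 _).mpr ?_
    change X - C (if b then (2 : K) else -2) = X - C 2 ∨ X - C (if b then (2 : K) else -2) = X - C (-2)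
    rcases b
    · right; rfl
    · left; rfl
  · intro b c h
    have h3 : X - C (if b then (2 : K) else -2) = X - C (if c then 2 else -2) :=
      congrArg (fun z : {P : Pr K // P.1.natDegree = 1 ∧ sg P = 0} => z.1.1) h
    have h5 : (if b then (2 : K) else -2) = (if c then 2 else -2) := by
      have := sub_right_injective h3
      exact C_injective this
    have h4 : (2 : K) ≠ -2 := by
      intro h5
      have : (2 : K) * 2 = 0 := by linear_combination h5
      exact (mul_ne_zero h2 h2) this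
    rcases b <;> rcases c
    · rfl
    · simp only [Bool.false_eq_true, if_false, if_true] at h5
      exact absurd h5.symm h4
    · simp only [Bool.false_eq_true, if_false, if_true] at h5
      exact absurd h5 h4
    · rfl
  · rintro ⟨P, hP, hs⟩
    rw [sg_zero_iff' h2] at hs
    rcases hs with h | h
    · exact ⟨true, Subtype.ext (Subtype.ext (by rw [h]; rfl))⟩
    · exact ⟨false, Subtype.ext (Subtype.ext (by rw [h]; rfl))⟩

theorem Nr_ne (h2 : (2 : K) ≠ 0) (d : ℕ) (hd : d ≠ 1) : Nr K d = 0 := by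
  rw [Nr, Nat.card_eq_zero]
  left
  constructor
  rintro ⟨P, hP, hs⟩
  rw [sg_zero_iff' h2] at hs
  apply hd
  rw [← hP]
  rcases hs with h | h
  · rw [h, natDegree_X_sub_C]
  · rw [h, natDegree_X_sub_C]

theorem N_split [Finite K] (d : ℕ) :
    Nat.card {P : Pr K // P.1.natDegree = d} = Ns K d + Ni K d + Nr K d := by
  classical
  have hf := finite_degEq (K := K) d
  have : Fintype {P : Pr K // P.1.natDegree = d} := Fintype.ofFinite _
  have h5 : ∀ s : ℝ, (Finset.univ.filter
      (fun P : {P : Pr K // P.1.natDegree = d} => sg P.1 = s)).card =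
      Nat.card {P : Pr K // P.1.natDegree = d ∧ sg P = s} := by
    intro s
    have h6 : Nat.card {P : Pr K // P.1.natDegree = d ∧ sg P = s} =
        Nat.card {Q : {P : Pr K // P.1.natDegree = d} // sg Q.1 = s} :=
      Nat.card_congr (Equiv.subtypeSubtypeEquivSubtypeInter
        (fun P : Pr K => P.1.natDegree = d) (fun P : Pr K => sg P = s)).symm
    rw [h6, Nat.card_eq_fintype_card, Fintype.card_subtype]
  rw [Ns, Ni, Nr, ← h5, ← h5, ← h5, Nat.card_eq_fintype_card, ← Finset.card_univ]
  simp only [Finset.card_eq_sum_ones, Finset.sum_filter]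
  rw [← Finset.sum_add_distrib, ← Finset.sum_add_distrib]
  refine Finset.sum_congr rfl fun P _ => ?_
  rcases sg_cases P.1 with h | h | h <;> rw [h] <;> norm_num

end ram

end Pool.Agent.Helper855.Rc
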