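import Pool.Agent.Helper855.RcCyc

set_option autoImplicit false

open Polynomial

namespace Pool.Agent.Helper855.Rc

variable {K : Type} [Field K]

theorem isotropic_le {n : ℕ} (W : Submodule K (V n K))
    (hW : ∀ u ∈ W, ∀ w ∈ W, B n K u w = 0) : Module.finrank K W ≤ n := by
  have h1 := LinearMap.BilinForm.finrank_add_finrank_orthogonal' (B := B n K) W
  have hker : LinearMap.ker (B n K) = ⊥ := by
    rw [LinearMap.ker_eq_bot']
    intro u hu
    apply B_nondeg
    intro v
    rw [hu, LinearMap.zero_apply]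
  have h3 : (W ⊓ LinearMap.ker (B n K) : Submodule K (V n K)) = ⊥ := by
    rw [hker, inf_bot_eq]
  have h4 : Module.finrank K (W ⊓ LinearMap.ker (B n K) : Submodule K (V n K)) = 0 := by
    rw [h3, finrank_bot]
  have h5 : W ≤ (B n K).orthogonal W := by
    intro w hw
    rw [LinearMap.BilinForm.mem_orthogonal_iff]
    intro u hu
    exact hW u hu w hw
  have h6 := Submodule.finrank_mono h5
  have h7 : Module.finrank K (V n K) = 2 * n := by
    rw [Module.finrank_fintype_fun_eq_card, Fintype.card_sum, Fintype.card_fin]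
    ring
  have h8 : Module.finrank K W + Module.finrank K ((B n K).orthogonal W) = 2 * n + 0 := by
    rw [← h7, ← h4]
    exact h1
  omega

theorem selfadj {n : ℕ} (X : Mat n K)
    (hX : ∀ u w, B n K (X.mulVec u) w = B n K u (X.mulVec w)) (p : K[X]) :
    ∀ u w, B n K ((aeval X p).mulVec u) w = B n K u ((aeval X p).mulVec w) := by
  induction p using Polynomial.induction_on with
  | C a =>
    intro u w
    rw [aeval_C, Algebra.algebraMap_eq_smul_one, Matrix.smul_mulVec, Matrix.smul_mulVec,
      Matrix.one_mulVec, Matrix.one_mulVec, map_smul, map_smul, LinearMap.smul_apply]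
  | add p q hp hq =>
    intro u w
    rw [map_add, Matrix.add_mulVec, Matrix.add_mulVec, map_add, map_add, LinearMap.add_apply,
      hp, hq]
  | monomial k a h =>
    intro u w
    have h1 : aeval X (C a * Polynomial.X ^ (k + 1)) = aeval X (C a * Polynomial.X ^ k) * X := by
      rw [pow_succ, ← mul_assoc, map_mul, aeval_X]
    have h3 : aeval X (C a * Polynomial.X ^ (k + 1)) = X * aeval X (C a * Polynomial.X ^ k) := by
      rw [pow_succ, ← mul_assoc, mul_comm, map_mul, aeval_X]
    conv_lhs => rw [h1, ← Matrix.mulVec_mulVec, h, hX, Matrix.mulVec_mulVec, ← h3]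

theorem commute_aeval {n : ℕ} (M X : Mat n K) (h : X * M = M * X) (p : K[X]) :
    aeval X p * M = M * aeval X p := by
  induction p using Polynomial.induction_on with
  | C a =>
    rw [aeval_C, Algebra.commutes]
  | add p q hp hq =>
    rw [map_add, add_mul, mul_add, hp, hq]
  | monomial k a ih =>
    have h1 : aeval X (C a * Polynomial.X ^ (k + 1)) = aeval X (C a * Polynomial.X ^ k) * X := by
      rw [pow_succ, ← mul_assoc, map_mul, aeval_X]
    rw [h1, mul_assoc, h, ← mul_assoc, ih, mul_assoc]

theorem exists_param (h2 : (2 : K) ≠ 0) {n : ℕ} (M : Mat n K)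
    (hM : M ∈ Matrix.symplecticGroup (Fin n) K) (hc : minpoly K M = M.charpoly) :
    ∃ m : K[X], m.Monic ∧ m.natDegree = n ∧ ∃ x : A m ≃ₗ[K] V n K,
      (∀ a b, B n K (x (om m * a)) (x (om m * b)) = B n K (x a) (x b)) ∧
        conj x (om m) = M := by
  obtain ⟨v, hv⟩ := exists_cyclic M hc
  have hdet := SymplecticGroup.symplectic_det hM
  have hMi : M * M⁻¹ = 1 := Matrix.mul_nonsing_inv M hdet
  have hiM : M⁻¹ * M = 1 := Matrix.nonsing_inv_mul M hdet
  rw [sp_iff] at hM
  obtain ⟨X, hXdef⟩ : ∃ X, X = M + M⁻¹ := ⟨_, rfl⟩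
  have hXM : X * M = M * X := by rw [hXdef, add_mul, mul_add, hMi, hiM]
  have hMM : M * M = X * M - 1 := by rw [hXdef, add_mul, hiM, add_sub_cancel_right]
  have hXadj : ∀ u w, B n K (X.mulVec u) w = B n K u (X.mulVec w) := by
    intro u w
    have h1 : B n K (M.mulVec u) w = B n K u (M⁻¹.mulVec w) := by
      rw [← hM u (M⁻¹.mulVec w), Matrix.mulVec_mulVec, hMi, Matrix.one_mulVec]
    have h3 : B n K (M⁻¹.mulVec u) w = B n K u (M.mulVec w) := by
      rw [← hM (M⁻¹.mulVec u) w, Matrix.mulVec_mulVec, hMi, Matrix.one_mulVec]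
    rw [hXdef, Matrix.add_mulVec, Matrix.add_mulVec, map_add, map_add, LinearMap.add_apply,
      h1, h3, add_comm]
  have hadj := selfadj X hXadj
  obtain ⟨m, hmdef⟩ : ∃ m, m = minpoly K X := ⟨_, rfl⟩
  have hint : IsIntegral K X := Matrix.isIntegral X
  have hm : m.Monic := by rw [hmdef]; exact minpoly.monic hint
  have hmX : aeval X m = 0 := by rw [hmdef]; exact minpoly.aeval K X
  obtain ⟨P, hP⟩ : ∃ P : A0 m →ₗ[K] Mat n K, ∀ p, P (AdjoinRoot.mk m p) = aeval X p :=
    ⟨(aeval X).toLinearMap ∘ₗ (AdjoinRoot.modByMonicHom hm), fun p => by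
      rw [LinearMap.comp_apply, AdjoinRoot.modByMonicHom_mk, AlgHom.toLinearMap_apply,
        Polynomial.modByMonic_eq_sub_mul_div, map_sub, map_mul, hmX, zero_mul, sub_zero]⟩
  have hPM : ∀ r, P r * M = M * P r := by
    intro r
    obtain ⟨p, rfl⟩ := AdjoinRoot.mk_surjective r
    rw [hP]
    exact commute_aeval M X hXM p
  have hProot : ∀ r, P (AdjoinRoot.root m * r) = X * P r := by
    intro r
    obtain ⟨p, rfl⟩ := AdjoinRoot.mk_surjective r
    rw [← AdjoinRoot.mk_X, ← map_mul, hP, hP, map_mul, aeval_X]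
  have hProot' : ∀ r, P (AdjoinRoot.root m * r) = P r * X := by
    intro r
    obtain ⟨p, rfl⟩ := AdjoinRoot.mk_surjective r
    rw [mul_comm, ← AdjoinRoot.mk_X, ← map_mul, hP, hP, map_mul, aeval_X]
  have hPone : P 1 = 1 := by
    rw [← map_one (AdjoinRoot.mk m), hP, map_one]
  let x0 : A m →ₗ[K] V n K :=
    { toFun := fun u => (P u.re).mulVec v + (P u.im).mulVec (M.mulVec v)
      map_add' := by
        intro a b
        simp only [QuadraticAlgebra.re_add, QuadraticAlgebra.im_add, map_add, Matrix.add_mulVec]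
        abel
      map_smul' := by
        intro c a
        simp only [QuadraticAlgebra.re_smul, QuadraticAlgebra.im_smul, map_smul,
          Matrix.smul_mulVec, RingHom.id_apply, smul_add] }
  have hx0 : ∀ u, x0 u = (P u.re).mulVec v + (P u.im).mulVec (M.mulVec v) := fun u => rfl
  have hom : ∀ u, x0 (om m * u) = M.mulVec (x0 u) := by
    intro u
    have h1 : (om m * u).re = - u.im := by
      rw [om, QuadraticAlgebra.re_mul]; ring
    have h3 : (om m * u).im = u.re + AdjoinRoot.root m * u.im := by
      rw [om, QuadraticAlgebra.im_mul]; ring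
    rw [hx0, hx0, h1, h3, map_neg, map_add, hProot', Matrix.neg_mulVec, Matrix.add_mulVec,
      Matrix.mulVec_add, Matrix.mulVec_mulVec, Matrix.mulVec_mulVec, Matrix.mulVec_mulVec,
      Matrix.mulVec_mulVec, Matrix.mulVec_mulVec]
    have h5 : M * P u.im * M = P u.im * X * M - P u.im := by
      rw [← hPM, mul_assoc, hMM, mul_sub, mul_one, mul_assoc]
    rw [h5, hPM, Matrix.sub_mulVec]
    abel
  have haeval : ∀ p : K[X], ∀ u, x0 (aeval (om m) p * u) = (aeval M p).mulVec (x0 u) := by
    intro p
    induction p using Polynomial.induction_on with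
    | C a =>
      intro u
      rw [aeval_C, aeval_C, ← Algebra.smul_def, map_smul, Algebra.algebraMap_eq_smul_one,
        Matrix.smul_mulVec, Matrix.one_mulVec]
    | add p q hp hq =>
      intro u
      rw [map_add, map_add, add_mul, map_add, hp, hq, Matrix.add_mulVec]
    | monomial k a ih =>
      intro u
      have h1 : aeval (om m) (C a * Polynomial.X ^ (k + 1)) =
          aeval (om m) (C a * Polynomial.X ^ k) * om m := by
        rw [pow_succ, ← mul_assoc, map_mul, aeval_X]
      have h3 : aeval M (C a * Polynomial.X ^ (k + 1)) =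
          aeval M (C a * Polynomial.X ^ k) * M := by
        rw [pow_succ, ← mul_assoc, map_mul, aeval_X]
      rw [h1, h3, mul_assoc, ih, hom, Matrix.mulVec_mulVec]
  have hx1 : x0 1 = v := by
    rw [hx0]
    have h1 : (1 : A m).re = 1 := rfl
    have h3 : (1 : A m).im = 0 := rfl
    rw [h1, h3, hPone, map_zero, Matrix.one_mulVec, Matrix.zero_mulVec, add_zero]
  have hsurj : Function.Surjective x0 := by
    intro w
    obtain ⟨p, hp⟩ := hv w
    refine ⟨aeval (om m) p * 1, ?_⟩
    rw [haeval, hx1, hp]
  have hfinA := finite_A hm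
  have hfinA0 := finite_A0 hm
  have hV : Module.finrank K (V n K) = 2 * n := by
    rw [Module.finrank_fintype_fun_eq_card, Fintype.card_sum, Fintype.card_fin]
    ring
  have hle1 : n ≤ m.natDegree := by
    have h1 := LinearMap.finrank_le_finrank_of_surjective hsurj
    rw [hV, finrank_A hm] at h1
    omega
  -- the isotropic subspace
  let L : A0 m →ₗ[K] V n K :=
    { toFun := fun r => (P r).mulVec v
      map_add' := by
        intro a b
        rw [map_add, Matrix.add_mulVec]
      map_smul' := by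
        intro c a
        rw [map_smul, Matrix.smul_mulVec]
        rfl }
  have hLinj : Function.Injective L := by
    rw [injective_iff_map_eq_zero]
    intro r hr
    obtain ⟨p, rfl⟩ := AdjoinRoot.mk_surjective r
    change (P (AdjoinRoot.mk m p)).mulVec v = 0 at hr
    have h1 : ∀ w, (P (AdjoinRoot.mk m p)).mulVec w = 0 := by
      intro w
      obtain ⟨s, rfl⟩ := hv w
      rw [Matrix.mulVec_mulVec]
      have h3 : P (AdjoinRoot.mk m p) * aeval M s = aeval M s * P (AdjoinRoot.mk m p) :=
        (commute_aeval (P (AdjoinRoot.mk m p)) M (hPM _).symm s).symm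
      rw [h3, ← Matrix.mulVec_mulVec, hr, Matrix.mulVec_zero]
    have h3 : P (AdjoinRoot.mk m p) = 0 := by
      apply Matrix.toLin'.injective
      apply LinearMap.ext
      intro w
      rw [Matrix.toLin'_apply, h1, map_zero, LinearMap.zero_apply]
    rw [hP] at h3
    rw [AdjoinRoot.mk_eq_zero, hmdef]
    exact minpoly.dvd K X h3
  have hle2 : m.natDegree ≤ n := by
    have h1 : Module.finrank K (LinearMap.range L) = m.natDegree := by
      rw [LinearMap.finrank_range_of_inj hLinj, finrank_A0 hm]
    rw [← h1]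
    apply isotropic_le
    rintro _ ⟨r, rfl⟩ _ ⟨s, rfl⟩
    obtain ⟨p, rfl⟩ := AdjoinRoot.mk_surjective r
    obtain ⟨q, rfl⟩ := AdjoinRoot.mk_surjective s
    change B n K ((P (AdjoinRoot.mk m p)).mulVec v) ((P (AdjoinRoot.mk m q)).mulVec v) = 0
    rw [hP, hP, hadj, Matrix.mulVec_mulVec, ← map_mul]
    have h3 := hadj (p * q) v v
    rw [B_swap] at h3
    have h4 : 2 * B n K v ((aeval X (p * q)).mulVec v) = 0 := by
      linear_combination -h3
    exact (mul_eq_zero.mp h4).resolve_left h2
  have hn : m.natDegree = n := le_antisymm hle2 hle1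
  have hinj : Function.Injective x0 := by
    refine (LinearMap.injective_iff_surjective_of_finrank_eq_finrank ?_).mpr hsurj
    rw [finrank_A hm, hn, hV]
  refine ⟨m, hm, hn, LinearEquiv.ofBijective x0 ⟨hinj, hsurj⟩, ?_, ?_⟩
  · intro a b
    change B n K (x0 (om m * a)) (x0 (om m * b)) = B n K (x0 a) (x0 b)
    rw [hom, hom, hM]
  · apply Matrix.toLin'.injective
    apply LinearMap.ext
    intro w
    obtain ⟨u, rfl⟩ := hsurj w
    rw [Matrix.toLin'_apply, Matrix.toLin'_apply, ← hom]
    exact conj_mulVec (LinearEquiv.ofBijective x0 ⟨hinj, hsurj⟩) (om m) u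

end Pool.Agent.Helper855.Rc
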