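import Pool.Agent.Helper855.RcCount

set_option autoImplicit false

open Polynomial

namespace Pool.Agent.Helper855.Rc

theorem card_preimage {G H : Type} [AddCommGroup G] [AddCommGroup H] [Finite G] (f : G →+ H)
    (hf : Function.Surjective f) (T : H → Prop) :
    Nat.card {g : G // T (f g)} * Nat.card H = Nat.card {h : H // T h} * Nat.card G := by
  obtain ⟨s, hs⟩ := hf.hasRightInverse
  have key : ∀ T : H → Prop, Nat.card {g : G // T (f g)} =
      Nat.card {h : H // T h} * Nat.card f.ker := by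
    intro T
    rw [← Nat.card_prod]
    symm
    refine Nat.card_eq_of_bijective (fun p : {h : H // T h} × f.ker =>
      (⟨s p.1.1 + p.2.1, ?_⟩ : {g : G // T (f g)})) ⟨?_, ?_⟩
    · have h1 : f p.2.1 = 0 := p.2.2
      rw [map_add, hs, h1, add_zero]
      exact p.1.2
    · rintro ⟨⟨a, ha⟩, ⟨b, hb⟩⟩ ⟨⟨a', ha'⟩, ⟨b', hb'⟩⟩ h
      have h0 : s a + b = s a' + b' := congrArg Subtype.val h
      have hb0 : f b = 0 := hb
      have hb0' : f b' = 0 := hb'
      have h1 : a = a' := by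
        have := congrArg f h0
        rwa [map_add, map_add, hb0, hb0', hs, hs, add_zero, add_zero] at this
      subst h1
      have h3 : b = b' := add_left_cancel h0
      subst h3
      rfl
    · rintro ⟨g, hg⟩
      refine ⟨⟨⟨f g, hg⟩, ⟨g - s (f g), ?_⟩⟩, ?_⟩
      · change f (g - s (f g)) = 0
        rw [map_sub, hs, sub_self]
      · apply Subtype.ext
        change s (f g) + (g - s (f g)) = g
        abel
  have h1 := key T
  have h3 := key (fun _ => True)
  have h4 : Nat.card {g : G // True} = Nat.card G := Nat.card_congr (Equiv.Set.univ G)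
  have h5 : Nat.card {h : H // True} = Nat.card H := Nat.card_congr (Equiv.Set.univ H)
  rw [h4, h5] at h3
  rw [h1, h3]
  ring

theorem card_conic {F : Type} [Field F] [Finite F] (x : F) :
    Nat.card {c : F × F // c.1 * c.1 + x * c.1 * c.2 + c.2 * c.2 = 0} =
      (Nat.card F - 1) * Nat.card {y : F // y ^ 2 - x * y + 1 = 0} + 1 := by
  rw [← Nat.card_units, ← Nat.card_prod, ← Finite.card_option]
  symm
  refine Nat.card_eq_of_bijective (fun o : Option (Fˣ × {y : F // y ^ 2 - x * y + 1 = 0}) =>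
    (⟨Option.elim o (0, 0) (fun p => (-(p.2.1 * p.1), (p.1 : F))), ?_⟩ :
      {c : F × F // c.1 * c.1 + x * c.1 * c.2 + c.2 * c.2 = 0})) ⟨?_, ?_⟩
  · rcases o with _ | ⟨b, y, hy⟩
    · simp
    · change -(y * b) * -(y * b) + x * -(y * b) * b + b * b = (0 : F)
      linear_combination (b : F) ^ 2 * hy
  · rintro (_ | ⟨b, y, hy⟩) (_ | ⟨b', y', hy'⟩) h
    · rfl
    · have h0 := congrArg (fun c => c.1.2) h
      exact absurd h0.symm b'.ne_zero
    · have h0 := congrArg (fun c => c.1.2) h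
      exact absurd h0 b.ne_zero
    · have h0 : (b : F) = b' := congrArg (fun c => c.1.2) h
      have h1 : -(y * (b : F)) = -(y' * b') := congrArg (fun c => c.1.1) h
      have h3 : b = b' := Units.ext h0
      subst h3
      have h4 : y = y' := mul_right_cancel₀ b.ne_zero (neg_inj.mp h1)
      subst h4
      rfl
  · rintro ⟨⟨c, d⟩, hc⟩
    change c * c + x * c * d + d * d = 0 at hc
    by_cases hd : d = 0
    · refine ⟨none, ?_⟩
      apply Subtype.ext
      subst hd
      have : c = 0 := by simpa using hc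
      subst this
      rfl
    · refine ⟨some (Units.mk0 d hd, ⟨-c / d, ?_⟩), ?_⟩
      · field_simp
        linear_combination hc
      · apply Subtype.ext
        change (-(-c / d * d), d) = (c, d)
        congr 1
        field_simp

variable {K : Type} [Field K]

/-- monic irreducible polynomials -/
def Pr (K : Type) [Field K] : Type := {P : K[X] // P.Monic ∧ Irreducible P}

/-- residue ring -/
abbrev Fp (P : Pr K) : Type := AdjoinRoot P.1

noncomputable instance (P : Pr K) : Field (Fp P) :=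
  @AdjoinRoot.instField K _ P.1 ⟨P.2.2⟩

theorem finite_Fp [Finite K] (P : Pr K) : Finite (Fp P) := by
  have := finite_A0 P.2.1
  exact Module.finite_of_finite K

/-- number of roots -/
noncomputable def rt (P : Pr K) : ℕ :=
  Nat.card {y : AdjoinRoot P.1 // y ^ 2 - AdjoinRoot.root P.1 * y + 1 = 0}

/-- reduction map -/
noncomputable def red {m : K[X]} (P : Pr K) (h : P.1 ∣ m) : A0 m →+* AdjoinRoot P.1 :=
  AdjoinRoot.lift (AdjoinRoot.of P.1) (AdjoinRoot.root P.1) (by
    obtain ⟨c, hc⟩ := h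
    rw [hc, Polynomial.eval₂_mul, AdjoinRoot.eval₂_root, zero_mul])

theorem red_mk {m : K[X]} (P : Pr K) (h : P.1 ∣ m) (p : K[X]) :
    red P h (AdjoinRoot.mk m p) = AdjoinRoot.mk P.1 p := by
  rw [red, AdjoinRoot.lift_mk]
  exact AdjoinRoot.aeval_eq p

theorem red_root {m : K[X]} (P : Pr K) (h : P.1 ∣ m) :
    red P h (AdjoinRoot.root m) = AdjoinRoot.root P.1 := by
  rw [← AdjoinRoot.mk_X, red_mk, AdjoinRoot.mk_X]

theorem isUnit_iff {m : K[X]} (hm : m.Monic) (u : A0 m) :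
    IsUnit u ↔ ∀ (P : Pr K) (h : P.1 ∣ m), red P h u ≠ 0 := by
  constructor
  · intro hu P h
    exact (hu.map (red P h)).ne_zero
  · intro H
    obtain ⟨p, rfl⟩ := AdjoinRoot.mk_surjective u
    have hco : IsCoprime p m := by
      apply isCoprime_of_irreducible_dvd
      · rintro ⟨-, h⟩
        exact hm.ne_zero h
      · intro z hz hzp hzm
        have hz0 : z ≠ 0 := hz.ne_zero
        have hlc : z.leadingCoeff ≠ 0 := Polynomial.leadingCoeff_ne_zero.mpr hz0
        have hass : Associated z (z * C z.leadingCoeff⁻¹) := by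
          refine ⟨⟨C z.leadingCoeff⁻¹, C z.leadingCoeff, ?_, ?_⟩, rfl⟩
          · rw [← C_mul, inv_mul_cancel₀ hlc, C_1]
          · rw [← C_mul, mul_inv_cancel₀ hlc, C_1]
        let P : Pr K := ⟨z * C z.leadingCoeff⁻¹, Polynomial.monic_mul_leadingCoeff_inv hz0,
          hass.irreducible hz⟩
        have h1 : P.1 ∣ m := hass.symm.dvd.trans hzm
        apply H P h1
        rw [red_mk, AdjoinRoot.mk_eq_zero]
        exact hass.symm.dvd.trans hzp
    obtain ⟨a, b, hab⟩ := hco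
    have h1 := congrArg (AdjoinRoot.mk m) hab
    rw [map_add, map_mul, map_mul, AdjoinRoot.mk_self, mul_zero, add_zero, map_one] at h1
    exact IsUnit.of_mul_eq_one_right _ h1

theorem isUnit_A {m : K[X]} (hm : m.Monic) (u : A m) :
    IsUnit u ↔ ∀ (P : Pr K) (h : P.1 ∣ m),
      red P h u.re * red P h u.re + AdjoinRoot.root P.1 * red P h u.re * red P h u.im +
        red P h u.im * red P h u.im ≠ 0 := by
  rw [QuadraticAlgebra.isUnit_iff_norm_isUnit, isUnit_iff hm]
  refine forall_congr' fun P => forall_congr' fun h => ?_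
  rw [QuadraticAlgebra.norm_def, ← red_root P h]
  simp only [map_sub, map_add, map_mul, map_neg, map_one]
  rw [show ∀ a b c : AdjoinRoot P.1, a * a + b * a * c - -1 * c * c = a * a + b * a * c + c * c by
    intro a b c; ring]

theorem crt (D : Finset (Pr K)) (c : ∀ P : D, AdjoinRoot P.1.1) :
    ∃ p : K[X], ∀ P : D, AdjoinRoot.mk P.1.1 p = c P := by
  have hI : Pairwise (Function.onFun IsCoprime fun P : D => Ideal.span {P.1.1}) := by
    intro P P' hne
    change IsCoprime _ _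
    rw [Ideal.isCoprime_span_singleton_iff]
    refine P.1.2.2.coprime_iff_not_dvd.mpr ?_
    intro hdvd
    apply hne
    apply Subtype.ext
    apply Subtype.ext
    exact Polynomial.eq_of_monic_of_associated P.1.2.1 P'.1.2.1
      ((P.1.2.2.associated_of_dvd P'.1.2.2 hdvd))
  choose g hg using fun P : D => AdjoinRoot.mk_surjective (c P)
  obtain ⟨r, hr⟩ := Ideal.exists_forall_sub_mem_ideal hI g
  refine ⟨r, fun P => ?_⟩
  rw [← hg, AdjoinRoot.mk_eq_mk]
  exact Ideal.mem_span_singleton.mp (hr P)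

theorem card_A0 [Finite K] {m : K[X]} (hm : m.Monic) :
    Nat.card (A0 m) = Nat.card K ^ m.natDegree := by
  have := finite_A0 hm
  rw [Module.natCard_eq_pow_finrank (K := K), finrank_A0 hm]

theorem card_A [Finite K] {m : K[X]} (hm : m.Monic) :
    Nat.card (A m) = Nat.card K ^ (2 * m.natDegree) := by
  have := finite_A hm
  rw [Module.natCard_eq_pow_finrank (K := K), finrank_A hm]

/-- size of residue field -/
noncomputable def Qn (P : Pr K) : ℝ := (Nat.card (AdjoinRoot P.1) : ℝ)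

/-- the sign -/
noncomputable def sg (P : Pr K) : ℝ := (rt P : ℝ) - 1

theorem card_units' {R : Type} [CommRing R] : Nat.card Rˣ = Nat.card {u : R // IsUnit u} := by
  refine Nat.card_eq_of_bijective (fun u : Rˣ => (⟨u.1, u.isUnit⟩ : {u : R // IsUnit u})) ⟨?_, ?_⟩
  · intro u v h
    exact Units.ext (congrArg Subtype.val h)
  · rintro ⟨u, v, hv⟩
    exact ⟨v, Subtype.ext hv⟩

theorem units_A0 [Finite K] {m : K[X]} (hm : m.Monic) (D : Finset (Pr K))
    (hD : ∀ P, P ∈ D ↔ P.1 ∣ m) :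
    (Nat.card (A0 m)ˣ : ℝ) = (Nat.card K : ℝ) ^ m.natDegree *
      ∏ P ∈ D, ((Nat.card {y : AdjoinRoot P.1 // y ≠ 0} : ℝ) / Qn P) := by
  have hf0 := finite_A0 hm
  have hf : Finite (A0 m) := Module.finite_of_finite K
  have hff : ∀ P : D, Finite (AdjoinRoot P.1.1) := fun P => finite_Fp P.1
  let f : A0 m →+ (∀ P : D, AdjoinRoot P.1.1) :=
    { toFun := fun u P => red P.1 ((hD _).mp P.2) u
      map_zero' := by
        funext P
        exact map_zero _
      map_add' := by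
        intro a b
        funext P
        exact map_add _ _ _ }
  have hsurj : Function.Surjective f := by
    intro c
    obtain ⟨p, hp⟩ := crt D c
    refine ⟨AdjoinRoot.mk m p, ?_⟩
    funext P
    rw [← hp P]
    exact red_mk P.1 ((hD _).mp P.2) p
  have h1 := card_preimage f hsurj (fun h => ∀ P, h P ≠ 0)
  have h3 : Nat.card {g : A0 m // ∀ P : D, f g P ≠ 0} = Nat.card (A0 m)ˣ := by
    rw [card_units']
    refine Nat.card_congr (Equiv.subtypeEquivRight fun u => ?_)
    rw [isUnit_iff hm]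
    exact ⟨fun H P h => H ⟨P, (hD P).mpr h⟩, fun H P => H P.1 ((hD _).mp P.2)⟩
  have h4 : Nat.card {h : (∀ P : D, AdjoinRoot P.1.1) // ∀ P, h P ≠ 0} =
      ∏ P : D, Nat.card {y : AdjoinRoot P.1.1 // y ≠ 0} := by
    rw [← Nat.card_pi]
    exact Nat.card_congr (Equiv.subtypePiEquivPi (p := fun (P : D) (y : AdjoinRoot P.1.1) => y ≠ 0))
  rw [h3, h4, Nat.card_pi, card_A0 hm] at h1
  have h5 : (Nat.card (A0 m)ˣ : ℝ) * ∏ P : D, (Nat.card (AdjoinRoot P.1.1) : ℝ) =
      (∏ P : D, (Nat.card {y : AdjoinRoot P.1.1 // y ≠ 0} : ℝ)) *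
        (Nat.card K : ℝ) ^ m.natDegree := by
    exact_mod_cast h1
  have h6 : ∏ P : D, (Nat.card (AdjoinRoot P.1.1) : ℝ) ≠ 0 := by
    refine Finset.prod_ne_zero_iff.mpr fun P _ => ?_
    have : 0 < Nat.card (AdjoinRoot P.1.1) := Nat.card_pos
    positivity
  rw [Finset.prod_div_distrib, ← Finset.prod_coe_sort D, ← Finset.prod_coe_sort D]
  simp only [Qn]
  rw [← mul_div_assoc, eq_div_iff h6, h5, mul_comm]

theorem units_A [Finite K] {m : K[X]} (hm : m.Monic) (D : Finset (Pr K))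
    (hD : ∀ P, P ∈ D ↔ P.1 ∣ m) :
    (Nat.card (A m)ˣ : ℝ) = (Nat.card K : ℝ) ^ (2 * m.natDegree) *
      ∏ P ∈ D, ((Nat.card {c : AdjoinRoot P.1 × AdjoinRoot P.1 //
        c.1 * c.1 + AdjoinRoot.root P.1 * c.1 * c.2 + c.2 * c.2 ≠ 0} : ℝ) / (Qn P) ^ 2) := by
  have hf0 := finite_A hm
  have hf : Finite (A m) := Module.finite_of_finite K
  have hff : ∀ P : D, Finite (AdjoinRoot P.1.1) := fun P => finite_Fp P.1
  let f : A m →+ (∀ P : D, AdjoinRoot P.1.1 × AdjoinRoot P.1.1) :=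
    { toFun := fun u P => (red P.1 ((hD _).mp P.2) u.re, red P.1 ((hD _).mp P.2) u.im)
      map_zero' := by
        funext P
        simp
      map_add' := by
        intro a b
        funext P
        simp }
  have hsurj : Function.Surjective f := by
    intro c
    obtain ⟨p, hp⟩ := crt D (fun P => (c P).1)
    obtain ⟨r, hr⟩ := crt D (fun P => (c P).2)
    refine ⟨⟨AdjoinRoot.mk m p, AdjoinRoot.mk m r⟩, ?_⟩
    funext P
    apply Prod.ext
    · rw [← hp P]
      exact red_mk P.1 _ p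
    · rw [← hr P]
      exact red_mk P.1 _ r
  have h1 := card_preimage f hsurj (fun h => ∀ P : D, (h P).1 * (h P).1 +
    AdjoinRoot.root P.1.1 * (h P).1 * (h P).2 + (h P).2 * (h P).2 ≠ 0)
  have h3 : Nat.card {g : A m // ∀ P : D, (f g P).1 * (f g P).1 +
      AdjoinRoot.root P.1.1 * (f g P).1 * (f g P).2 + (f g P).2 * (f g P).2 ≠ 0} =
      Nat.card (A m)ˣ := by
    rw [card_units']
    refine Nat.card_congr (Equiv.subtypeEquivRight fun u => ?_)
    rw [isUnit_A hm]
    exact ⟨fun H P h => H ⟨P, (hD P).mpr h⟩, fun H P => H P.1 ((hD _).mp P.2)⟩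
  have h4 : Nat.card {h : (∀ P : D, AdjoinRoot P.1.1 × AdjoinRoot P.1.1) // ∀ P : D,
      (h P).1 * (h P).1 + AdjoinRoot.root P.1.1 * (h P).1 * (h P).2 + (h P).2 * (h P).2 ≠ 0} =
      ∏ P : D, Nat.card {c : AdjoinRoot P.1.1 × AdjoinRoot P.1.1 //
        c.1 * c.1 + AdjoinRoot.root P.1.1 * c.1 * c.2 + c.2 * c.2 ≠ 0} := by
    rw [← Nat.card_pi]
    exact Nat.card_congr (Equiv.subtypePiEquivPi
      (p := fun (P : D) (c : AdjoinRoot P.1.1 × AdjoinRoot P.1.1) =>
        c.1 * c.1 + AdjoinRoot.root P.1.1 * c.1 * c.2 + c.2 * c.2 ≠ 0))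
  rw [h3, h4, Nat.card_pi, card_A hm] at h1
  have h5 : (Nat.card (A m)ˣ : ℝ) * ∏ P : D, (Nat.card (AdjoinRoot P.1.1) : ℝ) ^ 2 =
      (∏ P : D, (Nat.card {c : AdjoinRoot P.1.1 × AdjoinRoot P.1.1 //
        c.1 * c.1 + AdjoinRoot.root P.1.1 * c.1 * c.2 + c.2 * c.2 ≠ 0} : ℝ)) *
        (Nat.card K : ℝ) ^ (2 * m.natDegree) := by
    have h7 : ∀ P : D, Nat.card (AdjoinRoot P.1.1 × AdjoinRoot P.1.1) =
        Nat.card (AdjoinRoot P.1.1) ^ 2 := by
      intro P
      rw [Nat.card_prod, sq]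
    simp only [h7] at h1
    exact_mod_cast h1
  have h6 : ∏ P : D, (Nat.card (AdjoinRoot P.1.1) : ℝ) ^ 2 ≠ 0 := by
    refine Finset.prod_ne_zero_iff.mpr fun P _ => ?_
    have : 0 < Nat.card (AdjoinRoot P.1.1) := Nat.card_pos
    positivity
  rw [Finset.prod_div_distrib, ← Finset.prod_coe_sort D, ← Finset.prod_coe_sort D]
  simp only [Qn]
  rw [← mul_div_assoc, eq_div_iff h6, h5, mul_comm]

theorem local_units [Finite K] (P : Pr K) :
    (Nat.card {y : AdjoinRoot P.1 // y ≠ 0} : ℝ) = Qn P - 1 := by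
  have := finite_Fp P
  have h0 : Nat.card {y : AdjoinRoot P.1 // y ≠ 0} = Nat.card (AdjoinRoot P.1)ˣ := by
    rw [card_units']
    exact Nat.card_congr (Equiv.subtypeEquivRight fun u => isUnit_iff_ne_zero.symm)
  have h1 : 0 < Nat.card (AdjoinRoot P.1) := Nat.card_pos
  rw [h0, Nat.card_units (Fp P), Nat.cast_sub h1, Nat.cast_one]
  rfl

theorem local_norm [Finite K] (P : Pr K) :
    (Nat.card {c : AdjoinRoot P.1 × AdjoinRoot P.1 //
        c.1 * c.1 + AdjoinRoot.root P.1 * c.1 * c.2 + c.2 * c.2 ≠ 0} : ℝ) =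
      (Qn P) ^ 2 - 1 - (Qn P - 1) * (sg P + 1) := by
  have := finite_Fp P
  have h1 : Nat.card (AdjoinRoot P.1 × AdjoinRoot P.1) =
      Nat.card {c : AdjoinRoot P.1 × AdjoinRoot P.1 //
        c.1 * c.1 + AdjoinRoot.root P.1 * c.1 * c.2 + c.2 * c.2 = 0} +
      Nat.card {c : AdjoinRoot P.1 × AdjoinRoot P.1 //
        c.1 * c.1 + AdjoinRoot.root P.1 * c.1 * c.2 + c.2 * c.2 ≠ 0} := by
    classical
    rw [← Nat.card_sum]
    exact Nat.card_congr (Equiv.sumCompl _).symm
  have h3 := card_conic (F := Fp P) (AdjoinRoot.root P.1)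
  have h4 : 0 < Nat.card (AdjoinRoot P.1) := Nat.card_pos
  have h5 : (Nat.card (AdjoinRoot P.1 × AdjoinRoot P.1) : ℝ) = (Qn P) ^ 2 := by
    rw [Nat.card_prod, Nat.cast_mul, sq]
    rfl
  have h6 : (Nat.card {c : AdjoinRoot P.1 × AdjoinRoot P.1 //
        c.1 * c.1 + AdjoinRoot.root P.1 * c.1 * c.2 + c.2 * c.2 = 0} : ℝ) =
        (Qn P - 1) * (sg P + 1) + 1 := by
    have h7 := congrArg (fun k : ℕ => (k : ℝ)) h3
    simp only [Nat.cast_add, Nat.cast_mul, Nat.cast_one] at h7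
    rw [Nat.cast_sub h4, Nat.cast_one] at h7
    rw [sg, sub_add_cancel]
    exact h7
  have h8 := congrArg (fun k : ℕ => (k : ℝ)) h1
  simp only [Nat.cast_add] at h8
  rw [h5, h6] at h8
  linarith

theorem Qn_gt_one [Finite K] (P : Pr K) : 1 < Qn P := by
  have := finite_Fp P
  have h1 : 1 < Nat.card (Fp P) := Finite.one_lt_card
  rw [Qn]
  exact_mod_cast h1

theorem weight [Finite K] {m : K[X]} (hm : m.Monic) (D : Finset (Pr K))
    (hD : ∀ P, P ∈ D ↔ P.1 ∣ m) :
    (Nat.card (A0 m)ˣ : ℝ) / (Nat.card (A m)ˣ : ℝ) =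
      (∏ P ∈ D, (1 - sg P / Qn P)⁻¹) / (Nat.card K : ℝ) ^ m.natDegree := by
  rw [units_A0 hm D hD, units_A hm D hD]
  have hq : (0 : ℝ) < Nat.card K := by
    have : 0 < Nat.card K := Nat.card_pos
    exact_mod_cast this
  have h1 : ∀ P ∈ D, (1 - sg P / Qn P)⁻¹ =
      ((Nat.card {y : AdjoinRoot P.1 // y ≠ 0} : ℝ) / Qn P) /
      ((Nat.card {c : AdjoinRoot P.1 × AdjoinRoot P.1 //
        c.1 * c.1 + AdjoinRoot.root P.1 * c.1 * c.2 + c.2 * c.2 ≠ 0} : ℝ) / (Qn P) ^ 2) := by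
    intro P _
    have h3 := Qn_gt_one P
    have h4 : Qn P ≠ 0 := by linarith
    have h5 : Qn P - 1 ≠ 0 := by linarith
    rw [local_units, local_norm]
    have h6 : (Qn P) ^ 2 - 1 - (Qn P - 1) * (sg P + 1) = (Qn P - 1) * (Qn P - sg P) := by ring
    rw [h6]
    by_cases h7 : Qn P - sg P = 0
    · have h8 : 1 - sg P / Qn P = 0 := by
        rw [show sg P = Qn P by linarith, div_self h4, sub_self]
      rw [h8, h7]
      simp
    · have h8 : 1 - sg P / Qn P = (Qn P - sg P) / Qn P := by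
        field_simp
      rw [h8]
      field_simp
  have h9 : ∏ P ∈ D, (1 - sg P / Qn P)⁻¹ =
      (∏ P ∈ D, ((Nat.card {y : AdjoinRoot P.1 // y ≠ 0} : ℝ) / Qn P)) /
      (∏ P ∈ D, ((Nat.card {c : AdjoinRoot P.1 × AdjoinRoot P.1 //
        c.1 * c.1 + AdjoinRoot.root P.1 * c.1 * c.2 + c.2 * c.2 ≠ 0} : ℝ) / (Qn P) ^ 2)) := by
    rw [Finset.prod_congr rfl h1, Finset.prod_div_distrib]
  rw [h9]
  generalize (∏ P ∈ D, ((Nat.card {y : AdjoinRoot P.1 // y ≠ 0} : ℝ) / Qn P)) = X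
  generalize (∏ P ∈ D, ((Nat.card {c : AdjoinRoot P.1 × AdjoinRoot P.1 //
        c.1 * c.1 + AdjoinRoot.root P.1 * c.1 * c.2 + c.2 * c.2 ≠ 0} : ℝ) / (Qn P) ^ 2)) = Y
  have h10 : (Nat.card K : ℝ) ^ m.natDegree ≠ 0 := by positivity
  rw [two_mul, pow_add, mul_assoc, mul_div_mul_left _ _ h10, div_div, mul_comm Y]

end Pool.Agent.Helper855.Rc
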