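import Pool.Agent.Helper855.RcAnalytic

set_option autoImplicit false

open Filter Topology

namespace Pool.Agent.Helper855.Rc

theorem Ls_real {y : ℝ} (h0 : 0 < y) (h1 : y < 1) : Ls (y : ℂ) = ((ls y : ℝ) : ℂ) := by
  have ha : 0 < 1 - y := by linarith
  have hb : 0 < 1 - y + y ^ 2 := by positivity
  rw [Ls, ls, Real.log_div hb.ne' ha.ne', Complex.ofReal_sub, Complex.ofReal_log hb.le,
    Complex.ofReal_log ha.le]
  push_cast
  rfl

theorem Li_real {y : ℝ} (h0 : 0 < y) (h1 : y < 1) : Li (y : ℂ) = ((li y : ℝ) : ℂ) := by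
  have ha : 0 < 1 + y := by linarith
  have hb : 0 < 1 + y - y ^ 2 := by nlinarith
  rw [Li, li, Real.log_div hb.ne' ha.ne', Complex.ofReal_sub, Complex.ofReal_log hb.le,
    Complex.ofReal_log ha.le]
  push_cast
  rfl

section

variable {K : Type} [Field K] [Finite K] (p : ℕ) [Fact p.Prime] [CharP K p]

theorem card_ge_three (h2 : (2 : K) ≠ 0) : 3 ≤ Nat.card K := by
  have h1 : 1 < Nat.card K := Finite.one_lt_card
  obtain ⟨k, hk⟩ := odd_card h2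
  omega

theorem Ns_zero : Ns K 0 = 0 ∧ Ni K 0 = 0 := by
  have h : ∀ P : Pr K, P.1.natDegree ≠ 0 := by
    intro P
    exact P.2.2.natDegree_pos.ne'
  constructor
  · rw [Ns, Nat.card_eq_zero]
    left
    exact ⟨fun P => h P.1 P.2.1⟩
  · rw [Ni, Nat.card_eq_zero]
    left
    exact ⟨fun P => h P.1 P.2.1⟩

include p in
theorem term_value (h2 : (2 : K) ≠ 0) (d : ℕ) :
    (((Ns K d : ℝ) * ls ((Nat.card K : ℝ) ^ d)⁻¹ + (Ni K d : ℝ) * li ((Nat.card K : ℝ) ^ d)⁻¹ :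
      ℝ) : ℂ) = Tt d ((Nat.card K : ℂ)⁻¹) := by
  rcases Nat.eq_zero_or_pos d with hd | hd
  · subst hd
    rw [Ns_zero.1, Ns_zero.2, Tt]
    simp
  have hq3 := card_ge_three h2
  have hq3' : (3 : ℝ) ≤ Nat.card K := by exact_mod_cast hq3
  have hq : (Nat.card K : ℂ) ≠ 0 := by
    have : Nat.card K ≠ 0 := by omega
    exact_mod_cast this
  have hd0 : (d : ℂ) ≠ 0 := by exact_mod_cast hd.ne'
  have hqd : (1 : ℝ) < (Nat.card K : ℝ) ^ d := one_lt_pow₀ (by linarith) hd.ne'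
  have hy0 : 0 < ((Nat.card K : ℝ) ^ d)⁻¹ := by positivity
  have hy1 : ((Nat.card K : ℝ) ^ d)⁻¹ < 1 := inv_lt_one_of_one_lt₀ hqd
  have h3 := count_all (K := K) p d hd
  have h4 := count_inert (K := K) p h2 d hd
  have h5 := N_split (K := K) d
  have h6 : (Nat.card {P : Pr K // P.1.natDegree = d} : ℂ) =
      (Ns K d : ℂ) + Ni K d + Nr K d := by
    rw [h5]
    push_cast
    rfl
  rw [h6] at h3
  have hNr : (d : ℂ) * (Nr K d : ℂ) = if d = 1 then 2 else 0 := by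
    split_ifs with h
    · subst h
      rw [Nr_one h2]
      norm_num
    · rw [Nr_ne h2 d h]
      simp
  have hyc : ((Nat.card K : ℂ)⁻¹) ^ d = ((((Nat.card K : ℝ) ^ d)⁻¹ : ℝ) : ℂ) := by
    push_cast
    rw [inv_pow]
  have hyne : ((((Nat.card K : ℝ) ^ d)⁻¹ : ℝ) : ℂ) ≠ 0 := by
    exact_mod_cast hy0.ne'
  rw [Tt, hyc, ks_eq hyne, ki_eq hyne, Ls_real hy0 hy1, Li_real hy0 hy1]
  generalize ls ((Nat.card K : ℝ) ^ d)⁻¹ = a
  generalize li ((Nat.card K : ℝ) ^ d)⁻¹ = b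
  push_cast
  generalize Ga d ((Nat.card K : ℂ)⁻¹) = g at h3 ⊢
  generalize Gi d ((Nat.card K : ℂ)⁻¹) = g' at h4 ⊢
  have hqd0 : (Nat.card K : ℂ) ^ d ≠ 0 := pow_ne_zero _ hq
  rw [eq_comm, inv_mul_eq_iff_eq_mul₀ hd0]
  have h7 : (if d = 1 then 2 * (Nat.card K : ℂ)⁻¹ else 0) * (Nat.card K : ℂ) ^ d =
      (d : ℂ) * (Nr K d : ℂ) := by
    rw [hNr]
    split_ifs with h
    · subst h
      field_simp
    · simp
  generalize (if d = 1 then 2 * (Nat.card K : ℂ)⁻¹ else 0) = w at h7 ⊢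
  have h8 : ∀ x : ℂ, x / ((Nat.card K : ℂ) ^ d)⁻¹ = x * (Nat.card K : ℂ) ^ d := by
    intro x
    rw [div_inv_eq_mul]
  rw [h8, h8]
  linear_combination (a : ℂ) * h3 - (a : ℂ) * h4 - (a : ℂ) * h7 + (b : ℂ) * h4

include p in
theorem value (h2 : (2 : K) ≠ 0) :
    ((Real.exp (∑' d : ℕ, ((Ns K d : ℝ) * ls ((Nat.card K : ℝ) ^ d)⁻¹ +
      (Ni K d : ℝ) * li ((Nat.card K : ℝ) ^ d)⁻¹)) : ℝ) : ℂ) =
      Complex.exp (Tt 1 ((Nat.card K : ℂ)⁻¹) + At ((Nat.card K : ℂ)⁻¹)) := by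
  have hq3 := card_ge_three h2
  have hq3' : (3 : ℝ) ≤ Nat.card K := by exact_mod_cast hq3
  have hmem : (Nat.card K : ℂ)⁻¹ ∈ Metric.ball (0 : ℂ) rho := by
    rw [mem_ball_zero_iff, norm_inv, Complex.norm_natCast]
    have h3 : (Nat.card K : ℝ)⁻¹ ≤ 3⁻¹ := inv_anti₀ (by norm_num) hq3'
    have := rho_gt
    linarith [show (3 : ℝ)⁻¹ < 61 / 100 by norm_num]
  rw [Complex.ofReal_exp, Complex.ofReal_tsum]
  congr 1
  rw [tsum_congr (term_value p h2)]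
  have hs := At_props.2.1 _ hmem
  have hs' : Summable (fun d : ℕ => Tt d ((Nat.card K : ℂ)⁻¹)) := (summable_nat_add_iff 2).mp hs
  rw [← hs'.sum_add_tsum_nat_add 2, At]
  congr 1
  rw [Finset.sum_range_succ, Finset.sum_range_succ, Finset.sum_range_zero, zero_add]
  have : Tt 0 ((Nat.card K : ℂ)⁻¹) = 0 := by
    rw [Tt]
    simp
  rw [this, zero_add]

end

end Pool.Agent.Helper855.Rc
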