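import Mathlib

/-!
The Virasoro algebra over a field, its Verma modules and their simple quotients.
-/

set_option autoImplicit false
set_option linter.unusedSimpArgs false
set_option linter.unusedSectionVars false
set_option linter.unusedVariables false

namespace Pool.Agent.Helper855.Virasoro

/-! ### The Virasoro algebra -/

/-- The binomial coefficient `(m+1 choose 3) = (m+1)m(m-1)/6` of an integer `m`. -/
def binom3 (m : ℤ) : ℤ := (m + 1) * m * (m - 1) / 6

lemma six_binom3 (m : ℤ) : 6 * binom3 m = (m + 1) * m * (m - 1) := by
  unfold binom3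
  apply Int.mul_ediv_cancel'
  have h : m % 6 = 0 ∨ m % 6 = 1 ∨ m % 6 = 2 ∨ m % 6 = 3 ∨ m % 6 = 4 ∨ m % 6 = 5 := by omega
  apply Int.dvd_of_emod_eq_zero
  rcases h with h | h | h | h | h | h <;>
    simp [Int.mul_emod, Int.add_emod, Int.sub_emod, h]

lemma binom3_neg (m : ℤ) : binom3 (-m) = - binom3 m := by
  have h1 := six_binom3 m
  have h2 := six_binom3 (-m)
  have h3 : 6 * binom3 (-m) = 6 * (- binom3 m) := by rw [h2]; linear_combination h1
  omega

lemma binom3_cocycle (m n : ℤ) :
    (m - n) * binom3 (m + n) = (m + 2 * n) * binom3 m - (2 * m + n) * binom3 n := by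
  have h1 := six_binom3 m
  have h2 := six_binom3 n
  have h3 := six_binom3 (m + n)
  have h4 : 6 * ((m - n) * binom3 (m + n)) =
      6 * ((m + 2 * n) * binom3 m - (2 * m + n) * binom3 n) := by
    linear_combination (m - n) * h3 - (m + 2 * n) * h1 + (2 * m + n) * h2
  omega

variable (F : Type*) [Field F]

/-- The underlying vector space of the Virasoro algebra: it has a basis indexed by
`Option ℤ`, the index `none` for the central element `C` and the index `some n` for `L_n`. -/
def Vir : Type _ := Option ℤ →₀ F

noncomputable instance : AddCommGroup (Vir F) := inferInstanceAs (AddCommGroup (Option ℤ →₀ F))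

noncomputable instance : Module F (Vir F) := inferInstanceAs (Module F (Option ℤ →₀ F))

/-- The basis of the Virasoro algebra. -/
noncomputable def Vir.basis : Module.Basis (Option ℤ) F (Vir F) :=
  Module.Basis.ofRepr (LinearEquiv.refl F (Option ℤ →₀ F))

/-- The basis vector `L_n`. -/
noncomputable def Vir.L (n : ℤ) : Vir F := Vir.basis F (some n)

/-- The central basis vector `C`. -/
noncomputable def Vir.C : Vir F := Vir.basis F none

/-- The coefficient of `C` in `[L_m, L_{-m}]`, that is half of `(m+1 choose 3)`. -/
noncomputable def cen (m : ℤ) : F := (2 : F)⁻¹ * (binom3 m : F)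

/-- The brackets of basis vectors:
`[L_m, L_n] = (m - n) L_{m+n} + (if m + n = 0 then (1/2) (m+1 choose 3) C)`, and `C` is central. -/
noncomputable def sc : Option ℤ → Option ℤ → Vir F
  | some m, some n =>
      ((m - n : ℤ) : F) • Vir.L F (m + n) + (if m + n = 0 then cen F m • Vir.C F else 0)
  | some _, none => 0
  | none, _ => 0

variable {F} in
/-- The bracket: the bilinear extension of the brackets of basis vectors. -/
noncomputable def vbr (x y : Vir F) : Vir F :=
  Finsupp.sum x fun i a => Finsupp.sum y fun j b => (a * b) • sc F i j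

/-- The bracket as a bilinear map. -/
noncomputable def brk : Vir F →ₗ[F] Vir F →ₗ[F] Vir F :=
  (Vir.basis F).constr F fun i => (Vir.basis F).constr F fun j => sc F i j

variable {F}

lemma cen_neg (m : ℤ) : cen F (-m) = - cen F m := by
  simp [cen, binom3_neg]

lemma cen_cocycle (m n : ℤ) : ((m - n : ℤ) : F) * cen F (m + n) =
    ((m + 2 * n : ℤ) : F) * cen F m - ((2 * m + n : ℤ) : F) * cen F n := by
  have h := congrArg (fun z : ℤ => (z : F)) (binom3_cocycle m n)
  simp only [Int.cast_mul, Int.cast_sub, Int.cast_add] at h
  simp only [cen, Int.cast_sub, Int.cast_add, Int.cast_mul]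
  simp only [Int.cast_ofNat] at *
  linear_combination (2 : F)⁻¹ * h

lemma vbr_eq_brk (x y : Vir F) : vbr x y = brk F x y := by
  have h1 : ∀ {N : Type _} [AddCommGroup N] [Module F N] (f : Option ℤ → N) (z : Vir F),
      (Vir.basis F).constr F f z = Finsupp.sum z fun i a => a • f i := by
    intro N _ _ f z
    rw [Module.Basis.constr_apply]
    rfl
  have h2 : brk F x y = Finsupp.sum x fun i a => a • Finsupp.sum y fun j b => b • sc F i j := by
    unfold brk
    rw [h1]
    unfold Finsupp.sum
    rw [LinearMap.sum_apply]
    refine Finset.sum_congr rfl fun i _ => ?_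
    rw [LinearMap.smul_apply, h1]
    rfl
  rw [h2, vbr]
  unfold Finsupp.sum
  refine Finset.sum_congr rfl fun i _ => ?_
  beta_reduce
  rw [Finset.smul_sum]
  refine Finset.sum_congr rfl fun j _ => ?_
  rw [smul_smul]

lemma brk_bv (i j : Option ℤ) : brk F (Vir.basis F i) (Vir.basis F j) = sc F i j := by
  simp [brk, Module.Basis.constr_basis]

lemma brk_LL (m n : ℤ) : brk F (Vir.L F m) (Vir.L F n) =
    ((m - n : ℤ) : F) • Vir.L F (m + n) + (if m + n = 0 then cen F m • Vir.C F else 0) :=
  brk_bv (some m) (some n)

lemma vir_ind {P : Vir F → Prop} (h0 : P 0) (hadd : ∀ x y, P x → P y → P (x + y))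
    (hsmul : ∀ (a : F) x, P x → P (a • x)) (hb : ∀ i, P (Vir.basis F i)) (x : Vir F) : P x := by
  have hx : x ∈ Submodule.span F (Set.range (Vir.basis F)) := by
    rw [(Vir.basis F).span_eq]; trivial
  induction hx using Submodule.span_induction with
  | mem y hy => obtain ⟨i, rfl⟩ := hy; exact hb i
  | zero => exact h0
  | add y z _ _ hy hz => exact hadd y z hy hz
  | smul a y _ hy => exact hsmul a y hy

lemma brk_Cl (x : Vir F) : brk F (Vir.C F) x = 0 := by
  refine vir_ind (P := fun x => brk F (Vir.C F) x = 0) (by simp) ?_ ?_ ?_ x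
  · intro x y hx hy; rw [map_add, hx, hy, add_zero]
  · intro a x hx; rw [map_smul, hx, smul_zero]
  · intro i; rw [Vir.C, brk_bv]; rfl

lemma brk_Cr (x : Vir F) : brk F x (Vir.C F) = 0 := by
  refine vir_ind (P := fun x => brk F x (Vir.C F) = 0) (by simp) ?_ ?_ ?_ x
  · intro x y hx hy; rw [map_add, LinearMap.add_apply, hx, hy, add_zero]
  · intro a x hx; rw [map_smul, LinearMap.smul_apply, hx, smul_zero]
  · intro i
    rw [Vir.C, brk_bv]
    cases i <;> rfl

lemma brk_skew (x y : Vir F) : brk F x y = - brk F y x := by
  refine vir_ind (P := fun x => brk F x y = - brk F y x) (by simp) ?_ ?_ ?_ x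
  · intro x x' hx hx'; rw [map_add, LinearMap.add_apply, hx, hx', map_add, neg_add]
  · intro a x hx; rw [map_smul, LinearMap.smul_apply, hx, map_smul, smul_neg]
  · intro i
    refine vir_ind (P := fun y => brk F (Vir.basis F i) y = - brk F y (Vir.basis F i))
      (by simp) ?_ ?_ ?_ y
    · intro x x' hx hx'; rw [map_add, map_add, LinearMap.add_apply, hx, hx', neg_add]
    · intro a x hx; rw [map_smul, map_smul, LinearMap.smul_apply, hx, smul_neg]
    · intro j
      rcases i with _ | m
      · exact (brk_Cl _).trans (by rw [← Vir.C, brk_Cr, neg_zero])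
      rcases j with _ | n
      · exact (brk_Cr _).trans (by rw [← Vir.C, brk_Cl, neg_zero])
      change brk F (Vir.L F m) (Vir.L F n) = - brk F (Vir.L F n) (Vir.L F m)
      rw [brk_LL, brk_LL, add_comm n m]
      by_cases h : m + n = 0
      · have hn : n = -m := by omega
        subst hn
        simp only [add_neg_cancel, if_true, cen_neg]
        push_cast
        module
      · simp only [h, if_false, Int.cast_sub]
        module

lemma brk_self (x : Vir F) : brk F x x = 0 := by
  refine vir_ind (P := fun x => brk F x x = 0) (by simp) ?_ ?_ ?_ x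
  · intro x y hx hy
    simp only [map_add, LinearMap.add_apply, hx, hy, brk_skew x y]
    simp
  · intro a x hx; simp only [map_smul, LinearMap.smul_apply, hx, smul_zero]
  · intro i
    rcases i with _ | m
    · exact brk_Cl _
    · change brk F (Vir.L F m) (Vir.L F m) = 0
      rw [brk_LL]
      by_cases h : m + m = 0
      · have : m = 0 := by omega
        subst this
        simp [cen, binom3]
      · simp [h]

lemma brk_jacobi (x y z : Vir F) :
    brk F x (brk F y z) = brk F (brk F x y) z + brk F y (brk F x z) := by
  refine vir_ind (P := fun x => brk F x (brk F y z) = brk F (brk F x y) z + brk F y (brk F x z))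
    (by simp) ?_ ?_ ?_ x
  · intro x x' hx hx'
    simp only [map_add, LinearMap.add_apply, hx, hx']
    abel
  · intro a x hx
    simp only [map_smul, LinearMap.smul_apply, hx, smul_add]
  intro i
  refine vir_ind (P := fun y => brk F (Vir.basis F i) (brk F y z) =
    brk F (brk F (Vir.basis F i) y) z + brk F y (brk F (Vir.basis F i) z)) (by simp) ?_ ?_ ?_ y
  · intro x x' hx hx'
    simp only [map_add, LinearMap.add_apply, hx, hx']
    abel
  · intro a x hx
    simp only [map_smul, LinearMap.smul_apply, hx, smul_add]
  intro j
  refine vir_ind (P := fun z => brk F (Vir.basis F i) (brk F (Vir.basis F j) z) =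
    brk F (brk F (Vir.basis F i) (Vir.basis F j)) z +
      brk F (Vir.basis F j) (brk F (Vir.basis F i) z)) (by simp) ?_ ?_ ?_ z
  · intro x x' hx hx'
    simp only [map_add, hx, hx']
    abel
  · intro a x hx
    simp only [map_smul, hx, smul_add]
  intro k
  rcases i with _ | m
  · change brk F (Vir.C F) _ = brk F (brk F (Vir.C F) _) _ + brk F _ (brk F (Vir.C F) _)
    simp only [brk_Cl, map_zero, LinearMap.zero_apply, add_zero]
  rcases j with _ | n
  · change brk F _ (brk F (Vir.C F) _) = brk F (brk F _ (Vir.C F)) _ + brk F (Vir.C F) _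
    simp only [brk_Cl, brk_Cr, map_zero, LinearMap.zero_apply, add_zero]
  rcases k with _ | k
  · change brk F _ (brk F _ (Vir.C F)) = brk F _ (Vir.C F) + brk F _ (brk F _ (Vir.C F))
    simp only [brk_Cr, map_zero, add_zero]
  change brk F (Vir.L F m) (brk F (Vir.L F n) (Vir.L F k)) =
    brk F (brk F (Vir.L F m) (Vir.L F n)) (Vir.L F k) +
      brk F (Vir.L F n) (brk F (Vir.L F m) (Vir.L F k))
  have hif : ∀ (p : Prop) [Decidable p] (a : F), (if p then a • Vir.C F else 0) =
      (if p then a else 0) • Vir.C F := by
    intro p _ a; split_ifs <;> simp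
  simp only [brk_LL, hif, map_add, map_smul, LinearMap.add_apply, LinearMap.smul_apply, brk_Cl,
    brk_Cr, smul_zero, add_zero, smul_add, smul_smul]
  have e1 : m + (n + k) = m + n + k := by ring
  have e2 : n + (m + k) = m + n + k := by ring
  rw [e1, e2]
  by_cases h : m + n + k = 0
  · have hk : k = -(m + n) := by omega
    subst hk
    simp only [h, if_true]
    have h1 := cen_cocycle (F := F) m n
    rw [← sub_eq_zero]
    have key : ((n - -(m + n) : ℤ) : F) * cen F m = ((m - n : ℤ) : F) * cen F (m + n) +
      ((m - -(m + n) : ℤ) : F) * cen F n := by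
      rw [h1]; push_cast; ring
    rw [key]
    push_cast
    module
  · simp only [h, if_false]
    push_cast
    module

noncomputable instance : LieRing (Vir F) where
  bracket := vbr
  add_lie x y z := by
    change vbr (x + y) z = vbr x z + vbr y z
    simp only [vbr_eq_brk, map_add, LinearMap.add_apply]
  lie_add x y z := by
    change vbr x (y + z) = vbr x y + vbr x z
    simp only [vbr_eq_brk, map_add]
  lie_self x := by
    change vbr x x = 0
    rw [vbr_eq_brk, brk_self]
  leibniz_lie x y z := by
    change vbr x (vbr y z) = vbr (vbr x y) z + vbr y (vbr x z)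
    simp only [vbr_eq_brk]
    exact brk_jacobi x y z

noncomputable instance : LieAlgebra F (Vir F) where
  lie_smul a x y := by
    change vbr x (a • y) = a • vbr x y
    simp only [vbr_eq_brk, map_smul]

lemma lie_LL (m n : ℤ) : ⁅Vir.L F m, Vir.L F n⁆ =
    ((m - n : ℤ) : F) • Vir.L F (m + n) + (if m + n = 0 then cen F m • Vir.C F else 0) :=
  (vbr_eq_brk _ _).trans (brk_LL m n)

lemma lie_C (x : Vir F) : ⁅Vir.C F, x⁆ = 0 := (vbr_eq_brk _ _).trans (brk_Cl x)


attribute [local instance 100] LieRing.ofAssociativeRing

/-! ### Verma modules and their simple quotients -/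

section definitions

variable (F)

/-- The universal enveloping algebra of the Virasoro algebra. -/
def UVir : Type _ := UniversalEnvelopingAlgebra F (Vir F)

noncomputable instance : Ring (UVir F) := inferInstanceAs (Ring (UniversalEnvelopingAlgebra F (Vir F)))

noncomputable instance : Algebra F (UVir F) :=
  inferInstanceAs (Algebra F (UniversalEnvelopingAlgebra F (Vir F)))

/-- The canonical map from the Virasoro algebra to its enveloping algebra. -/
noncomputable def iota : Vir F →ₗ⁅F⁆ UVir F := UniversalEnvelopingAlgebra.ι F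

/-- `L_n` as an element of the enveloping algebra. -/
noncomputable def uL (n : ℤ) : UVir F := iota F (Vir.L F n)

/-- `C` as an element of the enveloping algebra. -/
noncomputable def uC : UVir F := iota F (Vir.C F)

/-- The left ideal of the enveloping algebra generated by `L_n` for `n > 0`, by `L_0 - h` and by
`C - c`. -/
noncomputable def vermaIdeal (c h : F) : Submodule (UVir F) (UVir F) :=
  Submodule.span (UVir F) ({x | ∃ n : ℤ, 0 < n ∧ x = uL F n} ∪
    {uL F 0 - algebraMap F (UVir F) h, uC F - algebraMap F (UVir F) c})

/-- The Verma module `M_{c,h}`: the quotient of the enveloping algebra by the left ideal above. -/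
def Verma (c h : F) : Type _ := UVir F ⧸ vermaIdeal F c h

noncomputable instance (c h : F) : AddCommGroup (Verma F c h) :=
  inferInstanceAs (AddCommGroup (UVir F ⧸ vermaIdeal F c h))

noncomputable instance (c h : F) : Module (UVir F) (Verma F c h) :=
  inferInstanceAs (Module (UVir F) (UVir F ⧸ vermaIdeal F c h))

noncomputable instance (c h : F) : Module F (Verma F c h) :=
  inferInstanceAs (Module F (UVir F ⧸ vermaIdeal F c h))

instance (c h : F) : IsScalarTower F (UVir F) (Verma F c h) :=
  inferInstanceAs (IsScalarTower F (UVir F) (UVir F ⧸ vermaIdeal F c h))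

/-- The quotient map from the enveloping algebra to the Verma module. -/
noncomputable def vermaMk (c h : F) : UVir F →ₗ[UVir F] Verma F c h := (vermaIdeal F c h).mkQ

/-- The highest weight vector of the Verma module. -/
noncomputable def vac (c h : F) : Verma F c h := vermaMk F c h 1

/-- The monomial `L_{-i_1} ⋯ L_{-i_r}` for a list `[i_1, …, i_r]`. -/
noncomputable def mono (l : List ℕ) : UVir F := (l.map fun i => uL F (-(i : ℤ))).prod

/-- For a vector `v` in a module, the span of the vectors `L_{-i_1} ⋯ L_{-i_r} v` with all
`i_j > 0` and `i_1 + ⋯ + i_r = k`. -/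
noncomputable def degreePart {M : Type*} [AddCommGroup M] [Module F M] [Module (UVir F) M]
    (v : M) (k : ℕ) : Submodule F M :=
  Submodule.span F {x | ∃ l : List ℕ, (∀ i ∈ l, 0 < i) ∧ l.sum = k ∧ x = mono F l • v}

/-- The degree `k` part of the Verma module. -/
noncomputable def vermaPart (c h : F) (k : ℕ) : Submodule F (Verma F c h) :=
  degreePart F (vac F c h) k

/-- A submodule `N` of the Verma module is graded when each of its elements is a linear
combination of homogeneous elements of `N`. -/
def IsGraded (c h : F) (N : Submodule (UVir F) (Verma F c h)) : Prop :=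
  ∀ x ∈ N, x ∈ Submodule.span F {y | y ∈ N ∧ ∃ k : ℕ, y ∈ vermaPart F c h k}

/-- The largest proper graded submodule of the Verma module: the sum of all proper graded
submodules. (It is proved below that it is graded and proper, and that the quotient is simple.) -/
noncomputable def maxGraded (c h : F) : Submodule (UVir F) (Verma F c h) :=
  sSup {N | IsGraded F c h N ∧ N ≠ ⊤}

/-- The simple quotient `L_{c,h}` of the Verma module `M_{c,h}`. -/
def Simple (c h : F) : Type _ := Verma F c h ⧸ maxGraded F c h

noncomputable instance (c h : F) : AddCommGroup (Simple F c h) :=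
  inferInstanceAs (AddCommGroup (Verma F c h ⧸ maxGraded F c h))

noncomputable instance (c h : F) : Module (UVir F) (Simple F c h) :=
  inferInstanceAs (Module (UVir F) (Verma F c h ⧸ maxGraded F c h))

noncomputable instance (c h : F) : Module F (Simple F c h) :=
  inferInstanceAs (Module F (Verma F c h ⧸ maxGraded F c h))

instance (c h : F) : IsScalarTower F (UVir F) (Simple F c h) :=
  inferInstanceAs (IsScalarTower F (UVir F) (Verma F c h ⧸ maxGraded F c h))

/-- The quotient map from the Verma module to its simple quotient. -/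
noncomputable def simpleMk (c h : F) : Verma F c h →ₗ[UVir F] Simple F c h :=
  (maxGraded F c h).mkQ

/-- The highest weight vector of `L_{c,h}`. -/
noncomputable def svac (c h : F) : Simple F c h := simpleMk F c h (vac F c h)

/-- The dimension of the degree `k` part of `L_{c,h}`, which is spanned by the vectors
`L_{-i_1} ⋯ L_{-i_r} v` with `i_1 + ⋯ + i_r = k`. -/
noncomputable def dimSimple (c h : F) (k : ℕ) : ℕ :=
  Module.finrank F (degreePart F (svac F c h) k)

/-- The central charge `c_ℓ = 1 - 6/((ℓ+1)(ℓ+2))`. -/
noncomputable def cMin (ℓ : ℕ) : F := 1 - 6 / (((ℓ : F) + 1) * ((ℓ : F) + 2))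

/-- The weight `h_{m,n} = (((ℓ+2)m - (ℓ+1)n)^2 - 1)/(4(ℓ+1)(ℓ+2))`. -/
noncomputable def hMin (ℓ m n : ℕ) : F :=
  ((((ℓ : F) + 2) * m - ((ℓ : F) + 1) * n) ^ 2 - 1) / (4 * ((ℓ : F) + 1) * ((ℓ : F) + 2))

end definitions


end Pool.Agent.Helper855.Virasoro
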