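import Pool.Agent.Helper855.VirasoroDefs

/-!
General facts on Verma modules of the Virasoro algebra and computations in degree eight.
-/

set_option autoImplicit false
set_option linter.unusedSimpArgs false
set_option linter.unusedSectionVars false
set_option linter.unusedVariables false

namespace Pool.Agent.Helper855.Virasoro

attribute [local instance 100] LieRing.ofAssociativeRing

variable {F : Type*} [Field F]

section basicfacts

lemma vermaMk_eq_zero {c h : F} {u : UVir F} : vermaMk F c h u = 0 ↔ u ∈ vermaIdeal F c h :=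
  Submodule.Quotient.mk_eq_zero _

lemma vermaMk_surj {c h : F} : Function.Surjective (vermaMk F c h) :=
  (vermaIdeal F c h).mkQ_surjective

lemma simpleMk_eq_zero {c h : F} {x : Verma F c h} : simpleMk F c h x = 0 ↔ x ∈ maxGraded F c h :=
  Submodule.Quotient.mk_eq_zero _

lemma simpleMk_surj {c h : F} : Function.Surjective (simpleMk F c h) :=
  (maxGraded F c h).mkQ_surjective

lemma simpleMk_smul {c h : F} (a : F) (x : Verma F c h) :
    simpleMk F c h (a • x) = a • simpleMk F c h x := rfl

lemma isGraded_iff {c h : F} {N : Submodule (UVir F) (Verma F c h)} : IsGraded F c h N ↔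
    ∀ x ∈ N, x ∈ ⨆ k : ℕ, (N.restrictScalars F ⊓ degreePart F (vac F c h) k) := by
  have e : Submodule.span F {y | y ∈ N ∧ ∃ k : ℕ, y ∈ vermaPart F c h k} =
      ⨆ k : ℕ, (N.restrictScalars F ⊓ degreePart F (vac F c h) k) := by
    apply le_antisymm
    · refine Submodule.span_le.mpr ?_
      rintro y ⟨hy, k, hk⟩
      exact Submodule.mem_iSup_of_mem k ⟨hy, hk⟩
    · refine iSup_le fun k => ?_
      rintro y ⟨hy, hk⟩
      exact Submodule.subset_span ⟨hy, k, hk⟩
  unfold IsGraded
  rw [e]


end basicfacts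

/-! ### General facts on modules -/

section general

variable {M : Type*} [AddCommGroup M] [Module F M] [Module (UVir F) M] [IsScalarTower F (UVir F) M]

lemma uL_comm (m n : ℤ) : uL F m * uL F n = uL F n * uL F m +
    ((m - n : ℤ) : F) • uL F (m + n) + (if m + n = 0 then cen F m else 0) • uC F := by
  have h1 : ⁅uL F m, uL F n⁆ = uL F m * uL F n - uL F n * uL F m := rfl
  have h2 : ⁅uL F m, uL F n⁆ = iota F ⁅Vir.L F m, Vir.L F n⁆ :=
    (LieHom.map_lie _ _ _).symm
  rw [lie_LL, map_add, map_smul] at h2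
  have h3 : iota F (if m + n = 0 then cen F m • Vir.C F else 0) =
      (if m + n = 0 then cen F m else 0) • uC F := by
    split_ifs
    · rw [map_smul]; rfl
    · rw [map_zero, zero_smul]
  rw [h3] at h2
  rw [h1] at h2
  have h4 : uL F m * uL F n = uL F n * uL F m + (uL F m * uL F n - uL F n * uL F m) := by abel
  rw [h4, h2, ← add_assoc]
  rfl

lemma uC_comm_ι (x : Vir F) : uC F * iota F x = iota F x * uC F := by
  have h1 : ⁅uC F, iota F x⁆ = uC F * iota F x - iota F x * uC F := rfl
  have h2 : ⁅uC F, iota F x⁆ = iota F ⁅Vir.C F, x⁆ := (LieHom.map_lie _ _ _).symm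
  rw [lie_C, map_zero] at h2
  rw [h2] at h1
  exact (sub_eq_zero.mp h1.symm)

/-- Induction on the enveloping algebra. -/
lemma U_ind {P : UVir F → Prop} (halg : ∀ a : F, P (algebraMap F _ a)) (hL : ∀ n, P (uL F n))
    (hC : P (uC F)) (hadd : ∀ x y, P x → P y → P (x + y)) (hmul : ∀ x y, P x → P y → P (x * y))
    (u : UVir F) : P u := by
  let S : Subalgebra F (UVir F) :=
    { carrier := {u | P u}
      mul_mem' := fun {x y} hx hy => hmul x y hx hy
      add_mem' := fun {x y} hx hy => hadd x y hx hy
      algebraMap_mem' := halg }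
  have hι : ∀ x : Vir F, iota F x ∈ S := by
    intro x
    refine vir_ind (P := fun x => iota F x ∈ S) ?_ ?_ ?_ ?_ x
    · rw [map_zero]; exact zero_mem _
    · intro x y hx hy; rw [map_add]; exact add_mem hx hy
    · intro a x hx; rw [map_smul]; exact S.smul_mem hx a
    · intro i
      rcases i with _ | n
      · exact hC
      · exact hL n
  let f : Vir F →ₗ⁅F⁆ S :=
    { toFun := fun x => ⟨iota F x, hι x⟩
      map_add' := fun x y => Subtype.ext (map_add _ _ _)
      map_smul' := fun a x => Subtype.ext (map_smul _ _ _)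
      map_lie' := fun {x y} => Subtype.ext (LieHom.map_lie _ _ _) }
  let g : UVir F →ₐ[F] S := UniversalEnvelopingAlgebra.lift F f
  have hg : ∀ x, g (iota F x) = f x := fun x => UniversalEnvelopingAlgebra.lift_ι_apply F f x
  have h1 : S.val.comp g = AlgHom.id F (UVir F) := by
    apply UniversalEnvelopingAlgebra.hom_ext
    ext x
    change ((g (iota F x) : S) : UVir F) = iota F x
    rw [hg]
    rfl
  have h3 : ((g u : S) : UVir F) = u := DFunLike.congr_fun h1 u
  rw [← h3]
  exact (g u).2

lemma uC_comm (u : UVir F) : uC F * u = u * uC F := by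
  refine U_ind (P := fun u => uC F * u = u * uC F) ?_ ?_ rfl ?_ ?_ u
  · intro a; exact (Algebra.commutes a (uC F)).symm
  · intro n; exact uC_comm_ι _
  · intro x y hx hy; rw [mul_add, add_mul, hx, hy]
  · intro x y hx hy; rw [← mul_assoc, hx, mul_assoc, hy, mul_assoc]

lemma uL_smul_comm (m n : ℤ) (x : M) : uL F m • uL F n • x = uL F n • uL F m • x +
    ((m - n : ℤ) : F) • uL F (m + n) • x + (if m + n = 0 then cen F m else 0) • uC F • x := by
  rw [← mul_smul, uL_comm, add_smul, add_smul, mul_smul, smul_assoc, smul_assoc]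

lemma algebraMap_smul' (a : F) (x : M) : algebraMap F (UVir F) a • x = a • x :=
  algebraMap_smul (UVir F) a x

/-- A subspace stable under the generators is stable under the enveloping algebra. -/
lemma stable_of (Z : Submodule F M) (hL : ∀ n, ∀ z ∈ Z, uL F n • z ∈ Z)
    (hC : ∀ z ∈ Z, uC F • z ∈ Z) (u : UVir F) : ∀ z ∈ Z, u • z ∈ Z := by
  refine U_ind (P := fun u => ∀ z ∈ Z, u • z ∈ Z) ?_ hL hC ?_ ?_ u
  · intro a z hz; rw [algebraMap_smul']; exact Z.smul_mem _ hz
  · intro x y hx hy z hz; rw [add_smul]; exact add_mem (hx z hz) (hy z hz)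
  · intro x y hx hy z hz; rw [mul_smul]; exact hx _ (hy z hz)

lemma mono_nil : mono F [] = 1 := by simp [mono]

lemma mono_cons (i : ℕ) (l : List ℕ) : mono F (i :: l) = uL F (-(i : ℤ)) * mono F l := by
  simp [mono]

end general

/-! ### A model: words -/

variable (F) in
/-- Words with coefficients. The letter `k` stands for `L_{-(k+1)}`. -/
abbrev T : Type _ := List ℕ →₀ F

/-- Prepend a letter. -/
noncomputable def cns (k : ℕ) : T F →ₗ[F] T F := Finsupp.lmapDomain F F (List.cons k)

lemma cns_single (k : ℕ) (w : List ℕ) (a : F) :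
    cns k (Finsupp.single w a) = Finsupp.single (k :: w) a := by
  simp [cns, Finsupp.lmapDomain_apply, Finsupp.mapDomain_single]

/-- The action of `L_n` on a word. -/
noncomputable def actW (c h : F) : List ℕ → ℤ → T F
  | [], n => if n < 0 then Finsupp.single [(-n).toNat - 1] 1 else
      if n = 0 then Finsupp.single [] h else 0
  | k :: w, n => if n < 0 then Finsupp.single (((-n).toNat - 1) :: k :: w) 1 else
      cns k (actW c h w n) + ((n + (k + 1) : ℤ) : F) • actW c h w (n - (k + 1)) +
        Finsupp.single w (if n = k + 1 then cen F n * c else 0)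

/-- The action of `L_n`. -/
noncomputable def act (c h : F) (n : ℤ) : T F →ₗ[F] T F :=
  Finsupp.linearCombination F (fun w => actW c h w n)

variable {c h : F}

lemma act_single (n : ℤ) (w : List ℕ) (a : F) :
    act c h n (Finsupp.single w a) = a • actW c h w n := by
  simp [act]

lemma act_neg (k : ℕ) : act c h (-(k + 1 : ℤ)) = cns k := by
  apply Finsupp.lhom_ext
  intro w a
  rw [act_single, cns_single]
  have h1 : -(k + 1 : ℤ) < 0 := by omega
  have h2 : (-(-(k + 1 : ℤ))).toNat - 1 = k := by omega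
  cases w with
  | nil => simp only [actW, h1, if_true, h2]; simp
  | cons j w => simp only [actW, h1, if_true, h2]; simp

lemma act_neg' {n : ℤ} (hn : n < 0) : act c h n = cns ((-n).toNat - 1) := by
  rw [← act_neg (c := c) (h := h)]
  congr 1
  omega

lemma act_cns {n : ℤ} (hn : 0 ≤ n) (k : ℕ) (x : T F) :
    act c h n (cns k x) = cns k (act c h n x) + ((n + (k + 1) : ℤ) : F) • act c h (n - (k + 1)) x +
      (if n = k + 1 then cen F n * c else 0) • x := by
  induction x using Finsupp.induction_linear with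
  | zero => simp
  | add f g hf hg =>
    simp only [map_add, hf, hg, smul_add]
    abel
  | single w a =>
    rw [cns_single, act_single, act_single, act_single, actW]
    rw [if_neg (by omega), map_smul, smul_add, smul_add]
    congr 1
    · rw [smul_comm]
    · rw [Finsupp.smul_single, Finsupp.smul_single]
      congr 1
      simp only [smul_eq_mul]; ring

/-- The commutation relation. -/
def Rel (c h : F) (m n : ℤ) (x : T F) : Prop :=
  act c h m (act c h n x) - act c h n (act c h m x) =
    ((m - n : ℤ) : F) • act c h (m + n) x + (if m + n = 0 then cen F m * c else 0) • x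

lemma Rel.symm {m n : ℤ} {x : T F} (H : Rel c h m n x) : Rel c h n m x := by
  unfold Rel at *
  rw [← neg_sub, H, add_comm n m]
  by_cases h0 : m + n = 0
  · have : n = -m := by omega
    subst this
    simp only [add_neg_cancel, if_true, cen_neg]
    push_cast
    module
  · simp only [h0, if_false]
    push_cast
    module

lemma rel_neg {m n : ℤ} (hm : 0 ≤ m) (hn : n < 0) (x : T F) : Rel c h m n x := by
  unfold Rel
  obtain ⟨k, rfl⟩ : ∃ k : ℕ, n = -(k + 1 : ℤ) := ⟨(-n).toNat - 1, by omega⟩
  rw [act_neg, act_cns hm]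
  have e1 : m - -(k + 1 : ℤ) = m + (k + 1) := by ring
  have e2 : m + -(k + 1 : ℤ) = m - (k + 1) := by ring
  have e3 : (m - (k + 1 : ℤ) = 0) ↔ m = k + 1 := by omega
  simp only [e1, e2, e3]
  abel

/-- The algebraic identity behind the Jacobi identity. -/
lemma rel_nonneg_single : ∀ (w : List ℕ) (m n : ℤ), 0 ≤ m → 0 ≤ n →
    Rel c h m n (Finsupp.single w 1) := by
  intro w
  induction w with
  | nil =>
    intro m n hm hn
    have A0 : ∀ (b : F), act c h 0 (Finsupp.single ([] : List ℕ) b) =
        Finsupp.single [] (b * h) := by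
      intro b; rw [act_single]; simp [actW]
    have Apos : ∀ (a : ℤ) (b : F), 0 < a → act c h a (Finsupp.single ([] : List ℕ) b) = 0 := by
      intro a b ha
      rw [act_single, actW, if_neg (by omega), if_neg (by omega), smul_zero]
    unfold Rel
    rcases hm.eq_or_lt with rfl | hm'
    · rcases hn.eq_or_lt with rfl | hn'
      · simp [cen, binom3]
      · have e1 : n ≠ 0 := by omega
        rw [Apos n _ hn', A0, map_zero, Apos n _ hn', Apos (0 + n) _ (by omega)]
        simp [e1]
    · rcases hn.eq_or_lt with rfl | hn'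
      · have e1 : m ≠ 0 := by omega
        rw [Apos m _ hm', A0, map_zero, Apos m _ hm', Apos (m + 0) _ (by omega)]
        simp [e1]
      · have e3 : m + n ≠ 0 := by omega
        rw [Apos m _ hm', Apos n _ hn', map_zero, map_zero, Apos (m + n) _ (by omega)]
        simp [e3]
  | cons k w ih =>
    intro m n hm hn
    set x : T F := Finsupp.single w 1 with hx
    have hcx : (Finsupp.single (k :: w) 1 : T F) = cns k x := by rw [hx, cns_single]
    rw [hcx]
    have IH : ∀ a b : ℤ, (0 ≤ a ∨ 0 ≤ b) → Rel c h a b x := by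
      intro a b hab
      rcases le_or_gt 0 a with ha | ha
      · rcases le_or_gt 0 b with hb | hb
        · exact ih a b ha hb
        · exact rel_neg ha hb x
      · exact (rel_neg (by omega) ha x).symm
    have h1 := IH m n (Or.inl hm)
    have h2 := IH (m - (k + 1)) n (Or.inr hn)
    have h3 := IH m (n - (k + 1)) (Or.inl hm)
    have hmn : 0 ≤ m + n := by omega
    unfold Rel at *
    have e2 : m - (k + 1 : ℤ) + n = m + n - (k + 1) := by ring
    have e3 : m + (n - (k + 1 : ℤ)) = m + n - (k + 1) := by ring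
    rw [e2] at h2
    rw [e3] at h3
    rw [act_cns hn, act_cns hm, act_cns hmn]
    simp only [map_add, map_smul]
    rw [act_cns hm, act_cns hn]
    -- cocycle
    have hcoc : (if m + n = 0 then cen F m * c else 0) = 0 := by
      split_ifs with h0
      · have : m = 0 := by omega
        subst this
        simp [cen, binom3]
      · rfl
    rw [hcoc] at h1 ⊢
    have hk : (m + n - (k + 1 : ℤ) = 0) ↔ m + n = k + 1 := by omega
    simp only [hk] at h2 h3
    have h1' : cns k (act c h m (act c h n x)) - cns k (act c h n (act c h m x)) =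
        ((m - n : ℤ) : F) • cns k (act c h (m + n) x) := by
      rw [← map_sub, h1]; simp
    have hβ : ((m + (k + 1) : ℤ) : F) * (if m + n = k + 1 then cen F (m - (k + 1)) * c else 0) +
        ((n + (k + 1) : ℤ) : F) * (if m + n = k + 1 then cen F m * c else 0) =
        ((m - n : ℤ) : F) * (if m + n = k + 1 then cen F (m + n) * c else 0) := by
      split_ifs with h0
      · have hk1 : (k + 1 : ℤ) = m + n := by omega
        rw [hk1]
        have e4 : m - (m + n) = -n := by ring
        rw [e4, cen_neg]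
        have h5 := cen_cocycle (F := F) m n
        have h6 : ((m - n : ℤ) : F) * (cen F (m + n) * c) =
          (((m + 2 * n : ℤ) : F) * cen F m - ((2 * m + n : ℤ) : F) * cen F n) * c := by
          rw [← h5]; ring
        rw [h6]; push_cast; ring
      · simp
    generalize hg1 : (if m + n = (k:ℤ) + 1 then cen F (m - (k + 1)) * c else 0) = b1 at *
    generalize hg2 : (if m + n = (k:ℤ) + 1 then cen F m * c else 0) = b2 at *
    generalize hg3 : (if m + n = (k:ℤ) + 1 then cen F (m + n) * c else 0) = b3 at *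
    generalize (if m = (k:ℤ) + 1 then cen F m * c else 0) = b4 at *
    generalize (if n = (k:ℤ) + 1 then cen F n * c else 0) = b5 at *
    have h2' := congrArg (fun y => ((m + (k + 1) : ℤ) : F) • y) h2
    have h3' := congrArg (fun y => ((n + (k + 1) : ℤ) : F) • y) h3
    simp only [smul_sub, smul_add, smul_smul] at h2' h3'
    have hsum : (cns k (act c h m (act c h n x)) - cns k (act c h n (act c h m x))) +
        (((m + (k + 1) : ℤ) : F) • act c h (m - (k + 1)) (act c h n x) -
          ((m + (k + 1) : ℤ) : F) • act c h n (act c h (m - (k + 1)) x)) +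
        (((n + (k + 1) : ℤ) : F) • act c h m (act c h (n - (k + 1)) x) -
          ((n + (k + 1) : ℤ) : F) • act c h (n - (k + 1)) (act c h m x)) =
        ((m - n : ℤ) : F) • (cns k (act c h (m + n) x) +
          ((m + n + (k + 1) : ℤ) : F) • act c h (m + n - (k + 1)) x + b3 • x) := by
      rw [h1', h2', h3']
      have : ((m - n : ℤ) : F) • b3 • x = (((m + (k + 1) : ℤ) : F) * b1 +
        ((n + (k + 1) : ℤ) : F) * b2) • x := by rw [hβ, mul_smul]
      rw [smul_add, smul_add, this]
      push_cast
      module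
    rw [zero_smul, add_zero, ← hsum]
    abel

lemma rel_all {m n : ℤ} (hmn : 0 ≤ m ∨ 0 ≤ n) (x : T F) : Rel c h m n x := by
  rcases le_or_gt 0 m with hm | hm
  · rcases le_or_gt 0 n with hn | hn
    · unfold Rel
      induction x using Finsupp.induction_linear with
      | zero => simp
      | add f g hf hg =>
        simp only [map_add, smul_add] at *
        rw [add_sub_add_comm, hf, hg]
        abel
      | single w a =>
        have h1 := rel_nonneg_single (c := c) (h := h) w m n hm hn
        unfold Rel at h1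
        have h2 : (Finsupp.single w a : T F) = a • Finsupp.single w 1 := by simp
        rw [h2]
        simp only [map_smul]
        rw [← smul_sub, h1]
        module
    · exact rel_neg hm hn x
  · exact (rel_neg (by omega) hm x).symm

/-- The defect of commutation of two letters. -/
noncomputable def relEl (j k : ℕ) (x : T F) : T F :=
  cns j (cns k x) - cns k (cns j x) - ((k - j : ℤ) : F) • cns (j + k + 1) x

/-- Prepend a word. -/
noncomputable def cnsAll (w : List ℕ) (x : T F) : T F := w.foldr (fun k y => cns k y) x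

variable (F) in
/-- The relations among words. -/
noncomputable def TR : Submodule F (T F) :=
  Submodule.span F {z | ∃ (w : List ℕ) (j k : ℕ) (x : T F), z = cnsAll w (relEl j k x)}

lemma cnsAll_mem (w : List ℕ) (j k : ℕ) (x : T F) : cnsAll w (relEl j k x) ∈ TR F :=
  Submodule.subset_span ⟨w, j, k, x, rfl⟩

lemma cns_TR (i : ℕ) {z : T F} (hz : z ∈ TR F) : cns i z ∈ TR F := by
  induction hz using Submodule.span_induction with
  | mem y hy =>
    obtain ⟨w, j, k, x, rfl⟩ := hy
    exact cnsAll_mem (i :: w) j k x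
  | zero => rw [map_zero]; exact zero_mem _
  | add y z _ _ hy hz => rw [map_add]; exact add_mem hy hz
  | smul a y _ hy => rw [map_smul]; exact Submodule.smul_mem _ _ hy

lemma comm_mod (a : ℤ) (k : ℕ) (x : T F) :
    act c h a (cns k x) - cns k (act c h a x) - (((a + (k + 1) : ℤ) : F) • act c h (a - (k + 1)) x +
      (if a = k + 1 then cen F a * c else 0) • x) ∈ TR F := by
  rcases le_or_gt 0 a with ha | ha
  · rw [act_cns ha]
    have : cns k (act c h a x) + ((a + (k + 1) : ℤ) : F) • act c h (a - (k + 1)) x +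
      (if a = k + 1 then cen F a * c else 0) • x - cns k (act c h a x) -
      (((a + (k + 1) : ℤ) : F) • act c h (a - (k + 1)) x +
      (if a = k + 1 then cen F a * c else 0) • x) = 0 := by abel
    rw [this]; exact zero_mem _
  · obtain ⟨i, rfl⟩ : ∃ i : ℕ, a = -(i + 1 : ℤ) := ⟨(-a).toNat - 1, by omega⟩
    rw [if_neg (by omega), act_neg]
    have e1 : (-(i + 1) - (k + 1) : ℤ) = -(((i + k + 1 : ℕ) : ℤ) + 1) := by push_cast; ring
    have e2 : (-(i + 1) + (k + 1) : ℤ) = k - i := by ring
    rw [e1, act_neg, e2]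
    have := cnsAll_mem [] i k x
    simpa [cnsAll, relEl] using this

lemma act_relEl {n : ℤ} (hn : 0 ≤ n) (j k : ℕ) (x : T F) : act c h n (relEl j k x) ∈ TR F := by
  have h1 := comm_mod (c := c) (h := h) (n - (j + 1)) k x
  have h2 := comm_mod (c := c) (h := h) (n - (k + 1)) j x
  have h3 := cnsAll_mem [] j k (act c h n x)
  have e1 : act c h n (relEl j k x) = cnsAll [] (relEl j k (act c h n x)) +
      ((n + (j + 1) : ℤ) : F) • (act c h (n - (j + 1)) (cns k x) - cns k (act c h (n - (j + 1)) x) -
      (((n - (j + 1) + (k + 1) : ℤ) : F) • act c h (n - (j + 1) - (k + 1)) x +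
      (if n - (j + 1) = k + 1 then cen F (n - (j + 1)) * c else 0) • x)) -
      ((n + (k + 1) : ℤ) : F) • (act c h (n - (k + 1)) (cns j x) - cns j (act c h (n - (k + 1)) x) -
      (((n - (k + 1) + (j + 1) : ℤ) : F) • act c h (n - (k + 1) - (j + 1)) x +
      (if n - (k + 1) = j + 1 then cen F (n - (k + 1)) * c else 0) • x)) := by
    simp only [cnsAll, List.foldr_nil, relEl, map_sub, map_smul]
    rw [act_cns hn, act_cns hn, act_cns hn, act_cns hn, act_cns hn]
    simp only [map_add, map_smul]
    have f1 : n - (((j + k + 1 : ℕ) : ℤ) + 1) = n - (j + 1) - (k + 1) := by push_cast; ring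
    have f2 : n - (k + 1 : ℤ) - (j + 1) = n - (j + 1) - (k + 1) := by ring
    have f3 : (n = ((j + k + 1 : ℕ) : ℤ) + 1) ↔ (n - (j + 1 : ℤ) = k + 1) := by
      push_cast; constructor <;> intro h0 <;> linarith
    have f4 : (n - (k + 1 : ℤ) = j + 1) ↔ (n - (j + 1 : ℤ) = k + 1) := by
      constructor <;> intro h0 <;> linarith
    rw [f1, f2]
    simp only [f3, f4]
    have hβ : ((n + (j + 1) : ℤ) : F) * (if n - (j + 1 : ℤ) = k + 1 then cen F (n - (j + 1)) * c else 0)
        - ((n + (k + 1) : ℤ) : F) * (if n - (j + 1 : ℤ) = k + 1 then cen F (n - (k + 1)) * c else 0)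
        = ((k - j : ℤ) : F) * (if n - (j + 1 : ℤ) = k + 1 then cen F n * c else 0) := by
      split_ifs with h0
      · have hn' : n = (k + 1) + (j + 1) := by linarith
        subst hn'
        have g1 : ((k : ℤ) + 1 + (j + 1) - (j + 1)) = k + 1 := by ring
        have g2 : ((k : ℤ) + 1 + (j + 1) - (k + 1)) = j + 1 := by ring
        rw [g1, g2]
        have h5 := cen_cocycle (F := F) (k + 1) (j + 1)
        have g3 : ((k : ℤ) - j) = (k + 1) - (j + 1) := by ring
        rw [g3]
        have h6 : (((k + 1 : ℤ) - (j + 1) : ℤ) : F) * (cen F (k + 1 + (j + 1)) * c) =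
          ((((k + 1 : ℤ) + 2 * (j + 1) : ℤ) : F) * cen F (k + 1) -
            ((2 * (k + 1 : ℤ) + (j + 1) : ℤ) : F) * cen F (j + 1)) * c := by
          rw [← h5]; ring
        rw [h6]; push_cast; ring
      · simp
    generalize (if n - (j + 1 : ℤ) = (k : ℤ) + 1 then cen F (n - (j + 1)) * c else 0) = b1 at *
    generalize (if n - (j + 1 : ℤ) = (k : ℤ) + 1 then cen F (n - (k + 1)) * c else 0) = b2 at *
    generalize (if n - (j + 1 : ℤ) = (k : ℤ) + 1 then cen F n * c else 0) = b3 at *
    generalize (if n = (j : ℤ) + 1 then cen F n * c else 0) = b4 at *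
    generalize (if n = (k : ℤ) + 1 then cen F n * c else 0) = b5 at *
    have hx : ((k - j : ℤ) : F) • b3 • x = (((n + (j + 1) : ℤ) : F) * b1 -
      ((n + (k + 1) : ℤ) : F) * b2) • x := by rw [hβ, mul_smul]
    rw [smul_add ((k - j : ℤ) : F), hx]
    push_cast
    module
  rw [e1]
  exact sub_mem (add_mem h3 (Submodule.smul_mem _ _ h1)) (Submodule.smul_mem _ _ h2)

lemma act_TR (n : ℤ) {z : T F} (hz : z ∈ TR F) : act c h n z ∈ TR F := by
  have key : ∀ (w : List ℕ) (j k : ℕ) (x : T F) (n : ℤ),
      act c h n (cnsAll w (relEl j k x)) ∈ TR F := by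
    intro w j k x
    induction w with
    | nil =>
      intro n
      rcases le_or_gt 0 n with hn | hn
      · exact act_relEl hn j k x
      · rw [act_neg' hn]
        exact cns_TR _ (cnsAll_mem [] j k x)
    | cons i w ih =>
      intro n
      rcases le_or_gt 0 n with hn | hn
      · change act c h n (cns i (cnsAll w (relEl j k x))) ∈ _
        rw [act_cns hn]
        exact add_mem (add_mem (cns_TR _ (ih n)) (Submodule.smul_mem _ _ (ih _)))
          (Submodule.smul_mem _ _ (cnsAll_mem w j k x))
      · rw [act_neg' hn]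
        exact cns_TR _ (cnsAll_mem (i :: w) j k x)
  induction hz using Submodule.span_induction with
  | mem y hy =>
    obtain ⟨w, j, k, x, rfl⟩ := hy
    exact key w j k x n
  | zero => rw [map_zero]; exact zero_mem _
  | add y z _ _ hy hz => rw [map_add]; exact add_mem hy hz
  | smul a y _ hy => rw [map_smul]; exact Submodule.smul_mem _ _ hy

lemma rel_mod (m n : ℤ) (x : T F) :
    act c h m (act c h n x) - act c h n (act c h m x) - (((m - n : ℤ) : F) • act c h (m + n) x +
      (if m + n = 0 then cen F m * c else 0) • x) ∈ TR F := by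
  rcases le_or_gt 0 n with hn | hn
  · have := rel_all (c := c) (h := h) (m := m) (n := n) (Or.inr hn) x
    unfold Rel at this
    rw [this, sub_self]
    exact zero_mem _
  · obtain ⟨k, rfl⟩ : ∃ k : ℕ, n = -(k + 1 : ℤ) := ⟨(-n).toNat - 1, by omega⟩
    have h1 := comm_mod (c := c) (h := h) m k x
    rw [act_neg]
    have e1 : m - -(k + 1 : ℤ) = m + (k + 1) := by ring
    have e2 : m + -(k + 1 : ℤ) = m - (k + 1) := by ring
    have e3 : (m - (k + 1 : ℤ) = 0) ↔ m = k + 1 := by omega
    simp only [e1, e2, e3]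
    exact h1

/-- The coefficient of the empty word. -/
noncomputable def eps0 : T F →ₗ[F] F := Finsupp.lapply []

lemma eps0_cns (k : ℕ) (x : T F) : eps0 (cns k x) = 0 := by
  induction x using Finsupp.induction_linear with
  | zero => simp
  | add f g hf hg => rw [map_add, map_add, hf, hg, add_zero]
  | single w a => rw [cns_single]; simp [eps0]

lemma eps0_TR {z : T F} (hz : z ∈ TR F) : eps0 z = 0 := by
  induction hz using Submodule.span_induction with
  | mem y hy =>
    obtain ⟨w, j, k, x, rfl⟩ := hy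
    cases w with
    | nil => simp [cnsAll, relEl, eps0_cns]
    | cons i w =>
      change eps0 (cns i _) = 0
      exact eps0_cns _ _
  | zero => simp
  | add y z _ _ hy hz => rw [map_add, hy, hz, add_zero]
  | smul a y _ hy => rw [map_smul, hy, smul_zero]

variable (F) in
/-- The model of the Verma module. -/
abbrev Mod : Type _ := T F ⧸ TR F

/-- The operators on the model. -/
noncomputable def opM (c h : F) (n : ℤ) : Module.End F (Mod F) :=
  (TR F).mapQ (TR F) (act c h n) (fun _ hx => act_TR n hx)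

lemma opM_mk (n : ℤ) (x : T F) : opM c h n ((TR F).mkQ x) = (TR F).mkQ (act c h n x) := rfl

lemma opM_comm (m n : ℤ) :
    opM c h m * opM c h n - opM c h n * opM c h m = ((m - n : ℤ) : F) • opM c h (m + n) +
      (if m + n = 0 then cen F m * c else 0) • (1 : Module.End F (Mod F)) := by
  refine LinearMap.ext fun y => ?_
  obtain ⟨x, rfl⟩ := (TR F).mkQ_surjective y
  have h1 := rel_mod (c := c) (h := h) m n x
  rw [← Submodule.Quotient.mk_eq_zero] at h1
  rw [← sub_eq_zero]
  exact h1

/-- The vacuum of the model. -/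
noncomputable def vacM : Mod F := (TR F).mkQ (Finsupp.single [] 1)

lemma opM_vac_pos {n : ℤ} (hn : 0 < n) : opM c h n vacM = 0 := by
  rw [vacM, opM_mk, act_single, one_smul, actW, if_neg (by omega), if_neg (by omega), map_zero]

lemma opM_vac_zero : opM c h 0 vacM = h • (vacM : Mod F) := by
  rw [vacM, opM_mk, act_single, one_smul, actW, if_neg (by omega), if_pos rfl, ← map_smul]
  simp

/-- The functional on the model. -/
noncomputable def epsM : Mod F →ₗ[F] F := (TR F).liftQ eps0 (fun _ hx => eps0_TR hx)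

lemma epsM_vac : epsM (vacM : Mod F) = 1 := by
  change eps0 (Finsupp.single [] 1) = 1
  simp [eps0]

lemma epsM_neg {n : ℤ} (hn : n < 0) (y : Mod F) : epsM (opM c h n y) = 0 := by
  obtain ⟨x, rfl⟩ := (TR F).mkQ_surjective y
  change eps0 (act c h n x) = 0
  rw [act_neg' hn]
  exact eps0_cns _ _

/-! ### The functional on the Verma module -/

/-- The action of the Virasoro algebra on the model. -/
noncomputable def phiLin (c h : F) : Vir F →ₗ[F] Module.End F (Mod F) :=
  (Vir.basis F).constr F fun i => match i with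
    | none => c • (1 : Module.End F (Mod F))
    | some n => opM c h n

lemma phiLin_L (n : ℤ) : phiLin c h (Vir.L F n) = opM c h n := by
  simp [phiLin, Vir.L, Module.Basis.constr_basis]

lemma phiLin_C : phiLin c h (Vir.C F) = c • (1 : Module.End F (Mod F)) := by
  simp [phiLin, Vir.C, Module.Basis.constr_basis]

lemma phiLin_lie (x y : Vir F) : phiLin c h ⁅x, y⁆ =
    phiLin c h x * phiLin c h y - phiLin c h y * phiLin c h x := by
  refine vir_ind (P := fun x => phiLin c h ⁅x, y⁆ =
    phiLin c h x * phiLin c h y - phiLin c h y * phiLin c h x) (by simp) ?_ ?_ ?_ x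
  · intro x x' hx hx'
    rw [add_lie, map_add, hx, hx', map_add, add_mul, mul_add]; abel
  · intro a x hx
    rw [smul_lie, map_smul, hx, map_smul, smul_mul_assoc, mul_smul_comm, smul_sub]
  intro i
  refine vir_ind (P := fun y => phiLin c h ⁅Vir.basis F i, y⁆ =
    phiLin c h (Vir.basis F i) * phiLin c h y - phiLin c h y * phiLin c h (Vir.basis F i))
    (by simp) ?_ ?_ ?_ y
  · intro x x' hx hx'
    rw [lie_add, map_add, hx, hx', map_add, add_mul, mul_add]; abel
  · intro a x hx
    rw [lie_smul, map_smul, hx, map_smul, smul_mul_assoc, mul_smul_comm, smul_sub]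
  intro j
  rcases i with _ | m
  · change phiLin c h ⁅Vir.C F, _⁆ = phiLin c h (Vir.C F) * _ - _ * phiLin c h (Vir.C F)
    rw [lie_C, map_zero, phiLin_C]; simp
  rcases j with _ | n
  · change phiLin c h ⁅_, Vir.C F⁆ = _ * phiLin c h (Vir.C F) - phiLin c h (Vir.C F) * _
    rw [← lie_skew, lie_C, neg_zero, map_zero, phiLin_C]; simp
  change phiLin c h ⁅Vir.L F m, Vir.L F n⁆ = phiLin c h (Vir.L F m) * phiLin c h (Vir.L F n) -
    phiLin c h (Vir.L F n) * phiLin c h (Vir.L F m)
  rw [phiLin_L, phiLin_L, opM_comm, lie_LL, map_add, map_smul, phiLin_L]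
  congr 1
  split_ifs
  · rw [map_smul, phiLin_C, smul_smul]
  · simp

/-- The action of the Virasoro algebra on the model as a homomorphism. -/
noncomputable def phiLie (c h : F) : Vir F →ₗ⁅F⁆ Module.End F (Mod F) :=
  { phiLin c h with
    map_lie' := fun {x y} => phiLin_lie x y }

/-- The action of the enveloping algebra on the model. -/
noncomputable def rho (c h : F) : UVir F →ₐ[F] Module.End F (Mod F) :=
  UniversalEnvelopingAlgebra.lift F (phiLie c h)

lemma rho_L (n : ℤ) : rho c h (uL F n) = opM c h n := by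
  have h1 : rho c h (uL F n) = phiLie c h (Vir.L F n) :=
    UniversalEnvelopingAlgebra.lift_ι_apply F (phiLie c h) _
  rw [h1]
  exact phiLin_L n

lemma rho_C : rho c h (uC F) = c • (1 : Module.End F (Mod F)) := by
  have h1 : rho c h (uC F) = phiLie c h (Vir.C F) :=
    UniversalEnvelopingAlgebra.lift_ι_apply F (phiLie c h) _
  rw [h1]
  exact phiLin_C

/-- The functional on the enveloping algebra. -/
noncomputable def epsU (c h : F) : UVir F →ₗ[F] F :=
  epsM ∘ₗ (LinearMap.applyₗ (vacM : Mod F)) ∘ₗ (rho c h).toLinearMap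

lemma epsU_apply (u : UVir F) : epsU c h u = epsM (rho c h u vacM) := rfl

lemma rho_ideal {u : UVir F} (hu : u ∈ vermaIdeal F c h) : rho c h u vacM = 0 := by
  unfold vermaIdeal at hu
  induction hu using Submodule.span_induction with
  | mem y hy =>
    rcases hy with ⟨n, hn, rfl⟩ | hy
    · rw [rho_L]; exact opM_vac_pos hn
    · rcases hy with rfl | hy
      · rw [map_sub, rho_L, LinearMap.sub_apply, opM_vac_zero, AlgHom.commutes]
        simp
      · rw [Set.mem_singleton_iff.mp hy, map_sub, rho_C, LinearMap.sub_apply, AlgHom.commutes]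
        simp
  | zero => simp
  | add y z _ _ hy hz => rw [map_add, LinearMap.add_apply, hy, hz, add_zero]
  | smul a y _ hy => rw [smul_eq_mul, map_mul, Module.End.mul_apply, hy, map_zero]

/-- The functional on the Verma module. -/
noncomputable def eps (c h : F) : Verma F c h →ₗ[F] F :=
  show (UVir F ⧸ vermaIdeal F c h) →ₗ[F] F from
  (((vermaIdeal F c h).restrictScalars F).liftQ (epsU c h) (fun u hu => by
    rw [LinearMap.mem_ker, epsU_apply, rho_ideal hu, map_zero])) ∘ₗ
    (Submodule.Quotient.restrictScalarsEquiv F (vermaIdeal F c h)).symm.toLinearMap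

lemma eps_smul_vac (u : UVir F) : eps c h (u • vac F c h) = epsM (rho c h u vacM) := by
  have : u • vac F c h = vermaMk F c h u := by
    rw [vac, ← map_smul, smul_eq_mul, mul_one]
  rw [this]
  rfl

lemma exists_smul_vac (x : Verma F c h) : ∃ u : UVir F, x = u • vac F c h := by
  obtain ⟨u, rfl⟩ := vermaMk_surj x
  exact ⟨u, by rw [vac, ← map_smul, smul_eq_mul, mul_one]⟩

lemma eps_vac : eps c h (vac F c h) = 1 := by
  have := eps_smul_vac (c := c) (h := h) 1
  rw [one_smul, map_one] at this
  rw [this]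
  exact epsM_vac

lemma eps_neg {n : ℤ} (hn : n < 0) (x : Verma F c h) : eps c h (uL F n • x) = 0 := by
  obtain ⟨u, rfl⟩ := exists_smul_vac x
  rw [← mul_smul, eps_smul_vac, map_mul, Module.End.mul_apply, rho_L]
  exact epsM_neg hn _

lemma vac_pos {n : ℤ} (hn : 0 < n) : uL F n • vac F c h = 0 := by
  rw [vac, ← map_smul, smul_eq_mul, mul_one, vermaMk_eq_zero]
  exact Submodule.subset_span (Or.inl ⟨n, hn, rfl⟩)

lemma vac_zero : uL F 0 • vac F c h = h • vac F c h := by
  have e : h • vac F c h = algebraMap F (UVir F) h • vac F c h :=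
    (algebraMap_smul (UVir F) h _).symm
  rw [e, ← sub_eq_zero, ← sub_smul, vac, ← map_smul,
    smul_eq_mul, mul_one, vermaMk_eq_zero]
  exact Submodule.subset_span (Or.inr (Or.inl rfl))

lemma C_smul_vac : uC F • vac F c h = c • vac F c h := by
  have e : c • vac F c h = algebraMap F (UVir F) c • vac F c h :=
    (algebraMap_smul (UVir F) c _).symm
  rw [e, ← sub_eq_zero, ← sub_smul, vac, ← map_smul,
    smul_eq_mul, mul_one, vermaMk_eq_zero]
  exact Submodule.subset_span (Or.inr (Or.inr rfl))

lemma C_smul (x : Verma F c h) : uC F • x = c • x := by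
  obtain ⟨u, rfl⟩ := exists_smul_vac x
  rw [← mul_smul, uC_comm, mul_smul, C_smul_vac, smul_comm]

/-! ### Degrees -/

section degrees

variable {M : Type*} [AddCommGroup M] [Module F M] [Module (UVir F) M] [IsScalarTower F (UVir F) M]

lemma mono_mem {v : M} {l : List ℕ} (hl : ∀ i ∈ l, 0 < i) : mono F l • v ∈ degreePart F v l.sum :=
  Submodule.subset_span ⟨l, hl, rfl, rfl⟩

lemma cons_mem {v x : M} {k i : ℕ} (hi : 0 < i) (hx : x ∈ degreePart F v k) :
    uL F (-(i : ℤ)) • x ∈ degreePart F v (i + k) := by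
  unfold degreePart at hx
  induction hx using Submodule.span_induction with
  | mem y hy =>
    obtain ⟨l, hl, rfl, rfl⟩ := hy
    rw [← mul_smul, ← mono_cons]
    exact mono_mem (l := i :: l) (by simpa using ⟨hi, hl⟩)
  | zero => rw [smul_zero]; exact zero_mem _
  | add y z _ _ hy hz => rw [smul_add]; exact add_mem hy hz
  | smul a y _ hy => rw [smul_comm]; exact Submodule.smul_mem _ _ hy

/-- Degree parts indexed by integers. -/
noncomputable def dP (v : M) (k : ℤ) : Submodule F M := if k < 0 then ⊥ else degreePart F v k.toNat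

lemma dP_nat {v : M} (k : ℕ) : dP v (k : ℤ) = degreePart F v k := by
  unfold dP
  rw [if_neg (by omega)]
  simp

lemma dP_cons {v x : M} {k : ℤ} {i : ℕ} (hi : 0 < i) (hx : x ∈ dP (F := F) v k) :
    uL F (-(i : ℤ)) • x ∈ dP (F := F) v (k + i) := by
  rcases lt_or_ge k 0 with hk | hk
  · unfold dP at hx
    rw [if_pos hk, Submodule.mem_bot] at hx
    rw [hx, smul_zero]; exact zero_mem _
  · obtain ⟨k, rfl⟩ := Int.eq_ofNat_of_zero_le hk
    rw [dP_nat] at hx
    have := cons_mem hi hx
    have e : (k : ℤ) + i = ((i + k : ℕ) : ℤ) := by push_cast; ring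
    rw [e, dP_nat]
    exact this

/-- Highest weight vectors. -/
structure HW (c h : F) (v : M) : Prop where
  pos : ∀ n : ℤ, 0 < n → uL F n • v = 0
  zero : uL F 0 • v = h • v
  central : ∀ x : M, uC F • x = c • x

lemma HW.mono_dP {v : M} (H : HW c h v) : ∀ (l : List ℕ), (∀ i ∈ l, 0 < i) → ∀ n : ℤ,
    uL F n • mono F l • v ∈ dP (F := F) v (l.sum - n) := by
  intro l
  induction l with
  | nil =>
    intro _ n
    rw [mono_nil, one_smul]
    have hv : v ∈ dP (F := F) v 0 := by
      have := mono_mem (F := F) (v := v) (l := []) (by simp)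
      rw [mono_nil, one_smul] at this
      have e : (0 : ℤ) = ((0 : ℕ) : ℤ) := rfl
      rw [e, dP_nat]
      simpa using this
    rcases lt_trichotomy n 0 with hn | rfl | hn
    · obtain ⟨i, rfl⟩ : ∃ i : ℕ, n = -(i : ℤ) := ⟨(-n).toNat, by omega⟩
      have := dP_cons (i := i) (by omega) hv
      simpa using this
    · rw [H.zero]
      simpa using Submodule.smul_mem _ h hv
    · rw [H.pos n hn]; exact zero_mem _
  | cons i l ih =>
    intro hl n
    have hi : 0 < i := hl i (by simp)
    have hl' : ∀ j ∈ l, 0 < j := fun j hj => hl j (by simp [hj])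
    have hy : mono F l • v ∈ dP (F := F) v (l.sum : ℤ) := by
      rw [dP_nat]; exact mono_mem hl'
    rw [mono_cons, mul_smul, List.sum_cons]
    rcases lt_or_ge n 0 with hn | hn
    · obtain ⟨j, rfl⟩ : ∃ j : ℕ, n = -(j : ℤ) := ⟨(-n).toNat, by omega⟩
      have := dP_cons (i := j) (by omega) (dP_cons hi hy)
      convert this using 2
      push_cast; ring
    · rw [uL_smul_comm]
      refine add_mem (add_mem ?_ ?_) ?_
      · have := dP_cons hi (ih hl' n)
        convert this using 2
        push_cast; ring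
      · refine Submodule.smul_mem _ _ ?_
        have := ih hl' (n + -(i : ℤ))
        convert this using 2
        push_cast; ring
      · by_cases h0 : n + -(i : ℤ) = 0
        · rw [if_pos h0, H.central]
          refine Submodule.smul_mem _ _ (Submodule.smul_mem _ _ ?_)
          convert hy using 2
          push_cast; linarith
        · rw [if_neg h0, zero_smul]; exact zero_mem _

lemma HW.act_dP {v : M} (H : HW c h v) {x : M} {k : ℤ} (hx : x ∈ dP (F := F) v k) (n : ℤ) :
    uL F n • x ∈ dP (F := F) v (k - n) := by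
  rcases lt_or_ge k 0 with hk | hk
  · unfold dP at hx
    rw [if_pos hk, Submodule.mem_bot] at hx
    rw [hx, smul_zero]; exact zero_mem _
  · obtain ⟨k, rfl⟩ := Int.eq_ofNat_of_zero_le hk
    rw [dP_nat] at hx
    unfold degreePart at hx
    induction hx using Submodule.span_induction with
    | mem y hy =>
      obtain ⟨l, hl, rfl, rfl⟩ := hy
      exact H.mono_dP l hl n
    | zero => rw [smul_zero]; exact zero_mem _
    | add y z _ _ hy hz => rw [smul_add]; exact add_mem hy hz
    | smul a y _ hy => rw [smul_comm]; exact Submodule.smul_mem _ _ hy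

lemma HW.L0 {v : M} (H : HW c h v) {x : M} {k : ℕ} (hx : x ∈ degreePart F v k) :
    uL F 0 • x = (h + k) • x := by
  unfold degreePart at hx
  induction hx using Submodule.span_induction with
  | mem y hy =>
    obtain ⟨l, hl, rfl, rfl⟩ := hy
    clear hl
    induction l with
    | nil => rw [mono_nil, one_smul, H.zero]; simp
    | cons i l ih =>
      rw [mono_cons, mul_smul, uL_smul_comm, ih]
      have e : (0 : ℤ) + -(i : ℤ) = -(i : ℤ) := by ring
      rw [e]
      have e2 : (if -(i : ℤ) = 0 then cen F 0 else 0) = 0 := by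
        split_ifs <;> simp [cen, binom3]
      rw [e2, zero_smul, add_zero, smul_comm, ← add_smul]
      congr 1
      push_cast [List.sum_cons]; ring
  | zero => simp
  | add y z _ _ hy hz => rw [smul_add, smul_add, hy, hz]
  | smul a y _ hy => rw [smul_comm, hy, smul_comm]

end degrees

lemma vacHW : HW c h (vac F c h) := ⟨fun _ hn => vac_pos hn, vac_zero, C_smul⟩

lemma eps_degree {k : ℕ} (hk : 0 < k) {x : Verma F c h} (hx : x ∈ degreePart F (vac F c h) k) :
    eps c h x = 0 := by
  unfold degreePart at hx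
  induction hx using Submodule.span_induction with
  | mem y hy =>
    obtain ⟨l, hl, rfl, rfl⟩ := hy
    cases l with
    | nil => simp at hk
    | cons i l =>
      rw [mono_cons, mul_smul]
      have : 0 < i := hl i (by simp)
      exact eps_neg (by omega) _
  | zero => simp
  | add y z _ _ hy hz => rw [map_add, hy, hz, add_zero]
  | smul a y _ hy => rw [map_smul, hy, smul_zero]

/-- The radical of the functional. -/
noncomputable def Rad (c h : F) : Submodule (UVir F) (Verma F c h) where
  carrier := {x | ∀ u : UVir F, eps c h (u • x) = 0}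
  add_mem' := by
    intro x y hx hy u
    rw [smul_add, map_add, hx, hy, add_zero]
  zero_mem' := by intro u; simp
  smul_mem' := by
    intro a x hx u
    rw [← mul_smul]; exact hx _

lemma mem_Rad {x : Verma F c h} : x ∈ Rad c h ↔ ∀ u : UVir F, eps c h (u • x) = 0 := Iff.rfl

lemma eps_of_Rad {x : Verma F c h} (hx : x ∈ Rad c h) : eps c h x = 0 := by
  have := hx 1
  rwa [one_smul] at this

lemma degree_zero {x : Verma F c h} (hx : x ∈ degreePart F (vac F c h) 0) :
    ∃ a : F, x = a • vac F c h := by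
  unfold degreePart at hx
  induction hx using Submodule.span_induction with
  | mem y hy =>
    obtain ⟨l, hl, hl0, rfl⟩ := hy
    cases l with
    | nil => exact ⟨1, by rw [mono_nil]; simp⟩
    | cons i l =>
      have : 0 < i := hl i (by simp)
      simp at hl0
      omega
  | zero => exact ⟨0, by simp⟩
  | add y z _ _ hy hz =>
    obtain ⟨a, rfl⟩ := hy
    obtain ⟨b, rfl⟩ := hz
    exact ⟨a + b, by rw [add_smul]⟩
  | smul a y _ hy =>
    obtain ⟨b, rfl⟩ := hy
    exact ⟨a * b, by rw [mul_smul]⟩

lemma eq_top_of_vac {N : Submodule (UVir F) (Verma F c h)} (h1 : vac F c h ∈ N) : N = ⊤ := by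
  rw [eq_top_iff]
  intro x _
  obtain ⟨u, rfl⟩ := exists_smul_vac x
  exact N.smul_mem u h1

lemma le_Rad {N : Submodule (UVir F) (Verma F c h)} (hg : IsGraded F c h N) (hN : N ≠ ⊤) :
    N ≤ Rad c h := by
  have key : ∀ x ∈ N, eps c h x = 0 := by
    intro x hx
    have h1 := isGraded_iff.mp hg x hx
    induction h1 using Submodule.iSup_induction' with
    | mem k y hy =>
      rcases Nat.eq_zero_or_pos k with rfl | hk
      · obtain ⟨a, rfl⟩ := degree_zero hy.2
        by_cases ha : a = 0
        · simp [ha]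
        · exfalso
          apply hN
          apply eq_top_of_vac
          have h2 := (N.restrictScalars F).smul_mem a⁻¹ hy.1
          rw [smul_smul, inv_mul_cancel₀ ha, one_smul] at h2
          exact h2
      · exact eps_degree hk hy.2
    | zero => simp
    | add y z hy hz ihy ihz =>
      have memN : ∀ w, w ∈ ⨆ k : ℕ, (N.restrictScalars F ⊓ degreePart F (vac F c h) k) → w ∈ N := by
        intro w hw
        have : (⨆ k : ℕ, (N.restrictScalars F ⊓ degreePart F (vac F c h) k)) ≤
          N.restrictScalars F := iSup_le fun k => inf_le_left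
        exact this hw
      rw [map_add, ihy (memN y hy), ihz (memN z hz), add_zero]
  intro x hx u
  exact key _ (N.smul_mem u hx)

lemma max_le_Rad : maxGraded F c h ≤ Rad c h := by
  refine sSup_le ?_
  rintro N ⟨h1, h2⟩
  exact le_Rad h1 h2

lemma vac_not_mem : vac F c h ∉ maxGraded F c h := by
  intro h1
  have := eps_of_Rad (max_le_Rad h1)
  rw [eps_vac] at this
  exact one_ne_zero this

lemma maxGraded_ne_top : maxGraded F c h ≠ ⊤ := by
  intro h1
  apply vac_not_mem (F := F) (c := c) (h := h)
  rw [h1]; trivial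

lemma maxGraded_isGraded : IsGraded F c h (maxGraded F c h) := by
  rw [isGraded_iff]
  intro x hx
  have hx' : x ∈ sSup {N | IsGraded F c h N ∧ N ≠ ⊤} := hx
  rw [sSup_eq_iSup'] at hx'
  induction hx' using Submodule.iSup_induction' with
  | mem N y hy =>
    have h1 := isGraded_iff.mp N.2.1 y hy
    have h2 : (⨆ k : ℕ, ((N : Submodule (UVir F) (Verma F c h)).restrictScalars F ⊓
        degreePart F (vac F c h) k)) ≤
        ⨆ k : ℕ, ((maxGraded F c h).restrictScalars F ⊓ degreePart F (vac F c h) k) := by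
      refine iSup_mono fun k => inf_le_inf_right _ ?_
      intro z hz
      exact (le_sSup (a := (N : Submodule (UVir F) (Verma F c h))) N.2) hz
    exact h2 h1
  | zero => exact zero_mem _
  | add y z hy hz ihy ihz =>
    have memN : ∀ w, w ∈ (⨆ N : {N | IsGraded F c h N ∧ N ≠ ⊤},
        (N : Submodule (UVir F) (Verma F c h))) → w ∈ maxGraded F c h := by
      intro w hw
      rw [← sSup_eq_iSup'] at hw
      exact hw
    exact add_mem (ihy (memN y hy)) (ihz (memN z hz))

/-- A homogeneous element of the radical lies in the maximal graded submodule. -/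
lemma mem_max_of_Rad {k : ℕ} {x : Verma F c h} (hx : x ∈ degreePart F (vac F c h) k)
    (hr : x ∈ Rad c h) : x ∈ maxGraded F c h := by
  have hspan : x ∈ Submodule.span (UVir F) {x} := Submodule.mem_span_singleton_self x
  refine (le_sSup (a := Submodule.span (UVir F) {x}) ?_) hspan
  constructor
  · rw [isGraded_iff]
    intro y hy
    obtain ⟨u, rfl⟩ := Submodule.mem_span_singleton.mp hy
    refine stable_of (⨆ k : ℕ, ((Submodule.span (UVir F) {x}).restrictScalars F ⊓
      degreePart F (vac F c h) k)) ?_ ?_ u x ?_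
    · intro n z hz
      induction hz using Submodule.iSup_induction' with
      | mem j y hy =>
        have h1 : uL F n • y ∈ dP (F := F) (vac F c h) ((j : ℤ) - n) :=
          vacHW.act_dP (by rw [dP_nat]; exact hy.2) n
        rcases lt_or_ge ((j : ℤ) - n) 0 with hlt | hge
        · unfold dP at h1
          rw [if_pos hlt, Submodule.mem_bot] at h1
          rw [h1]; exact zero_mem _
        · obtain ⟨i, hi⟩ := Int.eq_ofNat_of_zero_le hge
          rw [hi, dP_nat] at h1
          exact Submodule.mem_iSup_of_mem i ⟨(Submodule.span (UVir F) {x}).smul_mem _ hy.1, h1⟩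
      | zero => rw [smul_zero]; exact zero_mem _
      | add y z _ _ ihy ihz => rw [smul_add]; exact add_mem ihy ihz
    · intro z hz
      rw [C_smul]
      exact Submodule.smul_mem _ _ hz
    · exact Submodule.mem_iSup_of_mem k ⟨hspan, hx⟩
  · intro htop
    have h1 : vac F c h ∈ Submodule.span (UVir F) {x} := by rw [htop]; trivial
    obtain ⟨u, hu⟩ := Submodule.mem_span_singleton.mp h1
    have h2 := hr u
    rw [hu, eps_vac] at h2
    exact one_ne_zero h2

/-- The criterion for singular vectors. -/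
lemma crit {k : ℕ} (hk : 0 < k) {x : Verma F c h} (hx : x ∈ degreePart F (vac F c h) k)
    (hs : ∀ n : ℤ, 0 < n → uL F n • x ∈ Rad c h) : x ∈ Rad c h := by
  set S : Submodule F (Verma F c h) :=
    Submodule.span F {y | ∃ l : List ℕ, (∀ i ∈ l, 0 < i) ∧ y = mono F l • x} with hS
  set Z : Submodule F (Verma F c h) := (Rad c h).restrictScalars F ⊔ S with hZ
  have hR : ∀ y ∈ Rad c h, y ∈ Z := fun y hy => Submodule.mem_sup_left hy
  have hSm : ∀ l : List ℕ, (∀ i ∈ l, 0 < i) → mono F l • x ∈ Z :=
    fun l hl => Submodule.mem_sup_right (Submodule.subset_span ⟨l, hl, rfl⟩)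
  have hSc : ∀ (i : ℕ), 0 < i → ∀ z ∈ Z, uL F (-(i : ℤ)) • z ∈ Z := by
    intro i hi z hz
    obtain ⟨y, hy, w, hw, rfl⟩ := Submodule.mem_sup.mp hz
    rw [smul_add]
    refine add_mem (hR _ ((Rad c h).smul_mem _ hy)) ?_
    rw [hS] at hw
    clear hz
    induction hw using Submodule.span_induction with
    | mem y hy =>
      obtain ⟨l, hl, rfl⟩ := hy
      rw [← mul_smul, ← mono_cons]
      exact hSm (i :: l) (by simpa using ⟨hi, hl⟩)
    | zero => rw [smul_zero]; exact zero_mem _
    | add y z _ _ ihy ihz => rw [smul_add]; exact add_mem ihy ihz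
    | smul a y _ ihy => rw [smul_comm]; exact Submodule.smul_mem _ _ ihy
  have hword : ∀ (l : List ℕ), (∀ i ∈ l, 0 < i) → ∀ n : ℤ, uL F n • mono F l • x ∈ Z := by
    intro l
    induction l with
    | nil =>
      intro _ n
      rw [mono_nil, one_smul]
      rcases lt_trichotomy n 0 with hn | rfl | hn
      · obtain ⟨i, rfl⟩ : ∃ i : ℕ, n = -(i : ℤ) := ⟨(-n).toNat, by omega⟩
        have := hSm [i] (by simp; omega)
        rw [mono_cons, mono_nil, mul_one] at this
        exact this
      · rw [vacHW.L0 hx]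
        refine Submodule.smul_mem _ _ ?_
        have := hSm [] (by simp)
        rwa [mono_nil, one_smul] at this
      · exact hR _ (hs n hn)
    | cons i l ih =>
      intro hl n
      have hi : 0 < i := hl i (by simp)
      have hl' : ∀ j ∈ l, 0 < j := fun j hj => hl j (by simp [hj])
      rw [mono_cons, mul_smul, uL_smul_comm]
      refine add_mem (add_mem (hSc i hi _ (ih hl' n)) (Submodule.smul_mem _ _ (ih hl' _))) ?_
      rw [C_smul]
      exact Submodule.smul_mem _ _ (Submodule.smul_mem _ _ (hSm l hl'))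
  have hstab : ∀ n, ∀ z ∈ Z, uL F n • z ∈ Z := by
    intro n z hz
    obtain ⟨y, hy, w, hw, rfl⟩ := Submodule.mem_sup.mp hz
    rw [smul_add]
    refine add_mem (hR _ ((Rad c h).smul_mem _ hy)) ?_
    rw [hS] at hw
    clear hz
    induction hw using Submodule.span_induction with
    | mem y hy =>
      obtain ⟨l, hl, rfl⟩ := hy
      exact hword l hl n
    | zero => rw [smul_zero]; exact zero_mem _
    | add y z _ _ ihy ihz => rw [smul_add]; exact add_mem ihy ihz
    | smul a y _ ihy => rw [smul_comm]; exact Submodule.smul_mem _ _ ihy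
  have heps : ∀ z ∈ Z, eps c h z = 0 := by
    intro z hz
    obtain ⟨y, hy, w, hw, rfl⟩ := Submodule.mem_sup.mp hz
    rw [map_add, eps_of_Rad hy, zero_add]
    rw [hS] at hw
    clear hz
    induction hw using Submodule.span_induction with
    | mem y hy =>
      obtain ⟨l, hl, rfl⟩ := hy
      cases l with
      | nil => rw [mono_nil, one_smul]; exact eps_degree hk hx
      | cons i l =>
        rw [mono_cons, mul_smul]
        have : 0 < i := hl i (by simp)
        exact eps_neg (by omega) _
    | zero => simp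
    | add y z _ _ ihy ihz => rw [map_add, ihy, ihz, add_zero]
    | smul a y _ ihy => rw [map_smul, ihy, smul_zero]
  intro u
  refine heps _ (stable_of Z hstab ?_ u x ?_)
  · intro z hz; rw [C_smul]; exact Submodule.smul_mem _ _ hz
  · have := hSm [] (by simp)
    rwa [mono_nil, one_smul] at this

/-! ### Computations with a vacuum vector -/

section compute

variable {M : Type*} [AddCommGroup M] [Module F M] [Module (UVir F) M] [IsScalarTower F (UVir F) M]

lemma comm_ne {m n s d : ℤ} (h0 : m + n ≠ 0) (hs : m + n = s) (hd : m - n = d) (x : M) :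
    uL F m • uL F n • x = uL F n • uL F m • x + (d : F) • uL F s • x := by
  rw [uL_smul_comm, if_neg h0, zero_smul, add_zero, hs, hd]

lemma k_p1_m2 (x : M) : uL F 1 • uL F (-2) • x = uL F (-2) • uL F 1 • x + (3 : F) • uL F (-1) • x := by
  have := comm_ne (F := F) (m := 1) (n := -2) (s := -1) (d := 3) (by norm_num) (by norm_num) (by norm_num) x
  rw [this]; norm_num

lemma k_p1_m3 (x : M) : uL F 1 • uL F (-3) • x = uL F (-3) • uL F 1 • x + (4 : F) • uL F (-2) • x := by
  have := comm_ne (F := F) (m := 1) (n := -3) (s := -2) (d := 4) (by norm_num) (by norm_num) (by norm_num) x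
  rw [this]; norm_num

lemma k_p1_m4 (x : M) : uL F 1 • uL F (-4) • x = uL F (-4) • uL F 1 • x + (5 : F) • uL F (-3) • x := by
  have := comm_ne (F := F) (m := 1) (n := -4) (s := -3) (d := 5) (by norm_num) (by norm_num) (by norm_num) x
  rw [this]; norm_num

lemma k_p1_m5 (x : M) : uL F 1 • uL F (-5) • x = uL F (-5) • uL F 1 • x + (6 : F) • uL F (-4) • x := by
  have := comm_ne (F := F) (m := 1) (n := -5) (s := -4) (d := 6) (by norm_num) (by norm_num) (by norm_num) x
  rw [this]; norm_num

lemma k_p1_m6 (x : M) : uL F 1 • uL F (-6) • x = uL F (-6) • uL F 1 • x + (7 : F) • uL F (-5) • x := by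
  have := comm_ne (F := F) (m := 1) (n := -6) (s := -5) (d := 7) (by norm_num) (by norm_num) (by norm_num) x
  rw [this]; norm_num

lemma k_p1_m7 (x : M) : uL F 1 • uL F (-7) • x = uL F (-7) • uL F 1 • x + (8 : F) • uL F (-6) • x := by
  have := comm_ne (F := F) (m := 1) (n := -7) (s := -6) (d := 8) (by norm_num) (by norm_num) (by norm_num) x
  rw [this]; norm_num

lemma k_p1_m8 (x : M) : uL F 1 • uL F (-8) • x = uL F (-8) • uL F 1 • x + (9 : F) • uL F (-7) • x := by
  have := comm_ne (F := F) (m := 1) (n := -8) (s := -7) (d := 9) (by norm_num) (by norm_num) (by norm_num) x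
  rw [this]; norm_num

lemma k_p2_m3 (x : M) : uL F 2 • uL F (-3) • x = uL F (-3) • uL F 2 • x + (5 : F) • uL F (-1) • x := by
  have := comm_ne (F := F) (m := 2) (n := -3) (s := -1) (d := 5) (by norm_num) (by norm_num) (by norm_num) x
  rw [this]; norm_num

lemma k_p2_m4 (x : M) : uL F 2 • uL F (-4) • x = uL F (-4) • uL F 2 • x + (6 : F) • uL F (-2) • x := by
  have := comm_ne (F := F) (m := 2) (n := -4) (s := -2) (d := 6) (by norm_num) (by norm_num) (by norm_num) x
  rw [this]; norm_num

lemma k_p2_m5 (x : M) : uL F 2 • uL F (-5) • x = uL F (-5) • uL F 2 • x + (7 : F) • uL F (-3) • x := by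
  have := comm_ne (F := F) (m := 2) (n := -5) (s := -3) (d := 7) (by norm_num) (by norm_num) (by norm_num) x
  rw [this]; norm_num

lemma k_p2_m6 (x : M) : uL F 2 • uL F (-6) • x = uL F (-6) • uL F 2 • x + (8 : F) • uL F (-4) • x := by
  have := comm_ne (F := F) (m := 2) (n := -6) (s := -4) (d := 8) (by norm_num) (by norm_num) (by norm_num) x
  rw [this]; norm_num

lemma k_p2_m7 (x : M) : uL F 2 • uL F (-7) • x = uL F (-7) • uL F 2 • x + (9 : F) • uL F (-5) • x := by
  have := comm_ne (F := F) (m := 2) (n := -7) (s := -5) (d := 9) (by norm_num) (by norm_num) (by norm_num) x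
  rw [this]; norm_num

lemma k_p2_m8 (x : M) : uL F 2 • uL F (-8) • x = uL F (-8) • uL F 2 • x + (10 : F) • uL F (-6) • x := by
  have := comm_ne (F := F) (m := 2) (n := -8) (s := -6) (d := 10) (by norm_num) (by norm_num) (by norm_num) x
  rw [this]; norm_num

lemma k_m1_m2 (x : M) : uL F (-1) • uL F (-2) • x = uL F (-2) • uL F (-1) • x + (1 : F) • uL F (-3) • x := by
  have := comm_ne (F := F) (m := -1) (n := -2) (s := -3) (d := 1) (by norm_num) (by norm_num) (by norm_num) x
  rw [this]; norm_num

lemma k_m1_m3 (x : M) : uL F (-1) • uL F (-3) • x = uL F (-3) • uL F (-1) • x + (2 : F) • uL F (-4) • x := by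
  have := comm_ne (F := F) (m := -1) (n := -3) (s := -4) (d := 2) (by norm_num) (by norm_num) (by norm_num) x
  rw [this]; norm_num

lemma k_m1_m4 (x : M) : uL F (-1) • uL F (-4) • x = uL F (-4) • uL F (-1) • x + (3 : F) • uL F (-5) • x := by
  have := comm_ne (F := F) (m := -1) (n := -4) (s := -5) (d := 3) (by norm_num) (by norm_num) (by norm_num) x
  rw [this]; norm_num

lemma k_m2_m3 (x : M) : uL F (-2) • uL F (-3) • x = uL F (-3) • uL F (-2) • x + (1 : F) • uL F (-5) • x := by
  have := comm_ne (F := F) (m := -2) (n := -3) (s := -5) (d := 1) (by norm_num) (by norm_num) (by norm_num) x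
  rw [this]; norm_num

lemma k_m2_m4 (x : M) : uL F (-2) • uL F (-4) • x = uL F (-4) • uL F (-2) • x + (2 : F) • uL F (-6) • x := by
  have := comm_ne (F := F) (m := -2) (n := -4) (s := -6) (d := 2) (by norm_num) (by norm_num) (by norm_num) x
  rw [this]; norm_num

lemma k_m2_m5 (x : M) : uL F (-2) • uL F (-5) • x = uL F (-5) • uL F (-2) • x + (3 : F) • uL F (-7) • x := by
  have := comm_ne (F := F) (m := -2) (n := -5) (s := -7) (d := 3) (by norm_num) (by norm_num) (by norm_num) x
  rw [this]; norm_num

lemma k_m2_m6 (x : M) : uL F (-2) • uL F (-6) • x = uL F (-6) • uL F (-2) • x + (4 : F) • uL F (-8) • x := by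
  have := comm_ne (F := F) (m := -2) (n := -6) (s := -8) (d := 4) (by norm_num) (by norm_num) (by norm_num) x
  rw [this]; norm_num

lemma k_m3_m4 (x : M) : uL F (-3) • uL F (-4) • x = uL F (-4) • uL F (-3) • x + (1 : F) • uL F (-7) • x := by
  have := comm_ne (F := F) (m := -3) (n := -4) (s := -7) (d := 1) (by norm_num) (by norm_num) (by norm_num) x
  rw [this]; norm_num

lemma k_m3_m5 (x : M) : uL F (-3) • uL F (-5) • x = uL F (-5) • uL F (-3) • x + (2 : F) • uL F (-8) • x := by
  have := comm_ne (F := F) (m := -3) (n := -5) (s := -8) (d := 2) (by norm_num) (by norm_num) (by norm_num) x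
  rw [this]; norm_num

lemma k_p0_m2 (x : M) : uL F 0 • uL F (-2) • x = uL F (-2) • uL F 0 • x + (2 : F) • uL F (-2) • x := by
  have := comm_ne (F := F) (m := 0) (n := -2) (s := -2) (d := 2) (by norm_num) (by norm_num) (by norm_num) x
  rw [this]; norm_num

lemma k_p0_m3 (x : M) : uL F 0 • uL F (-3) • x = uL F (-3) • uL F 0 • x + (3 : F) • uL F (-3) • x := by
  have := comm_ne (F := F) (m := 0) (n := -3) (s := -3) (d := 3) (by norm_num) (by norm_num) (by norm_num) x
  rw [this]; norm_num

lemma k_p0_m4 (x : M) : uL F 0 • uL F (-4) • x = uL F (-4) • uL F 0 • x + (4 : F) • uL F (-4) • x := by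
  have := comm_ne (F := F) (m := 0) (n := -4) (s := -4) (d := 4) (by norm_num) (by norm_num) (by norm_num) x
  rw [this]; norm_num

lemma k_p0_m5 (x : M) : uL F 0 • uL F (-5) • x = uL F (-5) • uL F 0 • x + (5 : F) • uL F (-5) • x := by
  have := comm_ne (F := F) (m := 0) (n := -5) (s := -5) (d := 5) (by norm_num) (by norm_num) (by norm_num) x
  rw [this]; norm_num

lemma k_p0_m6 (x : M) : uL F 0 • uL F (-6) • x = uL F (-6) • uL F 0 • x + (6 : F) • uL F (-6) • x := by
  have := comm_ne (F := F) (m := 0) (n := -6) (s := -6) (d := 6) (by norm_num) (by norm_num) (by norm_num) x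
  rw [this]; norm_num

lemma k_p0_m7 (x : M) : uL F 0 • uL F (-7) • x = uL F (-7) • uL F 0 • x + (7 : F) • uL F (-7) • x := by
  have := comm_ne (F := F) (m := 0) (n := -7) (s := -7) (d := 7) (by norm_num) (by norm_num) (by norm_num) x
  rw [this]; norm_num

lemma k_p0_m8 (x : M) : uL F 0 • uL F (-8) • x = uL F (-8) • uL F 0 • x + (8 : F) • uL F (-8) • x := by
  have := comm_ne (F := F) (m := 0) (n := -8) (s := -8) (d := 8) (by norm_num) (by norm_num) (by norm_num) x
  rw [this]; norm_num


lemma k_p2_m2 {y : M} (H : HW c h y) (x : M) : uL F 2 • uL F (-2) • x =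
    uL F (-2) • uL F 2 • x + (4 : F) • uL F 0 • x + (2⁻¹ * c) • x := by
  rw [uL_smul_comm, if_pos (by norm_num), H.central]
  have : cen F 2 = 2⁻¹ := by simp [cen, binom3]
  rw [this, mul_smul]
  norm_num

lemma usc (n : ℤ) (a : F) (x : M) : uL F n • a • x = a • uL F n • x := smul_comm _ _ _

lemma L1_deg8 {y : M} (H : HW c 0 y) (H1 : uL F (-1) • y = 0)
    (a8 a62 a53 a44 a422 a332 a2222 : F) :
    uL F 1 • (a8 • uL F (-8) • y + a62 • uL F (-6) • uL F (-2) • y +
      a53 • uL F (-5) • uL F (-3) • y + a44 • uL F (-4) • uL F (-4) • y +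
      a422 • uL F (-4) • uL F (-2) • uL F (-2) • y + a332 • uL F (-3) • uL F (-3) • uL F (-2) • y +
      a2222 • uL F (-2) • uL F (-2) • uL F (-2) • uL F (-2) • y) =
    (9 * a8 + 5 * a44 + 27 * a2222) • uL F (-7) • y +
    (7 * a62 + 4 * a53 + 4 * a332 + 24 * a2222) • uL F (-5) • uL F (-2) • y +
    (6 * a53 + 10 * a44 + 3 * a422) • uL F (-4) • uL F (-3) • y +
    (5 * a422 + 8 * a332 + 18 * a2222) • uL F (-3) • uL F (-2) • uL F (-2) • y := by
  have h1 := H.pos 1 (by norm_num)
  have h0 : uL F 0 • y = 0 := by rw [H.zero, zero_smul]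
  simp only [k_p1_m2, k_p1_m3, k_p1_m4, k_p1_m5, k_p1_m6, k_p1_m7, k_p1_m8, k_m1_m2, k_m1_m3,
    k_m1_m4, k_m2_m3, k_m2_m4, k_m2_m5, k_m2_m6, k_m3_m4, k_m3_m5, usc, smul_add, smul_zero, H1,
    h1, add_zero, zero_add]
  generalize uL F (-7) • y = z1
  generalize uL F (-5) • uL F (-2) • y = z2
  generalize uL F (-4) • uL F (-3) • y = z3
  generalize uL F (-3) • uL F (-2) • uL F (-2) • y = z4
  module

lemma L2_deg8 {y : M} (H : HW c 0 y) (H1 : uL F (-1) • y = 0)
    (a8 a62 a53 a44 a422 a332 a2222 : F) :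
    uL F 2 • (a8 • uL F (-8) • y + a62 • uL F (-6) • uL F (-2) • y +
      a53 • uL F (-5) • uL F (-3) • y + a44 • uL F (-4) • uL F (-4) • y +
      a422 • uL F (-4) • uL F (-2) • uL F (-2) • y + a332 • uL F (-3) • uL F (-3) • uL F (-2) • y +
      a2222 • uL F (-2) • uL F (-2) • uL F (-2) • uL F (-2) • y) =
    (10 * a8 + (2⁻¹ * c) * a62 + 12 * a44) • uL F (-6) • y +
    (8 * a62 + 12 * a44 + (8 + 2⁻¹ * c) * a422 + 2⁻¹ * c * a422 + 10 * a332) •
      uL F (-4) • uL F (-2) • y +
    (7 * a53 + (2⁻¹ * c + 10) * a332) • uL F (-3) • uL F (-3) • y +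
    (6 * a422 + (48 + 4 * (2⁻¹ * c)) * a2222) • uL F (-2) • uL F (-2) • uL F (-2) • y := by
  have h1 := H.pos 1 (by norm_num)
  have h2 := H.pos 2 (by norm_num)
  have h0 : uL F 0 • y = 0 := by rw [H.zero, zero_smul]
  have h22 := k_p2_m2 H
  simp only [k_p2_m3, k_p2_m4, k_p2_m5, k_p2_m6, k_p2_m7, k_p2_m8, k_p1_m2, k_p1_m3, k_m1_m2,
    k_m1_m3, k_m1_m4, k_m2_m3, k_m2_m4, k_m2_m5, k_m2_m6, k_m3_m4, k_m3_m5, k_p0_m2, k_p0_m3,
    k_p0_m4, h22, usc, smul_add, smul_zero, H1, h1, h2, h0, add_zero, zero_add]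
  generalize uL F (-6) • y = z1
  generalize uL F (-4) • uL F (-2) • y = z2
  generalize uL F (-3) • uL F (-3) • y = z3
  generalize uL F (-2) • uL F (-2) • uL F (-2) • y = z4
  module
lemma L1_deg3 {y : M} (H : HW c 0 y) (H1 : uL F (-1) • y = 0) (a : F) :
    uL F 1 • (a • uL F (-3) • y) =
    (4 * a) • uL F (-2) • y := by
  have h1 := H.pos 1 (by norm_num)
  simp only [k_p1_m2, k_p1_m3, k_p1_m4, k_p1_m5, k_p1_m6, k_p1_m7, k_p1_m8, k_m1_m2, k_m1_m3,
    k_m1_m4, k_m2_m3, k_m2_m4, k_m2_m5, k_m2_m6, k_m3_m4, k_m3_m5, usc, smul_add, smul_zero, H1,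
    h1, add_zero, zero_add]
  generalize uL F (-2) • y = z1
  module

lemma L1_deg4 {y : M} (H : HW c 0 y) (H1 : uL F (-1) • y = 0) (a4 a22 : F) :
    uL F 1 • (a4 • uL F (-4) • y + a22 • uL F (-2) • uL F (-2) • y) =
    (5 * a4 + 3 * a22) • uL F (-3) • y := by
  have h1 := H.pos 1 (by norm_num)
  simp only [k_p1_m2, k_p1_m3, k_p1_m4, k_p1_m5, k_p1_m6, k_p1_m7, k_p1_m8, k_m1_m2, k_m1_m3,
    k_m1_m4, k_m2_m3, k_m2_m4, k_m2_m5, k_m2_m6, k_m3_m4, k_m3_m5, usc, smul_add, smul_zero, H1,
    h1, add_zero, zero_add]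
  generalize uL F (-3) • y = z1
  module

lemma L2_deg4 {y : M} (H : HW c 0 y) (H1 : uL F (-1) • y = 0) (a4 a22 : F) :
    uL F 2 • (a4 • uL F (-4) • y + a22 • uL F (-2) • uL F (-2) • y) =
    (6 * a4 + (8 + 2 * (2⁻¹ * c)) * a22) • uL F (-2) • y := by
  have h1 := H.pos 1 (by norm_num)
  have h2 := H.pos 2 (by norm_num)
  have h0 : uL F 0 • y = 0 := by rw [H.zero, zero_smul]
  have h22 := k_p2_m2 H
  simp only [k_p2_m3, k_p2_m4, k_p2_m5, k_p2_m6, k_p2_m7, k_p2_m8, k_p1_m2, k_p1_m3, k_m1_m2,
    k_m1_m3, k_m1_m4, k_m2_m3, k_m2_m4, k_m2_m5, k_m2_m6, k_m3_m4, k_m3_m5, k_p0_m2, k_p0_m3,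
    k_p0_m4, h22, usc, smul_add, smul_zero, H1, h1, h2, h0, add_zero, zero_add]
  generalize uL F (-2) • y = z1
  module

lemma L1_deg5 {y : M} (H : HW c 0 y) (H1 : uL F (-1) • y = 0) (a5 a32 : F) :
    uL F 1 • (a5 • uL F (-5) • y + a32 • uL F (-3) • uL F (-2) • y) =
    (6 * a5) • uL F (-4) • y + (4 * a32) • uL F (-2) • uL F (-2) • y := by
  have h1 := H.pos 1 (by norm_num)
  simp only [k_p1_m2, k_p1_m3, k_p1_m4, k_p1_m5, k_p1_m6, k_p1_m7, k_p1_m8, k_m1_m2, k_m1_m3,
    k_m1_m4, k_m2_m3, k_m2_m4, k_m2_m5, k_m2_m6, k_m3_m4, k_m3_m5, usc, smul_add, smul_zero, H1,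
    h1, add_zero, zero_add]
  generalize uL F (-2) • uL F (-2) • y = z1
  generalize uL F (-4) • y = z2
  module

lemma L1_deg6 {y : M} (H : HW c 0 y) (H1 : uL F (-1) • y = 0) (a6 a42 a33 a222 : F) :
    uL F 1 • (a6 • uL F (-6) • y + a42 • uL F (-4) • uL F (-2) • y + a33 • uL F (-3) • uL F (-3) • y + a222 • uL F (-2) • uL F (-2) • uL F (-2) • y) =
    (7 * a6 + 4 * a33 + 6 * a222) • uL F (-5) • y + (5 * a42 + 8 * a33 + 9 * a222) • uL F (-3) • uL F (-2) • y := by
  have h1 := H.pos 1 (by norm_num)
  simp only [k_p1_m2, k_p1_m3, k_p1_m4, k_p1_m5, k_p1_m6, k_p1_m7, k_p1_m8, k_m1_m2, k_m1_m3,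
    k_m1_m4, k_m2_m3, k_m2_m4, k_m2_m5, k_m2_m6, k_m3_m4, k_m3_m5, usc, smul_add, smul_zero, H1,
    h1, add_zero, zero_add]
  generalize uL F (-3) • uL F (-2) • y = z1
  generalize uL F (-5) • y = z2
  module

lemma L2_deg6 {y : M} (H : HW c 0 y) (H1 : uL F (-1) • y = 0) (a6 a42 a33 a222 : F) :
    uL F 2 • (a6 • uL F (-6) • y + a42 • uL F (-4) • uL F (-2) • y + a33 • uL F (-3) • uL F (-3) • y + a222 • uL F (-2) • uL F (-2) • uL F (-2) • y) =
    (8 * a6 + (2⁻¹ * c) * a42 + 10 * a33) • uL F (-4) • y + (6 * a42 + (24 + 3 * (2⁻¹ * c)) * a222) • uL F (-2) • uL F (-2) • y := by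
  have h1 := H.pos 1 (by norm_num)
  have h2 := H.pos 2 (by norm_num)
  have h0 : uL F 0 • y = 0 := by rw [H.zero, zero_smul]
  have h22 := k_p2_m2 H
  simp only [k_p2_m3, k_p2_m4, k_p2_m5, k_p2_m6, k_p2_m7, k_p2_m8, k_p1_m2, k_p1_m3, k_m1_m2,
    k_m1_m3, k_m1_m4, k_m2_m3, k_m2_m4, k_m2_m5, k_m2_m6, k_m3_m4, k_m3_m5, k_p0_m2, k_p0_m3,
    k_p0_m4, h22, usc, smul_add, smul_zero, H1, h1, h2, h0, add_zero, zero_add]
  generalize uL F (-2) • uL F (-2) • y = z1
  generalize uL F (-4) • y = z2
  module

lemma L1_deg7 {y : M} (H : HW c 0 y) (H1 : uL F (-1) • y = 0) (a7 a52 a43 a322 : F) :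
    uL F 1 • (a7 • uL F (-7) • y + a52 • uL F (-5) • uL F (-2) • y + a43 • uL F (-4) • uL F (-3) • y + a322 • uL F (-3) • uL F (-2) • uL F (-2) • y) =
    (8 * a7) • uL F (-6) • y + (6 * a52 + 4 * a43) • uL F (-4) • uL F (-2) • y + (5 * a43 + 3 * a322) • uL F (-3) • uL F (-3) • y + (4 * a322) • uL F (-2) • uL F (-2) • uL F (-2) • y := by
  have h1 := H.pos 1 (by norm_num)
  simp only [k_p1_m2, k_p1_m3, k_p1_m4, k_p1_m5, k_p1_m6, k_p1_m7, k_p1_m8, k_m1_m2, k_m1_m3,
    k_m1_m4, k_m2_m3, k_m2_m4, k_m2_m5, k_m2_m6, k_m3_m4, k_m3_m5, usc, smul_add, smul_zero, H1,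
    h1, add_zero, zero_add]
  generalize uL F (-2) • uL F (-2) • uL F (-2) • y = z1
  generalize uL F (-4) • uL F (-2) • y = z2
  generalize uL F (-3) • uL F (-3) • y = z3
  generalize uL F (-6) • y = z4
  module


section indep

variable [CharZero F]

lemma ind2 {y : M} (H : HW (7 / 10 : F) 0 y) (hy : y ≠ 0) {a : F} (h2 : a • uL F (-2) • y = 0) :
    a = 0 := by
  have h3 := congrArg (fun z => uL F 2 • z) h2
  simp only [usc, k_p2_m2 H, H.pos 2 (by norm_num), H.zero, zero_smul, smul_zero, zero_add] at h3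
  rw [smul_smul] at h3
  have h4 := (smul_eq_zero.mp h3).resolve_right hy
  linear_combination (20 / 7) * h4

lemma ind3 {y : M} (H : HW (7 / 10 : F) 0 y) (H1 : uL F (-1) • y = 0) (hy : y ≠ 0) {a : F}
    (h2 : a • uL F (-3) • y = 0) : a = 0 := by
  have h3 := congrArg (fun z => uL F 1 • z) h2
  simp only [L1_deg3 H H1, smul_zero] at h3
  have h4 := ind2 H hy h3
  linear_combination (1 / 4) * h4

lemma ind4 {y : M} (H : HW (7 / 10 : F) 0 y) (H1 : uL F (-1) • y = 0) (hy : y ≠ 0) {a4 a22 : F}
    (h2 : a4 • uL F (-4) • y + a22 • uL F (-2) • uL F (-2) • y = 0) : a4 = 0 ∧ a22 = 0 := by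
  have h3 := congrArg (fun z => uL F 1 • z) h2
  have h4 := congrArg (fun z => uL F 2 • z) h2
  simp only [L1_deg4 H H1, L2_deg4 H H1, smul_zero] at h3 h4
  have h5 := ind3 H H1 hy h3
  have h6 := ind2 H hy h4
  constructor
  · linear_combination (29 / 85) * h5 - (2 / 17) * h6
  · linear_combination (-4 / 17) * h5 + (10 / 51) * h6

lemma ind5 {y : M} (H : HW (7 / 10 : F) 0 y) (H1 : uL F (-1) • y = 0) (hy : y ≠ 0) {a5 a32 : F}
    (h2 : a5 • uL F (-5) • y + a32 • uL F (-3) • uL F (-2) • y = 0) : a5 = 0 ∧ a32 = 0 := by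
  have h3 := congrArg (fun z => uL F 1 • z) h2
  simp only [L1_deg5 H H1, smul_zero] at h3
  obtain ⟨h5, h6⟩ := ind4 H H1 hy h3
  constructor
  · linear_combination (1 / 6) * h5
  · linear_combination (1 / 4) * h6

lemma ind6 {y : M} (H : HW (7 / 10 : F) 0 y) (H1 : uL F (-1) • y = 0) (hy : y ≠ 0)
    {a6 a42 a33 a222 : F}
    (h2 : a6 • uL F (-6) • y + a42 • uL F (-4) • uL F (-2) • y + a33 • uL F (-3) • uL F (-3) • y +
      a222 • uL F (-2) • uL F (-2) • uL F (-2) • y = 0) :
    a6 = 0 ∧ a42 = 0 ∧ a33 = 0 ∧ a222 = 0 := by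
  have h3 := congrArg (fun z => uL F 1 • z) h2
  have h4 := congrArg (fun z => uL F 2 • z) h2
  simp only [L1_deg6 H H1, L2_deg6 H H1, smul_zero] at h3 h4
  obtain ⟨e1, e2⟩ := ind5 H H1 hy h3
  obtain ⟨e3, e4⟩ := ind4 H H1 hy h4
  have h222 : a222 = 0 := by
    linear_combination (3200/729) * e1 + (1900/729) * e2 - (2800/729) * e3 - (1420/729) * e4
  subst h222
  have h42 : a42 = 0 := by linear_combination (1/6) * e4
  subst h42
  have h33 : a33 = 0 := by linear_combination (1/8) * e2
  subst h33
  have h6 : a6 = 0 := by linear_combination (1/7) * e1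
  exact ⟨h6, rfl, rfl, rfl⟩

lemma ind7 {y : M} (H : HW (7 / 10 : F) 0 y) (H1 : uL F (-1) • y = 0) (hy : y ≠ 0)
    {a7 a52 a43 a322 : F}
    (h2 : a7 • uL F (-7) • y + a52 • uL F (-5) • uL F (-2) • y + a43 • uL F (-4) • uL F (-3) • y +
      a322 • uL F (-3) • uL F (-2) • uL F (-2) • y = 0) :
    a7 = 0 ∧ a52 = 0 ∧ a43 = 0 ∧ a322 = 0 := by
  have h3 := congrArg (fun z => uL F 1 • z) h2
  simp only [L1_deg7 H H1, smul_zero] at h3
  obtain ⟨e1, e2, e3, e4⟩ := ind6 H H1 hy h3
  have h322 : a322 = 0 := by linear_combination (1/4) * e4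
  subst h322
  have h43 : a43 = 0 := by linear_combination (1/5) * e3
  subst h43
  have h52 : a52 = 0 := by linear_combination (1/6) * e2
  subst h52
  have h7 : a7 = 0 := by linear_combination (1/8) * e1
  exact ⟨h7, rfl, rfl, rfl⟩

lemma ind8 {y : M} (H : HW (7 / 10 : F) 0 y) (H1 : uL F (-1) • y = 0) (hy : y ≠ 0)
    {a8 a62 a53 a44 a422 a332 a2222 : F}
    (h2 : a8 • uL F (-8) • y + a62 • uL F (-6) • uL F (-2) • y +
      a53 • uL F (-5) • uL F (-3) • y + a44 • uL F (-4) • uL F (-4) • y +
      a422 • uL F (-4) • uL F (-2) • uL F (-2) • y + a332 • uL F (-3) • uL F (-3) • uL F (-2) • y +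
      a2222 • uL F (-2) • uL F (-2) • uL F (-2) • uL F (-2) • y = 0) :
    a8 = 0 ∧ a62 = 0 ∧ a53 = 0 ∧ a44 = 0 ∧ a422 = 0 ∧ a332 = 0 ∧ a2222 = 0 := by
  have h3 := congrArg (fun z => uL F 1 • z) h2
  have h4 := congrArg (fun z => uL F 2 • z) h2
  simp only [L1_deg8 H H1, L2_deg8 H H1, smul_zero] at h3 h4
  obtain ⟨e1, e2, e3, e4⟩ := ind7 H H1 hy h3
  obtain ⟨e5, e6, e7, e8⟩ := ind6 H H1 hy h4
  have t0 : a2222 = 0 := by
    linear_combination (-17975000/57458817) * e1 + (3470975/19152939) * e2 +
      (1357390/57458817) * e3 + (10847171/38305878) * e4 + (1797500/6384313) * e5 -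
      (3273025/19152939) * e6 - (2371240/19152939) * e7
  subst t0
  have t1 : a422 = 0 := by linear_combination (1/6) * e8
  subst t1
  have t2 : a332 = 0 := by linear_combination (1/8) * e4
  subst t2
  have t3 : a53 = 0 := by linear_combination (1/7) * e7
  subst t3
  have t4 : a44 = 0 := by linear_combination (1/10) * e3
  subst t4
  have t5 : a8 = 0 := by linear_combination (1/9) * e1
  subst t5
  have t6 : a62 = 0 := by linear_combination (1/7) * e2
  exact ⟨rfl, t6, rfl, rfl, rfl, rfl, rfl⟩

end indep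

end compute

/-! ### Sorted monomials -/

/-- Span of shorter monomials of the same degree. -/
noncomputable def shorter (k r : ℕ) : Submodule F (UVir F) :=
  Submodule.span F {x | ∃ l : List ℕ, (∀ i ∈ l, 0 < i) ∧ l.sum = k ∧ l.length < r ∧ x = mono F l}

lemma shorter_cons {k r a : ℕ} (ha : 0 < a) {x : UVir F} (hx : x ∈ shorter (F := F) k r) :
    uL F (-(a : ℤ)) * x ∈ shorter (F := F) (a + k) (r + 1) := by
  unfold shorter at hx
  induction hx using Submodule.span_induction with
  | mem y hy =>
    obtain ⟨l, hl, hk, hr, rfl⟩ := hy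
    rw [← mono_cons]
    refine Submodule.subset_span ⟨a :: l, by simpa using ⟨ha, hl⟩, by simp [hk], ?_, rfl⟩
    simpa using hr
  | zero => rw [mul_zero]; exact zero_mem _
  | add y z _ _ hy hz => rw [mul_add]; exact add_mem hy hz
  | smul a y _ hy => rw [mul_smul_comm]; exact Submodule.smul_mem _ _ hy

lemma perm_mod {l1 l2 : List ℕ} (hp : l1.Perm l2) : (∀ i ∈ l1, 0 < i) →
    mono F l1 - mono F l2 ∈ shorter (F := F) l1.sum l1.length := by
  induction hp with
  | nil => intro _; rw [sub_self]; exact zero_mem _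
  | cons a _ ih =>
    intro hl
    rw [mono_cons, mono_cons, ← mul_sub]
    exact shorter_cons (hl a (by simp)) (ih (fun i hi => hl i (by simp [hi])))
  | swap a b l =>
    intro hl
    have ha : 0 < a := hl a (by simp)
    have hb : 0 < b := hl b (by simp)
    simp only [mono_cons]
    rw [← mul_assoc, ← mul_assoc, ← sub_mul, uL_comm (-(b : ℤ)) (-(a : ℤ)), if_neg (by omega),
      zero_smul, add_zero, add_sub_cancel_left, smul_mul_assoc]
    refine Submodule.smul_mem _ _ ?_
    have e : -(b : ℤ) + -(a : ℤ) = -((a + b : ℕ) : ℤ) := by push_cast; ring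
    rw [e, ← mono_cons]
    refine Submodule.subset_span ⟨(a + b) :: l, ?_, ?_, ?_, rfl⟩
    · intro i hi
      rcases List.mem_cons.mp hi with rfl | hi
      · omega
      · exact hl i (by simp [hi])
    · simp; omega
    · simp
  | trans h1 h2 ih1 ih2 =>
    intro hl
    have h3 := ih1 hl
    have h4 := ih2 (fun i hi => hl i (h1.mem_iff.mpr hi))
    rw [← h1.sum_eq, ← h1.length_eq] at h4
    have := add_mem h3 h4
    rwa [sub_add_sub_cancel] at this

/-- Span of sorted monomials. -/
noncomputable def sortedSpan (k : ℕ) : Submodule F (UVir F) :=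
  Submodule.span F {x | ∃ l : List ℕ, (∀ i ∈ l, 0 < i) ∧ l.sum = k ∧ l.Pairwise (· ≥ ·) ∧
    x = mono F l}

lemma mem_sortedSpan : ∀ (r : ℕ) (l : List ℕ), l.length = r → (∀ i ∈ l, 0 < i) →
    mono F l ∈ sortedSpan (F := F) l.sum := by
  intro r
  induction r using Nat.strong_induction_on with
  | _ r ih =>
    intro l hr hl
    have hp : l.Perm (l.insertionSort (· ≥ ·)) := (List.perm_insertionSort _ l).symm
    have h1 := perm_mod (F := F) hp hl
    have h2 : shorter (F := F) l.sum l.length ≤ sortedSpan (F := F) l.sum := by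
      refine Submodule.span_le.mpr ?_
      rintro x ⟨l', hl', hs, hlen, rfl⟩
      have := ih l'.length (by omega) l' rfl hl'
      rw [hs] at this
      exact this
    have h3 : mono F (l.insertionSort (· ≥ ·)) ∈ sortedSpan (F := F) l.sum := by
      refine Submodule.subset_span ⟨_, ?_, hp.sum_eq.symm, List.pairwise_insertionSort _ l, rfl⟩
      intro i hi
      exact hl i (hp.mem_iff.mpr hi)
    have h4 := add_mem (h2 h1) h3
    rwa [sub_add_cancel] at h4

lemma mono_append (l l' : List ℕ) : mono F (l ++ l') = mono F l * mono F l' := by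
  simp [mono]

/-- Sorted lists of positive integers with sum eight: either they end with a one, or they are
in the list of partitions of eight without ones. -/
lemma enum8 (l : List ℕ) (hl : ∀ i ∈ l, 0 < i) (hs : l.sum = 8) (hp : l.Pairwise (· ≥ ·)) :
    (∃ l', l = l' ++ [1]) ∨ l = [8] ∨ l = [6, 2] ∨ l = [5, 3] ∨ l = [4, 4] ∨ l = [4, 2, 2] ∨
      l = [3, 3, 2] ∨ l = [2, 2, 2, 2] := by
  by_cases h1 : 1 ∈ l
  · left
    have hne : l ≠ [] := by rintro rfl; simp at h1
    obtain ⟨l', a, rfl⟩ := (List.eq_nil_or_concat' l).resolve_left hne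
    refine ⟨l', ?_⟩
    have ha : 0 < a := hl a (by simp)
    rw [List.pairwise_append] at hp
    rcases List.mem_append.mp h1 with h2 | h2
    · have := hp.2.2 1 h2 a (by simp)
      have : a = 1 := by omega
      rw [this]
    · rw [List.mem_singleton] at h2
      rw [← h2]
  · right
    have h2 : ∀ i ∈ l, 2 ≤ i := by
      intro i hi
      have := hl i hi
      have : i ≠ 1 := by rintro rfl; exact h1 hi
      omega
    rcases l with _ | ⟨a, _ | ⟨b, _ | ⟨c, _ | ⟨d, _ | ⟨e, l⟩⟩⟩⟩⟩
    · simp at hs
    · simp at hs; subst hs; simp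
    · simp at hs hp h2
      obtain ⟨ha, hb⟩ := h2
      have : (a = 6 ∧ b = 2) ∨ (a = 5 ∧ b = 3) ∨ (a = 4 ∧ b = 4) := by omega
      rcases this with ⟨rfl, rfl⟩ | ⟨rfl, rfl⟩ | ⟨rfl, rfl⟩ <;> simp
    · simp at hs hp h2
      obtain ⟨ha, hb, hc⟩ := h2
      obtain ⟨⟨h3, h4⟩, h5⟩ := hp
      have : (a = 4 ∧ b = 2 ∧ c = 2) ∨ (a = 3 ∧ b = 3 ∧ c = 2) := by omega
      rcases this with ⟨rfl, rfl, rfl⟩ | ⟨rfl, rfl, rfl⟩ <;> simp
    · simp at hs hp h2
      obtain ⟨ha, hb, hc, hd⟩ := h2
      have : a = 2 ∧ b = 2 ∧ c = 2 ∧ d = 2 := by omega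
      obtain ⟨rfl, rfl, rfl, rfl⟩ := this
      simp
    · exfalso
      simp at hs h2
      obtain ⟨ha, hb, hc, hd, he, -⟩ := h2
      omega

section span8

variable {M : Type*} [AddCommGroup M] [Module F M] [Module (UVir F) M] [IsScalarTower F (UVir F) M]

/-- The seven vectors of degree eight. -/
noncomputable def vec8 (y : M) : Fin 7 → M :=
  ![uL F (-8) • y, uL F (-6) • uL F (-2) • y, uL F (-5) • uL F (-3) • y,
    uL F (-4) • uL F (-4) • y, uL F (-4) • uL F (-2) • uL F (-2) • y,
    uL F (-3) • uL F (-3) • uL F (-2) • y, uL F (-2) • uL F (-2) • uL F (-2) • uL F (-2) • y]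

lemma degree8_eq {y : M} (H1 : uL F (-1) • y = 0) :
    degreePart F y 8 = Submodule.span F (Set.range (vec8 (F := F) y)) := by
  apply le_antisymm
  · refine Submodule.span_le.mpr ?_
    rintro x ⟨l, hl, hs, rfl⟩
    have h1 := mem_sortedSpan (F := F) l.length l rfl hl
    rw [hs] at h1
    have h2 : ∀ u ∈ sortedSpan (F := F) 8, u • y ∈ Submodule.span F (Set.range (vec8 (F := F) y)) := by
      intro u hu
      unfold sortedSpan at hu
      induction hu using Submodule.span_induction with
      | mem u hu =>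
        obtain ⟨l', hl', hs', hp', rfl⟩ := hu
        have hv : ∀ i : Fin 7, vec8 (F := F) y i ∈ Submodule.span F (Set.range (vec8 (F := F) y)) :=
          fun i => Submodule.subset_span ⟨i, rfl⟩
        rcases enum8 l' hl' hs' hp' with ⟨l'', rfl⟩ | rfl | rfl | rfl | rfl | rfl | rfl | rfl
        · rw [mono_append, mul_smul]
          have : mono F [1] • y = 0 := by
            rw [mono_cons, mono_nil, mul_one]; exact H1
          rw [this, smul_zero]
          exact zero_mem _
        · have e : mono F [8] • y = vec8 (F := F) y 0 := by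
            simp [mono_cons, mono_nil, mul_smul, vec8]
          rw [e]; exact hv 0
        · have e : mono F [6, 2] • y = vec8 (F := F) y 1 := by
            simp [mono_cons, mono_nil, mul_smul, vec8]
          rw [e]; exact hv 1
        · have e : mono F [5, 3] • y = vec8 (F := F) y 2 := by
            simp [mono_cons, mono_nil, mul_smul, vec8]
          rw [e]; exact hv 2
        · have e : mono F [4, 4] • y = vec8 (F := F) y 3 := by
            simp [mono_cons, mono_nil, mul_smul, vec8]
          rw [e]; exact hv 3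
        · have e : mono F [4, 2, 2] • y = vec8 (F := F) y 4 := by
            simp [mono_cons, mono_nil, mul_smul, vec8]
          rw [e]; exact hv 4
        · have e : mono F [3, 3, 2] • y = vec8 (F := F) y 5 := by
            simp [mono_cons, mono_nil, mul_smul, vec8]
          rw [e]; exact hv 5
        · have e : mono F [2, 2, 2, 2] • y = vec8 (F := F) y 6 := by
            simp [mono_cons, mono_nil, mul_smul, vec8]
          rw [e]; exact hv 6
      | zero => rw [zero_smul]; exact zero_mem _
      | add u v _ _ hu hv => rw [add_smul]; exact add_mem hu hv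
      | smul a u _ hu => rw [smul_assoc]; exact Submodule.smul_mem _ _ hu
    exact h2 _ h1
  · refine Submodule.span_le.mpr ?_
    rintro x ⟨i, rfl⟩
    have key : ∀ l : List ℕ, (∀ i ∈ l, 0 < i) → l.sum = 8 → mono F l • y ∈ degreePart F y 8 := by
      intro l hl hs
      exact Submodule.subset_span ⟨l, hl, hs, rfl⟩
    fin_cases i
    · simpa [mono_cons, mono_nil, mul_smul, vec8] using key [8] (by simp) (by simp)
    · simpa [mono_cons, mono_nil, mul_smul, vec8] using key [6, 2] (by simp) (by simp)
    · simpa [mono_cons, mono_nil, mul_smul, vec8] using key [5, 3] (by simp) (by simp)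
    · simpa [mono_cons, mono_nil, mul_smul, vec8] using key [4, 4] (by simp) (by simp)
    · simpa [mono_cons, mono_nil, mul_smul, vec8] using key [4, 2, 2] (by simp) (by simp)
    · simpa [mono_cons, mono_nil, mul_smul, vec8] using key [3, 3, 2] (by simp) (by simp)
    · simpa [mono_cons, mono_nil, mul_smul, vec8] using key [2, 2, 2, 2] (by simp) (by simp)

end span8

/-! ### The simple module -/

lemma svac_ne : svac F c h ≠ 0 := by
  intro h0
  rw [svac, simpleMk_eq_zero] at h0
  exact vac_not_mem h0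

lemma svacHW : HW c h (svac F c h) where
  pos := by
    intro n hn
    rw [svac, ← map_smul, vac_pos hn, map_zero]
  zero := by
    rw [svac, ← map_smul, vac_zero]
    rfl
  central := by
    intro x
    obtain ⟨x, rfl⟩ := simpleMk_surj x
    rw [← map_smul, C_smul]
    rfl

lemma svac_neg_one : uL F (-1) • svac F c 0 = 0 := by
  rw [svac, ← map_smul, simpleMk_eq_zero]
  have hd : uL F (-1) • vac F c 0 ∈ degreePart F (vac F c 0) 1 := by
    have := mono_mem (F := F) (v := vac F c 0) (l := [1]) (by simp)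
    simpa [mono_cons, mono_nil] using this
  refine mem_max_of_Rad hd (crit one_pos hd ?_)
  intro n hn
  have h0 : uL F n • uL F (-1) • vac F c 0 = 0 := by
    rw [uL_smul_comm, vac_pos hn, smul_zero, zero_add]
    rcases eq_or_lt_of_le (show 1 ≤ n by omega) with rfl | hn1
    · have : (1 : ℤ) + -1 = 0 := by norm_num
      rw [this, vac_zero]
      simp [cen, binom3]
    · rw [if_neg (by omega), zero_smul, add_zero, vac_pos (by omega), smul_zero]
  rw [h0]
  exact zero_mem _

/-! ### Simplicity of `L_{c,h}` -/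

/-- Elements of the enveloping algebra lowering the degree by `d`. -/
noncomputable def lowers (c h : F) (d : ℤ) : Submodule F (UVir F) where
  carrier := {u | ∀ (j : ℤ), ∀ x ∈ dP (F := F) (vac F c h) j, u • x ∈ dP (F := F) (vac F c h) (j - d)}
  add_mem' := by
    intro u v hu hv j x hx
    rw [add_smul]; exact add_mem (hu j x hx) (hv j x hx)
  zero_mem' := by intro j x _; rw [zero_smul]; exact zero_mem _
  smul_mem' := by
    intro a u hu j x hx
    rw [smul_assoc]; exact Submodule.smul_mem _ _ (hu j x hx)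

lemma mul_lowers {d e : ℤ} {u v : UVir F} (hu : u ∈ lowers c h d) (hv : v ∈ lowers c h e) :
    u * v ∈ lowers c h (d + e) := by
  intro j x hx
  rw [mul_smul]
  have := hu _ _ (hv j x hx)
  have e1 : j - (d + e) = j - e - d := by ring
  rw [e1]; exact this

lemma mem_iSup_lowers (u : UVir F) : u ∈ ⨆ d : ℤ, lowers c h d := by
  refine U_ind (P := fun u => u ∈ ⨆ d : ℤ, lowers c h d) ?_ ?_ ?_ ?_ ?_ u
  · intro a
    refine Submodule.mem_iSup_of_mem 0 ?_
    intro j x hx
    rw [algebraMap_smul' (M := Verma F c h), sub_zero]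
    exact Submodule.smul_mem _ _ hx
  · intro n
    exact Submodule.mem_iSup_of_mem n (fun j x hx => vacHW.act_dP hx n)
  · refine Submodule.mem_iSup_of_mem 0 ?_
    intro j x hx
    rw [C_smul, sub_zero]
    exact Submodule.smul_mem _ _ hx
  · intro x y hx hy; exact add_mem hx hy
  · intro x y hx hy
    induction hx using Submodule.iSup_induction' with
    | mem d x hx =>
      induction hy using Submodule.iSup_induction' with
      | mem e y hy => exact Submodule.mem_iSup_of_mem (d + e) (mul_lowers hx hy)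
      | zero => rw [mul_zero]; exact zero_mem _
      | add y z _ _ ihy ihz => rw [mul_add]; exact add_mem ihy ihz
    | zero => rw [zero_mul]; exact zero_mem _
    | add x z _ _ ihx ihz => rw [add_mul]; exact add_mem ihx ihz

lemma eps_dP {j : ℤ} (hj : j ≠ 0) {x : Verma F c h} (hx : x ∈ dP (F := F) (vac F c h) j) :
    eps c h x = 0 := by
  rcases lt_or_gt_of_ne hj with hlt | hgt
  · unfold dP at hx
    rw [if_pos hlt, Submodule.mem_bot] at hx
    rw [hx, map_zero]
  · obtain ⟨i, rfl⟩ := Int.eq_ofNat_of_zero_le hgt.le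
    rw [dP_nat] at hx
    exact eps_degree (by omega) hx

/-- A homogeneous vector outside the radical can be lowered to the highest weight vector. -/
lemma exists_lower {k : ℕ} {x : Verma F c h} (hx : x ∈ degreePart F (vac F c h) k)
    (hr : x ∉ Rad c h) : ∃ u ∈ lowers c h (k : ℤ), eps c h (u • x) ≠ 0 := by
  by_contra hcon
  push Not at hcon
  apply hr
  intro u
  have hu := mem_iSup_lowers (c := c) (h := h) u
  induction hu using Submodule.iSup_induction' with
  | mem d u hu =>
    by_cases hd : d = k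
    · subst hd; exact hcon u hu
    · have h1 := hu k x (by rw [dP_nat]; exact hx)
      exact eps_dP (by omega) h1
  | zero => rw [zero_smul, map_zero]
  | add u v _ _ ihu ihv => rw [add_smul, map_add, ihu, ihv, add_zero]

lemma vac_mem_of {N : Submodule (UVir F) (Verma F c h)} (hN : maxGraded F c h ≤ N) :
    ∀ (K : ℕ) (x : Verma F c h), x ∈ N → x ∈ (⨆ k : Fin K, degreePart F (vac F c h) (k : ℕ)) →
      x ∉ maxGraded F c h → vac F c h ∈ N := by
  intro K
  induction K with
  | zero =>
    intro x _ hx hxn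
    exfalso
    apply hxn
    rw [iSup_of_empty, Submodule.mem_bot] at hx
    rw [hx]; exact zero_mem _
  | succ K ih =>
    intro x hxN hx hxn
    have hsplit : (⨆ k : Fin (K + 1), degreePart F (vac F c h) (k : ℕ)) ≤
        (⨆ k : Fin K, degreePart F (vac F c h) (k : ℕ)) ⊔ degreePart F (vac F c h) K := by
      refine iSup_le fun k => ?_
      rcases Nat.lt_succ_iff_lt_or_eq.mp k.2 with hk | hk
      · exact le_trans (le_iSup (fun k : Fin K => degreePart F (vac F c h) (k : ℕ)) ⟨k, hk⟩)
          le_sup_left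
      · rw [hk]; exact le_sup_right
    obtain ⟨x', hx', xK, hxK, rfl⟩ := Submodule.mem_sup.mp (hsplit hx)
    by_cases hm : xK ∈ maxGraded F c h
    · refine ih x' ?_ hx' ?_
      · have := N.sub_mem hxN (hN hm)
        rwa [add_sub_cancel_right] at this
      · intro h1; exact hxn (add_mem h1 hm)
    · have hr : xK ∉ Rad c h := fun h1 => hm (mem_max_of_Rad hxK h1)
      obtain ⟨u, hu, hne⟩ := exists_lower hxK hr
      have h1 : u • x' = 0 := by
        clear hxN hx hxn
        induction hx' using Submodule.iSup_induction' with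
        | mem k y hy =>
          have h2 := hu k y (by rw [dP_nat]; exact hy)
          unfold dP at h2
          rw [if_pos (by have := k.2; omega), Submodule.mem_bot] at h2
          exact h2
        | zero => rw [smul_zero]
        | add y z _ _ ihy ihz => rw [smul_add, ihy, ihz, add_zero]
      have h2 : u • xK ∈ degreePart F (vac F c h) 0 := by
        have h3 := hu K xK (by rw [dP_nat]; exact hxK)
        rw [sub_self] at h3
        exact (dP_nat (F := F) (v := vac F c h) 0) ▸ h3
      obtain ⟨a, ha⟩ := degree_zero h2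
      have h3 : a ≠ 0 := by
        rintro rfl
        rw [ha, zero_smul, map_zero] at hne
        exact hne rfl
      have h4 : u • (x' + xK) ∈ N := N.smul_mem u hxN
      rw [smul_add, h1, zero_add, ha] at h4
      have h5 := (N.restrictScalars F).smul_mem a⁻¹ h4
      rw [smul_smul, inv_mul_cancel₀ h3, one_smul] at h5
      exact h5

/-- The module `L_{c,h}` is a simple module over the enveloping algebra. -/
theorem simple_isSimple (c h : F) : IsSimpleModule (UVir F) (Simple F c h) := by
  change IsSimpleModule (UVir F) (Verma F c h ⧸ maxGraded F c h)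
  rw [isSimpleModule_iff_isCoatom]
  constructor
  · intro htop
    apply vac_not_mem (F := F) (c := c) (h := h)
    rw [htop]; trivial
  · intro N hN
    obtain ⟨hle, x, hxN, hx⟩ := SetLike.lt_iff_le_and_exists.mp hN
    apply eq_top_of_vac
    have hall : x ∈ ⨆ k : ℕ, degreePart F (vac F c h) k := by
      obtain ⟨u, rfl⟩ := exists_smul_vac x
      refine stable_of (⨆ k : ℕ, degreePart F (vac F c h) k) ?_ ?_ u _ ?_
      · intro n z hz
        induction hz using Submodule.iSup_induction' with
        | mem j y hy =>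
          have h1 : uL F n • y ∈ dP (F := F) (vac F c h) ((j : ℤ) - n) :=
            vacHW.act_dP (by rw [dP_nat]; exact hy) n
          rcases lt_or_ge ((j : ℤ) - n) 0 with hlt | hge
          · unfold dP at h1
            rw [if_pos hlt, Submodule.mem_bot] at h1
            rw [h1]; exact zero_mem _
          · obtain ⟨i, hi⟩ := Int.eq_ofNat_of_zero_le hge
            rw [hi, dP_nat] at h1
            exact Submodule.mem_iSup_of_mem i h1
        | zero => rw [smul_zero]; exact zero_mem _
        | add y z _ _ ihy ihz => rw [smul_add]; exact add_mem ihy ihz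
      · intro z hz
        rw [C_smul]
        exact Submodule.smul_mem _ _ hz
      · refine Submodule.mem_iSup_of_mem 0 (Submodule.subset_span ⟨[], by simp, rfl, ?_⟩)
        rw [mono_nil, one_smul]
    have hfin : ∃ K : ℕ, x ∈ ⨆ k : Fin K, degreePart F (vac F c h) (k : ℕ) := by
      have mono' : ∀ {K K' : ℕ}, K ≤ K' → (⨆ k : Fin K, degreePart F (vac F c h) (k : ℕ)) ≤
          ⨆ k : Fin K', degreePart F (vac F c h) (k : ℕ) := by
        intro K K' hK
        refine iSup_le fun k => ?_
        exact le_iSup (fun k : Fin K' => degreePart F (vac F c h) (k : ℕ))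
          ⟨k, lt_of_lt_of_le k.2 hK⟩
      clear hxN hx
      induction hall using Submodule.iSup_induction' with
      | mem k y hy =>
        exact ⟨k + 1, Submodule.mem_iSup_of_mem (⟨k, by omega⟩ : Fin (k + 1)) hy⟩
      | zero => exact ⟨0, zero_mem _⟩
      | add y z _ _ ihy ihz =>
        obtain ⟨K1, h1⟩ := ihy
        obtain ⟨K2, h2⟩ := ihz
        exact ⟨max K1 K2, add_mem (mono' (le_max_left _ _) h1) (mono' (le_max_right _ _) h2)⟩
    obtain ⟨K, hK⟩ := hfin
    exact vac_mem_of hle K x hxN hK hx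

/-! ### Dimensions in degree eight -/

/-- In characteristic zero with `c = 7/10`, `h = 0` the degree eight part has dimension seven. -/
lemma finrank_char_zero [CharZero F] :
    Module.finrank F (degreePart F (svac F (7 / 10) 0) 8) = 7 := by
  rw [degree8_eq svac_neg_one]
  have hli : LinearIndependent F (vec8 (F := F) (svac F (7 / 10) 0)) := by
    rw [Fintype.linearIndependent_iff]
    intro g hg
    simp only [Fin.sum_univ_succ, vec8, Finset.univ_eq_empty, Finset.sum_empty] at hg
    have h1 : g 0 • uL F (-8) • svac F (7 / 10) 0 +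
        g 1 • uL F (-6) • uL F (-2) • svac F (7 / 10) 0 +
        g 2 • uL F (-5) • uL F (-3) • svac F (7 / 10) 0 +
        g 3 • uL F (-4) • uL F (-4) • svac F (7 / 10) 0 +
        g 4 • uL F (-4) • uL F (-2) • uL F (-2) • svac F (7 / 10) 0 +
        g 5 • uL F (-3) • uL F (-3) • uL F (-2) • svac F (7 / 10) 0 +
        g 6 • uL F (-2) • uL F (-2) • uL F (-2) • uL F (-2) • svac F (7 / 10) 0 = 0 := by
      rw [← hg]
      simp only [add_assoc, add_zero]
      rfl
    obtain ⟨h2, h3, h4, h5, h6, h7, h8⟩ := ind8 svacHW svac_neg_one svac_ne h1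
    intro i
    fin_cases i
    · exact h2
    · exact h3
    · exact h4
    · exact h5
    · exact h6
    · exact h7
    · exact h8
  rw [finrank_span_eq_card hli]
  rfl

section char37

variable {M : Type*} [AddCommGroup M] [Module F M] [Module (UVir F) M] [IsScalarTower F (UVir F) M]

/-- The singular vector in characteristic `37`. -/
noncomputable def sing (y : M) : M :=
  (-8 : F) • uL F (-8) • y + (-6 : F) • uL F (-6) • uL F (-2) • y +
      (7 : F) • uL F (-5) • uL F (-3) • y + (9 : F) • uL F (-4) • uL F (-4) • y +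
      (-7 : F) • uL F (-4) • uL F (-2) • uL F (-2) • y +
      (16 : F) • uL F (-3) • uL F (-3) • uL F (-2) • y +
      (1 : F) • uL F (-2) • uL F (-2) • uL F (-2) • uL F (-2) • y

lemma sing_L1 {y : M} (H : HW c 0 y) (H1 : uL F (-1) • y = 0) (h37 : (37 : F) = 0) :
    uL F 1 • sing (F := F) y = 0 := by
  rw [sing, L1_deg8 H H1]
  have e1 : (9 * (-8) + 5 * 9 + 27 * 1 : F) = 0 := by norm_num
  have e2 : (7 * (-6) + 4 * 7 + 4 * 16 + 24 * 1 : F) = 0 := by linear_combination 2 * h37
  have e3 : (6 * 7 + 10 * 9 + 3 * (-7) : F) = 0 := by linear_combination 3 * h37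
  have e4 : (5 * (-7) + 8 * 16 + 18 * 1 : F) = 0 := by linear_combination 3 * h37
  rw [e1, e2, e3, e4]
  simp

lemma sing_L2 {y : M} (H : HW c 0 y) (H1 : uL F (-1) • y = 0) (h37 : (37 : F) = 0)
    (hc : 2⁻¹ * c = 17) : uL F 2 • sing (F := F) y = 0 := by
  rw [sing, L2_deg8 H H1, hc]
  have e1 : (10 * (-8) + 17 * (-6) + 12 * 9 : F) = 0 := by linear_combination (-2) * h37
  have e2 : (8 * (-6) + 12 * 9 + (8 + 17) * (-7) + 17 * (-7) + 10 * 16 : F) = 0 := by
    linear_combination (-2) * h37
  have e3 : (7 * 7 + (17 + 10) * 16 : F) = 0 := by linear_combination 13 * h37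
  have e4 : (6 * (-7) + (48 + 4 * 17) * 1 : F) = 0 := by linear_combination 2 * h37
  rw [e1, e2, e3, e4]
  simp

lemma lower_all {x : M} (h37 : (37 : F) = 0) (h1 : uL F 1 • x = 0) (h2 : uL F 2 • x = 0) :
    ∀ n : ℤ, 0 < n → n ≤ 8 → uL F n • x = 0 := by
  have step : ∀ n : ℤ, 2 ≤ n → ((n - 1 : ℤ) : F) ≠ 0 → uL F n • x = 0 → uL F (n + 1) • x = 0 := by
    intro n hn hne hx
    have h3 := uL_smul_comm (F := F) n 1 x
    rw [h1, hx, smul_zero, smul_zero, zero_add, if_neg (by omega), zero_smul, add_zero] at h3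
    exact (smul_eq_zero.mp h3.symm).resolve_left hne
  have n2 : (2 : F) ≠ 0 := by
    intro h0
    exact one_ne_zero (α := F) (by linear_combination h37 - 18 * h0)
  have n3 : (3 : F) ≠ 0 := by
    intro h0
    exact one_ne_zero (α := F) (by linear_combination h37 - 12 * h0)
  have n5 : (5 : F) ≠ 0 := by
    intro h0
    exact one_ne_zero (α := F) (by linear_combination (-2) * h37 + 15 * h0)
  have h3 := step 2 (by norm_num) (by norm_num) h2
  norm_num at h3
  have h4 := step 3 (by norm_num) (by norm_num; exact n2) h3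
  norm_num at h4
  have h5 := step 4 (by norm_num) (by norm_num; exact n3) h4
  norm_num at h5
  have h6 := step 5 (by norm_num) (by
    have : (4 : F) = 2 * 2 := by norm_num
    norm_num
    rw [this]; exact mul_ne_zero n2 n2) h5
  norm_num at h6
  have h7 := step 6 (by norm_num) (by norm_num; exact n5) h6
  norm_num at h7
  have h8 := step 7 (by norm_num) (by
    have : (6 : F) = 2 * 3 := by norm_num
    norm_num
    rw [this]; exact mul_ne_zero n2 n3) h7
  norm_num at h8
  intro n hn hn8
  have : n = 1 ∨ n = 2 ∨ n = 3 ∨ n = 4 ∨ n = 5 ∨ n = 6 ∨ n = 7 ∨ n = 8 := by omega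
  rcases this with rfl | rfl | rfl | rfl | rfl | rfl | rfl | rfl <;> assumption

end char37

lemma sing_mem (v : Verma F c h) : sing (F := F) v ∈ degreePart F v 8 := by
  have key : ∀ l : List ℕ, (∀ i ∈ l, 0 < i) → l.sum = 8 → mono F l • v ∈ degreePart F v 8 := by
    intro l hl hs
    exact Submodule.subset_span ⟨l, hl, hs, rfl⟩
  have k1 := key [8] (by simp) (by simp)
  have k2 := key [6, 2] (by simp) (by simp)
  have k3 := key [5, 3] (by simp) (by simp)
  have k4 := key [4, 4] (by simp) (by simp)
  have k5 := key [4, 2, 2] (by simp) (by simp)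
  have k6 := key [3, 3, 2] (by simp) (by simp)
  have k7 := key [2, 2, 2, 2] (by simp) (by simp)
  simp only [mono_cons, mono_nil, mul_smul, mul_one, Nat.cast_ofNat] at k1 k2 k3 k4 k5 k6 k7
  unfold sing
  exact add_mem (add_mem (add_mem (add_mem (add_mem (add_mem (Submodule.smul_mem _ _ k1)
    (Submodule.smul_mem _ _ k2)) (Submodule.smul_mem _ _ k3)) (Submodule.smul_mem _ _ k4))
    (Submodule.smul_mem _ _ k5)) (Submodule.smul_mem _ _ k6)) (Submodule.smul_mem _ _ k7)

lemma sing_map (v : Verma F c h) : simpleMk F c h (sing (F := F) v) =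
    sing (F := F) (simpleMk F c h v) := by
  simp only [sing, map_add, simpleMk_smul, map_smul]

lemma sing_zero (h37 : (37 : F) = 0) (hc : 2⁻¹ * c = 17) : sing (F := F) (svac F c 0) = 0 := by
  have hs1 : uL F 1 • sing (F := F) (svac F c 0) = 0 := sing_L1 svacHW svac_neg_one h37
  have hs2 : uL F 2 • sing (F := F) (svac F c 0) = 0 := sing_L2 svacHW svac_neg_one h37 hc
  have hall := lower_all h37 hs1 hs2
  rw [svac, ← sing_map, simpleMk_eq_zero]
  refine mem_max_of_Rad (sing_mem _) (crit (by norm_num) (sing_mem _) ?_)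
  intro n hn
  rcases le_or_gt n 8 with h8 | h8
  · apply max_le_Rad
    have h1 := hall n hn h8
    rw [svac, ← sing_map, ← map_smul, simpleMk_eq_zero] at h1
    exact h1
  · have h1 := vacHW.act_dP (F := F) (k := 8) (x := sing (F := F) (vac F c 0)) (v := vac F c 0) (by
      have := dP_nat (F := F) (v := vac F c 0) 8
      rw [Nat.cast_ofNat] at this
      rw [this]; exact sing_mem _) n
    unfold dP at h1
    rw [if_pos (by omega), Submodule.mem_bot] at h1
    rw [h1]; exact zero_mem _

/-- In characteristic `37` with `c = 7/10`, `h = 0` the degree eight part has dimension at most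
six. -/
lemma finrank_char37 (h37 : (37 : F) = 0) (hc : 2⁻¹ * c = 17) :
    Module.finrank F (degreePart F (svac F c 0) 8) ≤ 6 := by
  have hz := sing_zero h37 hc
  have h1 : degreePart F (svac F c 0) 8 = Submodule.span F
      (Set.range (fun i : Fin 6 => vec8 (F := F) (svac F c 0) i.castSucc)) := by
    rw [degree8_eq svac_neg_one]
    apply le_antisymm
    · refine Submodule.span_le.mpr ?_
      rintro x ⟨i, rfl⟩
      have hv : ∀ i : Fin 6, vec8 (F := F) (svac F c 0) i.castSucc ∈ Submodule.span F
        (Set.range (fun i : Fin 6 => vec8 (F := F) (svac F c 0) i.castSucc)) :=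
        fun i => Submodule.subset_span ⟨i, rfl⟩
      rcases Fin.eq_castSucc_or_eq_last i with ⟨j, rfl⟩ | rfl
      · exact hv j
      · have e : vec8 (F := F) (svac F c 0) (Fin.last 6) =
            (8 : F) • vec8 (F := F) (svac F c 0) (Fin.castSucc 0) +
            (6 : F) • vec8 (F := F) (svac F c 0) (Fin.castSucc 1) -
            (7 : F) • vec8 (F := F) (svac F c 0) (Fin.castSucc 2) -
            (9 : F) • vec8 (F := F) (svac F c 0) (Fin.castSucc 3) +
            (7 : F) • vec8 (F := F) (svac F c 0) (Fin.castSucc 4) -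
            (16 : F) • vec8 (F := F) (svac F c 0) (Fin.castSucc 5) := by
          rw [← sub_eq_zero, ← hz, sing]
          simp only [vec8]
          change _ = (-8 : F) • uL F (-8) • svac F c 0 + _ + _ + _ + _ + _ + _
          have d0 : (![uL F (-8) • svac F c 0, uL F (-6) • uL F (-2) • svac F c 0,
            uL F (-5) • uL F (-3) • svac F c 0, uL F (-4) • uL F (-4) • svac F c 0,
            uL F (-4) • uL F (-2) • uL F (-2) • svac F c 0,
            uL F (-3) • uL F (-3) • uL F (-2) • svac F c 0,
            uL F (-2) • uL F (-2) • uL F (-2) • uL F (-2) • svac F c 0] : Fin 7 → Simple F c 0)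
              (Fin.last 6) = uL F (-2) • uL F (-2) • uL F (-2) • uL F (-2) • svac F c 0 := rfl
          rw [d0]
          change uL F (-2) • uL F (-2) • uL F (-2) • uL F (-2) • svac F c 0 -
            ((8 : F) • uL F (-8) • svac F c 0 + (6 : F) • uL F (-6) • uL F (-2) • svac F c 0 -
            (7 : F) • uL F (-5) • uL F (-3) • svac F c 0 -
            (9 : F) • uL F (-4) • uL F (-4) • svac F c 0 +
            (7 : F) • uL F (-4) • uL F (-2) • uL F (-2) • svac F c 0 -
            (16 : F) • uL F (-3) • uL F (-3) • uL F (-2) • svac F c 0) = _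
          generalize uL F (-2) • uL F (-2) • uL F (-2) • uL F (-2) • svac F c 0 = z6
          generalize uL F (-3) • uL F (-3) • uL F (-2) • svac F c 0 = z5
          generalize uL F (-4) • uL F (-2) • uL F (-2) • svac F c 0 = z4
          generalize uL F (-4) • uL F (-4) • svac F c 0 = z3
          generalize uL F (-5) • uL F (-3) • svac F c 0 = z2
          generalize uL F (-6) • uL F (-2) • svac F c 0 = z1
          generalize uL F (-8) • svac F c 0 = z0
          module
        rw [e]
        exact sub_mem (add_mem (sub_mem (sub_mem (add_mem (Submodule.smul_mem _ _ (hv 0))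
          (Submodule.smul_mem _ _ (hv 1))) (Submodule.smul_mem _ _ (hv 2)))
          (Submodule.smul_mem _ _ (hv 3))) (Submodule.smul_mem _ _ (hv 4)))
          (Submodule.smul_mem _ _ (hv 5))
    · refine Submodule.span_mono ?_
      rintro x ⟨i, rfl⟩
      exact ⟨_, rfl⟩
  rw [h1]
  exact finrank_range_le_card _

lemma cMin37 (h37 : (37 : F) = 0) : 2⁻¹ * cMin F 3 = 17 := by
  have n2 : (2 : F) ≠ 0 := by
    intro h0
    exact one_ne_zero (α := F) (by linear_combination h37 - 18 * h0)
  have n5 : (5 : F) ≠ 0 := by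
    intro h0
    exact one_ne_zero (α := F) (by linear_combination (-2) * h37 + 15 * h0)
  have n20 : (20 : F) ≠ 0 := by
    have : (20 : F) = 2 * (2 * 5) := by norm_num
    rw [this]; exact mul_ne_zero n2 (mul_ne_zero n2 n5)
  have e : cMin F 3 = 1 - 6 / 20 := by
    simp only [cMin]; norm_num
  rw [e]
  have h1 : (2 : F) * (2⁻¹ * (1 - 6 / 20)) * 20 = 14 := by
    field_simp
    norm_num
  have h2 : (2 : F) * 17 * 20 = 14 := by linear_combination 18 * h37
  have h3 : (2 : F) * (2⁻¹ * (1 - 6 / 20)) * 20 = 2 * 17 * 20 := by rw [h1, h2]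
  exact mul_left_cancel₀ n2 (mul_right_cancel₀ n20 h3)


end Pool.Agent.Helper855.Virasoro
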